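import Mathlib

/-! Locally constant cocycles on a simply connected space are coboundaries. -/

open Set Filter Topology

noncomputable section

namespace Pool.Agent.Lib.MP_399f8e_an.Ce

/-- a copy of a type with the discrete topology -/
def Dsc (A : Type) : Type := A

instance (A : Type) : TopologicalSpace (Dsc A) := ⊥

instance (A : Type) : DiscreteTopology (Dsc A) := ⟨rfl⟩

variable {X : Type} [TopologicalSpace X] {A : Type} [AddCommGroup A] {ι : Type}

/-- translation in the discrete copy -/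
def tr (c : A) (a : Dsc A) : Dsc A := (show A from a) - c

/-- the bundle with discrete fibre defined by a cocycle -/
def core (U : ι → Set X) (hU : ∀ i, IsOpen (U i)) (hc : ∀ x, ∃ i, x ∈ U i) (c : ι → ι → X → A)
    (hl : ∀ i j, ∀ x ∈ U i, x ∈ U j → ∀ᶠ y in 𝓝 x, c i j y = c i j x)
    (hk : ∀ i j k, ∀ x ∈ U i, x ∈ U j → x ∈ U k → c i j x + c j k x = c i k x) :
    FiberBundleCore ι X (Dsc A) where
  baseSet := U
  isOpen_baseSet := hU
  indexAt x := (hc x).choose
  mem_baseSet_at x := (hc x).choose_spec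
  coordChange i j x a := tr (c i j x) a
  coordChange_self i x hx a := by
    have h := hk i i i x hx hx hx
    have h0 : c i i x = 0 := by simpa using h
    simp [tr, h0]
  continuousOn_coordChange i j := by
    rintro ⟨x, a⟩ ⟨⟨hi, hj⟩, -⟩
    refine ContinuousAt.continuousWithinAt ?_
    have h1 : ∀ᶠ p : X × Dsc A in 𝓝 (x, a), c i j p.1 = c i j x :=
      (continuous_fst.tendsto (x, a)).eventually (hl i j x hi hj)
    have h2 : ∀ᶠ p : X × Dsc A in 𝓝 (x, a), p.2 = a :=
      (continuous_snd.tendsto (x, a)).eventually (p := fun y => y = a) (by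
        rw [nhds_discrete]; exact eventually_pure.2 rfl)
    refine (continuousAt_const (y := tr (c i j x) a)).congr ?_
    filter_upwards [h1, h2] with p p1 p2
    rw [p1, p2]
  coordChange_comp i j k x hx a := by
    have h := hk i j k x hx.1.1 hx.1.2 hx.2
    simp only [tr, ← h]
    exact sub_sub (show A from a) _ _

theorem cech [SimplyConnectedSpace X] [LocallyPathConnectedSpace X] (U : ι → Set X)
    (hU : ∀ i, IsOpen (U i)) (hc : ∀ x, ∃ i, x ∈ U i) (c : ι → ι → X → A)
    (hl : ∀ i j, ∀ x ∈ U i, x ∈ U j → ∀ᶠ y in 𝓝 x, c i j y = c i j x)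
    (hk : ∀ i j k, ∀ x ∈ U i, x ∈ U j → x ∈ U k → c i j x + c j k x = c i k x) :
    ∃ b : ι → X → A, (∀ i, ∀ x ∈ U i, ∀ᶠ y in 𝓝 x, b i y = b i x) ∧
      ∀ i j, ∀ x ∈ U i, x ∈ U j → c i j x = b i x - b j x := by
  set Z := core U hU hc c hl hk with hZ
  have hcov : IsCoveringMap Z.proj := FiberBundle.isCoveringMap (F := Dsc A) (E := Z.Fiber)
  obtain ⟨x0⟩ : Nonempty X := inferInstance
  obtain ⟨s, ⟨-, hs⟩, -⟩ := hcov.existsUnique_continuousMap_lifts (ContinuousMap.id X) x0
    (⟨x0, (show Dsc A from (0 : A))⟩ : Z.TotalSpace) rfl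
  have hp : ∀ x, (s x).1 = x := fun x => congrFun hs x
  refine ⟨fun i x => (show A from (Z.localTriv i (s x)).2), fun i x hx => ?_, fun i j x hi hj => ?_⟩
  · have hsrc : s x ∈ (Z.localTriv i).source := by
      rw [Z.mem_localTriv_source, hp]; exact hx
    have h1 : ContinuousAt (fun y => (Z.localTriv i (s y)).2) x :=
      continuousAt_snd.comp (((Z.localTriv i).continuousAt hsrc).comp s.continuous.continuousAt)
    have h2 := h1.tendsto
    rw [nhds_discrete (Dsc A)] at h2
    exact tendsto_pure.1 h2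
  · have h := hk (Z.indexAt x) i j x (Z.mem_baseSet_at x) hi hj
    change c i j x = ((show A from (s x).2) - c (Z.indexAt (s x).1) i (s x).1) -
      ((show A from (s x).2) - c (Z.indexAt (s x).1) j (s x).1)
    rw [show c (Z.indexAt (s x).1) i (s x).1 = c (Z.indexAt x) i x by rw [hp],
      show c (Z.indexAt (s x).1) j (s x).1 = c (Z.indexAt x) j x by rw [hp], ← h]
    abel

/-- Gluing of local primitives modulo locally constant differences: the functions `F i` live on
`U i` minus the bad set, and near each point of an overlap two of them differ by a constant off the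
bad set. If the complement of the bad set accumulates everywhere they glue after adding locally
constant terms. -/
theorem glue [SimplyConnectedSpace X] [LocallyPathConnectedSpace X] (U : ι → Set X)
    (hU : ∀ i, IsOpen (U i)) (hc : ∀ x, ∃ i, x ∈ U i) (K : Set X) (hK : Dense Kᶜ)
    (F : ι → X → A)
    (hF : ∀ i j, ∀ x ∈ U i, x ∈ U j → ∃ a : A, ∀ᶠ y in 𝓝 x, y ∉ K → F i y - F j y = a) :
    ∃ (θ : X → A) (b : ι → X → A), (∀ i, ∀ x ∈ U i, ∀ᶠ y in 𝓝 x, b i y = b i x) ∧
      ∀ i, ∀ x ∈ U i, x ∉ K → θ x = F i x - b i x := by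
  classical
  have fr : ∀ (x : X) {p : X → Prop}, (∀ᶠ y in 𝓝 x, p y) → ∃ y, y ∉ K ∧ p y := by
    intro x p hp
    obtain ⟨y, h1, h2⟩ := mem_closure_iff_nhds.1 (hK x) _ hp
    exact ⟨y, h2, h1⟩
  choose! c hcc using hF
  have hl : ∀ i j, ∀ x ∈ U i, x ∈ U j → ∀ᶠ y in 𝓝 x, c i j y = c i j x := by
    intro i j x hi hj
    filter_upwards [(hcc i j x hi hj).eventually_nhds, (hU i).mem_nhds hi, (hU j).mem_nhds hj]
      with y h1 h2 h3
    obtain ⟨z, hz, h4, h5⟩ := fr y (h1.and (hcc i j y h2 h3))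
    exact (h5 hz).symm.trans (h4 hz)
  have hk : ∀ i j k, ∀ x ∈ U i, x ∈ U j → x ∈ U k → c i j x + c j k x = c i k x := by
    intro i j k x hi hj hk
    obtain ⟨z, hz, h1, h2, h3⟩ :=
      fr x ((hcc i j x hi hj).and ((hcc j k x hj hk).and (hcc i k x hi hk)))
    rw [← h1 hz, ← h2 hz, ← h3 hz]
    abel
  obtain ⟨b, hb, hb'⟩ := cech U hU hc c hl hk
  choose ix hix using hc
  refine ⟨fun x => F (ix x) x - b (ix x) x, b, hb, fun i x hx hxK => ?_⟩
  have h1 := (hcc (ix x) i x (hix x) hx).self_of_nhds hxK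
  have h2 := hb' (ix x) i x (hix x) hx
  rw [h2] at h1
  change F (ix x) x - b (ix x) x = F i x - b i x
  rw [sub_eq_sub_iff_sub_eq_sub, h1]

end Pool.Agent.Lib.MP_399f8e_an.Ce
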