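import Pool.Agent.Lib.MP_399f8e_an.Lk.ADefs

open Set Filter Topology Metric MeasureTheory
open scoped RealInnerProductSpace

noncomputable section

namespace Pool.Agent.Lib.MP_399f8e_an.Lk

open Rg

variable {W X : S → E} {ψ φ : ℝ → S → S} {L ζ m M : ℝ}

namespace AFlow1Aux

theorem gron {f : ℝ → E} {a b δ K ε : ℝ}
    (hd : ∀ t ∈ Icc a b, ∃ v : E, HasDerivAt f v t ∧ ‖v‖ ≤ K * ‖f t‖ + ε) (ha : ‖f a‖ ≤ δ)
    {t : ℝ} (ht : t ∈ Icc a b) : ‖f t‖ ≤ gronwallBound δ K ε (t - a) := by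
  choose! v hv using hd
  exact norm_le_gronwallBound_of_norm_deriv_right_le (f' := v)
    (fun s hs => (hv s hs).1.continuousAt.continuousWithinAt)
    (fun s hs => (hv s (Ico_subset_Icc_self hs)).1.hasDerivWithinAt) ha
    (fun s hs => (hv s (Ico_subset_Icc_self hs)).2) t ht

theorem gb_le {K ε x : ℝ} (hK : 0 < K) (hε : 0 ≤ ε) :
    gronwallBound 0 K ε x ≤ ε * x * Real.exp (K * x) := by
  rw [gronwallBound_of_K_ne_0 hK.ne']
  have h1 := Real.add_one_le_exp (-(K * x))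
  have h2 : Real.exp (-(K * x)) * Real.exp (K * x) = 1 := by rw [← Real.exp_add]; simp
  have h3 := Real.exp_pos (K * x)
  have h4 : Real.exp (K * x) - 1 ≤ K * (x * Real.exp (K * x)) := by nlinarith
  have h5 : ε / K * (Real.exp (K * x) - 1) ≤ ε / K * (K * (x * Real.exp (K * x))) :=
    mul_le_mul_of_nonneg_left h4 (div_nonneg hε hK.le)
  have h6 : ε / K * (K * (x * Real.exp (K * x))) = ε * x * Real.exp (K * x) := by
    field_simp
  simp only [zero_mul, zero_add]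
  linarith

theorem mvt {f f' : ℝ → E} {C t : ℝ} (hd : ∀ s, HasDerivAt f (f' s) s)
    (hb : ∀ s, |s| ≤ |t| → ‖f' s‖ ≤ C) : ‖f t - f 0‖ ≤ C * |t| := by
  have := (convex_Icc (-|t|) |t|).norm_image_sub_le_of_norm_hasDerivWithin_le (f := f) (f' := f')
    (C := C) (x := 0) (y := t) (fun s _ => (hd s).hasDerivWithinAt)
    (fun s hs => hb s (abs_le.2 hs)) ⟨by simp, abs_nonneg t⟩ ⟨neg_abs_le t, le_abs_self t⟩
  simpa using this

end AFlow1Aux

open AFlow1Aux

theorem LF.contW (h : LF W ψ L) : Continuous W := by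
  refine (LipschitzWith.of_dist_le_mul (K := ⟨L, h.L_pos.le⟩) fun x y => ?_).continuous
  rw [dist_eq_norm, Subtype.dist_eq, dist_eq_norm]
  exact h.lip x y

theorem LF.cont_orb (h : LF W ψ L) (x : S) : Continuous (orb ψ x) := by
  exact h.cont.comp (continuous_id.prodMk continuous_const)

/-- Gronwall (`dist_le_of_approx_trajectories_ODE_of_mem` for the field `W ∘ N`, Lipschitz on the
sphere, and `gronwallBound 0 L ζ t ≤ ζ t exp (L t)`). -/
theorem LF.shadow (h : LF W ψ L) {k : ℝ → S} {a b : ℝ} (hk : PC W ζ k a b) {t : ℝ}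
    (ht : t ∈ Icc a b) :
    ‖(k t : E) - ψ (t - a) (k a)‖ ≤ ζ * (t - a) * Real.exp (L * (t - a)) := by
  have hζ : 0 ≤ ζ := by
    obtain ⟨v, _, hv⟩ := hk.der t ht
    exact (norm_nonneg _).trans hv
  refine (gron (f := fun s => (k s : E) - ψ (s - a) (k a)) (δ := 0) (K := L) (ε := ζ)
    (fun s hs => ?_) (by simp [h.zero]) ht).trans (gb_le h.L_pos hζ)
  obtain ⟨v, hv, hv'⟩ := hk.der s hs
  refine ⟨v - W (ψ (s - a) (k a)), hv.sub ((h.der (k a) (s - a)).comp_sub_const s a), ?_⟩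
  have e : v - W (ψ (s - a) (k a)) = (W (k s) - W (ψ (s - a) (k a))) + (v - W (k s)) := by abel
  rw [e]
  exact (norm_add_le _ _).trans (add_le_add (h.lip _ _) hv')

theorem LF.uniq (h : LF W ψ L) {k : ℝ → S} {a b : ℝ} (hc : Continuous k)
    (hk : ∀ t ∈ Icc a b, HasDerivAt (fun t => (k t : E)) (W (k t)) t) {t : ℝ} (ht : t ∈ Icc a b) :
    k t = ψ (t - a) (k a) := by
  have := h.shadow (ζ := 0) ⟨hc, fun s hs => ⟨_, hk s hs, by simp⟩⟩ ht
  simp only [zero_mul, norm_le_zero_iff, sub_eq_zero] at this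
  exact Subtype.ext this

theorem LF.uniq_all (h : LF W ψ L) {k : ℝ → S}
    (hk : ∀ t, HasDerivAt (fun t => (k t : E)) (W (k t)) t) (s t : ℝ) :
    k (s + t) = ψ t (k s) := by
  have hc : Continuous k :=
    continuous_induced_rng.2 (continuous_iff_continuousAt.2 fun t => (hk t).continuousAt)
  have fw : ∀ s t, 0 ≤ t → k (s + t) = ψ t (k s) := fun s t ht => by
    have := h.uniq (a := s) (b := s + t) hc (fun u _ => hk u) (t := s + t) ⟨by linarith, le_rfl⟩
    simpa using this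
  rcases le_total 0 t with ht | ht
  · exact fw s t ht
  · have := fw (s + t) (-t) (by linarith)
    rw [add_neg_cancel_right] at this
    rw [this, ← h.add, add_neg_cancel, h.zero]

/-- Gronwall forwards, and for the reversed field backwards. -/
theorem LF.lip_flow (h : LF W ψ L) (t : ℝ) (x y : S) :
    ‖(ψ t x : E) - ψ t y‖ ≤ Real.exp (L * |t|) * ‖(x : E) - y‖ := by
  rw [mul_comm]
  rcases le_total 0 t with ht | ht
  · have := gron (f := fun s => (ψ s x : E) - ψ s y) (a := 0) (b := t) (δ := ‖(x : E) - y‖)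
      (K := L) (ε := 0) (fun s _ => ⟨_, (h.der x s).sub (h.der y s), by simpa using h.lip _ _⟩)
      (by simp [h.zero]) (t := t) ⟨ht, le_rfl⟩
    rwa [gronwallBound_ε0, sub_zero, ← abs_of_nonneg ht, abs_of_nonneg ht,
      show L * t = L * |t| by rw [abs_of_nonneg ht]] at this
  · have := gron (f := fun s => (ψ (-s) x : E) - ψ (-s) y) (a := 0) (b := -t)
      (δ := ‖(x : E) - y‖) (K := L) (ε := 0) (fun s _ => ⟨_,
        ((h.der x (-s)).sub (h.der y (-s))).scomp s (hasDerivAt_neg s), by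
          rw [neg_one_smul, norm_neg, add_zero]
          exact h.lip _ _⟩)
      (by simp [h.zero]) (t := -t) ⟨by linarith, le_rfl⟩
    rwa [gronwallBound_ε0, sub_zero, neg_neg, ← abs_of_nonpos ht] at this

/-- The derivative of the difference of the displacements is at most
`L exp (L |s|) ‖x - y‖ ≤ L exp (L |t|) ‖x - y‖`. -/
theorem LF.lip_disp (h : LF W ψ L) (t : ℝ) (x y : S) :
    ‖((ψ t x : E) - x) - ((ψ t y : E) - y)‖ ≤ L * |t| * Real.exp (L * |t|) * ‖(x : E) - y‖ := by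
  have := mvt (f := fun s => (ψ s x : E) - ψ s y) (t := t)
    (C := L * (Real.exp (L * |t|) * ‖(x : E) - y‖)) (fun s => (h.der x s).sub (h.der y s))
    fun s hs => (h.lip _ _).trans (mul_le_mul_of_nonneg_left ((h.lip_flow s x y).trans
      (mul_le_mul_of_nonneg_right (Real.exp_le_exp.2 (mul_le_mul_of_nonneg_left hs h.L_pos.le))
        (norm_nonneg _))) h.L_pos.le)
  simp only [h.zero] at this
  rw [sub_sub_sub_comm]
  linarith

theorem LF.move (h : LF W ψ L) (hM : ∀ x, ‖W x‖ ≤ M) (s t : ℝ) (x : S) :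
    ‖(ψ s x : E) - ψ t x‖ ≤ M * |s - t| := by
  have := (convex_univ (𝕜 := ℝ) (E := ℝ)).norm_image_sub_le_of_norm_hasDerivWithin_le
    (f := fun u => (ψ u x : E)) (f' := fun u => W (ψ u x)) (C := M) (x := t) (y := s)
    (fun u _ => (h.der x u).hasDerivWithinAt) (fun u _ => hM _) (mem_univ _) (mem_univ _)
  simpa using this

theorem LF.taylor (h : LF W ψ L) (hM : ∀ x, ‖W x‖ ≤ M) (t : ℝ) (x : S) :
    ‖(ψ t x : E) - x - t • W x‖ ≤ L * M * t ^ 2 := by
  have hM0 : 0 ≤ M := (norm_nonneg _).trans (hM x)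
  have := mvt (f := fun s => (ψ s x : E) - s • W x) (f' := fun s => W (ψ s x) - W x) (t := t)
    (C := L * (M * |t|))
    (fun s => (h.der x s).sub (by simpa using (hasDerivAt_id s).smul_const (W x)))
    fun s hs => (h.lip _ _).trans (mul_le_mul_of_nonneg_left (by
      have := h.move hM s 0 x
      rw [h.zero, sub_zero] at this
      exact this.trans (mul_le_mul_of_nonneg_left hs hM0)) h.L_pos.le)
  simp only [h.zero, zero_smul, sub_zero] at this
  rw [sub_right_comm, ← sq_abs]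
  linarith

theorem LF.pc (h : LF W ψ L) (hζ : ∀ x, ‖W x - X x‖ ≤ ζ) (x : S) (a b : ℝ) :
    PC X ζ (orb ψ x) a b := by
  exact ⟨h.cont_orb x, fun t _ => ⟨_, h.der x t, hζ _⟩⟩

theorem PC.mono {k : ℝ → S} {a b a' b' ζ' : ℝ} (h : PC X ζ k a b) (ha : a ≤ a') (hb : b' ≤ b)
    (hζ : ζ ≤ ζ') : PC X ζ' k a' b' := by
  refine ⟨h.cont, fun t ht => ?_⟩
  obtain ⟨v, h1, h2⟩ := h.der t ⟨ha.trans ht.1, ht.2.trans hb⟩
  exact ⟨v, h1, h2.trans hζ⟩

theorem NoRet.mono {η t₁ τ ζ' η' t₁' τ' : ℝ} (h : NoRet X ζ η t₁ τ) (hζ : ζ' ≤ ζ) (hη : η' ≤ η)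
    (ht : t₁ ≤ t₁') (hτ : τ' ≤ τ) : NoRet X ζ' η' t₁' τ' := by
  intro k a b hk h1 h2
  exact hη.trans_lt (h k a b (hk.mono le_rfl le_rfl hζ) (ht.trans h1) (h2.trans hτ))

/-- `‖φ t x - x‖` has a positive minimum `3 η` on `Icc t₁ τ ×ˢ univ`; `shadow`. -/
theorem Base.exists_noRet (h : Base X φ m M L) {t₁ : ℝ} (ht : 0 < t₁) (τ : ℝ) :
    ∃ η ζ : ℝ, 0 < η ∧ 0 < ζ ∧ NoRet X ζ η t₁ τ := by
  set τ' := max τ t₁ with hτ'
  have hτ0 : 0 < τ' := ht.trans_le (le_max_right _ _)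
  have hK : IsCompact (Icc t₁ τ' ×ˢ (univ : Set S)) := isCompact_Icc.prod isCompact_univ
  have hc : Continuous fun p : ℝ × S => ‖(φ p.1 p.2 : E) - p.2‖ :=
    ((continuous_subtype_val.comp h.cont).sub (continuous_subtype_val.comp continuous_snd)).norm
  obtain ⟨p, hp, hmin⟩ := hK.exists_isMinOn ⟨(t₁, pole), ⟨le_rfl, le_max_right _ _⟩, mem_univ _⟩
    hc.continuousOn
  set c := ‖(φ p.1 p.2 : E) - p.2‖ with hcdef
  have hc0 : 0 < c := norm_pos_iff.2 (sub_ne_zero.2 fun e =>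
    h.aper p.2 p.1 (ht.trans_le hp.1.1) (Subtype.ext e))
  have he := Real.exp_pos (L * τ')
  refine ⟨c / 3, c / 3 / (τ' * Real.exp (L * τ')), by positivity, by positivity,
    fun k a b hk h1 h2 => ?_⟩
  have h3 := h.toLF.shadow hk (t := b) ⟨by linarith, le_rfl⟩
  have h4 : c ≤ ‖(φ (b - a) (k a) : E) - k a‖ :=
    hmin (a := (b - a, k a)) ⟨⟨h1, h2.trans (le_max_left _ _)⟩, mem_univ _⟩
  have h5 : b - a ≤ τ' := h2.trans (le_max_left _ _)
  have h6 : c / 3 / (τ' * Real.exp (L * τ')) * (b - a) * Real.exp (L * (b - a)) ≤ c / 3 := by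
    calc _ ≤ c / 3 / (τ' * Real.exp (L * τ')) * τ' * Real.exp (L * τ') := by
          have := h.L_pos
          gcongr
      _ = c / 3 := by field_simp
  have h7 := norm_sub_le_norm_sub_add_norm_sub (φ (b - a) (k a) : E) (k b) (k a)
  rw [norm_sub_rev (φ (b - a) (k a) : E) (k b)] at h7
  linarith

end Pool.Agent.Lib.MP_399f8e_an.Lk
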