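import Pool.Agent.Lib.MP_399f8e_an.Lk.AQ
import Pool.Agent.Lib.MP_399f8e_an.Lk.AFlow1

open Set Filter Topology Metric MeasureTheory
open scoped RealInnerProductSpace

noncomputable section

namespace Pool.Agent.Lib.MP_399f8e_an.Lk

open Rg

namespace AChordAux

theorem coord_abs_le (x : S) (k : Fin 4) : |(x : E) k| ≤ 1 := by
  have h := EuclideanSpace.norm_eq (x : E)
  have h1 : ‖(x : E) k‖ ≤ ‖(x : E)‖ := PiLp.norm_apply_le (x : E) k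
  rw [norm_coe] at h1
  simpa [Real.norm_eq_abs] using h1

theorem norm_le_of_coord {v : E} {r : ℝ} (hr : 0 ≤ r) (h : ∀ k, |v k| ≤ r / 2) : ‖v‖ ≤ r := by
  rw [EuclideanSpace.norm_eq, Real.sqrt_le_left hr, Fin.sum_univ_four]
  have hk : ∀ k, ‖v k‖ ^ 2 ≤ (r / 2) ^ 2 := fun k => by
    rw [Real.norm_eq_abs]
    exact pow_le_pow_left₀ (abs_nonneg _) (h k) 2
  nlinarith [hk 0, hk 1, hk 2, hk 3]

theorem abs_sub_le_of_floor {a b d : ℝ} (hd : 0 < d) (ha : 0 ≤ a) (hb : 0 ≤ b)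
    (h : ⌊a / d⌋₊ = ⌊b / d⌋₊) : |a - b| ≤ d := by
  have a1 := Nat.floor_le (div_nonneg ha hd.le)
  have a2 := Nat.lt_floor_add_one (a / d)
  have b1 := Nat.floor_le (div_nonneg hb hd.le)
  have b2 := Nat.lt_floor_add_one (b / d)
  rw [h] at a1 a2
  have e : a - b = (a / d - b / d) * d := by field_simp
  rw [e, abs_mul, abs_of_pos hd]
  have : |a / d - b / d| ≤ 1 := abs_le.2 ⟨by linarith, by linarith⟩
  nlinarith

theorem pc_orb {X : S → E} {φ : ℝ → S → S} {m M L ζ : ℝ} (hB : Base X φ m M L) (hζ : 0 ≤ ζ)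
    (x : S) (a b : ℝ) : PC X ζ (orb φ x) a b :=
  hB.toLF.pc (fun x => by simpa using hζ) x a b

theorem PP_bounds {X : S → E} {φ : ℝ → S → S} {m M L σ η ζ T₀ c C κ : ℝ} (hB : Base X φ m M L)
    (hPK : PK X σ η ζ T₀ c C κ) (hζ : 0 ≤ ζ) (x : S) {T : ℝ} (hT : T₀ ≤ T) :
    c * T ^ 2 ≤ PP X φ σ η x T ∧ PP X φ σ η x T ≤ C * T ^ 2 := by
  obtain ⟨h1, h2, -⟩ := hPK (orb φ x) 0 T (orb φ x) 0 T (pc_orb hB hζ x 0 T) (pc_orb hB hζ x 0 T)
    (by linarith) (by linarith)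
  have e : (T - 0) * (T - 0) = T ^ 2 := by ring
  rw [e] at h1 h2
  exact ⟨h1, h2⟩

theorem exists_xi {ε : ℝ} (hε : 0 < ε) : ∃ ξ : ℝ, 0 < ξ ∧ ξ ≤ 1 ∧ (1 + ξ) ^ 8 * (1 - ε) < 1 := by
  have hc : ContinuousAt (fun ξ : ℝ => (1 + ξ) ^ 8 * (1 - ε)) 0 := by fun_prop
  have h0 : (fun ξ : ℝ => (1 + ξ) ^ 8 * (1 - ε)) 0 < 1 := by
    show (1 + (0 : ℝ)) ^ 8 * (1 - ε) < 1
    norm_num
    exact hε
  have hev := hc.eventually (gt_mem_nhds h0)
  obtain ⟨δ, hδ, hball⟩ := Metric.eventually_nhds_iff.1 hev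
  refine ⟨min (δ / 2) 1, lt_min (by linarith) one_pos, min_le_right _ _, hball ?_⟩
  rw [Real.dist_eq, sub_zero, abs_of_pos (lt_min (by linarith) one_pos)]
  exact (min_le_left _ _).trans_lt (by linarith)

end AChordAux

open AChordAux

/-- Two of the points `φ (i h) x`, `0 ≤ i ≤ (4 / r + 3) ^ 4`, lie in the same cell of the grid of mesh
`r / 2` of the cube `[-1, 1] ^ 4`. -/
theorem exists_gap {φ : ℝ → S → S} (hφ : IsFl φ) {h r : ℝ} (hh : 0 < h) (hr : 0 < r) (hr1 : r ≤ 1) :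
    ∃ (x : S) (T : ℝ), h ≤ T ∧ T ≤ h * (7 / r) ^ 4 ∧ ‖(φ T x : E) - x‖ ≤ r := by
  classical
  set n : ℕ := ⌊4 / r⌋₊ + 1 with hn
  have hr2 : 0 < r / 2 := by linarith
  have hcell : ∀ (y : S) (k : Fin 4), ⌊((y : E) k + 1) / (r / 2)⌋₊ < n := by
    intro y k
    have h1 := abs_le.1 (coord_abs_le y k)
    have h2 : ((y : E) k + 1) / (r / 2) ≤ 4 / r := by
      rw [div_le_div_iff₀ hr2 hr]
      nlinarith
    exact Nat.lt_succ_of_le (Nat.floor_le_floor h2)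
  let f : Fin (n ^ 4 + 1) → (Fin 4 → Fin n) := fun i k =>
    ⟨⌊((φ ((i : ℕ) * h) pole : E) k + 1) / (r / 2)⌋₊, hcell _ k⟩
  have hcard : Fintype.card (Fin 4 → Fin n) < Fintype.card (Fin (n ^ 4 + 1)) := by simp
  have key : ∀ i j : Fin (n ^ 4 + 1), (i : ℕ) < j → f i = f j →
      ∃ (x : S) (T : ℝ), h ≤ T ∧ T ≤ h * (7 / r) ^ 4 ∧ ‖(φ T x : E) - x‖ ≤ r := by
    intro i j hij hf
    have hij' : ((i : ℕ) : ℝ) + 1 ≤ (j : ℕ) := by exact_mod_cast hij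
    have hj : ((j : ℕ) : ℝ) ≤ (n : ℝ) ^ 4 := by
      have := Nat.lt_succ_iff.1 j.2
      exact_mod_cast this
    have hi : (0 : ℝ) ≤ (i : ℕ) := Nat.cast_nonneg _
    have hn7 : (n : ℝ) ≤ 7 / r := by
      have h1 : ((⌊4 / r⌋₊ : ℕ) : ℝ) ≤ 4 / r := Nat.floor_le (by positivity)
      have h2 : (1 : ℝ) ≤ 3 / r := by
        rw [le_div_iff₀ hr]
        linarith
      have h3 : 7 / r = 4 / r + 3 / r := by ring
      rw [hn, h3]
      push_cast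
      linarith
    have hn4 : (n : ℝ) ^ 4 ≤ (7 / r) ^ 4 := pow_le_pow_left₀ (Nat.cast_nonneg _) hn7 4
    refine ⟨φ ((i : ℕ) * h) pole, ((j : ℕ) - (i : ℕ)) * h, by nlinarith, by nlinarith, ?_⟩
    have e : φ ((((j : ℕ) : ℝ) - (i : ℕ)) * h) (φ ((i : ℕ) * h) pole) = φ ((j : ℕ) * h) pole := by
      rw [← hφ.add]
      congr 1
      ring
    rw [e]
    refine norm_le_of_coord hr.le fun k => ?_
    have hk : ⌊((φ ((i : ℕ) * h) pole : E) k + 1) / (r / 2)⌋₊ =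
        ⌊((φ ((j : ℕ) * h) pole : E) k + 1) / (r / 2)⌋₊ := congrArg Fin.val (congrFun hf k)
    have a1 := abs_le.1 (coord_abs_le (φ ((i : ℕ) * h) pole) k)
    have a2 := abs_le.1 (coord_abs_le (φ ((j : ℕ) * h) pole) k)
    have := abs_sub_le_of_floor hr2 (by linarith) (by linarith) hk.symm
    simpa using this
  obtain ⟨i, j, hne, hf⟩ := Fintype.exists_ne_map_eq_of_card_lt f hcard
  rcases lt_or_gt_of_ne hne with hlt | hlt
  · exact key i j hlt hf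
  · exact key j i hlt hf.symm

/-- Take `ξ` with (1 + ξ) ^ 8 (1 - ε / 2) < 1`. Let `mm r` be the infimum of `PP x T` over `T ≥ h`,
gap at most `r`. For `r ≤ 2 r₁` small all these `T` are at least `T₀` (`exists_noRet`), so
`c T₀ ^ 2 ≤ mm r ≤ C (h (7 / r) ^ 4) ^ 2`. If `mm ((1 + ξ) r) < (1 - ε / 2) mm r` for all `r ≤ r₁` then
`mm (r₁ / (1 + ξ) ^ j) ≥ mm r₁ / (1 - ε / 2) ^ j` grows too fast. For a good `r` take a segment with
(1 - ε) PP ≤ (1 - ε / 2) mm r`. -/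
theorem exists_chord {ε : ℝ} (hε : 0 < ε) (hε1 : ε < 1) : ∃ ξ : ℝ, 0 < ξ ∧ ξ ≤ 1 ∧
    ∀ {X : S → E} {φ : ℝ → S → S} {m M L σ η ζ T₀ c C κ h r₀ : ℝ}, Base X φ m M L →
      PK X σ η ζ T₀ c C κ → 0 < ζ → 0 < T₀ → 0 < c → 0 < h → 0 < r₀ →
      ∃ r ∈ Ioc 0 r₀, ∃ (x₀ : S) (T : ℝ), h ≤ T ∧ ‖(φ T x₀ : E) - x₀‖ ≤ r ∧
        MinCh X φ σ η x₀ T h r ξ ε := by
  obtain ⟨ξ, hξ, hξ1, hq⟩ := exists_xi hε
  refine ⟨ξ, hξ, hξ1, ?_⟩
  intro X φ m M L σ η ζ T₀ c C κ h r₀ hB hPK hζ hT₀ hc hh hr₀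
  by_contra hcon
  obtain ⟨η', ζ', hη', hζ', hN⟩ := hB.exists_noRet hh T₀
  set r₁ : ℝ := min r₀ (min η' 1) with hr₁
  have r1pos : 0 < r₁ := lt_min hr₀ (lt_min hη' one_pos)
  have r1a : r₁ ≤ r₀ := min_le_left _ _
  have r1b : r₁ ≤ η' := (min_le_right _ _).trans (min_le_left _ _)
  have r1c : r₁ ≤ 1 := (min_le_right _ _).trans (min_le_right _ _)
  have hlong : ∀ (x : S) (T : ℝ), h ≤ T → ‖(φ T x : E) - x‖ ≤ r₁ → T₀ ≤ T := by
    intro x T hT hgap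
    by_contra hlt
    have := hN (orb φ x) 0 T (pc_orb hB hζ'.le x 0 T) (by linarith) (by linarith)
    simp only [orb, hB.zero] at this
    linarith
  have hx1 : (1 : ℝ) ≤ 1 + ξ := by linarith
  have hrj : ∀ j : ℕ, 0 < r₁ / (1 + ξ) ^ j ∧ r₁ / (1 + ξ) ^ j ≤ r₁ := fun j =>
    ⟨by positivity, div_le_self r1pos.le (one_le_pow₀ hx1)⟩
  have hε0 : 0 < 1 - ε := by linarith
  have ind : ∀ j : ℕ, ∀ (x : S) (T : ℝ), h ≤ T → ‖(φ T x : E) - x‖ ≤ r₁ / (1 + ξ) ^ j →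
      c * T₀ ^ 2 ≤ (1 - ε) ^ j * PP X φ σ η x T := by
    intro j
    induction j with
    | zero =>
      intro x T hT hgap
      have hT0 := hlong x T hT (hgap.trans (hrj 0).2)
      have h1 := (PP_bounds hB hPK hζ.le x hT0).1
      have h2 : T₀ ^ 2 ≤ T ^ 2 := pow_le_pow_left₀ hT₀.le hT0 2
      rw [pow_zero, one_mul]
      nlinarith
    | succ j ih =>
      intro x T hT hgap
      have hnot : ¬ MinCh X φ σ η x T h (r₁ / (1 + ξ) ^ (j + 1)) ξ ε := fun hm =>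
        hcon ⟨_, ⟨(hrj (j + 1)).1, (hrj (j + 1)).2.trans r1a⟩, x, T, hT, hgap, hm⟩
      unfold MinCh at hnot
      push Not at hnot
      obtain ⟨x', T', hT', hgap', hlt⟩ := hnot
      have e : (1 + ξ) * (r₁ / (1 + ξ) ^ (j + 1)) = r₁ / (1 + ξ) ^ j := by
        field_simp
        ring
      rw [e] at hgap'
      refine (ih x' T' hT' hgap').trans ?_
      rw [pow_succ, mul_assoc]
      exact mul_le_mul_of_nonneg_left hlt.le (pow_nonneg hε0.le j)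
  have hup : ∀ j : ℕ,
      c * T₀ ^ 2 ≤ C * (h * (7 / r₁) ^ 4) ^ 2 * ((1 + ξ) ^ 8 * (1 - ε)) ^ j := by
    intro j
    obtain ⟨x, T, hT, hT', hgap⟩ := exists_gap hB.toIsFl hh (hrj j).1 ((hrj j).2.trans r1c)
    have hT0 := hlong x T hT (hgap.trans (hrj j).2)
    obtain ⟨h1, h2⟩ := PP_bounds hB hPK hζ.le x hT0
    have hTpos : 0 < T := by linarith
    have hC : 0 ≤ C := by
      have h3 : c * T ^ 2 ≤ C * T ^ 2 := h1.trans h2
      have h4 : c ≤ C := le_of_mul_le_mul_right h3 (by positivity)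
      linarith
    have h5 : T ^ 2 ≤ (h * (7 / (r₁ / (1 + ξ) ^ j)) ^ 4) ^ 2 := pow_le_pow_left₀ hTpos.le hT' 2
    have h6 : PP X φ σ η x T ≤ C * (h * (7 / (r₁ / (1 + ξ) ^ j)) ^ 4) ^ 2 :=
      h2.trans (mul_le_mul_of_nonneg_left h5 hC)
    refine (ind j x T hT hgap).trans ((mul_le_mul_of_nonneg_left h6 (pow_nonneg hε0.le j)).trans
      (le_of_eq ?_))
    have e : ((1 + ξ) ^ 8) ^ j = ((1 + ξ) ^ j) ^ 8 := by
      rw [← pow_mul, ← pow_mul, mul_comm]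
    rw [mul_pow ((1 + ξ) ^ 8), e]
    field_simp
  have hq0 : 0 ≤ (1 + ξ) ^ 8 * (1 - ε) := by positivity
  have hlim : Tendsto (fun j : ℕ => C * (h * (7 / r₁) ^ 4) ^ 2 * ((1 + ξ) ^ 8 * (1 - ε)) ^ j) atTop
      (𝓝 (C * (h * (7 / r₁) ^ 4) ^ 2 * 0)) :=
    (tendsto_pow_atTop_nhds_zero_of_lt_one hq0 hq).const_mul _
  have h0 := ge_of_tendsto' hlim hup
  have hpos : 0 < c * T₀ ^ 2 := by positivity
  linarith

/-- If `K t` is close to `K s`, `Gap` (with `K h = φ h x₀`, time `h`, and with `K 0 = φ T x₀`, time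
`0`) shows that the segments (x₀, t - s)` and (φ (t - s) x₀, T - t + s)` have small gaps and lengths
at least `h`, hence at least `T₀`; `QQ_split`, `QQ_shift` and `PK` give
`P ≥ P₁ + P₂ ≥ 2 (1 - ε) P` with `P > 0`. -/
theorem Knot.noMid {X : S → E} {φ : ℝ → S → S} {m M L σ η ζ T₀ c C κ : ℝ} {K : ℝ → S} {K' : ℝ → E}
    {x₀ : S} {T h r Λ A ξ ε : ℝ} (hK : Knot X φ K K' x₀ T h r Λ A) (hB : Base X φ m M L)
    (hPK : PK X σ η ζ T₀ c C κ) (hη : 0 < η) (hζ : 0 ≤ ζ) (hc : 0 < c) (hξ : 0 < ξ)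
    (hε : ε < 1 / 2) (hg : Gap φ K h r ξ) (hm : MinCh X φ σ η x₀ T h r ξ ε)
    (hl : ∀ (x : S) (T' : ℝ), h ≤ T' → ‖(φ T' x : E) - x‖ ≤ (1 + ξ) * r → T₀ ≤ T') :
    NoMid K T h r ξ := by
  intro t ht s hs
  by_contra hle
  have hle' : ‖(K t : E) - K s‖ ≤ ξ * r / 8 := not_lt.1 hle
  have hh := hK.h_pos
  have hr := hK.r_pos
  have hT := hK.hT
  have hX : Continuous X := hB.toLF.contW
  have h8 : 0 ≤ ξ * r / 8 := by positivity
  have hKt : K t = φ t x₀ := hK.orb t ⟨by linarith [ht.1], by linarith [ht.2]⟩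
  have hKh : K h = φ h x₀ := hK.orb h ⟨le_rfl, by linarith⟩
  have hK0 : K 0 = φ T x₀ := by
    rw [← hK.per 0, zero_add]
    exact hK.orb T ⟨by linarith, le_rfl⟩
  have g1 := hg s hs h ⟨by linarith, by linarith⟩ (K t) (K h) hle' (by simpa using h8)
  have g2 := hg 0 ⟨by linarith, by linarith⟩ s hs (K 0) (K t) (by simpa using h8) hle'
  have e1 : φ (-s) (K t) = φ (t - s) x₀ := by
    rw [hKt, ← hB.add]
    congr 1
    ring
  have e2 : φ (-h) (K h) = x₀ := by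
    rw [hKh, ← hB.add, neg_add_cancel, hB.zero]
  have e3 : φ (-0) (K 0) = φ (T - (t - s)) (φ (t - s) x₀) := by
    rw [neg_zero, hB.zero, hK0, ← hB.add]
    congr 1
    ring
  rw [e1, e2] at g1
  rw [e1, e3] at g2
  have hw : (1 + ξ / 2) * r ≤ (1 + ξ) * r := by nlinarith
  have hu1 : h ≤ t - s := by linarith [ht.1, hs.2]
  have hu2 : h ≤ T - (t - s) := by linarith [ht.2, hs.1]
  generalize t - s = u at g1 g2 hu1 hu2
  have l1 := hl x₀ u hu1 (g1.trans hw)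
  have l2 := hl (φ u x₀) (T - u) hu2 (g2.trans hw)
  have m1 := hm x₀ u hu1 (g1.trans hw)
  have m2 := hm (φ u x₀) (T - u) hu2 (g2.trans hw)
  have hsplit := QQ_split (σ := σ) hX hη (hB.toLF.cont_orb x₀) 0 u T
  have eo : Lk.orb φ (φ u x₀) = fun t => Lk.orb φ x₀ (t + u) := by
    funext v
    exact (hB.add v u x₀).symm
  have hP2 : PP X φ σ η (φ u x₀) (T - u) = QQ X σ η (Lk.orb φ x₀) u T (Lk.orb φ x₀) u T := by
    unfold PP
    rw [eo, QQ_shift, zero_add, sub_add_cancel]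
  obtain ⟨hcross, -, -⟩ := hPK (Lk.orb φ x₀) 0 u (Lk.orb φ x₀) u T (pc_orb hB hζ x₀ 0 u)
    (pc_orb hB hζ x₀ u T) (by linarith) l2
  have hcpos : 0 ≤ c * ((u - 0) * (T - u)) := by
    have a1 : 0 ≤ u - 0 := by linarith
    have a2 : 0 ≤ T - u := by linarith
    positivity
  have hP := (PP_bounds hB hPK hζ x₀ (T := T) (by linarith)).1
  have hTpos : 0 < T := by linarith
  have hPpos : 0 < c * T ^ 2 := by positivity
  rw [hP2] at m2
  unfold PP at m1 m2 hP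
  nlinarith

end Pool.Agent.Lib.MP_399f8e_an.Lk
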