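import Pool.Agent.Lib.MP_399f8e_an.Lk.AQ
import Pool.Agent.Lib.MP_399f8e_an.Lk.AFlow1

open Set Filter Topology Metric MeasureTheory
open scoped RealInnerProductSpace

noncomputable section

namespace Pool.Agent.Lib.MP_399f8e_an.Lk

open Rg

variable {X W : S → E} {φ ψ : ℝ → S → S} {K : ℝ → S} {F : Set S}
  {m M L L₁ σ η ζ ζ' T₀ c C κ T h r ξ ε τ η₂ T₁ ϑ ε' B T' : ℝ} {x₀ x : S}

/-- If `ψ t y` and `ψ t' y` are within `ϱ` of `K s`, `K s'`, then `ψ (t - s) y` and `ψ (t' - s') y` are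
within `exp (2 L₁ h) ϱ` of `K 0` (`lip_flow`), at a time difference within `3 h` of `t' - t`. -/
theorem cluster (hW : LF W ψ L₁) (hK : ∀ t, K t = ψ t (K 0)) (hh : 0 < h) {ϱ : ℝ}
    (fat : ∀ p ∈ F, ∃ s ∈ Icc (-h) (2 * h), ‖(p : E) - K s‖ ≤ ϱ)
    (ret : ∀ (y : S) (t : ℝ), h ≤ t → t ≤ τ → η₂ < ‖(ψ t y : E) - y‖)
    (hη₂ : Real.exp (2 * L₁ * h) * (2 * ϱ) ≤ η₂) {y : S} {t t' : ℝ} (ht : ψ t y ∈ F)
    (ht' : ψ t' y ∈ F) (h4 : 4 * h ≤ t' - t) : τ - 3 * h < t' - t := by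
  have hL := hW.L_pos
  have back : ∀ (u s : ℝ), s ∈ Icc (-h) (2 * h) → ‖(ψ u y : E) - K s‖ ≤ ϱ →
      ‖(ψ (u - s) y : E) - K 0‖ ≤ Real.exp (2 * L₁ * h) * ϱ := by
    intro u s hs hd
    have e1 : ψ (u - s) y = ψ (-s) (ψ u y) := by
      rw [← hW.add]; congr 1; ring
    have e2 : K 0 = ψ (-s) (K s) := by
      rw [hK s, ← hW.add, neg_add_cancel, hW.zero]
    have h1 := hW.lip_flow (-s) (ψ u y) (K s)
    rw [← e1, ← e2] at h1
    have h2 : |-s| ≤ 2 * h := abs_le.2 ⟨by linarith [hs.2], by linarith [hs.1]⟩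
    have h3 : Real.exp (L₁ * |-s|) ≤ Real.exp (2 * L₁ * h) :=
      Real.exp_le_exp.2 (by nlinarith)
    exact h1.trans (mul_le_mul h3 hd (norm_nonneg _) (Real.exp_pos _).le)
  obtain ⟨s, hs, hd⟩ := fat _ ht
  obtain ⟨s', hs', hd'⟩ := fat _ ht'
  have b1 := back t s hs hd
  have b2 := back t' s' hs' hd'
  by_contra hcon
  have hcon' : t' - t ≤ τ - 3 * h := not_lt.1 hcon
  have e : ψ (t' - s') y = ψ ((t' - s') - (t - s)) (ψ (t - s) y) := by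
    rw [← hW.add]; congr 1; ring
  have h5 := ret (ψ (t - s) y) ((t' - s') - (t - s)) (by linarith [hs.1, hs'.2])
    (by linarith [hs.2, hs'.1])
  rw [← e] at h5
  have h6 : ‖(ψ (t' - s') y : E) - ψ (t - s) y‖ ≤
      ‖(ψ (t' - s') y : E) - K 0‖ + ‖(ψ (t - s) y : E) - K 0‖ := by
    have := norm_sub_le ((ψ (t' - s') y : E) - K 0) ((ψ (t - s) y : E) - K 0)
    rwa [sub_sub_sub_cancel_right] at this
  linarith

namespace AClosedAux

/-- an orbit that avoids `F` on an open interval follows `X` up to `ζ'` on the closed one -/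
theorem pc_off (hX : Continuous X) (hW : LF W ψ L₁) (off : ∀ x, x ∉ F → ‖W x - X x‖ ≤ ζ')
    {a b : ℝ} (hab : a < b) (hA : ∀ t ∈ Ioo a b, ψ t x ∉ F) : PC X ζ' (orb ψ x) a b := by
  refine ⟨hW.cont_orb x, fun t ht => ⟨W (ψ t x), hW.der x t, ?_⟩⟩
  have hc : IsClosed {t : ℝ | ‖W (ψ t x) - X (ψ t x)‖ ≤ ζ'} :=
    isClosed_le (((hW.contW.comp (hW.cont_orb x)).sub (hX.comp (hW.cont_orb x))).norm)
      continuous_const
  have hsub : Ioo a b ⊆ {t : ℝ | ‖W (ψ t x) - X (ψ t x)‖ ≤ ζ'} := fun t ht => off _ (hA t ht)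
  have := closure_minimal hsub hc
  rw [closure_Ioo hab.ne] at this
  exact this ht

theorem shadow_le (hB : Base X φ m M L) (hζ' : 0 ≤ ζ') {k : ℝ → S} {a b : ℝ}
    (hk : PC X ζ' k a b) (hab : b - a ≤ T₁) (hsh : ζ' * T₁ * Real.exp (L * T₁) ≤ ϑ) {t : ℝ}
    (ht : t ∈ Icc a b) : ‖(k t : E) - φ (t - a) (k a)‖ ≤ ϑ := by
  have hL := hB.L_pos
  have h0 : 0 ≤ t - a := sub_nonneg.2 ht.1
  have h1 : t - a ≤ T₁ := by linarith [ht.2]
  refine (hB.toLF.shadow hk ht).trans (le_trans ?_ hsh)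
  exact mul_le_mul (mul_le_mul_of_nonneg_left h1 hζ')
    (Real.exp_le_exp.2 (mul_le_mul_of_nonneg_left h1 hL.le)) (Real.exp_pos _).le
    (mul_nonneg hζ' (h0.trans h1))

/-- the long chord -/
theorem chord (hW : LF W ψ L₁) (hF : IsClosed F) (hh : 0 < h) {t₁ : ℝ} (h1 : ψ t₁ x ∈ F)
    (h2 : ψ (t₁ + T') x ∈ F) (hT' : 4 * h ≤ T')
    (cl : ∀ t, ψ t x ∈ F → 4 * h ≤ t - t₁ → τ - 3 * h < t - t₁) :
    ∃ t₂ t₃ : ℝ, ψ t₂ x ∈ F ∧ ψ t₃ x ∈ F ∧ τ - 7 * h < t₃ - t₂ ∧ t₃ - t₂ ≤ T' ∧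
      ∀ t ∈ Ioo t₂ t₃, ψ t x ∉ F := by
  have hA : IsClosed {t : ℝ | ψ t x ∈ F} := hF.preimage (hW.cont_orb x)
  have c1 : IsCompact (Icc t₁ (t₁ + 4 * h) ∩ {t : ℝ | ψ t x ∈ F}) :=
    isCompact_Icc.inter_right hA
  have c2 : IsCompact (Icc (t₁ + 4 * h) (t₁ + T') ∩ {t : ℝ | ψ t x ∈ F}) :=
    isCompact_Icc.inter_right hA
  obtain ⟨t₂, g1, g2⟩ := c1.exists_isGreatest ⟨t₁, ⟨le_rfl, by linarith⟩, h1⟩
  obtain ⟨t₃, l1, l2⟩ := c2.exists_isLeast ⟨t₁ + T', ⟨by linarith, le_rfl⟩, h2⟩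
  have h3 := cl t₃ l1.2 (by linarith [l1.1.1])
  refine ⟨t₂, t₃, g1.2, l1.2, by linarith [g1.1.2], by linarith [g1.1.1, l1.1.2],
    fun t ht hF' => ?_⟩
  rcases le_total t (t₁ + 4 * h) with h4 | h4
  · have := g2 ⟨⟨by linarith [g1.1.1, ht.1], h4⟩, hF'⟩
    exact absurd ht.1 (not_lt.2 this)
  · have := l2 ⟨⟨h4, by linarith [l1.1.2, ht.2]⟩, hF'⟩
    exact absurd ht.2 (not_lt.2 this)

end AClosedAux

/-- Let `γ = orb ψ x`, `A` the closed set of the times with `γ t ∈ F`. If `A` misses `[0, T']` then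
`γ` follows `X` up to `ζ'` and `shadow` contradicts `xret`. Let `t₁ ∈ A`; `t₁ + T' ∈ A`. Put
`t₂ = max (A ∩ [t₁, t₁ + 4 h])`, `t₃ = min (A ∩ [t₁ + 4 h, t₁ + T'])`, which is more than `t₁ + τ - 3 h`
by `cluster` (if `t₁ + 4 h ∈ A` too, contradiction); so `A` misses (t₂, t₃)`, `T'' = t₃ - t₂ ≥ τ - 7 h`,
and `‖W - X‖ ≤ ζ'` along `γ` on `[t₂, t₃]` by continuity. With `p = γ t₂` near `K s`, the point
`φ T'' p` is within `ϑ` of `γ t₃`, so within `ξ r / 8` of some `K s'`; by `Gap` the segment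
(φ (-s) p, T'' + s - s')` has a small gap, and `MinCh` applies. `QQ_shift`, `QQ_adjust`, `QQ_close` give
the bound for `P' = QQ γ t₂ t₃ γ t₂ t₃`; `Q' = QQ γ t₂ t₃ K 0 T` and `PK`. The rest `[t₃, t₂ + T']` of the
period contributes at least zero if its length is at least `T₀`, and at least `- B T₀ T` otherwise
(`QQ_periodic`, `QQ_add`, `QQ_abs_le`). -/
theorem closed_short (hB : Base X φ m M L) (hW : LF W ψ L₁) (hPK : PK X σ η ζ T₀ c C κ)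
    (hσ : |σ| = 1) (hη : 0 < η) (hc : 0 < c) (hT₀ : 0 < T₀) (hh : 0 < h) (hξ : 0 < ξ) (hr : 0 < r)
    (near : ∀ x, ‖W x - X x‖ ≤ ζ) (hF : IsClosed F) (off : ∀ x, x ∉ F → ‖W x - X x‖ ≤ ζ')
    (hζ' : 0 ≤ ζ') (hK : ∀ t, K t = ψ t (K 0))
    (fat : ∀ p ∈ F, ∃ s ∈ Icc (-h) (2 * h), ‖(p : E) - K s‖ ≤ ξ * r / 16)
    (hg : Gap φ K h r ξ) (hm : MinCh X φ σ η x₀ T h r ξ ε)
    (ret : ∀ (y : S) (t : ℝ), h ≤ t → t ≤ τ → η₂ < ‖(ψ t y : E) - y‖)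
    (hη₂ : Real.exp (2 * L₁ * h) * (ξ * r / 8) ≤ η₂) (hτ : T₀ + 12 * h ≤ τ) (h1 : τ ≤ T')
    (h2 : T' ≤ T₁) (xret : ∀ (y : S) (t : ℝ), h ≤ t → t ≤ T₁ → ϑ < ‖(φ t y : E) - y‖)
    (hsh : ζ' * T₁ * Real.exp (L * T₁) ≤ ϑ) (hϑ : ϑ ≤ ξ * r / 16)
    (hu : ∀ x x' y y' : S, ‖(x : E) - x'‖ ≤ ϑ → ‖(y : E) - y'‖ ≤ ϑ →
      |gf X η x y - gf X η x' y'| ≤ ε') (hb : ∀ x y, |gf X η x y| ≤ B) (hT : T₀ ≤ T)
    (hx : ψ T' x = x) :
    ∃ P' Q' : ℝ, (1 - ε) * PP X φ σ η x₀ T - ε' * T₁ ^ 2 - 4 * h * B * (2 * T₁ + 3 * h) ≤ P' ∧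
      0 ≤ Q' ∧ (1 / 4 + κ) * (P' * QQ X σ η K 0 T K 0 T) ≤ Q' ^ 2 ∧
      Q' - B * T₀ * T ≤ QQ X σ η (orb ψ x) 0 T' K 0 T := by
  have hX : Continuous X := hB.toLF.contW
  have hB0 : 0 ≤ B := (abs_nonneg _).trans (hb x x)
  have hT₁ : 0 < T₁ := by linarith
  have hϑ0 : 0 ≤ ϑ :=
    le_trans (mul_nonneg (mul_nonneg hζ' hT₁.le) (Real.exp_pos _).le) hsh
  have hε0 : 0 ≤ ε' := by
    have := hu x x x x (by simpa using hϑ0) (by simpa using hϑ0)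
    exact (abs_nonneg _).trans this
  have per : ∀ t, orb ψ x (t + T') = orb ψ x t := fun t => by
    show ψ (t + T') x = ψ t x
    rw [hW.add, hx]
  have hγ := hW.cont_orb x
  have eK : K = orb ψ (K 0) := funext hK
  have hKc : Continuous K := by rw [eK]; exact hW.cont_orb _
  have pcK : PC X ζ K 0 T := by rw [eK]; exact hW.pc near _ _ _
  obtain ⟨t₁, ht₁⟩ : ∃ t₁, ψ t₁ x ∈ F := by
    by_contra hcon
    have pc : PC X ζ' (orb ψ x) 0 T' :=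
      AClosedAux.pc_off hX hW off (by linarith) fun t _ hF' => hcon ⟨t, hF'⟩
    have h3 := AClosedAux.shadow_le hB hζ' pc (by linarith) hsh (t := T')
      ⟨by linarith, le_rfl⟩
    have h4 := xret x T' (by linarith) h2
    have e1 : orb ψ x T' = x := hx
    have e2 : orb ψ x 0 = x := hW.zero x
    rw [e1, e2, sub_zero, norm_sub_rev] at h3
    linarith
  have ht₁' : ψ (t₁ + T') x ∈ F := by
    have := per t₁
    simp only [orb] at this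
    rwa [this]
  obtain ⟨t₂, t₃, m2, m3, long, short, miss⟩ := AClosedAux.chord (τ := τ) hW hF hh ht₁ ht₁'
    (by linarith) fun t ht h4 => cluster hW hK hh fat ret (by
      have e : 2 * (ξ * r / 16) = ξ * r / 8 := by ring
      rwa [e]) ht₁ ht h4
  have pc : PC X ζ' (orb ψ x) t₂ t₃ := AClosedAux.pc_off hX hW off (by linarith) miss
  have sh : ∀ t ∈ Icc t₂ t₃, ‖(ψ t x : E) - φ (t - t₂) (ψ t₂ x)‖ ≤ ϑ := fun t ht =>
    AClosedAux.shadow_le hB hζ' pc (by linarith) hsh ht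
  obtain ⟨s, hs, hd⟩ := fat _ m2
  obtain ⟨s', hs', hd'⟩ := fat _ m3
  have hξr : 0 < ξ * r := mul_pos hξ hr
  set p : S := ψ t₂ x with hp
  set D : ℝ := t₃ - t₂ with hD
  have hD0 : 0 ≤ D := by linarith
  have hD1 : D ≤ T₁ := by linarith
  have n3 : ‖(φ D p : E) - K s'‖ ≤ ξ * r / 8 := by
    have a1 := sh t₃ ⟨by linarith, le_rfl⟩
    have a2 := norm_sub_le ((ψ t₃ x : E) - K s') ((ψ t₃ x : E) - φ D p)
    rw [sub_sub_sub_cancel_left] at a2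
    linarith
  have gap := hg s hs s' hs' p (φ D p) (by linarith) n3
  have eU : φ (D + s - s') (φ (-s) p) = φ (-s') (φ D p) := by
    rw [← hB.add, ← hB.add]; congr 1; ring
  have mc := hm (φ (-s) p) (D + s - s') (by linarith [hs.1, hs'.2]) (by
    rw [eU, norm_sub_rev]
    refine gap.trans ?_
    nlinarith)
  have e1 : PP X φ σ η (φ (-s) p) (D + s - s') =
      QQ X σ η (orb φ p) (-s) (D - s') (orb φ p) (-s) (D - s') := by
    have a1 : orb φ (φ (-s) p) = fun t => orb φ p (t + -s) := funext fun t => (hB.add t (-s) p).symm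
    have a2 := QQ_shift (X := X) (σ := σ) (η := η) (orb φ p) (orb φ p) 0 (D + s - s') 0
      (D + s - s') (-s) (-s)
    have a3 : D + s - s' + -s = D - s' := by ring
    rw [zero_add, a3] at a2
    rw [PP, a1]
    exact a2
  have e2 := QQ_adjust hX hη hσ hb (hB.toLF.cont_orb p) (-s) (D - s') 0 D
  have e3 : B * ((|-s - 0| + |D - s' - D|) * (|D - s' - -s| + |D - 0|)) ≤
      4 * h * B * (2 * T₁ + 3 * h) := by
    have a1 : |-s - 0| ≤ 2 * h := abs_le.2 ⟨by linarith [hs.2], by linarith [hs.1]⟩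
    have a2 : |D - s' - D| ≤ 2 * h := abs_le.2 ⟨by linarith [hs'.2], by linarith [hs'.1]⟩
    have a3 : |D - s' - -s| ≤ T₁ + 3 * h :=
      abs_le.2 ⟨by linarith [hs.1, hs'.2], by linarith [hs.2, hs'.1]⟩
    have a4 : |D - 0| ≤ T₁ := abs_le.2 ⟨by linarith, by linarith⟩
    have a5 : (|-s - 0| + |D - s' - D|) * (|D - s' - -s| + |D - 0|) ≤
        (4 * h) * (2 * T₁ + 3 * h) :=
      mul_le_mul (by linarith) (by linarith) (by positivity) (by positivity)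
    calc _ ≤ B * ((4 * h) * (2 * T₁ + 3 * h)) := mul_le_mul_of_nonneg_left a5 hB0
      _ = _ := by ring
  have e4 : QQ X σ η (fun t => orb ψ x (t + t₂)) 0 D (fun t => orb ψ x (t + t₂)) 0 D =
      QQ X σ η (orb ψ x) t₂ t₃ (orb ψ x) t₂ t₃ := by
    have a2 := QQ_shift (X := X) (σ := σ) (η := η) (orb ψ x) (orb ψ x) 0 D 0 D t₂ t₂
    have a3 : D + t₂ = t₃ := by rw [hD]; ring
    rwa [zero_add, a3] at a2
  have hsc : Continuous fun t => orb ψ x (t + t₂) := hγ.comp (continuous_add_const t₂)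
  have cl : ∀ t ∈ Icc 0 D, ‖(orb ψ x (t + t₂) : E) - orb φ p t‖ ≤ ϑ := fun t ht => by
    have := sh (t + t₂) ⟨by linarith [ht.1], by linarith [ht.2]⟩
    rwa [add_sub_cancel_right] at this
  have e5 := QQ_close hX hη hσ hsc hsc (hB.toLF.cont_orb p) (hB.toLF.cont_orb p) hu hD0 hD0 cl cl
  rw [e4] at e5
  have e6 : ε' * ((D - 0) * (D - 0)) ≤ ε' * T₁ ^ 2 :=
    mul_le_mul_of_nonneg_left (by nlinarith) hε0
  obtain ⟨k1, -, k3⟩ := hPK _ t₂ t₃ K 0 T (hW.pc near x t₂ t₃) pcK (by linarith) (by linarith)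
  refine ⟨QQ X σ η (orb ψ x) t₂ t₃ (orb ψ x) t₂ t₃, QQ X σ η (orb ψ x) t₂ t₃ K 0 T, ?_, ?_, k3, ?_⟩
  · rw [e1] at mc
    linarith [(abs_le.1 e2).2, (abs_le.1 e5).1]
  · exact le_trans (mul_nonneg hc.le (mul_nonneg hD0 (by linarith))) k1
  · rw [← QQ_periodic per K t₂ 0 T, ← QQ_add hX hη hγ hKc t₂ t₃ (t₂ + T') 0 T]
    have hBT : 0 ≤ B * T₀ * T := mul_nonneg (mul_nonneg hB0 hT₀.le) (by linarith)
    rcases le_total T₀ (t₂ + T' - t₃) with h5 | h5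
    · obtain ⟨k4, -, -⟩ := hPK _ t₃ (t₂ + T') K 0 T (hW.pc near x t₃ (t₂ + T')) pcK h5
        (by linarith)
      have : 0 ≤ c * ((t₂ + T' - t₃) * (T - 0)) :=
        mul_nonneg hc.le (mul_nonneg (by linarith) (by linarith))
      linarith
    · have k4 := QQ_abs_le (X := X) (η := η) hσ hb (orb ψ x) K t₃ (t₂ + T') 0 T
      have a1 : |t₂ + T' - t₃| ≤ T₀ := abs_le.2 ⟨by linarith, h5⟩
      have a2 : |T - 0| = T := by rw [sub_zero, abs_of_nonneg (by linarith)]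
      rw [a2] at k4
      have a3 : B * (|t₂ + T' - t₃| * T) ≤ B * (T₀ * T) :=
        mul_le_mul_of_nonneg_left (mul_le_mul_of_nonneg_right a1 (by linarith)) hB0
      have a4 : B * (T₀ * T) = B * T₀ * T := by ring
      linarith [(abs_le.1 k4).1]

end Pool.Agent.Lib.MP_399f8e_an.Lk
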