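import Pool.Agent.Lib.MP_399f8e_an.Lk.AKer
import Pool.Agent.Lib.MP_399f8e_an.Lk.AFlow1

open Set Filter Topology Metric MeasureTheory
open scoped RealInnerProductSpace

noncomputable section

namespace Pool.Agent.Lib.MP_399f8e_an.Lk

open Rg

variable {X : S → E} {φ : ℝ → S → S} {m M L η : ℝ}

namespace AEmpAux

theorem cInt {f : S → ℝ} (hf : Continuous f) :
    Continuous fun μ : ProbabilityMeasure S => ∫ x, f x ∂(μ : Measure S) :=
  ProbabilityMeasure.continuous_integral_continuousMap (⟨f, hf⟩ : C(S, ℝ))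

theorem cInt2 {f : S × S → ℝ} (hf : Continuous f) :
    Continuous fun μ : ProbabilityMeasure (S × S) => ∫ x, f x ∂(μ : Measure (S × S)) :=
  ProbabilityMeasure.continuous_integral_continuousMap (⟨f, hf⟩ : C(S × S, ℝ))

theorem cfl (h : IsFl φ) (t : ℝ) : Continuous (φ t) :=
  h.cont.comp (continuous_const.prodMk continuous_id)

theorem inv_iff (h : IsFl φ) (μ : ProbabilityMeasure S) : Inv φ (μ : Measure S) ↔
    ∀ (t : ℝ) (f : C(S, ℝ)), ∫ x, f (φ t x) ∂(μ : Measure S) = ∫ x, f x ∂(μ : Measure S) := by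
  constructor
  · intro hμ t f
    rw [← integral_map (cfl h t).aemeasurable f.continuous.aestronglyMeasurable,
      (hμ.2 t).map_eq]
  · intro hμ
    refine ⟨inferInstance, fun t => ⟨(cfl h t).measurable, ?_⟩⟩
    refine ext_of_forall_integral_eq_of_IsFiniteMeasure fun f => ?_
    rw [integral_map (cfl h t).aemeasurable f.continuous.aestronglyMeasurable]
    exact hμ t f.toContinuousMap

theorem shift {g u : ℝ → ℝ} (hg : Continuous g) (hu : Continuous u) {a b t C ε : ℝ} (ht : 0 ≤ t)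
    (hab : t ≤ b - a) (hε : 0 ≤ ε) (hgC : ∀ s, |g s| ≤ C) (huC : ∀ s, |u s| ≤ C)
    (h : ∀ s ∈ Icc a (b - t), |g s - u (s + t)| ≤ ε) :
    |(∫ s in a..b, g s) - ∫ s in a..b, u s| ≤ ε * (b - a) + 2 * C * t := by
  have e1 : ∫ s in a..b, g s = (∫ s in a..(b - t), g s) + ∫ s in (b - t)..b, g s :=
    (intervalIntegral.integral_add_adjacent_intervals (hg.intervalIntegrable _ _)
      (hg.intervalIntegrable _ _)).symm
  have e2 : ∫ s in a..b, u s = (∫ s in a..(a + t), u s) + ∫ s in (a + t)..b, u s :=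
    (intervalIntegral.integral_add_adjacent_intervals (hu.intervalIntegrable _ _)
      (hu.intervalIntegrable _ _)).symm
  have e3 : ∫ s in a..(b - t), u (s + t) = ∫ s in (a + t)..b, u s := by
    rw [intervalIntegral.integral_comp_add_right, sub_add_cancel]
  have hu' : Continuous fun s => u (s + t) := hu.comp (continuous_id.add continuous_const)
  have e4 : ∫ s in a..(b - t), (g s - u (s + t)) =
      (∫ s in a..(b - t), g s) - ∫ s in a..(b - t), u (s + t) :=
    intervalIntegral.integral_sub (hg.intervalIntegrable _ _) (hu'.intervalIntegrable _ _)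
  have b1 : ‖∫ s in a..(b - t), (g s - u (s + t))‖ ≤ ε * |b - t - a| :=
    intervalIntegral.norm_integral_le_of_norm_le_const fun s hs => by
      rw [uIoc_of_le (by linarith)] at hs
      exact h s ⟨hs.1.le, hs.2⟩
  have b2 : ‖∫ s in (b - t)..b, g s‖ ≤ C * |b - (b - t)| :=
    intervalIntegral.norm_integral_le_of_norm_le_const fun s _ => hgC s
  have b3 : ‖∫ s in a..(a + t), u s‖ ≤ C * |a + t - a| :=
    intervalIntegral.norm_integral_le_of_norm_le_const fun s _ => huC s
  rw [abs_of_nonneg (by linarith), Real.norm_eq_abs] at b1 b2 b3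
  rw [e4, e3] at b1
  rw [e1, e2]
  have c1 := abs_le.1 b1
  have c2 := abs_le.1 b2
  have c3 := abs_le.1 b3
  have c4 : ε * (b - t - a) ≤ ε * (b - a) := mul_le_mul_of_nonneg_left (by linarith) hε
  rw [abs_le]
  constructor <;> nlinarith [c1.1, c1.2, c2.1, c2.2, c3.1, c3.2]

theorem est (h : LF X φ L) {f : S → ℝ} (hf : Continuous f) {t : ℝ} (ht : 0 ≤ t) {ε : ℝ}
    (hε : 0 < ε) : ∃ n₀ : ℕ, ∀ n : ℕ, n₀ ≤ n → ∀ (k : ℝ → S) (a b : ℝ) (μ : Measure S),
      PC X (1 / ((n : ℝ) + 1)) k a b → (n : ℝ) + 1 ≤ b - a → Emp k a b μ →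
        |(∫ x, f (φ t x) ∂μ) - ∫ x, f x ∂μ| < ε := by
  obtain ⟨C, hC⟩ := isCompact_univ.exists_bound_of_continuousOn hf.continuousOn
  have hC' : ∀ x, |f x| ≤ C := fun x => hC x (mem_univ x)
  have hC0 : 0 ≤ C := (abs_nonneg _).trans (hC' pole)
  obtain ⟨δ, hδ, hu⟩ := Metric.uniformContinuous_iff.1
    (CompactSpace.uniformContinuous_of_continuous hf) (ε / 2) (half_pos hε)
  obtain ⟨n₀, hn₀⟩ := exists_nat_gt (t + t * Real.exp (L * t) / δ + 4 * C * t / ε)
  refine ⟨n₀, fun n hn k a b μ hk hab hμ => ?_⟩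
  have hn' : (n₀ : ℝ) ≤ n := by exact_mod_cast hn
  have p1 : 0 ≤ t * Real.exp (L * t) / δ := by positivity
  have p2 : 0 ≤ 4 * C * t / ε := by positivity
  have n1 : (0 : ℝ) < n + 1 := by positivity
  have hba : 0 < b - a := by linarith
  have q1 : 1 / ((n : ℝ) + 1) * t * Real.exp (L * t) < δ := by
    have : t * Real.exp (L * t) / δ < n + 1 := by linarith
    rw [div_lt_iff₀ hδ] at this
    rw [mul_assoc, one_div, inv_mul_lt_iff₀ n1]
    exact this
  have q2 : 2 * C * t < ε / 2 * (b - a) := by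
    have : 4 * C * t / ε < b - a := by linarith
    rw [div_lt_iff₀ hε] at this
    linarith
  have hφ := cfl h.toIsFl t
  have key := shift (g := fun s => f (φ t (k s))) (u := fun s => f (k s))
    (hf.comp (hφ.comp hk.cont)) (hf.comp hk.cont) (a := a) (b := b) ht (by linarith)
    (half_pos hε).le (fun s => hC' _) (fun s => hC' _) (fun s hs => by
      have sh := h.shadow (hk.mono (a' := s) (b' := s + t) hs.1 (by linarith [hs.2]) le_rfl)
        (t := s + t) ⟨by linarith, le_rfl⟩
      rw [add_sub_cancel_left] at sh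
      have d : dist (φ t (k s)) (k (s + t)) < δ := by
        rw [dist_comm, Subtype.dist_eq, dist_eq_norm]
        exact sh.trans_lt q1
      exact (hu d).le)
  rw [hμ (fun x => f (φ t x)) (hf.comp hφ), hμ f hf, ← mul_sub, abs_mul, abs_of_pos (inv_pos.2 hba),
    inv_mul_lt_iff₀ hba]
  refine key.trans_lt ?_
  linarith

theorem fub {g : S → S → ℝ} (hg : Continuous fun p : S × S => g p.1 p.2) {k k' : ℝ → S}
    (hk' : Continuous k') {a b a' b' : ℝ} {μ ν : ProbabilityMeasure S}
    (hμ : Emp k a b (μ : Measure S)) (hν : Emp k' a' b' (ν : Measure S)) :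
    ∫ p : S × S, g p.1 p.2 ∂((μ : Measure S).prod (ν : Measure S)) =
      (b' - a')⁻¹ * ((b - a)⁻¹ * ∫ s in a..b, ∫ t in a'..b', g (k s) (k' t)) := by
  have hi : Integrable (fun p : S × S => g p.1 p.2) ((μ : Measure S).prod (ν : Measure S)) :=
    hg.integrable_of_hasCompactSupport (HasCompactSupport.of_compactSpace _)
  have hj : Continuous fun p : S × ℝ => ((p.1, k' p.2) : S × S) :=
    continuous_fst.prodMk (hk'.comp continuous_snd)
  have hg' : Continuous (Function.uncurry fun (x : S) (t : ℝ) => g x (k' t)) := hg.comp hj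
  have hF : Continuous fun x : S => ∫ t in a'..b', g x (k' t) :=
    intervalIntegral.continuous_parametric_intervalIntegral_of_continuous' hg' a' b'
  have e1 : ∀ x : S, ∫ y, g x y ∂(ν : Measure S) =
      (b' - a')⁻¹ * ∫ t in a'..b', g x (k' t) := fun x =>
    hν (g x) (hg.comp (Continuous.prodMk_right x))
  rw [integral_prod _ hi]
  simp only [e1]
  rw [integral_const_mul, hμ _ hF]

end AEmpAux

open AEmpAux

/-- Invariance means `∫ f ∘ φ t = ∫ f` for all bounded continuous `f`
(`ext_of_forall_integral_eq_of_IsFiniteMeasure`), a closed condition; or use the continuity of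
`ProbabilityMeasure.map`. -/
theorem isCompact_inv (h : IsFl φ) :
    IsCompact {μ : ProbabilityMeasure S | Inv φ (μ : Measure S)} := by
  have e : {μ : ProbabilityMeasure S | Inv φ (μ : Measure S)} = ⋂ t : ℝ, ⋂ f : C(S, ℝ),
      {μ : ProbabilityMeasure S |
        ∫ x, f (φ t x) ∂(μ : Measure S) = ∫ x, f x ∂(μ : Measure S)} := by
    ext μ
    simp only [mem_ofPred_eq, mem_iInter]
    exact inv_iff h μ
  rw [e]
  exact (isClosed_iInter fun t => isClosed_iInter fun f =>
    isClosed_eq (cInt (f.continuous.comp (cfl h t))) (cInt f.continuous)).isCompact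

/-- `ProbabilityMeasure.continuous_prod`. -/
theorem continuous_lkf (hX : Continuous X) (hη : 0 < η) :
    Continuous fun p : ProbabilityMeasure S × ProbabilityMeasure S =>
      lkf X η (p.1 : Measure S) (p.2 : Measure S) := by
  exact (cInt2 (continuous_gf hX hη)).comp ProbabilityMeasure.continuous_prod

/-- The image of the normalised Lebesgue measure of `[a, b]`. -/
theorem exists_emp {k : ℝ → S} (hk : Continuous k) {a b : ℝ} (hab : a < b) :
    ∃ μ : ProbabilityMeasure S, Emp k a b (μ : Measure S) := by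
  have hp : IsProbabilityMeasure ((ENNReal.ofReal (b - a))⁻¹ • volume.restrict (Ioc a b)) := by
    constructor
    rw [Measure.smul_apply, Measure.restrict_apply_univ, Real.volume_Ioc, smul_eq_mul]
    exact ENNReal.inv_mul_cancel (by simpa using hab) ENNReal.ofReal_ne_top
  let ν : ProbabilityMeasure ℝ := ⟨_, hp⟩
  refine ⟨ν.map hk.aemeasurable, fun f hf => ?_⟩
  rw [ProbabilityMeasure.toMeasure_map, integral_map hk.aemeasurable hf.aestronglyMeasurable,
    intervalIntegral.integral_of_le hab.le]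
  show ∫ t, f (k t) ∂((ENNReal.ofReal (b - a))⁻¹ • volume.restrict (Ioc a b)) = _
  rw [integral_smul_measure, ENNReal.toReal_inv, ENNReal.toReal_ofReal (by linarith), smul_eq_mul]

/-- Fubini; the inner integral is a continuous function of the outer variable. -/
theorem Emp.lkf (hX : Continuous X) (hη : 0 < η) {k k' : ℝ → S} (hk : Continuous k)
    (hk' : Continuous k') {a b a' b' : ℝ} (hab : a < b) (hab' : a' < b')
    {μ ν : ProbabilityMeasure S} (hμ : Emp k a b (μ : Measure S))
    (hν : Emp k' a' b' (ν : Measure S)) (σ : ℝ) :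
    QQ X σ η k a b k' a' b' = (b - a) * (b' - a') * (σ * lkf X η (μ : Measure S) (ν : Measure S)) := by
  have e2 : Lk.lkf X η (μ : Measure S) (ν : Measure S) =
      (b' - a')⁻¹ * ((b - a)⁻¹ * ∫ s in a..b, ∫ t in a'..b', gf X η (k s) (k' t)) :=
    fub (g := gf X η) (continuous_gf hX hη) hk' hμ hν
  have n1 : b - a ≠ 0 := (sub_pos.2 hab).ne'
  have n2 : b' - a' ≠ 0 := (sub_pos.2 hab').ne'
  rw [e2]
  unfold QQ
  generalize (∫ s in a..b, ∫ t in a'..b', gf X η (k s) (k' t)) = J
  field_simp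

/-- Otherwise there are arcs with `ζ = 1 / (n + 1)`, length at least `n + 1` and empirical measures
outside `O`; a cluster point `μ` is outside `O`. For `t ≥ 0` and continuous `f`,
`|∫ f ∘ φ t dμ n - ∫ f dμ n|` is at most `4 t ‖f‖ / length` plus the oscillation of `f` at the scale
`ζ t exp (L t)` (`shadow` on `[s, s + t]`), so `μ` is invariant under `φ t`, and under `φ (-t)`. -/
theorem LF.emp_near (h : LF X φ L) {O : Set (ProbabilityMeasure S)} (ho : IsOpen O)
    (hO : ∀ μ : ProbabilityMeasure S, Inv φ (μ : Measure S) → μ ∈ O) :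
    ∃ ζ T₀ : ℝ, 0 < ζ ∧ 0 < T₀ ∧ ∀ (k : ℝ → S) (a b : ℝ) (μ : ProbabilityMeasure S),
      PC X ζ k a b → T₀ ≤ b - a → Emp k a b (μ : Measure S) → μ ∈ O := by
  by_contra hc
  have hc' : ∀ n : ℕ, ∃ (k : ℝ → S) (a b : ℝ) (μ : ProbabilityMeasure S),
      PC X (1 / ((n : ℝ) + 1)) k a b ∧ (n : ℝ) + 1 ≤ b - a ∧ Emp k a b (μ : Measure S) ∧
        μ ∉ O := fun n => by
    by_contra hn
    refine hc ⟨1 / ((n : ℝ) + 1), (n : ℝ) + 1, by positivity, by positivity,
      fun k a b μ h1 h2 h3 => ?_⟩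
    by_contra h4
    exact hn ⟨k, a, b, μ, h1, h2, h3, h4⟩
  choose k a b μ hk hab he hμ using hc'
  let U : Ultrafilter ℕ := Ultrafilter.of atTop
  have hU : (U : Filter ℕ) ≤ atTop := Ultrafilter.of_le _
  obtain ⟨ν, hν, hlim⟩ := ho.isClosed_compl.isCompact.ultrafilter_le_nhds (U.map μ)
    (le_principal_iff.2 (mem_map.2 (univ_mem' fun n => hμ n)))
  have hl : Tendsto μ (U : Filter ℕ) (𝓝 ν) := hlim
  have pos : ∀ t : ℝ, 0 ≤ t → ∀ f : S → ℝ, Continuous f →
      ∫ x, f (φ t x) ∂(ν : Measure S) = ∫ x, f x ∂(ν : Measure S) := fun t ht f hf => by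
    have c : Continuous fun μ : ProbabilityMeasure S =>
        (∫ x, f (φ t x) ∂(μ : Measure S)) - ∫ x, f x ∂(μ : Measure S) :=
      (cInt (hf.comp (cfl h.toIsFl t))).sub (cInt hf)
    have t1 := (c.tendsto ν).comp hl
    have t2 : Tendsto (fun n => (∫ x, f (φ t x) ∂(μ n : Measure S)) - ∫ x, f x ∂(μ n : Measure S))
        atTop (𝓝 0) := by
      rw [Metric.tendsto_atTop]
      intro ε hε
      obtain ⟨n₀, hn₀⟩ := est h hf ht hε
      refine ⟨n₀, fun n hn => ?_⟩
      rw [Real.dist_eq, sub_zero]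
      exact hn₀ n hn _ _ _ _ (hk n) (hab n) (he n)
    exact sub_eq_zero.1 (tendsto_nhds_unique t1 (t2.mono_left hU))
  refine hν (hO ν ((inv_iff h.toIsFl ν).2 fun t f => ?_))
  rcases le_total 0 t with ht | ht
  · exact pos t ht f f.continuous
  · rw [← pos (-t) (by linarith) (fun x => f (φ t x)) (f.continuous.comp (cfl h.toIsFl t))]
    simp only [← h.add, add_neg_cancel, h.zero]

end Pool.Agent.Lib.MP_399f8e_an.Lk
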