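import Pool.Agent.Lib.MP_399f8e_an.Lk.AMeas
import Pool.Agent.Lib.MP_399f8e_an.Lk.AEmp

open Set Filter Topology Metric MeasureTheory
open scoped RealInnerProductSpace

noncomputable section

namespace Pool.Agent.Lib.MP_399f8e_an.Lk

open Rg

variable {X : S → E} {φ : ℝ → S → S} {m M L : ℝ}

namespace ACompAux

/-- convex combination of two measures -/
def mix (μ ν : Measure S) (s : ℝ) : Measure S := ENNReal.ofReal (1 - s) • μ + ENNReal.ofReal s • ν

theorem inv_mix {μ ν : Measure S} (hμ : Inv φ μ) (hν : Inv φ ν) {s : ℝ} (hs : s ∈ Icc (0 : ℝ) 1) :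
    Inv φ (mix μ ν s) := by
  have h1 := hμ.1
  have h2 := hν.1
  refine ⟨⟨?_⟩, fun t => ((hμ.2 t).smul_measure _).add_measure ((hν.2 t).smul_measure _)⟩
  simp only [mix, Measure.coe_add, Measure.coe_smul, Pi.add_apply, Pi.smul_apply, measure_univ,
    smul_eq_mul, mul_one]
  rw [← ENNReal.ofReal_add (by linarith [hs.2]) hs.1]
  simp

theorem fin_smul {μ : Measure S} (hμ : Inv φ μ) (c : ℝ) : IsFiniteMeasure (ENNReal.ofReal c • μ) := by
  have h1 := hμ.1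
  exact ⟨by simp⟩

theorem lk_mix_right (h : Base X φ m M L) {l μ ν : Measure S} (hl : Inv φ l) (hμ : Inv φ μ)
    (hν : Inv φ ν) {s : ℝ} (hs : s ∈ Icc (0 : ℝ) 1) :
    lk X l (mix μ ν s) = (1 - s) * lk X l μ + s * lk X l ν := by
  have h0 := hl.1
  have h1 := hμ.1
  have h2 := hν.1
  have h3 := fin_smul hμ (1 - s)
  have h4 := fin_smul hν s
  rw [lk, mix, Measure.prod_add, Measure.prod_smul_right, Measure.prod_smul_right,
    integral_add_measure ((h.integrable hl hμ).smul_measure ENNReal.ofReal_ne_top)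
      ((h.integrable hl hν).smul_measure ENNReal.ofReal_ne_top),
    integral_smul_measure, integral_smul_measure, ENNReal.toReal_ofReal (by linarith [hs.2]),
    ENNReal.toReal_ofReal hs.1]
  rfl

theorem lk_mix_left (h : Base X φ m M L) {l μ ν : Measure S} (hl : Inv φ l) (hμ : Inv φ μ)
    (hν : Inv φ ν) {s : ℝ} (hs : s ∈ Icc (0 : ℝ) 1) :
    lk X (mix μ ν s) l = (1 - s) * lk X μ l + s * lk X ν l := by
  have h0 := hl.1
  have h1 := hμ.1
  have h2 := hν.1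
  have h3 := fin_smul hμ (1 - s)
  have h4 := fin_smul hν s
  rw [lk, mix, Measure.add_prod, Measure.prod_smul_left, Measure.prod_smul_left,
    integral_add_measure ((h.integrable hμ hl).smul_measure ENNReal.ofReal_ne_top)
      ((h.integrable hν hl).smul_measure ENNReal.ofReal_ne_top),
    integral_smul_measure, integral_smul_measure, ENNReal.toReal_ofReal (by linarith [hs.2]),
    ENNReal.toReal_ofReal hs.1]
  rfl

theorem same_sign {p : ℝ → ℝ} (hp : Continuous p) (h : ∀ s ∈ Icc (0 : ℝ) 1, p s ≠ 0) :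
    0 < p 0 * p 1 := by
  by_contra hc
  have h1 : (0 : ℝ) ∈ uIcc (p 0) (p 1) := by
    rw [mem_uIcc]
    rcases mul_nonpos_iff.1 (not_lt.1 hc) with h2 | h2
    · exact Or.inr ⟨h2.2, h2.1⟩
    · exact Or.inl h2
  obtain ⟨s, hs, h2⟩ := intermediate_value_uIcc hp.continuousOn h1
  rw [uIcc_of_le zero_le_one] at hs
  exact h s hs h2

theorem contOn_lk (h : Base X φ m M L) :
    ContinuousOn (fun p : ProbabilityMeasure S × ProbabilityMeasure S =>
      lk X (p.1 : Measure S) (p.2 : Measure S))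
      ({μ : ProbabilityMeasure S | Inv φ (μ : Measure S)} ×ˢ
        {μ : ProbabilityMeasure S | Inv φ (μ : Measure S)}) := by
  refine TendstoUniformlyOn.continuousOn (p := 𝓝[>] (0 : ℝ))
    (F := fun η p => lkf X η (p.1 : Measure S) (p.2 : Measure S)) ?_ (Eventually.frequently ?_)
  · rw [Metric.tendstoUniformlyOn_iff]
    intro ε hε
    filter_upwards [h.lk_approx (half_pos hε)] with η hη p hp
    rw [Real.dist_eq]
    exact (hη _ _ hp.1 hp.2).trans_lt (half_lt_self hε)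
  · filter_upwards [self_mem_nhdsWithin] with η hη
    exact (continuous_lkf h.toLF.contW hη).continuousOn

theorem arith {a b d a' b' d' B g ε κ : ℝ} (hB : 0 ≤ B) (hg : 0 < g) (hκ0 : 0 < κ)
    (ha : |a| ≤ B) (hb : |b| ≤ B) (hd : |d| ≤ B) (h1 : |a - a'| ≤ ε) (h2 : |b - b'| ≤ ε)
    (h3 : |d - d'| ≤ ε) (hε : ε ≤ 1) (hεg : ε * (20 * (B + 1)) ≤ g)
    (hκ : κ * (16 * (B + 1) ^ 2) ≤ g) (h : g ≤ 4 * b ^ 2 - a * d) :
    (1 / 4 + κ) * (a' * d') < b' ^ 2 := by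
  have hε0 : 0 ≤ ε := (abs_nonneg _).trans h1
  have k : ∀ {x x' : ℝ}, |x| ≤ B → |x - x'| ≤ ε → |x'| ≤ B + 1 := fun {x x'} k1 k2 => by
    have := abs_sub_abs_le_abs_sub x' x
    rw [abs_sub_comm] at this
    linarith
  have q : ∀ {x y x' y' : ℝ}, |y| ≤ B → |x'| ≤ B + 1 → |x - x'| ≤ ε → |y - y'| ≤ ε →
      |x * y - x' * y'| ≤ 2 * (ε * (B + 1)) := fun {x y x' y'} k1 k2 k3 k4 => by
    have e : x * y - x' * y' = (x - x') * y + x' * (y - y') := by ring
    have k5 := mul_le_mul k3 k1 (abs_nonneg _) hε0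
    have k6 := mul_le_mul k2 k4 (abs_nonneg _) (by linarith)
    rw [e]
    refine (abs_add_le _ _).trans ?_
    rw [abs_mul, abs_mul]
    nlinarith
  have m1 := abs_le.1 (q hd (k ha h1) h1 h3)
  have m2 := abs_le.1 (q hb (k hb h2) h2 h2)
  have m3 : a' * d' ≤ (B + 1) ^ 2 := by
    refine (le_abs_self _).trans ?_
    rw [abs_mul, sq]
    exact mul_le_mul (k ha h1) (k hd h3) (abs_nonneg _) (by linarith)
  have m4 := mul_le_mul_of_nonneg_left m3 hκ0.le
  nlinarith [m1.1, m1.2, m2.1, m2.2]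

end ACompAux

open ACompAux

/-- `lk μ μ ≠ 0` (take `ν = μ`). For `ν s = (1 - s) μ + s ν` (invariant) `lk (ν s) (ν s)` is a
quadratic polynomial without zero on `[0, 1]`, so `lk μ μ` has a constant sign; then `lk μ ν ≠ 0` for
all pairs, and `lk μ (ν s)` is affine in `s`. If there is no invariant measure take `σ = 1`. -/
theorem Base.sign (h : Base X φ m M L)
    (H : ∀ μ ν, Inv φ μ → Inv φ ν → lk X μ μ * lk X ν ν < 4 * lk X μ ν ^ 2) :
    ∃ σ : ℝ, |σ| = 1 ∧ ∀ μ ν, Inv φ μ → Inv φ ν → 0 < σ * lk X μ ν := by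
  have h0 : ∀ μ, Inv φ μ → lk X μ μ ≠ 0 := fun μ hμ e => by
    have := H μ μ hμ hμ
    rw [e] at this
    norm_num at this
  have h1 : ∀ μ ν, Inv φ μ → Inv φ ν → 0 < lk X μ μ * lk X ν ν := fun μ ν hμ hν => by
    have := same_sign (p := fun s => (1 - s) * ((1 - s) * lk X μ μ + s * lk X μ ν) +
      s * ((1 - s) * lk X ν μ + s * lk X ν ν)) (by fun_prop) (fun s hs => by
        have k := h0 _ (inv_mix hμ hν hs)
        rwa [lk_mix_left h (inv_mix hμ hν hs) hμ hν hs, lk_mix_right h hμ hμ hν hs,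
          lk_mix_right h hν hμ hν hs] at k)
    simpa using this
  have h2 : ∀ μ ν, Inv φ μ → Inv φ ν → lk X μ ν ≠ 0 := fun μ ν hμ hν e => by
    have k1 := H μ ν hμ hν
    have k2 := h1 μ ν hμ hν
    rw [e] at k1
    linarith
  have h3 : ∀ μ ν, Inv φ μ → Inv φ ν → 0 < lk X μ μ * lk X μ ν := fun μ ν hμ hν => by
    have := same_sign (p := fun s => (1 - s) * lk X μ μ + s * lk X μ ν) (by fun_prop)
      (fun s hs => by
        have k := h2 _ _ hμ (inv_mix hμ hν hs)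
        rwa [lk_mix_right h hμ hμ hν hs] at k)
    simpa using this
  by_cases he : ∃ l, Inv φ l
  · obtain ⟨l, hl⟩ := he
    have h4 : ∀ μ ν, Inv φ μ → Inv φ ν → 0 < lk X l l * lk X μ ν := fun μ ν hμ hν => by
      have k := mul_pos (h1 l μ hl hμ) (h3 μ ν hμ hν)
      have e : lk X l l * lk X μ μ * (lk X μ μ * lk X μ ν) =
          lk X μ μ ^ 2 * (lk X l l * lk X μ ν) := by ring
      rw [e] at k
      exact pos_of_mul_pos_right k (sq_nonneg _)
    rcases lt_or_gt_of_ne (h0 l hl) with k | k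
    · refine ⟨-1, by simp, fun μ ν hμ hν => ?_⟩
      have := h4 μ ν hμ hν
      by_contra hc
      nlinarith
    · refine ⟨1, by simp, fun μ ν hμ hν => ?_⟩
      have := h4 μ ν hμ hν
      by_contra hc
      nlinarith
  · exact ⟨1, by simp, fun μ ν hμ _ => absurd ⟨μ, hμ⟩ he⟩

/-- `lk` is continuous on the compact set of pairs of invariant measures (uniform limit of the `lkf`);
so `σ lk` lies in `[2 c, C / 2]` and `4 lk μ ν ^ 2 - lk μ μ lk ν ν` has a positive minimum; then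
`lk_approx` with a small `ε`. -/
theorem Base.margins (h : Base X φ m M L)
    (H : ∀ μ ν, Inv φ μ → Inv φ ν → lk X μ μ * lk X ν ν < 4 * lk X μ ν ^ 2) :
    ∃ σ c C κ : ℝ, |σ| = 1 ∧ 0 < c ∧ c ≤ C ∧ 0 < κ ∧ κ ≤ 1 ∧ ∀ᶠ η in 𝓝[>] (0 : ℝ),
      ∀ μ ν, Inv φ μ → Inv φ ν → c < σ * lkf X η μ ν ∧ σ * lkf X η μ ν < C ∧
        (1 / 4 + κ) * (lkf X η μ μ * lkf X η ν ν) < lkf X η μ ν ^ 2 := by
  obtain ⟨σ, hσ, hs⟩ := h.sign H
  have hK := isCompact_inv h.toIsFl
  have hKK := hK.prod hK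
  have hc := contOn_lk h
  obtain ⟨c, hc0, hc1⟩ := hKK.exists_forall_le' (hc.const_mul σ) (a := 0)
    fun p hp => hs _ _ hp.1 hp.2
  obtain ⟨B₀, hB₀⟩ := hKK.exists_bound_of_continuousOn hc
  have d1 := hc.comp (f := fun p : ProbabilityMeasure S × ProbabilityMeasure S => (p.1, p.1))
    (s := {μ : ProbabilityMeasure S | Inv φ (μ : Measure S)} ×ˢ
      {μ : ProbabilityMeasure S | Inv φ (μ : Measure S)})
    (by fun_prop) (fun p hp => mk_mem_prod hp.1 hp.1)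
  have d2 := hc.comp (f := fun p : ProbabilityMeasure S × ProbabilityMeasure S => (p.2, p.2))
    (s := {μ : ProbabilityMeasure S | Inv φ (μ : Measure S)} ×ˢ
      {μ : ProbabilityMeasure S | Inv φ (μ : Measure S)})
    (by fun_prop) (fun p hp => mk_mem_prod hp.2 hp.2)
  obtain ⟨g, hg0, hg1⟩ := hKK.exists_forall_le' (((hc.pow 2).const_mul 4).sub (d1.mul d2)) (a := 0)
    fun p hp => sub_pos.2 (H _ _ hp.1 hp.2)
  obtain ⟨B, hB0, hBc, hB⟩ : ∃ B : ℝ, 0 ≤ B ∧ c ≤ B ∧ ∀ μ ν, Inv φ μ → Inv φ ν →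
      |lk X μ ν| ≤ B := by
    refine ⟨|B₀| + c, by positivity, by linarith [abs_nonneg B₀], fun μ ν hμ hν => ?_⟩
    have k : |lk X μ ν| ≤ B₀ := hB₀ (⟨μ, hμ.1⟩, ⟨ν, hν.1⟩) ⟨hμ, hν⟩
    linarith [le_abs_self B₀]
  obtain ⟨ε, e0, e1, e2, e3⟩ : ∃ ε : ℝ, 0 < ε ∧ ε ≤ 1 ∧ ε ≤ c / 4 ∧ ε ≤ g / (20 * (B + 1)) :=
    ⟨min 1 (min (c / 4) (g / (20 * (B + 1)))), by positivity, min_le_left _ _,
      (min_le_right _ _).trans (min_le_left _ _), (min_le_right _ _).trans (min_le_right _ _)⟩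
  refine ⟨σ, c / 2, B + 2, min 1 (g / (16 * (B + 1) ^ 2)), hσ, by positivity, by linarith,
    by positivity, min_le_left _ _, ?_⟩
  filter_upwards [h.lk_approx e0] with η hη μ ν hμ hν
  have k1 : c ≤ σ * lk X μ ν := hc1 (⟨μ, hμ.1⟩, ⟨ν, hν.1⟩) ⟨hμ, hν⟩
  have k2 : g ≤ 4 * lk X μ ν ^ 2 - lk X μ μ * lk X ν ν := hg1 (⟨μ, hμ.1⟩, ⟨ν, hν.1⟩) ⟨hμ, hν⟩
  have k3 : |σ * lk X μ ν - σ * lkf X η μ ν| ≤ ε := by
    rw [← mul_sub, abs_mul, hσ, one_mul]
    exact hη μ ν hμ hν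
  have k4 : |σ * lk X μ ν| ≤ B := by
    rw [abs_mul, hσ, one_mul]
    exact hB μ ν hμ hν
  have k5 := abs_le.1 k3
  have k6 := abs_le.1 k4
  refine ⟨by linarith [k5.2], by linarith [k5.1, k6.2], ?_⟩
  exact arith hB0 hg0 (by positivity) (hB μ μ hμ hμ) (hB μ ν hμ hν) (hB ν ν hν hν) (hη μ μ hμ hμ)
    (hη μ ν hμ hν) (hη ν ν hν hν) e1 ((le_div_iff₀ (by positivity)).1 e3)
    ((le_div_iff₀ (by positivity)).1 (min_le_right _ _)) k2

/-- The three strict inequalities define an open set of pairs containing `Inv ×ˢ Inv`;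
`generalized_tube_lemma`, `emp_near` for the intersection of the two open sets, `Emp.lkf`. -/
theorem Base.exists_PK (h : Base X φ m M L)
    (H : ∀ μ ν, Inv φ μ → Inv φ ν → lk X μ μ * lk X ν ν < 4 * lk X μ ν ^ 2) :
    ∃ σ c C κ : ℝ, |σ| = 1 ∧ 0 < c ∧ c ≤ C ∧ 0 < κ ∧ κ ≤ 1 ∧ ∀ᶠ η in 𝓝[>] (0 : ℝ),
      ∃ ζ T₀ : ℝ, 0 < ζ ∧ 0 < T₀ ∧ PK X σ η ζ T₀ c C κ := by
  obtain ⟨σ, c, C, κ, hσ, h1, h2, h3, h4, h5⟩ := h.margins H
  refine ⟨σ, c, C, κ, hσ, h1, h2, h3, h4, ?_⟩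
  filter_upwards [h5, self_mem_nhdsWithin] with η hη hη0
  have hX := h.toLF.contW
  have hK := isCompact_inv h.toIsFl
  have hc := continuous_lkf hX hη0
  have d1 := hc.comp (f := fun p : ProbabilityMeasure S × ProbabilityMeasure S => (p.1, p.1))
    (by fun_prop)
  have d2 := hc.comp (f := fun p : ProbabilityMeasure S × ProbabilityMeasure S => (p.2, p.2))
    (by fun_prop)
  have ho := (isOpen_lt (continuous_const (y := c)) (hc.const_mul σ)).inter
    ((isOpen_lt (hc.const_mul σ) (continuous_const (y := C))).inter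
      (isOpen_lt ((d1.mul d2).const_mul (1 / 4 + κ)) (hc.pow 2)))
  obtain ⟨u, v, hu, hv, ku, kv, huv⟩ := generalized_tube_lemma hK hK ho
    fun p hp => hη _ _ hp.1 hp.2
  obtain ⟨ζ, T₀, hζ, hT, hO⟩ := h.toLF.emp_near (hu.inter hv) fun μ hμ => ⟨ku hμ, kv hμ⟩
  refine ⟨ζ, T₀, hζ, hT, fun k a b k' a' b' hk hk' l l' => ?_⟩
  have hab : a < b := by linarith
  have hab' : a' < b' := by linarith
  obtain ⟨μ, hμ⟩ := exists_emp hk.cont hab
  obtain ⟨ν, hν⟩ := exists_emp hk'.cont hab'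
  obtain ⟨m1, m2, m3⟩ : c < σ * lkf X η (μ : Measure S) (ν : Measure S) ∧
      σ * lkf X η (μ : Measure S) (ν : Measure S) < C ∧
      (1 / 4 + κ) * (lkf X η (μ : Measure S) (μ : Measure S) *
        lkf X η (ν : Measure S) (ν : Measure S)) <
          lkf X η (μ : Measure S) (ν : Measure S) ^ 2 := by
    have q := huv (mk_mem_prod (hO k a b μ hk l hμ).1 (hO k' a' b' ν hk' l' hν).2)
    exact ⟨q.1, q.2.1, q.2.2⟩
  rw [Emp.lkf hX hη0 hk.cont hk'.cont hab hab' hμ hν, Emp.lkf hX hη0 hk.cont hk.cont hab hab hμ hμ,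
    Emp.lkf hX hη0 hk'.cont hk'.cont hab' hab' hν hν]
  have hp : 0 < (b - a) * (b' - a') := mul_pos (sub_pos.2 hab) (sub_pos.2 hab')
  refine ⟨?_, ?_, ?_⟩
  · rw [mul_comm]
    exact mul_le_mul_of_nonneg_left m1.le hp.le
  · rw [mul_comm C]
    exact mul_le_mul_of_nonneg_left m2.le hp.le
  · have m4 := mul_le_mul_of_nonneg_left m3.le (sq_nonneg ((b - a) * (b' - a') * σ))
    exact le_of_eq_of_le (by ring) (m4.trans_eq (by ring))

end Pool.Agent.Lib.MP_399f8e_an.Lk
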