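import Pool.Agent.Lib.MP_399f8e_an.Lk.ATop2
import Pool.Agent.Lib.MP_399f8e_an.Lk.AClosed

open Set Filter Topology Metric MeasureTheory
open scoped RealInnerProductSpace

noncomputable section

namespace Pool.Agent.Lib.MP_399f8e_an.Lk

open Rg

theorem short_num {P κ P' Pk Q' : ℝ} (hP : 0 < P) (hκ : 0 < κ) (hκ1 : κ ≤ 1)
    (h1 : (1 - 2 * (κ / 40)) * P ≤ P') (h2 : (1 - 2 * (κ / 40)) * P ≤ Pk) (hQ : 0 ≤ Q')
    (h : (1 / 4 + κ) * (P' * Pk) ≤ Q' ^ 2) : (1 / 2 + κ / 4 + κ / 40) * P ≤ Q' := by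
  have a0 : 0 ≤ (1 - 2 * (κ / 40)) * P := mul_nonneg (by linarith) hP.le
  have a1 : ((1 - 2 * (κ / 40)) * P) ^ 2 ≤ P' * Pk := by
    rw [sq]
    exact mul_le_mul h1 h2 a0 (a0.trans h1)
  have a2 : (1 / 2 + κ / 4 + κ / 40) ^ 2 ≤ (1 / 4 + κ) * (1 - 2 * (κ / 40)) ^ 2 := by
    nlinarith [mul_nonneg hκ.le (sub_nonneg.2 hκ1), mul_pos hκ hκ, mul_pos hκ (mul_pos hκ hκ)]
  refine (abs_le_of_sq_le_sq' ?_ hQ).2
  calc ((1 / 2 + κ / 4 + κ / 40) * P) ^ 2 = (1 / 2 + κ / 4 + κ / 40) ^ 2 * P ^ 2 := by ring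
    _ ≤ (1 / 4 + κ) * (1 - 2 * (κ / 40)) ^ 2 * P ^ 2 :=
        mul_le_mul_of_nonneg_right a2 (sq_nonneg _)
    _ = (1 / 4 + κ) * ((1 - 2 * (κ / 40)) * P) ^ 2 := by ring
    _ ≤ (1 / 4 + κ) * (P' * Pk) := mul_le_mul_of_nonneg_left a1 (by linarith)
    _ ≤ Q' ^ 2 := h

variable {X W : S → E} {φ ψ g : ℝ → S → S} {K : ℝ → S} {K' : ℝ → E} {F : Set S} {x₀ : S}
  {Z₁ Z₂ : E → E} {Ψ : T3 → S} {D : T3 → T3 →L[ℝ] E} {β : E → E →L[ℝ] ℝ}
  {m M L L₁ L₂ T h r Λ A r₀ C₀ δ ζw ζ' ξ σ η ζ T₀ c C κ e₁ τ η₂ ϑ B Cp C' : ℝ}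

/-- All constants are chosen; collect the estimates. -/
theorem core_false (hB : Base X φ m M L) (hW : LF W ψ L₁) (hK : Knot X φ K K' x₀ T h r Λ A)
    (hT : PreTube K K' Z₁ Z₂ Ψ D T r₀ C₀) (hth : Thin K Ψ T (4 * δ))
    (hP : Pert X K Ψ D W F h L₂ ζw ζ' δ (ξ * r / 16)) (hβ : Form K K' T β) (hg : Push ψ g Ψ δ)
    (hPK : PK X σ η ζ T₀ c C κ) (hσ : |σ| = 1) (hη : 0 < η) (hc : 0 < c) (hcC : c ≤ C)
    (hκ : 0 < κ) (hκ1 : κ ≤ 1) (hT₀ : 0 < T₀) (hξ : 0 < ξ) (hζ : ζw ≤ ζ) (hζ' : 0 ≤ ζ')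
    (hgap : Gap φ K h r ξ) (hmin : MinCh X φ σ η x₀ T h r ξ (κ / 40)) (hC' : C' = 2 * C / c)
    (est : ∀ x, x ∉ range K → |β x (W x) - ∫ t in (0 : ℝ)..T, gf X η x (K t)| ≤ e₁ * T)
    (he0 : 0 ≤ e₁) (he : e₁ * C' ≤ κ / 40 * c / 2)
    (ret : ∀ (y : S) (t : ℝ), h ≤ t → t ≤ τ → η₂ < ‖(ψ t y : E) - y‖)
    (long : ∀ (x : S) (t : ℝ), 0 < t → ψ t x = x → τ ≤ t)
    (hη₂ : Real.exp (2 * L₁ * h) * (ξ * r / 8) ≤ η₂) (hτ : T₀ + 12 * h ≤ τ)
    (xret : ∀ (y : S) (t : ℝ), h ≤ t → t ≤ C' * T → ϑ < ‖(φ t y : E) - y‖)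
    (hsh : ζ' * (C' * T) * Real.exp (L * (C' * T)) ≤ ϑ) (hϑ : ϑ ≤ ξ * r / 16)
    (hu : ∀ x x' y y' : S, ‖(x : E) - x'‖ ≤ ϑ → ‖(y : E) - y'‖ ≤ ϑ →
      |gf X η x y - gf X η x' y'| ≤ κ / 40 * c / (2 * C' ^ 2))
    (hb : ∀ x y, |gf X η x y| ≤ B) (hTT : T₀ ≤ T) (hδ0 : 0 < δ) (hδ : 4 * δ < r₀)
    (hδϑ : C₀ * (2 * δ) ≤ ϑ) (mer : |merI β Ψ D (7 * δ / 2)| ≤ Cp)
    (n1 : 24 * h * B * C' ≤ κ / 40 * c * T) (n2 : 2 * B * T₀ ≤ κ / 40 * c * T)
    (n3 : 12 * Cp ≤ κ * c * T) (n4 : 1 ≤ T) : False := by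
  have hh := hK.h_pos
  have hT0 : 0 < T := hK.T_pos
  have hX : Continuous X := hB.toLF.contW
  have hB0 : 0 ≤ B := (abs_nonneg _).trans (hb x₀ x₀)
  have hC2 : 2 ≤ C' := by
    rw [hC', le_div_iff₀ hc]
    linarith
  have hCc : C' * c = 2 * C := by
    rw [hC']
    field_simp
  have hfl := fun s t w hw => hT.flow hW hδ hP.par s t (w := w) hw
  have hKo : ∀ t, K t = ψ t (K 0) := fun t => by
    have := hfl 0 t 0 (by simpa using hδ0.le)
    rw [hT.core, zero_add, hT.core] at this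
    exact this.symm
  have hKe : K = orb ψ (K 0) := funext hKo
  have hKc : Continuous K := by
    rw [hKe]
    exact hW.cont_orb _
  have near : ∀ x, ‖W x - X x‖ ≤ ζ := fun x => (hP.near x).trans hζ
  have hζ0 : 0 ≤ ζ := (norm_nonneg _).trans (near x₀)
  have pcK : PC X ζ K 0 T := by
    rw [hKe]
    exact hW.pc near _ _ _
  have pcX : PC X ζ (orb φ x₀) 0 T := hB.toLF.pc (fun x => by simpa using hζ0) _ _ _
  set P := PP X φ σ η x₀ T with hPdef
  set Pk := QQ X σ η K 0 T K 0 T with hPk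
  have hP1 : c * T ^ 2 ≤ P ∧ P ≤ C * T ^ 2 := by
    obtain ⟨a1, a2, -⟩ := hPK _ 0 T _ 0 T pcX pcX (by linarith) (by linarith)
    simp only [sub_zero] at a1 a2
    exact ⟨by rw [sq]; exact a1, by rw [sq]; exact a2⟩
  have hPpos : 0 < P := lt_of_lt_of_le (by positivity) hP1.1
  have hε : κ / 40 * c * T * T ≤ κ / 40 * P := by
    have := mul_le_mul_of_nonneg_left hP1.1 (show 0 ≤ κ / 40 by positivity)
    nlinarith
  have hoff : |Pk - P| ≤ κ / 40 * P := by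
    have := QQ_off (σ := σ) hX hη hσ hb hKc (hB.toLF.cont_orb x₀) hh.le
      (show h ≤ T by linarith [hK.hT]) (fun t ht => hK.orb t ht)
    refine this.trans (le_trans ?_ hε)
    have h1 : 4 * B * h ≤ κ / 40 * c * T := by
      have : 0 ≤ h * B := mul_nonneg hh.le hB0
      nlinarith
    exact mul_le_mul_of_nonneg_right h1 hT0.le
  have orbE := fun x hx T' hT' =>
    hβ.est_orbit (σ := σ) hW hKo hX hη hσ est (x := x) hx (T' := T') hT'
  have he1 : e₁ ≤ κ / 40 * c / 4 := by nlinarith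
  have hκc : κ / 40 * c ≤ c / 40 := by nlinarith
  refine raw_false hW hT hδ0 hδ hth hP.par hβ hg hσ (a := (1 / 2 + κ / 4) * P)
    (b := (1 + 2 * (κ / 40)) * P) (fun x hx => ?_) (fun x hx t ht hxt => ?_) ?_ mer
    (by positivity) ?_ ?_
  · obtain ⟨a1, -, -⟩ := hPK _ 0 T _ 0 T (hW.pc near x 0 T) pcK (by linarith) (by linarith)
    have a2 := (abs_le.1 (orbE x hx T hT0.le)).1
    simp only [sub_zero] at a1
    have a3 : e₁ * T * T < c * (T * T) := by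
      have : e₁ < c := by linarith
      nlinarith [mul_pos hT0 hT0]
    linarith
  · have hτt := long x t ht hxt
    have a2 := (abs_le.1 (orbE x hx t ht.le)).1
    rcases le_total t (C' * T) with h1 | h1
    · obtain ⟨P', Q', b1, b2, b3, b4⟩ := closed_short hB hW hPK hσ hη hc hT₀ hh hξ hK.r_pos near
        hP.cl hP.off hζ' hKo hP.fat hgap hmin ret hη₂ hτ hτt h1 xret hsh hϑ hu hb hTT hxt
      have c1 : κ / 40 * c / (2 * C' ^ 2) * (C' * T) ^ 2 = κ / 40 * c * T * T / 2 := by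
        field_simp
      have c2 : 4 * h * B * (2 * (C' * T) + 3 * h) ≤ κ / 40 * c * T * T / 2 := by
        have d1 : 2 * (C' * T) + 3 * h ≤ 3 * (C' * T) := by nlinarith [hK.hT]
        have d2 := mul_le_mul_of_nonneg_left d1 (show 0 ≤ 4 * h * B by positivity)
        have d3 := mul_le_mul_of_nonneg_right n1 hT0.le
        nlinarith
      have c3 := short_num hPpos hκ hκ1 (P' := P') (Pk := Pk) (by linarith)
        (by have := (abs_le.1 hoff).1; nlinarith) b2 b3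
      have c4 : B * T₀ * T ≤ κ / 40 * c * T * T / 2 := by
        have := mul_le_mul_of_nonneg_right n2 hT0.le
        linarith
      have c5 : e₁ * T * t ≤ κ / 40 * c * T * T / 2 := by
        have d1 := mul_le_mul_of_nonneg_left h1 (mul_nonneg he0 hT0.le)
        have d2 := mul_le_mul_of_nonneg_right he (mul_nonneg hT0.le hT0.le)
        nlinarith
      linarith
    · obtain ⟨a1, -, -⟩ := hPK _ 0 t _ 0 T (hW.pc near x 0 t) pcK (by linarith) (by linarith)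
      simp only [sub_zero] at a1
      have c1 : e₁ * T * t ≤ c / 2 * (t * T) := by
        have : e₁ ≤ c / 2 := by linarith
        nlinarith [mul_pos ht hT0]
      have c2 : C * T ^ 2 ≤ c / 2 * (t * T) := by
        have := mul_le_mul_of_nonneg_left h1 (show 0 ≤ c / 2 * T by positivity)
        nlinarith
      have c3 : (1 / 2 + κ / 4) * P ≤ P := by nlinarith
      linarith [hP1.2]
  · have hw : ‖((-2 * δ, 0) : ℝ × ℝ)‖ = 2 * δ := by
      simp [Prod.norm_def, abs_of_pos hδ0, hδ0.le]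
    have hx : Ψ (0, (-2 * δ, 0)) ∉ range K := by
      refine hth.notMem (by rw [hw]; linarith) fun h0 => ?_
      have h1 : ((-2 * δ, 0) : ℝ × ℝ) = 0 := h0
      rw [h1, norm_zero] at hw
      linarith
    have a2 := (abs_le.1 (orbE _ hx T hT0.le)).2
    have hϑ0 : 0 ≤ ϑ := le_trans (by have := hT.C_one; positivity) hδϑ
    have a3 := QQ_close (σ := σ) hX hη hσ (hW.cont_orb (Ψ (0, (-2 * δ, 0)))) hKc hKc hKc hu hT0.le
      hT0.le (fun t _ => by
        have e1 := hfl 0 t (-2 * δ, 0) (by rw [hw]; linarith)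
        have e2 := hT.lip (0 + t, (-2 * δ, 0)) (t, 0) (by rw [hw]; linarith)
          (by simpa using hT.r_pos)
        have e3 : ‖((0 + t, (-2 * δ, 0)) : T3) - (t, 0)‖ = 2 * δ := by
          rw [Prod.norm_def]
          simp only [Prod.fst_sub, Prod.snd_sub, sub_zero, zero_add, sub_self, norm_zero, hw]
          exact max_eq_right (by linarith)
        rw [hT.core, e3] at e2
        show ‖(ψ t (Ψ (0, (-2 * δ, 0))) : E) - K t‖ ≤ ϑ
        rw [e1]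
        exact e2.trans hδϑ) (fun t _ => by simpa using hϑ0)
    have a4 := (abs_le.1 a3).2
    have a5 : κ / 40 * c / (2 * C' ^ 2) * ((T - 0) * (T - 0)) ≤ κ / 40 * c * T * T / 2 := by
      have d1 : κ / 40 * c / (2 * C' ^ 2) ≤ κ / 40 * c / 2 :=
        div_le_div_of_nonneg_left (by positivity) (by norm_num) (by nlinarith)
      have := mul_le_mul_of_nonneg_right d1 (mul_nonneg hT0.le hT0.le)
      simp only [sub_zero]
      linarith
    have a6 : e₁ * T * T ≤ κ / 40 * c * T * T / 2 := by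
      have := mul_le_mul_of_nonneg_right he1 (mul_nonneg hT0.le hT0.le)
      have h2 : 0 ≤ κ / 40 * c * T * T := by positivity
      nlinarith
    have a7 := (abs_le.1 hoff).2
    linarith
  · have d1 : κ * c * T ≤ κ * P := by
      have : c * T ≤ P := by nlinarith [hP1.1, mul_pos hc hT0]
      nlinarith
    nlinarith
  · have d1 : κ * c * T ≤ κ * P := by
      have : c * T ≤ P := by nlinarith [hP1.1, mul_pos hc hT0]
      nlinarith
    nlinarith [mul_pos hκ hPpos]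

end Pool.Agent.Lib.MP_399f8e_an.Lk
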