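import Mathlib

/-!
Working definitions for the topological half of the linking form theorem (none of them occurs in
the final statement).
-/

open Set Filter Topology Metric

noncomputable section

namespace Pool.Agent.Lib.MP_399f8e_an.Lk

/-- coordinate three-space, with the sup norm -/
abbrev P3 : Type := Fin 3 → ℝ

/-- the circle of length one -/
abbrev Ci : Type := AddCircle (1 : ℝ)

/-- for all small `r > 0` and then all small `c > 0` -/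
def Ev (p : ℝ → ℝ → Prop) : Prop := ∀ᶠ r in 𝓝[>] (0 : ℝ), ∀ᶠ c in 𝓝[>] (0 : ℝ), p r c

theorem Ev.and {p q : ℝ → ℝ → Prop} (hp : Ev p) (hq : Ev q) : Ev fun r c => p r c ∧ q r c :=
  (Eventually.and hp hq).mono fun _ h => h.1.and h.2

theorem Ev.mono {p q : ℝ → ℝ → Prop} (hp : Ev p) (h : ∀ r c, p r c → q r c) : Ev q :=
  Eventually.mono hp fun r hr => hr.mono fun c hc => h r c hc

theorem Ev.exists {p : ℝ → ℝ → Prop} (hp : Ev p) : ∃ r c, p r c := by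
  obtain ⟨r, hr⟩ := Eventually.exists hp
  obtain ⟨c, hc⟩ := hr.exists
  exact ⟨r, c, hc⟩

theorem Ev.of_lt {p : ℝ → ℝ → Prop} {r₀ : ℝ} (h₀ : 0 < r₀)
    (h : ∀ r, 0 < r → r < r₀ → ∀ᶠ c in 𝓝[>] (0 : ℝ), p r c) : Ev p := by
  filter_upwards [Ioo_mem_nhdsGT h₀] with r hr using h r hr.1 hr.2

theorem Ev.of_right {p : ℝ → Prop} (h : ∀ᶠ c in 𝓝[>] (0 : ℝ), p c) : Ev fun _ c => p c :=
  Eventually.of_forall fun _ => h

theorem Ev.all {ι : Type} {s : Set ι} (hs : s.Finite) {p : ι → ℝ → ℝ → Prop}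
    (h : ∀ i ∈ s, Ev (p i)) : Ev fun r c => ∀ i ∈ s, p i r c :=
  ((eventually_all_finite hs).2 h).mono fun _ hr => (eventually_all_finite hs).2 hr

/-- chains -/
abbrev Ch (β : Type) : Type := β →₀ ℂ

/-- the chain of one cell -/
abbrev sg {β : Type} (b : β) : Ch β := Finsupp.single b 1

/-- cells `β` with a dimension, a boundary operator, positions in `Y`, and the set `N` of cells in
use -/
structure Cx (β Y : Type) where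
  dim : β → ℕ
  bd : Ch β →ₗ[ℂ] Ch β
  pos : β → Y
  N : Set β

section Abstract

variable {β Y : Type} [MetricSpace Y]

/-- sum of the coefficients of the vertices -/
def Cx.aug (X : Cx β Y) : Ch β →ₗ[ℂ] ℂ :=
  Finsupp.linearCombination ℂ fun b => if X.dim b = 0 then (1 : ℂ) else 0

/-- chains of degree `k` carried by `A` -/
def Cx.ch (X : Cx β Y) (A : Set β) (k : ℕ) : Submodule ℂ (Ch β) :=
  Finsupp.supported ℂ ℂ {b | b ∈ A ∧ X.dim b = k}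

/-- cells in use placed within `r` of `y` -/
def Cx.near (X : Cx β Y) (y : Y) (r : ℝ) : Set β := {b | b ∈ X.N ∧ dist (X.pos b) y ≤ r}

/-- a finite chain complex of dimension at most three; faces are placed within `ω` -/
structure Cx.Ok (X : Cx β Y) (ω : ℝ) : Prop where
  fin : X.N.Finite
  dim_le : ∀ b, X.dim b ≤ 3
  face : ∀ b ∈ X.N, ∀ b' ∈ (X.bd (sg b)).support,
    b' ∈ X.N ∧ X.dim b' + 1 = X.dim b ∧ dist (X.pos b') (X.pos b) ≤ ω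
  dd : ∀ b ∈ X.N, X.bd (X.bd (sg b)) = 0
  aug_bd : ∀ b ∈ X.N, X.aug (X.bd (sg b)) = 0

/-- a subcomplex -/
structure Cx.Sub (X : Cx β Y) (A : Set β) : Prop where
  sub : A ⊆ X.N
  face : ∀ b ∈ A, ∀ b' ∈ (X.bd (sg b)).support, b' ∈ A

/-- there is a vertex near each point of `G` -/
def Cx.Vert (X : Cx β Y) (G : Set Y) (ε : ℝ) : Prop :=
  ∀ y ∈ G, ∃ v ∈ X.near y ε, X.dim v = 0

/-- cycles within `δ` of a point of `G` bound within `ε` -/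
def Cx.Fill (X : Cx β Y) (G : Set Y) (δ ε : ℝ) : Prop :=
  ∀ y ∈ G, ∀ k : ℕ, ∀ z ∈ X.ch (X.near y δ) k, X.bd z = 0 → X.aug z = 0 →
    ∃ w ∈ X.ch (X.near y ε) (k + 1), X.bd w = z

/-- `φ` is a chain map on `A` which follows `f` up to `r` -/
structure Cx.Ctrl (X : Cx β Y) (A : Set β) (f : Y → Y) (r : ℝ) (φ : Ch β →ₗ[ℂ] Ch β) : Prop where
  mem : ∀ b ∈ A, φ (sg b) ∈ X.ch (X.near (f (X.pos b)) r) (X.dim b)
  comm : ∀ b ∈ A, X.bd (φ (sg b)) = φ (X.bd (sg b))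
  aug : ∀ b ∈ A, X.aug (φ (sg b)) = X.aug (sg b)

/-- `D` is a chain homotopy on `A` from `φ'` to `φ` which follows `f` up to `s` -/
structure Cx.Hty (X : Cx β Y) (A : Set β) (f : Y → Y) (s : ℝ) (D φ φ' : Ch β →ₗ[ℂ] Ch β) :
    Prop where
  mem : ∀ b ∈ A, D (sg b) ∈ X.ch (X.near (f (X.pos b)) s) (X.dim b + 1)
  eq : ∀ b ∈ A, X.bd (D (sg b)) + D (X.bd (sg b)) = φ (sg b) - φ' (sg b)

/-- `φ` and `φ'` agree on the cycles of `A` up to boundaries -/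
def Cx.Hom (X : Cx β Y) (A : Set β) (φ φ' : Ch β →ₗ[ℂ] Ch β) : Prop :=
  ∀ k : ℕ, ∀ z ∈ X.ch A k, X.bd z = 0 → ∃ w ∈ X.ch X.N (k + 1), X.bd w = φ z - φ' z

/-- local trace over the cells placed in `O` -/
def Cx.ltr (X : Cx β Y) (O : Set Y) (φ : Ch β →ₗ[ℂ] Ch β) : ℂ :=
  ∑ᶠ b ∈ {b | b ∈ X.N ∧ X.pos b ∈ O}, (-1) ^ X.dim b * φ (sg b) b

/-- a family of finer and finer complexes placed in `Ka`, locally acyclic near the points of `G` -/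
structure Fam (X : ℝ → Cx β Y) (Ka G : Set Y) : Prop where
  cpt : IsCompact Ka
  sub : G ⊆ Ka
  ok : ∀ ω : ℝ, 0 < ω → ∀ᶠ c in 𝓝[>] (0 : ℝ), (X c).Ok ω
  posK : ∀ᶠ c in 𝓝[>] (0 : ℝ), ∀ b ∈ (X c).N, (X c).pos b ∈ Ka
  vert : ∀ ε : ℝ, 0 < ε → ∀ᶠ c in 𝓝[>] (0 : ℝ), (X c).Vert G ε
  fill : ∀ ε : ℝ, 0 < ε → ∃ δ : ℝ, 0 < δ ∧ ∀ᶠ c in 𝓝[>] (0 : ℝ), (X c).Fill G δ ε

/-- a continuous family of maps from the compact set `K' ⊆ Ka` to `G` -/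
structure Path (Ka G K' : Set Y) (H : ℝ → Y → Y) : Prop where
  cpt : IsCompact K'
  sub : K' ⊆ Ka
  cont : ContinuousOn (fun p : ℝ × Y => H p.1 p.2) (Icc 0 1 ×ˢ K')
  maps : ∀ t ∈ Icc (0 : ℝ) 1, ∀ y ∈ K', H t y ∈ G

/-- `K'` contains a uniform neighbourhood of `O` in `Ka` -/
def Nb (Ka K' O : Set Y) : Prop :=
  ∃ δ : ℝ, 0 < δ ∧ ∀ y ∈ Ka, ∀ y' ∈ Ka, y' ∈ O → dist y y' ≤ δ → y ∈ K'

/-- no fixed point on the frontier of `O` in `K'` -/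
def Col (K' O : Set Y) (H : ℝ → Y → Y) : Prop :=
  ∀ t ∈ Icc (0 : ℝ) 1, ∀ y ∈ closure (K' ∩ O), y ∈ closure (K' \ O) → H t y ≠ y

/-- the index of `f` on `O` is `m` -/
def Ind (X : ℝ → Cx β Y) (O : Set Y) (f : Y → Y) (m : ℂ) : Prop :=
  Ev fun r c => ∀ (A : Set β) (φ : Ch β →ₗ[ℂ] Ch β), (X c).Sub A →
    (∀ b ∈ (X c).N, (X c).pos b ∈ O → b ∈ A) → (X c).Ctrl A f r φ → (X c).ltr O φ = m

/-- a chart of `Ka` with values in `G` -/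
structure Chart (Ka G : Set Y) (e : P3 → Y) : Prop where
  cont : ContinuousOn e (closedBall 0 5)
  inj : InjOn e (closedBall 0 5)
  maps : MapsTo e (closedBall 0 5) G
  opn : ∀ u ∈ ball (0 : P3) 5, ∀ U ∈ 𝓝 u, e '' U ∈ 𝓝[Ka] (e u)

end Abstract

/-- trace of `φ` on the subspace `p` -/
def trOn {M : Type} [AddCommGroup M] [Module ℂ M] (p : Submodule ℂ M) (φ : M →ₗ[ℂ] M) : ℂ :=
  open Classical in
  if h : ∀ x ∈ p, φ x ∈ p then LinearMap.trace ℂ p (φ.restrict h) else 0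

section Cubes

/-- lattice points -/
abbrev Z3 : Type := Fin 3 → ℤ

/-- a cube: corner and set of directions -/
abbrev Cell : Type := Z3 × Finset (Fin 3)

/-- unit vector -/
def ee (i : Fin 3) : Z3 := Pi.single i 1

/-- sign of the faces in direction `i` -/
def sgn (I : Finset (Fin 3)) (i : Fin 3) : ℂ := (-1) ^ (I.filter fun j => j < i).card

/-- boundary of cubes -/
def bd0 : Ch Cell →ₗ[ℂ] Ch Cell :=
  Finsupp.linearCombination ℂ fun Q : Cell =>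
    ∑ i ∈ Q.2, sgn Q.2 i • (sg (Q.1 + ee i, Q.2.erase i) - sg (Q.1, Q.2.erase i))

/-- sum of the coefficients of the lattice points -/
def aug0 : Ch Cell →ₗ[ℂ] ℂ :=
  Finsupp.linearCombination ℂ fun Q : Cell => if Q.2.card = 0 then (1 : ℂ) else 0

/-- boundary of cubes on sheets; the sheet number moves by `sh n i` from `n` to `n + ee i` -/
def bdT (sh : Z3 → Fin 3 → ℤ) : Ch (Cell × ℤ) →ₗ[ℂ] Ch (Cell × ℤ) :=
  Finsupp.linearCombination ℂ fun b : Cell × ℤ =>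
    ∑ i ∈ b.1.2, sgn b.1.2 i •
      (sg ((b.1.1 + ee i, b.1.2.erase i), b.2 + sh b.1.1 i) - sg ((b.1.1, b.1.2.erase i), b.2))

/-- the cube lies in the box with corners `lo`, `hi` -/
def InBox (lo hi : Z3) (Q : Cell) : Prop :=
  ∀ i, lo i ≤ Q.1 i ∧ Q.1 i + (if i ∈ Q.2 then 1 else 0) ≤ hi i

/-- the closed cube as a subset of space -/
def body (Q : Cell) : Set P3 :=
  {x | ∀ i, (Q.1 i : ℝ) ≤ x i ∧ x i ≤ Q.1 i + (if i ∈ Q.2 then 1 else 0)}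

/-- lift of chains along the sheet function `g` -/
def liftG (g : Z3 → ℤ) : Ch Cell →ₗ[ℂ] Ch (Cell × ℤ) :=
  Finsupp.lmapDomain ℂ ℂ fun Q : Cell => (Q, g Q.1)

/-- the deck transformation on chains -/
def deck : Ch (Cell × ℤ) →ₗ[ℂ] Ch (Cell × ℤ) :=
  Finsupp.lmapDomain ℂ ℂ fun b : Cell × ℤ => (b.1, b.2 + 1)

/-- projection to the base with weight `l ^ k` on sheet `k` -/
def pl (l : ℂ) : Ch (Cell × ℤ) →ₗ[ℂ] Ch Cell :=
  Finsupp.linearCombination ℂ fun b : Cell × ℤ => l ^ b.2 • sg b.1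

/-- the lattice point `n` at mesh `c` -/
def lat (c : ℝ) (n : Z3) : P3 := fun i => c * n i

/-- the complex of mesh `c` on the cyclic cover defined by `θ₀` mod one over `M`, up to level `B` -/
def cx {X : Type} (ι : P3 → X) (θ₀ : X → ℝ) (M : Set X) (B c : ℝ) : Cx (Cell × ℤ) (X × ℝ) where
  dim b := b.1.2.card
  bd := bdT fun n i => round (θ₀ (ι (lat c n)) - θ₀ (ι (lat c (n + ee i))))
  pos b := (ι (lat c b.1.1), θ₀ (ι (lat c b.1.1)) + b.2)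
  N := {b | (∀ x ∈ body b.1, ι (c • x) ∈ M) ∧
    |θ₀ (ι (lat c b.1.1)) + b.2| ≤ B - (b.1.2.card : ℝ) / 2}

/-- the part of the cyclic cover over `M` up to level `B` -/
def ovr {X : Type} (θ : X → Ci) (M : Set X) (B : ℝ) : Set (X × ℝ) :=
  {y | y.1 ∈ M ∧ (y.2 : Ci) = θ y.1 ∧ |y.2| ≤ B}

/-- standing assumptions for `cx` -/
structure CxData {X : Type} [MetricSpace X] (ι : P3 → X) (θ : X → Ci) (θ₀ : X → ℝ)
    (M M' : Set X) (B : ℝ) : Prop where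
  emb : IsOpenEmbedding ι
  cM : IsCompact M
  cM' : IsCompact M'
  rng : M ⊆ range ι
  int : M' ⊆ interior M
  cont : ContinuousOn θ M
  rep : ∀ x, (θ₀ x : Ci) = θ x
  rep0 : ∀ x, θ₀ x ∈ Ico (0 : ℝ) 1
  big : 3 ≤ B

end Cubes

section Flow

variable {X : Type}

/-- closed tube of radius `r` -/
def tube (Ψ : Ci × (ℝ × ℝ) → X) (r : ℝ) : Set X := Ψ '' (univ ×ˢ closedBall 0 r)

/-- open tube of radius `r` -/
def otube (Ψ : Ci × (ℝ × ℝ) → X) (r : ℝ) : Set X := Ψ '' (univ ×ˢ ball 0 r)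

/-- A flow `ψ` with a closed orbit `tube Ψ 0` of period one and a tube of parallel orbits around it,
a circle valued function `θ` off the orbit with its increments `Δ` along the flow, and a push `g`
transverse to the flow. -/
structure TopData [MetricSpace X] (ψ : ℝ → X → X) (Ψ : Ci × (ℝ × ℝ) → X) (θ : X → Ci)
    (Δ : X → ℝ → ℝ) (g : ℝ → X → X) (N ρ : ℕ) : Prop where
  cont : Continuous fun p : ℝ × X => ψ p.1 p.2
  zero : ∀ x, ψ 0 x = x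
  add : ∀ s t x, ψ (s + t) x = ψ s (ψ t x)
  Ψc : ContinuousOn Ψ (univ ×ˢ ball 0 4)
  Ψinj : InjOn Ψ (univ ×ˢ ball 0 4)
  Ψopn : ∀ q ∈ (univ ×ˢ ball 0 4 : Set (Ci × (ℝ × ℝ))), 𝓝 (Ψ q) ≤ map Ψ (𝓝 q)
  par : ∀ (s : Ci) (w : ℝ × ℝ) (t : ℝ), ‖w‖ < 4 → ψ t (Ψ (s, w)) = Ψ (s + (t : Ci), w)
  θc : ContinuousOn θ (tube Ψ 0)ᶜ
  Δc : ContinuousOn (fun p : X × ℝ => Δ p.1 p.2) ((tube Ψ 0)ᶜ ×ˢ univ)
  Δθ : ∀ x, x ∉ tube Ψ 0 → ∀ t, θ (ψ t x) = θ x + (Δ x t : Ci)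
  Δadd : ∀ x, x ∉ tube Ψ 0 → ∀ s t, Δ x (s + t) = Δ x s + Δ (ψ s x) t
  pos : ∀ x, x ∉ tube Ψ 0 → 0 < Δ x 1
  per : ∀ x, x ∉ tube Ψ 0 → ∀ t, 0 < t → ψ t x = x → (N : ℝ) - 1 < Δ x t
  lon : Δ (Ψ (0, (-2, 0))) 1 ≤ ρ
  mer : ∃ (γ : ℝ → X) (F : ℝ → ℝ), Continuous γ ∧ Continuous F ∧ ∀ t,
    γ t ∉ tube Ψ 2 ∧ (F t : Ci) = θ (γ t) ∧ γ (t + 1) = γ t ∧ F (t + 1) = F t + 1
  gc : Continuous fun p : ℝ × X => g p.1 p.2
  g0 : ∀ x, g 0 x = x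
  gpar : ∀ (s : Ci) (w : ℝ × ℝ) (e : ℝ), ‖w‖ ≤ 3 → e ∈ Icc (0 : ℝ) (1 / 2) →
    g e (Ψ (s, w)) = Ψ (s, w + (e, 0))
  gfree : ∃ e₀ t₀ : ℝ, 0 < e₀ ∧ 0 < t₀ ∧ ∀ e ∈ Ioc 0 e₀, ∀ t, |t| ≤ t₀ → ∀ x, g e x ≠ ψ t x
  hN : 3 ≤ N
  hρ : ρ + 2 ≤ 2 * N

/-- radial push out to the square of radius two -/
def rad (w : ℝ × ℝ) : ℝ × ℝ := max 1 (2 / ‖w‖) • w

/-- the radial retraction -/
structure IsR [MetricSpace X] (Ψ : Ci × (ℝ × ℝ) → X) (R : X → X) : Prop where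
  cont : ContinuousOn R (tube Ψ 0)ᶜ
  out : ∀ x, x ∉ otube Ψ 2 → R x = x
  inn : ∀ (s : Ci) (w : ℝ × ℝ), w ≠ 0 → ‖w‖ < 4 → R (Ψ (s, w)) = Ψ (s, rad w)
  img : ∀ x, x ∉ tube Ψ 0 → R x ∉ otube Ψ 2

/-- the representative of least absolute value -/
def lf (a : Ci) : ℝ := (AddCircle.equivIoc (1 : ℝ) (-1 / 2) a : ℝ)

/-- the lifted flow -/
def lfl (ψ : ℝ → X → X) (Δ : X → ℝ → ℝ) (t : ℝ) (y : X × ℝ) : X × ℝ :=
  (ψ t y.1, y.2 + Δ y.1 t)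

/-- the level function -/
def lev (Δ : X → ℝ → ℝ) (y : X × ℝ) : ℝ := y.2 + ∫ s in (0 : ℝ)..1, Δ y.1 s

/-- deck transformations -/
def up (n : ℤ) (y : X × ℝ) : X × ℝ := (y.1, y.2 + n)

/-- nearest lift of the map `b` -/
def nl (θ : X → Ci) (b : X → X) (y : X × ℝ) : X × ℝ :=
  (b y.1, y.2 + lf (θ (b y.1) - θ y.1))

/-- the time needed to reach level zero -/
structure IsTm [MetricSpace X] (ψ : ℝ → X → X) (Δ : X → ℝ → ℝ) (M : Set X) (tm : X × ℝ → ℝ) :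
    Prop where
  cont : ContinuousOn tm (M ×ˢ univ)
  lev0 : ∀ y : X × ℝ, y.1 ∈ M → lev Δ (lfl ψ Δ (tm y) y) = 0
  uniq : ∀ y : X × ℝ, y.1 ∈ M → ∀ t, lev Δ (lfl ψ Δ t y) = 0 → t = tm y
  mono : ∀ y : X × ℝ, y.1 ∈ M → StrictMono fun t => lev Δ (lfl ψ Δ t y)
  levc : ContinuousOn (lev Δ) (M ×ˢ univ)

/-- all the choices -/
structure Setup [MetricSpace X] (ψ : ℝ → X → X) (Ψ : Ci × (ℝ × ℝ) → X) (θ : X → Ci)
    (Δ : X → ℝ → ℝ) (g : ℝ → X → X) (N ρ : ℕ) (R : X → X) (tm : X × ℝ → ℝ) (a e₁ B₀ : ℝ) : Prop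
    extends TopData ψ Ψ θ Δ g N ρ where
  a1 : 1 < a
  a2 : a < 2
  e0 : 0 < e₁
  e1 : e₁ ≤ 1 / 2
  isR : IsR Ψ R
  isTm : IsTm ψ Δ (otube Ψ a)ᶜ tm
  small : ∀ x, x ∉ otube Ψ a → ∀ e ∈ Icc 0 e₁, g e x ∉ tube Ψ 0 ∧ ‖θ (R (g e x)) - θ x‖ < 1 / 4
  B0 : ∀ x, x ∉ otube Ψ a → |∫ s in (0 : ℝ)..1, Δ x s| ≤ B₀

/-- push by `e`, retract, move `n` sheets up, flow to level zero -/
def FF (ψ : ℝ → X → X) (θ : X → Ci) (Δ : X → ℝ → ℝ) (g : ℝ → X → X) (R : X → X)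
    (tm : X × ℝ → ℝ) (n : ℤ) (e : ℝ) (y : X × ℝ) : X × ℝ :=
  lfl ψ Δ (tm (up n (nl θ (fun x => R (g e x)) y))) (up n (nl θ (fun x => R (g e x)) y))

/-- the page: level zero, outside the tube of radius two -/
def page (Ψ : Ci × (ℝ × ℝ) → X) (θ : X → Ci) (Δ : X → ℝ → ℝ) : Set (X × ℝ) :=
  {y | y.1 ∉ otube Ψ 2 ∧ (y.2 : Ci) = θ y.1 ∧ lev Δ y = 0}

end Flow

end Pool.Agent.Lib.MP_399f8e_an.Lk
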