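import Pool.Agent.Lib.MP_399f8e_an.Rg.Cross
import Pool.Agent.Lib.MP_399f8e_an.Lk.TDefs

/-!
Working definitions for the analytic half of the linking form theorem.
-/

open Set Filter Topology Metric MeasureTheory
open scoped RealInnerProductSpace

noncomputable section

namespace Pool.Agent.Lib.MP_399f8e_an.Lk

open Rg

/-- determinant of four vectors -/
def vol (x u v w : E) : ℝ :=
  (Matrix.of ![fun k => x k, fun k => u k, fun k => v k, fun k => w k]).det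

theorem vol_eq (x u v w : E) : vol x u v w =
    x 0 * (u 1 * (v 2 * w 3 - v 3 * w 2) - u 2 * (v 1 * w 3 - v 3 * w 1)
        + u 3 * (v 1 * w 2 - v 2 * w 1))
      - x 1 * (u 0 * (v 2 * w 3 - v 3 * w 2) - u 2 * (v 0 * w 3 - v 3 * w 0)
        + u 3 * (v 0 * w 2 - v 2 * w 0))
      + x 2 * (u 0 * (v 1 * w 3 - v 3 * w 1) - u 1 * (v 0 * w 3 - v 3 * w 0)
        + u 3 * (v 0 * w 1 - v 1 * w 0))
      - x 3 * (u 0 * (v 1 * w 2 - v 2 * w 1) - u 1 * (v 0 * w 2 - v 2 * w 0)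
        + u 2 * (v 0 * w 1 - v 1 * w 0)) := by
  simp [vol, Matrix.det_succ_row_zero, Fin.sum_univ_succ, Fin.succAbove]
  ring

/-- the radial part of the linking kernel -/
def gaussK (c : ℝ) : ℝ :=
  ∫ u in (0 : ℝ)..1, u * (1 - u) / ((1 - u) ^ 2 + u ^ 2 - 2 * u * (1 - u) * c) ^ 2

/-- the linking kernel -/
def Gk (x v y w : E) : ℝ := gaussK ⟪x, y⟫ * vol x v y w

/-- the linking kernel on the field `X` -/
def gg (X : S → E) (p : S × S) : ℝ := Gk p.1 (X p.1) p.2 (X p.2)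

/-- the linking form -/
def lk (X : S → E) (μ ν : Measure S) : ℝ := ∫ p, gg X p ∂(μ.prod ν)

/-- invariant probability -/
def Inv (φ : ℝ → S → S) (μ : Measure S) : Prop :=
  IsProbabilityMeasure μ ∧ ∀ t, MeasurePreserving (φ t) μ μ

/-- zero within `η / 2`, one beyond `η` -/
def cut (η : ℝ) (x y : E) : ℝ := min 1 (max 0 (2 * ‖x - y‖ / η - 1))

/-- the far part of the kernel -/
def gf (X : S → E) (η : ℝ) (x y : S) : ℝ := cut η x y * Gk x (X x) y (X y)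

/-- the far part of the linking form -/
def lkf (X : S → E) (η : ℝ) (μ ν : Measure S) : ℝ := ∫ p : S × S, gf X η p.1 p.2 ∂(μ.prod ν)

/-- the far part of the Gauss integral of two arcs -/
def QQ (X : S → E) (σ η : ℝ) (k : ℝ → S) (a b : ℝ) (k' : ℝ → S) (a' b' : ℝ) : ℝ :=
  σ * ∫ s in a..b, ∫ t in a'..b', gf X η (k s) (k' t)

/-- an orbit -/
abbrev orb (φ : ℝ → S → S) (x : S) : ℝ → S := fun t => φ t x

/-- far self-linking of an orbit segment -/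
def PP (X : S → E) (φ : ℝ → S → S) (σ η : ℝ) (x : S) (T : ℝ) : ℝ :=
  QQ X σ η (orb φ x) 0 T (orb φ x) 0 T

/-- a Lipschitz tangent field and its flow -/
structure LF (W : S → E) (ψ : ℝ → S → S) (L : ℝ) : Prop extends IsFl ψ where
  perp : ∀ x : S, ⟪(x : E), W x⟫ = 0
  L_pos : 0 < L
  lip : ∀ x y : S, ‖W x - W y‖ ≤ L * ‖(x : E) - y‖
  der : ∀ (x : S) (t : ℝ), HasDerivAt (fun t => (ψ t x : E)) (W (ψ t x)) t

/-- the standing assumptions -/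
structure Base (X : S → E) (φ : ℝ → S → S) (m M L : ℝ) : Prop extends LF X φ L where
  m_pos : 0 < m
  low : ∀ x, m ≤ ‖X x‖
  up : ∀ x, ‖X x‖ ≤ M
  aper : ∀ x t, 0 < t → φ t x ≠ x

/-- on `[a, b]` the curve `k` follows `X` up to the error `ζ` -/
structure PC (X : S → E) (ζ : ℝ) (k : ℝ → S) (a b : ℝ) : Prop where
  cont : Continuous k
  der : ∀ t ∈ Icc a b, ∃ v : E, HasDerivAt (fun t => (k t : E)) v t ∧ ‖v - X (k t)‖ ≤ ζ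

/-- such curves do not come back at times between `t₁` and `τ` -/
def NoRet (X : S → E) (ζ η t₁ τ : ℝ) : Prop :=
  ∀ k a b, PC X ζ k a b → t₁ ≤ b - a → b - a ≤ τ → η < ‖(k b : E) - k a‖

/-- the short range bounds for the flow of `W` -/
structure Near (W : S → E) (ψ : ℝ → S → S) (t₀ C₀ : ℝ) : Prop where
  t_pos : 0 < t₀
  C_pos : 0 < C₀
  free : ∀ y t, 0 < t → t ≤ t₀ → ψ t y ≠ y
  bound : ∀ (x y : S) (a : ℝ), ∫⁻ t in Icc a (a + t₀),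
    ENNReal.ofReal |Gk x (W x) (ψ t y) (W (ψ t y))| ≤ ENNReal.ofReal C₀

/-- pinched positivity of the far Gauss integrals of long arcs -/
def PK (X : S → E) (σ η ζ T₀ c C κ : ℝ) : Prop :=
  ∀ k a b k' a' b', PC X ζ k a b → PC X ζ k' a' b' → T₀ ≤ b - a → T₀ ≤ b' - a' →
    c * ((b - a) * (b' - a')) ≤ QQ X σ η k a b k' a' b' ∧
    QQ X σ η k a b k' a' b' ≤ C * ((b - a) * (b' - a')) ∧
    (1 / 4 + κ) * (QQ X σ η k a b k a b * QQ X σ η k' a' b' k' a' b') ≤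
      QQ X σ η k a b k' a' b' ^ 2

/-- `μ` is the empirical measure of the arc -/
def Emp (k : ℝ → S) (a b : ℝ) (μ : Measure S) : Prop :=
  ∀ f : S → ℝ, Continuous f → ∫ x, f x ∂μ = (b - a)⁻¹ * ∫ t in a..b, f (k t)

/-- the segment (x₀, T)` almost minimises the self-linking among the segments with a slightly
larger gap -/
def MinCh (X : S → E) (φ : ℝ → S → S) (σ η : ℝ) (x₀ : S) (T h r ξ ε : ℝ) : Prop :=
  ∀ (x : S) (T' : ℝ), h ≤ T' → ‖(φ T' x : E) - x‖ ≤ (1 + ξ) * r →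
    (1 - ε) * PP X φ σ η x₀ T ≤ PP X φ σ η x T'

/-- a closed curve with Lipschitz derivative -/
structure Loop (K : ℝ → S) (K' : ℝ → E) (T Λ : ℝ) : Prop where
  T_pos : 0 < T
  der : ∀ t, HasDerivAt (fun t => (K t : E)) (K' t) t
  per : ∀ t, K (t + T) = K t
  per' : ∀ t, K' (t + T) = K' t
  lip : ∀ s t, ‖K' s - K' t‖ ≤ Λ * |s - t|

/-- the segment (x₀, T)` closed during the times `[0, h]` -/
structure Knot (X : S → E) (φ : ℝ → S → S) (K : ℝ → S) (K' : ℝ → E) (x₀ : S) (T h r Λ A : ℝ) :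
    Prop extends Loop K K' T Λ where
  h_pos : 0 < h
  r_pos : 0 < r
  hT : 6 * h ≤ T
  gap : ‖(φ T x₀ : E) - x₀‖ ≤ r
  dev : ∀ t, ‖K' t - X (K t)‖ ≤ A * r
  orb : ∀ t ∈ Icc h T, K t = φ t x₀
  eq : ∀ t ∈ Icc h T, K' t = X (K t)
  mix : ∀ t ∈ Icc 0 h, ∃ b ∈ Icc (0 : ℝ) 1,
    K t = N ((1 - b) • (φ t (φ T x₀) : E) + b • (φ t x₀ : E))

/-- points near the closing arc flow back to points at distance hardly more than `r` -/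
def Gap (φ : ℝ → S → S) (K : ℝ → S) (h r ξ : ℝ) : Prop :=
  ∀ s ∈ Icc (-h) (2 * h), ∀ s' ∈ Icc (-h) (2 * h), ∀ p p' : S,
    ‖(p : E) - K s‖ ≤ ξ * r / 8 → ‖(p' : E) - K s'‖ ≤ ξ * r / 8 →
      ‖(φ (-s) p : E) - φ (-s') p'‖ ≤ (1 + ξ / 2) * r

/-- the knot does not come back to the closing arc -/
def NoMid (K : ℝ → S) (T h r ξ : ℝ) : Prop :=
  ∀ t ∈ Icc (3 * h) (T - 2 * h), ∀ s ∈ Icc (-h) (2 * h), ξ * r / 8 < ‖(K t : E) - K s‖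

/-- a smooth frame transverse to `X` -/
structure Frame2 (X : S → E) (Z₁ Z₂ : E → E) (m₀ : ℝ) : Prop where
  c1 : ContDiff ℝ 2 Z₁
  c2 : ContDiff ℝ 2 Z₂
  p1 : ∀ x, ⟪x, Z₁ x⟫ = 0
  p2 : ∀ x, ⟪x, Z₂ x⟫ = 0
  m_pos : 0 < m₀
  det : ∀ x : S, m₀ ≤ vol x (X x) (Z₁ x) (Z₂ x)

/-- tube coordinates: time along the knot, and a point of the plane -/
abbrev T3 : Type := ℝ × (ℝ × ℝ)

/-- the tube map and its derivative -/
structure PreTube (K : ℝ → S) (K' : ℝ → E) (Z₁ Z₂ : E → E) (Ψ : T3 → S) (D : T3 → T3 →L[ℝ] E)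
    (T r₀ C₀ : ℝ) : Prop where
  r_pos : 0 < r₀
  C_one : 1 ≤ C₀
  core : ∀ s, Ψ (s, 0) = K s
  D0 : ∀ s (v : T3), D (s, 0) v = v.1 • K' s + v.2.1 • Z₁ (K s) + v.2.2 • Z₂ (K s)
  per : ∀ s w, Ψ (s + T, w) = Ψ (s, w)
  perD : ∀ s w, D (s + T, w) = D (s, w)
  fd : ∀ q : T3, ‖q.2‖ < r₀ → HasFDerivAt (fun q => (Ψ q : E)) (D q) q
  bd : ∀ q : T3, ‖q.2‖ < r₀ → ‖D q‖ ≤ C₀
  lipD : ∀ q q' : T3, ‖q.2‖ < r₀ → ‖q'.2‖ < r₀ → ‖D q - D q'‖ ≤ C₀ * ‖q - q'‖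
  lip : ∀ q q' : T3, ‖q.2‖ < r₀ → ‖q'.2‖ < r₀ → ‖(Ψ q : E) - Ψ q'‖ ≤ C₀ * ‖q - q'‖

/-- the tube map is locally a chart, with uniform constants -/
structure Tube (K : ℝ → S) (K' : ℝ → E) (Z₁ Z₂ : E → E) (Ψ : T3 → S) (D : T3 → T3 →L[ℝ] E)
    (T r₀ C₀ t₀ c₀ : ℝ) : Prop extends PreTube K K' Z₁ Z₂ Ψ D T r₀ C₀ where
  t_pos : 0 < t₀
  c_pos : 0 < c₀
  colip : ∀ q q' : T3, ‖q.2‖ < r₀ → ‖q'.2‖ < r₀ → |q.1 - q'.1| ≤ t₀ →
    c₀ * ‖q - q'‖ ≤ ‖(Ψ q : E) - Ψ q'‖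
  opn : ∀ q : T3, ‖q.2‖ < r₀ → 𝓝 (Ψ q) ≤ map Ψ (𝓝 q)

/-- far strands of the knot are separated -/
def Sep (K : ℝ → S) (T t₀ d₀ : ℝ) : Prop :=
  0 < d₀ ∧ ∀ s s' : ℝ, ‖(K s : E) - K s'‖ < d₀ → ∃ n : ℤ, |s' - s - n * T| ≤ t₀

/-- the thin tube together with the fat part around the closing arc -/
def dom (T h f δ : ℝ) : Set T3 :=
  {q | ‖q.2‖ < 8 * δ ∨ (‖q.2‖ < f ∧ ‖((q.1 - h / 2 : ℝ) : AddCircle T)‖ < 3 * h / 2)}

/-- injective modulo the period -/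
def InjMod (Ψ : T3 → S) (T : ℝ) (U : Set T3) : Prop :=
  ∀ q ∈ U, ∀ q' ∈ U, Ψ q = Ψ q' → q'.2 = q.2 ∧ ∃ n : ℤ, q'.1 = q.1 + n * T

/-- the new field -/
structure Pert (X : S → E) (K : ℝ → S) (Ψ : T3 → S) (D : T3 → T3 →L[ℝ] E) (W : S → E) (F : Set S)
    (h L₁ ζ ζ' δ ϱ : ℝ) : Prop where
  perp : ∀ x : S, ⟪(x : E), W x⟫ = 0
  lip : ∀ x y : S, ‖W x - W y‖ ≤ L₁ * ‖(x : E) - y‖
  near : ∀ x, ‖W x - X x‖ ≤ ζ
  off : ∀ x, x ∉ F → ‖W x - X x‖ ≤ ζ'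
  par : ∀ q : T3, ‖q.2‖ ≤ 4 * δ → W (Ψ q) = D q (1, 0)
  cl : IsClosed F
  fat : ∀ p ∈ F, ∃ s ∈ Icc (-h) (2 * h), ‖(p : E) - K s‖ ≤ ϱ

/-- the thin tube as a topological chart -/
structure Thin (K : ℝ → S) (Ψ : T3 → S) (T R : ℝ) : Prop where
  T_pos : 0 < T
  R_pos : 0 < R
  cont : ContinuousOn Ψ {q | ‖q.2‖ < R}
  core : ∀ s, Ψ (s, 0) = K s
  per : ∀ s w, Ψ (s + T, w) = Ψ (s, w)
  inj : InjMod Ψ T {q | ‖q.2‖ < R}
  opn : ∀ q : T3, ‖q.2‖ < R → 𝓝 (Ψ q) ≤ map Ψ (𝓝 q)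

/-- a push along the first transverse direction -/
structure Push (ψ g : ℝ → S → S) (Ψ : T3 → S) (δ : ℝ) : Prop where
  cont : Continuous fun p : ℝ × S => g p.1 p.2
  zero : ∀ x, g 0 x = x
  par : ∀ s (w : ℝ × ℝ) (e : ℝ), ‖w‖ ≤ 3 * δ → e ∈ Icc 0 (δ / 2) →
    g e (Ψ (s, w)) = Ψ (s, w + (e, 0))
  free : ∃ e₀ t₀ : ℝ, 0 < e₀ ∧ 0 < t₀ ∧ ∀ e ∈ Ioc 0 e₀, ∀ t, |t| ≤ t₀ → ∀ x, g e x ≠ ψ t x

/-- `f` is a primitive of the one-form `β` on a ball -/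
def IsPrim (β : E → E →L[ℝ] ℝ) (x : E) (ρ : ℝ) (f : E → ℝ) : Prop :=
  0 < ρ ∧ ∀ y ∈ ball x ρ, HasFDerivAt f (β y) y

/-- the Gauss one-form of the knot -/
structure Form (K : ℝ → S) (K' : ℝ → E) (T : ℝ) (β : E → E →L[ℝ] ℝ) : Prop where
  cont : ContinuousOn (fun x : S => β x) (range K)ᶜ
  prim : ∀ x : S, x ∉ range K → ∃ ρ f, IsPrim β x ρ f
  val : ∀ x : S, x ∉ range K → ∀ v, β x v = ∫ t in (0 : ℝ)..T, Gk x v (K t) (K' t)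

/-- near `z` the function `F` is a primitive of `β` along `j`, read through `χ` -/
def LP {Z G : Type} [TopologicalSpace Z] [AddCommGroup G] (β : E → E →L[ℝ] ℝ) (χ : ℝ →+ G)
    (j : Z → S) (F : Z → G) (z : Z) : Prop :=
  ∀ ρ f, IsPrim β (j z) ρ f → ∃ c : G, ∀ᶠ y in 𝓝 z, F y - χ (f (j y)) = c

/-- polar coordinates in the tube: time, angle, radius -/
def pol (z : T3) : T3 := (z.1, (z.2.2 * Real.cos z.2.1, z.2.2 * Real.sin z.2.1))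

/-- `F` is a primitive on the polar cover of the punctured tube, with periods `p` and `q` -/
def Polar (β : E → E →L[ℝ] ℝ) (Ψ : T3 → S) (T R : ℝ) (F : T3 → ℝ) (p q : ℝ) : Prop :=
  ∀ z : T3, 0 < z.2.2 → z.2.2 < R → LP β (AddMonoidHom.id ℝ) (fun z => Ψ (pol z)) F z ∧
    F (z.1 + T, z.2) = F z + q ∧ F (z.1, (z.2.1 + 2 * Real.pi, z.2.2)) = F z + p

/-- integral of the form along an orbit -/
def Dl (β : E → E →L[ℝ] ℝ) (W : S → E) (ψ : ℝ → S → S) (σ : ℝ) (x : S) (t : ℝ) : ℝ :=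
  σ * ∫ s in (0 : ℝ)..t, β (ψ s x) (W (ψ s x))

/-- integral of the form along the meridian of radius `ϱ` -/
def merI (β : E → E →L[ℝ] ℝ) (Ψ : T3 → S) (D : T3 → T3 →L[ℝ] E) (ϱ : ℝ) : ℝ :=
  ∫ α in (0 : ℝ)..(2 * Real.pi), β (Ψ (pol (0, (α, ϱ))))
    (D (pol (0, (α, ϱ))) (0, (-(ϱ * Real.sin α), ϱ * Real.cos α)))

end Pool.Agent.Lib.MP_399f8e_an.Lk
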