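import Pool.Agent.Lib.MP_399f8e_an.Lk.ADefs
import Pool.Agent.Lib.MP_399f8e_an.Lk.ACech

open Set Filter Topology Metric MeasureTheory
open scoped RealInnerProductSpace

noncomputable section

namespace Pool.Agent.Lib.MP_399f8e_an.Lk

open Rg

variable {Z G : Type} [TopologicalSpace Z] [AddCommGroup G] {β : E → E →L[ℝ] ℝ} {χ : ℝ →+ G}

namespace AMono1Aux

/-- a function which is constant near each point of a preconnected set is constant on it -/
theorem const_of_ev {H : Type} {A : Set Z} (hA : IsPreconnected A) (g : Z → H)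
    (h : ∀ z ∈ A, ∃ c, ∀ᶠ y in 𝓝 z, g y = c) {z z' : Z} (hz : z ∈ A) (hz' : z' ∈ A) :
    g z = g z' := by
  have hl : IsLocallyConstant fun y : A => g y := by
    rw [IsLocallyConstant.iff_eventually_eq]
    intro x
    obtain ⟨c, hc⟩ := h x x.2
    have h1 : g x = c := hc.self_of_nhds
    have h2 : ∀ᶠ y : A in 𝓝 x, g y = c := (continuous_subtype_val.tendsto x).eventually hc
    exact h2.mono fun y hy => hy.trans h1.symm
  haveI : PreconnectedSpace A := Subtype.preconnectedSpace hA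
  exact hl.apply_eq_of_preconnectedSpace ⟨z, hz⟩ ⟨z', hz'⟩

theorem ev_ball {j : Z → S} {z : Z} (hj : ContinuousAt j z) {x : E} {ρ : ℝ}
    (hz : (j z : E) ∈ ball x ρ) : ∀ᶠ y in 𝓝 z, (j y : E) ∈ ball x ρ :=
  (continuous_subtype_val.continuousAt.comp hj).eventually (isOpen_ball.mem_nhds hz)

theorem pol_cont : Continuous pol := by
  unfold pol
  fun_prop

end AMono1Aux

open AMono1Aux

/-- Two primitives differ by a constant on the intersection of two balls (convex, open). -/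
theorem IsPrim.sub {x x' : E} {ρ ρ' : ℝ} {f f' : E → ℝ} (h : IsPrim β x ρ f) (h' : IsPrim β x' ρ' f') :
    ∃ c : ℝ, ∀ y ∈ ball x ρ ∩ ball x' ρ', f y - f' y = c := by
  refine IsOpen.exists_is_const_of_fderiv_eq_zero (𝕜 := ℝ) (isOpen_ball.inter isOpen_ball)
    ((convex_ball x ρ).inter (convex_ball x' ρ')).isPreconnected (fun y hy => ?_) (fun y hy => ?_)
  · exact ((h.2 y hy.1).sub (h'.2 y hy.2)).differentiableAt.differentiableWithinAt
  · have h1 := ((h.2 y hy.1).fun_sub (h'.2 y hy.2)).fderiv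
    rw [h1, sub_self]
    rfl

/-- It is enough to test one primitive whose ball contains `j z`. -/
theorem LP.of_one {j : Z → S} {F : Z → G} {z : Z} (hj : ContinuousAt j z) {x : E} {ρ : ℝ}
    {f : E → ℝ} (hf : IsPrim β x ρ f) (hz : (j z : E) ∈ ball x ρ) {c : G}
    (hc : ∀ᶠ y in 𝓝 z, F y - χ (f (j y)) = c) : LP β χ j F z := by
  intro ρ' f' hf'
  obtain ⟨c', hc'⟩ := hf.sub hf'
  refine ⟨c + χ c', ?_⟩
  filter_upwards [hc, ev_ball hj hz, ev_ball hj (mem_ball_self hf'.1)] with y h1 h2 h3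
  rw [← h1, ← hc' _ ⟨h2, h3⟩, map_sub]
  abel

theorem LP.comp {Z' : Type} [TopologicalSpace Z'] {j : Z → S} {F : Z → G} {i : Z' → Z} {z : Z'}
    (h : LP β χ j F (i z)) (hi : ContinuousAt i z) : LP β χ (fun y => j (i y)) (fun y => F (i y)) z := by
  intro ρ f hf
  obtain ⟨c, hc⟩ := h ρ f hf
  exact ⟨c, hi.eventually hc⟩

/-- `t ↦ F t - χ (∫ s in a..t, β (j s) (v s))` is locally constant: near `t` the function
`f (j s) - ∫` has derivative zero. -/
theorem LP.curve {j : ℝ → S} {v : ℝ → E} {F : ℝ → G}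
    (hd : ∀ t, HasDerivAt (fun t => (j t : E)) (v t) t) (hc : Continuous fun t => β (j t) (v t))
    (hp : ∀ t, ∃ ρ f, IsPrim β (j t) ρ f) (h : ∀ t, LP β χ j F t) (a b : ℝ) :
    F b - F a = χ (∫ t in a..b, β (j t) (v t)) := by
  have hj : Continuous j :=
    continuous_induced_rng.2 (continuous_iff_continuousAt.2 fun t => (hd t).continuousAt)
  have key : ∀ t ∈ (univ : Set ℝ), ∃ c, ∀ᶠ y in 𝓝 t,
      F y - χ (∫ s in a..y, β (j s) (v s)) = c := by
    intro t _
    obtain ⟨ρ, f, hf⟩ := hp t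
    obtain ⟨c, hc1⟩ := h t ρ f hf
    obtain ⟨ε, hε, hb⟩ := Metric.eventually_nhds_iff_ball.1
      (ev_ball hj.continuousAt (mem_ball_self hf.1) (z := t))
    have hder : ∀ y ∈ ball t ε,
        HasDerivAt (fun y => f (j y) - ∫ s in a..y, β (j s) (v s)) 0 y := by
      intro y hy
      have h1 : HasDerivAt (fun y => f (j y)) (β (j y) (v y)) y :=
        (hf.2 _ (hb y hy)).comp_hasDerivAt y (hd y)
      have h2 := (hc.integral_hasStrictDerivAt a y).hasDerivAt
      have h3 := h1.fun_sub h2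
      rwa [sub_self] at h3
    obtain ⟨u, hu⟩ := IsOpen.exists_is_const_of_deriv_eq_zero (𝕜 := ℝ) isOpen_ball
      (convex_ball t ε).isPreconnected
      (fun y hy => (hder y hy).differentiableAt.differentiableWithinAt)
      (fun y hy => (hder y hy).deriv)
    refine ⟨c + χ u, ?_⟩
    filter_upwards [hc1, ball_mem_nhds t hε] with y h1 h2
    rw [← h1, ← hu y h2, map_sub]
    abel
  have h1 := const_of_ev isPreconnected_univ _ key (mem_univ b) (mem_univ a)
  simp only [intervalIntegral.integral_same, map_zero, sub_zero] at h1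
  rw [← h1]
  abel

/-- The difference is locally constant. -/
theorem LP.diff {j : Z → S} {F F' : Z → G} {A : Set Z} (hA : IsPreconnected A)
    (hp : ∀ z ∈ A, ∃ ρ f, IsPrim β (j z) ρ f) (h : ∀ z ∈ A, LP β χ j F z)
    (h' : ∀ z ∈ A, LP β χ j F' z) {z z' : Z} (hz : z ∈ A) (hz' : z' ∈ A) :
    F z - F' z = F z' - F' z' := by
  refine const_of_ev hA (fun y => F y - F' y) (fun x hx => ?_) hz hz'
  obtain ⟨ρ, f, hf⟩ := hp x hx
  obtain ⟨c, hc⟩ := h x hx ρ f hf
  obtain ⟨c', hc'⟩ := h' x hx ρ f hf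
  refine ⟨c - c', ?_⟩
  filter_upwards [hc, hc'] with y h1 h2
  rw [← h1, ← h2]
  abel

/-- `Ce.glue` with the empty bad set on the subtype `A` (contractible, locally path connected), the
cover by the preimages of the balls; extend by zero. -/
theorem exists_LP {A : Set T3} (ho : IsOpen A) (hc : Convex ℝ A) {j : T3 → S}
    (hj : ContinuousOn j A) (hp : ∀ z ∈ A, ∃ ρ f, IsPrim β (j z) ρ f) :
    ∃ F : T3 → ℝ, ∀ z ∈ A, LP β (AddMonoidHom.id ℝ) j F z := by
  classical
  rcases A.eq_empty_or_nonempty with rfl | hne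
  · exact ⟨fun _ => 0, fun z hz => absurd hz (notMem_empty z)⟩
  haveI : ContractibleSpace A := hc.contractibleSpace hne
  haveI : LocallyPathConnectedSpace A := ho.locallyPathConnectedSpace
  have hp' : ∀ z : A, ∃ ρ f, IsPrim β (j z) ρ f := fun z => hp z z.2
  choose ρ f hf using hp'
  have hjA : Continuous fun y : A => j y := hj.restrict
  have hjE : Continuous fun y : A => (j y : E) := continuous_subtype_val.comp hjA
  obtain ⟨θ, b, hb, hθ⟩ := Ce.glue (X := A) (A := ℝ) (ι := A)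
    (fun z => (fun y : A => (j y : E)) ⁻¹' ball (j z : E) (ρ z))
    (fun z => isOpen_ball.preimage hjE) (fun x => ⟨x, mem_ball_self (hf x).1⟩) ∅
    (by rw [compl_empty]; exact dense_univ) (fun z y => f z (j y)) (by
      intro z z' x hx hx'
      obtain ⟨c, hc'⟩ := (hf z).sub (hf z')
      refine ⟨c, ?_⟩
      filter_upwards [ev_ball hjA.continuousAt hx, ev_ball hjA.continuousAt hx'] with y h1 h2 _
      exact hc' _ ⟨h1, h2⟩)
  refine ⟨fun y => if hy : y ∈ A then θ ⟨y, hy⟩ else 0, fun z hz => ?_⟩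
  refine LP.of_one (hj.continuousAt (ho.mem_nhds hz)) (hf ⟨z, hz⟩) (mem_ball_self (hf ⟨z, hz⟩).1)
    (c := -b ⟨z, hz⟩ ⟨z, hz⟩) ?_
  have h0 : map (Subtype.val : A → T3) (𝓝 ⟨z, hz⟩) = 𝓝 z :=
    ho.isOpenEmbedding_subtypeVal.map_nhds_eq ⟨z, hz⟩
  rw [← h0, eventually_map]
  filter_upwards [hb ⟨z, hz⟩ ⟨z, hz⟩ (mem_ball_self (hf ⟨z, hz⟩).1),
    ev_ball hjA.continuousAt (z := (⟨z, hz⟩ : A)) (mem_ball_self (hf ⟨z, hz⟩).1)] with y h1 h2
  rw [dif_pos y.2, AddMonoidHom.id_apply, ← h1]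
  have h3 := hθ ⟨z, hz⟩ y h2 (notMem_empty y)
  change θ y - _ = _
  rw [h3]
  ring

theorem LP.continuousAt {G : Type} [AddCommGroup G] [TopologicalSpace G] [IsTopologicalAddGroup G]
    {χ : ℝ →+ G} (hχ : Continuous χ) {j : Z → S} {F : Z → G} {z : Z} (hj : ContinuousAt j z)
    (hp : ∃ ρ f, IsPrim β (j z) ρ f) (h : LP β χ j F z) : ContinuousAt F z := by
  obtain ⟨ρ, f, hf⟩ := hp
  obtain ⟨c, hc⟩ := h ρ f hf
  have h1 : ContinuousAt f (j z : E) := (hf.2 _ (mem_ball_self hf.1)).continuousAt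
  have h2 : ContinuousAt (fun y => f (j y)) z :=
    ContinuousAt.comp (f := fun y => (j y : E)) h1 (continuous_subtype_val.continuousAt.comp hj)
  have h3 : ContinuousAt (fun y => c + χ (f (j y))) z :=
    continuousAt_const.add (hχ.continuousAt.comp h2)
  refine h3.congr ?_
  filter_upwards [hc] with y hy
  rw [← hy]
  abel

theorem Thin.notMem {K : ℝ → S} {Ψ : T3 → S} {T R : ℝ} (h : Thin K Ψ T R) {q : T3}
    (hq : ‖q.2‖ < R) (h0 : q.2 ≠ 0) : Ψ q ∉ range K := by
  rintro ⟨s, hs⟩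
  have h1 : ((s, 0) : T3) ∈ {q : T3 | ‖q.2‖ < R} := by
    change ‖(0 : ℝ × ℝ)‖ < R
    rw [norm_zero]
    exact h.R_pos
  have h2 := h.inj (s, 0) h1 q hq (by rw [h.core, hs])
  exact h0 h2.1

theorem norm_pol (z : T3) : ‖(pol z).2‖ ≤ |z.2.2| ∧ |z.2.2| ≤ 3 / 2 * ‖(pol z).2‖ := by
  have e : ‖(pol z).2‖ = max |z.2.2 * Real.cos z.2.1| |z.2.2 * Real.sin z.2.1| := by
    simp only [pol, Prod.norm_def, Real.norm_eq_abs]
  rw [e, abs_mul, abs_mul]
  have hr := abs_nonneg z.2.2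
  have hc := Real.abs_cos_le_one z.2.1
  have hs := Real.abs_sin_le_one z.2.1
  have hc0 := abs_nonneg (Real.cos z.2.1)
  have hs0 := abs_nonneg (Real.sin z.2.1)
  constructor
  · exact max_le (mul_le_of_le_one_right hr hc) (mul_le_of_le_one_right hr hs)
  · have h1 : |Real.cos z.2.1| ^ 2 + |Real.sin z.2.1| ^ 2 = 1 := by
      rw [sq_abs, sq_abs]
      exact Real.cos_sq_add_sin_sq _
    have h2 : 2 / 3 ≤ |Real.cos z.2.1| ∨ 2 / 3 ≤ |Real.sin z.2.1| := by
      by_contra hcon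
      push Not at hcon
      nlinarith [hcon.1, hcon.2]
    rcases h2 with h2 | h2
    · have h3 := le_max_left (|z.2.2| * |Real.cos z.2.1|) (|z.2.2| * |Real.sin z.2.1|)
      nlinarith [mul_le_mul_of_nonneg_left h2 hr]
    · have h3 := le_max_right (|z.2.2| * |Real.cos z.2.1|) (|z.2.2| * |Real.sin z.2.1|)
      nlinarith [mul_le_mul_of_nonneg_left h2 hr]

/-- `exists_LP` on `0 < radius < R`; the two translates of `F` are primitives along the same map, so
`LP.diff` applies. -/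
theorem Thin.exists_polar {K : ℝ → S} {K' : ℝ → E} {Ψ : T3 → S} {T R : ℝ} (h : Thin K Ψ T R)
    (hβ : Form K K' T β) : ∃ F p q, Polar β Ψ T R F p q := by
  set A : Set T3 := {z | 0 < z.2.2 ∧ z.2.2 < R} with hA
  have ho : IsOpen A :=
    (isOpen_lt continuous_const (continuous_snd.comp continuous_snd)).inter
      (isOpen_lt (continuous_snd.comp continuous_snd) continuous_const)
  have hcv : Convex ℝ A :=
    (convex_Ioo (0 : ℝ) R).linear_preimage
      ((LinearMap.snd ℝ ℝ ℝ).comp (LinearMap.snd ℝ ℝ (ℝ × ℝ)))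
  have hlt : ∀ z ∈ A, ‖(pol z).2‖ < R := fun z hz =>
    lt_of_le_of_lt (norm_pol z).1 (by rw [abs_of_pos hz.1]; exact hz.2)
  have hne : ∀ z ∈ A, (pol z).2 ≠ 0 := by
    intro z hz h0
    have h1 := (norm_pol z).2
    rw [h0, norm_zero, abs_of_pos hz.1] at h1
    linarith [hz.1]
  have hj : ContinuousOn (fun z => Ψ (pol z)) A :=
    h.cont.comp pol_cont.continuousOn fun z hz => hlt z hz
  have hp : ∀ z ∈ A, ∃ ρ f, IsPrim β (Ψ (pol z)) ρ f := fun z hz =>
    hβ.prim _ (h.notMem (hlt z hz) (hne z hz))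
  obtain ⟨F, hF⟩ := exists_LP ho hcv hj hp
  have h0 : ((0, (0, R / 2)) : T3) ∈ A := ⟨half_pos h.R_pos, half_lt_self h.R_pos⟩
  have shift : ∀ i : T3 → T3, Continuous i → (∀ z ∈ A, i z ∈ A) →
      (∀ z, Ψ (pol (i z)) = Ψ (pol z)) → ∃ c : ℝ, ∀ z ∈ A, F (i z) = F z + c := by
    intro i hi hiA hiΨ
    refine ⟨F (i (0, (0, R / 2))) - F (0, (0, R / 2)), fun z hz => ?_⟩
    have h1 : ∀ y ∈ A, LP β (AddMonoidHom.id ℝ) (fun z => Ψ (pol z)) (fun y => F (i y)) y := by
      intro y hy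
      have h2 := (hF (i y) (hiA y hy)).comp (i := i) hi.continuousAt
      have h3 : (fun y => Ψ (pol (i y))) = fun y => Ψ (pol y) := funext hiΨ
      rw [← h3]
      exact h2
    have h4 := LP.diff hcv.isPreconnected hp h1 hF hz h0
    linarith
  obtain ⟨q, hq⟩ := shift (fun z => (z.1 + T, z.2)) (by fun_prop) (fun z hz => hz)
    (fun z => h.per _ _)
  obtain ⟨p, hp2⟩ := shift (fun z => (z.1, (z.2.1 + 2 * Real.pi, z.2.2))) (by fun_prop)
    (fun z hz => hz) (fun z => by simp only [pol, Real.cos_add_two_pi, Real.sin_add_two_pi])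
  exact ⟨F, p, q, fun z h1 h2 => ⟨hF z ⟨h1, h2⟩, hq z ⟨h1, h2⟩, hp2 z ⟨h1, h2⟩⟩⟩

end Pool.Agent.Lib.MP_399f8e_an.Lk
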