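import Pool.Agent.Lib.MP_399f8e_an.Lk.AKer

open Set Filter Topology Metric MeasureTheory
open scoped RealInnerProductSpace

noncomputable section

namespace Pool.Agent.Lib.MP_399f8e_an.Lk

open Rg

variable {X : S → E} {σ η B : ℝ} {k k' l l' : ℝ → S}

namespace AQAux

theorem cont2 (hX : Continuous X) (hη : 0 < η) (hk : Continuous k) (hk' : Continuous k') :
    Continuous (Function.uncurry fun s t : ℝ => gf X η (k s) (k' t)) :=
  (continuous_gf hX hη).comp
    (f := fun p : ℝ × ℝ => ((k p.1, k' p.2) : S × S))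
    ((hk.comp continuous_fst).prodMk (hk'.comp continuous_snd))

theorem contIn (hX : Continuous X) (hη : 0 < η) (hk' : Continuous k') (x : S) :
    Continuous fun t : ℝ => gf X η x (k' t) :=
  (continuous_gf hX hη).comp (f := fun t : ℝ => ((x, k' t) : S × S))
    (continuous_const.prodMk hk')

theorem contOut (hX : Continuous X) (hη : 0 < η) (hk : Continuous k) (hk' : Continuous k')
    (a' b' : ℝ) : Continuous fun s : ℝ => ∫ t in a'..b', gf X η (k s) (k' t) :=
  intervalIntegral.continuous_parametric_intervalIntegral_of_continuous' (cont2 hX hη hk hk') a' b'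

end AQAux

theorem QQ_symm (hX : Continuous X) (hη : 0 < η) (hk : Continuous k) (hk' : Continuous k')
    (a b a' b' : ℝ) : QQ X σ η k' a' b' k a b = QQ X σ η k a b k' a' b' := by
  unfold QQ
  congr 1
  have hi : IntegrableOn (Function.uncurry fun s t : ℝ => gf X η (k s) (k' t))
      (uIoc a b ×ˢ uIoc a' b') :=
    (((AQAux.cont2 hX hη hk hk').continuousOn.integrableOn_compact
      (isCompact_uIcc.prod isCompact_uIcc))).mono_set
        (Set.prod_mono uIoc_subset_uIcc uIoc_subset_uIcc)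
  rw [intervalIntegral_intervalIntegral_swap hi]
  simp only [gf_symm X η (k _) (k' _)]

theorem QQ_add (hX : Continuous X) (hη : 0 < η) (hk : Continuous k) (hk' : Continuous k')
    (a b c a' b' : ℝ) :
    QQ X σ η k a b k' a' b' + QQ X σ η k b c k' a' b' = QQ X σ η k a c k' a' b' := by
  unfold QQ
  rw [← mul_add, intervalIntegral.integral_add_adjacent_intervals
    ((AQAux.contOut hX hη hk hk' a' b').intervalIntegrable _ _)
    ((AQAux.contOut hX hη hk hk' a' b').intervalIntegrable _ _)]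

theorem QQ_abs_le (hσ : |σ| = 1) (hB : ∀ x y, |gf X η x y| ≤ B) (k k' : ℝ → S) (a b a' b' : ℝ) :
    |QQ X σ η k a b k' a' b'| ≤ B * (|b - a| * |b' - a'|) := by
  unfold QQ
  rw [abs_mul, hσ, one_mul]
  have h1 : ‖∫ s in a..b, ∫ t in a'..b', gf X η (k s) (k' t)‖ ≤ (B * |b' - a'|) * |b - a| :=
    intervalIntegral.norm_integral_le_of_norm_le_const fun s _ =>
      intervalIntegral.norm_integral_le_of_norm_le_const fun t _ => hB _ _
  rw [Real.norm_eq_abs] at h1
  calc _ ≤ (B * |b' - a'|) * |b - a| := h1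
    _ = _ := by ring

theorem QQ_shift (k k' : ℝ → S) (a b a' b' u u' : ℝ) :
    QQ X σ η (fun t => k (t + u)) a b (fun t => k' (t + u')) a' b' =
      QQ X σ η k (a + u) (b + u) k' (a' + u') (b' + u') := by
  unfold QQ
  congr 1
  have h1 : ∀ s : ℝ, ∫ t in a'..b', gf X η (k (s + u)) (k' (t + u')) =
      ∫ t in (a' + u')..(b' + u'), gf X η (k (s + u)) (k' t) := fun s =>
    intervalIntegral.integral_comp_add_right (fun t => gf X η (k (s + u)) (k' t)) u'
  simp only [h1]
  exact intervalIntegral.integral_comp_add_right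
    (fun s => ∫ t in (a' + u')..(b' + u'), gf X η (k s) (k' t)) u

theorem QQ_congr {a b a' b' : ℝ} (h : EqOn k l (uIcc a b)) (h' : EqOn k' l' (uIcc a' b')) :
    QQ X σ η k a b k' a' b' = QQ X σ η l a b l' a' b' := by
  unfold QQ
  congr 1
  refine intervalIntegral.integral_congr fun s hs => ?_
  refine intervalIntegral.integral_congr fun t ht => ?_
  simp only [h hs, h' ht]

theorem QQ_periodic {T : ℝ} (hp : ∀ t, k (t + T) = k t) (k' : ℝ → S) (t a' b' : ℝ) :
    QQ X σ η k t (t + T) k' a' b' = QQ X σ η k 0 T k' a' b' := by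
  unfold QQ
  congr 1
  have h1 : Function.Periodic (fun s => ∫ r in a'..b', gf X η (k s) (k' r)) T := fun s => by
    simp only [hp s]
  have h2 := h1.intervalIntegral_add_eq t 0
  rwa [zero_add] at h2

theorem gf_unif (hX : Continuous X) (hη : 0 < η) {ε : ℝ} (hε : 0 < ε) :
    ∃ ϑ : ℝ, 0 < ϑ ∧ ∀ x x' y y' : S, ‖(x : E) - x'‖ ≤ ϑ → ‖(y : E) - y'‖ ≤ ϑ →
      |gf X η x y - gf X η x' y'| ≤ ε := by
  have hu : UniformContinuous fun p : S × S => gf X η p.1 p.2 :=
    CompactSpace.uniformContinuous_of_continuous (continuous_gf hX hη)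
  obtain ⟨δ, hδ, h⟩ := Metric.uniformContinuous_iff.1 hu ε hε
  refine ⟨δ / 2, half_pos hδ, fun x x' y y' hx hy => ?_⟩
  have hd : dist ((x, y) : S × S) (x', y') < δ := by
    rw [Prod.dist_eq, max_lt_iff, Subtype.dist_eq, Subtype.dist_eq, dist_eq_norm, dist_eq_norm]
    constructor
    · exact lt_of_le_of_lt hx (half_lt_self hδ)
    · exact lt_of_le_of_lt hy (half_lt_self hδ)
  have h2 := h hd
  rw [Real.dist_eq] at h2
  exact h2.le

theorem QQ_close (hX : Continuous X) (hη : 0 < η) (hσ : |σ| = 1) (hk : Continuous k)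
    (hk' : Continuous k') (hl : Continuous l) (hl' : Continuous l') {ε ϑ a b a' b' : ℝ}
    (hu : ∀ x x' y y' : S, ‖(x : E) - x'‖ ≤ ϑ → ‖(y : E) - y'‖ ≤ ϑ →
      |gf X η x y - gf X η x' y'| ≤ ε) (hab : a ≤ b) (hab' : a' ≤ b')
    (h : ∀ t ∈ Icc a b, ‖(k t : E) - l t‖ ≤ ϑ) (h' : ∀ t ∈ Icc a' b', ‖(k' t : E) - l' t‖ ≤ ϑ) :
    |QQ X σ η k a b k' a' b' - QQ X σ η l a b l' a' b'| ≤ ε * ((b - a) * (b' - a')) := by
  unfold QQ
  rw [← mul_sub, abs_mul, hσ, one_mul, ← intervalIntegral.integral_sub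
    ((AQAux.contOut hX hη hk hk' a' b').intervalIntegrable _ _)
    ((AQAux.contOut hX hη hl hl' a' b').intervalIntegrable _ _)]
  have h1 : ‖∫ s in a..b, ((∫ t in a'..b', gf X η (k s) (k' t)) -
      ∫ t in a'..b', gf X η (l s) (l' t))‖ ≤ (ε * |b' - a'|) * |b - a| := by
    refine intervalIntegral.norm_integral_le_of_norm_le_const fun s hs => ?_
    rw [← intervalIntegral.integral_sub
      ((AQAux.contIn hX hη hk' (k s)).intervalIntegrable _ _)
      ((AQAux.contIn hX hη hl' (l s)).intervalIntegrable _ _)]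
    refine intervalIntegral.norm_integral_le_of_norm_le_const fun t ht => ?_
    rw [uIoc_of_le hab] at hs
    rw [uIoc_of_le hab'] at ht
    exact hu _ _ _ _ (h s (Ioc_subset_Icc_self hs)) (h' t (Ioc_subset_Icc_self ht))
  rw [Real.norm_eq_abs, abs_of_nonneg (sub_nonneg.2 hab), abs_of_nonneg (sub_nonneg.2 hab')] at h1
  calc _ ≤ (ε * (b' - a')) * (b - a) := h1
    _ = _ := by ring

/-- Change the first interval, then the second one (`QQ_add`, `QQ_symm`, `QQ_abs_le`). -/
theorem QQ_adjust (hX : Continuous X) (hη : 0 < η) (hσ : |σ| = 1) (hB : ∀ x y, |gf X η x y| ≤ B)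
    (hk : Continuous k) (a b a' b' : ℝ) :
    |QQ X σ η k a b k a b - QQ X σ η k a' b' k a' b'| ≤
      B * ((|a - a'| + |b - b'|) * (|b - a| + |b' - a'|)) := by
  have key : ∀ c d : ℝ, |QQ X σ η k a b k c d - QQ X σ η k a' b' k c d| ≤
      B * ((|a - a'| + |b - b'|) * |d - c|) := by
    intro c d
    have e1 := QQ_add (σ := σ) hX hη hk hk a a' b c d
    have e2 := QQ_add (σ := σ) hX hη hk hk a' b' b c d
    have e3 : QQ X σ η k a b k c d - QQ X σ η k a' b' k c d =
        QQ X σ η k a a' k c d + QQ X σ η k b' b k c d := by linarith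
    have b1 := QQ_abs_le hσ hB k k a a' c d
    have b2 := QQ_abs_le hσ hB k k b' b c d
    rw [abs_sub_comm a' a] at b1
    rw [e3]
    calc _ ≤ |QQ X σ η k a a' k c d| + |QQ X σ η k b' b k c d| := abs_add_le _ _
      _ ≤ B * (|a - a'| * |d - c|) + B * (|b - b'| * |d - c|) := add_le_add b1 b2
      _ = _ := by ring
  have k1 := key a b
  have k2 := key a' b'
  have e4 : QQ X σ η k a' b' k a b = QQ X σ η k a b k a' b' := QQ_symm hX hη hk hk a b a' b'
  have e5 : QQ X σ η k a b k a b - QQ X σ η k a' b' k a' b' =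
      (QQ X σ η k a b k a b - QQ X σ η k a' b' k a b) +
        (QQ X σ η k a b k a' b' - QQ X σ η k a' b' k a' b') := by
    rw [e4]; ring
  rw [e5]
  calc _ ≤ |QQ X σ η k a b k a b - QQ X σ η k a' b' k a b| +
        |QQ X σ η k a b k a' b' - QQ X σ η k a' b' k a' b'| := abs_add_le _ _
    _ ≤ B * ((|a - a'| + |b - b'|) * |b - a|) + B * ((|a - a'| + |b - b'|) * |b' - a'|) :=
        add_le_add k1 k2
    _ = _ := by ring

theorem QQ_off (hX : Continuous X) (hη : 0 < η) (hσ : |σ| = 1) (hB : ∀ x y, |gf X η x y| ≤ B)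
    (hk : Continuous k) (hl : Continuous l) {h T : ℝ} (h0 : 0 ≤ h) (hT : h ≤ T)
    (he : EqOn k l (Icc h T)) :
    |QQ X σ η k 0 T k 0 T - QQ X σ η l 0 T l 0 T| ≤ 4 * B * h * T := by
  have hB0 : 0 ≤ B := (abs_nonneg _).trans (hB pole pole)
  have k1 := QQ_adjust hX hη hσ hB hk 0 T h T
  have k2 := QQ_adjust hX hη hσ hB hl 0 T h T
  have he' : EqOn k l (uIcc h T) := by rwa [uIcc_of_le hT]
  have e : QQ X σ η k h T k h T = QQ X σ η l h T l h T := QQ_congr he' he'
  have hT0 : 0 ≤ T := h0.trans hT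
  rw [zero_sub, abs_neg, sub_self, abs_zero, add_zero, sub_zero, abs_of_nonneg h0,
    abs_of_nonneg hT0, abs_of_nonneg (sub_nonneg.2 hT)] at k1 k2
  have e2 : QQ X σ η k 0 T k 0 T - QQ X σ η l 0 T l 0 T =
      (QQ X σ η k 0 T k 0 T - QQ X σ η k h T k h T) -
        (QQ X σ η l 0 T l 0 T - QQ X σ η l h T l h T) := by
    rw [e]; ring
  have hh : 0 ≤ B * (h * h) := mul_nonneg hB0 (mul_nonneg h0 h0)
  rw [e2]
  calc _ ≤ |QQ X σ η k 0 T k 0 T - QQ X σ η k h T k h T| +
        |QQ X σ η l 0 T l 0 T - QQ X σ η l h T l h T| := abs_sub _ _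
    _ ≤ B * (h * (T + (T - h))) + B * (h * (T + (T - h))) := add_le_add k1 k2
    _ = 4 * B * h * T - 2 * (B * (h * h)) := by ring
    _ ≤ 4 * B * h * T := by linarith

theorem QQ_split (hX : Continuous X) (hη : 0 < η) (hk : Continuous k) (a b c : ℝ) :
    QQ X σ η k a c k a c =
      QQ X σ η k a b k a b + QQ X σ η k b c k b c + 2 * QQ X σ η k a b k b c := by
  have e1 := QQ_add (σ := σ) hX hη hk hk a b c a c
  have e2 := QQ_add (σ := σ) hX hη hk hk a b c a b
  have e3 := QQ_add (σ := σ) hX hη hk hk a b c b c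
  have s1 : QQ X σ η k a c k a b = QQ X σ η k a b k a c := QQ_symm hX hη hk hk a b a c
  have s2 : QQ X σ η k a c k b c = QQ X σ η k b c k a c := QQ_symm hX hη hk hk b c a c
  have s3 : QQ X σ η k b c k a b = QQ X σ η k a b k b c := QQ_symm hX hη hk hk a b b c
  linarith

end Pool.Agent.Lib.MP_399f8e_an.Lk
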