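import Pool.Agent.Lib.MP_399f8e_an.Lk.ADefs

open Set Filter Topology Metric MeasureTheory
open scoped RealInnerProductSpace

noncomputable section

namespace Pool.Agent.Lib.MP_399f8e_an.Lk

open Rg

namespace ATransAux

theorem N_lip {a b : E} (ha : 1 / 2 ≤ ‖a‖) (hb : 1 / 2 ≤ ‖b‖) :
    ‖(N a : E) - N b‖ ≤ 4 * ‖a - b‖ := by
  have hp : 0 < ‖a‖ := by linarith
  have hp' : 0 < ‖b‖ := by linarith
  have h0 : a ≠ 0 := norm_pos_iff.1 hp
  have h0' : b ≠ 0 := norm_pos_iff.1 hp'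
  have e : (N a : E) - N b = ‖a‖⁻¹ • (a - b) + (‖a‖⁻¹ - ‖b‖⁻¹) • b := by
    rw [coe_N h0, coe_N h0']; module
  have b1 : ‖a‖⁻¹ ≤ 2 := by
    rw [inv_le_comm₀ hp (by norm_num)]
    linarith
  have b2 : |‖a‖⁻¹ - ‖b‖⁻¹| * ‖b‖ = ‖a‖⁻¹ * |‖a‖ - ‖b‖| := by
    have : ‖a‖⁻¹ - ‖b‖⁻¹ = -(‖a‖ - ‖b‖) / (‖a‖ * ‖b‖) := by field_simp; ring
    rw [this, abs_div, abs_neg, abs_of_pos (mul_pos hp hp')]
    field_simp
  have b3 := abs_norm_sub_norm_le a b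
  have b4 : 0 ≤ ‖a‖⁻¹ := inv_nonneg.2 hp.le
  rw [e]
  refine (norm_add_le _ _).trans ?_
  rw [norm_smul, norm_smul, Real.norm_eq_abs, Real.norm_eq_abs, b2, abs_of_nonneg b4]
  have b5 := mul_le_mul_of_nonneg_left b3 b4
  have b6 := mul_le_mul_of_nonneg_right b1 (norm_nonneg (a - b))
  linarith

theorem seg_norm (x y : S) (hxy : ‖(x : E) - y‖ ≤ 1) {t : ℝ} (ht : t ∈ Icc (0 : ℝ) 1) :
    1 / 2 ≤ ‖(x : E) - t • ((x : E) - y)‖ := by
  have h0 := ht.1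
  have h1 := ht.2
  have hn := norm_nonneg ((x : E) - y)
  have a1 : ‖(x : E)‖ ≤ ‖(x : E) - t • ((x : E) - y)‖ + ‖t • ((x : E) - y)‖ := by
    have := norm_add_le ((x : E) - t • ((x : E) - y)) (t • ((x : E) - y))
    rwa [sub_add_cancel] at this
  have a2 : ‖(y : E)‖ ≤ ‖(x : E) - t • ((x : E) - y)‖ + ‖(1 - t) • ((x : E) - y)‖ := by
    have := norm_sub_le ((x : E) - t • ((x : E) - y)) ((1 - t) • ((x : E) - y))
    have e : (x : E) - t • ((x : E) - y) - (1 - t) • ((x : E) - y) = y := by module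
    rwa [e] at this
  rw [norm_coe, norm_smul, Real.norm_of_nonneg h0] at a1
  rw [norm_coe, norm_smul, Real.norm_of_nonneg (by linarith)] at a2
  nlinarith

theorem cont_of_loc {F : S → E} {L : ℝ}
    (h : ∀ x : S, ∃ V ∈ 𝓝 x, ∀ a ∈ V, ∀ b ∈ V, ‖F a - F b‖ ≤ L * ‖(a : E) - b‖) :
    Continuous F := by
  refine continuous_iff_continuousAt.2 fun x => ?_
  obtain ⟨V, hV, hl⟩ := h x
  rw [ContinuousAt, tendsto_iff_norm_sub_tendsto_zero]
  have hc : Continuous fun a : S => L * ‖(a : E) - x‖ := by fun_prop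
  have ht : Tendsto (fun a : S => L * ‖(a : E) - x‖) (𝓝 x) (𝓝 0) := by
    have := hc.tendsto x
    simpa using this
  refine squeeze_zero' (Eventually.of_forall fun _ => norm_nonneg _) ?_ ht
  filter_upwards [hV] with a ha using hl a ha x (mem_of_mem_nhds hV)

end ATransAux

open ATransAux in
/-- For `‖x - y‖ > 1` use the bound. Otherwise follow `γ t = N ((1 - t) • x + t • y)`, which is
Lipschitz with constant `4 ‖x - y‖`; a function on `[0, 1]` which is locally Lipschitz with one constant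
is Lipschitz with that constant. -/
theorem lip_of_loc {F : S → E} {L B : ℝ} (hL : 0 ≤ L) (hB : ∀ x, ‖F x‖ ≤ B)
    (h : ∀ x : S, ∃ V ∈ 𝓝 x, ∀ a ∈ V, ∀ b ∈ V, ‖F a - F b‖ ≤ L * ‖(a : E) - b‖) (x y : S) :
    ‖F x - F y‖ ≤ (4 * L + 2 * B) * ‖(x : E) - y‖ := by
  have hB0 : 0 ≤ B := (norm_nonneg _).trans (hB x)
  have hn := norm_nonneg ((x : E) - y)
  rcases le_or_gt ‖(x : E) - y‖ 1 with hxy | hxy
  · have hF := cont_of_loc h
    set d : ℝ := ‖(x : E) - y‖ with hd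
    set γ : ℝ → S := fun t => N ((x : E) - t • ((x : E) - y)) with hγ
    have hγc : ∀ t ∈ Icc (0 : ℝ) 1, ContinuousAt γ t := by
      intro t ht
      have hne : (x : E) - t • ((x : E) - y) ≠ 0 :=
        norm_pos_iff.1 (by linarith [seg_norm x y hxy ht])
      have hc : Continuous fun t : ℝ => (x : E) - t • ((x : E) - y) := by fun_prop
      exact ContinuousAt.comp (f := fun t : ℝ => (x : E) - t • ((x : E) - y))
        (continuousAt_N hne) hc.continuousAt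
    have hγl : ∀ s ∈ Icc (0 : ℝ) 1, ∀ t ∈ Icc (0 : ℝ) 1, s ≤ t →
        ‖(γ t : E) - γ s‖ ≤ 4 * ((t - s) * d) := by
      intro s hs t ht hst
      have := N_lip (seg_norm x y hxy ht) (seg_norm x y hxy hs)
      have e : (x : E) - t • ((x : E) - y) - ((x : E) - s • ((x : E) - y))
          = -((t - s) • ((x : E) - y)) := by module
      rwa [e, norm_neg, norm_smul, Real.norm_of_nonneg (by linarith)] at this
    have h0 : γ 0 = x := by simp [hγ, N_coe]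
    have h1 : γ 1 = y := by simp [hγ, N_coe]
    have key : Icc (0 : ℝ) 1 ⊆ {t | ‖F (γ t) - F x‖ ≤ 4 * L * d * t} := by
      refine IsClosed.Icc_subset_of_forall_mem_nhdsWithin ?_ ?_ ?_
      · have c1 : ContinuousOn (fun t => ‖F (γ t) - F x‖) (Icc (0 : ℝ) 1) := fun t ht =>
          (((hF.continuousAt.comp (hγc t ht)).sub continuousAt_const).norm).continuousWithinAt
        have c2 : ContinuousOn (fun t : ℝ => 4 * L * d * t) (Icc (0 : ℝ) 1) := by fun_prop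
        have := isClosed_Icc.isClosed_le c1 c2
        convert this using 1
        ext t
        simp only [mem_inter_iff, mem_ofPred_eq]
        exact and_comm
      · simp [h0]
      · rintro s ⟨hs, hs0, hs1⟩
        obtain ⟨V, hV, hl⟩ := h (γ s)
        have hV' : γ ⁻¹' V ∈ 𝓝 s := hγc s ⟨hs0, hs1.le⟩ hV
        filter_upwards [mem_nhdsWithin_of_mem_nhds hV', Ioo_mem_nhdsGT hs1] with t ht ht'
        have a1 := hl (γ t) ht (γ s) (mem_of_mem_nhds hV)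
        have a2 := hγl s ⟨hs0, hs1.le⟩ t ⟨hs0.trans ht'.1.le, ht'.2.le⟩ ht'.1.le
        have a3 := mul_le_mul_of_nonneg_left a2 hL
        have a4 := norm_sub_le_norm_sub_add_norm_sub (F (γ t)) (F (γ s)) (F x)
        have hs' : ‖F (γ s) - F x‖ ≤ 4 * L * d * s := hs
        show ‖F (γ t) - F x‖ ≤ 4 * L * d * t
        nlinarith
    have k1 : ‖F (γ 1) - F x‖ ≤ 4 * L * d * 1 := key ⟨zero_le_one, le_rfl⟩
    rw [h1, norm_sub_rev] at k1
    nlinarith [mul_nonneg hB0 hn]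
  · have a1 := norm_sub_le (F x) (F y)
    have a2 := hB x
    have a3 := hB y
    nlinarith [mul_nonneg hL hn, mul_nonneg hB0 (sub_nonneg.2 hxy.le)]

/-- `F x = H q` if `x = Ψ q` with `q ∈ U`, and zero otherwise. Near a point `Ψ q` use `hopn` and
`hloc`; off the closed set `Ψ '' C` the function vanishes. -/
theorem transplant {Ψ : T3 → S} {U C : Set T3} {H : T3 → E} {L B : ℝ} (hL : 0 ≤ L) (hB0 : 0 ≤ B)
    (hU : IsOpen U) (hCU : C ⊆ U) (hC : IsClosed (Ψ '' C))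
    (hwd : ∀ q ∈ U, ∀ q' ∈ U, Ψ q = Ψ q' → H q = H q')
    (hopn : ∀ q ∈ U, 𝓝 (Ψ q) ≤ map Ψ (𝓝 q))
    (hloc : ∀ q ∈ U, ∃ V ∈ 𝓝 q, ∀ a ∈ V, ∀ b ∈ V, ‖H a - H b‖ ≤ L * ‖(Ψ a : E) - Ψ b‖)
    (hz : ∀ q ∈ U, q ∉ C → H q = 0) (hB : ∀ q ∈ U, ‖H q‖ ≤ B) :
    ∃ F : S → E, (∀ q ∈ U, F (Ψ q) = H q) ∧ (∀ x, x ∉ Ψ '' C → F x = 0) ∧ (∀ x, ‖F x‖ ≤ B) ∧
      ∀ x y : S, ‖F x - F y‖ ≤ (4 * L + 2 * B) * ‖(x : E) - y‖ := by
  classical
  let F : S → E := fun x => if hx : ∃ q ∈ U, Ψ q = x then H hx.choose else 0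
  have h1 : ∀ q ∈ U, F (Ψ q) = H q := by
    intro q hq
    have hx : ∃ q' ∈ U, Ψ q' = Ψ q := ⟨q, hq, rfl⟩
    have : F (Ψ q) = H hx.choose := dif_pos hx
    rw [this]
    exact hwd _ hx.choose_spec.1 _ hq hx.choose_spec.2
  have h0 : ∀ x, (¬ ∃ q ∈ U, Ψ q = x) → F x = 0 := fun x hx => dif_neg hx
  have h2 : ∀ x, x ∉ Ψ '' C → F x = 0 := by
    intro x hx
    by_cases hq : ∃ q ∈ U, Ψ q = x
    · obtain ⟨q, hq, rfl⟩ := hq
      rw [h1 q hq]
      exact hz q hq fun hc => hx ⟨q, hc, rfl⟩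
    · exact h0 x hq
  have h3 : ∀ x, ‖F x‖ ≤ B := by
    intro x
    by_cases hq : ∃ q ∈ U, Ψ q = x
    · obtain ⟨q, hq, rfl⟩ := hq
      rw [h1 q hq]
      exact hB q hq
    · rw [h0 x hq, norm_zero]
      exact hB0
  refine ⟨F, h1, h2, h3, lip_of_loc hL h3 fun x => ?_⟩
  by_cases hx : x ∈ Ψ '' C
  · obtain ⟨q, hq, rfl⟩ := hx
    obtain ⟨V, hV, hl⟩ := hloc q (hCU hq)
    refine ⟨Ψ '' (V ∩ U), hopn q (hCU hq)
      (image_mem_map (inter_mem hV (hU.mem_nhds (hCU hq)))), ?_⟩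
    rintro _ ⟨a, ha, rfl⟩ _ ⟨b, hb, rfl⟩
    rw [h1 a ha.2, h1 b hb.2]
    exact hl a ha.1 b hb.1
  · refine ⟨(Ψ '' C)ᶜ, hC.isOpen_compl.mem_nhds hx, fun a ha b hb => ?_⟩
    rw [h2 a ha, h2 b hb, sub_self, norm_zero]
    exact mul_nonneg hL (norm_nonneg _)

/-- A closed periodic set of bounded width has the same image as its compact part over one period. -/
theorem PreTube.closed_image {K : ℝ → S} {K' : ℝ → E} {Z₁ Z₂ : E → E} {Ψ : T3 → S}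
    {D : T3 → T3 →L[ℝ] E} {T r₀ C₀ r : ℝ} (h : PreTube K K' Z₁ Z₂ Ψ D T r₀ C₀) (hT : 0 < T)
    {C : Set T3} (hC : IsClosed C) (hr : r < r₀) (hw : ∀ q ∈ C, ‖q.2‖ ≤ r)
    (hp : ∀ s w, (s + T, w) ∈ C ↔ (s, w) ∈ C) : IsClosed (Ψ '' C) := by
  have hK : IsCompact (C ∩ (Icc 0 T ×ˢ closedBall (0 : ℝ × ℝ) r)) :=
    (isCompact_Icc.prod (isCompact_closedBall _ _)).inter_left hC
  have hc : ContinuousOn Ψ (C ∩ (Icc 0 T ×ˢ closedBall (0 : ℝ × ℝ) r)) := by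
    intro q hq
    refine ContinuousAt.continuousWithinAt ?_
    rw [Topology.IsInducing.subtypeVal.continuousAt_iff]
    exact (h.fd q ((hw q hq.1).trans_lt hr)).continuousAt
  have e : Ψ '' C = Ψ '' (C ∩ (Icc 0 T ×ˢ closedBall (0 : ℝ × ℝ) r)) := by
    refine Subset.antisymm ?_ (image_mono inter_subset_left)
    rintro _ ⟨⟨s, w⟩, hq, rfl⟩
    have p1 : Function.Periodic (fun s => (s, w) ∈ C) T := fun s => propext (hp s w)
    have p2 : Function.Periodic (fun s => Ψ (s, w)) T := fun s => h.per s w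
    refine ⟨(s - ⌊s / T⌋ * T, w), ⟨?_, ⟨Int.sub_floor_div_mul_nonneg s hT,
      (Int.sub_floor_div_mul_lt s hT).le⟩, ?_⟩, p2.sub_int_mul_eq _⟩
    · have := p1.sub_int_mul_eq (x := s) ⌊s / T⌋
      exact this.mpr hq
    · exact mem_closedBall_zero_iff.2 (hw (s, w) hq)
  rw [e]
  exact (hK.image_of_continuousOn hc).isClosed

theorem PreTube.per_int {K : ℝ → S} {K' : ℝ → E} {Z₁ Z₂ : E → E} {Ψ : T3 → S}
    {D : T3 → T3 →L[ℝ] E} {T r₀ C₀ : ℝ} (h : PreTube K K' Z₁ Z₂ Ψ D T r₀ C₀) (s : ℝ) (w : ℝ × ℝ)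
    (n : ℤ) : Ψ (s + n * T, w) = Ψ (s, w) ∧ D (s + n * T, w) = D (s, w) := by
  have p1 : Function.Periodic (fun s => Ψ (s, w)) T := fun s => h.per s w
  have p2 : Function.Periodic (fun s => D (s, w)) T := fun s => h.perD s w
  exact ⟨p1.int_mul n s, p2.int_mul n s⟩

/-- Differentiate `‖Ψ q‖ ^ 2 = 1`. -/
theorem PreTube.perp {K : ℝ → S} {K' : ℝ → E} {Z₁ Z₂ : E → E} {Ψ : T3 → S}
    {D : T3 → T3 →L[ℝ] E} {T r₀ C₀ : ℝ} (h : PreTube K K' Z₁ Z₂ Ψ D T r₀ C₀) {q : T3}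
    (hq : ‖q.2‖ < r₀) (v : T3) : ⟪(Ψ q : E), D q v⟫ = 0 := by
  have h1 := (h.fd q hq).norm_sq
  have h2 : (fun q : T3 => ‖(Ψ q : E)‖ ^ 2) = fun _ => (1 : ℝ) := by
    funext q
    rw [norm_coe]
    norm_num
  rw [h2] at h1
  have h3 := h1.unique (hasFDerivAt_const (1 : ℝ) q)
  have h4 := congrArg (fun A : T3 →L[ℝ] ℝ => A v) h3
  simpa using h4

end Pool.Agent.Lib.MP_399f8e_an.Lk
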