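import Pool.Agent.Lib.MP_399f8e_an.Lk.ANear
import Pool.Agent.Lib.MP_399f8e_an.Lk.AQ
import Pool.Agent.Lib.MP_399f8e_an.Lk.AMono1
import Pool.Agent.Lib.MP_399f8e_an.Lk.ATrans

open Set Filter Topology Metric MeasureTheory
open scoped RealInnerProductSpace

noncomputable section

namespace Pool.Agent.Lib.MP_399f8e_an.Lk

open Rg

variable {X W : S → E} {ψ : ℝ → S → S} {K : ℝ → S} {K' : ℝ → E} {β : E → E →L[ℝ] ℝ}
  {T L₁ t₁ C₁ η τ ζ M σ : ℝ}

/-- The knot is an orbit, so its complement is invariant. -/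
theorem LF.notMem (hW : LF W ψ L₁) (hK : ∀ t, K t = ψ t (K 0)) {x : S} (hx : x ∉ range K) (t : ℝ) :
    ψ t x ∉ range K := by
  rintro ⟨s, hs⟩
  refine hx ⟨-t + s, ?_⟩
  rw [hK, hW.add, ← hK s, hs, ← hW.add, neg_add_cancel, hW.zero]

theorem Form.cont_orb (hβ : Form K K' T β) (hW : LF W ψ L₁) (hK : ∀ t, K t = ψ t (K 0)) :
    ContinuousOn (fun p : S × ℝ => β (ψ p.2 p.1) (W (ψ p.2 p.1))) ((range K)ᶜ ×ˢ univ) := by
  have hc : Continuous fun p : S × ℝ => ψ p.2 p.1 :=
    hW.cont.comp (continuous_snd.prodMk continuous_fst)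
  exact (hβ.cont.comp hc.continuousOn fun p hp => hW.notMem hK hp.1 p.2).clm_apply
    (hW.contW.comp hc).continuousOn

/-- `Gk x (W x) y (W y) - gf x y = (1 - cut) Gk x (W x) y (W y) + cut (Gk x (W x) y (W y) - Gk x (X x) y (X y))`;
`Near.window` for the first term (the integrand is continuous, so the lower integral is the integral),
`Gk_sub` and `cut_zero` for the second one. -/
theorem Form.est_point (hβ : Form K K' T β) (hW : LF W ψ L₁) (hK : ∀ t, K t = ψ t (K 0))
    (hK' : ∀ t, K' t = W (K t)) (hX : Continuous X) (hn : Near W ψ t₁ C₁) (hη : 0 < η) (hτ : 0 < τ)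
    (hT : 0 ≤ T) (hr : ∀ (y : S) (t : ℝ), t₁ / 2 ≤ t → t ≤ τ → 2 * η < ‖(ψ t y : E) - y‖)
    (hM : ∀ x, ‖X x‖ ≤ M) (hM' : ∀ x, ‖W x‖ ≤ 2 * M) (hζ : ∀ x, ‖W x - X x‖ ≤ ζ) {x : S}
    (hx : x ∉ range K) :
    |β x (W x) - ∫ t in (0 : ℝ)..T, gf X η x (K t)| ≤
      C₁ * (T / τ + 1) + 8640 * M * ζ / η ^ 2 * T := by
  have hKc : Continuous K := by
    rw [show K = orb ψ (K 0) from funext hK]
    exact hW.cont_orb _
  have hM0 : 0 ≤ M := (norm_nonneg _).trans (hM x)
  have hζ0 : 0 ≤ ζ := (norm_nonneg _).trans (hζ x)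
  have hG : Continuous fun t => Gk x (W x) (K t) (W (K t)) :=
    continuous_iff_continuousAt.2 fun t => continuousAt_Gk continuousAt_const continuousAt_const
      hKc.continuousAt (hW.contW.comp hKc).continuousAt fun e => hx ⟨t, e.symm⟩
  have hg : Continuous fun t => gf X η x (K t) :=
    (continuous_gf hX hη).comp (f := fun t => (x, K t)) (continuous_const.prodMk hKc)
  have hcut : Continuous fun t => cut η x (K t) :=
    (continuous_cut η).comp (f := fun t => ((x : E), (K t : E)))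
      (continuous_const.prodMk (continuous_subtype_val.comp hKc))
  have hF : Continuous fun t => (1 - cut η x (K t)) * |Gk x (W x) (K t) (W (K t))| :=
    (continuous_const.sub hcut).mul hG.abs
  have h1 : ∫ t in (0 : ℝ)..T, (1 - cut η x (K t)) * |Gk x (W x) (K t) (W (K t))| ≤
      C₁ * (T / τ + 1) := by
    have a1 := hn.window hW hη hτ hr x (K 0) hT
    simp only [← hK] at a1
    rw [← ofReal_integral_eq_lintegral_ofReal (hF.continuousOn.integrableOn_Icc)
      (Eventually.of_forall fun t =>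
        mul_nonneg (sub_nonneg.2 (cut_mem η x (K t)).2) (abs_nonneg _)),
      ENNReal.ofReal_le_ofReal_iff (by have := hn.C_pos; positivity),
      integral_Icc_eq_integral_Ioc] at a1
    rwa [intervalIntegral.integral_of_le hT]
  have h2 : ∀ y : S, |Gk x (W x) y (W y) - gf X η x y| ≤
      (1 - cut η x y) * |Gk x (W x) y (W y)| + 8640 * M * ζ / η ^ 2 := by
    intro y
    obtain ⟨c0, c1⟩ := cut_mem η x y
    have e : Gk x (W x) y (W y) - gf X η x y = (1 - cut η x y) * Gk x (W x) y (W y) +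
        cut η x y * (Gk x (W x) y (W y) - Gk x (X x) y (X y)) := by
      unfold gf
      ring
    rw [e]
    refine (abs_add_le _ _).trans (add_le_add ?_ ?_)
    · rw [abs_mul, abs_of_nonneg (sub_nonneg.2 c1)]
    · rcases le_or_gt ‖(x : E) - y‖ (η / 2) with h | h
      · rw [cut_zero hη h, zero_mul, abs_zero]
        positivity
      · rw [abs_mul, abs_of_nonneg c0]
        refine (mul_le_of_le_one_left (abs_nonneg _) c1).trans ((Gk_sub x y _ _ _ _).trans ?_)
        have b1 : ‖W x - X x‖ * ‖W y‖ ≤ ζ * (2 * M) :=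
          mul_le_mul (hζ x) (hM' y) (norm_nonneg _) hζ0
        have b2 : ‖X x‖ * ‖W y - X y‖ ≤ M * ζ := mul_le_mul (hM x) (hζ y) (norm_nonneg _) hM0
        calc _ ≤ 720 * (ζ * (2 * M) + M * ζ) / (η / 2) ^ 2 := by gcongr
          _ = _ := by field_simp; ring
  rw [hβ.val x hx]
  simp only [hK']
  rw [← intervalIntegral.integral_sub (hG.intervalIntegrable _ _) (hg.intervalIntegrable _ _)]
  have h3 := intervalIntegral.norm_integral_le_of_norm_le (μ := volume)
    (f := fun t => Gk x (W x) (K t) (W (K t)) - gf X η x (K t))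
    (g := fun t => (1 - cut η x (K t)) * |Gk x (W x) (K t) (W (K t))| + 8640 * M * ζ / η ^ 2) hT
    (Eventually.of_forall fun t _ => h2 (K t)) ((hF.add continuous_const).intervalIntegrable _ _)
  rw [intervalIntegral.integral_add (hF.intervalIntegrable _ _) intervalIntegrable_const,
    intervalIntegral.integral_const, sub_zero, smul_eq_mul, Real.norm_eq_abs] at h3
  linarith

theorem Form.est_orbit (hβ : Form K K' T β) (hW : LF W ψ L₁) (hK : ∀ t, K t = ψ t (K 0))
    (hX : Continuous X) (hη : 0 < η) (hσ : |σ| = 1) {e : ℝ}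
    (he : ∀ x, x ∉ range K → |β x (W x) - ∫ t in (0 : ℝ)..T, gf X η x (K t)| ≤ e) {x : S}
    (hx : x ∉ range K) {T' : ℝ} (hT' : 0 ≤ T') :
    |Dl β W ψ σ x T' - QQ X σ η (orb ψ x) 0 T' K 0 T| ≤ e * T' := by
  have hKc : Continuous K := by
    rw [show K = orb ψ (K 0) from funext hK]
    exact hW.cont_orb _
  have h1 : Continuous fun s => β (ψ s x) (W (ψ s x)) :=
    (hβ.cont_orb hW hK).comp_continuous (f := fun s => (x, s))
      (continuous_const.prodMk continuous_id) fun s => ⟨hx, mem_univ s⟩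
  have h2 : Continuous fun s => ∫ t in (0 : ℝ)..T, gf X η (ψ s x) (K t) :=
    intervalIntegral.continuous_parametric_intervalIntegral_of_continuous'
      (f := fun s t => gf X η (ψ s x) (K t))
      ((continuous_gf hX hη).comp (f := fun p : ℝ × ℝ => (ψ p.1 x, K p.2))
        (((hW.cont_orb x).comp continuous_fst).prodMk (hKc.comp continuous_snd))) 0 T
  unfold Dl QQ
  rw [← mul_sub, abs_mul, hσ, one_mul,
    ← intervalIntegral.integral_sub (h1.intervalIntegrable _ _) (h2.intervalIntegrable _ _)]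
  have h3 := intervalIntegral.norm_integral_le_of_norm_le_const (a := 0) (b := T') (C := e)
    (f := fun s => β (ψ s x) (W (ψ s x)) - ∫ t in (0 : ℝ)..T, gf X η (ψ s x) (K t))
    fun s _ => he _ (hW.notMem hK hx s)
  rwa [sub_zero, abs_of_nonneg hT', Real.norm_eq_abs] at h3

/-- Let `x = Ψ (0, w)`, `w = ϱ (cos α, sin α)`, `‖w‖ ≥ 2 ϱ / 3`, `v` the tangent vector, `‖v‖ ≤ C₀ ϱ`.
The integral defining `β x v` may be taken over `[-t₀, T - t₀]` (periodicity). By `Gk_le` the
integrand is at most `720 C₀ ϱ M' / ‖x - K t‖ ^ 2`. For `|t| ≤ t₀`, `colip` gives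
`‖x - K t‖ ^ 2 ≥ c₀ ^ 2 (t ^ 2 + ‖w‖ ^ 2) / 2`, and the integral of `1 / (t ^ 2 + b ^ 2)` is at most
`π / b`. For `t ∈ (t₀, T - t₀)`, `Sep` gives `‖K t - K 0‖ ≥ d₀`, so `‖x - K t‖ ≥ d₀ / 2`. -/
theorem mer_bound (M' C₀ c₀ : ℝ) : ∃ Cp : ℝ, 0 < Cp ∧ ∀ {K : ℝ → S} {K' : ℝ → E} {Z₁ Z₂ : E → E}
    {Ψ : T3 → S} {D : T3 → T3 →L[ℝ] E} {β : E → E →L[ℝ] ℝ} {T Λ r₀ t₀ d₀ R ϱ : ℝ},
    Loop K K' T Λ → Tube K K' Z₁ Z₂ Ψ D T r₀ C₀ t₀ c₀ → Thin K Ψ T R → Form K K' T β →
    Sep K T t₀ d₀ → 2 * t₀ ≤ T → (∀ t, ‖K' t‖ ≤ M') → 0 < ϱ → ϱ < r₀ → ϱ < R →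
    C₀ * ϱ ≤ d₀ / 2 → 4 * T * ϱ ≤ d₀ ^ 2 → |merI β Ψ D ϱ| ≤ Cp := by
  refine ⟨720 * |C₀| * |M'| * (3 * Real.pi / c₀ ^ 2 + 1) * (2 * Real.pi) + 1, by positivity, ?_⟩
  intro K K' Z₁ Z₂ Ψ D β T Λ r₀ t₀ d₀ R ϱ hL hT hth hβ hS h2 hM hϱ hr hR hd hd'
  have hC : 0 ≤ C₀ := zero_le_one.trans hT.C_one
  have hM0 : 0 ≤ M' := (norm_nonneg _).trans (hM 0)
  have hc := hT.c_pos
  have ht := hT.t_pos
  have hd0 := hS.1
  have hr0 : ‖(0 : ℝ × ℝ)‖ < r₀ := by simpa using hT.r_pos
  rw [abs_of_nonneg hC, abs_of_nonneg hM0]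
  have hKc : Continuous K := by
    refine continuous_induced_rng.2 ?_
    exact continuous_iff_continuousAt.2 fun t => (hL.der t).continuousAt
  have hK'c : Continuous K' := by
    refine (LipschitzWith.of_dist_le' (K := Λ) fun s t => ?_).continuous
    rw [dist_eq_norm, Real.dist_eq]
    exact hL.lip s t
  have key : ∀ (w : ℝ × ℝ) (v : E), ‖w‖ ≤ ϱ → ϱ ≤ 3 / 2 * ‖w‖ → ‖v‖ ≤ C₀ * ϱ →
      |β (Ψ (0, w)) v| ≤ 720 * C₀ * M' * (3 * Real.pi / c₀ ^ 2 + 1) := by
    intro w v hw hw' hv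
    have hb : 0 < ‖w‖ := by linarith
    have hx : Ψ (0, w) ∉ range K := hth.notMem (q := (0, w)) (hw.trans_lt hR) (norm_pos_iff.1 hb)
    obtain ⟨g, hg⟩ : ∃ g : ℝ → ℝ, g = fun t => Gk (Ψ (0, w)) v (K t) (K' t) := ⟨_, rfl⟩
    have hgc : Continuous g := by
      rw [hg]
      exact continuous_iff_continuousAt.2 fun t => continuousAt_Gk continuousAt_const
        continuousAt_const hKc.continuousAt hK'c.continuousAt fun e => hx ⟨t, e.symm⟩
    have hgp : Function.Periodic g T := fun t => by simp only [hg, hL.per, hL.per']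
    have hgb : ∀ t (a : ℝ), 0 < a → a ≤ ‖(Ψ (0, w) : E) - K t‖ ^ 2 →
        ‖g t‖ ≤ 720 * (C₀ * ϱ * M') / a := fun t a ha h => by
      rw [hg]
      refine (Gk_le _ _ _ _).trans ?_
      have := hM t
      gcongr
    have e1 : β (Ψ (0, w)) v = (∫ t in -t₀..t₀, g t) + ∫ t in t₀..-t₀ + T, g t := by
      rw [intervalIntegral.integral_add_adjacent_intervals (hgc.intervalIntegrable _ _)
        (hgc.intervalIntegrable _ _), hgp.intervalIntegral_add_eq (-t₀) 0, zero_add, hβ.val _ hx,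
        hg]
    have b1 : ‖∫ t in -t₀..t₀, g t‖ ≤ 720 * C₀ * M' * (3 * Real.pi / c₀ ^ 2) := by
      have hi : Continuous fun t : ℝ => (‖w‖ ^ 2 + t ^ 2)⁻¹ :=
        Continuous.inv₀ (by fun_prop) fun t => by positivity
      refine (intervalIntegral.norm_integral_le_of_norm_le (μ := volume)
        (g := fun t => 720 * (C₀ * ϱ * M') * 2 / c₀ ^ 2 * (‖w‖ ^ 2 + t ^ 2)⁻¹) (by linarith)
        (Eventually.of_forall fun t h => ?_)
        ((continuous_const.mul hi).intervalIntegrable _ _)).trans ?_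
      · have a1 := hT.colip (0, w) (t, 0) (hw.trans_lt hr) hr0
          (by simpa using abs_le.2 ⟨h.1.le, h.2⟩)
        rw [hT.core] at a1
        have a2 : |t| ≤ ‖((0, w) : T3) - (t, 0)‖ := by simp
        have a3 : ‖w‖ ≤ ‖((0, w) : T3) - (t, 0)‖ := by simp
        have a4 := pow_le_pow_left₀ (abs_nonneg _) a2 2
        have a5 := pow_le_pow_left₀ hb.le a3 2
        have a6 := pow_le_pow_left₀ (by positivity) a1 2
        rw [sq_abs] at a4
        rw [mul_pow] at a6
        have a7 := mul_le_mul_of_nonneg_left (add_le_add a5 a4) (sq_nonneg c₀)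
        refine (hgb t (c₀ ^ 2 * (‖w‖ ^ 2 + t ^ 2) / 2) (by positivity) (by linarith)).trans
          (le_of_eq ?_)
        field_simp
      · rw [intervalIntegral.integral_const_mul, integral_inv_sq_add_sq hb.ne']
        have a1 := Real.arctan_lt_pi_div_two (t₀ / ‖w‖)
        have a2 := Real.neg_pi_div_two_lt_arctan (-t₀ / ‖w‖)
        calc _ ≤ 720 * (C₀ * (3 / 2 * ‖w‖) * M') * 2 / c₀ ^ 2 * (‖w‖⁻¹ * Real.pi) := by
              have a3 : 0 ≤ Real.arctan (t₀ / ‖w‖) - Real.arctan (-t₀ / ‖w‖) :=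
                sub_nonneg.2 (Real.arctan_strictMono.monotone
                  (div_le_div_of_nonneg_right (by linarith) hb.le))
              gcongr
              linarith
          _ = _ := by field_simp
    have b2 : ‖∫ t in t₀..-t₀ + T, g t‖ ≤ 720 * C₀ * M' := by
      have a0 : ‖(Ψ (0, w) : E) - K 0‖ ≤ d₀ / 2 := by
        have a1 := hT.lip (0, w) (0, 0) (hw.trans_lt hr) hr0
        rw [hT.core] at a1
        have a2 : ‖((0, w) : T3) - (0, 0)‖ = ‖w‖ := by simp
        rw [a2] at a1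
        exact a1.trans ((mul_le_mul_of_nonneg_left hw hC).trans hd)
      refine (intervalIntegral.norm_integral_le_of_norm_le_const_ae
        (C := 720 * (C₀ * ϱ * M') / (d₀ / 2) ^ 2) ?_).trans ?_
      · filter_upwards [compl_mem_ae_iff.2 (measure_singleton (μ := volume) (-t₀ + T))]
          with t hne h
        rw [uIoc_of_le (by linarith)] at h
        have h3 : t < -t₀ + T := lt_of_le_of_ne h.2 hne
        refine hgb t _ (by positivity) (pow_le_pow_left₀ (by positivity) ?_ 2)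
        have a1 : d₀ ≤ ‖(K 0 : E) - K t‖ := by
          by_contra hn
          obtain ⟨n, hn⟩ := hS.2 0 t (not_le.1 hn)
          have hT0 := hL.T_pos
          obtain ⟨n1, n2⟩ := abs_le.1 hn
          rcases le_or_gt n 0 with h0 | h0
          · have : (n : ℝ) ≤ 0 := by exact_mod_cast h0
            nlinarith [h.1]
          · have : (1 : ℝ) ≤ n := by exact_mod_cast h0
            nlinarith
        have a2 := norm_sub_le_norm_sub_add_norm_sub (K 0 : E) (Ψ (0, w)) (K t)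
        rw [norm_sub_rev (K 0 : E) (Ψ (0, w))] at a2
        linarith
      · rw [abs_of_nonneg (by linarith)]
        calc _ ≤ 720 * (C₀ * ϱ * M') / (d₀ / 2) ^ 2 * T := by
              gcongr
              linarith
          _ = 720 * C₀ * M' * (4 * T * ϱ / d₀ ^ 2) := by field_simp; ring
          _ ≤ _ := mul_le_of_le_one_right (by positivity) ((div_le_one (by positivity)).2 hd')
    rw [e1, mul_add, mul_one]
    exact (abs_add_le _ _).trans (add_le_add b1 b2)
  have h3 := intervalIntegral.norm_integral_le_of_norm_le_const (a := 0) (b := 2 * Real.pi)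
    (C := 720 * C₀ * M' * (3 * Real.pi / c₀ ^ 2 + 1))
    (f := fun α => β (Ψ (pol (0, (α, ϱ))))
      (D (pol (0, (α, ϱ))) (0, (-(ϱ * Real.sin α), ϱ * Real.cos α)))) fun α _ => by
      obtain ⟨n1, n2⟩ := norm_pol (0, (α, ϱ))
      simp only [abs_of_pos hϱ] at n1 n2
      refine key (pol (0, (α, ϱ))).2 _ n1 n2 (((D _).le_opNorm _).trans
        (mul_le_mul (hT.bd _ (n1.trans_lt hr)) ?_ (norm_nonneg _) hC))
      have s1 := mul_le_of_le_one_right hϱ.le (Real.abs_sin_le_one α)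
      have s2 := mul_le_of_le_one_right hϱ.le (Real.abs_cos_le_one α)
      simp only [Prod.norm_def, norm_zero, norm_neg, norm_mul, Real.norm_eq_abs, abs_of_pos hϱ,
        max_le_iff]
      exact ⟨hϱ.le, s1, s2⟩
  rw [sub_zero, abs_of_pos (by positivity), Real.norm_eq_abs] at h3
  exact h3.trans (le_add_of_nonneg_right zero_le_one)

end Pool.Agent.Lib.MP_399f8e_an.Lk
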