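import Pool.Agent.Lib.MP_399f8e_an.Lk.AFlow1

open Set Filter Topology Metric MeasureTheory
open scoped RealInnerProductSpace

noncomputable section

namespace Pool.Agent.Lib.MP_399f8e_an.Lk

open Rg

variable {W : S → E} {ψ : ℝ → S → S} {L : ℝ}

namespace AFlow2Aux

theorem gron_pos {f f' : ℝ → E} {L : ℝ} (hf : ∀ t, HasDerivAt f (f' t) t)
    (hb : ∀ t, ‖f' t‖ ≤ L * ‖f t‖) {t : ℝ} (ht : 0 ≤ t) : ‖f t‖ ≤ Real.exp (L * t) * ‖f 0‖ := by
  have h := norm_le_gronwallBound_of_norm_deriv_right_le (f := f) (f' := f') (δ := ‖f 0‖) (K := L)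
    (ε := 0) (a := 0) (b := t) (fun s _ => (hf s).continuousAt.continuousWithinAt)
    (fun s _ => (hf s).hasDerivWithinAt) le_rfl (fun s _ => by simpa using hb s) t ⟨ht, le_rfl⟩
  rw [gronwallBound_ε0, sub_zero, mul_comm] at h
  exact h

theorem gron {f f' : ℝ → E} {L : ℝ} (hf : ∀ t, HasDerivAt f (f' t) t)
    (hb : ∀ t, ‖f' t‖ ≤ L * ‖f t‖) (t : ℝ) : ‖f t‖ ≤ Real.exp (L * |t|) * ‖f 0‖ := by
  rcases le_total 0 t with ht | ht
  · rw [abs_of_nonneg ht]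
    exact gron_pos hf hb ht
  · rw [abs_of_nonpos ht]
    have h := gron_pos (f := fun s => f (-s)) (f' := fun s => -f' (-s)) (L := L)
      (fun s => by
        have h1 := (hf (-s)).scomp s (hasDerivAt_neg s)
        simpa [Function.comp_def] using h1)
      (fun s => by simpa using hb (-s)) (t := -t) (by linarith)
    simpa using h

theorem two {W : S → E} {L : ℝ} (lip : ∀ x y : S, ‖W x - W y‖ ≤ L * ‖(x : E) - y‖)
    {k k' : ℝ → S} (hk : ∀ t, HasDerivAt (fun t => (k t : E)) (W (k t)) t)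
    (hk' : ∀ t, HasDerivAt (fun t => (k' t : E)) (W (k' t)) t) (t : ℝ) :
    ‖(k t : E) - k' t‖ ≤ Real.exp (L * |t|) * ‖(k 0 : E) - k' 0‖ :=
  gron (f := fun t => (k t : E) - k' t) (f' := fun t => W (k t) - W (k' t))
    (fun t => (hk t).sub (hk' t)) (fun t => lip _ _) t

theorem bdd {W : S → E} {L : ℝ} (hL : 0 < L) (lip : ∀ x y : S, ‖W x - W y‖ ≤ L * ‖(x : E) - y‖)
    (x : S) : ‖W x‖ ≤ ‖W pole‖ + 2 * L := by
  have h1 := lip x pole
  have h2 : ‖(x : E) - pole‖ ≤ 2 := by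
    have := norm_sub_le (x : E) (pole : E)
    rw [norm_coe, norm_coe] at this
    linarith
  have h3 := norm_le_norm_sub_add (W x) (W pole)
  nlinarith

theorem N_lip (y z : E) : ‖z‖ * ‖(N y : E) - N z‖ ≤ 2 * ‖y - z‖ := by
  have h1 : ‖z‖ • ((N y : E) - N z) = (‖z‖ - ‖y‖) • (N y : E) + (y - z) := by
    rw [smul_sub, sub_smul, norm_smul_N, norm_smul_N]
    abel
  have h2 : ‖z‖ * ‖(N y : E) - N z‖ = ‖‖z‖ • ((N y : E) - N z)‖ := by
    rw [norm_smul, norm_norm]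
  rw [h2, h1]
  have h3 := norm_add_le ((‖z‖ - ‖y‖) • (N y : E)) (y - z)
  rw [norm_smul, norm_coe, mul_one, Real.norm_eq_abs] at h3
  have h4 : |‖z‖ - ‖y‖| ≤ ‖y - z‖ := by
    rw [norm_sub_rev]
    exact abs_norm_sub_norm_le z y
  linarith

/-- the bounded extension of the field -/
def ext (W : S → E) (z : E) : E := min ‖z‖ 1 • W (N z)

theorem ext_coe (W : S → E) (x : S) : ext W x = W x := by
  simp [ext, N_coe]

theorem ext_perp {W : S → E} (perp : ∀ x : S, ⟪(x : E), W x⟫ = 0) (z : E) : ⟪z, ext W z⟫ = 0 := by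
  have h : ⟪‖z‖ • (N z : E), ext W z⟫ = 0 := by
    rw [ext, real_inner_smul_left, real_inner_smul_right, perp]
    simp
  rwa [norm_smul_N] at h

theorem ext_bdd {W : S → E} {M : ℝ} (hM : ∀ x, ‖W x‖ ≤ M) (z : E) : ‖ext W z‖ ≤ M := by
  have h0 : 0 ≤ min ‖z‖ 1 := le_min (norm_nonneg _) zero_le_one
  rw [ext, norm_smul, Real.norm_eq_abs, abs_of_nonneg h0]
  have h1 := min_le_right ‖z‖ 1
  have h2 := hM (N z)
  have h3 := norm_nonneg (W (N z))
  nlinarith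

theorem ext_lip {W : S → E} {M L : ℝ} (hL : 0 < L) (hM : ∀ x, ‖W x‖ ≤ M)
    (lip : ∀ x y : S, ‖W x - W y‖ ≤ L * ‖(x : E) - y‖) (y z : E) :
    ‖ext W y - ext W z‖ ≤ (M + 2 * L) * ‖y - z‖ := by
  have h0 : 0 ≤ min ‖z‖ 1 := le_min (norm_nonneg _) zero_le_one
  have h1 : ext W y - ext W z =
      (min ‖y‖ 1 - min ‖z‖ 1) • W (N y) + min ‖z‖ 1 • (W (N y) - W (N z)) := by
    rw [ext, ext, sub_smul, smul_sub]
    abel
  have h2 : |min ‖y‖ 1 - min ‖z‖ 1| ≤ ‖y - z‖ := by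
    have h3 := abs_min_sub_min_le_max ‖y‖ 1 ‖z‖ 1
    have h4 := abs_norm_sub_norm_le y z
    rw [sub_self, abs_zero, max_eq_left (abs_nonneg _)] at h3
    linarith
  have h3 := norm_add_le ((min ‖y‖ 1 - min ‖z‖ 1) • W (N y)) (min ‖z‖ 1 • (W (N y) - W (N z)))
  rw [norm_smul, norm_smul, Real.norm_eq_abs, Real.norm_eq_abs, abs_of_nonneg h0] at h3
  have h4 : |min ‖y‖ 1 - min ‖z‖ 1| * ‖W (N y)‖ ≤ ‖y - z‖ * M :=
    mul_le_mul h2 (hM _) (norm_nonneg _) (norm_nonneg _)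
  have h5 : min ‖z‖ 1 * ‖W (N y) - W (N z)‖ ≤ ‖z‖ * (L * ‖(N y : E) - N z‖) :=
    mul_le_mul (min_le_left _ _) (lip _ _) (norm_nonneg _) (norm_nonneg _)
  have h6 := mul_le_mul_of_nonneg_left (N_lip y z) hL.le
  rw [h1]
  nlinarith

theorem loc {V : E → E} {M K : NNReal} (hM : ∀ z, ‖V z‖ ≤ M) (hK : LipschitzWith K V) (x : E)
    (n : ℕ) : ∃ α : ℝ → E, α 0 = x ∧
      ∀ t ∈ Ioo (-((n : ℝ) + 1)) ((n : ℝ) + 1), HasDerivAt α (V (α t)) t := by
  have hn : (0 : ℝ) ≤ (n : ℝ) + 1 := by positivity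
  have hp : IsPicardLindelof (fun _ => V) (tmin := -((n : ℝ) + 1)) (tmax := (n : ℝ) + 1)
      ⟨0, by constructor <;> linarith⟩ x (M * (n + 1)) 0 M K :=
    IsPicardLindelof.of_time_independent (fun z _ => hM z) hK.lipschitzOnWith (by simp)
  obtain ⟨α, h0, hα⟩ := hp.exists_eq_forall_mem_Icc_hasDerivWithinAt₀
  exact ⟨α, h0, fun t ht => (hα t (Ioo_subset_Icc_self ht)).hasDerivAt (Icc_mem_nhds ht.1 ht.2)⟩

theorem glob {V : E → E} {M K : NNReal} (hM : ∀ z, ‖V z‖ ≤ M) (hK : LipschitzWith K V) (x : E) :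
    ∃ γ : ℝ → E, γ 0 = x ∧ ∀ t, HasDerivAt γ (V (γ t)) t := by
  choose α h0 hα using loc hM hK x
  have hu : ∀ m n : ℕ, m ≤ n → EqOn (α m) (α n) (Ioo (-((m : ℝ) + 1)) ((m : ℝ) + 1)) := by
    intro m n hmn
    have h1 : (m : ℝ) ≤ n := by exact_mod_cast hmn
    have hm : (0 : ℝ) < (m : ℝ) + 1 := by positivity
    refine ODE_solution_unique_of_mem_Ioo (v := fun _ => V) (s := fun _ => univ) (K := K) (t₀ := 0)
      (fun _ _ => hK.lipschitzOnWith) ⟨by linarith, hm⟩ (fun t ht => ⟨hα m t ht, trivial⟩)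
      (fun t ht => ⟨hα n t ⟨by linarith [ht.1], by linarith [ht.2]⟩, trivial⟩) ?_
    rw [h0, h0]
  have hmem : ∀ (t : ℝ) (n : ℕ), |t| ≤ n → t ∈ Ioo (-((n : ℝ) + 1)) ((n : ℝ) + 1) := by
    intro t n h
    rw [abs_le] at h
    exact ⟨by linarith [h.1], by linarith [h.2]⟩
  refine ⟨fun t => α ⌈|t|⌉₊ t, h0 _, fun t => ?_⟩
  have key : ∀ s, |s| ≤ ((⌈|t|⌉₊ + 1 : ℕ) : ℝ) → α ⌈|s|⌉₊ s = α (⌈|t|⌉₊ + 1) s := fun s hs =>
    hu _ _ (Nat.ceil_le.2 hs) (hmem s _ (Nat.le_ceil _))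
  have ht : |t| < ((⌈|t|⌉₊ + 1 : ℕ) : ℝ) := by
    have := Nat.le_ceil |t|
    push_cast
    linarith
  have hev : (fun s => α ⌈|s|⌉₊ s) =ᶠ[𝓝 t] α (⌈|t|⌉₊ + 1) := by
    have h1 : ∀ᶠ s in 𝓝 t, |s| < ((⌈|t|⌉₊ + 1 : ℕ) : ℝ) :=
      (continuous_abs.tendsto t).eventually (gt_mem_nhds ht)
    exact h1.mono fun s hs => key s hs.le
  have h2 := (hα (⌈|t|⌉₊ + 1) t (hmem t _ ht.le)).congr_of_eventuallyEq hev
  rw [← key t ht.le] at h2
  exact h2

theorem norm_const {γ v : ℝ → E} (h : ∀ t, HasDerivAt γ (v t) t) (hp : ∀ t, ⟪γ t, v t⟫ = 0)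
    (t : ℝ) : ‖γ t‖ = ‖γ 0‖ := by
  have h1 : ∀ s, HasDerivAt (fun s => ⟪γ s, γ s⟫) 0 s := by
    intro s
    have h2 := (h s).inner ℝ (h s)
    rwa [real_inner_comm (γ s) (v s), hp s, add_zero] at h2
  have h3 : ⟪γ t, γ t⟫ = ⟪γ 0, γ 0⟫ :=
    is_const_of_deriv_eq_zero (fun s => (h1 s).differentiableAt) (fun s => (h1 s).deriv) t 0
  rw [real_inner_self_eq_norm_sq, real_inner_self_eq_norm_sq] at h3
  exact (pow_left_inj₀ (norm_nonneg _) (norm_nonneg _) two_ne_zero).1 h3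

end AFlow2Aux

open AFlow2Aux

/-- Uniqueness (`ODE_solution_unique_of_mem_Ioo` or Gronwall both ways for `W ∘ N`) gives the group
law; the Gronwall bound in `x` and the bound `‖W‖ ≤ M` in `t` give joint continuity; the derivative of
the constant `‖ψ t x‖ ^ 2` at `t = 0` gives the tangency. -/
theorem LF.of_der (hL : 0 < L) (lip : ∀ x y : S, ‖W x - W y‖ ≤ L * ‖(x : E) - y‖)
    (zero : ∀ x, ψ 0 x = x)
    (der : ∀ (x : S) (t : ℝ), HasDerivAt (fun t => (ψ t x : E)) (W (ψ t x)) t) : LF W ψ L := by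
  have hl : ∀ (t : ℝ) (x y : S), ‖(ψ t x : E) - ψ t y‖ ≤ Real.exp (L * |t|) * ‖(x : E) - y‖ := by
    intro t x y
    have h := two lip (der x) (der y) t
    rwa [zero, zero] at h
  refine { cont := ?_, zero := zero, add := ?_, perp := ?_, L_pos := hL, lip := lip, der := der }
  · refine continuous_induced_rng.2 (continuous_iff_continuousAt.2 fun p => ?_)
    have hc : Continuous fun t => (ψ t p.2 : E) :=
      continuous_iff_continuousAt.2 fun t => (der p.2 t).continuousAt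
    have hg : Continuous fun q : ℝ × S => Real.exp (L * |q.1|) * ‖(q.2 : E) - p.2‖ +
        ‖(ψ q.1 p.2 : E) - ψ p.1 p.2‖ := by
      have h1 : Continuous fun q : ℝ × S => (ψ q.1 p.2 : E) := hc.comp continuous_fst
      fun_prop
    have hz := hg.tendsto p
    simp only [sub_self, norm_zero, mul_zero, add_zero] at hz
    refine tendsto_iff_norm_sub_tendsto_zero.2 (squeeze_zero (fun _ => norm_nonneg _) ?_ hz)
    intro q
    have h1 := norm_sub_le_norm_sub_add_norm_sub (ψ q.1 q.2 : E) (ψ q.1 p.2) (ψ p.1 p.2)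
    have h2 := hl q.1 q.2 p.2
    simp only [Function.comp]
    linarith
  · intro s t x
    have h := two lip (k := fun s => ψ (s + t) x) (k' := fun s => ψ s (ψ t x))
      (fun s => (der x (s + t)).comp_add_const s t) (der (ψ t x)) s
    simp only [zero_add, zero, sub_self, norm_zero, mul_zero, norm_le_zero_iff, sub_eq_zero] at h
    exact Subtype.ext h
  · intro x
    have h1 := (der x 0).inner ℝ (der x 0)
    have h2 : (fun t => ⟪(ψ t x : E), (ψ t x : E)⟫) = fun _ => (1 : ℝ) := by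
      funext t
      rw [real_inner_self_eq_norm_sq, norm_coe, one_pow]
    rw [h2, zero, real_inner_comm (x : E) (W x)] at h1
    have h3 := h1.unique (hasDerivAt_const 0 1)
    linarith

/-- Extend by `V z = min ‖z‖ 1 • W (N z)` (or `‖z‖ • W (N z)`), bounded and Lipschitz on `E`, with
`⟪z, V z⟫ = 0`. Picard-Lindelof on each `[-n, n]`, glued by uniqueness, gives solutions on the line;
their norm is constant. Then `of_der`. -/
theorem exists_LF (hL : 0 < L) (lip : ∀ x y : S, ‖W x - W y‖ ≤ L * ‖(x : E) - y‖)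
    (perp : ∀ x : S, ⟪(x : E), W x⟫ = 0) : ∃ ψ, LF W ψ L := by
  have hM := bdd hL lip
  have hM0 : 0 ≤ ‖W pole‖ + 2 * L := by positivity
  have hK : LipschitzWith ⟨‖W pole‖ + 2 * L + 2 * L, by positivity⟩ (ext W) :=
    LipschitzWith.of_dist_le_mul fun y z => by
      rw [dist_eq_norm, dist_eq_norm]
      exact ext_lip hL hM lip y z
  have hg := fun x : S => glob (M := ⟨‖W pole‖ + 2 * L, hM0⟩) (ext_bdd hM) hK (x : E)
  choose γ h0 hγ using hg
  have hn : ∀ (x : S) (t : ℝ), γ x t ∈ Metric.sphere (0 : E) 1 := by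
    intro x t
    rw [mem_sphere_zero_iff_norm, norm_const (hγ x) (fun t => ext_perp perp _) t, h0, norm_coe]
  refine ⟨fun t x => ⟨γ x t, hn x t⟩, LF.of_der hL lip (fun x => Subtype.ext (h0 x)) fun x t => ?_⟩
  have h := hγ x t
  rw [show ext W (γ x t) = W ⟨γ x t, hn x t⟩ from ext_coe W ⟨γ x t, hn x t⟩] at h
  exact h

/-- A zero of the field would be a periodic point; compactness. -/
theorem LF.base (h : LF W ψ L) (aper : ∀ x t, 0 < t → ψ t x ≠ x) : ∃ m M, Base W ψ m M L := by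
  have hc : Continuous fun x => ‖W x‖ := h.contW.norm
  obtain ⟨x₁, -, h1⟩ := isCompact_univ.exists_isMinOn ⟨pole, trivial⟩ hc.continuousOn
  obtain ⟨x₂, -, h2⟩ := isCompact_univ.exists_isMaxOn ⟨pole, trivial⟩ hc.continuousOn
  refine ⟨‖W x₁‖, ‖W x₂‖,
    { h with
      m_pos := ?_, low := fun x => h1 (mem_univ x), up := fun x => h2 (mem_univ x), aper := aper }⟩
  refine norm_pos_iff.2 fun h0 => aper x₁ 1 one_pos ?_
  have h3 := h.uniq_all (k := fun _ => x₁) (fun t => by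
    rw [h0]
    exact hasDerivAt_const t _) 0 1
  exact h3.symm

end Pool.Agent.Lib.MP_399f8e_an.Lk
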