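import Pool.Agent.Lib.MP_399f8e_an.Lk.AKer

/-! The linking form of a closed curve is closed and has local primitives. -/

open Set Filter Topology MeasureTheory
open scoped RealInnerProductSpace

noncomputable section

namespace Pool.Agent.Lib.MP_399f8e_an.Lk.AForm2Aux

/-- the ambient space -/
abbrev E4 : Type := EuclideanSpace ℝ (Fin 4)

/-- the determinant of four vectors -/
def det4 (a b c d : E4) : ℝ := (Matrix.of ![(a : Fin 4 → ℝ), b, c, d]).det

theorem det4_eq (a b c d : E4) : det4 a b c d =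
    a 0 * (b 1 * (c 2 * d 3 - c 3 * d 2) - b 2 * (c 1 * d 3 - c 3 * d 1)
      + b 3 * (c 1 * d 2 - c 2 * d 1))
    - a 1 * (b 0 * (c 2 * d 3 - c 3 * d 2) - b 2 * (c 0 * d 3 - c 3 * d 0)
      + b 3 * (c 0 * d 2 - c 2 * d 0))
    + a 2 * (b 0 * (c 1 * d 3 - c 3 * d 1) - b 1 * (c 0 * d 3 - c 3 * d 0)
      + b 3 * (c 0 * d 1 - c 1 * d 0))
    - a 3 * (b 0 * (c 1 * d 2 - c 2 * d 1) - b 1 * (c 0 * d 2 - c 2 * d 0)
      + b 2 * (c 0 * d 1 - c 1 * d 0)) := by
  simp [det4, Matrix.det_succ_row_zero, Fin.sum_univ_succ, Fin.succAbove]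
  ring

theorem inner_eq (a b : E4) : ⟪a, b⟫ = a 0 * b 0 + a 1 * b 1 + a 2 * b 2 + a 3 * b 3 := by
  simp [PiLp.inner_apply, Fin.sum_univ_four]
  ring

theorem nsq_eq (a : E4) : ‖a‖ ^ 2 = a 0 * a 0 + a 1 * a 1 + a 2 * a 2 + a 3 * a 3 := by
  rw [← real_inner_self_eq_norm_sq, inner_eq]

@[fun_prop]
theorem cont_det4 {X : Type} [TopologicalSpace X] {a b c d : X → E4} {s : Set X}
    (ha : ContinuousOn a s) (hb : ContinuousOn b s) (hc : ContinuousOn c s)
    (hd : ContinuousOn d s) : ContinuousOn (fun x => det4 (a x) (b x) (c x) (d x)) s := by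
  simp only [det4_eq]
  fun_prop

/-- the determinant as a bilinear map of its first two arguments -/
def dL (y w : E4) : E4 →L[ℝ] E4 →L[ℝ] ℝ :=
  LinearMap.toContinuousLinearMap
    ((LinearMap.toContinuousLinearMap : (E4 →ₗ[ℝ] ℝ) ≃ₗ[ℝ] (E4 →L[ℝ] ℝ)).toLinearMap ∘ₗ
      LinearMap.mk₂ ℝ (fun a b => det4 a b y w)
        (fun a a' b => by simp only [det4_eq, PiLp.add_apply]; ring)
        (fun r a b => by simp only [det4_eq, PiLp.smul_apply, smul_eq_mul]; ring)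
        (fun a b b' => by simp only [det4_eq, PiLp.add_apply]; ring)
        (fun r a b => by simp only [det4_eq, PiLp.smul_apply, smul_eq_mul]; ring))

@[simp] theorem dL_apply (y w a b : E4) : dL y w a b = det4 a b y w := rfl

/-- differentiation under an integral over a compact set -/
theorem param {F : Type} [NormedAddCommGroup F] [NormedSpace ℝ F] {U : Set E4} (hU : IsOpen U)
    {P : Set (ℝ × ℝ)} (hP : IsCompact P) {f : E4 → ℝ × ℝ → F} {f' : E4 → ℝ × ℝ → E4 →L[ℝ] F}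
    (hf : ∀ x ∈ U, ContinuousOn (f x) P)
    (hf' : ContinuousOn (fun q : E4 × ℝ × ℝ => f' q.1 q.2) (U ×ˢ P))
    (hd : ∀ x ∈ U, ∀ p ∈ P, HasFDerivAt (fun y => f y p) (f' x p) x) {x : E4} (hx : x ∈ U) :
    HasFDerivAt (fun y => ∫ p in P, f y p) (∫ p in P, f' x p) x := by
  obtain ⟨r, hr, hs⟩ := Metric.nhds_basis_closedBall.mem_iff.1 (hU.mem_nhds hx)
  obtain ⟨C, hC⟩ := ((isCompact_closedBall x r).prod hP).exists_bound_of_continuousOn
    (hf'.mono (prod_mono hs Subset.rfl))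
  have hm := hP.measurableSet
  refine hasFDerivAt_integral_of_dominated_of_fderiv_le (s := Metric.closedBall x r)
    (bound := fun _ => C) (Metric.closedBall_mem_nhds x hr) ?_ ((hf x hx).integrableOn_compact hP)
    ?_ ?_ (continuousOn_const.integrableOn_compact hP) ?_
  · filter_upwards [hU.mem_nhds hx] with y hy
    exact (hf y hy).aestronglyMeasurable hm
  · have h : ContinuousOn (f' x) P :=
      hf'.comp (f := fun p : ℝ × ℝ => (x, p)) (by fun_prop) fun p hp => ⟨hx, hp⟩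
    exact h.aestronglyMeasurable hm
  · filter_upwards [ae_restrict_mem hm] with p hp y hy
    exact hC (y, p) ⟨hy, hp⟩
  · filter_upwards [ae_restrict_mem hm] with p hp y hy
    exact hd y (hs hy) p hp

theorem iter1 {T : ℝ} (hT : 0 ≤ T) {g : ℝ × ℝ → ℝ} (hg : ContinuousOn g (Icc 0 T ×ˢ Icc 0 1)) :
    ∫ p in Icc 0 T ×ˢ Icc 0 1, g p = ∫ t in (0 : ℝ)..T, ∫ u in (0 : ℝ)..1, g (t, u) := by
  have hi := hg.integrableOn_compact (μ := volume) (isCompact_Icc.prod isCompact_Icc)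
  simp only [intervalIntegral.integral_of_le hT, intervalIntegral.integral_of_le zero_le_one,
    ← integral_Icc_eq_integral_Ioc]
  exact setIntegral_prod g hi

theorem iter2 {T : ℝ} (hT : 0 ≤ T) {g : ℝ × ℝ → ℝ} (hg : ContinuousOn g (Icc 0 T ×ˢ Icc 0 1)) :
    ∫ p in Icc 0 T ×ˢ Icc 0 1, g p = ∫ u in (0 : ℝ)..1, ∫ t in (0 : ℝ)..T, g (t, u) := by
  have hi := hg.integrableOn_compact (μ := volume) (isCompact_Icc.prod isCompact_Icc)
  simp only [intervalIntegral.integral_of_le hT, intervalIntegral.integral_of_le zero_le_one,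
    ← integral_Icc_eq_integral_Ioc]
  rw [Measure.volume_eq_prod, IntegrableOn, ← Measure.prod_restrict] at hi
  rw [Measure.volume_eq_prod, ← Measure.prod_restrict]
  exact integral_prod_symm g hi

variable {K K1 : ℝ → E4} {T : ℝ}

/-- the linking form of the curve `K` with velocity `K1` -/
def bh (K K1 : ℝ → E4) (T : ℝ) (x v : E4) : ℝ :=
  ∫ t in (0 : ℝ)..T, ∫ u in (0 : ℝ)..1,
    u * (1 - u) * det4 x v (K t) (K1 t) / ‖(1 - u) • x - u • K t‖ ^ 4

/-- the joining vector -/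
def zz (K : ℝ → E4) (x : E4) (p : ℝ × ℝ) : E4 := (1 - p.2) • x - p.2 • K p.1

/-- the integrand as a covector -/
def cv (K K1 : ℝ → E4) (x : E4) (p : ℝ × ℝ) : E4 →L[ℝ] ℝ :=
  (p.2 * (1 - p.2) / (‖zz K x p‖ ^ 2) ^ 2) • dL (K p.1) (K1 p.1) x

/-- the derivative of the integrand -/
def cv1 (K K1 : ℝ → E4) (x : E4) (p : ℝ × ℝ) : E4 →L[ℝ] E4 →L[ℝ] ℝ :=
  (p.2 * (1 - p.2) / (‖zz K x p‖ ^ 2) ^ 2) • dL (K p.1) (K1 p.1) +
    ((-4 * p.2 * (1 - p.2) ^ 2 / (‖zz K x p‖ ^ 2) ^ 3) • innerSL ℝ (zz K x p)).smulRight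
      (dL (K p.1) (K1 p.1) x)

theorem cv_apply (x v : E4) (p : ℝ × ℝ) : cv K K1 x p v =
    p.2 * (1 - p.2) / (‖zz K x p‖ ^ 2) ^ 2 * det4 x v (K p.1) (K1 p.1) := rfl

theorem cv1_apply (x w v : E4) (p : ℝ × ℝ) : cv1 K K1 x p w v =
    p.2 * (1 - p.2) / (‖zz K x p‖ ^ 2) ^ 2 * det4 w v (K p.1) (K1 p.1) +
      -4 * p.2 * (1 - p.2) ^ 2 / (‖zz K x p‖ ^ 2) ^ 3 * ⟪zz K x p, w⟫ *
        det4 x v (K p.1) (K1 p.1) := rfl

theorem cv_deriv {x : E4} {p : ℝ × ℝ} (h : zz K x p ≠ 0) :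
    HasFDerivAt (fun y => cv K K1 y p) (cv1 K K1 x p) x := by
  have hn : ‖zz K x p‖ ^ 2 ≠ 0 := pow_ne_zero _ (norm_ne_zero_iff.2 h)
  have h1 : HasFDerivAt (fun y => zz K y p) ((1 - p.2) • ContinuousLinearMap.id ℝ E4) x :=
    ((hasFDerivAt_id x).const_smul (1 - p.2)).sub_const _
  have h2 := h1.norm_sq
  have h3 : HasDerivAt (fun r : ℝ => p.2 * (1 - p.2) / r ^ 2)
      (-2 * p.2 * (1 - p.2) / (‖zz K x p‖ ^ 2) ^ 3) (‖zz K x p‖ ^ 2) := by
    have := (hasDerivAt_const (‖zz K x p‖ ^ 2) (p.2 * (1 - p.2))).div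
      (hasDerivAt_pow 2 (‖zz K x p‖ ^ 2)) (pow_ne_zero 2 hn)
    refine this.congr_deriv ?_
    field_simp
    norm_num
    ring
  have h4 := (h3.comp_hasFDerivAt x h2).smul (dL (K p.1) (K1 p.1)).hasFDerivAt
  refine h4.congr_fderiv ?_
  ext w v
  rw [cv1_apply]
  simp
  left
  ring

/-- derivative of the basic quotient along a curve -/
theorem quot_deriv {z a : ℝ → E4} {z' a' : E4} {s : ℝ} (hz : HasDerivAt z z' s)
    (ha : HasDerivAt a a' s) (h : z s ≠ 0) (v w : E4) :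
    HasDerivAt (fun r => det4 (z r) (a r) v w / (‖z r‖ ^ 2) ^ 2)
      ((det4 z' (a s) v w + det4 (z s) a' v w) / (‖z s‖ ^ 2) ^ 2
        - 4 * ⟪z s, z'⟫ * det4 (z s) (a s) v w / (‖z s‖ ^ 2) ^ 3) s := by
  have hn : ‖z s‖ ^ 2 ≠ 0 := pow_ne_zero _ (norm_ne_zero_iff.2 h)
  have h1 := ((dL v w).hasFDerivAt.comp_hasDerivAt s hz).clm_apply ha
  have h2 := (hz.norm_sq).pow 2
  refine (h1.div h2 (pow_ne_zero 2 hn)).congr_deriv ?_
  simp only [Function.comp, dL_apply, Pi.pow_apply]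
  field_simp
  norm_num
  ring

/-- the derivative of the first flux -/
def fu (K K1 : ℝ → E4) (x v w : E4) (p : ℝ × ℝ) : ℝ :=
  ((1 - p.2) ^ 2 - 2 * p.2 * (1 - p.2)) * (det4 (zz K x p) (K1 p.1) v w / (‖zz K x p‖ ^ 2) ^ 2)
    + p.2 * (1 - p.2) ^ 2 * (det4 (-x - K p.1) (K1 p.1) v w / (‖zz K x p‖ ^ 2) ^ 2
      - 4 * ⟪zz K x p, -x - K p.1⟫ * det4 (zz K x p) (K1 p.1) v w / (‖zz K x p‖ ^ 2) ^ 3)

/-- the derivative of the second flux -/
def ft (K K1 : ℝ → E4) (x v w : E4) (p : ℝ × ℝ) : ℝ :=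
  (1 - p.2) ^ 2 * ((det4 (-(p.2 • K1 p.1)) (x + K p.1) v w + det4 (zz K x p) (K1 p.1) v w)
      / (‖zz K x p‖ ^ 2) ^ 2
    - 4 * ⟪zz K x p, -(p.2 • K1 p.1)⟫ * det4 (zz K x p) (x + K p.1) v w / (‖zz K x p‖ ^ 2) ^ 3)

theorem cramer (z a b c d : E4) : ‖z‖ ^ 2 * det4 a b c d = ⟪z, a⟫ * det4 z b c d
    - ⟪z, b⟫ * det4 z a c d + ⟪z, c⟫ * det4 z a b d - ⟪z, d⟫ * det4 z a b c := by
  simp only [nsq_eq, det4_eq, inner_eq]
  ring

theorem det4_rot (a b c d : E4) : det4 a b c d = -det4 a d c b := by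
  simp only [det4_eq]; ring

theorem det4_swap (a b c d : E4) : det4 a b c d = -det4 c d b a := by
  simp only [det4_eq]; ring

theorem key {x : E4} {p : ℝ × ℝ} (h : zz K x p ≠ 0) (v w : E4) :
    cv1 K K1 x p w v - cv1 K K1 x p v w = ft K K1 x v w p - fu K K1 x v w p := by
  have hn : ‖zz K x p‖ ^ 2 ≠ 0 := pow_ne_zero _ (norm_ne_zero_iff.2 h)
  have cr := cramer (zz K x p) w v (x + K p.1) (K1 p.1)
  have e1 : ∀ a : E4, det4 (zz K x p) a (x + K p.1) (K1 p.1) = det4 x a (K p.1) (K1 p.1) := by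
    intro a
    simp only [det4_eq, zz, PiLp.sub_apply, PiLp.add_apply, PiLp.smul_apply, smul_eq_mul]
    ring
  have e2 : det4 (zz K x p) (K1 p.1) v w
      = (1 - p.2) * det4 x (K1 p.1) v w - p.2 * det4 (K p.1) (K1 p.1) v w := by
    simp only [det4_eq, zz, PiLp.sub_apply, PiLp.smul_apply, smul_eq_mul]
    ring
  have e3 : det4 (-x - K p.1) (K1 p.1) v w
      = -det4 x (K1 p.1) v w - det4 (K p.1) (K1 p.1) v w := by
    simp only [det4_eq, PiLp.sub_apply, PiLp.neg_apply]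
    ring
  have e4 : det4 (-(p.2 • K1 p.1)) (x + K p.1) v w
      = p.2 * (det4 x (K1 p.1) v w + det4 (K p.1) (K1 p.1) v w) := by
    simp only [det4_eq, PiLp.add_apply, PiLp.neg_apply, PiLp.smul_apply, smul_eq_mul]
    ring
  have e5 : det4 w v (x + K p.1) (K1 p.1)
      = -(det4 x (K1 p.1) v w + det4 (K p.1) (K1 p.1) v w) := by
    simp only [det4_eq, PiLp.add_apply]
    ring
  have e6 : det4 w v (K p.1) (K1 p.1) = -det4 (K p.1) (K1 p.1) v w := det4_swap _ _ _ _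
  have e7 : det4 v w (K p.1) (K1 p.1) = det4 (K p.1) (K1 p.1) v w := by
    simp only [det4_eq]; ring
  have e8 : ⟪zz K x p, -x - K p.1⟫ = -⟪zz K x p, x + K p.1⟫ := by
    rw [← inner_neg_right, neg_add']
  have e9 : ⟪zz K x p, -(p.2 • K1 p.1)⟫ = -(p.2 * ⟪zz K x p, K1 p.1⟫) := by
    rw [inner_neg_right, real_inner_smul_right]
  rw [e1, e1, e5, det4_rot _ w v (K1 p.1), det4_rot _ w v (x + K p.1), e2] at cr
  rw [cv1_apply, cv1_apply, ft, fu, e2, e3, e4, e6, e7, e8, e9]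
  have hM := mul_inv_cancel₀ hn
  simp only [div_eq_mul_inv, ← inv_pow (‖zz K x p‖ ^ 2)]
  generalize (‖zz K x p‖ ^ 2)⁻¹ = M at hM
  generalize ‖zz K x p‖ ^ 2 = N at hM cr
  linear_combination (4 * p.2 * (1 - p.2) ^ 2 * M ^ 3) * cr + (4 * p.2 * (1 - p.2) ^ 2 * M ^ 2 *
    (det4 x (K1 p.1) v w + det4 (K p.1) (K1 p.1) v w)) * hM

theorem int_fu {x : E4} {t : ℝ} (h : ∀ u ∈ Icc (0 : ℝ) 1, zz K x (t, u) ≠ 0) (v w : E4)
    (hc : ContinuousOn (fun u => fu K K1 x v w (t, u)) (Icc 0 1)) :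
    ∫ u in (0 : ℝ)..1, fu K K1 x v w (t, u) = 0 := by
  have hd : ∀ u ∈ uIcc (0 : ℝ) 1, HasDerivAt (fun u => u * (1 - u) ^ 2 *
      (det4 (zz K x (t, u)) (K1 t) v w / (‖zz K x (t, u)‖ ^ 2) ^ 2)) (fu K K1 x v w (t, u)) u := by
    intro u hu
    rw [uIcc_of_le zero_le_one] at hu
    have hz : HasDerivAt (fun u => zz K x (t, u)) (-x - K t) u := by
      have := (((hasDerivAt_id u).const_sub 1).smul_const x).sub
        ((hasDerivAt_id u).smul_const (K t))
      exact this.congr_deriv (by simp)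
    have h1 := (hasDerivAt_id u).mul (((hasDerivAt_id u).const_sub 1).pow 2)
    have h2 := h1.mul (quot_deriv hz (hasDerivAt_const u (K1 t)) (h u hu) v w)
    refine h2.congr_deriv ?_
    have h0 : det4 (zz K x (t, u)) 0 v w = 0 := by simp [det4_eq]
    simp only [fu, h0, Pi.mul_apply, Pi.pow_apply, id]
    norm_num
    left
    ring
  rw [intervalIntegral.integral_eq_sub_of_hasDerivAt hd
    (hc.intervalIntegrable_of_Icc zero_le_one)]
  simp

theorem int_ft (hK : ∀ t, HasDerivAt K (K1 t) t) (hT : 0 ≤ T) (hp : K T = K 0) {x : E4} {u : ℝ}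
    (h : ∀ t ∈ Icc (0 : ℝ) T, zz K x (t, u) ≠ 0) (v w : E4)
    (hc : ContinuousOn (fun t => ft K K1 x v w (t, u)) (Icc 0 T)) :
    ∫ t in (0 : ℝ)..T, ft K K1 x v w (t, u) = 0 := by
  have hd : ∀ t ∈ uIcc (0 : ℝ) T, HasDerivAt (fun t => (1 - u) ^ 2 *
      (det4 (zz K x (t, u)) (x + K t) v w / (‖zz K x (t, u)‖ ^ 2) ^ 2))
      (ft K K1 x v w (t, u)) t := by
    intro t ht
    rw [uIcc_of_le hT] at ht
    have hz : HasDerivAt (fun t => zz K x (t, u)) (-(u • K1 t)) t :=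
      ((hK t).const_smul u).const_sub ((1 - u) • x)
    exact (quot_deriv hz ((hK t).const_add x) (h t ht) v w).const_mul _
  rw [intervalIntegral.integral_eq_sub_of_hasDerivAt hd (hc.intervalIntegrable_of_Icc hT)]
  simp [zz, hp]

/-- the linking form as a covector -/
def bL (K K1 : ℝ → E4) (T : ℝ) (x : E4) : E4 →L[ℝ] ℝ :=
  ∫ p in Icc 0 T ×ˢ Icc 0 1, cv K K1 x p

/-- the points that are joined to the curve without passing the origin -/
def Om (K : ℝ → E4) (T : ℝ) : Set E4 :=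
  {x | ∀ t ∈ Icc 0 T, ∀ u ∈ Icc (0 : ℝ) 1, (1 - u) • x - u • K t ≠ 0}

theorem nz {x : E4} (hx : x ∈ Om K T) {p : ℝ × ℝ} (hp : p ∈ Icc 0 T ×ˢ Icc (0 : ℝ) 1) :
    zz K x p ≠ 0 := hx p.1 hp.1 p.2 hp.2

theorem cv_cont (hK : Continuous K) (hK1 : Continuous K1) :
    ContinuousOn (fun q : E4 × ℝ × ℝ => cv K K1 q.1 q.2) (Om K T ×ˢ Icc 0 T ×ˢ Icc 0 1) := by
  rw [continuousOn_clm_apply]
  intro v
  simp only [cv_apply]
  have hz : ContinuousOn (fun q : E4 × ℝ × ℝ => zz K q.1 q.2) (Om K T ×ˢ Icc 0 T ×ˢ Icc 0 1) := by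
    unfold zz; fun_prop
  refine (ContinuousOn.div (by fun_prop) (by fun_prop) fun q hq => ?_).mul (by fun_prop)
  exact pow_ne_zero _ (pow_ne_zero _ (norm_ne_zero_iff.2 (nz hq.1 hq.2)))

theorem cv1_cont (hK : Continuous K) (hK1 : Continuous K1) :
    ContinuousOn (fun q : E4 × ℝ × ℝ => cv1 K K1 q.1 q.2) (Om K T ×ˢ Icc 0 T ×ˢ Icc 0 1) := by
  rw [continuousOn_clm_apply]
  intro w
  rw [continuousOn_clm_apply]
  intro v
  simp only [cv1_apply]
  have hz : ContinuousOn (fun q : E4 × ℝ × ℝ => zz K q.1 q.2) (Om K T ×ˢ Icc 0 T ×ˢ Icc 0 1) := by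
    unfold zz; fun_prop
  have hn : ∀ n : ℕ, ∀ q ∈ Om K T ×ˢ Icc 0 T ×ˢ Icc (0 : ℝ) 1, (‖zz K q.1 q.2‖ ^ 2) ^ n ≠ 0 :=
    fun n q hq => pow_ne_zero _ (pow_ne_zero _ (norm_ne_zero_iff.2 (nz hq.1 hq.2)))
  exact ((ContinuousOn.div (by fun_prop) (by fun_prop) (hn 2)).mul (by fun_prop)).add
    (((ContinuousOn.div (by fun_prop) (by fun_prop) (hn 3)).mul
      (hz.inner (𝕜 := ℝ) continuousOn_const)).mul (by fun_prop))

theorem slice {F : Type} [TopologicalSpace F] {f : E4 → ℝ × ℝ → F} {U : Set E4}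
    {P : Set (ℝ × ℝ)} (h : ContinuousOn (fun q : E4 × ℝ × ℝ => f q.1 q.2) (U ×ˢ P)) {x : E4}
    (hx : x ∈ U) : ContinuousOn (f x) P :=
  h.comp (f := fun p : ℝ × ℝ => (x, p)) (by fun_prop) fun _ hp => ⟨hx, hp⟩

theorem isOpen_Om (hK : Continuous K) : IsOpen (Om K T) := by
  rw [isOpen_iff_mem_nhds]
  intro x hx
  have hc : Continuous fun q : E4 × ℝ × ℝ => zz K q.1 q.2 := by unfold zz; fun_prop
  have := (isCompact_Icc.prod isCompact_Icc :
      IsCompact (Icc 0 T ×ˢ Icc (0 : ℝ) 1)).eventually_forall_of_forall_eventually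
    (x₀ := x) (P := fun y p => zz K y p ≠ 0) fun p hp =>
      hc.continuousAt.eventually_ne (nz hx hp)
  filter_upwards [this] with y hy t ht u hu
  exact hy (t, u) ⟨ht, hu⟩

theorem bL_apply (hK : Continuous K) (hK1 : Continuous K1) (hT : 0 ≤ T) {x : E4}
    (hx : x ∈ Om K T) (v : E4) : bL K K1 T x v = bh K K1 T x v := by
  have hc := slice (cv_cont hK hK1) hx
  rw [bL, ContinuousLinearMap.integral_apply
    (hc.integrableOn_compact (isCompact_Icc.prod isCompact_Icc)),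
    iter1 hT (hc.clm_apply continuousOn_const), bh]
  congr 1
  funext t
  congr 1
  funext u
  rw [cv_apply, zz]
  ring

theorem bL_deriv (hK : Continuous K) (hK1 : Continuous K1) {x : E4} (hx : x ∈ Om K T) :
    HasFDerivAt (bL K K1 T) (∫ p in Icc 0 T ×ˢ Icc 0 1, cv1 K K1 x p) x :=
  param (isOpen_Om hK) (isCompact_Icc.prod isCompact_Icc)
    (fun _ hy => slice (cv_cont hK hK1) hy) (cv1_cont hK hK1)
    (fun _ hy _ hp => cv_deriv (nz hy hp)) hx

theorem bL_contOn (hK : Continuous K) (hK1 : Continuous K1) : ContinuousOn (bL K K1 T) (Om K T) :=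
  fun _ hx => (bL_deriv hK hK1 hx).continuousAt.continuousWithinAt

/-- the linking form is closed -/
theorem bL_symm (hK : ∀ t, HasDerivAt K (K1 t) t) (hK1 : Continuous K1) (hT : 0 ≤ T)
    (hp : K T = K 0) {x : E4} (hx : x ∈ Om K T) (v w : E4) :
    fderiv ℝ (bL K K1 T) x w v = fderiv ℝ (bL K K1 T) x v w := by
  have hK0 : Continuous K := continuous_iff_continuousAt.2 fun t => (hK t).continuousAt
  have hP : IsCompact (Icc 0 T ×ˢ Icc (0 : ℝ) 1) := isCompact_Icc.prod isCompact_Icc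
  have hc := slice (cv1_cont hK0 hK1) hx
  have ap : ∀ a b : E4, (∫ p in Icc 0 T ×ˢ Icc 0 1, cv1 K K1 x p) a b
      = ∫ p in Icc 0 T ×ˢ Icc 0 1, cv1 K K1 x p a b := fun a b => by
    have i1 := ContinuousOn.integrableOn_compact (E := E4 →L[ℝ] E4 →L[ℝ] ℝ) (μ := volume) hP hc
    have i2 := (hc.clm_apply (continuousOn_const (c := a))).integrableOn_compact (μ := volume) hP
    have j1 := ContinuousLinearMap.integral_apply (H := E4) (E := E4 →L[ℝ] ℝ) i1 a
    rw [j1, ContinuousLinearMap.integral_apply i2]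
  have ci : ∀ a b : E4, IntegrableOn (fun p => cv1 K K1 x p a b) (Icc 0 T ×ˢ Icc 0 1) :=
    fun a b => ((hc.clm_apply continuousOn_const).clm_apply
      continuousOn_const).integrableOn_compact hP
  have hz : ContinuousOn (zz K x) (Icc 0 T ×ˢ Icc 0 1) := by unfold zz; fun_prop
  have hn : ∀ n : ℕ, ∀ p ∈ Icc 0 T ×ˢ Icc (0 : ℝ) 1, (‖zz K x p‖ ^ 2) ^ n ≠ 0 :=
    fun n p hp => pow_ne_zero _ (pow_ne_zero _ (norm_ne_zero_iff.2 (nz hx hp)))
  have cu : ContinuousOn (fu K K1 x v w) (Icc 0 T ×ˢ Icc 0 1) :=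
    (ContinuousOn.mul (by fun_prop) (ContinuousOn.div (by fun_prop) (by fun_prop) (hn 2))).add
      (ContinuousOn.mul (by fun_prop) ((ContinuousOn.div (by fun_prop) (by fun_prop) (hn 2)).sub
        (ContinuousOn.div ((continuousOn_const.mul (hz.inner (𝕜 := ℝ) (by fun_prop))).mul (by fun_prop))
          (by fun_prop) (hn 3))))
  have ct : ContinuousOn (ft K K1 x v w) (Icc 0 T ×ˢ Icc 0 1) :=
    ContinuousOn.mul (by fun_prop) ((ContinuousOn.div (by fun_prop) (by fun_prop) (hn 2)).sub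
      (ContinuousOn.div ((continuousOn_const.mul (hz.inner (𝕜 := ℝ) (by fun_prop))).mul (by fun_prop))
        (by fun_prop) (hn 3)))
  have iu : ∫ p in Icc 0 T ×ˢ Icc 0 1, fu K K1 x v w p = 0 := by
    rw [iter1 hT cu, intervalIntegral.integral_congr (g := fun _ => 0), intervalIntegral.integral_zero]
    intro t ht
    rw [uIcc_of_le hT] at ht
    exact int_fu (fun u hu => nz hx ⟨ht, hu⟩) v w
      (cu.comp (f := fun u : ℝ => (t, u)) (by fun_prop) fun u hu => ⟨ht, hu⟩)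
  have it : ∫ p in Icc 0 T ×ˢ Icc 0 1, ft K K1 x v w p = 0 := by
    rw [iter2 hT ct, intervalIntegral.integral_congr (g := fun _ => 0), intervalIntegral.integral_zero]
    intro u hu
    rw [uIcc_of_le zero_le_one] at hu
    exact int_ft hK hT hp (fun t ht => nz hx ⟨ht, hu⟩) v w
      (ct.comp (f := fun t : ℝ => (t, u)) (by fun_prop) fun t ht => ⟨ht, hu⟩)
  rw [(bL_deriv hK0 hK1 hx).fderiv, ap, ap, ← sub_eq_zero, ← integral_sub (ci w v) (ci v w),
    setIntegral_congr_fun hP.measurableSet fun p hp => key (nz hx hp) v w,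
    integral_sub (ct.integrableOn_compact hP) (cu.integrableOn_compact hP), iu, it, sub_zero]

/-- local primitives of the linking form -/
theorem prim (hK : ∀ t, HasDerivAt K (K1 t) t) (hK1 : Continuous K1) (hT : 0 ≤ T)
    (hp : K T = K 0) {U : Set E4} (hU : Convex ℝ U) (hUo : IsOpen U) (hs : U ⊆ Om K T) :
    ∃ F : E4 → ℝ, ∀ x ∈ U, HasFDerivAt F (bL K K1 T x) x := by
  have hK0 : Continuous K := continuous_iff_continuousAt.2 fun t => (hK t).continuousAt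
  exact hU.exists_forall_hasFDerivAt_of_fderiv_symmetric hUo
    (fun x hx => (bL_deriv hK0 hK1 (hs hx)).differentiableAt.differentiableWithinAt)
    fun a ha x y => bL_symm hK hK1 hT hp (hs ha) y x

/-- a unit vector off a curve of unit vectors is joined to it without passing the origin -/
theorem mem_Om {x : E4} (hx : ‖x‖ = 1) (hK : ∀ t, ‖K t‖ = 1) (h : ∀ t ∈ Icc 0 T, x ≠ K t) :
    x ∈ Om K T := by
  intro t ht u hu e
  rw [sub_eq_zero] at e
  have h1 := congrArg norm e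
  rw [norm_smul, norm_smul, hx, hK, mul_one, mul_one, Real.norm_of_nonneg (by linarith [hu.2]),
    Real.norm_of_nonneg hu.1] at h1
  have h2 : u = 1 / 2 := by linarith
  rw [h1] at e
  exact h t ht (smul_right_injective E4 (by rw [h2]; norm_num) e)

end Pool.Agent.Lib.MP_399f8e_an.Lk.AForm2Aux

namespace Pool.Agent.Lib.MP_399f8e_an.Lk

open Rg AForm2Aux

/-- The Gauss one-form of a closed curve exists. -/
theorem Loop.exists_form {K : ℝ → S} {K' : ℝ → E} {T Λ : ℝ} (h : Loop K K' T Λ) :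
    ∃ β, Form K K' T β := by
  have hK0 : Continuous fun t => (K t : E) :=
    continuous_iff_continuousAt.2 fun t => (h.der t).continuousAt
  have hK1 : Continuous K' := by
    refine (LipschitzWith.of_dist_le_mul (K := Real.toNNReal Λ) fun s t => ?_).continuous
    rw [dist_eq_norm, Real.dist_eq]
    exact (h.lip s t).trans (mul_le_mul_of_nonneg_right (Real.le_coe_toNNReal Λ) (abs_nonneg _))
  have hp : (fun t => (K t : E)) T = (fun t => (K t : E)) 0 := by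
    have := h.per 0
    rw [zero_add] at this
    simp only [this]
  have hm : ∀ x : S, x ∉ range K → (x : E) ∈ Om (fun t => (K t : E)) T := fun x hx =>
    mem_Om (norm_eq_of_mem_sphere x) (fun t => norm_eq_of_mem_sphere (K t))
      fun t _ e => hx ⟨t, Subtype.ext e.symm⟩
  refine ⟨bL (fun t => (K t : E)) K' T, ?_, fun x hx => ?_, fun x hx v => ?_⟩
  · exact (bL_contOn hK0 hK1).comp continuous_subtype_val.continuousOn fun x hx => hm x hx
  · obtain ⟨ρ, hρ, hs⟩ := Metric.isOpen_iff.1 (isOpen_Om hK0) _ (hm x hx)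
    obtain ⟨f, hf⟩ := prim h.der hK1 h.T_pos.le hp (convex_ball _ ρ) Metric.isOpen_ball hs
    exact ⟨ρ, f, hρ, hf⟩
  · rw [bL_apply hK0 hK1 h.T_pos.le (hm x hx), bh]
    congr 1
    funext t
    rw [Gk, gaussK, ← intervalIntegral.integral_mul_const]
    congr 1
    funext u
    have e : ‖(1 - u) • (x : E) - u • (K t : E)‖ ^ 2
        = (1 - u) ^ 2 + u ^ 2 - 2 * u * (1 - u) * ⟪(x : E), (K t : E)⟫ := by
      rw [norm_sub_sq_real, norm_smul, norm_smul, norm_eq_of_mem_sphere, norm_eq_of_mem_sphere,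
        real_inner_smul_left, real_inner_smul_right, mul_one, mul_one, Real.norm_eq_abs,
        Real.norm_eq_abs, sq_abs, sq_abs]
      ring
    rw [← e, vol_eq, det4_eq]
    ring

end Pool.Agent.Lib.MP_399f8e_an.Lk
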