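import Mathlib

/-! A nowhere zero tangent field of the three-sphere has a smooth complementary frame. -/

open Set Filter Topology Metric
open scoped RealInnerProductSpace

noncomputable section

namespace Pool.Agent.Lib.MP_399f8e_an.Fr

/-- triples of reals -/
abbrev V : Type := ℝ × ℝ × ℝ

/-- scalar product -/
def dt (a b : V) : ℝ := a.1 * b.1 + a.2.1 * b.2.1 + a.2.2 * b.2.2

/-- vector product -/
def cr (a b : V) : V :=
  (a.2.1 * b.2.2 - a.2.2 * b.2.1, a.2.2 * b.1 - a.1 * b.2.2, a.1 * b.2.1 - a.2.1 * b.1)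

/-- scaled projection along `n` -/
def pj (n u : V) : V := dt n n • u - dt u n • n

/-- the complex number `c` acts on the plane orthogonal to `n` -/
def act (n : V) (c : ℂ) (u : V) : V := c.re • u + c.im • cr n u

theorem dt_nonneg (a : V) : 0 ≤ dt a a := by
  unfold dt; nlinarith [mul_self_nonneg a.1, mul_self_nonneg a.2.1, mul_self_nonneg a.2.2]

theorem dt_pj (n u : V) : dt (pj n u) n = 0 := by
  simp only [dt, pj, Prod.fst_sub, Prod.snd_sub, Prod.smul_fst, Prod.smul_snd, smul_eq_mul]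
  ring

theorem dt_cr (n u : V) : dt (cr n u) (cr n u) = dt n n * dt u u - dt u n ^ 2 := by
  simp only [dt, cr]; ring

theorem dt_pj_pj (n u : V) : dt (pj n u) (pj n u) = dt n n * dt (cr n u) (cr n u) := by
  simp only [dt, pj, cr, Prod.fst_sub, Prod.snd_sub, Prod.smul_fst, Prod.smul_snd, smul_eq_mul]
  ring

theorem cr_pos {m n u : V} (hu : 0 < dt u u) (hm : dt u m = 0) (h : 0 < dt m n) :
    0 < dt (cr n u) (cr n u) := by
  have key : dt (cr m (cr n u)) (cr m (cr n u))
      = dt m n ^ 2 * dt u u + dt u m * (dt u m * dt n n - 2 * dt m n * dt u n) := by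
    simp only [dt, cr]; ring
  have h2 : dt (cr m (cr n u)) (cr m (cr n u)) ≤ dt m m * dt (cr n u) (cr n u) := by
    rw [dt_cr]; nlinarith [sq_nonneg (dt (cr n u) m)]
  rw [hm] at key
  have h3 : 0 < dt m n ^ 2 * dt u u := by positivity
  rcases (dt_nonneg (cr n u)).lt_or_eq with h4 | h4
  · exact h4
  · rw [← h4] at h2; nlinarith

theorem pos_of_cr {n u : V} (h : 0 < dt (cr n u) (cr n u)) : 0 < dt n n := by
  rcases (dt_nonneg n).lt_or_eq with h4 | h4
  · exact h4
  · rw [dt_cr, ← h4] at h; nlinarith [sq_nonneg (dt u n)]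

theorem pj_pos {m n u : V} (hu : 0 < dt u u) (hm : dt u m = 0) (h : 0 < dt m n) :
    0 < dt (pj n u) (pj n u) := by
  have := cr_pos hu hm h
  rw [dt_pj_pj]; exact mul_pos (pos_of_cr this) this

theorem pj_self {n u : V} (hn : dt n n = 1) (h : dt u n = 0) : pj n u = u := by
  simp [pj, hn, h]

theorem dt_act (n u : V) (c : ℂ) : dt (act n c u) n = c.re * dt u n := by
  simp only [dt, act, cr, Prod.fst_add, Prod.snd_add, Prod.smul_fst, Prod.smul_snd, smul_eq_mul]
  ring

theorem act_pos {n u : V} {c : ℂ} (hc : c ≠ 0) (hn : 0 < dt n n) (hu : 0 < dt u u)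
    (h : dt u n = 0) : 0 < dt (act n c u) (act n c u) := by
  have key : dt (act n c u) (act n c u)
      = c.re ^ 2 * dt u u + c.im ^ 2 * (dt n n * dt u u - dt u n ^ 2) := by
    simp only [dt, act, cr, Prod.fst_add, Prod.snd_add, Prod.smul_fst, Prod.smul_snd, smul_eq_mul]
    ring
  rw [key, h]
  have h1 := mul_pos hn hu
  by_cases hr : c.re = 0
  · have hi : c.im ≠ 0 := fun hi => hc (Complex.ext hr hi)
    have : 0 < c.im ^ 2 := by positivity
    rw [hr]; nlinarith
  · have : 0 < c.re ^ 2 := by positivity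
    nlinarith [mul_nonneg (sq_nonneg c.im) h1.le, mul_pos this hu]

/-- complex coordinate in the plane orthogonal to `n` -/
def co (n u w : V) : ℂ := ⟨dt w u, dt w (cr n u)⟩

theorem act_co {n u w : V} (hn : dt n n = 1) (hu : dt u u = 1) (h : dt u n = 0)
    (hw : dt w n = 0) : act n (co n u w) u = w := by
  have key : (dt n n * dt u u - dt u n ^ 2) • w
      = dt w (cr n u) • cr n u + dt w u • (dt n n • u - dt u n • n)
        - dt w n • (dt u n • u - dt u u • n) := by
    ext <;> simp only [dt, cr, Prod.fst_add, Prod.snd_add, Prod.fst_sub, Prod.snd_sub,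
      Prod.smul_fst, Prod.smul_snd, smul_eq_mul] <;> ring
  rw [hn, hu, h, hw] at key
  simp only [act, co]
  simp at key
  rw [add_comm]; exact key.symm

theorem act_act {n u : V} (hn : dt n n = 1) (h : dt u n = 0) (c d : ℂ) :
    act n c (act n d u) = act n (c * d) u := by
  have key : act n c (act n d u) = (c.re * d.re - c.im * d.im * dt n n) • u
      + (c.re * d.im + c.im * d.re) • cr n u + (c.im * d.im * dt u n) • n := by
    ext <;> simp only [dt, cr, act, Prod.fst_add, Prod.snd_add,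
      Prod.smul_fst, Prod.smul_snd, smul_eq_mul] <;> ring
  rw [key, hn, h]
  simp [act]

theorem act_one (n u : V) : act n 1 u = u := by simp [act]

theorem exists_perp (n : V) : ∃ u : V, dt u u = 1 ∧ dt u n = 0 := by
  by_cases h : n.1 = 0 ∧ n.2.1 = 0
  · exact ⟨(1, 0, 0), by simp [dt], by simp [dt, h.1]⟩
  · have hp : 0 < n.1 ^ 2 + n.2.1 ^ 2 := by
      rcases not_and_or.1 h with h | h <;> positivity
    have hs := Real.sqrt_pos.2 hp
    have h2 := Real.mul_self_sqrt hp.le
    refine ⟨(n.2.1 / √(n.1 ^ 2 + n.2.1 ^ 2), -n.1 / √(n.1 ^ 2 + n.2.1 ^ 2), 0), ?_, ?_⟩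
    · simp only [dt]
      field_simp
      nlinarith
    · simp only [dt]
      field_simp
      ring

theorem cont_dt {Y : Type*} [TopologicalSpace Y] {a b : Y → V} (ha : Continuous a)
    (hb : Continuous b) : Continuous fun y => dt (a y) (b y) := by
  unfold dt; fun_prop

theorem cont_cr {Y : Type*} [TopologicalSpace Y] {a b : Y → V} (ha : Continuous a)
    (hb : Continuous b) : Continuous fun y => cr (a y) (b y) := by
  unfold cr; fun_prop

theorem cont_pj {Y : Type*} [TopologicalSpace Y] {a b : Y → V} (ha : Continuous a)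
    (hb : Continuous b) : Continuous fun y => pj (a y) (b y) :=
  ((cont_dt ha ha).smul hb).sub ((cont_dt hb ha).smul ha)

theorem cont_act {Y : Type*} [TopologicalSpace Y] {a b : Y → V} {c : Y → ℂ} (ha : Continuous a)
    (hc : Continuous c) (hb : Continuous b) : Continuous fun y => act (a y) (c y) (b y) :=
  ((Complex.continuous_re.comp hc).smul hb).add
    ((Complex.continuous_im.comp hc).smul (cont_cr ha hb))

theorem dt_pos_near {a b : V} {m ε : ℝ} (ha : m ≤ dt a a) (hb : m ≤ dt b b) (h : dist a b < ε)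
    (hε : 3 * ε ^ 2 < 2 * m) : 0 < dt a b := by
  rw [Prod.dist_eq, Prod.dist_eq, max_lt_iff, max_lt_iff, Real.dist_eq, Real.dist_eq,
    Real.dist_eq] at h
  obtain ⟨h1, h2, h3⟩ := h
  have e1 := sq_lt_sq' (abs_lt.1 h1).1 (abs_lt.1 h1).2
  have e2 := sq_lt_sq' (abs_lt.1 h2).1 (abs_lt.1 h2).2
  have e3 := sq_lt_sq' (abs_lt.1 h3).1 (abs_lt.1 h3).2
  unfold dt at *
  nlinarith

/-- stepwise projection -/
def stp (n : ℂ × ℝ → V) (u0 : V) (R : ℝ) (N : ℕ) (z : ℂ) (t : ℝ) : ℕ → V
  | 0 => u0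
  | k + 1 => pj (n (z, -R + t * ((k + 1 : ℕ) / N))) (stp n u0 R N z t k)

theorem pre_out (R : ℝ) : IsPreconnected {z : ℂ | R ≤ ‖z‖} := by
  have h : {z : ℂ | R ≤ ‖z‖}
      = (fun p : ℝ × ℝ => (p.1 : ℂ) * Complex.exp (p.2 * Complex.I)) '' (Ici R ×ˢ univ) := by
    ext z
    constructor
    · intro hz
      exact ⟨(‖z‖, z.arg), ⟨hz, trivial⟩, Complex.norm_mul_exp_arg_mul_I z⟩
    · rintro ⟨p, ⟨hp, -⟩, rfl⟩
      have hp' : R ≤ p.1 := hp
      simp only [mem_ofPred_eq, norm_mul, Complex.norm_exp_ofReal_mul_I, Complex.norm_real,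
        mul_one, Real.norm_eq_abs]
      exact hp'.trans (le_abs_self _)
  rw [h]
  exact (isPreconnected_Ici.prod isPreconnected_univ).image _ (by fun_prop)

theorem core (n : ℂ × ℝ → V) (hn : Continuous n) (hne : ∀ y, 0 < dt (n y) (n y)) (n0 : V)
    (h0 : dt n0 n0 = 1) (R : ℝ) (hR : 0 < R) (hout : ∀ y, R ≤ ‖y‖ → n y = n0) :
    ∃ (u0 : V) (u : ℂ × ℝ → V), dt u0 u0 = 1 ∧ dt u0 n0 = 0 ∧ Continuous u ∧
      (∀ y, 0 < dt (u y) (u y) ∧ dt (u y) (n y) = 0) ∧ ∀ y, R ≤ ‖y‖ → u y = u0 := by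
  obtain ⟨u0, hu0, hun⟩ := exists_perp n0
  have ho1 : ∀ (z : ℂ) (s : ℝ), R ≤ ‖z‖ → n (z, s) = n0 := fun z s h =>
    hout _ (h.trans (le_max_left _ _))
  have ho2 : ∀ (z : ℂ) (s : ℝ), R ≤ |s| → n (z, s) = n0 := fun z s h =>
    hout _ (h.trans (le_max_right _ _))
  obtain ⟨m, hm, hlow⟩ : ∃ m : ℝ, 0 < m ∧ ∀ y, m ≤ dt (n y) (n y) := by
    obtain ⟨y0, -, hy0⟩ := (isCompact_closedBall (0 : ℂ × ℝ) R).exists_isMinOn
      ⟨0, mem_closedBall_self hR.le⟩ (cont_dt hn hn).continuousOn
    refine ⟨min 1 (dt (n y0) (n y0)), lt_min one_pos (hne _), fun y => ?_⟩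
    by_cases hy : R ≤ ‖y‖
    · rw [hout y hy, h0]; exact min_le_left _ _
    · exact (min_le_right _ _).trans (hy0 (mem_closedBall_zero_iff.2 (not_le.1 hy).le))
  have huc : UniformContinuous n := by
    have h1 : HasCompactSupport fun y => n y - n0 :=
      HasCompactSupport.intro (isCompact_closedBall (0 : ℂ × ℝ) R) fun y hy => by
        rw [hout y (not_le.1 (mt mem_closedBall_zero_iff.2 hy)).le, sub_self]
    have h2 := (h1.uniformContinuous_of_continuous (hn.sub continuous_const)).add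
      (uniformContinuous_const (b := n0))
    simpa using h2
  obtain ⟨δ, hδ, hu⟩ := Metric.uniformContinuous_iff.1 huc (√m / 2) (by positivity)
  have hε : 3 * (√m / 2) ^ 2 < 2 * m := by
    rw [div_pow, Real.sq_sqrt hm.le]; linarith
  obtain ⟨N, hN⟩ := exists_nat_gt (2 * R / δ)
  have hN0 : (0 : ℝ) < N := lt_trans (by positivity) hN
  have hstep : 2 * R / N < δ := by
    rw [div_lt_iff₀ hN0]; rw [div_lt_iff₀ hδ] at hN; linarith
  have hA : ∀ (z : ℂ) (t : ℝ), 0 ≤ t → t ≤ 2 * R → ∀ k : ℕ,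
      0 < dt (stp n u0 R N z t k) (stp n u0 R N z t k) ∧
        dt (stp n u0 R N z t k) (n (z, -R + t * ((k : ℕ) / N))) = 0 := by
    intro z t ht0 ht1 k
    induction k with
    | zero =>
      refine ⟨by simp [stp, hu0], ?_⟩
      rw [ho2 z _ (by simp [abs_of_pos hR])]
      exact hun
    | succ k ih =>
      refine ⟨pj_pos ih.1 ih.2 (dt_pos_near (hlow _) (hlow _) (hu ?_) hε), dt_pj _ _⟩
      rw [Prod.dist_eq, dist_self, Real.dist_eq, max_lt_iff]
      refine ⟨hδ, lt_of_le_of_lt ?_ hstep⟩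
      have : -R + t * ((k : ℝ) / N) - (-R + t * (((k + 1 : ℕ) : ℝ) / N)) = -(t / N) := by
        push_cast; ring
      rw [this, abs_neg, abs_of_nonneg (by positivity)]
      gcongr
  have hB : ∀ (z : ℂ) (t : ℝ), (R ≤ ‖z‖ ∨ t = 0) → ∀ k : ℕ, stp n u0 R N z t k = u0 := by
    intro z t h k
    induction k with
    | zero => rfl
    | succ k ih =>
      have : n (z, -R + t * (((k + 1 : ℕ) : ℝ) / N)) = n0 := by
        rcases h with h | h
        · exact ho1 _ _ h
        · exact ho2 _ _ (by simp [h, abs_of_pos hR])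
      rw [stp, ih, this, pj_self h0 hun]
  have hC : ∀ k : ℕ, Continuous fun p : ℂ × ℝ => stp n u0 R N p.1 p.2 k := by
    intro k
    induction k with
    | zero => exact continuous_const
    | succ k ih => exact cont_pj (hn.comp (by fun_prop)) ih
  have hNN : ((N : ℕ) : ℝ) / N = 1 := div_self hN0.ne'
  have htop : ∀ z : ℂ, dt (stp n u0 R N z (2 * R) N) n0 = 0 := fun z => by
    have := (hA z (2 * R) (by positivity) le_rfl N).2
    rwa [hNN, ho2 z _ (by rw [show -R + 2 * R * 1 = R by ring, abs_of_pos hR])] at this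
  set g : ℂ → ℂ := fun z => co n0 u0 (stp n u0 R N z (2 * R) N) with hg
  have hgc : Continuous g := by
    have h1 : Continuous fun z : ℂ => stp n u0 R N z (2 * R) N :=
      (hC N).comp (continuous_id.prodMk continuous_const)
    have h2 : g = fun z => ((dt (stp n u0 R N z (2 * R) N) u0 : ℝ) : ℂ)
        + ((dt (stp n u0 R N z (2 * R) N) (cr n0 u0) : ℝ) : ℂ) * Complex.I := by
      funext z; apply Complex.ext <;> simp [hg, co]
    rw [h2]
    exact (Complex.continuous_ofReal.comp (cont_dt h1 continuous_const)).add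
      ((Complex.continuous_ofReal.comp (cont_dt h1 continuous_const)).mul continuous_const)
  have hga : ∀ z, act n0 (g z) u0 = stp n u0 R N z (2 * R) N := fun z =>
    act_co h0 hu0 hun (htop z)
  have hg0 : ∀ z, g z ≠ 0 := fun z h => by
    have h1 := (hA z (2 * R) (by positivity) le_rfl N).1
    rw [← hga, h] at h1
    simp [act, dt] at h1
  have hg1 : ∀ z, R ≤ ‖z‖ → g z = 1 := fun z h => by
    simp only [hg]
    rw [hB z _ (Or.inl h)]
    apply Complex.ext
    · simpa [co] using hu0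
    · simp only [co, dt, cr, Complex.one_im]; ring
  have hsc : IsSimplyConnected (univ : Set ℂ) :=
    (Homeomorph.Set.univ ℂ).toHomotopyEquiv.simplyConnectedSpace
  obtain ⟨f, hfc, hf⟩ := Complex.exists_continuousOn_eqOn_exp_comp hsc isOpen_univ
    hgc.continuousOn (by rintro ⟨z, -, hz⟩; exact hg0 z hz)
  have hfc' : Continuous f := continuousOn_univ.1 hfc
  have hf' : ∀ z, Complex.exp (f z) = g z := fun z => hf (mem_univ z)
  have hRm : ((R : ℝ) : ℂ) ∈ {z : ℂ | R ≤ ‖z‖} := by simp [abs_of_pos hR]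
  have hconst : ∀ z, R ≤ ‖z‖ → f z = f R := fun z hz => by
    refine (countable_singleton (1 : ℂ)).preimage_cexp.isTotallyDisconnected _ ?_
      ((pre_out R).image f hfc'.continuousOn) (mem_image_of_mem f hz) (mem_image_of_mem f hRm)
    rintro _ ⟨w, hw, rfl⟩
    simpa [hf'] using hg1 w hw
  have hfR : Complex.exp (f R) = 1 := by rw [hf']; exact hg1 _ hRm
  let τ : ℝ → ℝ := fun s => max 0 (min (2 * R) (s + R))
  have hτc : Continuous τ := by fun_prop
  have hτ0 : ∀ s, 0 ≤ τ s := fun s => le_max_left _ _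
  have hτ1 : ∀ s, τ s ≤ 2 * R := fun s => max_le (by positivity) (min_le_left _ _)
  have hτn : ∀ (z : ℂ) (s : ℝ), n (z, -R + τ s * ((N : ℕ) / N)) = n (z, s) := fun z s => by
    rw [hNN, mul_one]
    rcases le_total s (-R) with h | h
    · have : τ s = 0 := max_eq_left ((min_le_right _ _).trans (by linarith))
      rw [this, ho2 z s (by rw [abs_of_nonpos (by linarith)]; linarith),
        ho2 z _ (by simp [abs_of_pos hR])]
    · rcases le_total R s with h' | h'
      · have : τ s = 2 * R := by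
          simp only [τ]; rw [min_eq_left (by linarith), max_eq_right (by positivity)]
        rw [this, ho2 z s (h'.trans (le_abs_self _)),
          ho2 z _ (by rw [show -R + 2 * R = R by ring, abs_of_pos hR])]
      · have : τ s = s + R := by
          simp only [τ]; rw [min_eq_right (by linarith), max_eq_right (by linarith)]
        rw [this, show -R + (s + R) = s by ring]
  refine ⟨u0, fun y => act (n y) (Complex.exp (-((τ y.2 / (2 * R) : ℝ) : ℂ) * (f y.1 - f R)))
    (stp n u0 R N y.1 (τ y.2) N), hu0, hun, ?_, fun y => ?_, fun y hy => ?_⟩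
  · refine cont_act hn (by fun_prop) ?_
    exact (hC N).comp (continuous_fst.prodMk (hτc.comp continuous_snd))
  · obtain ⟨h1, h2⟩ := hA y.1 (τ y.2) (hτ0 _) (hτ1 _) N
    rw [hτn] at h2
    exact ⟨act_pos (Complex.exp_ne_zero _) (hne y) h1 h2, by rw [dt_act, h2, mul_zero]⟩
  · rcases le_max_iff.1 (show R ≤ max ‖y.1‖ ‖y.2‖ from hy) with h | h
    · simp only [hconst _ h, sub_self, mul_zero, Complex.exp_zero, act_one]
      exact hB _ _ (Or.inl h) N
    · rcases le_abs.1 (show R ≤ |y.2| from h) with h | h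
      · have : τ y.2 = 2 * R := by
          simp only [τ]; rw [min_eq_left (by linarith), max_eq_right (by positivity)]
        simp only [this, hout y hy]
        rw [← hga, act_act h0 hun, ← hf', div_self (by positivity), ← Complex.exp_add]
        simp [hfR, act_one]
      · have : τ y.2 = 0 := max_eq_left ((min_le_right _ _).trans (by linarith))
        simp only [this]
        rw [hB _ _ (Or.inr rfl) N]
        simp [act_one]

/-- the ambient space -/
abbrev E4 : Type := EuclideanSpace ℝ (Fin 4)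

/-- the three-sphere -/
abbrev S3 : Type := Metric.sphere (0 : E4) 1

theorem pos_of_dt {a b : V} (h : 0 < dt a b) : 0 < dt a a := by
  rcases (dt_nonneg a).lt_or_eq with h4 | h4
  · exact h4
  · have h1 := dt_nonneg (cr b a)
    rw [dt_cr, ← h4] at h1
    nlinarith

theorem sec (n : S3 → V) (hn : Continuous n) (hne : ∀ x, 0 < dt (n x) (n x)) :
    ∃ u : S3 → V, Continuous u ∧ ∀ x, 0 < dt (cr (n x) (u x)) (cr (n x) (u x)) := by
  classical
  let v : S3 := ⟨EuclideanSpace.single 0 1, by simp⟩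
  obtain ⟨e, hs, ht⟩ : ∃ e : OpenPartialHomeomorph S3 (EuclideanSpace ℝ (Fin 3)),
      e.source = {v}ᶜ ∧ e.target = univ :=
    haveI : Fact (Module.finrank ℝ E4 = 3 + 1) := ⟨by simp⟩
    ⟨stereographic' 3 v, by simp, by simp⟩
  let L : EuclideanSpace ℝ (Fin 3) ≃L[ℝ] ℂ × ℝ := ContinuousLinearEquiv.ofFinrankEq (by simp)
  let ψ : ℂ × ℝ → S3 := fun y => e.symm (L.symm y)
  let c : S3 → ℂ × ℝ := fun x => L (e x)
  have hψ : Continuous ψ := by
    have : Continuous e.symm := by
      rw [← continuousOn_univ, ← ht]; exact e.continuousOn_symm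
    exact this.comp L.symm.continuous
  have hc : ContinuousOn c {v}ᶜ := L.continuous.comp_continuousOn (hs ▸ e.continuousOn)
  have hψc : ∀ x, x ≠ v → ψ (c x) = x := fun x hx => by
    simp only [ψ, c, L.symm_apply_apply]
    exact e.left_inv (by rw [hs]; exact hx)
  have hcψ : ∀ y, c (ψ y) = y := fun y => by
    simp only [ψ, c]
    rw [e.right_inv (by rw [ht]; trivial), L.apply_symm_apply]
  have hψv : ∀ y, ψ y ≠ v := fun y => by
    have : ψ y ∈ e.source := e.map_target (by rw [ht]; trivial)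
    rwa [hs] at this
  set α : ℝ := √(dt (n v) (n v)) with hα
  have hα0 : 0 < α := Real.sqrt_pos.2 (hne v)
  have hα2 : α * α = dt (n v) (n v) := Real.mul_self_sqrt (hne v).le
  set n0 : V := α⁻¹ • n v with hn0
  have hv1 : dt (n v) n0 = α := by
    have : dt (n v) n0 = α⁻¹ * dt (n v) (n v) := by
      simp only [hn0, dt, Prod.smul_fst, Prod.smul_snd, smul_eq_mul]; ring
    rw [this, ← hα2]; field_simp
  have h0 : dt n0 n0 = 1 := by
    have : dt n0 n0 = α⁻¹ * α⁻¹ * dt (n v) (n v) := by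
      simp only [hn0, dt, Prod.smul_fst, Prod.smul_snd, smul_eq_mul]; ring
    rw [this, ← hα2]; field_simp
  have ha : Continuous fun x => dt (n x) n0 := cont_dt hn continuous_const
  let χ : S3 → ℝ := fun x => max 0 (min 1 ((4 * dt (n x) n0 - 2 * α) / α))
  have hχc : Continuous χ :=
    continuous_const.max (continuous_const.min
      (((continuous_const.mul ha).sub continuous_const).div_const _))
  have hχ1 : ∀ x, 3 * α / 4 ≤ dt (n x) n0 → χ x = 1 := fun x hx => by
    simp only [χ]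
    rw [min_eq_left (by rw [le_div_iff₀ hα0]; linarith), max_eq_right zero_le_one]
  let n' : S3 → V := fun x => (1 - χ x) • n x + χ x • n0
  have hn' : Continuous n' :=
    ((continuous_const.sub hχc).smul hn).add (hχc.smul continuous_const)
  have hn1 : ∀ x, 3 * α / 4 ≤ dt (n x) n0 → n' x = n0 := fun x hx => by
    simp [n', hχ1 x hx]
  have hpos : ∀ x, 0 < dt (n' x) (n x) := fun x => by
    have e1 : dt (n' x) (n x) = (1 - χ x) * dt (n x) (n x) + χ x * dt (n x) n0 := by
      simp only [n', dt, Prod.fst_add, Prod.snd_add, Prod.smul_fst, Prod.smul_snd, smul_eq_mul]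
      ring
    have e2 : χ x ≤ 1 := max_le zero_le_one (min_le_left _ _)
    rw [e1]
    rcases (le_max_left 0 _ : 0 ≤ χ x).lt_or_eq with h | h
    · have h3 : 0 < (4 * dt (n x) n0 - 2 * α) / α :=
        ((lt_max_iff.1 h).resolve_left (lt_irrefl _)).trans_le (min_le_right _ _)
      have h4 : 0 < dt (n x) n0 := by
        have := (div_pos_iff_of_pos_right hα0).1 h3
        linarith
      have := mul_nonneg (sub_nonneg.2 e2) (hne x).le
      have := mul_pos h h4
      linarith
    · have h' : χ x = 0 := h.symm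
      rw [h']; simpa using hne x
  have hK : IsCompact (c '' {x | dt (n x) n0 ≤ 3 * α / 4}) := by
    refine (isClosed_le ha continuous_const).isCompact.image_of_continuousOn (hc.mono ?_)
    rintro x hx rfl
    have hx' : dt (n v) n0 ≤ 3 * α / 4 := hx
    rw [hv1] at hx'; linarith
  obtain ⟨R, hR, hRK⟩ := hK.isBounded.subset_ball_lt 0 0
  obtain ⟨u0, u, hu0, hun, huc, hu, hout⟩ := core (fun y => n' (ψ y)) (hn'.comp hψ)
    (fun y => pos_of_dt (hpos _)) n0 h0 R hR fun y hy => hn1 _ (by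
      by_contra hlt
      have := hRK (mem_image_of_mem c (show ψ y ∈ {x | dt (n x) n0 ≤ 3 * α / 4} from
        (not_le.1 hlt).le))
      rw [hcψ, mem_ball_zero_iff] at this
      linarith)
  refine ⟨fun x => if x = v then u0 else u (c x), ?_, fun x => ?_⟩
  · rw [continuous_iff_continuousAt]
    intro x
    by_cases hx : x = v
    · have hK2 : IsClosed (ψ '' closedBall 0 R) :=
        ((isCompact_closedBall _ _).image hψ).isClosed
      have hxK : x ∈ (ψ '' closedBall 0 R)ᶜ := by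
        rintro ⟨y, -, hy⟩; exact hψv y (hy.trans hx)
      refine (continuousAt_const (y := u0)).congr ?_
      filter_upwards [hK2.isOpen_compl.mem_nhds hxK] with z hz
      by_cases hzv : z = v
      · simp [hzv]
      · rw [if_neg hzv, hout]
        by_contra hlt
        exact hz ⟨c z, mem_closedBall_zero_iff.2 (not_le.1 hlt).le, hψc z hzv⟩
    · have hnb : ({v}ᶜ : Set S3) ∈ 𝓝 x := isOpen_compl_singleton.mem_nhds hx
      refine (huc.continuousAt.comp (hc.continuousAt hnb)).congr ?_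
      filter_upwards [hnb] with z hz
      exact (if_neg hz).symm
  · by_cases hx : x = v
    · simp only [if_pos hx]
      refine cr_pos (m := n' x) (by rw [hu0]; exact one_pos) ?_ (hpos x)
      rw [hn1 x (by rw [hx, hv1]; linarith), hun]
    · simp only [if_neg hx]
      have := hu (c x)
      simp only [hψc x hx] at this
      exact cr_pos this.1 this.2 (hpos x)

/-- tangent vector at `x` with coordinates `a` in the quaternion frame -/
def tv (x : E4) (a : V) : E4 :=
  !₂[-a.1 * x 1 - a.2.1 * x 2 - a.2.2 * x 3, a.1 * x 0 + a.2.1 * x 3 - a.2.2 * x 2,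
    -a.1 * x 3 + a.2.1 * x 0 + a.2.2 * x 1, a.1 * x 2 - a.2.1 * x 1 + a.2.2 * x 0]

/-- coordinates of `w` in the quaternion frame at `x` -/
def tc (x w : E4) : V :=
  (-w 0 * x 1 + w 1 * x 0 - w 2 * x 3 + w 3 * x 2, -w 0 * x 2 + w 1 * x 3 + w 2 * x 0 - w 3 * x 1,
    -w 0 * x 3 - w 1 * x 2 + w 2 * x 1 + w 3 * x 0)

theorem det_tv (x w : E4) (a b : V) :
    (Matrix.of ![(x : Fin 4 → ℝ), w, tv x a, tv x b]).det
      = (x 0 ^ 2 + x 1 ^ 2 + x 2 ^ 2 + x 3 ^ 2) * dt (cr (tc x w) a) b := by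
  simp [Matrix.det_succ_row_zero, Fin.sum_univ_succ, Fin.succAbove, tv, tc, dt, cr]
  ring

theorem perp_tv (x : E4) (a : V) : ⟪x, tv x a⟫ = 0 := by
  simp [PiLp.inner_apply, Fin.sum_univ_four, tv]
  ring

theorem sq_one (x : S3) : x.1 0 ^ 2 + x.1 1 ^ 2 + x.1 2 ^ 2 + x.1 3 ^ 2 = 1 := by
  have h : ‖x.1‖ ^ 2 = 1 := by simp
  rw [EuclideanSpace.norm_sq_eq] at h
  simpa [Fin.sum_univ_four] using h

theorem tc_pos (x : S3) (w : E4) (h : ⟪x.1, w⟫ = 0) (hw : w ≠ 0) :
    0 < dt (tc x w) (tc x w) := by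
  have key : dt (tc x w) (tc x w) = (x.1 0 ^ 2 + x.1 1 ^ 2 + x.1 2 ^ 2 + x.1 3 ^ 2) * ‖w‖ ^ 2
      - ⟪x.1, w⟫ ^ 2 := by
    rw [EuclideanSpace.norm_sq_eq]
    simp [PiLp.inner_apply, Fin.sum_univ_four, tc, dt]
    ring
  rw [key, sq_one, h]
  have := norm_pos_iff.2 hw
  simpa using by positivity

theorem smooth_tv {a : E4 → V} (ha : ContDiff ℝ (⊤ : ℕ∞) a) :
    ContDiff ℝ (⊤ : ℕ∞) fun x => tv x (a x) := by
  rw [contDiff_euclidean]
  intro i
  have h : ∀ j : Fin 4, ContDiff ℝ (⊤ : ℕ∞) fun x : E4 => x j := fun j =>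
    contDiff_euclidean.1 contDiff_id j
  have h0 := h 0
  have h1 := h 1
  have h2 := h 2
  have h3 := h 3
  fin_cases i <;> simp [tv] <;> fun_prop

/-- the frame: smooth, orthogonal to the position vector everywhere -/
theorem frame (X : S3 → E4) (hc : Continuous X) (perp : ∀ x : S3, ⟪(x : E4), X x⟫ = 0)
    (hne : ∀ x, X x ≠ 0) :
    ∃ Z1 Z2 : E4 → E4, ContDiff ℝ (⊤ : ℕ∞) Z1 ∧ ContDiff ℝ (⊤ : ℕ∞) Z2 ∧
      (∀ x, ⟪x, Z1 x⟫ = 0) ∧ (∀ x, ⟪x, Z2 x⟫ = 0) ∧ ∃ m0 : ℝ, 0 < m0 ∧ ∀ x : S3,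
        m0 ≤ (Matrix.of ![((x : E4) : Fin 4 → ℝ), X x, Z1 x, Z2 x]).det := by
  have hn : Continuous fun x : S3 => tc x (X x) := by
    unfold tc; fun_prop
  obtain ⟨u, huc, hu⟩ := sec _ hn fun x => tc_pos x _ (perp x) (hne x)
  have hw := cont_cr hn huc
  have hF : Continuous fun q : (V × V) × S3 =>
      dt (cr (tc q.2 (X q.2)) (u q.2 + q.1.1)) (cr (tc q.2 (X q.2)) (u q.2) + q.1.2) :=
    cont_dt (cont_cr (hn.comp continuous_snd) (by fun_prop))
      ((hw.comp continuous_snd).add (by fun_prop))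
  have hev : ∀ᶠ p : V × V in 𝓝 0, ∀ x ∈ (univ : Set S3),
      0 < dt (cr (tc x (X x)) (u x + p.1)) (cr (tc x (X x)) (u x) + p.2) :=
    isCompact_univ.eventually_forall_of_forall_eventually fun x _ =>
      continuousAt_const.eventually_lt hF.continuousAt (by simpa using hu x)
  obtain ⟨ε, hε, hball⟩ := Metric.eventually_nhds_iff.1 hev
  obtain ⟨G, hG⟩ := ContinuousMap.exists_restrict_eq (Y := V × V)
    (isClosed_sphere (x := (0 : E4)) (ε := 1)) ⟨fun x => (u x, cr (tc x (X x)) (u x)), huc.prodMk hw⟩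
  obtain ⟨g, hg, hgG, -⟩ := G.continuous.exists_contDiff_approx (⊤ : ℕ∞)
    (continuous_const (y := ε)) fun _ => hε
  have hpos : ∀ x : S3, 0 < dt (cr (tc x (X x)) (g x).1) (g x).2 := fun x => by
    have h1 : G x = (u x, cr (tc x (X x)) (u x)) := DFunLike.congr_fun hG x
    have h2 := hball (y := g x - G x) (by simpa [dist_eq_norm] using hgG x) x trivial
    simpa [h1] using h2
  have hgc : Continuous fun x : S3 => g x := hg.continuous.comp continuous_subtype_val
  obtain ⟨x0, -, hx0⟩ := isCompact_univ.exists_isMinOn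
    ⟨(⟨EuclideanSpace.single 0 1, by simp⟩ : S3), trivial⟩
    (cont_dt (cont_cr hn hgc.fst) hgc.snd).continuousOn
  refine ⟨fun x => tv x (g x).1, fun x => tv x (g x).2, smooth_tv hg.fst, smooth_tv hg.snd,
    fun x => perp_tv _ _, fun x => perp_tv _ _, _, hpos x0, fun x => ?_⟩
  rw [det_tv, sq_one, one_mul]
  exact hx0 (mem_univ x)

end Pool.Agent.Lib.MP_399f8e_an.Fr
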