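import Pool.Agent.Lib.MP_399f8e_an.Lk.ADefs

open Set Filter Topology Metric MeasureTheory
open scoped RealInnerProductSpace

noncomputable section

namespace Pool.Agent.Lib.MP_399f8e_an.Lk

open Rg

variable {X : S → E} {η M : ℝ}

namespace AKerAux

theorem abs_coord (x : E) (i : Fin 4) : |x i| ≤ ‖x‖ := PiLp.norm_apply_le x i

theorem base_pos {c u : ℝ} (hc : c < 1) (hu : u ∈ Icc (0 : ℝ) 1) :
    0 < (1 - u) ^ 2 + u ^ 2 - 2 * u * (1 - u) * c := by
  have e : (1 - u) ^ 2 + u ^ 2 - 2 * u * (1 - u) * c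
      = (1 - 2 * u) ^ 2 + 2 * (u * (1 - u)) * (1 - c) := by ring
  rw [e]
  have h1 : 0 < 1 - c := by linarith
  have h2 : 0 ≤ u * (1 - u) := mul_nonneg hu.1 (by linarith [hu.2])
  rcases h2.eq_or_lt with h | h
  · have : (1 - 2 * u) ^ 2 = 1 := by linear_combination 4 * h
    rw [this, ← h]
    norm_num
  · positivity

theorem cont_ker {c : ℝ} (hc : c < 1) : ContinuousOn
    (fun u : ℝ => u * (1 - u) / ((1 - u) ^ 2 + u ^ 2 - 2 * u * (1 - u) * c) ^ 2) (Icc 0 1) :=
  ContinuousOn.div (by fun_prop) (by fun_prop) fun _ hu => (pow_pos (base_pos hc hu) 2).ne'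

theorem ker_le {s u : ℝ} (h0 : 0 < s) (h1 : s ≤ 1) (hu : u ∈ Icc (0 : ℝ) 1) :
    u * (1 - u) / ((1 - u) ^ 2 + u ^ 2 - 2 * u * (1 - u) * (1 - 2 * s ^ 2)) ^ 2
      ≤ 1 / s ^ 2 * (1 / (s ^ 2 + (2 * u - 1) ^ 2)) := by
  have hs : 0 < s ^ 2 := by positivity
  have hs1 : s ^ 2 ≤ 1 := by nlinarith
  have hA : 0 ≤ (2 * u - 1) ^ 2 := sq_nonneg _
  have hA1 : (2 * u - 1) ^ 2 ≤ 1 := by nlinarith [hu.1, hu.2]
  have e0 : (1 - u) ^ 2 + u ^ 2 - 2 * u * (1 - u) * (1 - 2 * s ^ 2)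
      = (2 * u - 1) ^ 2 + s ^ 2 - (2 * u - 1) ^ 2 * s ^ 2 := by ring
  have e2 : u * (1 - u) ≤ 1 / 4 := by nlinarith
  rw [e0]
  clear e0
  generalize (2 * u - 1) ^ 2 = A at *
  generalize s ^ 2 = e at *
  have b1 : e ≤ A + e - A * e := by nlinarith
  have b2 : (e + A) / 2 ≤ A + e - A * e := by nlinarith
  have b3 : e * ((e + A) / 2) ≤ (A + e - A * e) ^ 2 := by
    rw [sq]
    exact mul_le_mul b1 b2 (by positivity) (hs.le.trans b1)
  have b4 : 0 < e * ((e + A) / 2) := by positivity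
  calc u * (1 - u) / (A + e - A * e) ^ 2 ≤ 1 / 4 / (e * ((e + A) / 2)) :=
        div_le_div₀ (by norm_num) e2 b4 b3
    _ = 1 / 2 * (1 / e * (1 / (e + A))) := by field_simp; norm_num
    _ ≤ 1 / e * (1 / (e + A)) := by
        have : 0 ≤ 1 / e * (1 / (e + A)) := by positivity
        linarith

theorem int_le {s : ℝ} (h0 : 0 < s) :
    ∫ u in (0 : ℝ)..1, 1 / (s ^ 2 + (2 * u - 1) ^ 2) ≤ 2 / s := by
  have hd : ∀ u ∈ uIcc (0 : ℝ) 1, HasDerivAt (fun u : ℝ => Real.arctan ((2 * u - 1) / s) / (2 * s))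
      (1 / (s ^ 2 + (2 * u - 1) ^ 2)) u := by
    intro u _
    have h1 : HasDerivAt (fun u : ℝ => (2 * u - 1) / s) (2 / s) u := by
      simpa using (((hasDerivAt_id u).const_mul 2).sub_const 1).div_const s
    have h2 := (h1.arctan).div_const (2 * s)
    refine h2.congr_deriv ?_
    field_simp
  have hc : Continuous fun u : ℝ => 1 / (s ^ 2 + (2 * u - 1) ^ 2) :=
    continuous_const.div (by fun_prop) fun u => by positivity
  rw [intervalIntegral.integral_eq_sub_of_hasDerivAt hd (hc.intervalIntegrable _ _), ← sub_div,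
    div_le_div_iff₀ (by positivity) h0]
  have a1 := Real.arctan_lt_pi_div_two ((2 * 1 - 1) / s)
  have a2 := Real.neg_pi_div_two_lt_arctan ((2 * 0 - 1) / s)
  have a3 := Real.pi_le_four
  nlinarith

theorem gaussK_le' {s : ℝ} (h0 : 0 < s) (h1 : s ≤ 1) : gaussK (1 - 2 * s ^ 2) ≤ 2 / s ^ 3 := by
  have hc : Continuous fun u : ℝ => 1 / (s ^ 2 + (2 * u - 1) ^ 2) :=
    continuous_const.div (by fun_prop) fun u => by positivity
  have hlt : 1 - 2 * s ^ 2 < 1 := by nlinarith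
  calc gaussK (1 - 2 * s ^ 2)
      ≤ ∫ u in (0 : ℝ)..1, 1 / s ^ 2 * (1 / (s ^ 2 + (2 * u - 1) ^ 2)) :=
        intervalIntegral.integral_mono_on zero_le_one
          ((cont_ker hlt).intervalIntegrable_of_Icc zero_le_one)
          ((continuous_const.mul hc).intervalIntegrable _ _) fun u hu => ker_le h0 h1 hu
    _ ≤ 1 / s ^ 2 * (2 / s) := by
        rw [intervalIntegral.integral_const_mul]
        exact mul_le_mul_of_nonneg_left (int_le h0) (by positivity)
    _ = 2 / s ^ 3 := by field_simp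

theorem inner_eq (x y : S) : ⟪(x : E), y⟫ = 1 - 2 * (‖(x : E) - y‖ / 2) ^ 2 := by
  have := norm_sub_sq_real (x : E) y
  rw [norm_coe, norm_coe] at this
  linear_combination (1 / 2) * this

theorem dist_pos {x y : S} (h : x ≠ y) : 0 < ‖(x : E) - y‖ :=
  norm_pos_iff.2 (sub_ne_zero.2 fun a => h (Subtype.ext a))

theorem vol_sub (x v y w : E) : vol x v y w = vol x v (y - x) w := by
  simp only [vol_eq, PiLp.sub_apply]
  ring

theorem Gk_diff (x y v w v' w' : E) :
    Gk x v y w - Gk x v' y w' = Gk x (v - v') y w + Gk x v' y (w - w') := by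
  simp only [Gk, vol_eq, PiLp.sub_apply]
  ring

end AKerAux

open AKerAux

theorem vol_swap (x v y w : E) : vol y w x v = vol x v y w := by
  simp only [vol_eq]
  ring

/-- Each of the 24 products is at most the product of the norms. -/
theorem abs_vol_le (x u v w : E) : |vol x u v w| ≤ 24 * (‖x‖ * ‖u‖ * ‖v‖ * ‖w‖) := by
  have h : ∀ i j k l, -(‖x‖ * ‖u‖ * ‖v‖ * ‖w‖) ≤ x i * u j * v k * w l ∧
      x i * u j * v k * w l ≤ ‖x‖ * ‖u‖ * ‖v‖ * ‖w‖ := fun i j k l => abs_le.1 (by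
    rw [abs_mul, abs_mul, abs_mul]
    gcongr <;> exact abs_coord _ _)
  rw [vol_eq, abs_le]
  constructor <;>
    linarith [(h 0 1 2 3).1, (h 0 1 2 3).2, (h 0 1 3 2).1, (h 0 1 3 2).2, (h 0 2 1 3).1,
      (h 0 2 1 3).2, (h 0 2 3 1).1, (h 0 2 3 1).2, (h 0 3 1 2).1, (h 0 3 1 2).2,
      (h 0 3 2 1).1, (h 0 3 2 1).2, (h 1 0 2 3).1, (h 1 0 2 3).2, (h 1 0 3 2).1,
      (h 1 0 3 2).2, (h 1 2 0 3).1, (h 1 2 0 3).2, (h 1 2 3 0).1, (h 1 2 3 0).2,
      (h 1 3 0 2).1, (h 1 3 0 2).2, (h 1 3 2 0).1, (h 1 3 2 0).2, (h 2 0 1 3).1,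
      (h 2 0 1 3).2, (h 2 0 3 1).1, (h 2 0 3 1).2, (h 2 1 0 3).1, (h 2 1 0 3).2,
      (h 2 1 3 0).1, (h 2 1 3 0).2, (h 2 3 0 1).1, (h 2 3 0 1).2, (h 2 3 1 0).1,
      (h 2 3 1 0).2, (h 3 0 1 2).1, (h 3 0 1 2).2, (h 3 0 2 1).1, (h 3 0 2 1).2,
      (h 3 1 0 2).1, (h 3 1 0 2).2, (h 3 1 2 0).1, (h 3 1 2 0).2, (h 3 2 0 1).1,
      (h 3 2 0 1).2, (h 3 2 1 0).1, (h 3 2 1 0).2]

theorem continuous_vol : Continuous fun p : E × E × E × E => vol p.1 p.2.1 p.2.2.1 p.2.2.2 := by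
  simp only [vol_eq]
  fun_prop

/-- With `d = ‖x - y‖`, `⟪x, y⟫ = 1 - d ^ 2 / 2`, `A = (1 - 2 u) ^ 2`, the base of the denominator is
`A + (1 - A) d ^ 2 / 4 ≥ max A (d ^ 2 / 4)`, and `u (1 - u) ≤ 1 / 4`. (Any route: for instance the
base is at least half of `A + d ^ 2 / 4`, and an arctangent or a crude splitting at
`|1 - 2 u| = d / 2` finishes.) -/
theorem gaussK_le (x y : S) (h : x ≠ y) :
    0 ≤ gaussK ⟪(x : E), y⟫ ∧ gaussK ⟪(x : E), y⟫ ≤ 30 / ‖(x : E) - y‖ ^ 3 := by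
  have hd := AKerAux.dist_pos h
  have h2 : ‖(x : E) - y‖ ≤ 2 := by
    have := norm_sub_le (x : E) y
    rw [norm_coe, norm_coe] at this
    linarith
  refine ⟨intervalIntegral.integral_nonneg zero_le_one fun u hu =>
    div_nonneg (mul_nonneg hu.1 (by linarith [hu.2])) (sq_nonneg _), ?_⟩
  rw [inner_eq]
  refine (gaussK_le' (by positivity) (by linarith)).trans ?_
  rw [div_pow, div_div_eq_mul_div]
  exact div_le_div_of_nonneg_right (by norm_num) (by positivity)

theorem continuousOn_gaussK : ContinuousOn gaussK (Iio 1) := by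
  rw [continuousOn_iff_continuous_domRestrict]
  obtain ⟨q, hp, hm, he⟩ : ∃ q : ℝ → ℝ, Continuous q ∧ (∀ u, q u ∈ Icc (0 : ℝ) 1) ∧
      ∀ u ∈ Icc (0 : ℝ) 1, q u = u :=
    ⟨fun u => projIcc (0 : ℝ) 1 zero_le_one u, continuous_subtype_val.comp continuous_projIcc,
      fun u => (projIcc (0 : ℝ) 1 zero_le_one u).2, fun u hu => by
        simp only [projIcc_of_mem _ hu]⟩
  have hc : Continuous fun p : Iio (1 : ℝ) × ℝ => q p.2 * (1 - q p.2) /
      ((1 - q p.2) ^ 2 + q p.2 ^ 2 - 2 * q p.2 * (1 - q p.2) * p.1) ^ 2 :=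
    Continuous.div (by fun_prop) (by fun_prop) fun p => (pow_pos (base_pos p.1.2 (hm _)) 2).ne'
  refine (intervalIntegral.continuous_parametric_intervalIntegral_of_continuous' (μ := volume)
    (f := fun (c : Iio (1 : ℝ)) (u : ℝ) => q u * (1 - q u) /
      ((1 - q u) ^ 2 + q u ^ 2 - 2 * q u * (1 - q u) * c) ^ 2) hc 0 1).congr fun c => ?_
  refine intervalIntegral.integral_congr fun u hu => ?_
  rw [uIcc_of_le zero_le_one] at hu
  simp only [he u hu]

theorem measurable_gaussK : Measurable gaussK := by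
  have hm : Measurable fun p : ℝ × ℝ =>
      p.2 * (1 - p.2) / ((1 - p.2) ^ 2 + p.2 ^ 2 - 2 * p.2 * (1 - p.2) * p.1) ^ 2 := by
    fun_prop
  have := (hm.stronglyMeasurable.integral_prod_right' (ν := volume.restrict (Ioc 0 1))).measurable
  convert this using 2 with c
  exact intervalIntegral.integral_of_le zero_le_one

theorem inner_lt_one (x y : S) (h : x ≠ y) : ⟪(x : E), y⟫ < 1 := by
  have := AKerAux.dist_pos h
  rw [inner_eq]
  have : 0 < (‖(x : E) - y‖ / 2) ^ 2 := by positivity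
  linarith

theorem Gk_symm (x v y w : E) : Gk y w x v = Gk x v y w := by
  rw [Gk, Gk, real_inner_comm, vol_swap]

theorem Gk_self (x v w : E) : Gk x v x w = 0 := by
  have : vol x v x w = 0 := by
    rw [vol_eq]
    ring
  rw [Gk, this, mul_zero]

/-- `vol x v y w = vol x v (y - x) w`. -/
theorem Gk_le (x y : S) (v w : E) :
    |Gk x v y w| ≤ 720 * (‖v‖ * ‖w‖) / ‖(x : E) - y‖ ^ 2 := by
  by_cases h : x = y
  · subst h
    rw [Gk_self, abs_zero]
    positivity
  · have hd := AKerAux.dist_pos h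
    obtain ⟨k0, k1⟩ := gaussK_le x y h
    have hv := abs_vol_le x v ((y : E) - x) w
    rw [← vol_sub, norm_coe, norm_sub_rev] at hv
    rw [Gk, abs_mul, abs_of_nonneg k0]
    refine (mul_le_mul k1 hv (abs_nonneg _) (by positivity)).trans_eq ?_
    field_simp
    ring

theorem Gk_sub (x y : S) (v w v' w' : E) : |Gk x v y w - Gk x v' y w'| ≤
    720 * (‖v - v'‖ * ‖w‖ + ‖v'‖ * ‖w - w'‖) / ‖(x : E) - y‖ ^ 2 := by
  rw [Gk_diff, mul_add, add_div]
  exact (abs_add_le _ _).trans (add_le_add (Gk_le x y _ _) (Gk_le x y _ _))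

theorem continuousAt_Gk {Z : Type} [TopologicalSpace Z] {x y : Z → S} {v w : Z → E} {z : Z}
    (hx : ContinuousAt x z) (hv : ContinuousAt v z) (hy : ContinuousAt y z)
    (hw : ContinuousAt w z) (h : x z ≠ y z) :
    ContinuousAt (fun z => Gk (x z) (v z) (y z) (w z)) z := by
  have cx : ContinuousAt (fun z => (x z : E)) z := continuous_subtype_val.continuousAt.comp hx
  have cy : ContinuousAt (fun z => (y z : E)) z := continuous_subtype_val.continuousAt.comp hy
  have c1 : ContinuousAt (fun z => gaussK ⟪(x z : E), y z⟫) z :=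
    ContinuousAt.comp (f := fun z => ⟪(x z : E), y z⟫)
      (continuousOn_gaussK.continuousAt (Iio_mem_nhds (inner_lt_one _ _ h))) (cx.inner (𝕜 := ℝ) cy)
  exact c1.mul (continuous_vol.continuousAt.comp
    (f := fun z => ((x z : E), v z, (y z : E), w z)) (cx.prodMk (hv.prodMk (cy.prodMk hw))))

theorem measurable_gg (hX : Continuous X) : Measurable (gg X) := by
  have c1 : Continuous fun p : S × S => ⟪(p.1 : E), p.2⟫ := by fun_prop
  have c2 : Continuous fun p : S × S => vol p.1 (X p.1) p.2 (X p.2) :=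
    continuous_vol.comp (f := fun p : S × S => ((p.1 : E), X p.1, (p.2 : E), X p.2)) (by fun_prop)
  exact (measurable_gaussK.comp c1.measurable).mul c2.measurable

theorem cut_mem (η : ℝ) (x y : E) : cut η x y ∈ Icc (0 : ℝ) 1 := by
  exact ⟨le_min zero_le_one (le_max_left _ _), min_le_left _ _⟩

theorem cut_zero (hη : 0 < η) {x y : E} (h : ‖x - y‖ ≤ η / 2) : cut η x y = 0 := by
  have : 2 * ‖x - y‖ / η ≤ 1 := (div_le_one hη).2 (by linarith)
  rw [cut, max_eq_left (by linarith), min_eq_right zero_le_one]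

theorem cut_one (hη : 0 < η) {x y : E} (h : η ≤ ‖x - y‖) : cut η x y = 1 := by
  have : 2 ≤ 2 * ‖x - y‖ / η := (le_div_iff₀ hη).2 (by linarith)
  exact min_eq_left (le_max_of_le_right (by linarith))

theorem continuous_cut (η : ℝ) : Continuous fun p : E × E => cut η p.1 p.2 := by
  unfold cut
  fun_prop

theorem gf_symm (X : S → E) (η : ℝ) (x y : S) : gf X η y x = gf X η x y := by
  rw [gf, gf, Gk_symm, cut, cut, norm_sub_rev]

/-- Near the diagonal the function vanishes. -/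
theorem continuous_gf (hX : Continuous X) (hη : 0 < η) :
    Continuous fun p : S × S => gf X η p.1 p.2 := by
  refine continuous_iff_continuousAt.2 fun p => ?_
  by_cases h : p.1 = p.2
  · have c : Continuous fun p : S × S => ‖(p.1 : E) - p.2‖ := by fun_prop
    have e : ∀ᶠ q : S × S in 𝓝 p, ‖(q.1 : E) - q.2‖ < η / 2 :=
      c.continuousAt.eventually_lt continuousAt_const (by rw [h, sub_self, norm_zero]; positivity)
    refine (continuousAt_const (y := (0 : ℝ))).congr ?_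
    filter_upwards [e] with q hq
    rw [gf, cut_zero hη hq.le, zero_mul]
  · have c : Continuous fun p : S × S => cut η p.1 p.2 :=
      (continuous_cut η).comp (f := fun p : S × S => ((p.1 : E), (p.2 : E))) (by fun_prop)
    exact c.continuousAt.mul (continuousAt_Gk continuousAt_fst
      (hX.comp continuous_fst).continuousAt continuousAt_snd
      (hX.comp continuous_snd).continuousAt h)

theorem gf_le (hη : 0 < η) (hM : ∀ x, ‖X x‖ ≤ M) (x y : S) :
    |gf X η x y| ≤ 2880 * M ^ 2 / η ^ 2 := by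
  rcases le_or_gt ‖(x : E) - y‖ (η / 2) with h | h
  · rw [gf, cut_zero hη h, zero_mul, abs_zero]
    positivity
  · have hM0 : 0 ≤ M := (norm_nonneg _).trans (hM x)
    have c := cut_mem η x y
    rw [gf, abs_mul, abs_of_nonneg c.1]
    refine (mul_le_of_le_one_left (abs_nonneg _) c.2).trans ((Gk_le x y _ _).trans ?_)
    calc 720 * (‖X x‖ * ‖X y‖) / ‖(x : E) - y‖ ^ 2 ≤ 720 * (M * M) / (η / 2) ^ 2 := by
          gcongr
          exacts [hM x, hM y]
      _ = 2880 * M ^ 2 / η ^ 2 := by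
          field_simp
          ring

end Pool.Agent.Lib.MP_399f8e_an.Lk
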