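import Pool.Agent.Lib.MP_399f8e_an.Lk.AFlow1

open Set Filter Topology Metric MeasureTheory
open scoped RealInnerProductSpace

noncomputable section

namespace Pool.Agent.Lib.MP_399f8e_an.Lk

open Rg

variable {X : S → E} {φ : ℝ → S → S} {m M L : ℝ}

namespace AKnot1Aux

/-- a step function with its constants -/
structure Step (b b' : ℝ → ℝ) (B : ℝ) : Prop where
  pos : 0 ≤ B
  der : ∀ u, HasDerivAt b (b' u) u
  mem : ∀ u, b u ∈ Icc (0 : ℝ) 1
  lo : ∀ u, u ≤ 0 → b u = 0 ∧ b' u = 0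
  hi : ∀ u, 1 ≤ u → b u = 1 ∧ b' u = 0
  bd : ∀ u ∈ Icc (0 : ℝ) 1, |b' u| ≤ B
  lip : ∀ u ∈ Icc (0 : ℝ) 1, ∀ v ∈ Icc (0 : ℝ) 1, |b u - b v| ≤ B * |u - v|
  lip' : ∀ u ∈ Icc (0 : ℝ) 1, ∀ v ∈ Icc (0 : ℝ) 1, |b' u - b' v| ≤ B * |u - v|

theorem exists_step : ∃ (b b' : ℝ → ℝ) (B : ℝ), Step b b' B := by
  have h2 : ContDiff ℝ ((1 : ℕ∞) + 1) Real.smoothTransition := by
    have := Real.smoothTransition.contDiff (n := 2)
    exact this
  have h1 : ContDiff ℝ 1 Real.smoothTransition := Real.smoothTransition.contDiff (n := 1)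
  have hd : ContDiff ℝ 1 (deriv Real.smoothTransition) := by
    have := (contDiff_succ_iff_deriv.1 h2).2.2
    exact this
  obtain ⟨K₁, hK₁⟩ := (h1.contDiffOn (s := Icc (0 : ℝ) 1)).exists_lipschitzOnWith one_ne_zero
    (convex_Icc _ _) isCompact_Icc
  obtain ⟨K₂, hK₂⟩ := (hd.contDiffOn (s := Icc (0 : ℝ) 1)).exists_lipschitzOnWith one_ne_zero
    (convex_Icc _ _) isCompact_Icc
  have hlo : ∀ u : ℝ, u ≤ 0 → deriv Real.smoothTransition u = 0 := by
    intro u hu
    apply IsLocalMin.deriv_eq_zero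
    refine Eventually.of_forall fun v => ?_
    rw [Real.smoothTransition.zero_of_nonpos hu]
    exact Real.smoothTransition.nonneg v
  have hhi : ∀ u : ℝ, 1 ≤ u → deriv Real.smoothTransition u = 0 := by
    intro u hu
    apply IsLocalMax.deriv_eq_zero
    refine Eventually.of_forall fun v => ?_
    rw [Real.smoothTransition.one_of_one_le hu]
    exact Real.smoothTransition.le_one v
  have k1 : (0 : ℝ) ≤ K₁ := K₁.2
  have k2 : (0 : ℝ) ≤ K₂ := K₂.2
  have l2 : ∀ u ∈ Icc (0 : ℝ) 1, ∀ v ∈ Icc (0 : ℝ) 1,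
      |deriv Real.smoothTransition u - deriv Real.smoothTransition v| ≤ (K₁ + K₂) * |u - v| := by
    intro u hu v hv
    have := hK₂.dist_le_mul u hu v hv
    rw [Real.dist_eq, Real.dist_eq] at this
    nlinarith [abs_nonneg (u - v)]
  refine ⟨Real.smoothTransition, deriv Real.smoothTransition, K₁ + K₂, by positivity,
    fun u => (h1.differentiable one_ne_zero u).hasDerivAt,
    fun u => ⟨Real.smoothTransition.nonneg u, Real.smoothTransition.le_one u⟩,
    fun u hu => ⟨Real.smoothTransition.zero_of_nonpos hu, hlo u hu⟩,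
    fun u hu => ⟨Real.smoothTransition.one_of_one_le hu, hhi u hu⟩, ?_, ?_, l2⟩
  · intro u hu
    have := l2 u hu 0 ⟨le_rfl, zero_le_one⟩
    rw [hlo 0 le_rfl, sub_zero, sub_zero, abs_of_nonneg hu.1] at this
    nlinarith [hu.2]
  · intro u hu v hv
    have := hK₁.dist_le_mul u hu v hv
    rw [Real.dist_eq, Real.dist_eq] at this
    nlinarith [abs_nonneg (u - v)]

/-- derivative of the radial projection at `p` in the direction `q` -/
def G (p q : E) : E := ‖p‖⁻¹ • q - (⟪p, q⟫ * ‖p‖⁻¹ ^ 3) • p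

theorem G_tan (x : S) {q : E} (h : ⟪(x : E), q⟫ = 0) : G x q = q := by
  simp [G, h]

theorem hasDerivAt_N {a : ℝ → E} {a' : E} {t : ℝ} (h : HasDerivAt a a' t) (h0 : a t ≠ 0) :
    HasDerivAt (fun t => (N (a t) : E)) (G (a t) a') t := by
  have hn : ‖a t‖ ≠ 0 := norm_ne_zero_iff.2 h0
  have h1 : HasDerivAt (fun t => ‖a t‖) (⟪a t, a'⟫ * ‖a t‖⁻¹) t := by
    have h2 := h.norm_sq.sqrt (pow_ne_zero 2 hn)
    simp only [Real.sqrt_sq (norm_nonneg _)] at h2
    convert h2 using 1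
    field_simp
  have h3 := (h1.inv hn).smul h
  have h4 : (fun t => (N (a t) : E)) =ᶠ[𝓝 t] fun t => ‖a t‖⁻¹ • a t := by
    filter_upwards [h.continuousAt.eventually_ne h0] with s hs
    exact coe_N hs
  refine HasDerivAt.congr_of_eventuallyEq ?_ h4
  refine HasDerivAt.congr_deriv h3 ?_
  simp only [G, Pi.inv_apply, sub_eq_add_neg, ← neg_smul]
  congr 2
  field_simp

theorem exists_lipG (C : ℝ) : ∃ Λ : ℝ, 0 ≤ Λ ∧ ∀ p q p' q' : E, 1 / 2 ≤ ‖p‖ → ‖p‖ ≤ C → ‖q‖ ≤ C →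
    1 / 2 ≤ ‖p'‖ → ‖p'‖ ≤ C → ‖q'‖ ≤ C → ‖G p q - G p' q'‖ ≤ Λ * (‖p - p'‖ + ‖q - q'‖) := by
  set s : Set (E × E) := ({p : E | 1 / 2 ≤ ‖p‖} ∩ closedBall 0 C) ×ˢ closedBall 0 C with hs
  have hc : IsCompact s :=
    ((isCompact_closedBall _ _).inter_left (isClosed_le continuous_const continuous_norm)).prod
      (isCompact_closedBall _ _)
  have hl : LocallyLipschitzOn s fun z : E × E => G z.1 z.2 := by
    intro z hz
    have hz0 : z.1 ≠ 0 := by
      intro h
      have : 1 / 2 ≤ ‖z.1‖ := hz.1.1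
      rw [h, norm_zero] at this
      linarith
    have hn : ContDiffAt ℝ 1 (fun z : E × E => ‖z.1‖⁻¹) z :=
      (contDiffAt_fst.norm ℝ hz0).inv (norm_ne_zero_iff.2 hz0)
    have hG : ContDiffAt ℝ 1 (fun z : E × E => G z.1 z.2) z :=
      (hn.smul contDiffAt_snd).sub
        (((contDiffAt_fst.inner ℝ contDiffAt_snd).mul (hn.pow 3)).smul contDiffAt_fst)
    obtain ⟨K, t, ht, hK⟩ := hG.exists_lipschitzOnWith
    exact ⟨K, t, mem_nhdsWithin_of_mem_nhds ht, hK⟩
  obtain ⟨K, hK⟩ := hl.exists_lipschitzOnWith_of_compact hc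
  refine ⟨K, K.2, fun p q p' q' h1 h2 h3 h4 h5 h6 => ?_⟩
  have := hK.dist_le_mul (p, q) ⟨⟨h1, by simpa using h2⟩, by simpa using h3⟩
    (p', q') ⟨⟨h4, by simpa using h5⟩, by simpa using h6⟩
  rw [dist_eq_norm, Prod.dist_eq, dist_eq_norm, dist_eq_norm] at this
  refine this.trans (mul_le_mul_of_nonneg_left ?_ K.2)
  exact max_le (by simp) (by simp)

theorem glue {f : ℝ → E} {Λ h : ℝ} (hh : 0 ≤ h)
    (h1 : ∀ s t, s ≤ 0 → t ≤ 0 → ‖f s - f t‖ ≤ Λ * |s - t|)
    (h2 : ∀ s ∈ Icc 0 h, ∀ t ∈ Icc 0 h, ‖f s - f t‖ ≤ Λ * |s - t|)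
    (h3 : ∀ s t, h ≤ s → h ≤ t → ‖f s - f t‖ ≤ Λ * |s - t|) (s t : ℝ) :
    ‖f s - f t‖ ≤ Λ * |s - t| := by
  have tri : ∀ a c b : ℝ, a ≤ c → c ≤ b → ‖f a - f c‖ ≤ Λ * |a - c| → ‖f c - f b‖ ≤ Λ * |c - b| →
      ‖f a - f b‖ ≤ Λ * |a - b| := by
    intro a c b hac hcb e1 e2
    rw [abs_of_nonpos (by linarith)] at e1 e2 ⊢
    have := norm_sub_le_norm_sub_add_norm_sub (f a) (f c) (f b)
    linarith
  have h12 : ∀ s t, s ≤ t → t ≤ h → ‖f s - f t‖ ≤ Λ * |s - t| := by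
    intro s t hst ht
    rcases le_total t 0 with h0 | h0
    · exact h1 s t (hst.trans h0) h0
    rcases le_total s 0 with h0' | h0'
    · exact tri s 0 t h0' h0 (h1 s 0 h0' le_rfl) (h2 0 ⟨le_rfl, hh⟩ t ⟨h0, ht⟩)
    · exact h2 s ⟨h0', hst.trans ht⟩ t ⟨h0, ht⟩
  have key : ∀ s t, s ≤ t → ‖f s - f t‖ ≤ Λ * |s - t| := by
    intro s t hst
    rcases le_total t h with h0 | h0
    · exact h12 s t hst h0
    rcases le_total s h with h0' | h0'
    · exact tri s h t h0' h0 (h12 s h h0' le_rfl) (h3 h t le_rfl h0)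
    · exact h3 s t h0' h0
  rcases le_total s t with hst | hst
  · exact key s t hst
  · rw [norm_sub_rev, abs_sub_comm]; exact key t s hst

theorem smul_sub_le (c c' : ℝ) (v v' : E) {α β γ δ : ℝ} (h1 : |c - c'| ≤ α) (h2 : ‖v‖ ≤ β)
    (h3 : |c'| ≤ γ) (h4 : ‖v - v'‖ ≤ δ) : ‖c • v - c' • v'‖ ≤ α * β + γ * δ := by
  have e : c • v - c' • v' = (c - c') • v + c' • (v - v') := by module
  rw [e]
  refine (norm_add_le _ _).trans ?_
  rw [norm_smul, norm_smul, Real.norm_eq_abs, Real.norm_eq_abs]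
  exact add_le_add (mul_le_mul h1 h2 (norm_nonneg _) ((abs_nonneg _).trans h1))
    (mul_le_mul h3 h4 (norm_nonneg _) ((abs_nonneg _).trans h3))

/-- the estimates on the interpolation interval -/
theorem inner_est (hB : Base X φ m M L) {b b' : ℝ → ℝ} {B : ℝ} (hs : Step b b' B) {h r : ℝ}
    (hh : h ∈ Ioc (0 : ℝ) 1) (hrh : r ≤ h ^ 2) {x y : S} (hxy : ‖(y : E) - x‖ ≤ r)
    (a a' : ℝ → E)
    (ha : ∀ t, a t = φ t y + b (t / h) • ((φ t x : E) - φ t y))
    (ha' : ∀ t, a' t = X (φ t y) + ((b' (t / h) / h) • ((φ t x : E) - φ t y)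
      + b (t / h) • (X (φ t x) - X (φ t y)))) :
    (∀ t ∈ Icc 0 h, ‖a t - φ t y‖ ≤ Real.exp L * r ∧
      ‖a' t - X (φ t y)‖ ≤ (B / h * Real.exp L + L * Real.exp L) * r ∧
      ‖a' t - X (φ t y)‖ ≤ B * Real.exp L + L * Real.exp L) ∧
    ∀ s ∈ Icc 0 h, ∀ t ∈ Icc 0 h, ‖a s - a t‖ + ‖a' s - a' t‖ ≤
      (M + 3 * (L * M) + 2 * (B * Real.exp L) + L * Real.exp L + 2 * (B * (L * Real.exp L)))
        * |s - t| := by
  obtain ⟨h0, h1⟩ := hh
  have hL := hB.L_pos
  have hBp := hs.pos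
  have hM : 0 ≤ M := (norm_nonneg _).trans (hB.up x)
  set e := Real.exp L with he
  have he0 : 0 < e := Real.exp_pos L
  have hrh1 : r ≤ h := by nlinarith
  have hr1 : r ≤ 1 := hrh1.trans h1
  have hd : ∀ t ∈ Icc 0 h, ‖(φ t x : E) - φ t y‖ ≤ e * r := by
    intro t ht
    refine (hB.toLF.lip_flow t x y).trans ?_
    rw [norm_sub_rev]
    refine mul_le_mul ?_ hxy (norm_nonneg _) he0.le
    apply Real.exp_le_exp.2
    rw [abs_of_nonneg ht.1]
    nlinarith [ht.2]
  have hD : ∀ t ∈ Icc 0 h, ‖X (φ t x) - X (φ t y)‖ ≤ L * e * r := by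
    intro t ht
    refine (hB.lip _ _).trans ?_
    rw [mul_assoc]
    exact mul_le_mul_of_nonneg_left (hd t ht) hL.le
  have hmem : ∀ t ∈ Icc 0 h, t / h ∈ Icc (0 : ℝ) 1 := fun t ht =>
    ⟨div_nonneg ht.1 h0.le, (div_le_one h0).2 ht.2⟩
  have hb : ∀ u, |b u| ≤ 1 := fun u => by
    rw [abs_of_nonneg (hs.mem u).1]; exact (hs.mem u).2
  have hb' : ∀ t ∈ Icc 0 h, |b' (t / h) / h| ≤ B / h := fun t ht => by
    rw [abs_div, abs_of_pos h0]
    exact div_le_div_of_nonneg_right (hs.bd _ (hmem t ht)) h0.le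
  have hq : ∀ s t : ℝ, |s / h - t / h| = |s - t| / h := fun s t => by
    rw [← sub_div, abs_div, abs_of_pos h0]
  have hrq : r / h ≤ 1 := (div_le_one h0).2 hrh1
  have hrq2 : r / h / h ≤ 1 := by
    rw [div_div, div_le_one (mul_pos h0 h0)]; nlinarith
  refine ⟨fun t ht => ?_, fun s hs' t ht => ?_⟩
  · have e2 : ‖a' t - X (φ t y)‖ ≤ (B / h * e + L * e) * r := by
      rw [ha', add_sub_cancel_left]
      refine (norm_add_le _ _).trans ?_
      rw [norm_smul, norm_smul, Real.norm_eq_abs, Real.norm_eq_abs]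
      have i1 := mul_le_mul (hb' t ht) (hd t ht) (norm_nonneg _) (by positivity)
      have i2 := mul_le_mul (hb (t / h)) (hD t ht) (norm_nonneg _) zero_le_one
      linarith
    refine ⟨?_, e2, e2.trans ?_⟩
    · rw [ha, add_sub_cancel_left, norm_smul, Real.norm_eq_abs]
      have i2 := mul_le_mul (hb (t / h)) (hd t ht) (norm_nonneg _) zero_le_one
      linarith
    · have i1 : B / h * e * r = B * e * (r / h) := by ring
      have i2 := mul_le_mul_of_nonneg_left hrq (show 0 ≤ B * e by positivity)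
      have i3 := mul_le_mul_of_nonneg_left hr1 (show 0 ≤ L * e by positivity)
      nlinarith
  · have hτ : 0 ≤ |s - t| := abs_nonneg _
    set τ := |s - t| with hτd
    have u1 : ‖(φ s y : E) - φ t y‖ ≤ M * τ := hB.toLF.move hB.up s t y
    have v1 : ‖(φ s x : E) - φ t x‖ ≤ M * τ := hB.toLF.move hB.up s t x
    have U1 : ‖X (φ s y) - X (φ t y)‖ ≤ L * M * τ := by
      refine (hB.lip _ _).trans ?_
      rw [mul_assoc]; exact mul_le_mul_of_nonneg_left u1 hL.le
    have V1 : ‖X (φ s x) - X (φ t x)‖ ≤ L * M * τ := by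
      refine (hB.lip _ _).trans ?_
      rw [mul_assoc]; exact mul_le_mul_of_nonneg_left v1 hL.le
    have d1 : ‖((φ s x : E) - φ s y) - ((φ t x : E) - φ t y)‖ ≤ L * e * r * τ := by
      have := (convex_Icc (0 : ℝ) h).norm_image_sub_le_of_norm_hasDerivWithin_le
        (f := fun t => (φ t x : E) - φ t y) (f' := fun t => X (φ t x) - X (φ t y))
        (fun t _ => ((hB.der x t).sub (hB.der y t)).hasDerivWithinAt) hD ht hs'
      rwa [Real.norm_eq_abs] at this
    have D1 : ‖(X (φ s x) - X (φ s y)) - (X (φ t x) - X (φ t y))‖ ≤ 2 * (L * M) * τ := by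
      have : (X (φ s x) - X (φ s y)) - (X (φ t x) - X (φ t y))
          = (X (φ s x) - X (φ t x)) - (X (φ s y) - X (φ t y)) := by abel
      rw [this]
      refine (norm_sub_le _ _).trans ?_
      linarith
    have β1 : |b (s / h) - b (t / h)| ≤ B * (τ / h) := by
      rw [← hq]; exact hs.lip _ (hmem s hs') _ (hmem t ht)
    have β2 : |b' (s / h) / h - b' (t / h) / h| ≤ B * (τ / h) / h := by
      rw [← hq, ← sub_div (b' (s / h)), abs_div, abs_of_pos h0]
      exact div_le_div_of_nonneg_right (hs.lip' _ (hmem s hs') _ (hmem t ht)) h0.le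
    have p1 := smul_sub_le _ _ _ _ β1 (hd s hs') (hb (t / h)) d1
    have p2 := smul_sub_le _ _ _ _ β2 (hd s hs') (hb' t ht) d1
    have p3 := smul_sub_le _ _ _ _ β1 (hD s hs') (hb (t / h)) D1
    have q1 : B * (τ / h) * (e * r) ≤ B * e * τ := by
      have i1 : B * (τ / h) * (e * r) = B * e * τ * (r / h) := by ring
      have i2 := mul_le_mul_of_nonneg_left hrq (show 0 ≤ B * e * τ by positivity)
      linarith
    have q2 : L * e * r * τ ≤ L * e * τ := by
      have i2 := mul_le_mul_of_nonneg_left hr1 (show 0 ≤ L * e * τ by positivity)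
      linarith
    have q3 : B * (τ / h) / h * (e * r) ≤ B * e * τ := by
      have i1 : B * (τ / h) / h * (e * r) = B * e * τ * (r / h / h) := by ring
      have i2 := mul_le_mul_of_nonneg_left hrq2 (show 0 ≤ B * e * τ by positivity)
      linarith
    have q4 : B / h * (L * e * r * τ) ≤ B * (L * e) * τ := by
      have i1 : B / h * (L * e * r * τ) = B * (L * e) * τ * (r / h) := by ring
      have i2 := mul_le_mul_of_nonneg_left hrq (show 0 ≤ B * (L * e) * τ by positivity)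
      linarith
    have q5 : B * (τ / h) * (L * e * r) ≤ B * (L * e) * τ := by
      have i1 : B * (τ / h) * (L * e * r) = B * (L * e) * τ * (r / h) := by ring
      have i2 := mul_le_mul_of_nonneg_left hrq (show 0 ≤ B * (L * e) * τ by positivity)
      linarith
    have s1 : ‖a s - a t‖ ≤ ‖(φ s y : E) - φ t y‖ + ‖b (s / h) • ((φ s x : E) - φ s y)
        - b (t / h) • ((φ t x : E) - φ t y)‖ := by
      rw [ha, ha, add_sub_add_comm]; exact norm_add_le _ _
    have s2 : ‖a' s - a' t‖ ≤ ‖X (φ s y) - X (φ t y)‖ + (‖(b' (s / h) / h) • ((φ s x : E) - φ s y)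
        - (b' (t / h) / h) • ((φ t x : E) - φ t y)‖ + ‖b (s / h) • (X (φ s x) - X (φ s y))
        - b (t / h) • (X (φ t x) - X (φ t y))‖) := by
      rw [ha', ha', add_sub_add_comm]
      refine (norm_add_le _ _).trans (add_le_add le_rfl ?_)
      rw [add_sub_add_comm]; exact norm_add_le _ _
    linarith

end AKnot1Aux

open AKnot1Aux in
/-- `k t = N (a t)`, `a t = (1 - b t) • φ t y + b t • φ t x`, `b t = b₁ (t / h)` with a fixed step
function `b₁` (`Real.smoothTransition`, or `3 u ^ 2 - 2 u ^ 3` clamped) whose derivative is bounded and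
Lipschitz with absolute constants. With `d t = φ t x - φ t y` (norm at most `exp L * r` on `[0, h]`),
`a' = X (φ t y) + b' • d + b • (X (φ t x) - X (φ t y))`, `k' = ‖a‖⁻¹ • (a' - ⟪k, a'⟫ • k)`,
`1 / 2 ≤ ‖a‖ ≤ 1`. For `r ≤ h ^ 2` all terms are bounded and Lipschitz on `[0, h]` with constants
depending on `L`, `M` only; outside `[0, h]` the curve is an orbit. Lipschitz on the three intervals
gives Lipschitz on the line. -/
theorem Base.knot_loc (hB : Base X φ m M L) : ∃ Λ : ℝ, 0 < Λ ∧ ∀ h ∈ Ioc (0 : ℝ) 1,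
    ∃ A r₁ : ℝ, 0 < A ∧ 0 < r₁ ∧ ∀ r ∈ Ioc 0 r₁, ∀ x y : S, ‖(y : E) - x‖ ≤ r →
      ∃ (k : ℝ → S) (k' : ℝ → E), (∀ t, HasDerivAt (fun t => (k t : E)) (k' t) t) ∧
        (∀ s t, ‖k' s - k' t‖ ≤ Λ * |s - t|) ∧ (∀ t, ‖k' t - X (k t)‖ ≤ A * r) ∧
        (∀ t, t ≤ 0 → k t = φ t y ∧ k' t = X (k t)) ∧
        (∀ t, h ≤ t → k t = φ t x ∧ k' t = X (k t)) ∧
        ∀ t ∈ Icc 0 h, ∃ b ∈ Icc (0 : ℝ) 1,
          k t = N ((1 - b) • (φ t y : E) + b • (φ t x : E)) := by
  obtain ⟨b, b', B, hs⟩ := exists_step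
  have hL := hB.L_pos
  have hBp := hs.pos
  have hM : 0 ≤ M := (norm_nonneg _).trans (hB.up pole)
  set e := Real.exp L with he
  have he0 : 0 < e := Real.exp_pos L
  obtain ⟨Λ, hΛ, hG⟩ := exists_lipG (2 + M + B * e + L * e)
  set C := M + 3 * (L * M) + 2 * (B * e) + L * e + 2 * (B * (L * e)) with hC
  have hC0 : 0 ≤ C := by positivity
  refine ⟨Λ * C + L * M + 1, by positivity, fun h hh => ?_⟩
  have h0 := hh.1
  refine ⟨Λ * (e + (B / h * e + L * e)) + 2 * (L * e), min (h ^ 2) (1 / (2 * e)), by positivity,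
    by positivity, fun r hr x y hxy => ?_⟩
  have hr0 := hr.1
  have hrh : r ≤ h ^ 2 := hr.2.trans (min_le_left _ _)
  have hre : e * r ≤ 1 / 2 := by
    have := hr.2.trans (min_le_right _ _)
    rw [le_div_iff₀ (by positivity)] at this
    linarith
  set a : ℝ → E := fun t => φ t y + b (t / h) • ((φ t x : E) - φ t y) with ha
  set a' : ℝ → E := fun t => X (φ t y) + ((b' (t / h) / h) • ((φ t x : E) - φ t y)
      + b (t / h) • (X (φ t x) - X (φ t y))) with ha'
  obtain ⟨E1, E2⟩ := inner_est hB hs hh hrh hxy a a' (fun _ => rfl) (fun _ => rfl)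
  have lo : ∀ t, t ≤ 0 → a t = φ t y ∧ a' t = X (φ t y) := by
    intro t ht
    obtain ⟨i1, i2⟩ := hs.lo (t / h) (div_nonpos_of_nonpos_of_nonneg ht h0.le)
    simp [ha, ha', i1, i2]
  have hi : ∀ t, h ≤ t → a t = φ t x ∧ a' t = X (φ t x) := by
    intro t ht
    obtain ⟨i1, i2⟩ := hs.hi (t / h) ((one_le_div h0).2 ht)
    simp [ha, ha', i1, i2]
  have lo' : ∀ t, t ≤ 0 → N (a t) = φ t y ∧ G (a t) (a' t) = X (φ t y) := by
    intro t ht
    rw [(lo t ht).1, (lo t ht).2, N_coe, G_tan _ (hB.perp _)]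
    exact ⟨rfl, rfl⟩
  have hi' : ∀ t, h ≤ t → N (a t) = φ t x ∧ G (a t) (a' t) = X (φ t x) := by
    intro t ht
    rw [(hi t ht).1, (hi t ht).2, N_coe, G_tan _ (hB.perp _)]
    exact ⟨rfl, rfl⟩
  have hBe : 0 ≤ B * e := by positivity
  have hLe : 0 ≤ L * e := by positivity
  have mid : ∀ t ∈ Icc 0 h, 1 / 2 ≤ ‖a t‖ ∧ ‖a t‖ ≤ 2 + M + B * e + L * e ∧
      ‖a' t‖ ≤ 2 + M + B * e + L * e := by
    intro t ht
    obtain ⟨i1, -, i3⟩ := E1 t ht
    have j1 := abs_le.1 ((abs_norm_sub_one (φ t y) (a t)).trans (i1.trans hre))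
    have j2 := norm_le_norm_add_norm_sub' (a' t) (X (φ t y))
    have j3 := hB.up (φ t y)
    exact ⟨by linarith, by linarith, by linarith⟩
  have ne0 : ∀ t, a t ≠ 0 := by
    intro t
    rcases le_total t 0 with ht | ht
    · rw [(lo t ht).1]; exact ne_zero_of_mem_unit_sphere _
    rcases le_total h t with ht' | ht'
    · rw [(hi t ht').1]; exact ne_zero_of_mem_unit_sphere _
    · intro hz
      have := (mid t ⟨ht, ht'⟩).1
      rw [hz, norm_zero] at this
      linarith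
  have hder : ∀ t, HasDerivAt a (a' t) t := by
    intro t
    have i1 : HasDerivAt (fun t => b (t / h)) (b' (t / h) / h) t := by
      have := (hs.der (t / h)).comp t ((hasDerivAt_id t).div_const h)
      refine HasDerivAt.congr_deriv this ?_
      ring
    have i2 := (hB.der y t).add (i1.smul ((hB.der x t).sub (hB.der y t)))
    refine HasDerivAt.congr_deriv i2 ?_
    simp only [ha', Pi.sub_apply]
    rw [add_comm (b (t / h) • _)]
  have orbl : ∀ (z : S) (s t : ℝ), ‖X (φ s z) - X (φ t z)‖ ≤ (Λ * C + L * M + 1) * |s - t| := by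
    intro z s t
    have i1 := (hB.lip _ _).trans
      (mul_le_mul_of_nonneg_left (hB.toLF.move hB.up s t z) hL.le)
    have i2 : 0 ≤ (Λ * C + 1) * |s - t| := by positivity
    linarith
  refine ⟨fun t => N (a t), fun t => G (a t) (a' t), fun t => hasDerivAt_N (hder t) (ne0 t),
    glue h0.le ?_ ?_ ?_, ?_, ?_, ?_, ?_⟩
  · intro s t h1 h2
    rw [(lo' s h1).2, (lo' t h2).2]; exact orbl y s t
  · intro s h1 t h2
    obtain ⟨i1, i2, i3⟩ := mid s h1
    obtain ⟨j1, j2, j3⟩ := mid t h2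
    have k1 := (hG _ _ _ _ i1 i2 i3 j1 j2 j3).trans (mul_le_mul_of_nonneg_left (E2 s h1 t h2) hΛ)
    have k2 : 0 ≤ (L * M + 1) * |s - t| := by positivity
    linarith
  · intro s t h1 h2
    rw [(hi' s h1).2, (hi' t h2).2]; exact orbl x s t
  · intro t
    have hA : 0 ≤ (Λ * (e + (B / h * e + L * e)) + 2 * (L * e)) * r := by positivity
    rcases le_total t 0 with ht | ht
    · simp only [(lo' t ht).1, (lo' t ht).2, sub_self, norm_zero]; exact hA
    rcases le_total h t with ht' | ht'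
    · simp only [(hi' t ht').1, (hi' t ht').2, sub_self, norm_zero]; exact hA
    obtain ⟨i1, i2, i3⟩ := mid t ⟨ht, ht'⟩
    obtain ⟨j1, j2, -⟩ := E1 t ⟨ht, ht'⟩
    have j3 := hB.up (φ t y)
    have k1 := hG (a t) (a' t) (φ t y) (X (φ t y)) i1 i2 i3 (by rw [norm_coe]; norm_num)
      (by rw [norm_coe]; linarith) (by linarith)
    rw [G_tan _ (hB.perp _)] at k1
    have k2 := mul_le_mul_of_nonneg_left (add_le_add j1 j2) hΛ
    have k3 := N_near (φ t y) (a t) (by linarith)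
    have k4 := hB.lip (φ t y) (N (a t))
    rw [norm_sub_rev (φ t y : E)] at k4
    have k5 : L * ‖(N (a t) : E) - φ t y‖ ≤ L * (2 * (e * r)) :=
      mul_le_mul_of_nonneg_left (by linarith) hL.le
    have k6 := norm_sub_le_norm_sub_add_norm_sub (G (a t) (a' t)) (X (φ t y)) (X (N (a t)))
    linarith
  · intro t ht
    exact ⟨(lo' t ht).1, (lo' t ht).2.trans (congrArg X (lo' t ht).1.symm)⟩
  · intro t ht
    exact ⟨(hi' t ht).1, (hi' t ht).2.trans (congrArg X (hi' t ht).1.symm)⟩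
  · intro t _
    refine ⟨b (t / h), hs.mem _, congrArg N ?_⟩
    simp only [ha]
    module

end Pool.Agent.Lib.MP_399f8e_an.Lk
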