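import Pool.Agent.Lib.MP_399f8e_an.Lk.AKnot1

open Set Filter Topology Metric MeasureTheory
open scoped RealInnerProductSpace

noncomputable section

namespace Pool.Agent.Lib.MP_399f8e_an.Lk

open Rg

variable {X : S → E} {φ : ℝ → S → S} {m M L : ℝ}

namespace AKnot2Aux

/-- periodic extension of the part on `[0, T)` -/
def per {α : Type} (g : ℝ → α) (T t : ℝ) : α := g (t - (⌊t / T⌋ : ℝ) * T)

theorem per_add {α : Type} (g : ℝ → α) {T : ℝ} (hT : 0 < T) (t : ℝ) :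
    per g T (t + T) = per g T t := by
  have e : (t + T) / T = t / T + 1 := by field_simp
  unfold per
  rw [e, Int.floor_add_one]
  congr 1
  push_cast
  ring

theorem floor_eq {T t : ℝ} (hT : 0 < T) {n : ℤ} (h1 : (n : ℝ) * T ≤ t) (h2 : t < (n : ℝ) * T + T) :
    ⌊t / T⌋ = n := by
  rw [Int.floor_eq_iff]
  constructor
  · rwa [le_div_iff₀ hT]
  · rw [div_lt_iff₀ hT]; linarith

theorem floor_mem {T : ℝ} (hT : 0 < T) (t : ℝ) :
    (⌊t / T⌋ : ℝ) * T ≤ t ∧ t < (⌊t / T⌋ : ℝ) * T + T := by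
  constructor
  · rw [← le_div_iff₀ hT]; exact Int.floor_le _
  · have := Int.lt_floor_add_one (t / T)
    rw [div_lt_iff₀ hT] at this
    linarith

theorem agree {α : Type} {g : ℝ → α} {T h : ℝ} (hh : 0 < h) (hT : h < T)
    (hg : ∀ t ∈ Icc (h - T) 0, g (t + T) = g t) (n : ℤ) {t : ℝ}
    (h1 : (n : ℝ) * T + h - T ≤ t) (h2 : t ≤ (n : ℝ) * T + T) :
    per g T t = g (t - (n : ℝ) * T) := by
  have hT0 : 0 < T := hh.trans hT
  rcases lt_or_ge t ((n : ℝ) * T) with c | c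
  · have e : ⌊t / T⌋ = n - 1 := floor_eq hT0 (by push_cast; linarith) (by push_cast; linarith)
    unfold per
    rw [e, ← hg (t - (n : ℝ) * T) ⟨by linarith, by linarith⟩]
    congr 1
    push_cast
    ring
  · rcases h2.lt_or_eq with d | d
    · unfold per
      rw [floor_eq hT0 c d]
    · have e : ⌊t / T⌋ = n + 1 := floor_eq hT0 (by push_cast; linarith) (by push_cast; linarith)
      unfold per
      rw [e]
      have e1 : t - ((n + 1 : ℤ) : ℝ) * T = 0 := by push_cast; linarith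
      have e2 : t - (n : ℝ) * T = 0 + T := by linarith
      rw [e1, e2, hg 0 ⟨by linarith, le_rfl⟩]

theorem lip_of_short {f : ℝ → E} {Λ δ : ℝ} (hδ : 0 < δ)
    (hf : ∀ s t, s ≤ t → t - s ≤ δ → ‖f s - f t‖ ≤ Λ * (t - s)) (s t : ℝ) :
    ‖f s - f t‖ ≤ Λ * |s - t| := by
  have key : ∀ n : ℕ, ∀ s t, s ≤ t → t - s ≤ n * δ → ‖f s - f t‖ ≤ Λ * (t - s) := by
    intro n
    induction n with
    | zero => intro s t h1 h2; exact hf s t h1 (by simp at h2; linarith)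
    | succ n ih =>
      intro s t h1 h2
      rcases le_or_gt (t - s) δ with c | c
      · exact hf s t h1 c
      · have a1 := hf s (s + δ) (by linarith) (by linarith)
        have a2 := ih (s + δ) t (by linarith) (by push_cast at h2; linarith)
        have a3 := norm_sub_le_norm_sub_add_norm_sub (f s) (f (s + δ)) (f t)
        nlinarith
  have key2 : ∀ s t, s ≤ t → ‖f s - f t‖ ≤ Λ * (t - s) := by
    intro s t h
    obtain ⟨n, hn⟩ := exists_nat_ge ((t - s) / δ)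
    exact key n s t h ((div_le_iff₀ hδ).1 hn)
  rcases le_total s t with c | c
  · rw [abs_sub_comm, abs_of_nonneg (sub_nonneg.2 c)]; exact key2 s t c
  · rw [abs_of_nonneg (sub_nonneg.2 c), norm_sub_rev]; exact key2 t s c

theorem exp_le {x : ℝ} (hx : x ≤ 1 / 3) : Real.exp x ≤ 3 / 2 := by
  have h1 := Real.add_one_le_exp (-x)
  have h2 : Real.exp x * Real.exp (-x) = 1 := by rw [← Real.exp_add]; simp
  have h3 := Real.exp_pos x
  nlinarith

theorem N_mix (u v : S) {b : ℝ} (hb : b ∈ Icc (0 : ℝ) 1) :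
    ‖(N ((1 - b) • (u : E) + b • (v : E)) : E) - ((1 - b) • (u : E) + b • (v : E))‖
      ≤ ‖(u : E) - v‖ ^ 2 := by
  set a : E := (1 - b) • (u : E) + b • (v : E) with ha
  have e : (N a : E) - a = (1 - ‖a‖) • (N a : E) := by
    rw [sub_smul, one_smul, norm_smul_N]
  have hu := norm_coe u
  have hv := norm_coe v
  have e1 : ‖a‖ ^ 2 = 1 - b * (1 - b) * ‖(u : E) - v‖ ^ 2 := by
    rw [norm_sub_sq_real, ha, norm_add_sq_real, norm_smul, norm_smul, inner_smul_left,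
      inner_smul_right, hu, hv, Real.norm_eq_abs, Real.norm_eq_abs, mul_one, mul_one, sq_abs,
      sq_abs]
    simp only [conj_trivial]
    ring
  have hb1 : 0 ≤ b * (1 - b) := mul_nonneg hb.1 (sub_nonneg.2 hb.2)
  have hb2 : b * (1 - b) ≤ 1 := by nlinarith [hb.1, hb.2]
  have hd : 0 ≤ ‖(u : E) - v‖ ^ 2 := sq_nonneg _
  have h0 := norm_nonneg a
  have h3 : 0 ≤ b * (1 - b) * ‖(u : E) - v‖ ^ 2 := mul_nonneg hb1 hd
  have h4 : b * (1 - b) * ‖(u : E) - v‖ ^ 2 ≤ ‖(u : E) - v‖ ^ 2 := by nlinarith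
  have h1 : ‖a‖ ≤ 1 := by nlinarith
  rw [e, norm_smul, norm_coe, mul_one, Real.norm_eq_abs, abs_of_nonneg (by linarith)]
  nlinarith

theorem back (hF : IsFl φ) (s t : ℝ) (x : S) : φ (-s) (φ (s + t) x) = φ t x := by
  rw [← hF.add]
  congr 1
  ring

theorem back0 (hF : IsFl φ) (s : ℝ) (x : S) : φ (-s) (φ s x) = x := by
  have := back hF s 0 x
  rwa [add_zero, hF.zero] at this

theorem seg_near (hB : Base X φ m M L) {ξ s r b : ℝ} (hξ1 : ξ ≤ 1) (x y : S) (hr0 : 0 < r)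
    (hs : 0 ≤ s) (hL : L * s ≤ ξ / 96) (hr : r ≤ ξ / 72) (hxy : ‖(y : E) - x‖ ≤ r)
    (hb : b ∈ Icc (0 : ℝ) 1) :
    ‖(φ (-s) (N ((1 - b) • (φ s y : E) + b • (φ s x : E))) : E) - ((1 - b) • (y : E) + b • (x : E))‖
      ≤ ξ * r / 16 := by
  have hF : IsFl φ := hB.toLF.toIsFl
  have hLs : 0 ≤ L * s := mul_nonneg hB.L_pos.le hs
  have he : Real.exp (L * s) ≤ 3 / 2 := exp_le (by linarith)
  set u := φ s y with hu
  set v := φ s x with hv
  set k : S := N ((1 - b) • (u : E) + b • (v : E)) with hk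
  have huv : ‖(u : E) - v‖ ≤ 3 / 2 * r := by
    have := hB.toLF.lip_flow s y x
    rw [abs_of_nonneg hs] at this
    exact this.trans (mul_le_mul he hxy (norm_nonneg _) (by norm_num))
  have h0 := norm_nonneg ((u : E) - v)
  have h1 : ‖(k : E) - ((1 - b) • (u : E) + b • (v : E))‖ ≤ ξ * r / 32 := by
    refine (N_mix u v hb).trans ?_
    nlinarith
  have hr1 : ξ * r / 32 ≤ r / 2 := by nlinarith
  have h2 : ‖(k : E) - u‖ ≤ 2 * r := by
    have e : (k : E) - u = ((k : E) - ((1 - b) • (u : E) + b • (v : E))) - b • ((u : E) - v) := by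
      module
    rw [e]
    refine (norm_sub_le _ _).trans ?_
    rw [norm_smul, Real.norm_of_nonneg hb.1]
    nlinarith [hb.1, hb.2]
  have h3 : ‖(k : E) - v‖ ≤ 2 * r := by
    have e : (k : E) - v
        = ((k : E) - ((1 - b) • (u : E) + b • (v : E))) + (1 - b) • ((u : E) - v) := by
      module
    rw [e]
    refine (norm_add_le _ _).trans ?_
    rw [norm_smul, Real.norm_of_nonneg (sub_nonneg.2 hb.2)]
    nlinarith [hb.1, hb.2]
  have disp : ∀ w : S, ‖(k : E) - w‖ ≤ 2 * r →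
      ‖((φ (-s) k : E) - k) - ((φ (-s) w : E) - w)‖ ≤ ξ * r / 32 := by
    intro w hw
    have := hB.toLF.lip_disp (-s) k w
    rw [abs_neg, abs_of_nonneg hs] at this
    refine this.trans ?_
    have a1 : L * s * Real.exp (L * s) ≤ ξ / 96 * (3 / 2) :=
      mul_le_mul hL he (Real.exp_pos _).le (hLs.trans hL)
    have a2 : L * s * Real.exp (L * s) * ‖(k : E) - w‖ ≤ ξ / 96 * (3 / 2) * (2 * r) :=
      mul_le_mul a1 hw (norm_nonneg _) (by have := hLs.trans hL; positivity)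
    linarith
  have d1 := disp u h2
  have d2 := disp v h3
  rw [hu, back0 hF, ← hu] at d1
  rw [hv, back0 hF, ← hv] at d2
  have e : (φ (-s) k : E) - ((1 - b) • (y : E) + b • (x : E))
      = ((k : E) - ((1 - b) • (u : E) + b • (v : E)))
        + ((1 - b) • (((φ (-s) k : E) - k) - ((y : E) - u))
          + b • (((φ (-s) k : E) - k) - ((x : E) - v))) := by
    module
  rw [e]
  refine (norm_add_le _ _).trans ?_
  have a3 := norm_add_le ((1 - b) • (((φ (-s) k : E) - k) - ((y : E) - u)))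
    (b • (((φ (-s) k : E) - k) - ((x : E) - v)))
  rw [norm_smul, norm_smul, Real.norm_of_nonneg (sub_nonneg.2 hb.2), Real.norm_of_nonneg hb.1] at a3
  have a4 := mul_le_mul_of_nonneg_left d1 (sub_nonneg.2 hb.2)
  have a5 := mul_le_mul_of_nonneg_left d2 hb.1
  linarith

end AKnot2Aux

open AKnot2Aux

/-- `K t = k (t - T * floor (t / T))` with `y = φ T x₀`. As `k (t + T) = k t` and `k' (t + T) = k' t`
for `t ∈ [h - T, 0]`, the curve `K` agrees with `t ↦ k (t - n T)` on `[n T + h - T, n T + T]`. A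
function on the line that is Lipschitz with one constant on these overlapping intervals is Lipschitz
with that constant. -/
theorem Base.exists_knot (hB : Base X φ m M L) : ∃ Λ : ℝ, 0 < Λ ∧ ∀ h ∈ Ioc (0 : ℝ) 1,
    ∃ A r₁ : ℝ, 0 < A ∧ 0 < r₁ ∧ ∀ r ∈ Ioc 0 r₁, ∀ (x₀ : S) (T : ℝ), 6 * h ≤ T →
      ‖(φ T x₀ : E) - x₀‖ ≤ r → ∃ K K', Knot X φ K K' x₀ T h r Λ A := by
  obtain ⟨Λ, hΛ, H⟩ := hB.knot_loc
  refine ⟨Λ, hΛ, fun h hh => ?_⟩
  obtain ⟨A, r₁, hA, hr₁, H⟩ := H h hh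
  refine ⟨A, r₁, hA, hr₁, fun r hr x₀ T hT hgap => ?_⟩
  obtain ⟨k, k', hd, hl, hdev, hneg, hpos, hmix⟩ := H r hr x₀ (φ T x₀) hgap
  have hF : IsFl φ := hB.toLF.toIsFl
  have h0 : 0 < h := hh.1
  have hhT : h < T := by linarith
  have hT0 : 0 < T := h0.trans hhT
  have g1 : ∀ t ∈ Icc (h - T) 0, k (t + T) = k t := by
    intro t ht
    rw [(hpos (t + T) (by linarith [ht.1])).1, (hneg t ht.2).1, hF.add]
  have g2 : ∀ t ∈ Icc (h - T) 0, k' (t + T) = k' t := by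
    intro t ht
    rw [(hpos (t + T) (by linarith [ht.1])).2, (hneg t ht.2).2, g1 t ht]
  have z1 : ∀ t ∈ Icc 0 T, per k T t = k t := by
    intro t ht
    have := agree h0 hhT g1 0 (t := t) (by simp; linarith [ht.1]) (by simp; exact ht.2)
    simpa using this
  have z2 : ∀ t ∈ Icc 0 T, per k' T t = k' t := by
    intro t ht
    have := agree h0 hhT g2 0 (t := t) (by simp; linarith [ht.1]) (by simp; exact ht.2)
    simpa using this
  refine ⟨per k T, per k' T, ⟨hT0, fun t => ?_, per_add k hT0, per_add k' hT0, ?_⟩, h0, hr.1, hT,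
    hgap, fun t => hdev _, fun t ht => ?_, fun t ht => ?_, fun t ht => ?_⟩
  · obtain ⟨f1, f2⟩ := floor_mem hT0 t
    have d1 : HasDerivAt (fun s => (k (s - (⌊t / T⌋ : ℝ) * T) : E))
        (k' (t - (⌊t / T⌋ : ℝ) * T)) t :=
      HasDerivAt.comp_sub_const (f := fun s => (k s : E)) t _ (hd _)
    refine d1.congr_of_eventuallyEq ?_
    have hn : Ioo ((⌊t / T⌋ : ℝ) * T + h - T) ((⌊t / T⌋ : ℝ) * T + T) ∈ 𝓝 t :=
      Ioo_mem_nhds (by linarith) f2
    filter_upwards [hn] with s hs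
    rw [agree h0 hhT g1 ⌊t / T⌋ hs.1.le hs.2.le]
  · refine lip_of_short (δ := T - h) (by linarith) fun s t hst hδ => ?_
    obtain ⟨f1, f2⟩ := floor_mem hT0 t
    rw [agree h0 hhT g2 ⌊t / T⌋ (t := s) (by linarith) (by linarith),
      agree h0 hhT g2 ⌊t / T⌋ (t := t) (by linarith) f2.le]
    refine (hl _ _).trans (le_of_eq ?_)
    rw [abs_of_nonpos (by linarith)]
    ring
  · rw [z1 t ⟨by linarith [ht.1], ht.2⟩, (hpos t ht.1).1]
  · rw [z1 t ⟨by linarith [ht.1], ht.2⟩, z2 t ⟨by linarith [ht.1], ht.2⟩, (hpos t ht.1).2]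
  · rw [z1 t ⟨ht.1, by linarith [ht.2]⟩]
    exact hmix t ht

/-- Let `y₀ = φ T x₀`. For `s ∈ [-h, 0]`, `φ (-s) (K s) = y₀`; for `s ∈ [h, 2 h]` it is `x₀`. For
`s ∈ [0, h]`, with `a = (1 - b) • φ s y₀ + b • φ s x₀`, `c = (1 - b) • y₀ + b • x₀` and the displacement
`D p = φ (-s) p - p`: `φ (-s) (K s) - c = (K s - a) + (D (K s) - (1 - b) • D (φ s y₀) - b • D (φ s x₀))`,
`‖K s - a‖ = 1 - ‖a‖ ≤ ‖φ s y₀ - φ s x₀‖ ^ 2`, and `lip_disp`. So `φ (-s) (K s)` is within `ξ r / 16`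
of the segment from `y₀` to `x₀`, and `exp (2 L h) ≤ 3 / 2` in `lip_flow`. -/
theorem Base.gap (hB : Base X φ m M L) {ξ : ℝ} (hξ : 0 < ξ) (hξ1 : ξ ≤ 1) :
    ∃ h₀ r₁ : ℝ, 0 < h₀ ∧ 0 < r₁ ∧ ∀ {K : ℝ → S} {K' : ℝ → E} {x₀ : S} {T h r Λ A : ℝ},
      Knot X φ K K' x₀ T h r Λ A → h ≤ h₀ → r ≤ r₁ → Gap φ K h r ξ := by
  have hL := hB.L_pos
  have hF : IsFl φ := hB.toLF.toIsFl
  refine ⟨ξ / (96 * L), ξ / 72, by positivity, by positivity, ?_⟩
  intro K K' x₀ T h r Λ A hK hh hr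
  have h0 := hK.h_pos
  have r0 := hK.r_pos
  have hT := hK.hT
  have hLh : L * h ≤ ξ / 96 := by
    rw [le_div_iff₀ (by positivity)] at hh
    linarith
  have hξr : 0 < ξ * r := mul_pos hξ r0
  have near : ∀ s ∈ Icc (-h) (2 * h), ∃ b ∈ Icc (0 : ℝ) 1,
      ‖(φ (-s) (K s) : E) - ((1 - b) • (φ T x₀ : E) + b • (x₀ : E))‖ ≤ ξ * r / 16 := by
    intro s hs
    rcases le_total s 0 with c | c
    · refine ⟨0, ⟨le_rfl, zero_le_one⟩, ?_⟩
      rw [← hK.per s, hK.orb (s + T) ⟨by linarith [hs.1], by linarith⟩, back hF]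
      simp
      positivity
    · rcases le_total s h with d | d
      · obtain ⟨b, hb, e⟩ := hK.mix s ⟨c, d⟩
        refine ⟨b, hb, ?_⟩
        rw [e]
        exact seg_near hB hξ1 x₀ (φ T x₀) r0 c
          ((mul_le_mul_of_nonneg_left d hL.le).trans hLh) hr hK.gap hb
      · refine ⟨1, ⟨zero_le_one, le_rfl⟩, ?_⟩
        rw [hK.orb s ⟨d, by linarith [hs.2]⟩, back0 hF]
        simp
        positivity
  have near2 : ∀ s ∈ Icc (-h) (2 * h), ∀ p : S, ‖(p : E) - K s‖ ≤ ξ * r / 8 →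
      ∃ b ∈ Icc (0 : ℝ) 1,
        ‖(φ (-s) p : E) - ((1 - b) • (φ T x₀ : E) + b • (x₀ : E))‖ ≤ ξ * r / 4 := by
    intro s hs p hp
    obtain ⟨b, hb, e⟩ := near s hs
    refine ⟨b, hb, ?_⟩
    have a0 : |-s| ≤ 2 * h := by
      rw [abs_neg]; exact abs_le.2 ⟨by linarith [hs.1], hs.2⟩
    have a1 : Real.exp (L * |-s|) ≤ 3 / 2 :=
      exp_le (by have := mul_le_mul_of_nonneg_left a0 hL.le; linarith)
    have a2 := (hB.toLF.lip_flow (-s) p (K s)).trans
      (mul_le_mul a1 hp (norm_nonneg _) (by norm_num))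
    have a3 := norm_sub_le_norm_sub_add_norm_sub (φ (-s) p : E) (φ (-s) (K s) : E)
      ((1 - b) • (φ T x₀ : E) + b • (x₀ : E))
    linarith
  intro s hs s' hs' p p' hp hp'
  obtain ⟨b, hb, e⟩ := near2 s hs p hp
  obtain ⟨b', hb', e'⟩ := near2 s' hs' p' hp'
  have a1 : ‖((1 - b) • (φ T x₀ : E) + b • (x₀ : E)) - ((1 - b') • (φ T x₀ : E) + b' • (x₀ : E))‖
      ≤ r := by
    have e1 : ((1 - b) • (φ T x₀ : E) + b • (x₀ : E)) - ((1 - b') • (φ T x₀ : E) + b' • (x₀ : E))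
        = (b' - b) • ((φ T x₀ : E) - x₀) := by module
    have a0 : |b' - b| ≤ 1 := abs_le.2 ⟨by linarith [hb.2, hb'.1], by linarith [hb.1, hb'.2]⟩
    rw [e1, norm_smul, Real.norm_eq_abs]
    exact (mul_le_mul a0 hK.gap (norm_nonneg _) zero_le_one).trans (one_mul r).le
  have a2 := norm_sub_le_norm_sub_add_norm_sub (φ (-s) p : E)
    ((1 - b) • (φ T x₀ : E) + b • (x₀ : E)) (φ (-s') p' : E)
  have a3 := norm_sub_le_norm_sub_add_norm_sub ((1 - b) • (φ T x₀ : E) + b • (x₀ : E))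
    ((1 - b') • (φ T x₀ : E) + b' • (x₀ : E)) (φ (-s') p' : E)
  rw [norm_sub_rev] at e'
  linarith

end Pool.Agent.Lib.MP_399f8e_an.Lk
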