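import Pool.Agent.Lib.MP_399f8e_an.Lk.ATrans
import Pool.Agent.Lib.MP_399f8e_an.Lk.AFlow1

open Set Filter Topology Metric MeasureTheory
open scoped RealInnerProductSpace

noncomputable section

namespace Pool.Agent.Lib.MP_399f8e_an.Lk

open Rg

variable {X : S → E} {φ : ℝ → S → S} {m M L : ℝ} {K : ℝ → S} {K' : ℝ → E} {x₀ : S}
  {T h r Λ A ξ : ℝ} {Z₁ Z₂ : E → E} {Ψ : T3 → S} {D : T3 → T3 →L[ℝ] E} {r₀ C₀ t₀ c₀ : ℝ}

namespace APert1Aux

theorem red {T : ℝ} (hT : 0 < T) (s a : ℝ) : ∃ n : ℤ, a ≤ s + n * T ∧ s + n * T < a + T := by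
  obtain ⟨n, hn, -⟩ := existsUnique_add_zsmul_mem_Ico hT s a
  exact ⟨n, by simpa [zsmul_eq_mul] using hn⟩

theorem perZ {A : Type} {f : ℝ → A} {T : ℝ} (hf : ∀ t, f (t + T) = f t) (n : ℤ) (t : ℝ) :
    f (t + n * T) = f t :=
  Function.Periodic.int_mul (f := f) (c := T) hf n t

theorem loc (hT : Tube K K' Z₁ Z₂ Ψ D T r₀ C₀ t₀ c₀) {q q' : T3} (h1 : ‖q.2‖ < r₀)
    (h2 : ‖q'.2‖ < r₀) (he : Ψ q = Ψ q') {n : ℤ} (hn : |q'.1 - q.1 - n * T| ≤ t₀) :
    q'.2 = q.2 ∧ q'.1 = q.1 + n * T := by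
  have e1 : Ψ (q.1 + n * T, q.2) = Ψ q :=
    perZ (f := fun s => Ψ (s, q.2)) (fun t => hT.per t q.2) n q.1
  have h3 := hT.colip q' (q.1 + n * T, q.2) h2 h1 (by rwa [← sub_sub])
  rw [e1, he, sub_self, norm_zero] at h3
  have h4 : ‖q' - (q.1 + n * T, q.2)‖ ≤ 0 := by
    by_contra h5
    exact absurd (mul_pos hT.c_pos (not_le.1 h5)) (not_lt.2 h3)
  have h5 : q' = (q.1 + n * T, q.2) := sub_eq_zero.1 (norm_le_zero_iff.1 h4)
  exact ⟨by rw [h5], by rw [h5]⟩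

theorem core_le (hT : Tube K K' Z₁ Z₂ Ψ D T r₀ C₀ t₀ c₀) {q : T3} (h1 : ‖q.2‖ < r₀) :
    ‖(Ψ q : E) - K q.1‖ ≤ C₀ * ‖q.2‖ := by
  have h2 := hT.lip q (q.1, 0) h1 (by simpa using hT.r_pos)
  rw [hT.core] at h2
  refine h2.trans (le_of_eq ?_)
  congr 1
  rw [Prod.norm_def]
  simp

theorem dist_lt (hT : Tube K K' Z₁ Z₂ Ψ D T r₀ C₀ t₀ c₀) {q q' : T3} {f : ℝ} (hf : f ≤ r₀)
    (h1 : ‖q.2‖ < f) (h2 : ‖q'.2‖ < f) (he : Ψ q = Ψ q') :
    ‖(K q.1 : E) - K q'.1‖ < 2 * (C₀ * f) := by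
  have h3 := core_le hT (h1.trans_le hf)
  have h4 := core_le hT (h2.trans_le hf)
  have h5 : (0 : ℝ) < C₀ := one_pos.trans_le hT.C_one
  have h6 := mul_lt_mul_of_pos_left h1 h5
  have h7 := mul_lt_mul_of_pos_left h2 h5
  rw [he, norm_sub_rev] at h3
  have h8 := norm_sub_le_norm_sub_add_norm_sub (K q.1 : E) (Ψ q') (K q'.1)
  linarith

/-- One of the times lies in the closing window modulo the period. -/
theorem win (hK : Knot X φ K K' x₀ T h r Λ A) (hm : NoMid K T h r ξ) (ht : 6 * h ≤ t₀)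
    {s s' : ℝ} {n : ℤ} (h1 : -h ≤ s + n * T) (h2 : s + n * T ≤ 2 * h)
    (hd : ‖(K s : E) - K s'‖ ≤ ξ * r / 8) : ∃ k : ℤ, |s' - s - k * T| ≤ t₀ := by
  obtain ⟨k, k1, k2⟩ := red hK.T_pos s' (-(2 * h))
  have h0 := hK.h_pos
  rcases le_total (s' + k * T) (3 * h) with h3 | h3
  · refine ⟨n - k, abs_le.2 ⟨?_, ?_⟩⟩ <;> push_cast <;> linarith
  · have h4 := hm _ ⟨h3, by linarith⟩ _ ⟨h1, h2⟩
    rw [perZ hK.per, perZ hK.per, norm_sub_rev] at h4
    exact absurd hd (not_le.2 h4)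

theorem orb_inj (hB : Base X φ m M L) {a b : ℝ} (he : φ a x₀ = φ b x₀) : a = b := by
  have key : ∀ a b : ℝ, a < b → φ a x₀ ≠ φ b x₀ := fun a b hab he => by
    refine hB.aper (φ a x₀) (b - a) (sub_pos.2 hab) ?_
    rw [← hB.add, sub_add_cancel, he]
  rcases lt_trichotomy a b with h1 | h1 | h1
  · exact absurd he (key a b h1)
  · exact h1
  · exact absurd he.symm (key b a h1)

end APert1Aux

open APert1Aux

/-- Reduce `s` to `[-h, T - h)` and `s'` to `[-2 h, T - 2 h)` or the like. If one of the times is in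
`[-h, 2 h]` modulo `T`, the other is in `[-2 h, 3 h]` (then `colip` at `w = 0`) or in
`[3 h, T - 2 h]` (excluded by `NoMid`). Otherwise both are in `[h, T]`, where `K` is an orbit of an
aperiodic flow. -/
theorem Knot.inj (hK : Knot X φ K K' x₀ T h r Λ A) (hB : Base X φ m M L)
    (hT : Tube K K' Z₁ Z₂ Ψ D T r₀ C₀ t₀ c₀) (hξ : 0 < ξ) (hm : NoMid K T h r ξ) (ht : 6 * h ≤ t₀)
    {s s' : ℝ} (he : K s = K s') : ∃ n : ℤ, s' = s + n * T := by
  have h0 := hK.h_pos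
  have hp : 0 ≤ ξ * r / 8 := by
    have := hK.r_pos
    positivity
  have one : ∀ {s s' : ℝ} {n : ℤ}, -h ≤ s + n * T → s + n * T ≤ 2 * h → K s = K s' →
      ∃ n : ℤ, s' = s + n * T := fun {s s' n} h1 h2 he => by
    obtain ⟨k, hk⟩ := win hK hm ht (s' := s') h1 h2 (by simpa [he] using hp)
    exact ⟨k, (loc hT (q := (s, 0)) (q' := (s', 0)) (by simpa using hT.r_pos)
      (by simpa using hT.r_pos) (by rw [hT.core, hT.core, he]) hk).2⟩
  obtain ⟨n, n1, n2⟩ := red hK.T_pos s (-h)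
  obtain ⟨k, k1, k2⟩ := red hK.T_pos s' (-h)
  rcases le_total (s + n * T) (2 * h) with h1 | h1
  · exact one n1 h1 he
  rcases le_total (s' + k * T) (2 * h) with h2 | h2
  · obtain ⟨j, hj⟩ := one k1 h2 he.symm
    exact ⟨-j, by push_cast; linarith⟩
  have e1 := hK.orb (s + n * T) ⟨by linarith, by linarith⟩
  have e2 := hK.orb (s' + k * T) ⟨by linarith, by linarith⟩
  rw [perZ hK.per] at e1 e2
  have e3 := orb_inj hB (e1.symm.trans (he.trans e2))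
  exact ⟨n - k, by push_cast; linarith⟩

/-- Compactness: on the pairs (s, u)` with `s ∈ [0, T]`, `u ∈ [t₀, T - t₀]` the distance from `K s`
to `K (s + u)` has a positive minimum. -/
theorem Knot.sep (hK : Knot X φ K K' x₀ T h r Λ A) (hB : Base X φ m M L)
    (hT : Tube K K' Z₁ Z₂ Ψ D T r₀ C₀ t₀ c₀) (hξ : 0 < ξ) (hm : NoMid K T h r ξ)
    (ht : 6 * h ≤ t₀) : ∃ d₀, Sep K T t₀ d₀ := by
  have hc : Continuous fun t => (K t : E) :=
    continuous_iff_continuousAt.2 fun t => (hK.der t).continuousAt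
  have h0 := hT.t_pos
  have hT0 := hK.T_pos
  obtain ⟨d, hd, hd'⟩ := IsCompact.exists_forall_le' (a := (0 : ℝ))
    (f := fun p : ℝ × ℝ => ‖(K p.1 : E) - K (p.1 + p.2)‖)
    ((isCompact_Icc (a := (0 : ℝ)) (b := T)).prod (isCompact_Icc (a := t₀) (b := T - t₀)))
    (((hc.comp continuous_fst).sub (hc.comp (continuous_fst.add continuous_snd))).norm.continuousOn)
    (fun p hp => by
      refine norm_pos_iff.2 fun he => ?_
      obtain ⟨n, hn⟩ := hK.inj hB hT hξ hm ht (Subtype.ext (sub_eq_zero.1 he))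
      have h1 : 0 < (n : ℝ) * T := by linarith [hp.2.1]
      have h2 : (n : ℝ) * T < 1 * T := by linarith [hp.2.2]
      have h3 : (0 : ℝ) < n := (pos_iff_pos_of_mul_pos h1).2 hT0
      have h4 : (n : ℝ) < 1 := lt_of_mul_lt_mul_right h2 hT0.le
      have h5 : 0 < n := by exact_mod_cast h3
      have h6 : n < 1 := by exact_mod_cast h4
      omega)
  refine ⟨d, hd, fun s s' hs => ?_⟩
  obtain ⟨n, n1, n2⟩ := red hT0 s 0
  obtain ⟨k, k1, k2⟩ := red hT0 (s' - s) (-t₀)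
  rcases le_total (s' - s + k * T) t₀ with h1 | h1
  · refine ⟨-k, abs_le.2 ⟨?_, ?_⟩⟩ <;> push_cast <;> linarith
  · have h2 := hd' (s + n * T, s' - s + k * T) ⟨⟨n1, by linarith⟩, ⟨h1, by linarith⟩⟩
    have e : s + n * T + (s' - s + k * T) = s' + (n + k : ℤ) * T := by
      push_cast
      ring
    simp only [e, perZ hK.per] at h2
    exact absurd hs (not_lt.2 h2)

/-- `‖Ψ (s, w) - K s‖ ≤ C₀ ‖w‖`. Both points thin: `Sep` and `colip`. One point fat, at a time in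
(-h, 2 h)` modulo `T`: the other time is in `[-2 h, 3 h]` modulo `T` (`colip`), or in
`[3 h, T - 2 h]`, where it is thin or fat with `C₀ f + C₀ max f (8 δ) ≤ ξ r / 8`, against `NoMid`. -/
theorem Knot.injMod (hK : Knot X φ K K' x₀ T h r Λ A) (hB : Base X φ m M L)
    (hT : Tube K K' Z₁ Z₂ Ψ D T r₀ C₀ t₀ c₀) (hξ : 0 < ξ) (hm : NoMid K T h r ξ)
    (ht : 6 * h ≤ t₀) (hf : ξ * r / (16 * C₀) ≤ r₀) :
    ∀ᶠ δ in 𝓝[>] (0 : ℝ), InjMod Ψ T (dom T h (ξ * r / (16 * C₀)) δ) := by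
  obtain ⟨d, hd, hs⟩ := hK.sep hB hT hξ hm ht
  have hC : (0 : ℝ) < C₀ := one_pos.trans_le hT.C_one
  have hr := hK.r_pos
  have e : 2 * (C₀ * (ξ * r / (16 * C₀))) = ξ * r / 8 := by
    field_simp
    norm_num
  have hf0 : 0 < ξ * r / (16 * C₀) := by positivity
  generalize ξ * r / (16 * C₀) = f at hf e hf0
  have fat : ∀ q q' : T3, ‖q.2‖ < f → ‖q'.2‖ < f → Ψ q = Ψ q' →
      ‖((q.1 - h / 2 : ℝ) : AddCircle T)‖ < 3 * h / 2 →
      q'.2 = q.2 ∧ ∃ n : ℤ, q'.1 = q.1 + n * T := fun q q' h1 h2 he h3 => by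
    rw [AddCircle.norm_eq, abs_lt] at h3
    obtain ⟨k, hk⟩ := win hK hm ht (s := q.1) (s' := q'.1) (n := -round (T⁻¹ * (q.1 - h / 2)))
      (by push_cast; linarith [h3.1]) (by push_cast; linarith [h3.2])
      (e ▸ (dist_lt hT hf h1 h2 he).le)
    have h4 := loc hT (h1.trans_le hf) (h2.trans_le hf) he hk
    exact ⟨h4.1, k, h4.2⟩
  have ev : ∀ c : ℝ, 0 < c → ∀ᶠ δ in 𝓝[>] (0 : ℝ), δ < c := fun c hc =>
    mem_nhdsWithin_of_mem_nhds (Iio_mem_nhds hc)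
  filter_upwards [ev (f / 8) (by positivity), ev (d / (16 * C₀)) (by positivity)] with δ d1 d2
  have d3 : 8 * δ ≤ f := by linarith
  have lt : ∀ q ∈ dom T h f δ, ‖q.2‖ < f := fun q hq =>
    hq.elim (fun h1 => h1.trans_le d3) fun h1 => h1.1
  intro q hq q' hq' he
  have l1 := lt q hq
  have l2 := lt q' hq'
  rcases hq with hq | hq
  · rcases hq' with hq' | hq'
    · have h1 := dist_lt hT (d3.trans hf) hq hq' he
      rw [lt_div_iff₀ (by positivity)] at d2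
      obtain ⟨k, hk⟩ := hs q.1 q'.1 (by linarith)
      have h4 := loc hT (l1.trans_le hf) (l2.trans_le hf) he hk
      exact ⟨h4.1, k, h4.2⟩
    · obtain ⟨h1, k, hk⟩ := fat q' q l2 l1 he.symm hq'.2
      exact ⟨h1.symm, -k, by push_cast; linarith⟩
  · exact fat q q' l1 l2 he hq.2

theorem Tube.thin (hT : Tube K K' Z₁ Z₂ Ψ D T r₀ C₀ t₀ c₀) (hT0 : 0 < T) {f δ : ℝ} (hδ : 0 < δ)
    (hδr : 8 * δ ≤ r₀) (hi : InjMod Ψ T (dom T h f δ)) : Thin K Ψ T (4 * δ) := by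
  have lt : ∀ q : T3, ‖q.2‖ < 4 * δ → ‖q.2‖ < 8 * δ := fun q hq => by linarith
  refine ⟨hT0, by linarith, fun q hq => ContinuousAt.continuousWithinAt ?_, hT.core, hT.per,
    fun q hq q' hq' => hi q (Or.inl (lt q hq)) q' (Or.inl (lt q' hq')),
    fun q hq => hT.opn q ((lt q hq).trans_le hδr)⟩
  rw [Topology.IsInducing.subtypeVal.continuousAt_iff]
  exact (hT.fd q ((lt q hq).trans_le hδr)).continuousAt

end Pool.Agent.Lib.MP_399f8e_an.Lk
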