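import Pool.Agent.Lib.MP_399f8e_an.Lk.ATrans
import Pool.Agent.Lib.MP_399f8e_an.Lk.AFlow1

open Set Filter Topology Metric MeasureTheory
open scoped RealInnerProductSpace

noncomputable section

namespace Pool.Agent.Lib.MP_399f8e_an.Lk

open Rg

namespace APert2Aux

/-- clamp to the unit interval -/
def cl (x : ℝ) : ℝ := min 1 (max 0 x)

theorem cl_nonneg (x : ℝ) : 0 ≤ cl x := le_min zero_le_one (le_max_left _ _)

theorem cl_le (x : ℝ) : cl x ≤ 1 := min_le_left _ _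

theorem cl_one {x : ℝ} (h : 1 ≤ x) : cl x = 1 := min_eq_left (h.trans (le_max_right _ _))

theorem cl_zero {x : ℝ} (h : x ≤ 0) : cl x = 0 := by
  unfold cl
  rw [max_eq_left h, min_eq_right zero_le_one]

theorem cl_lip (x y : ℝ) : |cl x - cl y| ≤ |x - y| := by
  unfold cl
  refine (abs_min_sub_min_le_max 1 (max 0 x) 1 (max 0 y)).trans ?_
  rw [sub_self, abs_zero]
  refine max_le (abs_nonneg _) ?_
  refine (abs_max_sub_max_le_max 0 x 0 y).trans ?_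
  rw [sub_self, abs_zero]
  exact max_le (abs_nonneg _) le_rfl

/-- distance to the middle of the closing arc, modulo the period -/
def aa (T h s : ℝ) : ℝ := ‖((s - h / 2 : ℝ) : AddCircle T)‖

theorem aa_lip (T h s s' : ℝ) : |aa T h s - aa T h s'| ≤ |s - s'| := by
  unfold aa
  refine (abs_norm_sub_norm_le _ _).trans ?_
  rw [← AddCircle.coe_sub]
  refine QuotientAddGroup.norm_mk_le_norm.trans ?_
  rw [Real.norm_eq_abs]
  exact le_of_eq (by congr 1; ring)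

theorem aa_per (T h s : ℝ) (n : ℤ) : aa T h (s + n * T) = aa T h s := by
  unfold aa
  have e : s + n * T - h / 2 = (s - h / 2) + n • T := by
    rw [zsmul_eq_mul]
    ring
  rw [e, AddCircle.coe_add, AddCircle.coe_zsmul, AddCircle.coe_period, smul_zero, add_zero]

theorem aa_per1 (T h s : ℝ) : aa T h (s + T) = aa T h s := by
  have := aa_per T h s 1
  simpa using this

theorem aa_le (T h s : ℝ) : aa T h s ≤ |s - h / 2| :=
  QuotientAddGroup.norm_mk_le_norm.trans (le_of_eq (Real.norm_eq_abs _))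

theorem aa_rep (T h s : ℝ) : ∃ n : ℤ, aa T h s = |s - n * T - h / 2| := by
  refine ⟨round (T⁻¹ * (s - h / 2)), ?_⟩
  unfold aa
  rw [AddCircle.norm_eq]
  congr 1
  ring

theorem aa_cont (T h : ℝ) : Continuous fun q : T3 => aa T h q.1 := by
  unfold aa
  exact ((AddCircle.continuous_mk' T).comp (continuous_fst.sub continuous_const)).norm

theorem fst_le (q q' : T3) : |q.1 - q'.1| ≤ ‖q - q'‖ := by
  have := norm_fst_le (q - q')
  rwa [Prod.fst_sub, Real.norm_eq_abs] at this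

theorem snd_le (q q' : T3) : |‖q.2‖ - ‖q'.2‖| ≤ ‖q - q'‖ := by
  have := norm_snd_le (q - q')
  rw [Prod.snd_sub] at this
  exact (abs_norm_sub_norm_le _ _).trans this

/-- the cutoff of the fat part -/
def om1 (T h f : ℝ) (q : T3) : ℝ := cl (2 - 2 * aa T h q.1 / h) * cl (2 - 4 * ‖q.2‖ / f)

/-- the cutoff of the thin tube -/
def om2 (δ : ℝ) (q : T3) : ℝ := cl (3 - ‖q.2‖ / (2 * δ))

theorem om1_nonneg (T h f : ℝ) (q : T3) : 0 ≤ om1 T h f q :=
  mul_nonneg (cl_nonneg _) (cl_nonneg _)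

theorem om1_le (T h f : ℝ) (q : T3) : om1 T h f q ≤ 1 :=
  mul_le_one₀ (cl_le _) (cl_nonneg _) (cl_le _)

theorem om1_lip {T h f : ℝ} (hh : 0 < h) (hf : 0 < f) (q q' : T3) :
    |om1 T h f q - om1 T h f q'| ≤ (2 / h + 4 / f) * ‖q - q'‖ := by
  unfold om1
  set a := cl (2 - 2 * aa T h q.1 / h)
  set a' := cl (2 - 2 * aa T h q'.1 / h)
  set b := cl (2 - 4 * ‖q.2‖ / f)
  set b' := cl (2 - 4 * ‖q'.2‖ / f)
  have h1 : |a - a'| ≤ 2 / h * ‖q - q'‖ := by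
    refine (cl_lip _ _).trans ?_
    have e : 2 - 2 * aa T h q.1 / h - (2 - 2 * aa T h q'.1 / h) =
        -(2 / h * (aa T h q.1 - aa T h q'.1)) := by ring
    rw [e, abs_neg, abs_mul, abs_of_pos (by positivity : 0 < 2 / h)]
    exact mul_le_mul_of_nonneg_left ((aa_lip _ _ _ _).trans (fst_le _ _)) (by positivity)
  have h2 : |b - b'| ≤ 4 / f * ‖q - q'‖ := by
    refine (cl_lip _ _).trans ?_
    have e : 2 - 4 * ‖q.2‖ / f - (2 - 4 * ‖q'.2‖ / f) = -(4 / f * (‖q.2‖ - ‖q'.2‖)) := by ring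
    rw [e, abs_neg, abs_mul, abs_of_pos (by positivity : 0 < 4 / f)]
    exact mul_le_mul_of_nonneg_left (snd_le _ _) (by positivity)
  have e : a * b - a' * b' = (a - a') * b + a' * (b - b') := by ring
  have hb : |b| ≤ 1 := by rw [abs_of_nonneg (cl_nonneg _)]; exact cl_le _
  have ha : |a'| ≤ 1 := by rw [abs_of_nonneg (cl_nonneg _)]; exact cl_le _
  rw [e]
  refine (abs_add_le _ _).trans ?_
  rw [abs_mul, abs_mul]
  have h3 : |a - a'| * |b| ≤ |a - a'| := mul_le_of_le_one_right (abs_nonneg _) hb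
  have h4 : |a'| * |b - b'| ≤ |b - b'| := mul_le_of_le_one_left (abs_nonneg _) ha
  linarith

theorem om2_lip {δ : ℝ} (hδ : 0 < δ) (q q' : T3) :
    |om2 δ q - om2 δ q'| ≤ 1 / (2 * δ) * ‖q - q'‖ := by
  unfold om2
  refine (cl_lip _ _).trans ?_
  have e : 3 - ‖q.2‖ / (2 * δ) - (3 - ‖q'.2‖ / (2 * δ)) =
      -(1 / (2 * δ) * (‖q.2‖ - ‖q'.2‖)) := by ring
  rw [e, abs_neg, abs_mul, abs_of_pos (by positivity : 0 < 1 / (2 * δ))]
  exact mul_le_mul_of_nonneg_left (snd_le _ _) (by positivity)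

theorem om1_zero {T h f : ℝ} (hh : 0 < h) (hf : 0 < f) {q : T3}
    (hq : ¬ (‖q.2‖ ≤ f / 2 ∧ aa T h q.1 ≤ h)) : om1 T h f q = 0 := by
  unfold om1
  rcases not_and_or.1 hq with h1 | h1
  · have : 2 - 4 * ‖q.2‖ / f ≤ 0 := by
      rw [sub_nonpos, le_div_iff₀ hf]
      linarith [not_le.1 h1]
    rw [cl_zero this, mul_zero]
  · have : 2 - 2 * aa T h q.1 / h ≤ 0 := by
      rw [sub_nonpos, le_div_iff₀ hh]
      linarith [not_le.1 h1]
    rw [cl_zero this, zero_mul]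

theorem om1_one {T h f s : ℝ} (hh : 0 < h) (hs : aa T h s ≤ h / 2) : om1 T h f (s, 0) = 1 := by
  unfold om1
  have h1 : 1 ≤ 2 - 2 * aa T h s / h := by
    have : 2 * aa T h s / h ≤ 1 := by
      rw [div_le_one hh]
      linarith
    linarith
  rw [cl_one h1, cl_one (by simp), mul_one]

theorem om2_zero {δ : ℝ} (hδ : 0 < δ) {q : T3} (hq : 6 * δ ≤ ‖q.2‖) : om2 δ q = 0 := by
  refine cl_zero ?_
  rw [sub_nonpos, le_div_iff₀ (by positivity)]
  linarith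

theorem om2_one {δ : ℝ} (hδ : 0 < δ) {q : T3} (hq : ‖q.2‖ ≤ 4 * δ) : om2 δ q = 1 := by
  refine cl_one ?_
  have : ‖q.2‖ / (2 * δ) ≤ 2 := by
    rw [div_le_iff₀ (by positivity)]
    linarith
  linarith

/-- product rule with a cutoff -/
theorem prod_le {a a' : ℝ} (ha0 : 0 ≤ a) (ha1 : a ≤ 1) (v v' : E) :
    ‖(1 - a) • v - (1 - a') • v'‖ ≤ ‖v - v'‖ + |a - a'| * ‖v'‖ := by
  have e : (1 - a) • v - (1 - a') • v' = (1 - a) • (v - v') - (a - a') • v' := by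
    module
  rw [e]
  refine (norm_sub_le _ _).trans ?_
  rw [norm_smul, norm_smul, Real.norm_eq_abs, Real.norm_eq_abs, abs_of_nonneg (by linarith)]
  have : (1 - a) * ‖v - v'‖ ≤ ‖v - v'‖ := mul_le_of_le_one_left (norm_nonneg _) (by linarith)
  linarith

/-- the part of `D₀` outside the fat part -/
def D1 (T h f : ℝ) (D₀ : T3 → E) (q : T3) : E := (1 - om1 T h f q) • D₀ q

/-- the correction of the field in tube coordinates -/
def HH (T h f δ : ℝ) (D₀ : T3 → E) (q : T3) : E := D₀ q - (1 - om2 δ q) • D1 T h f D₀ q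

theorem HH_eq (T h f δ : ℝ) (D₀ : T3 → E) (q : T3) :
    HH T h f δ D₀ q = (1 - (1 - om2 δ q) * (1 - om1 T h f q)) • D₀ q := by
  unfold HH D1
  module

theorem HH_norm (T h f δ : ℝ) (D₀ : T3 → E) (q : T3) : ‖HH T h f δ D₀ q‖ ≤ ‖D₀ q‖ := by
  rw [HH_eq, norm_smul, Real.norm_eq_abs]
  have h1 := om1_nonneg T h f q
  have h2 := om1_le T h f q
  have h3 : 0 ≤ om2 δ q := cl_nonneg _
  have h4 : om2 δ q ≤ 1 := cl_le _
  have h5 : 0 ≤ (1 - om2 δ q) * (1 - om1 T h f q) := mul_nonneg (by linarith) (by linarith)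
  have h6 : (1 - om2 δ q) * (1 - om1 T h f q) ≤ 1 :=
    mul_le_one₀ (by linarith) (by linarith) (by linarith)
  rw [abs_of_nonneg (by linarith)]
  exact mul_le_of_le_one_left (norm_nonneg _) (by linarith)

section Est

variable {T h f δ L₀ B₀ L' : ℝ} {D₀ : T3 → E}

theorem D1_lip (hh : 0 < h) (hf : 0 < f)
    (hlip : ∀ q q' : T3, ‖q.2‖ < f → ‖q'.2‖ < f → ‖D₀ q - D₀ q'‖ ≤ L₀ * ‖q - q'‖)
    (hB : ∀ q : T3, ‖q.2‖ < f → ‖D₀ q‖ ≤ B₀) (hL' : L₀ + (2 / h + 4 / f) * B₀ ≤ L')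
    (q q' : T3) (hq : ‖q.2‖ < f) (hq' : ‖q'.2‖ < f) :
    ‖D1 T h f D₀ q - D1 T h f D₀ q'‖ ≤ L' * ‖q - q'‖ := by
  unfold D1
  refine (prod_le (om1_nonneg _ _ _ _) (om1_le _ _ _ _) _ _).trans ?_
  have h1 := hlip q q' hq hq'
  have h2 : |om1 T h f q - om1 T h f q'| * ‖D₀ q'‖ ≤ (2 / h + 4 / f) * ‖q - q'‖ * B₀ :=
    mul_le_mul (om1_lip hh hf q q') (hB q' hq') (norm_nonneg _) (by positivity)
  have h3 : (L₀ + (2 / h + 4 / f) * B₀) * ‖q - q'‖ ≤ L' * ‖q - q'‖ :=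
    mul_le_mul_of_nonneg_right hL' (norm_nonneg _)
  linarith

theorem D1_small (hh : 0 < h) (hf : 0 < f) (hz : ∀ s, h / 2 < aa T h s → D₀ (s, 0) = 0)
    (hlip : ∀ q q' : T3, ‖q.2‖ < f → ‖q'.2‖ < f →
      ‖D1 T h f D₀ q - D1 T h f D₀ q'‖ ≤ L' * ‖q - q'‖)
    (q : T3) (hq : ‖q.2‖ < f) : ‖D1 T h f D₀ q‖ ≤ L' * ‖q.2‖ := by
  have h0 : D1 T h f D₀ (q.1, 0) = 0 := by
    unfold D1
    by_cases hs : aa T h q.1 ≤ h / 2
    · rw [om1_one hh hs, sub_self, zero_smul]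
    · rw [hz _ (not_le.1 hs), smul_zero]
  have h1 := hlip q (q.1, 0) hq (by simpa using hf)
  rw [h0, sub_zero] at h1
  have e : ‖q - (q.1, 0)‖ = ‖q.2‖ := by
    rw [Prod.norm_def]
    simp
  rwa [e] at h1

theorem G_lip_aux (hδ : 0 < δ) (hL' : 0 ≤ L') {G : T3 → E}
    (hlip : ∀ q q' : T3, ‖q.2‖ < f → ‖q'.2‖ < f → ‖G q - G q'‖ ≤ L' * ‖q - q'‖)
    (hs : ∀ q : T3, ‖q.2‖ < f → ‖G q‖ ≤ L' * ‖q.2‖)
    (q q' : T3) (hq : ‖q.2‖ < f) (hq' : ‖q'.2‖ < f) (hle : ‖q'.2‖ ≤ ‖q.2‖) :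
    ‖(1 - om2 δ q) • G q - (1 - om2 δ q') • G q'‖ ≤ 4 * L' * ‖q - q'‖ := by
  refine (prod_le (a := om2 δ q) (cl_nonneg _) (cl_le _) _ _).trans ?_
  have h1 := hlip q q' hq hq'
  have h0 : 0 ≤ L' * ‖q - q'‖ := mul_nonneg hL' (norm_nonneg _)
  by_cases h6 : 6 * δ ≤ ‖q'.2‖
  · have e1 := om2_zero hδ h6
    have e2 := om2_zero hδ (h6.trans hle)
    rw [e1, e2, sub_self, abs_zero, zero_mul]
    linarith
  · have h2 : ‖G q'‖ ≤ L' * (6 * δ) :=
      (hs q' hq').trans (mul_le_mul_of_nonneg_left (not_le.1 h6).le hL')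
    have h3 : |om2 δ q - om2 δ q'| * ‖G q'‖ ≤ 1 / (2 * δ) * ‖q - q'‖ * (L' * (6 * δ)) :=
      mul_le_mul (om2_lip hδ q q') h2 (norm_nonneg _) (by positivity)
    have e : 1 / (2 * δ) * ‖q - q'‖ * (L' * (6 * δ)) = 3 * (L' * ‖q - q'‖) := by
      field_simp
      ring
    linarith

theorem HH_lip (hδ : 0 < δ) (hL' : 0 ≤ L')
    (hlip0 : ∀ q q' : T3, ‖q.2‖ < f → ‖q'.2‖ < f → ‖D₀ q - D₀ q'‖ ≤ L₀ * ‖q - q'‖)
    (hlip : ∀ q q' : T3, ‖q.2‖ < f → ‖q'.2‖ < f →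
      ‖D1 T h f D₀ q - D1 T h f D₀ q'‖ ≤ L' * ‖q - q'‖)
    (hs : ∀ q : T3, ‖q.2‖ < f → ‖D1 T h f D₀ q‖ ≤ L' * ‖q.2‖)
    (q q' : T3) (hq : ‖q.2‖ < f) (hq' : ‖q'.2‖ < f) :
    ‖HH T h f δ D₀ q - HH T h f δ D₀ q'‖ ≤ (L₀ + 4 * L') * ‖q - q'‖ := by
  have h1 : ‖(1 - om2 δ q) • D1 T h f D₀ q - (1 - om2 δ q') • D1 T h f D₀ q'‖ ≤
      4 * L' * ‖q - q'‖ := by
    rcases le_total ‖q'.2‖ ‖q.2‖ with hle | hle
    · exact G_lip_aux hδ hL' hlip hs q q' hq hq' hle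
    · rw [norm_sub_rev, norm_sub_rev q q']
      exact G_lip_aux hδ hL' hlip hs q' q hq' hq hle
  have e : HH T h f δ D₀ q - HH T h f δ D₀ q' = (D₀ q - D₀ q') -
      ((1 - om2 δ q) • D1 T h f D₀ q - (1 - om2 δ q') • D1 T h f D₀ q') := by
    unfold HH
    abel
  rw [e]
  refine (norm_sub_le _ _).trans ?_
  have h2 := hlip0 q q' hq hq'
  linarith

end Est

end APert2Aux

open APert2Aux in
/-- Put `f = ξ r / (16 C₀)`, `D₀ q = D q (1, 0) - X (Ψ q)` (Lipschitz with `L₀ = C₀ + L C₀`;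
`D₀ (s, 0) = K' s - X (K s)` has norm at most `A r` and vanishes unless `s ∈ [0, h]` modulo `T`),
`a q = ‖((q.1 - h / 2 : ℝ) : AddCircle T)‖`, `ω₁ = cl (2 - 2 a / h) * cl (2 - 4 ‖w‖ / f)`,
`ω₂ = cl (3 - ‖w‖ / (2 δ))` with `cl = min 1 ∘ max 0`, `D₁ = (1 - ω₁) • D₀`,
`H = D₀ - (1 - ω₂) • D₁`. On `‖w‖ < f`, `‖D₀‖ ≤ A r + L₀ f` and `ω₁` is Lipschitz with
`2 / h + 4 / f`, on `‖w‖ > f / 2` one has `ω₁ = 0`: so `D₁` is locally Lipschitz, hence Lipschitz on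
the strip `‖w‖ < f` (direct product estimate), with a constant `L'` free of `r`; `D₁ (s, 0) = 0`, so
`‖D₁ q‖ ≤ L' ‖w‖` (take `8 δ ≤ f`, then all of `dom` lies in the strip). (1 - ω₂) • D₁` is locally
Lipschitz with `5 L'` (on `‖w‖ < 8 δ` by the product rule, on `‖w‖ > 6 δ` it is `D₁`). `colip` turns
this into `hloc`. `C = {‖w‖ ≤ 6 δ} ∪ {‖w‖ ≤ f / 2, a ≤ h}`, `F = Ψ '' {‖w‖ ≤ f / 2, a ≤ h}`,
`W = X +` the transplanted field. -/
theorem exists_pert {L C₀ c₀ ξ h A : ℝ} (hL : 0 < L) (hC : 1 ≤ C₀) (hc : 0 < c₀) (hξ : 0 < ξ)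
    (hξ1 : ξ ≤ 1) (hh : 0 < h) (hA : 0 < A) :
    ∃ L₁ C₁ : ℝ, 0 < L₁ ∧ 0 < C₁ ∧ ∀ {X : S → E} {φ : ℝ → S → S} {K : ℝ → S} {K' : ℝ → E} {x₀ : S}
      {T r Λ : ℝ} {Z₁ Z₂ : E → E} {Ψ : T3 → S} {D : T3 → T3 →L[ℝ] E} {r₀ t₀ δ : ℝ},
      LF X φ L → Knot X φ K K' x₀ T h r Λ A → Tube K K' Z₁ Z₂ Ψ D T r₀ C₀ t₀ c₀ → r ≤ 1 →
      ξ * r / (16 * C₀) ≤ r₀ → 0 < δ → 8 * δ ≤ ξ * r / (16 * C₀) →
      InjMod Ψ T (dom T h (ξ * r / (16 * C₀)) δ) →
      ∃ W F, Pert X K Ψ D W F h L₁ (C₁ * r) (C₁ * δ) δ (ξ * r / 16) := by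
  set L₀ : ℝ := C₀ + L * C₀ with hL₀
  set L' : ℝ := L₀ + 2 / h * (A + L₀) + (64 * A * C₀ / ξ + 4 * L₀) with hL'
  have hC0 : 0 < C₀ := by linarith
  have hL₀0 : 0 < L₀ := by positivity
  have hL'0 : 0 < L' := by positivity
  refine ⟨L + (4 * ((L₀ + 4 * L') / c₀) + 2 * (A + L₀)), 6 * L' + (A + L₀), by positivity,
    by positivity, ?_⟩
  intro X φ K K' x₀ T r Λ Z₁ Z₂ Ψ D r₀ t₀ δ hX hK hT hr1 hf0 hδ hδf hinj
  set f : ℝ := ξ * r / (16 * C₀) with hf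
  have hr : 0 < r := hK.r_pos
  have hfp : 0 < f := by positivity
  have hfC : C₀ * f = ξ * r / 16 := by
    rw [hf]
    field_simp
  have hξr : ξ * r ≤ r := mul_le_of_le_one_left hr.le hξ1
  have hfr : f ≤ r := by
    have : f ≤ C₀ * f := le_mul_of_one_le_left hfp.le hC
    linarith
  have hTp : 0 < T := hK.T_pos
  set D₀ : T3 → E := fun q => D q (1, 0) - X (Ψ q) with hD₀
  have hper : ∀ s w (n : ℤ), D₀ (s + n * T, w) = D₀ (s, w) := by
    intro s w n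
    simp only [hD₀]
    rw [(hT.toPreTube.per_int s w n).1, (hT.toPreTube.per_int s w n).2]
  have hcore : ∀ s, D₀ (s, 0) = K' s - X (K s) := by
    intro s
    simp only [hD₀]
    rw [hT.D0, hT.core]
    simp
  have hlip0 : ∀ q q' : T3, ‖q.2‖ < f → ‖q'.2‖ < f → ‖D₀ q - D₀ q'‖ ≤ L₀ * ‖q - q'‖ := by
    intro q q' hq hq'
    have h1 := hT.lipD q q' (hq.trans_le hf0) (hq'.trans_le hf0)
    have h2 := hT.lip q q' (hq.trans_le hf0) (hq'.trans_le hf0)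
    have h3 := hX.lip (Ψ q) (Ψ q')
    have h4 : ‖(D q - D q') (1, 0)‖ ≤ ‖D q - D q'‖ := by
      refine ((D q - D q').le_opNorm _).trans ?_
      rw [Prod.norm_def]
      simp
    have e : D₀ q - D₀ q' = (D q - D q') (1, 0) - (X (Ψ q) - X (Ψ q')) := by
      simp only [hD₀, _root_.sub_apply]
      abel
    have h5 : L * ‖(Ψ q : E) - Ψ q'‖ ≤ L * (C₀ * ‖q - q'‖) := mul_le_mul_of_nonneg_left h2 hL.le
    rw [e]
    refine (norm_sub_le _ _).trans ?_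
    rw [hL₀]
    linarith
  have hB : ∀ q : T3, ‖q.2‖ < f → ‖D₀ q‖ ≤ A * r + L₀ * f := by
    intro q hq
    have h1 := hlip0 q (q.1, 0) hq (by simpa using hfp)
    have e : ‖q - (q.1, 0)‖ = ‖q.2‖ := by
      rw [Prod.norm_def]
      simp
    have h2 : ‖D₀ (q.1, 0)‖ ≤ A * r := by
      rw [hcore]
      exact hK.dev _
    have h3 : L₀ * ‖q.2‖ ≤ L₀ * f := mul_le_mul_of_nonneg_left hq.le hL₀0.le
    have h4 := norm_le_insert' (D₀ q) (D₀ (q.1, 0))
    rw [e] at h1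
    linarith
  have hBr : A * r + L₀ * f ≤ (A + L₀) * r := by
    have : L₀ * f ≤ L₀ * r := mul_le_mul_of_nonneg_left hfr hL₀0.le
    linarith
  have hB1 : (A + L₀) * r ≤ A + L₀ := mul_le_of_le_one_right (by positivity) hr1
  have hz : ∀ s, h / 2 < aa T h s → D₀ (s, 0) = 0 := by
    intro s hs
    obtain ⟨n, hn, -⟩ := existsUnique_add_zsmul_mem_Ico hTp s 0
    rw [zsmul_eq_mul, zero_add] at hn
    rw [← hper s 0 n, hcore]
    by_cases h1 : h ≤ s + n * T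
    · rw [hK.eq _ ⟨h1, hn.2.le⟩, sub_self]
    · exfalso
      have h2 := aa_le T h (s + n * T)
      rw [aa_per] at h2
      have h3 : |s + n * T - h / 2| ≤ h / 2 := abs_le.2 ⟨by linarith [hn.1], by linarith⟩
      linarith
  have hLL : L₀ + (2 / h + 4 / f) * (A * r + L₀ * f) ≤ L' := by
    have h1 : 2 / h * (A * r + L₀ * f) ≤ 2 / h * (A + L₀) :=
      mul_le_mul_of_nonneg_left (hBr.trans hB1) (by positivity)
    have h2 : 4 / f * (A * r + L₀ * f) = 64 * A * C₀ / ξ + 4 * L₀ := by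
      rw [hf]
      field_simp
      ring
    rw [add_mul, h2, hL']
    linarith
  have hlip1 := D1_lip (T := T) hh hfp hlip0 hB hLL
  have hsm := D1_small hh hfp hz hlip1
  have hlipH := HH_lip (δ := δ) hδ hL'0.le hlip0 hlip1 hsm
  set C₂ : Set T3 := {q | ‖q.2‖ ≤ f / 2 ∧ aa T h q.1 ≤ h} with hC₂
  set C : Set T3 := {q | ‖q.2‖ ≤ 6 * δ} ∪ C₂ with hCdef
  have hn2 : Continuous fun q : T3 => ‖q.2‖ := continuous_snd.norm
  have hC₂c : IsClosed C₂ :=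
    (isClosed_le hn2 continuous_const).inter (isClosed_le (aa_cont T h) continuous_const)
  have hCc : IsClosed C := (isClosed_le hn2 continuous_const).union hC₂c
  have hC₂p : ∀ s w, (s + T, w) ∈ C₂ ↔ (s, w) ∈ C₂ := by
    intro s w
    simp only [hC₂, mem_ofPred_eq, aa_per1]
  have hCp : ∀ s w, (s + T, w) ∈ C ↔ (s, w) ∈ C := by
    intro s w
    simp only [hCdef, mem_union, mem_ofPred_eq, hC₂p]
  have hstrip : ∀ q ∈ dom T h f δ, ‖q.2‖ < f := by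
    rintro q (hq | hq)
    · exact hq.trans_le hδf
    · exact hq.1
  have hCU : C ⊆ dom T h f δ := by
    rintro q (hq | hq)
    · left
      have : ‖q.2‖ ≤ 6 * δ := hq
      linarith
    · right
      have h2 : aa T h q.1 ≤ h := hq.2
      exact ⟨by linarith [hq.1], by change aa T h q.1 < 3 * h / 2; linarith⟩
  have hUo : IsOpen (dom T h f δ) :=
    (isOpen_lt hn2 continuous_const).union
      ((isOpen_lt hn2 continuous_const).inter (isOpen_lt (aa_cont T h) continuous_const))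
  have hCi : IsClosed (Ψ '' C) := by
    refine hT.toPreTube.closed_image hTp hCc (r := 3 * f / 4) (by linarith) ?_ hCp
    rintro q (hq | hq)
    · have : ‖q.2‖ ≤ 6 * δ := hq
      linarith
    · linarith [hq.1]
  have hFi : IsClosed (Ψ '' C₂) :=
    hT.toPreTube.closed_image hTp hC₂c (r := f / 2) (by linarith) (fun q hq => hq.1) hC₂p
  obtain ⟨F, hF1, hF2, hF3, hF4⟩ := transplant (Ψ := Ψ) (U := dom T h f δ) (C := C)
    (H := HH T h f δ D₀) (L := (L₀ + 4 * L') / c₀) (B := (A + L₀) * r) (by positivity)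
    (by positivity) hUo hCU hCi
    (by
      intro q hq q' hq' he
      obtain ⟨h1, n, h2⟩ := hinj q hq q' hq' he
      have e : q' = (q.1 + n * T, q.2) := Prod.ext h2 h1
      rw [HH_eq, HH_eq, e, hper]
      simp only [om1, om2, aa_per])
    (fun q hq => hT.opn q ((hstrip q hq).trans_le hf0))
    (by
      intro q hq
      have ht := hT.t_pos
      refine ⟨{a | ‖a.2‖ < f ∧ |a.1 - q.1| < t₀ / 2}, ?_, ?_⟩
      · refine IsOpen.mem_nhds ((isOpen_lt hn2 continuous_const).inter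
          (isOpen_lt (continuous_fst.sub continuous_const).abs continuous_const)) ?_
        exact ⟨hstrip q hq, by simpa using ht⟩
      · intro a ha b hb
        have h1 : |a.1 - b.1| ≤ t₀ := by
          have h2 := abs_lt.1 ha.2
          have h3 := abs_lt.1 hb.2
          exact abs_le.2 ⟨by linarith [h2.1, h3.2], by linarith [h2.2, h3.1]⟩
        have h2 := hT.colip a b (ha.1.trans_le hf0) (hb.1.trans_le hf0) h1
        refine (hlipH a b ha.1 hb.1).trans ?_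
        rw [div_mul_eq_mul_div, le_div_iff₀ hc, mul_assoc, mul_comm _ c₀]
        exact mul_le_mul_of_nonneg_left h2 (by positivity))
    (by
      intro q _ hq
      have h1 : ¬ ‖q.2‖ ≤ 6 * δ := fun h1 => hq (Or.inl h1)
      have h2 : q ∉ C₂ := fun h2 => hq (Or.inr h2)
      rw [HH_eq, om1_zero hh hfp h2, om2_zero hδ (not_le.1 h1).le]
      simp)
    (fun q hq => (HH_norm _ _ _ _ _ _).trans ((hB q (hstrip q hq)).trans hBr))
  refine ⟨fun x => X x + F x, Ψ '' C₂, ⟨fun x => ?_, fun x y => ?_, fun x => ?_, fun x hx => ?_,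
    fun q hq => ?_, hFi, ?_⟩⟩
  · rw [inner_add_right, hX.perp, zero_add]
    by_cases hx : x ∈ Ψ '' C
    · obtain ⟨q, hq, rfl⟩ := hx
      rw [hF1 q (hCU hq), HH_eq, inner_smul_right]
      simp only [hD₀]
      rw [inner_sub_right, hX.perp,
        hT.toPreTube.perp ((hstrip q (hCU hq)).trans_le hf0), sub_zero, mul_zero]
    · rw [hF2 x hx, inner_zero_right]
  · have e : X x + F x - (X y + F y) = (X x - X y) + (F x - F y) := by abel
    have h1 := hX.lip x y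
    have h2 := hF4 x y
    have h3 : (4 * ((L₀ + 4 * L') / c₀) + 2 * ((A + L₀) * r)) * ‖(x : E) - y‖ ≤
        (4 * ((L₀ + 4 * L') / c₀) + 2 * (A + L₀)) * ‖(x : E) - y‖ :=
      mul_le_mul_of_nonneg_right (by linarith) (norm_nonneg _)
    rw [e, add_mul]
    exact (norm_add_le _ _).trans (by linarith)
  · rw [add_sub_cancel_left]
    refine (hF3 x).trans (mul_le_mul_of_nonneg_right ?_ hr.le)
    linarith
  · rw [add_sub_cancel_left]
    by_cases hxC : x ∈ Ψ '' C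
    · obtain ⟨q, hq, rfl⟩ := hxC
      have h2 : q ∉ C₂ := fun h2 => hx ⟨q, h2, rfl⟩
      have h1 : ‖q.2‖ ≤ 6 * δ := hq.resolve_right h2
      have h3 := hsm q (hstrip q (hCU hq))
      have h4 : D1 T h f D₀ q = D₀ q := by
        unfold D1
        rw [om1_zero hh hfp h2, sub_zero, one_smul]
      rw [h4] at h3
      rw [hF1 q (hCU hq)]
      refine (HH_norm _ _ _ _ _ _).trans (h3.trans ?_)
      have h5 : L' * ‖q.2‖ ≤ L' * (6 * δ) := mul_le_mul_of_nonneg_left h1 hL'0.le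
      have h6 : 0 ≤ (A + L₀) * δ := by positivity
      linarith
    · rw [hF2 x hxC, norm_zero]
      positivity
  · have hq' : q ∈ dom T h f δ := Or.inl (by linarith)
    beta_reduce
    rw [hF1 q hq', HH_eq, om2_one hδ hq]
    simp [hD₀]
  · rintro p ⟨q, hq, rfl⟩
    obtain ⟨n, hn⟩ := aa_rep T h q.1
    have h1 : aa T h q.1 ≤ h := hq.2
    rw [hn] at h1
    have h2 := abs_le.1 h1
    refine ⟨q.1 - n * T, ⟨by linarith [h2.1], by linarith [h2.2]⟩, ?_⟩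
    have e1 : Ψ q = Ψ (q.1 - n * T, q.2) := by
      rw [← (hT.toPreTube.per_int (q.1 - n * T) q.2 n).1, sub_add_cancel]
    have h3 : ‖q.2‖ ≤ f / 2 := hq.1
    have h4 := hT.lip (q.1 - n * T, q.2) (q.1 - n * T, 0) (by change ‖q.2‖ < r₀; linarith)
      (by simpa using hT.r_pos)
    have e2 : ‖((q.1 - n * T, q.2) : T3) - (q.1 - n * T, 0)‖ = ‖q.2‖ := by
      rw [Prod.norm_def]
      simp
    rw [e2, hT.core] at h4
    rw [e1]
    have h5 : C₀ * ‖q.2‖ ≤ C₀ * f := mul_le_mul_of_nonneg_left (by linarith) hC0.le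
    linarith

end Pool.Agent.Lib.MP_399f8e_an.Lk
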