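import Pool.Agent.Lib.MP_399f8e_an.Lk.ATrans
import Pool.Agent.Lib.MP_399f8e_an.Lk.AFlow2
import Pool.Agent.Lib.MP_399f8e_an.Lk.AKer

open Set Filter Topology Metric MeasureTheory
open scoped RealInnerProductSpace

noncomputable section

namespace Pool.Agent.Lib.MP_399f8e_an.Lk

open Rg

variable {X : S → E} {φ : ℝ → S → S} {m M L m₀ : ℝ} {Z₁ Z₂ : E → E}

namespace APushAux

theorem bdd {F : S → E} (hF : Continuous F) : ∃ B : ℝ, 0 < B ∧ ∀ x, ‖F x‖ ≤ B := by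
  obtain ⟨C, hC⟩ := isCompact_univ.exists_bound_of_continuousOn hF.continuousOn
  exact ⟨|C| + 1, by positivity, fun x => (hC x (mem_univ x)).trans (by linarith [le_abs_self C])⟩

theorem vol_le (x : S) {u v w : E} {a b c : ℝ} (hu : ‖u‖ ≤ a) (hv : ‖v‖ ≤ b) (hw : ‖w‖ ≤ c) :
    |vol x u v w| ≤ 24 * (a * b * c) := by
  have ha : 0 ≤ a := (norm_nonneg _).trans hu
  have hb : 0 ≤ b := (norm_nonneg _).trans hv
  refine (abs_vol_le _ _ _ _).trans ?_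
  rw [norm_coe, one_mul]
  gcongr

theorem vol_a (x w y z : E) (e t : ℝ) : vol x w (e • y - t • w) z = e * vol x w y z := by
  simp only [vol_eq, PiLp.sub_apply, PiLp.smul_apply, smul_eq_mul]
  ring

theorem vol_b (x w y z : E) (e t : ℝ) : vol x (e • y - t • w) y z = -t * vol x w y z := by
  simp only [vol_eq, PiLp.sub_apply, PiLp.smul_apply, smul_eq_mul]
  ring

theorem vol_c (x w w' y f z : E) :
    vol x w (y + f) z = vol x w' y z + vol x (w - w') y z + vol x w f z := by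
  simp only [vol_eq, PiLp.sub_apply, PiLp.add_apply]
  ring

theorem lipZ {Z : E → E} (hZ : ContDiff ℝ 2 Z) :
    ∃ l : ℝ, 0 ≤ l ∧ ∀ x y : S, ‖Z x - Z y‖ ≤ l * ‖(x : E) - y‖ := by
  have h1 : LocallyLipschitz Z := (hZ.of_le (by norm_num)).locallyLipschitz
  obtain ⟨k, hk⟩ := (h1.locallyLipschitzOn (s := sphere (0 : E) 1)).exists_lipschitzOnWith_of_compact
    (isCompact_sphere _ _)
  refine ⟨k, k.2, fun x y => ?_⟩
  have := hk.dist_le_mul x x.2 y y.2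
  rwa [dist_eq_norm, dist_eq_norm] at this

/-- the cutoff -/
def om (δ : ℝ) (q : T3) : ℝ := min 1 (max 0 (3 - ‖q.2‖ / (2 * δ)))

theorem om_mem (δ : ℝ) (q : T3) : 0 ≤ om δ q ∧ om δ q ≤ 1 :=
  ⟨le_min zero_le_one (le_max_left _ _), min_le_left _ _⟩

theorem om_one {δ : ℝ} (hδ : 0 < δ) {q : T3} (h : ‖q.2‖ ≤ 4 * δ) : om δ q = 1 := by
  have h1 : ‖q.2‖ / (2 * δ) ≤ 2 := by rw [div_le_iff₀ (by positivity)]; linarith
  exact min_eq_left (le_max_of_le_right (by linarith))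

theorem om_zero {δ : ℝ} (hδ : 0 < δ) {q : T3} (h : 6 * δ ≤ ‖q.2‖) : om δ q = 0 := by
  have h1 : 3 ≤ ‖q.2‖ / (2 * δ) := by rw [le_div_iff₀ (by positivity)]; linarith
  rw [om, max_eq_left (by linarith), min_eq_right zero_le_one]

theorem om_lip {δ : ℝ} (hδ : 0 < δ) (a b : T3) : |om δ a - om δ b| ≤ ‖a - b‖ / (2 * δ) := by
  have h1 : |om δ a - om δ b| ≤ |(3 - ‖a.2‖ / (2 * δ)) - (3 - ‖b.2‖ / (2 * δ))| := by
    refine (abs_min_sub_min_le_max _ _ _ _).trans (max_le (by simp) ?_)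
    exact (abs_max_sub_max_le_max _ _ _ _).trans (max_le (by simp) le_rfl)
  refine h1.trans ?_
  have h2 : (3 - ‖a.2‖ / (2 * δ)) - (3 - ‖b.2‖ / (2 * δ)) = (‖b.2‖ - ‖a.2‖) / (2 * δ) := by ring
  rw [h2, abs_div, abs_of_pos (show 0 < 2 * δ by positivity)]
  refine div_le_div_of_nonneg_right ?_ (by positivity)
  rw [abs_sub_comm]
  exact (abs_norm_sub_norm_le _ _).trans (norm_snd_le (a - b))

/-- The new field. -/
theorem field {K : ℝ → S} {K' : ℝ → E} {Z₁ Z₂ : E → E} {Ψ : T3 → S} {D : T3 → T3 →L[ℝ] E}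
    {T r₀ C₀ t₀ c₀ δ l : ℝ} (h : Tube K K' Z₁ Z₂ Ψ D T r₀ C₀ t₀ c₀) (hT : 0 < T) (hδ : 0 < δ)
    (hr : 8 * δ ≤ r₀) (hi : InjMod Ψ T {q | ‖q.2‖ < 8 * δ}) (hl : 0 ≤ l)
    (hZ : ∀ x y : S, ‖Z₁ x - Z₁ y‖ ≤ l * ‖(x : E) - y‖) (hp : ∀ x, ⟪x, Z₁ x⟫ = 0) :
    ∃ (F : S → E) (L : ℝ), 0 ≤ L ∧ (∀ x y : S, ‖F x - F y‖ ≤ L * ‖(x : E) - y‖) ∧
      (∀ x : S, ⟪(x : E), F x⟫ = 0) ∧ (∀ x, ‖F x‖ ≤ C₀ * (1 + l) * (8 * δ)) ∧
      ∀ q : T3, ‖q.2‖ ≤ 4 * δ → Z₁ (Ψ q) + F (Ψ q) = D q (0, (1, 0)) := by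
  have hC0 : 0 ≤ C₀ := zero_le_one.trans h.C_one
  have hc := h.c_pos
  have ht := h.t_pos
  set G : T3 → E := fun q => D q (0, (1, 0)) - Z₁ (Ψ q) with hG
  have he : ‖((0, (1, 0)) : T3)‖ = 1 := by simp [Prod.norm_def]
  have hGl : ∀ a b : T3, ‖a.2‖ < r₀ → ‖b.2‖ < r₀ → ‖G a - G b‖ ≤ C₀ * (1 + l) * ‖a - b‖ := by
    intro a b ha hb
    have e1 : G a - G b = (D a - D b) (0, (1, 0)) - (Z₁ (Ψ a) - Z₁ (Ψ b)) := by
      simp only [hG, sub_apply]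
      abel
    have e2 : ‖(D a - D b) (0, (1, 0))‖ ≤ C₀ * ‖a - b‖ := by
      refine ((D a - D b).le_opNorm _).trans ?_
      rw [he, mul_one]
      exact h.lipD a b ha hb
    have e3 : ‖Z₁ (Ψ a) - Z₁ (Ψ b)‖ ≤ l * (C₀ * ‖a - b‖) :=
      (hZ _ _).trans (mul_le_mul_of_nonneg_left (h.lip a b ha hb) hl)
    rw [e1]
    refine (norm_sub_le _ _).trans ?_
    linarith
  have hGb : ∀ a : T3, ‖a.2‖ < 8 * δ → ‖G a‖ ≤ C₀ * (1 + l) * (8 * δ) := by
    intro a ha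
    have e0 : G (a.1, 0) = 0 := by
      simp only [hG]
      rw [h.D0, h.core]
      simp
    have e1 := hGl a (a.1, 0) (by linarith) (by simpa using h.r_pos)
    have e2 : ‖a - (a.1, 0)‖ = ‖a.2‖ := by simp [Prod.norm_def]
    rw [e0, sub_zero, e2] at e1
    exact e1.trans (mul_le_mul_of_nonneg_left ha.le (by positivity))
  obtain ⟨F, hF1, hF2, hF3, hF4⟩ := transplant (Ψ := Ψ) (U := {q | ‖q.2‖ < 8 * δ})
    (C := {q | ‖q.2‖ ≤ 6 * δ}) (H := fun q => om δ q • G q) (L := 5 * (C₀ * (1 + l)) / c₀)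
    (B := C₀ * (1 + l) * (8 * δ)) (by positivity) (by positivity)
    (isOpen_lt continuous_snd.norm continuous_const)
    (fun q hq => lt_of_le_of_lt (show ‖q.2‖ ≤ 6 * δ from hq) (show 6 * δ < 8 * δ by linarith))
    (h.toPreTube.closed_image hT (isClosed_le continuous_snd.norm continuous_const)
      (show 6 * δ < r₀ by linarith) (fun q hq => hq) fun s w => Iff.rfl)
    (fun q hq q' hq' hΨ => by
      obtain ⟨h2, n, h1⟩ := hi q hq q' hq' hΨ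
      have e : q' = (q.1 + n * T, q.2) := Prod.ext h1 h2
      have e1 : D q' = D q := by rw [e]; exact (h.toPreTube.per_int q.1 q.2 n).2
      simp only [hG, om, h2, e1, hΨ])
    (fun q hq => h.opn q (lt_of_lt_of_le hq hr))
    (fun q hq => by
      refine ⟨{a | ‖a.2‖ < 8 * δ} ∩ {a | |a.1 - q.1| < t₀ / 2}, inter_mem
        ((isOpen_lt continuous_snd.norm continuous_const).mem_nhds hq)
        ((isOpen_lt (continuous_fst.sub continuous_const).abs continuous_const).mem_nhds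
          (by simpa using ht)), fun a ha b hb => ?_⟩
      have ha1 : ‖a.2‖ < 8 * δ := ha.1
      have hb1 : ‖b.2‖ < 8 * δ := hb.1
      have ha2 := abs_lt.1 (show |a.1 - q.1| < t₀ / 2 from ha.2)
      have hb2 := abs_lt.1 (show |b.1 - q.1| < t₀ / 2 from hb.2)
      have e1 := h.colip a b (by linarith) (by linarith) (abs_le.2 ⟨by linarith, by linarith⟩)
      have e2 : om δ a • G a - om δ b • G b = (om δ a - om δ b) • G a + om δ b • (G a - G b) := by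
        module
      have e3 : ‖(om δ a - om δ b) • G a‖ ≤ ‖a - b‖ / (2 * δ) * (C₀ * (1 + l) * (8 * δ)) := by
        rw [norm_smul, Real.norm_eq_abs]
        exact mul_le_mul (om_lip hδ a b) (hGb a ha1) (norm_nonneg _) (by positivity)
      have e4 : ‖om δ b • (G a - G b)‖ ≤ 1 * (C₀ * (1 + l) * ‖a - b‖) := by
        rw [norm_smul, Real.norm_of_nonneg (om_mem δ b).1]
        exact mul_le_mul (om_mem δ b).2 (hGl a b (by linarith) (by linarith)) (norm_nonneg _)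
          zero_le_one
      have e5 : ‖a - b‖ / (2 * δ) * (C₀ * (1 + l) * (8 * δ)) = 4 * (C₀ * (1 + l) * ‖a - b‖) := by
        field_simp
        ring
      have e6 : 5 * (C₀ * (1 + l) * ‖a - b‖) = 5 * (C₀ * (1 + l)) / c₀ * (c₀ * ‖a - b‖) := by
        field_simp
      rw [e2]
      refine (norm_add_le _ _).trans ?_
      have e7 := mul_le_mul_of_nonneg_left e1 (show 0 ≤ 5 * (C₀ * (1 + l)) / c₀ by positivity)
      linarith)
    (fun q _ hq => by rw [om_zero hδ (not_le.1 hq).le, zero_smul])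
    (fun q hq => by
      rw [norm_smul, Real.norm_of_nonneg (om_mem δ q).1]
      exact (mul_le_of_le_one_left (norm_nonneg _) (om_mem δ q).2).trans (hGb q hq))
  refine ⟨F, _, by positivity, hF4, fun x => ?_, hF3, fun q hq => ?_⟩
  · by_cases hx : x ∈ Ψ '' {q | ‖q.2‖ ≤ 6 * δ}
    · obtain ⟨q, hq, rfl⟩ := hx
      have hq' : ‖q.2‖ ≤ 6 * δ := hq
      rw [hF1 q (show ‖q.2‖ < 8 * δ by linarith), inner_smul_right, hG]
      simp only [inner_sub_right]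
      rw [h.toPreTube.perp (by linarith), hp]
      simp
    · rw [hF2 x hx, inner_zero_right]
  · rw [hF1 q (show ‖q.2‖ < 8 * δ by linarith), om_one hδ hq, one_smul, hG]
    simp

/-- The straight segments in the first transverse direction are integral curves. -/
theorem par {K : ℝ → S} {K' : ℝ → E} {Z₁ Z₂ : E → E} {Ψ : T3 → S} {D : T3 → T3 →L[ℝ] E}
    {T r₀ C₀ δ l : ℝ} (h : PreTube K K' Z₁ Z₂ Ψ D T r₀ C₀) (hδ : 0 < δ) (hr : 8 * δ ≤ r₀)
    {Y : S → E} {g : ℝ → S → S} (hg : LF Y g l)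
    (hY : ∀ q : T3, ‖q.2‖ ≤ 4 * δ → Y (Ψ q) = D q (0, (1, 0))) (s : ℝ) (w : ℝ × ℝ) (e : ℝ)
    (hw : ‖w‖ ≤ 3 * δ) (he : e ∈ Icc 0 (δ / 2)) : g e (Ψ (s, w)) = Ψ (s, w + (e, 0)) := by
  set c : ℝ → T3 := fun τ => (s, w + (max (-δ) (min δ τ), 0)) with hc
  have hcc : Continuous c := by rw [hc]; fun_prop
  have hcn : ∀ τ, ‖(c τ).2‖ ≤ 4 * δ := fun τ => by
    have h1 : ‖((max (-δ) (min δ τ), 0) : ℝ × ℝ)‖ ≤ δ := by
      rw [Prod.norm_def]
      refine max_le ?_ (by simpa using hδ.le)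
      exact abs_le.2 ⟨le_max_left _ _, max_le (by linarith) (min_le_left _ _)⟩
    exact (norm_add_le _ _).trans (by linarith)
  have hce : ∀ τ, -δ < τ → τ < δ → c τ = (s, w + (τ, 0)) := fun τ h1 h2 => by
    simp only [hc]
    rw [min_eq_right h2.le, max_eq_right h1.le]
  have hk : Continuous fun τ => Ψ (c τ) := by
    refine continuous_induced_rng.2 (continuous_iff_continuousAt.2 fun τ => ?_)
    exact (h.fd (c τ) (by linarith [hcn τ])).continuousAt.comp hcc.continuousAt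
  have hd : ∀ τ ∈ Icc 0 (δ / 2), HasDerivAt (fun τ => (Ψ (c τ) : E)) (Y (Ψ (c τ))) τ := by
    intro τ hτ
    have h1 : HasDerivAt (fun τ : ℝ => ((s, w + (τ, 0)) : T3)) (0, (1, 0)) τ :=
      (hasDerivAt_const τ s).prodMk
        (((hasDerivAt_id τ).prodMk (hasDerivAt_const τ (0 : ℝ))).const_add w)
    have h2 : HasDerivAt c (0, (1, 0)) τ := by
      refine h1.congr_of_eventuallyEq ?_
      filter_upwards [Ioo_mem_nhds (show -δ < τ by linarith [hτ.1])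
        (show τ < δ by linarith [hτ.2])] with σ hσ using hce σ hσ.1 hσ.2
    rw [hY _ (hcn τ)]
    exact (h.fd (c τ) (by linarith [hcn τ])).comp_hasDerivAt τ h2
  have h3 := hg.uniq hk hd he
  simp only [sub_zero] at h3
  rw [hce e (by linarith [he.1]) (by linarith [he.2]), hce 0 (by linarith) hδ] at h3
  rw [h3, Prod.mk_zero_zero, add_zero]

end APushAux

open APushAux

/-- If `g e x = ψ t x` then by `taylor` `e • Y x - t • W x` has norm at most `c (e ^ 2 + t ^ 2)`,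
while `vol x (W x) (e • Y x - t • W x) (Z x) = e * v` and `vol x (e • Y x - t • W x) (Y x) (Z x) = - t * v`
with `v = vol x (W x) (Y x) (Z x) ≥ μ`. -/
theorem LF.free {W Y Z : S → E} {ψ g : ℝ → S → S} {L₁ L₂ μ : ℝ} (hW : LF W ψ L₁) (hY : LF Y g L₂)
    (hZ : Continuous Z) (hμ : 0 < μ) (hv : ∀ x : S, μ ≤ vol x (W x) (Y x) (Z x)) :
    ∃ e₀ t₀ : ℝ, 0 < e₀ ∧ 0 < t₀ ∧ ∀ e ∈ Ioc 0 e₀, ∀ t, |t| ≤ t₀ → ∀ x, g e x ≠ ψ t x := by
  obtain ⟨B₁, hB₁, b₁⟩ := bdd hW.contW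
  obtain ⟨B₂, hB₂, b₂⟩ := bdd hY.contW
  obtain ⟨B₃, hB₃, b₃⟩ := bdd hZ
  have l₁ := hW.L_pos
  have l₂ := hY.L_pos
  set c := (L₁ * B₁ + L₂ * B₂) * (24 * ((B₁ + B₂) * B₃)) with hc
  have hc0 : 0 < c := by positivity
  refine ⟨μ / (2 * c), μ / (2 * c), by positivity, by positivity, fun e he t ht x hx => ?_⟩
  have t₁ := hW.taylor b₁ t x
  have t₂ := hY.taylor b₂ e x
  rw [hx] at t₂
  set u : E := e • Y x - t • W x with hu
  have hu1 : ‖u‖ ≤ L₁ * B₁ * t ^ 2 + L₂ * B₂ * e ^ 2 := by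
    have : u = ((ψ t x : E) - x - t • W x) - ((ψ t x : E) - x - e • Y x) := by rw [hu]; abel
    rw [this]
    exact (norm_sub_le _ _).trans (add_le_add t₁ t₂)
  have v₁ := vol_le x (b₁ x) (le_refl ‖u‖) (b₃ x)
  have v₂ := vol_le x (le_refl ‖u‖) (b₂ x) (b₃ x)
  have hv0 : 0 < vol x (W x) (Y x) (Z x) := hμ.trans_le (hv x)
  rw [hu, vol_a, abs_mul, abs_of_pos he.1, abs_of_pos hv0, ← hu] at v₁
  rw [hu, vol_b, abs_mul, abs_neg, abs_of_pos hv0, ← hu] at v₂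
  have a₁ := mul_le_mul_of_nonneg_left (hv x) he.1.le
  have a₂ := mul_le_mul_of_nonneg_left (hv x) (abs_nonneg t)
  have a₃ : (e + |t|) * μ ≤ ‖u‖ * (24 * ((B₁ + B₂) * B₃)) := by linarith
  have s₁ : t ^ 2 ≤ μ / (2 * c) * (e + |t|) := by
    rw [← sq_abs, sq]
    exact mul_le_mul ht (by linarith [he.1]) (abs_nonneg t) (by positivity)
  have s₂ : e ^ 2 ≤ μ / (2 * c) * (e + |t|) := by
    rw [sq]
    exact mul_le_mul he.2 (by linarith [abs_nonneg t]) he.1.le (by positivity)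
  have a₄ : ‖u‖ ≤ (L₁ * B₁ + L₂ * B₂) * (μ / (2 * c) * (e + |t|)) := by
    have := mul_le_mul_of_nonneg_left s₁ (show 0 ≤ L₁ * B₁ by positivity)
    have := mul_le_mul_of_nonneg_left s₂ (show 0 ≤ L₂ * B₂ by positivity)
    linarith
  have a₅ := mul_le_mul_of_nonneg_right a₄ (show 0 ≤ 24 * ((B₁ + B₂) * B₃) by positivity)
  have a₆ : (L₁ * B₁ + L₂ * B₂) * (μ / (2 * c) * (e + |t|)) * (24 * ((B₁ + B₂) * B₃)) =
      (e + |t|) * μ / 2 := by
    have : (L₁ * B₁ + L₂ * B₂) * (μ / (2 * c) * (e + |t|)) * (24 * ((B₁ + B₂) * B₃)) =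
        c * (μ / (2 * c) * (e + |t|)) := by rw [hc]; ring
    rw [this]
    field_simp
  have a₇ : 0 < (e + |t|) * μ := mul_pos (by linarith [he.1, abs_nonneg t]) hμ
  linarith

/-- `Y = Z₁ +` the transplant of `H q = ω₂ q • (D q (0, (1, 0)) - Z₁ (Ψ q))` on `U = {‖w‖ < 8 δ}`,
`C = {‖w‖ ≤ 6 δ}`, `ω₂ = min 1 (max 0 (3 - ‖w‖ / (2 δ)))`. As `D (s, 0) (0, (1, 0)) = Z₁ (K s)`,
`‖H‖ ≤ (C₀ + LZ C₀) 8 δ` with `LZ` a Lipschitz constant of `Z₁` on the sphere. `g` is the flow of `Y`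
(`exists_LF`); the curve `e ↦ Ψ (s, w + (e, 0))` (clamp the parameter to get a continuous curve on the
line, or use `Ψ` on the strip) is an integral curve on `[0, δ / 2]` (`LF.uniq`). `LF.free` with
`μ = m₀ / 2`. -/
theorem Frame2.exists_push (hZ : Frame2 X Z₁ Z₂ m₀) (hB : Base X φ m M L) (C₀ : ℝ) :
    ∃ ζ₂ δ₂ : ℝ, 0 < ζ₂ ∧ 0 < δ₂ ∧ ∀ {K : ℝ → S} {K' : ℝ → E} {Ψ : T3 → S} {D : T3 → T3 →L[ℝ] E}
      {T r₀ t₀ c₀ δ L₁ : ℝ} {W : S → E} {ψ : ℝ → S → S}, Tube K K' Z₁ Z₂ Ψ D T r₀ C₀ t₀ c₀ →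
      0 < T → 0 < δ → δ ≤ δ₂ → 8 * δ ≤ r₀ → InjMod Ψ T {q | ‖q.2‖ < 8 * δ} → LF W ψ L₁ →
      (∀ x, ‖W x - X x‖ ≤ ζ₂) → ∃ g, Push ψ g Ψ δ := by
  obtain ⟨l, hl, hlZ⟩ := lipZ hZ.c1
  have c₁ : Continuous fun x : S => Z₁ x := hZ.c1.continuous.comp continuous_subtype_val
  have c₂ : Continuous fun x : S => Z₂ x := hZ.c2.continuous.comp continuous_subtype_val
  obtain ⟨B₁, hB₁, b₁⟩ := bdd c₁
  obtain ⟨B₂, hB₂, b₂⟩ := bdd c₂
  have hM : 0 ≤ M := (norm_nonneg _).trans (hB.up pole)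
  have hm := hZ.m_pos
  refine ⟨min 1 (m₀ / (96 * (B₁ * B₂))), m₀ / (96 * ((M + 1) * ((|C₀| + 1) * (1 + l) * 8) * B₂)),
    lt_min one_pos (by positivity), by positivity, ?_⟩
  intro K K' Ψ D T r₀ t₀ c₀ δ L₁ W ψ h hT hδ hδ₂ hr hi hW hζ
  obtain ⟨F, LF', hL', hFl, hFp, hFb, hFq⟩ := field h hT hδ hr hi hl hlZ hZ.p1
  obtain ⟨g, hg⟩ := exists_LF (W := fun x : S => Z₁ x + F x) (L := l + LF' + 1) (by positivity)
    (fun x y => by
      have e : Z₁ x + F x - (Z₁ y + F y) = (Z₁ x - Z₁ y) + (F x - F y) := by abel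
      rw [e]
      refine (norm_add_le _ _).trans ?_
      have := hlZ x y
      have := hFl x y
      have := norm_nonneg ((x : E) - y)
      linarith)
    (fun x => by rw [inner_add_right, hZ.p1, hFp, add_zero])
  refine ⟨g, hg.cont, hg.zero, par h.toPreTube hδ hr hg hFq,
    hW.free hg c₂ (half_pos hm) fun x => ?_⟩
  have hWb : ‖W x‖ ≤ M + 1 := by
    have e : W x = X x + (W x - X x) := by abel
    rw [e]
    exact (norm_add_le _ _).trans (add_le_add (hB.up x) ((hζ x).trans (min_le_left _ _)))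
  have hFb' : ‖F x‖ ≤ (|C₀| + 1) * (1 + l) * 8 * δ := by
    refine (hFb x).trans ?_
    have : C₀ ≤ |C₀| + 1 := by linarith [le_abs_self C₀]
    calc C₀ * (1 + l) * (8 * δ) ≤ (|C₀| + 1) * (1 + l) * (8 * δ) := by gcongr
      _ = (|C₀| + 1) * (1 + l) * 8 * δ := by ring
  have v₁ := vol_le x ((hζ x).trans (min_le_right _ _)) (b₁ x) (b₂ x)
  have v₂ := vol_le x hWb hFb' (b₂ x)
  have e₁ : 24 * (m₀ / (96 * (B₁ * B₂)) * B₁ * B₂) = m₀ / 4 := by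
    field_simp
    ring
  have e₂ : 24 * ((M + 1) * ((|C₀| + 1) * (1 + l) * 8 * δ) * B₂) ≤ m₀ / 4 := by
    rw [le_div_iff₀ (by positivity)] at hδ₂
    linarith
  rw [e₁] at v₁
  rw [vol_c _ _ (X x)]
  have := hZ.det x
  have := (abs_le.1 v₁).1
  have := (abs_le.1 (v₂.trans e₂)).1
  linarith

end Pool.Agent.Lib.MP_399f8e_an.Lk
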