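import Pool.Agent.Lib.MP_399f8e_an.Lk.ATube1

open Set Filter Topology Metric MeasureTheory
open scoped RealInnerProductSpace

noncomputable section

namespace Pool.Agent.Lib.MP_399f8e_an.Lk

open Rg

variable {X : S → E} {φ : ℝ → S → S} {m M L m₀ : ℝ} {Z₁ Z₂ : E → E}

namespace ATube2Aux

theorem vol_sub2 (x u u' v w : E) : vol x (u - u') v w = vol x u v w - vol x u' v w := by
  simp only [vol_eq, PiLp.sub_apply]
  ring

theorem cr1 (x a b c : E) (t u v : ℝ) : vol x (t • a + u • b + v • c) b c = t * vol x a b c := by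
  simp only [vol_eq, PiLp.add_apply, PiLp.smul_apply, smul_eq_mul]
  ring

theorem cr2 (x a b c : E) (t u v : ℝ) : vol x a (t • a + u • b + v • c) c = u * vol x a b c := by
  simp only [vol_eq, PiLp.add_apply, PiLp.smul_apply, smul_eq_mul]
  ring

theorem cr3 (x a b c : E) (t u v : ℝ) : vol x a b (t • a + u • b + v • c) = v * vol x a b c := by
  simp only [vol_eq, PiLp.add_apply, PiLp.smul_apply, smul_eq_mul]
  ring

theorem prod_le {a b n C : ℝ} (ha0 : 0 ≤ a) (hb0 : 0 ≤ b) (hn : 0 ≤ n) (ha : a ≤ C) (hb : b ≤ C) :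
    n * (a * b) ≤ n * (C ^ 2 + 1) := by
  refine mul_le_mul_of_nonneg_left ?_ hn
  have := mul_le_mul ha hb hb0 (ha0.trans ha)
  nlinarith

theorem coef_le {t V μ C n y : ℝ} (hμ : 0 < μ) (hV : μ / 2 ≤ V) (h : y = t * V)
    (hy : |y| ≤ 24 * (n * (C ^ 2 + 1))) : μ / (48 * (C ^ 2 + 1)) * |t| ≤ n := by
  have hC : 0 < 48 * (C ^ 2 + 1) := by positivity
  have hV0 : 0 ≤ V := by linarith
  rw [h, abs_mul, abs_of_nonneg hV0] at hy
  rw [div_mul_eq_mul_div, div_le_iff₀ hC]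
  have := mul_le_mul_of_nonneg_left hV (abs_nonneg t)
  nlinarith

theorem cramer (x a b c : E) {μ C : ℝ} (hμ : 0 < μ) (hx : ‖x‖ = 1) (ha : ‖a‖ ≤ C) (hb : ‖b‖ ≤ C)
    (hc : ‖c‖ ≤ C) (hV : μ / 2 ≤ vol x a b c) (v : T3) :
    μ / (48 * (C ^ 2 + 1)) * ‖v‖ ≤ ‖v.1 • a + v.2.1 • b + v.2.2 • c‖ := by
  set y : E := v.1 • a + v.2.1 • b + v.2.2 • c with hy
  have h1 : μ / (48 * (C ^ 2 + 1)) * |v.1| ≤ ‖y‖ := by
    refine coef_le hμ hV (cr1 x a b c v.1 v.2.1 v.2.2) ((abs_vol_le _ _ _ _).trans ?_)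
    have := prod_le (norm_nonneg b) (norm_nonneg c) (norm_nonneg y) hb hc
    rw [hx]
    nlinarith
  have h2 : μ / (48 * (C ^ 2 + 1)) * |v.2.1| ≤ ‖y‖ := by
    refine coef_le hμ hV (cr2 x a b c v.1 v.2.1 v.2.2) ((abs_vol_le _ _ _ _).trans ?_)
    have := prod_le (norm_nonneg a) (norm_nonneg c) (norm_nonneg y) ha hc
    rw [hx]
    nlinarith
  have h3 : μ / (48 * (C ^ 2 + 1)) * |v.2.2| ≤ ‖y‖ := by
    refine coef_le hμ hV (cr3 x a b c v.1 v.2.1 v.2.2) ((abs_vol_le _ _ _ _).trans ?_)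
    have := prod_le (norm_nonneg a) (norm_nonneg b) (norm_nonneg y) ha hb
    rw [hx]
    nlinarith
  rw [Prod.norm_def, Prod.norm_def, Real.norm_eq_abs, Real.norm_eq_abs, Real.norm_eq_abs]
  rcases le_total |v.2.1| |v.2.2| with h | h
  · rw [max_eq_right h]
    rcases le_total |v.1| |v.2.2| with h' | h'
    · rwa [max_eq_right h']
    · rwa [max_eq_left h']
  · rw [max_eq_left h]
    rcases le_total |v.1| |v.2.1| with h' | h'
    · rwa [max_eq_right h']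
    · rwa [max_eq_left h']

variable {K : ℝ → S} {K' : ℝ → E} {Ψ : T3 → S} {D : T3 → T3 →L[ℝ] E} {T r₀ C₀ : ℝ}

theorem mono (h : PreTube K K' Z₁ Z₂ Ψ D T r₀ C₀) {r₁ : ℝ} (h0 : 0 < r₁) (h1 : r₁ ≤ r₀) :
    PreTube K K' Z₁ Z₂ Ψ D T r₁ C₀ where
  r_pos := h0
  C_one := h.C_one
  core := h.core
  D0 := h.D0
  per := h.per
  perD := h.perD
  fd q hq := h.fd q (hq.trans_le h1)
  bd q hq := h.bd q (hq.trans_le h1)
  lipD q q' hq hq' := h.lipD q q' (hq.trans_le h1) (hq'.trans_le h1)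
  lip q q' hq hq' := h.lip q q' (hq.trans_le h1) (hq'.trans_le h1)

theorem zero_lt (h : PreTube K K' Z₁ Z₂ Ψ D T r₀ C₀) (s : ℝ) : ‖((s, 0) : T3).2‖ < r₀ := by
  simpa using h.r_pos

theorem unit_le (h : PreTube K K' Z₁ Z₂ Ψ D T r₀ C₀) (s : ℝ) (v : T3) (hv : ‖v‖ ≤ 1) :
    ‖D (s, 0) v‖ ≤ C₀ := by
  have h1 := (D (s, 0)).le_opNorm v
  have h2 := h.bd (s, 0) (zero_lt h s)
  have h3 := mul_le_mul h2 hv (norm_nonneg v) (le_trans zero_le_one h.C_one)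
  linarith

theorem low0 (hZ : Frame2 X Z₁ Z₂ m₀) (h : PreTube K K' Z₁ Z₂ Ψ D T r₀ C₀)
    (hK : ∀ t, ‖K' t - X (K t)‖ ≤ m₀ / (48 * (C₀ ^ 2 + 1))) (s : ℝ) (v : T3) :
    m₀ / (48 * (C₀ ^ 2 + 1)) * ‖v‖ ≤ ‖D (s, 0) v‖ := by
  have ha : ‖K' s‖ ≤ C₀ := by
    have := unit_le h s (1, (0, 0)) (by simp [Prod.norm_def])
    rw [h.D0] at this
    simpa using this
  have hb : ‖Z₁ (K s)‖ ≤ C₀ := by
    have := unit_le h s (0, (1, 0)) (by simp [Prod.norm_def])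
    rw [h.D0] at this
    simpa using this
  have hc : ‖Z₂ (K s)‖ ≤ C₀ := by
    have := unit_le h s (0, (0, 1)) (by simp [Prod.norm_def])
    rw [h.D0] at this
    simpa using this
  rw [h.D0]
  refine cramer (K s) _ _ _ hZ.m_pos (norm_coe _) ha hb hc ?_ v
  have h1 := hZ.det (K s)
  have h2 := abs_vol_le (K s) (K' s - X (K s)) (Z₁ (K s)) (Z₂ (K s))
  rw [vol_sub2, norm_coe] at h2
  have h3 := prod_le (norm_nonneg (Z₁ (K s))) (norm_nonneg (Z₂ (K s)))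
    (norm_nonneg (K' s - X (K s))) hb hc
  have hC : 0 < 48 * (C₀ ^ 2 + 1) := by positivity
  have h4 := hK s
  rw [le_div_iff₀ hC] at h4
  have h5 := (abs_le.1 h2).1
  nlinarith

theorem orth (h : PreTube K K' Z₁ Z₂ Ψ D T r₀ C₀) (q : T3) (hq : ‖q.2‖ < r₀) (v : T3) :
    ⟪(Ψ q : E), D q v⟫ = 0 := by
  have h1 := (h.fd q hq).norm_sq
  have h2 : (fun p : T3 => ‖(Ψ p : E)‖ ^ 2) = fun _ => (1 : ℝ) := by
    funext p
    rw [norm_coe]
    norm_num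
  rw [h2] at h1
  have h3 := congrArg (fun f => f v) (h1.unique (hasFDerivAt_const (1 : ℝ) q))
  simpa using h3

theorem strict (h : PreTube K K' Z₁ Z₂ Ψ D T r₀ C₀) (q : T3) (hq : ‖q.2‖ < r₀) :
    HasStrictFDerivAt (fun p : T3 => (Ψ p : E)) (D q) q := by
  have ho : ∀ᶠ p : T3 in 𝓝 q, ‖p.2‖ < r₀ :=
    (continuous_snd.norm.continuousAt (x := q)).eventually_lt continuousAt_const hq
  refine hasStrictFDerivAt_of_hasFDerivAt_of_continuousAt (ho.mono fun p hp => h.fd p hp) ?_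
  rw [ContinuousAt, tendsto_iff_norm_sub_tendsto_zero]
  have h0 : Tendsto (fun p : T3 => C₀ * ‖p - q‖) (𝓝 q) (𝓝 0) := by
    have hc : Continuous fun p : T3 => C₀ * ‖p - q‖ := by fun_prop
    simpa using hc.tendsto q
  exact squeeze_zero' (Eventually.of_forall fun _ => norm_nonneg _)
    (ho.mono fun p hp => h.lipD p q hp hq) h0

theorem opn (h : PreTube K K' Z₁ Z₂ Ψ D T r₀ C₀) (q : T3) (hq : ‖q.2‖ < r₀)
    (hinj : ∀ v, D q v = 0 → v = 0) : 𝓝 (Ψ q) ≤ map Ψ (𝓝 q) := by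
  have h1 : HasStrictFDerivAt (fun p : ℝ × T3 => (Ψ p.2 : E))
      ((D q).comp (ContinuousLinearMap.snd ℝ ℝ T3)) ((1 : ℝ), q) :=
    HasStrictFDerivAt.comp ((1 : ℝ), q) (g := fun p : T3 => (Ψ p : E)) (strict h q hq)
      hasStrictFDerivAt_snd
  have h2 : HasStrictFDerivAt (fun p : ℝ × T3 => p.1) (ContinuousLinearMap.fst ℝ ℝ T3)
      ((1 : ℝ), q) := hasStrictFDerivAt_fst
  have h3 := h2.fun_smul h1
  set F : (ℝ × T3) →L[ℝ] E := (1 : ℝ) • (D q).comp (ContinuousLinearMap.snd ℝ ℝ T3) +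
    (ContinuousLinearMap.fst ℝ ℝ T3).smulRight (Ψ q : E) with hF
  have hi : Function.Injective (F : (ℝ × T3) →ₗ[ℝ] E) := by
    rw [injective_iff_map_eq_zero]
    intro p hp
    have hp' : D q p.2 + p.1 • (Ψ q : E) = 0 := by simpa [hF] using hp
    have h4 := congrArg (fun y : E => ⟪(Ψ q : E), y⟫) hp'
    simp only [inner_add_right, inner_smul_right, orth h q hq, real_inner_self_eq_norm_sq,
      norm_coe, inner_zero_right] at h4
    have h5 : p.1 = 0 := by linarith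
    rw [h5, zero_smul, add_zero] at hp'
    exact Prod.ext h5 (hinj _ hp')
  have hs : Function.Surjective (F : (ℝ × T3) →ₗ[ℝ] E) :=
    (LinearMap.injective_iff_surjective_of_finrank_eq_finrank (by simp)).1 hi
  have h6 := h3.map_nhds_eq_of_surj (LinearMap.range_eq_top.2 hs)
  intro U hU
  have hW : (Ioi (0 : ℝ) ×ˢ (Ψ ⁻¹' U)) ∈ 𝓝 ((1 : ℝ), q) :=
    prod_mem_nhds (Ioi_mem_nhds one_pos) hU
  have h7 := image_mem_map (m := fun p : ℝ × T3 => p.1 • (Ψ p.2 : E)) hW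
  rw [h6, one_smul] at h7
  have h8 := (continuous_subtype_val.continuousAt (x := Ψ q)).preimage_mem_nhds h7
  refine mem_of_superset h8 ?_
  rintro y ⟨p, ⟨hp1, hp2⟩, hy⟩
  have h9 : p.1 = 1 := by
    have := congrArg norm hy
    rwa [norm_smul, norm_coe, norm_coe, mul_one, Real.norm_of_nonneg (le_of_lt hp1)] at this
  have h10 : Ψ p.2 = y := by
    apply Subtype.ext
    have hy' : p.1 • (Ψ p.2 : E) = y := hy
    rwa [h9, one_smul] at hy'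
  exact h10 ▸ hp2

end ATube2Aux

/-- For `ζ₁` small `vol x (K' s) (Z₁ x) (Z₂ x) ≥ m₀ / 2` at `x = K s`; Cramer
(`vol x v Z₁ Z₂ = t * vol x K' Z₁ Z₂` for `v = D (s, 0) (t, w)`, and so on) gives
`‖D (s, 0) v‖ ≥ 2 c₀ ‖v‖`. With `t₀ = c₀ / C₀` and `r₁ = min r₀ t₀`: on the convex set
`|s - q.1| ≤ t₀`, `‖w‖ < r₁` one has `‖D q' - D (q.1, 0)‖ ≤ c₀`, and the mean value inequality gives
`colip`. `opn`: the map (l, q) ↦ l • Ψ q` has at (1, q)` the strict derivative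
(μ, v) ↦ μ • Ψ q + D q v`, injective because `D q v` is orthogonal to the unit vector `Ψ q`, hence
surjective (`HasStrictFDerivAt.map_nhds_eq_of_surj`); a point `l • Ψ q'` of the sphere with `l > 0` is
`Ψ q'`. -/
theorem Frame2.tube (hZ : Frame2 X Z₁ Z₂ m₀) (hB : Base X φ m M L) (r₀ C₀ : ℝ) :
    ∃ r₁ t₀ c₀ ζ₁ : ℝ, 0 < ζ₁ ∧ ∀ (K : ℝ → S) (K' : ℝ → E) (Ψ : T3 → S) (D : T3 → T3 →L[ℝ] E)
      (T : ℝ), PreTube K K' Z₁ Z₂ Ψ D T r₀ C₀ → (∀ t, ‖K' t - X (K t)‖ ≤ ζ₁) →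
        Tube K K' Z₁ Z₂ Ψ D T r₁ C₀ t₀ c₀ := by
  refine ⟨min r₀ (m₀ / (96 * (C₀ ^ 2 + 1)) / C₀), m₀ / (96 * (C₀ ^ 2 + 1)) / C₀,
    m₀ / (96 * (C₀ ^ 2 + 1)), m₀ / (48 * (C₀ ^ 2 + 1)), ?_, ?_⟩
  · have := hZ.m_pos
    positivity
  intro K K' Ψ D T h hK
  have hm := hZ.m_pos
  have hC : 0 < C₀ := lt_of_lt_of_le one_pos h.C_one
  have hlow := ATube2Aux.low0 hZ h hK
  have h2 : m₀ / (48 * (C₀ ^ 2 + 1)) = 2 * (m₀ / (96 * (C₀ ^ 2 + 1))) := by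
    field_simp
    norm_num
  rw [h2] at hlow
  have hc : 0 < m₀ / (96 * (C₀ ^ 2 + 1)) := by positivity
  generalize m₀ / (96 * (C₀ ^ 2 + 1)) = c at hlow hc ⊢
  have ht : 0 < c / C₀ := by positivity
  have hnear : ∀ (s : ℝ) (p : T3), |p.1 - s| ≤ c / C₀ → ‖p.2‖ < min r₀ (c / C₀) →
      ‖D p - D (s, 0)‖ ≤ c := by
    intro s p h1 hp
    have h3 := h.lipD p (s, 0) (hp.trans_le (min_le_left _ _)) (ATube2Aux.zero_lt h s)
    have h4 : ‖p - ((s, 0) : T3)‖ ≤ c / C₀ := by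
      rw [Prod.norm_def]
      refine max_le (by simpa using h1) ?_
      simpa using (hp.trans_le (min_le_right _ _)).le
    have h5 := mul_le_mul_of_nonneg_left h4 hC.le
    rw [mul_div_cancel₀ _ hC.ne'] at h5
    exact h3.trans h5
  refine ⟨ATube2Aux.mono h (lt_min h.r_pos ht) (min_le_left _ _), ht, hc, ?_, ?_⟩
  · intro q q' hq hq' hd
    have hcv : Convex ℝ (closedBall q.1 (c / C₀) ×ˢ ball (0 : ℝ × ℝ) (min r₀ (c / C₀))) :=
      (convex_closedBall _ _).prod (convex_ball _ _)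
    have key := Convex.norm_image_sub_le_of_norm_hasFDerivWithin_le'
      (f := fun p : T3 => (Ψ p : E)) (f' := D) (φ := D (q.1, 0)) (C := c) (x := q') (y := q)
      (fun p hp => (h.fd p ((mem_ball_zero_iff.1 hp.2).trans_le
        (min_le_left _ _))).hasFDerivWithinAt)
      (fun p hp => hnear q.1 p (by simpa [Real.dist_eq] using hp.1) (mem_ball_zero_iff.1 hp.2))
      hcv ⟨by simpa [Real.dist_eq, abs_sub_comm] using hd, mem_ball_zero_iff.2 hq'⟩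
      ⟨mem_closedBall_self ht.le, mem_ball_zero_iff.2 hq⟩
    have h3 := hlow q.1 (q - q')
    have h4 := norm_sub_le ((Ψ q : E) - Ψ q') ((Ψ q : E) - Ψ q' - D (q.1, 0) (q - q'))
    rw [sub_sub_cancel] at h4
    linarith
  · intro q hq
    refine ATube2Aux.opn h q (hq.trans_le (min_le_left _ _)) fun v hv => ?_
    have h3 := hlow q.1 v
    have h4 := (D q - D (q.1, 0)).le_opNorm v
    have h5 := mul_le_mul_of_nonneg_right (hnear q.1 q (by simpa using ht.le) hq) (norm_nonneg v)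
    rw [sub_apply, hv, zero_sub, norm_neg] at h4
    have h6 : c * ‖v‖ ≤ 0 := by linarith
    have h7 : ‖v‖ ≤ 0 := by
      by_contra h8
      have := mul_pos hc (not_le.1 h8)
      linarith
    exact norm_le_zero_iff.1 h7

/-- `exists_preTube` with `M' = M + 1` and `tube`; positivity of the constants can be forced by
hand when no curve exists (replace them by one if some of them is not positive). -/
theorem Frame2.exists_tube (hZ : Frame2 X Z₁ Z₂ m₀) (hB : Base X φ m M L) (Λ : ℝ) :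
    ∃ r₀ C₀ t₀ c₀ ζ₁ : ℝ, 0 < r₀ ∧ 1 ≤ C₀ ∧ 0 < t₀ ∧ 0 < c₀ ∧ 0 < ζ₁ ∧
      ∀ (K : ℝ → S) (K' : ℝ → E) (T : ℝ), Loop K K' T Λ → (∀ t, ‖K' t - X (K t)‖ ≤ ζ₁) →
        ∃ Ψ D, Tube K K' Z₁ Z₂ Ψ D T r₀ C₀ t₀ c₀ := by
  obtain ⟨r₀, C₀, hP⟩ := hZ.exists_preTube Λ (M + 1)
  obtain ⟨r₁, t₀, c₀, ζ₁, hζ, hT⟩ := hZ.tube hB r₀ C₀
  have key : ∀ (K : ℝ → S) (K' : ℝ → E) (T : ℝ), Loop K K' T Λ →
      (∀ t, ‖K' t - X (K t)‖ ≤ min ζ₁ 1) → ∃ Ψ D, Tube K K' Z₁ Z₂ Ψ D T r₁ C₀ t₀ c₀ := by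
    intro K K' T hL hK
    obtain ⟨Ψ, D, h⟩ := hP K K' T hL fun t => by
      have h1 := norm_add_le (K' t - X (K t)) (X (K t))
      rw [sub_add_cancel] at h1
      have h2 := (hK t).trans (min_le_right _ _)
      have h3 := hB.up (K t)
      linarith
    exact ⟨Ψ, D, hT K K' Ψ D T h fun t => (hK t).trans (min_le_left _ _)⟩
  by_cases hpos : 0 < r₁ ∧ 1 ≤ C₀ ∧ 0 < t₀ ∧ 0 < c₀
  · exact ⟨r₁, C₀, t₀, c₀, min ζ₁ 1, hpos.1, hpos.2.1, hpos.2.2.1, hpos.2.2.2,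
      lt_min hζ one_pos, key⟩
  · refine ⟨1, 1, 1, 1, min ζ₁ 1, one_pos, le_rfl, one_pos, one_pos, lt_min hζ one_pos, ?_⟩
    intro K K' T hL hK
    obtain ⟨Ψ, D, h⟩ := key K K' T hL hK
    exact absurd ⟨h.r_pos, h.C_one, h.t_pos, h.c_pos⟩ hpos

end Pool.Agent.Lib.MP_399f8e_an.Lk
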