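import Pool.Agent.Lib.MP_399f8e_an.Lk.ACore
import Pool.Agent.Lib.MP_399f8e_an.Lk.AComp
import Pool.Agent.Lib.MP_399f8e_an.Lk.AChord
import Pool.Agent.Lib.MP_399f8e_an.Lk.AKnot2
import Pool.Agent.Lib.MP_399f8e_an.Lk.ATube2
import Pool.Agent.Lib.MP_399f8e_an.Lk.APert1
import Pool.Agent.Lib.MP_399f8e_an.Lk.APert2
import Pool.Agent.Lib.MP_399f8e_an.Lk.APush
import Pool.Agent.Lib.MP_399f8e_an.Lk.AForm2

open Set Filter Topology Metric MeasureTheory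
open scoped RealInnerProductSpace

noncomputable section

namespace Pool.Agent.Lib.MP_399f8e_an.Lk

open Rg

theorem ev_le (k : ℝ) {c : ℝ} (hc : 0 < c) : ∀ᶠ r in 𝓝[>] (0 : ℝ), k * r ≤ c := by
  have h : Tendsto (fun r : ℝ => k * r) (𝓝[>] 0) (𝓝 (k * 0)) :=
    ((continuous_const.mul continuous_id).tendsto 0).mono_left nhdsWithin_le_nhds
  rw [mul_zero] at h
  exact h.eventually (Iic_mem_nhds hc)

theorem ev_ge (a : ℝ) {k : ℝ} (hk : 0 < k) : ∀ᶠ T in atTop, a ≤ k * T :=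
  (tendsto_id.const_mul_atTop hk).eventually_ge_atTop a

theorem LF.mono {W : S → E} {ψ : ℝ → S → S} {L L' : ℝ} (h : LF W ψ L) (hL : L ≤ L') : LF W ψ L' :=
  { h with
    L_pos := h.L_pos.trans_le hL
    lip := fun x y => (h.lip x y).trans (mul_le_mul_of_nonneg_right hL (norm_nonneg _)) }

theorem NoRet.orb {X W : S → E} {ψ : ℝ → S → S} {L ζ η t₁ τ : ℝ} (h : NoRet X ζ η t₁ τ)
    (hW : LF W ψ L) (hζ : ∀ x, ‖W x - X x‖ ≤ ζ) (y : S) (t : ℝ) (h1 : t₁ ≤ t) (h2 : t ≤ τ) :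
    η < ‖(ψ t y : E) - y‖ := by
  have := h _ 0 t (hW.pc hζ y 0 t) (by linarith) (by linarith)
  simpa [hW.zero] using this

variable {X : S → E} {φ : ℝ → S → S} {m M L : ℝ}

theorem Base.false (hB : Base X φ m M L)
    (H : ∀ μ ν, Inv φ μ → Inv φ ν → lk X μ μ * lk X ν ν < 4 * lk X μ ν ^ 2) : False := by
  have hm := hB.m_pos
  have hmM : m ≤ M := (hB.low pole).trans (hB.up pole)
  have hM : 0 < M := hm.trans_le hmM
  have hL := hB.L_pos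
  have hX : Continuous X := hB.toLF.contW
  obtain ⟨Z₁, Z₂, m₀, hZ⟩ := hB.exists_frame2
  obtain ⟨Λ, -, hknot⟩ := hB.exists_knot
  obtain ⟨r₀, C₀, t₀, c₀, ζ₁, hr₀, hC₀, ht₀, hc₀, hζ₁, htube⟩ := hZ.exists_tube hB Λ
  obtain ⟨ζ₂, δ₂, hζ₂, hδ₂, hpush⟩ := hZ.exists_push hB C₀
  obtain ⟨Cp, hCp, hmer⟩ := mer_bound (2 * M) C₀ c₀
  obtain ⟨σ, c, C, κ, hσ, hc, hcC, hκ, hκ1, hPKe⟩ := hB.exists_PK H
  obtain ⟨ξ, hξ, hξ1, hchord⟩ := exists_chord (ε := κ / 40) (by positivity) (by linarith)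
  obtain ⟨h₀, rg, hh₀, hrg, hgap⟩ := hB.gap hξ hξ1
  obtain ⟨h, hh, hh0, hh1, hht⟩ : ∃ h : ℝ, 0 < h ∧ h ≤ h₀ ∧ h ≤ 1 ∧ 6 * h ≤ t₀ :=
    ⟨min (min h₀ 1) (t₀ / 6), by positivity, (min_le_left _ _).trans (min_le_left _ _),
      (min_le_left _ _).trans (min_le_right _ _), by linarith [min_le_right (min h₀ 1) (t₀ / 6)]⟩
  obtain ⟨A, r₁, hA, hr₁, hk⟩ := hknot h ⟨hh, hh1⟩
  obtain ⟨L₂, C₁, hL₂, hC₁, hpert⟩ := exists_pert hL hC₀ hc₀ hξ hξ1 hh hA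
  set L₁ := max L₂ L with hL₁
  obtain ⟨tW, CW, hnear⟩ := exists_near (L := L₁) (m := m / 2) (M := 2 * M) (by positivity)
    (hL.trans_le (le_max_right _ _))
  have hnX := hnear X φ (hB.toLF.mono (le_max_right _ _))
    fun x => ⟨by linarith [hB.low x], by linarith [hB.up x]⟩
  have htW := hnX.t_pos
  have hCW := hnX.C_pos
  obtain ⟨C', hC'⟩ : ∃ C', C' = 2 * C / c := ⟨_, rfl⟩
  have hC2 : 2 ≤ C' := by
    rw [hC', le_div_iff₀ hc]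
    linarith
  have hεc : 0 < κ / 40 * c := by positivity
  obtain ⟨τ, hτ, hτe⟩ : ∃ τ : ℝ, 0 < τ ∧ 2 * CW / τ * C' = κ / 40 * c / 4 :=
    ⟨8 * CW * C' / (κ / 40 * c), by positivity, by field_simp; ring⟩
  obtain ⟨η₁, ζ₃, hη₁, hζ₃, hnr₁⟩ := hB.exists_noRet (t₁ := tW / 2) (by positivity) τ
  obtain ⟨η, ⟨⟨ζ, T₀, hζ, hT₀, hPK⟩, hηη⟩, hη⟩ :=
    ((hPKe.and (ev_le 2 hη₁)).and self_mem_nhdsWithin).exists
  have hη0 : 0 < η := hη
  obtain ⟨B, hBd⟩ : ∃ B, B = 2880 * M ^ 2 / η ^ 2 := ⟨_, rfl⟩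
  have hb : ∀ x y, |gf X η x y| ≤ B := fun x y => hBd ▸ gf_le hη0 hB.up x y
  obtain ⟨τ₀, hτ₀⟩ := eventually_atTop.1 ((((ev_ge (24 * h * B * C') hεc).and
    (ev_ge (2 * B * T₀) hεc)).and (ev_ge (12 * Cp) (mul_pos hκ hc))).and
    ((eventually_ge_atTop 1).and ((eventually_ge_atTop τ).and
      ((eventually_ge_atTop (T₀ + 12 * h)).and (eventually_ge_atTop (2 * t₀))))))
  obtain ⟨-, -, -, hτ₂, -⟩ := hτ₀ τ₀ le_rfl
  obtain ⟨η₂, ζ₄, hη₂, hζ₄, hnr₂⟩ := hB.exists_noRet (t₁ := min h tW) (by positivity) τ₀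
  have hk₀ : 0 < κ / 40 * c / 4 := by positivity
  obtain ⟨r', hr', hrr⟩ := (nhdsGT_basis_Ioc (0 : ℝ)).eventually_iff.1
    (((((ev_le 1 hr₁).and (ev_le 1 hrg)).and ((ev_le 1 one_pos).and (ev_le 2 hη₂))).and
      (((ev_le 1 hr₀).and (ev_le A hζ₁)).and ((ev_le C₁ hζ).and (ev_le C₁ hζ₂)))).and
      ((((ev_le C₁ hζ₃).and (ev_le C₁ hζ₄)).and ((ev_le C₁ (half_pos hm)).and
        (ev_le (8640 * M * C₁ / η ^ 2 * C') hk₀))).and (ev_le (Real.exp (2 * L₁ * h)) hη₂)))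
  obtain ⟨r, hr, x₀, T, hhT, hgp, hmin⟩ := hchord hB hPK hζ hT₀ hc hh hr'
  obtain ⟨⟨⟨⟨q1, q2⟩, q3, q4⟩, ⟨q5, q6⟩, q7, q8⟩, ⟨⟨q9, q10⟩, q11, q12⟩, q13⟩ := hrr hr
  have hr0 : 0 < r := hr.1
  have hl : ∀ (x : S) (T' : ℝ), h ≤ T' → ‖(φ T' x : E) - x‖ ≤ (1 + ξ) * r → τ₀ ≤ T' := by
    intro x T' h1 h2
    by_contra h3
    have := hnr₂.orb hB.toLF (fun x => by simpa using hζ₄.le) x T' ((min_le_left _ _).trans h1)
      (not_le.1 h3).le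
    nlinarith
  have hTτ : τ₀ ≤ T := hl x₀ T hhT (by nlinarith)
  obtain ⟨⟨⟨n1, n2⟩, n3⟩, n4, n5, n6, n7⟩ := hτ₀ T hTτ
  have hT0 : 0 < T := by linarith
  obtain ⟨K, K', hK⟩ := hk r ⟨hr0, by linarith⟩ x₀ T (by linarith) hgp
  obtain ⟨Ψ, D, hT⟩ := htube K K' T hK.toLoop fun t => (hK.dev t).trans q6
  have hG := hgap hK hh0 (by linarith)
  have hmid := hK.noMid hB hPK hη0 hζ.le hc hξ (by linarith) hG hmin
    fun x T' h1 h2 => by linarith [hl x T' h1 h2]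
  have hf0 : 0 < ξ * r / (16 * C₀) := by positivity
  have hf : ξ * r / (16 * C₀) ≤ r₀ := by
    rw [div_le_iff₀ (by positivity)]
    nlinarith
  obtain ⟨d₀, hsep⟩ := hK.sep hB hT hξ hmid hht
  have hd₀ := hsep.1
  obtain ⟨ϑ₁, hϑ₁, hu⟩ := gf_unif hX hη0 (ε := κ / 40 * c / (2 * C' ^ 2)) (by positivity)
  obtain ⟨η₃, ζ₅, hη₃, hζ₅, hnr₃⟩ := hB.exists_noRet hh (C' * T)
  obtain ⟨ϑ, hϑ, hϑa, hϑb, hϑc⟩ : ∃ ϑ : ℝ, 0 < ϑ ∧ ϑ ≤ ϑ₁ ∧ ϑ ≤ η₃ ∧ ϑ ≤ ξ * r / 16 :=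
    ⟨min (min ϑ₁ η₃) (ξ * r / 16), by positivity, (min_le_left _ _).trans (min_le_left _ _),
      (min_le_left _ _).trans (min_le_right _ _), min_le_right _ _⟩
  obtain ⟨δ, ⟨⟨⟨hinj, p1⟩, p2, p3⟩, ⟨p4, p5⟩, p6⟩, hδ⟩ :=
    ((((((hK.injMod hB hT hξ hmid hht hf).and (ev_le 8 hf0)).and ((ev_le 1 hδ₂).and
      (ev_le (C₁ * (C' * T) * Real.exp (L * (C' * T))) hϑ))).and
      (((ev_le (C₀ * 2) hϑ).and (ev_le (C₀ * (7 / 2)) (half_pos hd₀))).and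
        (ev_le (4 * T * (7 / 2)) (pow_pos hd₀ 2)))).and self_mem_nhdsWithin).exists :)
  have hδ0 : 0 < δ := hδ
  obtain ⟨W, F, hP⟩ := hpert hB.toLF hK hT (by linarith) hf hδ0 p1 hinj
  obtain ⟨ψ, hW₂⟩ := exists_LF hL₂ hP.lip hP.perp
  have hW : LF W ψ L₁ := hW₂.mono (le_max_left _ _)
  have hth := hT.thin hT0 hδ0 (p1.trans hf) hinj
  obtain ⟨g, hg⟩ := hpush hT hT0 hδ0 (by linarith) (p1.trans hf)
    (fun q hq q' hq' he => hinj q (Or.inl hq) q' (Or.inl hq') he) hW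
    fun x => (hP.near x).trans q8
  obtain ⟨β, hβ⟩ := hK.toLoop.exists_form
  have hWb : ∀ x, m / 2 ≤ ‖W x‖ ∧ ‖W x‖ ≤ 2 * M := fun x => by
    have a1 := (hP.near x).trans q11
    have a2 := norm_sub_norm_le (W x) (X x)
    have a3 := norm_sub_norm_le (X x) (W x)
    rw [norm_sub_rev] at a3
    constructor <;> linarith [hB.low x, hB.up x]
  have hn := hnear W ψ hW hWb
  have hδr : 4 * δ < r₀ := by linarith
  have hKo : ∀ t, K t = ψ t (K 0) := fun t => by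
    have := hT.toPreTube.flow hW hδr hP.par 0 t (w := 0) (by simpa using hδ0.le)
    rw [hT.core, zero_add, hT.core] at this
    exact this.symm
  have hKW : ∀ t, K' t = W (K t) := fun t => by
    have := hP.par (t, 0) (by simpa using hδ0.le)
    rw [hT.core, hT.D0] at this
    simpa using this.symm
  refine core_false hB hW hK hT.toPreTube hth hP hβ hg hPK hσ hη0 hc hcC hκ hκ1 hT₀ hξ q7
    (by positivity) hG hmin hC' (e₁ := 2 * CW / τ + 8640 * M * (C₁ * r) / η ^ 2) (τ := τ₀)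
    (η₂ := η₂) (ϑ := ϑ) (Cp := Cp) (fun x hx => ?_) (by positivity) ?_
    (fun y t h1 h2 => hnr₂.orb hW (fun x => (hP.near x).trans q10) y t
      ((min_le_left _ _).trans h1) h2) (fun x t ht hxt => ?_) ?_ hτ₂
    (fun y t h1 h2 => hϑb.trans_lt (hnr₃.orb hB.toLF (fun x => by simpa using hζ₅.le) y t h1 h2))
    (by linarith) hϑc (fun x x' y y' h1 h2 => hu x x' y y' (h1.trans hϑa) (h2.trans hϑa)) hb
    (by linarith) hδ0 hδr (by linarith) ?_ n1 n2 n3 n4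
  · refine (hβ.est_point hW hKo hKW hX hn hη0 hτ hT0.le
      (fun y t h1 h2 => hηη.trans_lt (hnr₁.orb hW (fun x => (hP.near x).trans q9) y t h1 h2))
      hB.up (fun x => (hWb x).2) hP.near hx).trans ?_
    have a1 : 1 ≤ T / τ := (one_le_div hτ).2 n5
    have a2 : CW * (T / τ + 1) ≤ 2 * CW / τ * T := by
      have : 2 * CW / τ * T = CW * (T / τ + T / τ) := by ring
      rw [this]
      exact mul_le_mul_of_nonneg_left (by linarith) hCW.le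
    linarith
  · have : 8640 * M * (C₁ * r) / η ^ 2 * C' = 8640 * M * C₁ / η ^ 2 * C' * r := by ring
    rw [add_mul, hτe, this]
    linarith
  · by_contra h3
    have a1 : tW < t := by
      by_contra h4
      exact hn.free x t ht (not_lt.1 h4) hxt
    have := hnr₂.orb hW (fun x => (hP.near x).trans q10) x t ((min_le_right _ _).trans a1.le)
      (not_le.1 h3).le
    rw [hxt, sub_self, norm_zero] at this
    linarith
  · refine le_trans (mul_le_mul_of_nonneg_left ?_ (Real.exp_pos _).le) q13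
    nlinarith
  · exact hmer hK.toLoop hT hth hβ hsep n7 (fun t => by rw [hKW]; exact (hWb _).2)
      (by positivity) (by linarith) (by linarith) (by linarith) (by linarith)

theorem main {Lp : NNReal} (hX : LipschitzWith Lp X) (h0 : ∀ x, φ 0 x = x)
    (hφ : ∀ (x : S) (t : ℝ), HasDerivAt (fun t => (φ t x : E)) (X (φ t x)) t)
    (aper : ∀ x t, 0 < t → φ t x ≠ x) :
    ∃ μ ν : Measure S, Inv φ μ ∧ Inv φ ν ∧ Integrable (gg X) (μ.prod ν) ∧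
      Integrable (gg X) (μ.prod μ) ∧ Integrable (gg X) (ν.prod ν) ∧
      4 * lk X μ ν ^ 2 ≤ lk X μ μ * lk X ν ν := by
  have hF : LF X φ ((Lp : ℝ) + 1) := LF.of_der (by positivity) (fun x y => by
    have := hX.dist_le_mul x y
    rw [dist_eq_norm, Subtype.dist_eq, dist_eq_norm] at this
    nlinarith [norm_nonneg ((x : E) - y)]) h0 hφ
  obtain ⟨m, M, hB⟩ := hF.base aper
  by_contra hn
  refine hB.false fun μ ν hμ hν => ?_
  by_contra h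
  exact hn ⟨μ, ν, hμ, hν, hB.integrable hμ hν, hB.integrable hμ hμ, hB.integrable hν hν,
    not_lt.1 h⟩

end Pool.Agent.Lib.MP_399f8e_an.Lk
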