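import Pool.Agent.Lib.MP_399f8e_an.Lk.ANear

open Set Filter Topology Metric MeasureTheory
open scoped RealInnerProductSpace

noncomputable section

namespace Pool.Agent.Lib.MP_399f8e_an.Lk

open Rg

variable {X : S → E} {φ : ℝ → S → S} {m M L : ℝ}

namespace AMeasAux

/-- Tonelli along the flow for an invariant probability. -/
theorem inv_mul (hφ : IsFl φ) {ν : Measure S} (hν : Inv φ ν) {f : S → ENNReal}
    (hf : Measurable f) (τ : ℝ) :
    (∫⁻ y, f y ∂ν) * ENNReal.ofReal τ = ∫⁻ y, (∫⁻ t in Icc 0 τ, f (φ t y)) ∂ν := by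
  have := hν.1
  have hm : Measurable fun p : ℝ × S => f (φ p.1 p.2) := hf.comp hφ.cont.measurable
  have h1 : ∫⁻ t in Icc 0 τ, (∫⁻ y, f (φ t y) ∂ν) = ∫⁻ y, (∫⁻ t in Icc 0 τ, f (φ t y)) ∂ν :=
    lintegral_lintegral_swap (f := fun t y => f (φ t y)) hm.aemeasurable
  rw [← h1]
  have h2 : ∀ t, ∫⁻ y, f (φ t y) ∂ν = ∫⁻ y, f y ∂ν := fun t => (hν.2 t).lintegral_comp hf
  simp only [h2]
  rw [setLIntegral_const, Real.volume_Icc, sub_zero]

/-- A bound along all orbit segments of length `τ` bounds the double integral. -/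
theorem prod_le (hφ : IsFl φ) {μ ν : Measure S} (hμ : Inv φ μ) (hν : Inv φ ν)
    {F : S × S → ENNReal} (hF : Measurable F) {τ : ℝ} (hτ : 0 < τ) {c : ENNReal}
    (hb : ∀ x y : S, ∫⁻ t in Icc 0 τ, F (x, φ t y) ≤ c * ENNReal.ofReal τ) :
    ∫⁻ p, F p ∂(μ.prod ν) ≤ c := by
  have := hμ.1
  have := hν.1
  have key : ∀ x : S, ∫⁻ y : S, F (x, y) ∂ν ≤ c := by
    intro x
    have hf : Measurable fun y : S => F (x, y) := hF.comp measurable_prodMk_left
    have h1 := inv_mul hφ hν hf τ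
    have h2 : ∫⁻ y : S, (∫⁻ t in Icc 0 τ, F (x, φ t y)) ∂ν ≤ c * ENNReal.ofReal τ := by
      refine (lintegral_mono fun y => hb x y).trans ?_
      rw [lintegral_const, measure_univ, mul_one]
    rw [← h1] at h2
    exact (ENNReal.mul_le_mul_iff_left (ENNReal.ofReal_pos.2 hτ).ne' ENNReal.ofReal_ne_top).1 h2
  rw [lintegral_prod _ hF.aemeasurable]
  refine (lintegral_mono key).trans ?_
  rw [lintegral_const, measure_univ, mul_one]

theorem meas_cut (η : ℝ) : Measurable fun p : S × S => cut η p.1 p.2 := by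
  have h : Continuous fun p : S × S => ((p.1 : E), (p.2 : E)) := by fun_prop
  exact ((continuous_cut η).comp h).measurable

theorem meas_near (hX : Continuous X) (η : ℝ) :
    Measurable fun p : S × S => (1 - cut η p.1 p.2) * gg X p :=
  (measurable_const.sub (meas_cut η)).mul (measurable_gg hX)

theorem meas_near' (hX : Continuous X) (η : ℝ) :
    Measurable fun p : S × S => ENNReal.ofReal ((1 - cut η p.1 p.2) * |gg X p|) :=
  ((measurable_const.sub (meas_cut η)).mul
    (continuous_abs.measurable.comp (measurable_gg hX))).ennreal_ofReal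

theorem norm_near (X : S → E) (η : ℝ) (p : S × S) :
    ‖(1 - cut η p.1 p.2) * gg X p‖ = (1 - cut η p.1 p.2) * |gg X p| := by
  rw [Real.norm_eq_abs, abs_mul, abs_of_nonneg (sub_nonneg.2 (cut_mem η _ _).2)]

theorem split (X : S → E) (η : ℝ) (p : S × S) :
    gg X p = gf X η p.1 p.2 + (1 - cut η p.1 p.2) * gg X p := by
  unfold gf gg
  ring

theorem int_gf (h : Base X φ m M L) {η : ℝ} (hη : 0 < η) (ρ : Measure (S × S))
    [IsFiniteMeasure ρ] : Integrable (fun p : S × S => gf X η p.1 p.2) ρ :=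
  Integrable.of_bound (continuous_gf h.toLF.contW hη).aestronglyMeasurable
    (2880 * M ^ 2 / η ^ 2) (Eventually.of_forall fun p => gf_le hη h.up p.1 p.2)

theorem int_near (hX : Continuous X) {η ε : ℝ} {ρ : Measure (S × S)}
    (hb : ∫⁻ p : S × S, ENNReal.ofReal ((1 - cut η p.1 p.2) * |gg X p|) ∂ρ ≤ ENNReal.ofReal ε) :
    Integrable (fun p : S × S => (1 - cut η p.1 p.2) * gg X p) ρ := by
  refine ⟨(meas_near hX η).aestronglyMeasurable, ?_⟩
  rw [hasFiniteIntegral_iff_norm]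
  simp only [norm_near]
  exact hb.trans_lt ENNReal.ofReal_lt_top

end AMeasAux

/-- For an invariant `ν`, a measurable `f ≥ 0` and `τ > 0`:
`τ ∫ f dν = ∫ (∫ t in [0, τ], f (φ t y)) dν y` (Tonelli). With `Near.window` for `T = τ` the near part
(1 - cut η x y) |gg (x, y)|` has integral at most `2 C₀ / τ` in `y`, for every `x`. The no-return
hypothesis comes from `exists_noRet` and `LF.pc`. -/
theorem Base.near_small (h : Base X φ m M L) {ε : ℝ} (hε : 0 < ε) :
    ∀ᶠ η in 𝓝[>] (0 : ℝ), ∀ μ ν : Measure S, Inv φ μ → Inv φ ν →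
      ∫⁻ p : S × S, ENNReal.ofReal ((1 - cut η p.1 p.2) * |gg X p|) ∂(μ.prod ν) ≤
        ENNReal.ofReal ε := by
  obtain ⟨t₀, C₀, hN⟩ := exists_near (M := M) h.m_pos h.L_pos
  have hn : Near X φ t₀ C₀ := hN X φ h.toLF fun x => ⟨h.low x, h.up x⟩
  have hC := hn.C_pos
  have hτ : 0 < 2 * C₀ / ε := by positivity
  obtain ⟨η₀, ζ, hη₀, hζ, hr⟩ := h.exists_noRet (half_pos hn.t_pos) (2 * C₀ / ε)
  filter_upwards [Ioo_mem_nhdsGT (half_pos hη₀)] with η hη μ ν hμ hν
  have hr' : ∀ (y : S) (t : ℝ), t₀ / 2 ≤ t → t ≤ 2 * C₀ / ε → 2 * η < ‖(φ t y : E) - y‖ := by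
    intro y t h1 h2
    have h3 := hr (orb φ y) 0 t (h.toLF.pc (fun x => by simpa using hζ.le) y 0 t)
      (by simpa using h1) (by simpa using h2)
    simp only [orb, h.zero] at h3
    linarith [hη.2]
  refine AMeasAux.prod_le h.toIsFl hμ hν (AMeasAux.meas_near' h.toLF.contW η) hτ ?_
  intro x y
  refine (hn.window h.toLF hη.1 hτ hr' x y hτ.le).trans ?_
  rw [← ENNReal.ofReal_mul hε.le]
  refine le_of_eq (congrArg _ ?_)
  field_simp
  ring

/-- `gg = gf + (1 - cut) gg`, the first term is bounded. -/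
theorem Base.integrable (h : Base X φ m M L) {μ ν : Measure S} (hμ : Inv φ μ) (hν : Inv φ ν) :
    Integrable (gg X) (μ.prod ν) := by
  have := hμ.1
  have := hν.1
  obtain ⟨η, hb, hη⟩ := ((h.near_small one_pos).and self_mem_nhdsWithin).exists
  have h1 := (AMeasAux.int_gf h hη (μ.prod ν)).add
    (AMeasAux.int_near h.toLF.contW (hb μ ν hμ hν))
  exact h1.congr (Eventually.of_forall fun p => (AMeasAux.split X η p).symm)

theorem Base.lk_approx (h : Base X φ m M L) {ε : ℝ} (hε : 0 < ε) :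
    ∀ᶠ η in 𝓝[>] (0 : ℝ), ∀ μ ν : Measure S, Inv φ μ → Inv φ ν →
      |lk X μ ν - lkf X η μ ν| ≤ ε := by
  filter_upwards [h.near_small hε, self_mem_nhdsWithin] with η hb hη μ ν hμ hν
  have := hμ.1
  have := hν.1
  have h1 := AMeasAux.int_gf h hη (μ.prod ν)
  have h2 := AMeasAux.int_near h.toLF.contW (hb μ ν hμ hν)
  have e : lk X μ ν - lkf X η μ ν =
      ∫ p : S × S, (1 - cut η p.1 p.2) * gg X p ∂(μ.prod ν) := by
    unfold lk lkf
    rw [sub_eq_iff_eq_add', ← integral_add h1 h2]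
    exact integral_congr_ae (Eventually.of_forall fun p => AMeasAux.split X η p)
  rw [e, ← Real.norm_eq_abs]
  refine (norm_integral_le_lintegral_norm _).trans ?_
  simp only [AMeasAux.norm_near]
  exact ENNReal.toReal_le_of_le_ofReal hε.le (hb μ ν hμ hν)

end Pool.Agent.Lib.MP_399f8e_an.Lk
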