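import Pool.Agent.Lib.MP_399f8e_an.Lk.AMono1
import Pool.Agent.Lib.MP_399f8e_an.Rg.Lift

open Set Filter Topology Metric MeasureTheory
open scoped RealInnerProductSpace

noncomputable section

namespace Pool.Agent.Lib.MP_399f8e_an.Lk

open Rg

variable {G : Type} [AddCommGroup G] {β : E → E →L[ℝ] ℝ} {K : ℝ → S} {K' : ℝ → E} {Ψ : T3 → S}
  {T R p q : ℝ} {F : T3 → ℝ}

namespace AMono2Aux

theorem step_int {g : ℝ → ℝ} {a b : ℝ} (h : ∀ s, g (s + a) = g s + b) (s : ℝ) (n : ℤ) :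
    g (s + n * a) = g s + n * b := by
  induction n using Int.induction_on with
  | zero => simp
  | succ n ih =>
    have e : s + ((n : ℤ) + 1 : ℤ) * a = s + (n : ℤ) * a + a := by push_cast; ring
    rw [e, h, ih]
    push_cast
    ring
  | pred n ih =>
    have e : s + (-(n : ℤ) : ℤ) * a = s + (-(n : ℤ) - 1 : ℤ) * a + a := by push_cast; ring
    rw [e, h] at ih
    push_cast at ih ⊢
    linarith

/-- the plane part as a complex number -/
def cw (y : T3) : ℂ := ⟨y.2.1, y.2.2⟩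

theorem continuous_cw : Continuous cw := by
  have e : cw = fun y : T3 => (y.2.1 : ℂ) + (y.2.2 : ℂ) * Complex.I := by
    funext y
    apply Complex.ext <;> simp [cw]
  rw [e]
  fun_prop

/-- a section of the polar coordinates near the angle `α` -/
def sec (α : ℝ) (y : T3) : T3 :=
  (y.1, (α + Complex.arg (cw y * Complex.exp (-(α : ℂ) * Complex.I)), ‖cw y‖))

theorem pol_sec (α : ℝ) (y : T3) : pol (sec α y) = y := by
  have h1 : ‖cw y * Complex.exp (-(α : ℂ) * Complex.I)‖ = ‖cw y‖ := by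
    rw [norm_mul, ← Complex.ofReal_neg, Complex.norm_exp_ofReal_mul_I, mul_one]
  have h2 := Complex.norm_mul_exp_arg_mul_I (cw y * Complex.exp (-(α : ℂ) * Complex.I))
  rw [h1] at h2
  have h3 : (‖cw y‖ : ℂ) * Complex.exp
      (((α + Complex.arg (cw y * Complex.exp (-(α : ℂ) * Complex.I)) : ℝ) : ℂ) * Complex.I) =
        cw y := by
    rw [Complex.ofReal_add, add_mul, Complex.exp_add, mul_left_comm, h2, mul_left_comm,
      ← Complex.exp_add]
    simp
  have h4 := congrArg Complex.re h3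
  have h5 := congrArg Complex.im h3
  rw [Complex.re_ofReal_mul, Complex.exp_ofReal_mul_I_re] at h4
  rw [Complex.im_ofReal_mul, Complex.exp_ofReal_mul_I_im] at h5
  exact Prod.ext rfl (Prod.ext h4 h5)

theorem cw_pol (z : T3) :
    cw (pol z) * Complex.exp (-(z.2.1 : ℂ) * Complex.I) = (z.2.2 : ℂ) := by
  have h : cw (pol z) = (z.2.2 : ℂ) * Complex.exp ((z.2.1 : ℂ) * Complex.I) := by
    apply Complex.ext
    · rw [Complex.re_ofReal_mul, Complex.exp_ofReal_mul_I_re]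
      rfl
    · rw [Complex.im_ofReal_mul, Complex.exp_ofReal_mul_I_im]
      rfl
  rw [h, mul_assoc, ← Complex.exp_add]
  simp

theorem sec_pol {z : T3} (hz : 0 < z.2.2) : sec z.2.1 (pol z) = z := by
  have h1 := cw_pol z
  have h2 : ‖cw (pol z)‖ = z.2.2 := by
    have := congrArg norm h1
    rwa [norm_mul, ← Complex.ofReal_neg, Complex.norm_exp_ofReal_mul_I, mul_one,
      Complex.norm_real, Real.norm_eq_abs, abs_of_pos hz] at this
  unfold sec
  rw [h1, h2, Complex.arg_ofReal_of_nonneg hz.le, add_zero]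
  rfl

theorem nhds_pol {z : T3} (hz : 0 < z.2.2) : 𝓝 (pol z) ≤ map pol (𝓝 z) := by
  have h1 : ContinuousAt (fun y : T3 => cw y * Complex.exp (-(z.2.1 : ℂ) * Complex.I)) (pol z) :=
    (continuous_cw.mul continuous_const).continuousAt
  have h2 : ContinuousAt (fun y : T3 =>
      Complex.arg (cw y * Complex.exp (-(z.2.1 : ℂ) * Complex.I))) (pol z) := by
    refine ContinuousAt.comp (g := Complex.arg) (Complex.continuousAt_arg ?_) h1
    rw [cw_pol]
    exact Complex.ofReal_mem_slitPlane.2 hz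
  have h3 : ContinuousAt (sec z.2.1) (pol z) :=
    continuousAt_fst.prodMk ((continuousAt_const.add h2).prodMk continuous_cw.norm.continuousAt)
  have h4 : Tendsto (sec z.2.1) (𝓝 (pol z)) (𝓝 z) := by
    have := h3.tendsto
    rwa [sec_pol hz] at this
  have h5 := map_mono (m := pol) h4
  rw [Filter.map_map] at h5
  have e : pol ∘ sec z.2.1 = id := funext (pol_sec _)
  rwa [e, map_id] at h5

theorem continuous_pol : Continuous pol := by
  unfold pol
  fun_prop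

theorem pol_lt {z : T3} (h0 : 0 < z.2.2) (h1 : z.2.2 < R) : ‖(pol z).2‖ < R :=
  (norm_pol z).1.trans_lt (by rwa [abs_of_pos h0])

theorem pol_ne {z : T3} (h0 : 0 < z.2.2) : (pol z).2 ≠ 0 := fun h => by
  have := (norm_pol z).2
  rw [h, norm_zero, abs_of_pos h0] at this
  linarith

theorem norm_le_cw (y : T3) : ‖y.2‖ ≤ ‖cw y‖ :=
  norm_prod_le_iff.2 ⟨Complex.abs_re_le_norm (cw y), Complex.abs_im_le_norm (cw y)⟩

theorem cw_pos {y : T3} (h : y.2 ≠ 0) : 0 < ‖cw y‖ :=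
  (norm_pos_iff.2 h).trans_le (norm_le_cw y)

theorem per_int (h : Thin K Ψ T R) (s : ℝ) (w : ℝ × ℝ) (n : ℤ) : Ψ (s + n * T, w) = Ψ (s, w) :=
  (show Function.Periodic (fun s => Ψ (s, w)) T from fun s => h.per s w).int_mul n s

theorem shift (hF : Polar β Ψ T R F p q) {z : T3} (h0 : 0 < z.2.2) (h1 : z.2.2 < R) (n : ℤ) :
    F (z.1 + n * T, z.2) = F z + n * q :=
  step_int (g := fun s => F (s, z.2)) (fun s => (hF (s, z.2) h0 h1).2.1) z.1 n

theorem key (h : Thin K Ψ T R) (hF : Polar β Ψ T R F p q) {χ : ℝ →+ G} (hχ : χ p = 0)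
    {z z' : T3} (h0 : 0 < z.2.2) (h1 : z.2.2 < R) (h0' : 0 < z'.2.2) (h1' : z'.2.2 < R)
    (hs : |z'.1 - z.1| < T) (he : Ψ (pol z) = Ψ (pol z')) : χ (F z') = χ (F z) := by
  obtain ⟨e1, n, e2⟩ := h.inj _ (pol_lt h0 h1) _ (pol_lt h0' h1') he
  have e2' : z'.1 = z.1 + n * T := e2
  have hn : n = 0 := by
    have hT := h.T_pos
    rw [e2', add_sub_cancel_left, abs_mul, abs_of_pos hT, mul_lt_iff_lt_one_left hT] at hs
    have : |n| < 1 := by exact_mod_cast hs
    exact Int.abs_lt_one_iff.1 this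
  rw [hn, Int.cast_zero, zero_mul, add_zero] at e2'
  have c1 : z'.2.2 * Real.cos z'.2.1 = z.2.2 * Real.cos z.2.1 := congrArg Prod.fst e1
  have c2 : z'.2.2 * Real.sin z'.2.1 = z.2.2 * Real.sin z.2.1 := congrArg Prod.snd e1
  have hr : z'.2.2 = z.2.2 := by
    have a1 := Real.sin_sq_add_cos_sq z.2.1
    have a2 := Real.sin_sq_add_cos_sq z'.2.1
    have a3 : z'.2.2 ^ 2 = z.2.2 ^ 2 := by
      have b1 := congrArg (· ^ 2) c1
      have b2 := congrArg (· ^ 2) c2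
      simp only [mul_pow] at b1 b2
      linear_combination b1 + b2 - z'.2.2 ^ 2 * a2 + z.2.2 ^ 2 * a1
    exact (pow_left_inj₀ h0'.le h0.le two_ne_zero).1 a3
  rw [hr] at c1 c2
  obtain ⟨m, hm⟩ := Real.Angle.angle_eq_iff_two_pi_dvd_sub.1
    (Real.Angle.cos_sin_inj (mul_left_cancel₀ h0.ne' c1) (mul_left_cancel₀ h0.ne' c2))
  have e3 : z' = (z.1, (z.2.1 + m * (2 * Real.pi), z.2.2)) :=
    Prod.ext e2' (Prod.ext (by linarith) hr)
  have e4 := step_int (g := fun a => F (z.1, (a, z.2.2)))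
    (fun a => (hF (z.1, (a, z.2.2)) h0 h1).2.2) z.2.1 m
  rw [e3, e4, map_add, ← zsmul_eq_mul, map_zsmul, hχ, smul_zero, add_zero]

/-- the polar box -/
def PB (T R s₀ : ℝ) : Set T3 := {z | |z.1 - s₀| < T / 4 ∧ 0 < z.2.2 ∧ z.2.2 < R}

/-- the round box -/
def RB (T R s₀ : ℝ) : Set T3 := {y | |y.1 - s₀| < T / 4 ∧ ‖cw y‖ < R}

theorem isOpen_PB (T R s₀ : ℝ) : IsOpen (PB T R s₀) :=
  (isOpen_lt (continuous_fst.sub continuous_const).abs continuous_const).inter
    ((isOpen_lt continuous_const continuous_snd.snd).inter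
      (isOpen_lt continuous_snd.snd continuous_const))

theorem isOpen_RB (T R s₀ : ℝ) : IsOpen (RB T R s₀) :=
  (isOpen_lt (continuous_fst.sub continuous_const).abs continuous_const).inter
    (isOpen_lt continuous_cw.norm continuous_const)

theorem sec_mem {s₀ : ℝ} {y : T3} (hy : y ∈ RB T R s₀) (h0 : y.2 ≠ 0) : sec 0 y ∈ PB T R s₀ :=
  ⟨hy.1, cw_pos h0, hy.2⟩

/-- the local primitive around an arc of the knot -/
def vt (χ : ℝ →+ G) (Ψ : T3 → S) (F : T3 → ℝ) (T R s₀ : ℝ) (y : S) : G :=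
  χ (F (Function.invFunOn (fun z => Ψ (pol z)) (PB T R s₀) y))

theorem vt_eq (h : Thin K Ψ T R) (hF : Polar β Ψ T R F p q) {χ : ℝ →+ G} (hχ : χ p = 0) {s₀ : ℝ}
    {z : T3} (hz : z ∈ PB T R s₀) : vt χ Ψ F T R s₀ (Ψ (pol z)) = χ (F z) := by
  have hex : ∃ a ∈ PB T R s₀, (fun z => Ψ (pol z)) a = Ψ (pol z) := ⟨z, hz, rfl⟩
  have m1 := Function.invFunOn_mem hex
  have m2 := Function.invFunOn_eq hex
  refine key h hF hχ hz.2.1 hz.2.2 m1.2.1 m1.2.2 ?_ m2.symm
  have a1 := abs_lt.1 m1.1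
  have a2 := abs_lt.1 hz.1
  have hT := h.T_pos
  rw [abs_lt]
  constructor <;> linarith [a1.1, a1.2, a2.1, a2.2]

theorem isOpen_V (h : Thin K Ψ T R) (s₀ : ℝ) : IsOpen (Ψ '' RB T R s₀) := by
  rw [isOpen_iff_mem_nhds]
  rintro _ ⟨y, hy, rfl⟩
  exact h.opn y ((norm_le_cw y).trans_lt hy.2)
    (image_mem_map ((isOpen_RB T R s₀).mem_nhds hy))

theorem ne_zero_of (h : Thin K Ψ T R) {y : T3} (hy : Ψ y ∉ range K) : y.2 ≠ 0 := fun h0 =>
  hy ⟨y.1, by rw [← h.core, ← h0]⟩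

theorem vt_LP (h : Thin K Ψ T R) (hF : Polar β Ψ T R F p q) {χ : ℝ →+ G} (hχ : χ p = 0) {s₀ : ℝ}
    {x : S} (hx : x ∈ Ψ '' RB T R s₀) (hK : x ∉ range K) : LP β χ id (vt χ Ψ F T R s₀) x := by
  obtain ⟨y, hy, rfl⟩ := hx
  have hz := sec_mem hy (ne_zero_of h hK)
  rw [← pol_sec 0 y]
  generalize sec 0 y = z at hz
  intro ρ f hf
  obtain ⟨c, hc⟩ := (hF z hz.2.1 hz.2.2).1 ρ f hf
  refine ⟨χ c, ?_⟩
  refine (h.opn _ (pol_lt hz.2.1 hz.2.2)).trans (map_mono (nhds_pol hz.2.1)) ?_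
  rw [Filter.map_map, mem_map]
  filter_upwards [hc, (isOpen_PB T R s₀).mem_nhds hz] with z' a1 a2
  have a1' : F z' - f (Ψ (pol z')) = c := a1
  show vt χ Ψ F T R s₀ (Ψ (pol z')) - χ (f (Ψ (pol z'))) = χ c
  rw [vt_eq h hF hχ a2, ← map_sub, a1']

theorem vt_sub (h : Thin K Ψ T R) (hF : Polar β Ψ T R F p q) {χ : ℝ →+ G} (hχ : χ p = 0)
    {s₀ s₁ : ℝ} {x : S} (h0 : x ∈ Ψ '' RB T R s₀) (h1 : x ∈ Ψ '' RB T R s₁) :
    ∃ a : G, ∀ᶠ y in 𝓝 x, y ∉ range K → vt χ Ψ F T R s₀ y - vt χ Ψ F T R s₁ y = a := by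
  obtain ⟨b₀, hb₀, rfl⟩ := h0
  obtain ⟨b₁, hb₁, e⟩ := h1
  obtain ⟨e1, n, e2⟩ := h.inj _ ((norm_le_cw _).trans_lt hb₀.2) _
    ((norm_le_cw _).trans_lt hb₁.2) e.symm
  have hc : Continuous fun y : T3 => ((y.1 + n * T, y.2) : T3) := by fun_prop
  have hm : ((b₀.1 + n * T, b₀.2) : T3) ∈ RB T R s₁ := by
    rw [← e2, ← e1]
    exact hb₁
  refine ⟨-χ (n * q), h.opn _ ((norm_le_cw _).trans_lt hb₀.2) ?_⟩
  rw [mem_map]
  filter_upwards [(isOpen_RB T R s₀).mem_nhds hb₀,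
    hc.continuousAt.preimage_mem_nhds ((isOpen_RB T R s₁).mem_nhds hm)] with y a1 a2 a3
  have hz := sec_mem a1 (ne_zero_of h a3)
  have hz' : (((sec 0 y).1 + n * T, (sec 0 y).2) : T3) ∈ PB T R s₁ := ⟨a2.1, hz.2⟩
  have v0 := vt_eq h hF hχ hz
  have v1 := vt_eq h hF hχ hz'
  have e3 : Ψ (pol ((sec 0 y).1 + n * T, (sec 0 y).2)) = Ψ (pol (sec 0 y)) :=
    per_int h (sec 0 y).1 (pol (sec 0 y)).2 n
  rw [e3, shift hF hz.2.1 hz.2.2, map_add] at v1
  rw [pol_sec] at v0 v1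
  rw [v0, v1]
  abel

theorem contAt (h : Thin K Ψ T R) {y : T3} (hy : ‖y.2‖ < R) : ContinuousAt Ψ y :=
  h.cont.continuousAt ((isOpen_lt continuous_snd.norm continuous_const).mem_nhds hy)

theorem closed_K (h : Thin K Ψ T R) : IsClosed (range K) := by
  have hc : Continuous K := by
    rw [continuous_iff_continuousAt]
    intro s
    have e : K = fun s => Ψ (s, 0) := funext fun s => (h.core s).symm
    rw [e]
    exact ContinuousAt.comp (g := Ψ) (contAt h (by simpa using h.R_pos))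
      (continuous_id.prodMk continuous_const).continuousAt
  have hp : Function.Periodic K T := fun s => by rw [← h.core, ← h.core, h.per]
  rw [← hp.image_Icc h.T_pos 0]
  exact (isCompact_Icc.image hc).isClosed

theorem dense_K (h : Thin K Ψ T R) : Dense (range K)ᶜ := by
  intro x
  by_cases hx : x ∈ range K
  · obtain ⟨s, rfl⟩ := hx
    have hc : Continuous fun t : ℝ => ((s, (t, 0)) : T3) := by fun_prop
    have h1 : Tendsto (fun t : ℝ => Ψ (s, (t, 0))) (𝓝[>] 0) (𝓝 (K s)) := by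
      rw [← h.core]
      exact ((contAt h (by simpa using h.R_pos)).tendsto.comp (hc.tendsto 0)).mono_left
        nhdsWithin_le_nhds
    refine mem_closure_of_tendsto h1 ?_
    filter_upwards [Ioo_mem_nhdsGT h.R_pos] with t ht
    refine h.notMem ?_ fun h0 => ht.1.ne' (congrArg Prod.fst h0)
    simpa [abs_of_pos ht.1] using ⟨ht.2, h.R_pos⟩
  · exact subset_closure hx

theorem cover (h : Thin K Ψ T R) (hβ : Form K K' T β) (hF : Polar β Ψ T R F p q) {χ : ℝ →+ G}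
    (hχ : χ p = 0) : ∃ (U : S ⊕ ℝ → Set S) (Φ : S ⊕ ℝ → S → G), (∀ i, IsOpen (U i)) ∧
      (∀ x, ∃ i, x ∈ U i) ∧ (∀ i, ∀ x ∈ U i, x ∉ range K → LP β χ id (Φ i) x) ∧
      ∀ i j, ∀ x ∈ U i, x ∈ U j → ∃ a : G, ∀ᶠ y in 𝓝 x, y ∉ range K → Φ i y - Φ j y = a := by
  choose! ρ f hf using hβ.prim
  have hL : ∀ i : S ⊕ ℝ, ∀ x ∈ (Sum.elim
      (fun x : S => {y : S | x ∉ range K ∧ y ∉ range K ∧ (y : E) ∈ ball (x : E) (ρ x)})
      (fun s₀ => Ψ '' RB T R s₀) i : Set S), x ∉ range K →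
      LP β χ id (Sum.elim (fun x y : S => χ (f x y)) (vt χ Ψ F T R) i) x := by
    rintro (x₀ | s₀) x hx hK
    · exact LP.of_one (c := 0) continuousAt_id (hf x₀ hx.1) hx.2.2
        (Eventually.of_forall fun y => sub_self _)
    · exact vt_LP h hF hχ hx hK
  refine ⟨_, _, ?_, fun x => ?_, hL, fun i j x hi hj => ?_⟩
  · rintro (x₀ | s₀)
    · exact isOpen_const.inter ((closed_K h).isOpen_compl.inter
        (isOpen_ball.preimage continuous_subtype_val))
    · exact isOpen_V h s₀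
  · by_cases hx : x ∈ range K
    · obtain ⟨s, rfl⟩ := hx
      refine ⟨Sum.inr s, (s, 0), ⟨?_, ?_⟩, h.core s⟩
      · simpa using h.T_pos
      · have e : cw (s, 0) = 0 := rfl
        rw [e, norm_zero]
        exact h.R_pos
    · exact ⟨Sum.inl x, hx, hx, mem_ball_self (hf x hx).1⟩
  · by_cases hx : x ∈ range K
    · rcases i with x₀ | s₀
      · exact absurd hx hi.2.1
      rcases j with x₁ | s₁
      · exact absurd hx hj.2.1
      exact vt_sub h hF hχ hi hj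
    · obtain ⟨c₁, h1⟩ := hL i x hi hx _ _ (hf x hx)
      obtain ⟨c₂, h2⟩ := hL j x hj hx _ _ (hf x hx)
      refine ⟨c₁ - c₂, ?_⟩
      filter_upwards [h1, h2] with y a1 a2 _
      rw [← a1, ← a2]
      abel

theorem theta (h : Thin K Ψ T R) (hβ : Form K K' T β) (hF : Polar β Ψ T R F p q) {χ : ℝ →+ G}
    (hχ : χ p = 0) : ∃ θ : S → G, ∀ x, x ∉ range K → LP β χ id θ x := by
  obtain ⟨U, Φ, hU, hc, hL, hΦ⟩ := cover h hβ hF hχ
  obtain ⟨e, hs, ht⟩ := LiftAux.chart (K 0)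
  have ho : IsOpenEmbedding e.symm := e.symm.isOpenEmbedding ht
  obtain ⟨θ, b, hb, hθ⟩ := Ce.glue (fun i => e.symm ⁻¹' U i)
    (fun i => (hU i).preimage ho.continuous) (fun y => hc (e.symm y)) (e.symm ⁻¹' range K)
    ((dense_K h).preimage ho.isOpenMap) (fun i y => Φ i (e.symm y)) fun i j y hi hj => by
      obtain ⟨a, ha⟩ := hΦ i j _ hi hj
      exact ⟨a, (ho.continuous.tendsto y).eventually ha⟩
  have hsrc : ∀ x, x ∉ range K → x ∈ e.source := fun x hx => by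
    rw [hs]
    exact fun h0 => hx ⟨0, (mem_singleton_iff.1 h0).symm⟩
  refine ⟨fun x => θ (e x), fun x hx ρ f hf => ?_⟩
  obtain ⟨i, hi⟩ := hc x
  obtain ⟨c, hc'⟩ := hL i x hi hx ρ f hf
  have h1 : e x ∈ e.symm ⁻¹' U i := by
    rw [mem_preimage, e.left_inv (hsrc x hx)]
    exact hi
  refine ⟨c - b i (e x), ?_⟩
  filter_upwards [hc', (e.continuousAt (hsrc x hx)).eventually (hb i _ h1), (hU i).mem_nhds hi,
    (closed_K h).isOpen_compl.mem_nhds hx] with y a1 a2 a3 a4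
  have e1 := e.left_inv (hsrc y a4)
  have a5 := hθ i (e y) (by rw [mem_preimage, e1]; exact a3) (by rw [mem_preimage, e1]; exact a4)
  rw [e1] at a5
  rw [a5, a2, ← a1]
  abel

end AMono2Aux

/-- Work on three-space through the chart `e` of the sphere minus `K 0` (`LiftAux.chart`), bad set the
preimage of the knot (its complement is dense: near `Ψ (s, 0)` there are points `Ψ (s, w)`, `w ≠ 0`).
Cover: for `x` off the knot a ball with a primitive `f`, shrunk so that it misses the knot, with the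
function `χ ∘ f`; for a real `s₀` the open set `V s₀ = Ψ '' {|s - s₀| < T / 4, w.1 ^ 2 + w.2 ^ 2 < R ^ 2}`
with the function `ϑ s₀` defined off the knot by `ϑ s₀ (Ψ (pol z)) = χ (F z)` for `|z.1 - s₀| < T / 4`,
`0 < z.2.2 < R` (well defined: `Ψ` is injective there, two angles differ by a multiple of `2 π`, and
`χ p = 0`). Compatibility with a ball: `Ψ ∘ pol` maps neighbourhoods of `z` onto neighbourhoods (`pol`
is locally onto for a positive radius: use the argument, or the inverse function theorem). Compatibility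
of `ϑ s₀` and `ϑ s₁` at `Ψ (s, w) = Ψ (s + n T, w)`: the constant is `n • χ q` up to sign. `Ce.glue`
gives `θ`. Finally `θ ∘ Ψ ∘ pol` and `χ ∘ F` are both primitives on the convex polar domain (`LP.diff`),
and the first one is periodic in the time, so `χ q = 0`. -/
theorem Thin.exists_theta (h : Thin K Ψ T R) (hβ : Form K K' T β) (hF : Polar β Ψ T R F p q)
    (χ : ℝ →+ G) (hχ : χ p = 0) :
    χ q = 0 ∧ ∃ θ : S → G, ∀ x, x ∉ range K → LP β χ id θ x := by
  obtain ⟨θ, hθ⟩ := AMono2Aux.theta h hβ hF hχ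
  refine ⟨?_, θ, hθ⟩
  have hR := h.R_pos
  have hA : Convex ℝ {z : T3 | 0 < z.2.2 ∧ z.2.2 < R} :=
    (convex_Ioo 0 R).linear_preimage ((LinearMap.snd ℝ ℝ ℝ).comp (LinearMap.snd ℝ ℝ (ℝ × ℝ)))
  have hK : ∀ z ∈ {z : T3 | 0 < z.2.2 ∧ z.2.2 < R}, Ψ (pol z) ∉ range K := fun z hz =>
    h.notMem (AMono2Aux.pol_lt hz.1 hz.2) (AMono2Aux.pol_ne hz.1)
  have m : ∀ s : ℝ, ((s, (0, R / 2)) : T3) ∈ {z : T3 | 0 < z.2.2 ∧ z.2.2 < R} := fun s =>
    ⟨half_pos hR, half_lt_self hR⟩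
  have hd := LP.diff (β := β) (χ := χ) (j := fun z => Ψ (pol z)) (F := fun z => θ (Ψ (pol z)))
    (F' := fun z => χ (F z)) hA.isPreconnected (fun z hz => hβ.prim _ (hK z hz))
    (fun z hz => LP.comp (j := id) (i := fun z => Ψ (pol z)) (hθ _ (hK z hz))
      ((AMono2Aux.contAt h (AMono2Aux.pol_lt hz.1 hz.2)).comp
        AMono2Aux.continuous_pol.continuousAt))
    (fun z hz ρ f hf => by
      obtain ⟨c, hc⟩ := (hF z hz.1 hz.2).1 ρ f hf
      refine ⟨χ c, hc.mono fun y hy => ?_⟩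
      have hy' : F y - f (Ψ (pol y)) = c := hy
      rw [← map_sub, hy']) (m 0) (m (0 + T))
  have e1 : Ψ (pol (0 + T, (0, R / 2))) = Ψ (pol (0, (0, R / 2))) := h.per _ _
  have e2 : F (0 + T, (0, R / 2)) = F (0, (0, R / 2)) + q := (hF _ (m 0).1 (m 0).2).2.1
  simp only [e1, e2, map_add] at hd
  rw [sub_right_inj] at hd
  exact left_eq_add.1 hd

end Pool.Agent.Lib.MP_399f8e_an.Lk
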