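import Pool.Agent.Lib.MP_399f8e_an.Lk.AKer
import Pool.Agent.Lib.MP_399f8e_an.Lk.AFlow1

open Set Filter Topology Metric MeasureTheory
open scoped RealInnerProductSpace

noncomputable section

namespace Pool.Agent.Lib.MP_399f8e_an.Lk

open Rg

variable {W : S → E} {ψ : ℝ → S → S} {L t₀ C₀ η τ : ℝ}

namespace ANearAux

theorem vol_shift (x v y w : E) (r : ℝ) :
    vol x v y w = -vol x (v - w) (x - y + r • w) w := by
  simp only [vol_eq, PiLp.sub_apply, PiLp.add_apply, PiLp.smul_apply, smul_eq_mul]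
  ring

theorem lint_le {d c : ℝ} (hd : 0 ≤ d) (hc : 0 < c) (s : ℝ) {a b : ℝ} (hab : a ≤ b) :
    ∫⁻ t in Icc a b, ENNReal.ofReal (d / (d ^ 2 + (c * (t - s)) ^ 2)) ≤
      ENNReal.ofReal (Real.pi / c) := by
  rcases hd.eq_or_lt with rfl | hd
  · simp
  have hc' : Continuous fun t : ℝ => d / (d ^ 2 + (c * (t - s)) ^ 2) :=
    continuous_const.div (by fun_prop) fun t => by positivity
  rw [← ofReal_integral_eq_lintegral_ofReal hc'.integrableOn_Icc
    (Eventually.of_forall fun t => by positivity), integral_Icc_eq_integral_Ioc,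
    ← intervalIntegral.integral_of_le hab,
    intervalIntegral.integral_eq_sub_of_hasDerivAt (f := fun t => Real.arctan (c * (t - s) / d) / c)
      (fun t _ => ?_) (hc'.intervalIntegrable _ _)]
  · refine ENNReal.ofReal_le_ofReal ?_
    rw [← sub_div]
    gcongr
    linarith [Real.arctan_lt_pi_div_two (c * (b - s) / d),
      Real.neg_pi_div_two_lt_arctan (c * (a - s) / d)]
  · have h := ((((hasDerivAt_id t).sub_const s).const_mul c).div_const d).arctan.div_const c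
    refine h.congr_deriv ?_
    simp only [id]
    field_simp

theorem sep {m M : ℝ} (h : LF W ψ L) (hm : ∀ x, m ≤ ‖W x‖ ∧ ‖W x‖ ≤ M) (z : S) {r : ℝ}
    (hr : L * M * |r| ≤ m / 2) : m / 2 * |r| ≤ ‖(ψ r z : E) - z‖ := by
  have h1 := h.taylor (fun x => (hm x).2) r z
  have h2 : m * |r| ≤ ‖r • W z‖ := by
    rw [norm_smul, Real.norm_eq_abs, mul_comm]
    exact mul_le_mul_of_nonneg_left (hm z).1 (abs_nonneg r)
  have h3 := norm_sub_norm_le (r • W z) ((ψ r z : E) - z)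
  rw [norm_sub_rev (r • W z)] at h3
  have h4 : L * M * r ^ 2 ≤ m / 2 * |r| := by
    rw [← sq_abs, sq, ← mul_assoc]
    exact mul_le_mul_of_nonneg_right hr (abs_nonneg r)
  linarith

theorem ker_le {m M : ℝ} (hm0 : 0 < m) (h : LF W ψ L) (hm : ∀ x, m ≤ ‖W x‖ ∧ ‖W x‖ ≤ M)
    (x z : S) {r : ℝ} (hr : L * M * |r| ≤ m / 2)
    (hd : ‖(x : E) - ψ (-r) z‖ ≤ ‖(x : E) - z‖) :
    |Gk x (W x) z (W z)| ≤ 1440 * (L * M) * (‖(x : E) - ψ (-r) z‖ /
      (‖(x : E) - ψ (-r) z‖ ^ 2 + (m / 4 * r) ^ 2)) + 11520 * (L * M) ^ 2 / m ^ 2 := by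
  have hL := h.L_pos
  have hM : 0 < M := hm0.trans_le ((hm x).1.trans (hm x).2)
  by_cases hx : x = z
  · rw [hx, Gk_self, abs_zero]
    positivity
  have hδ : 0 < ‖(x : E) - z‖ := norm_pos_iff.2 (sub_ne_zero.2 fun e => hx (Subtype.ext e))
  have h1 := sep h hm z (r := -r) (by rwa [abs_neg])
  have h2 := h.taylor (fun x => (hm x).2) (-r) z
  have h3 : ‖(ψ (-r) z : E) - z‖ ≤ ‖(x : E) - ψ (-r) z‖ + ‖(x : E) - z‖ := by
    rw [norm_sub_rev (x : E) (ψ (-r) z)]
    exact norm_sub_le_norm_sub_add_norm_sub _ _ _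
  have h4 : ‖(x : E) - z + r • W z‖ ≤ ‖(x : E) - ψ (-r) z‖ + L * M * r ^ 2 := by
    have e : (x : E) - z + r • W z = (x - ψ (-r) z) + (ψ (-r) z - z - (-r) • W z) := by module
    rw [e, ← neg_sq r]
    exact (norm_add_le _ _).trans (add_le_add le_rfl h2)
  obtain ⟨g0, g1⟩ := gaussK_le x z hx
  have h5 := abs_vol_le x (W x - W z) (x - z + r • W z) (W z)
  rw [norm_coe, one_mul] at h5
  have h6 := h.lip x z
  have h7 := (hm z).2
  rw [abs_neg] at h1
  set d := ‖(x : E) - ψ (-r) z‖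
  set δ := ‖(x : E) - z‖
  have hd0 : 0 ≤ d := norm_nonneg _
  have h8 : (m / 4 * r) ^ 2 ≤ δ ^ 2 := by
    rw [← sq_abs, abs_mul, abs_of_pos (by positivity : 0 < m / 4)]
    exact pow_le_pow_left₀ (by positivity) (by linarith) 2
  have h9 : d ^ 2 ≤ δ ^ 2 := pow_le_pow_left₀ hd0 hd 2
  have k1 : d / δ ^ 2 ≤ 2 * (d / (d ^ 2 + (m / 4 * r) ^ 2)) := by
    rcases hd0.eq_or_lt with e | e
    · simp [← e]
    · rw [← mul_div_assoc, div_le_div_iff₀ (by positivity) (by positivity)]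
      nlinarith
  have k2 : r ^ 2 / δ ^ 2 ≤ 16 / m ^ 2 := by
    rw [div_le_div_iff₀ (by positivity) (by positivity)]
    nlinarith
  calc |Gk x (W x) z (W z)| ≤ 30 / δ ^ 3 * (24 * (L * δ * (d + L * M * r ^ 2) * M)) := by
        rw [Gk, abs_mul, abs_of_nonneg g0, vol_shift _ _ _ _ r, abs_neg]
        refine mul_le_mul g1 (h5.trans ?_) (abs_nonneg _) (by positivity)
        gcongr
    _ = 720 * (L * M) * (d / δ ^ 2) + 720 * (L * M) ^ 2 * (r ^ 2 / δ ^ 2) := by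
        field_simp
        ring
    _ ≤ 720 * (L * M) * (2 * (d / (d ^ 2 + (m / 4 * r) ^ 2))) +
        720 * (L * M) ^ 2 * (16 / m ^ 2) := by gcongr
    _ = _ := by ring

theorem one (h : Near W ψ t₀ C₀) (hW : LF W ψ L) (hη : 0 < η)
    (hr : ∀ (y : S) (t : ℝ), t₀ / 2 ≤ t → t ≤ τ → 2 * η < ‖(ψ t y : E) - y‖) (x y : S) (a : ℝ) :
    ∫⁻ t in Icc a (a + τ),
      ENNReal.ofReal ((1 - cut η x (ψ t y)) * |Gk x (W x) (ψ t y) (W (ψ t y))|) ≤
      ENNReal.ofReal C₀ := by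
  have key : ∀ s ∈ Icc a (a + τ), ∀ t ∈ Icc a (a + τ), ‖(x : E) - ψ s y‖ < η →
      ‖(x : E) - ψ t y‖ < η → t - s ≤ t₀ / 2 := fun s hs t ht h1 h2 => by
    by_contra k
    have h3 := hr (ψ s y) (t - s) (not_le.1 k).le (by linarith [hs.1, ht.2])
    rw [← hW.add, sub_add_cancel] at h3
    have h4 := norm_sub_le_norm_sub_add_norm_sub (ψ t y : E) x (ψ s y)
    rw [norm_sub_rev _ (x : E)] at h4
    linarith
  obtain ⟨b, hb⟩ : ∃ b, ∀ t ∈ Icc a (a + τ), ‖(x : E) - ψ t y‖ < η → t ∈ Icc b (b + t₀) := by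
    by_cases k : ∃ s ∈ Icc a (a + τ), ‖(x : E) - ψ s y‖ < η
    · obtain ⟨s, hs, h1⟩ := k
      exact ⟨s - t₀ / 2, fun t ht h2 =>
        ⟨by linarith [key t ht s hs h2 h1], by linarith [key s hs t ht h1 h2]⟩⟩
    · exact ⟨0, fun t ht h2 => (k ⟨t, ht, h2⟩).elim⟩
  refine le_trans ?_ (h.bound x y b)
  rw [← lintegral_indicator (s := Icc b (b + t₀)) measurableSet_Icc]
  refine (setLIntegral_mono' measurableSet_Icc fun t ht => ?_).trans (setLIntegral_le_lintegral _ _)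
  by_cases k : ‖(x : E) - ψ t y‖ < η
  · rw [indicator_of_mem (hb t ht k)]
    exact ENNReal.ofReal_le_ofReal (mul_le_of_le_one_left (abs_nonneg _)
      (by linarith [(cut_mem η x (ψ t y)).1]))
  · simp [cut_one hη (not_lt.1 k)]

end ANearAux

open ANearAux

/-- `t₀ = m / (2 L M)`: by `taylor`, `‖k t - k s‖ ≥ (m / 2) |t - s|` for `|t - s| ≤ t₀`,
`k = orb ψ y`. Let `s` minimise `‖x - k t‖` on the interval, `d` the minimum, `δ = ‖x - k t‖`,
`τ = t - s`. Then `3 δ ≥ d + (m / 2) |τ|`. With `v = W x`, `w = W (k t)`,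
`a = x - k t + τ • w`: `vol x v (k t) w = - vol x (v - w) a w`, `‖a‖ ≤ d + L M τ ^ 2` (`taylor` from
`k t` for the time `-τ`), `‖v - w‖ ≤ L δ`. So `|Gk| ≤ 720 L M (d + L M τ ^ 2) / δ ^ 2`, at most
`c₁ d / (d + (m / 2) |τ|) ^ 2 + c₂` (for `δ = 0` the kernel is zero), and the first term has integral
at most `4 c₁ / m` (zero if `d = 0`); one may also use `d / (d ^ 2 + (m τ / 2) ^ 2)` and the
arctangent. -/
theorem exists_near {m M : ℝ} (hm : 0 < m) (hL : 0 < L) : ∃ t₀ C₀ : ℝ, ∀ W ψ, LF W ψ L →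
    (∀ x, m ≤ ‖W x‖ ∧ ‖W x‖ ≤ M) → Near W ψ t₀ C₀ := by
  by_cases hM : 0 < M
  swap
  · exact ⟨1, 1, fun W ψ _ h => (hM (hm.trans_le ((h pole).1.trans (h pole).2))).elim⟩
  have ht : 0 < m / (2 * (L * M)) := by positivity
  have hs : ∀ r : ℝ, |r| ≤ m / (2 * (L * M)) → L * M * |r| ≤ m / 2 := fun r hr => by
    rw [le_div_iff₀ (by positivity)] at hr
    linarith
  refine ⟨m / (2 * (L * M)), 1440 * (L * M) * (Real.pi / (m / 4)) +
    11520 * (L * M) ^ 2 / m ^ 2 * (m / (2 * (L * M))), fun W ψ h hW =>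
      ⟨ht, by positivity, fun y t h0 h1 e => ?_, fun x y a => ?_⟩⟩
  · have := sep h hW y (hs t (by rwa [abs_of_pos h0]))
    rw [e, sub_self, norm_zero, abs_of_pos h0] at this
    exact absurd this (not_le.2 (by positivity))
  have hc : Continuous fun t => ‖(x : E) - ψ t y‖ :=
    (continuous_const.sub (continuous_subtype_val.comp (h.cont_orb y))).norm
  obtain ⟨s, s1, s2⟩ := isCompact_Icc.exists_isMinOn
    (nonempty_Icc.2 (le_add_of_nonneg_right ht.le : a ≤ a + _)) hc.continuousOn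
  have hb : ∀ t ∈ Icc a (a + m / (2 * (L * M))), ENNReal.ofReal |Gk x (W x) (ψ t y) (W (ψ t y))| ≤
      ENNReal.ofReal (1440 * (L * M)) * ENNReal.ofReal (‖(x : E) - ψ s y‖ /
        (‖(x : E) - ψ s y‖ ^ 2 + (m / 4 * (t - s)) ^ 2)) +
        ENNReal.ofReal (11520 * (L * M) ^ 2 / m ^ 2) := fun t t1 => by
    have e : ψ (-(t - s)) (ψ t y) = ψ s y := by rw [← h.add, neg_sub, sub_add_cancel]
    have := ker_le hm h hW x (ψ t y) (hs (t - s) (abs_le.2
      ⟨by linarith [t1.1, s1.2], by linarith [t1.2, s1.1]⟩)) (by rw [e]; exact s2 t1)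
    rw [e] at this
    rw [← ENNReal.ofReal_mul (by positivity), ← ENNReal.ofReal_add (by positivity) (by positivity)]
    exact ENNReal.ofReal_le_ofReal this
  refine (setLIntegral_mono' measurableSet_Icc hb).trans ?_
  rw [lintegral_add_right _ measurable_const, lintegral_const_mul' _ _ ENNReal.ofReal_ne_top,
    setLIntegral_const, Real.volume_Icc, add_sub_cancel_left,
    ENNReal.ofReal_add (by positivity) (by positivity),
    ENNReal.ofReal_mul (p := 11520 * (L * M) ^ 2 / m ^ 2) (by positivity),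
    ENNReal.ofReal_mul (p := 1440 * (L * M)) (by positivity)]
  exact add_le_add (mul_le_mul_right
    (lint_le (norm_nonneg _) (by positivity) s (le_add_of_nonneg_right ht.le)) _) le_rfl

/-- In a window of length `τ` the times with `‖x - ψ t y‖ < η` lie in one interval
`[t₁ - t₀ / 2, t₁ + t₀ / 2]`; `[0, T]` is covered by `ceil (T / τ)` windows (one if `T = 0`). -/
theorem Near.window (h : Near W ψ t₀ C₀) (hW : LF W ψ L) (hη : 0 < η) (hτ : 0 < τ)
    (hr : ∀ (y : S) (t : ℝ), t₀ / 2 ≤ t → t ≤ τ → 2 * η < ‖(ψ t y : E) - y‖) (x y : S) {T : ℝ}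
    (hT : 0 ≤ T) :
    ∫⁻ t in Icc 0 T, ENNReal.ofReal ((1 - cut η x (ψ t y)) * |Gk x (W x) (ψ t y) (W (ψ t y))|) ≤
      ENNReal.ofReal (C₀ * (T / τ + 1)) := by
  have key : ∀ n : ℕ, ∫⁻ t in Icc 0 (n * τ),
      ENNReal.ofReal ((1 - cut η x (ψ t y)) * |Gk x (W x) (ψ t y) (W (ψ t y))|) ≤
      ENNReal.ofReal (C₀ * n) := fun n => by
    induction n with
    | zero => simp
    | succ n ih =>
      have := h.C_pos
      rw [Nat.cast_succ, add_mul, one_mul, mul_add, mul_one,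
        ENNReal.ofReal_add (by positivity) this.le]
      exact (lintegral_mono_set Icc_subset_Icc_union_Icc).trans
        ((lintegral_union_le _ _ _).trans (add_le_add ih (one h hW hη hr x y _)))
  refine (lintegral_mono_set (Icc_subset_Icc_right ?_)).trans ((key ⌈T / τ⌉₊).trans
    (ENNReal.ofReal_le_ofReal (mul_le_mul_of_nonneg_left
      (Nat.ceil_lt_add_one (by positivity)).le h.C_pos.le)))
  rw [← div_le_iff₀ hτ]
  exact Nat.le_ceil _

end Pool.Agent.Lib.MP_399f8e_an.Lk
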