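import Pool.Agent.Lib.MP_399f8e_an.Lk.ADefs
import Pool.Agent.Lib.MP_399f8e_an.Rg.Lift

open Set Filter Topology Metric MeasureTheory
open scoped RealInnerProductSpace

noncomputable section

namespace Pool.Agent.Lib.MP_399f8e_an.Lk

open Rg

namespace ATop1Aux

/-- periodicity by integer multiples -/
theorem per_int {K : ℝ → S} {Ψ : T3 → S} {T R : ℝ} (h : Thin K Ψ T R) (n : ℤ) (s : ℝ)
    (w : ℝ × ℝ) : Ψ (s + n * T, w) = Ψ (s, w) :=
  (Function.Periodic.int_mul (f := fun s => Ψ (s, w)) (c := T) (fun s => h.per s w) n) s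

/-- the projection to the solid torus coordinates -/
def pr (p : T3) : Ci × (ℝ × ℝ) := ((p.1 : Ci), p.2)

theorem map_pr (p : T3) : map pr (𝓝 p) = 𝓝 (pr p) := by
  have h1 : IsOpenMap pr := (QuotientAddGroup.isOpenMap_coe).prodMap IsOpenMap.id
  have h2 : Continuous pr := (AddCircle.continuous_mk' (1 : ℝ)).prodMap continuous_id
  exact h1.map_nhds_eq h2.continuousAt

/-- the rescaling -/
def sc (T δ : ℝ) (p : T3) : T3 := (T * p.1, δ • p.2)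

theorem map_sc {T δ : ℝ} (hT : T ≠ 0) (hδ : δ ≠ 0) (p : T3) :
    map (sc T δ) (𝓝 p) = 𝓝 (sc T δ p) :=
  ((Homeomorph.mulLeft₀ T hT).prodCongr (Homeomorph.smulOfNeZero δ hδ)).map_nhds_eq p

end ATop1Aux

open ATop1Aux in
/-- `Ψ' (s, w) = Ψ (T * lf s, δ • w)`, or a lift of the periodic function `s ↦ Ψ (T * s, δ • w)`; the
quotient map from the line to the circle is open, continuous and onto. -/
theorem Thin.rescale {K : ℝ → S} {Ψ : T3 → S} {T δ : ℝ} (h : Thin K Ψ T (4 * δ)) :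
    ∃ Ψ' : Ci × (ℝ × ℝ) → S, (∀ (s : ℝ) (w : ℝ × ℝ), Ψ' ((s : Ci), w) = Ψ (T * s, δ • w)) ∧
      ContinuousOn Ψ' (univ ×ˢ ball 0 4) ∧ InjOn Ψ' (univ ×ˢ ball 0 4) ∧
      (∀ q ∈ (univ ×ˢ ball 0 4 : Set (Ci × (ℝ × ℝ))), 𝓝 (Ψ' q) ≤ map Ψ' (𝓝 q)) ∧
      tube Ψ' 0 = range K := by
  have hT := h.T_pos
  have hδ : 0 < δ := by linarith [h.R_pos]
  have hlf : ∀ c : Ci, ∃ s : ℝ, (s : Ci) = c := fun c => QuotientAddGroup.mk_surjective c
  choose lf hlf using hlf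
  obtain ⟨Ψ', hΨ'⟩ : ∃ Ψ' : Ci × (ℝ × ℝ) → S, Ψ' = fun q => Ψ (T * lf q.1, δ • q.2) := ⟨_, rfl⟩
  have h1 : ∀ (s : ℝ) (w : ℝ × ℝ), Ψ' ((s : Ci), w) = Ψ (T * s, δ • w) := by
    intro s w
    have h2 : ((lf (s : Ci) - s : ℝ) : Ci) = 0 := by
      rw [AddCircle.coe_sub, hlf, sub_self]
    obtain ⟨n, hn⟩ := (AddCircle.coe_eq_zero_iff (1 : ℝ)).1 h2
    have h3 : T * lf (s : Ci) = T * s + n * T := by
      rw [zsmul_eq_mul, mul_one] at hn
      rw [hn]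
      ring
    rw [hΨ']
    show Ψ (T * lf (s : Ci), δ • w) = _
    rw [h3, per_int h]
  have hc : Ψ' ∘ pr = Ψ ∘ sc T δ := funext fun p => h1 p.1 p.2
  have hn : ∀ w : ℝ × ℝ, w ∈ ball (0 : ℝ × ℝ) 4 → ‖δ • w‖ < 4 * δ := by
    intro w hw
    rw [mem_ball_zero_iff] at hw
    rw [norm_smul, Real.norm_of_nonneg hδ.le, mul_comm]
    exact mul_lt_mul_of_pos_right hw hδ
  have hs : ∀ q ∈ (univ ×ˢ ball 0 4 : Set (Ci × (ℝ × ℝ))),
      ∃ p : T3, pr p = q ∧ ‖(sc T δ p).2‖ < 4 * δ := fun q hq =>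
    ⟨(lf q.1, q.2), Prod.ext (hlf q.1) rfl, hn q.2 hq.2⟩
  have ho : IsOpen {q : T3 | ‖q.2‖ < 4 * δ} :=
    isOpen_lt (continuous_norm.comp continuous_snd) continuous_const
  have hm : ∀ p : T3, map Ψ' (𝓝 (pr p)) = map Ψ (𝓝 (sc T δ p)) := by
    intro p
    rw [← map_pr, ← map_sc hT.ne' hδ.ne', map_map, map_map, hc]
  refine ⟨Ψ', h1, fun q hq => ?_, fun q hq q' hq' e => ?_, fun q hq => ?_, ?_⟩
  · obtain ⟨p, rfl, hp⟩ := hs q hq
    refine ContinuousAt.continuousWithinAt ?_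
    have h2 : ContinuousAt Ψ (sc T δ p) := h.cont.continuousAt (ho.mem_nhds hp)
    have h3 : Ψ' (pr p) = Ψ (sc T δ p) := congrFun hc p
    show map Ψ' (𝓝 (pr p)) ≤ 𝓝 (Ψ' (pr p))
    rw [hm, h3]
    exact h2
  · obtain ⟨p, rfl, hp⟩ := hs q hq
    obtain ⟨p', rfl, hp'⟩ := hs q' hq'
    have h3 : Ψ (sc T δ p) = Ψ (sc T δ p') :=
      (congrFun hc p).symm.trans (e.trans (congrFun hc p'))
    obtain ⟨h4, n, h5⟩ := h.inj _ hp _ hp' h3
    have h6 : p'.2 = p.2 := smul_right_injective _ hδ.ne' h4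
    have h7 : p'.1 = p.1 + n := by
      have h8 : T * p'.1 = T * p.1 + n * T := h5
      refine mul_left_cancel₀ hT.ne' ?_
      rw [h8]
      ring
    refine Prod.ext ?_ h6.symm
    show (p.1 : Ci) = (p'.1 : Ci)
    have h9 : (((n : ℤ) : ℝ) : Ci) = 0 :=
      (AddCircle.coe_eq_zero_iff (1 : ℝ)).2 ⟨n, by rw [zsmul_eq_mul, mul_one]⟩
    rw [h7, AddCircle.coe_add, h9, add_zero]
  · obtain ⟨p, rfl, hp⟩ := hs q hq
    have h3 : Ψ' (pr p) = Ψ (sc T δ p) := congrFun hc p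
    rw [hm, h3]
    exact h.opn _ hp
  · ext x
    constructor
    · rintro ⟨⟨c, w⟩, ⟨-, hw⟩, rfl⟩
      have h2 : w = 0 := by simpa using hw
      refine ⟨T * lf c, ?_⟩
      rw [← hlf c, h1, h2, smul_zero, h.core, hlf]
    · rintro ⟨s, rfl⟩
      refine ⟨(((s / T : ℝ) : Ci), 0), ⟨mem_univ _, mem_closedBall_self le_rfl⟩, ?_⟩
      rw [h1, smul_zero, h.core, mul_div_cancel₀ _ hT.ne']

/-- `LiftAux.chart` composed with the homeomorphism from `P3` to Euclidean space. -/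
theorem exists_iota (v : S) : ∃ ι : P3 → S, IsOpenEmbedding ι ∧ range ι = {v}ᶜ := by
  obtain ⟨e, hs, ht⟩ := LiftAux.chart v
  have h1 : IsOpenEmbedding e.symm := e.symm.isOpenEmbedding ht
  let j : P3 ≃ₜ EuclideanSpace ℝ (Fin 3) := (EuclideanSpace.equiv (Fin 3) ℝ).toHomeomorph.symm
  refine ⟨e.symm ∘ j, h1.comp j.isOpenEmbedding, ?_⟩
  rw [range_comp, j.surjective.range_eq, ← ht, ← hs]
  exact e.symm_image_target_eq_source

theorem connected_S : ConnectedSpace S := by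
  have h : 1 < Module.rank ℝ E := by
    rw [← Module.finrank_eq_rank]
    simp
  exact isConnected_iff_connectedSpace.1 (isConnected_sphere h 0 zero_le_one)

end Pool.Agent.Lib.MP_399f8e_an.Lk
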