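import Pool.Agent.Lib.MP_399f8e_an.Lk.TAlg2

open Set Filter Topology Metric

noncomputable section

namespace Pool.Agent.Lib.MP_399f8e_an.Lk

namespace TAlg3Aux

variable {W : Type} [AddCommGroup W] [Module ℂ W] [FiniteDimensional ℂ W]

/-- The restriction of a truncated one parameter family to the range of its idempotent. -/
theorem exists_restrict (α : ℤ → W →ₗ[ℂ] W) (N : ℕ) (hN : 1 ≤ N)
    (hmul : ∀ n m : ℤ, |n| ≤ N → |m| ≤ N → |n + m| ≤ N → α n * α m = α (n + m)) :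
    ∃ (V : Submodule ℂ W) (A B : V →ₗ[ℂ] V), A * B = 1 ∧ B * A = 1 ∧
      (∀ v : V, α 0 v = v ∧ α 1 v = A v) ∧ (∀ n : ℤ, |n| ≤ N → ∀ x, α n x ∈ V) ∧
      (Module.finrank ℂ V : ℂ) = LinearMap.trace ℂ W (α 0) ∧
      ∀ n : ℕ, n ≤ N → LinearMap.trace ℂ V (A ^ n) = LinearMap.trace ℂ W (α n) ∧
        LinearMap.trace ℂ V (B ^ n) = LinearMap.trace ℂ W (α (-n)) := by
  have hN' : (1 : ℤ) ≤ N := by exact_mod_cast hN
  have z0 : |(0 : ℤ)| ≤ N := by rw [abs_zero]; omega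
  have z1 : |(1 : ℤ)| ≤ N := by rwa [abs_one]
  have z2 : |(-1 : ℤ)| ≤ N := by rwa [abs_neg, abs_one]
  let V := LinearMap.range (α 0)
  have hV : ∀ n : ℤ, |n| ≤ N → ∀ x, α n x ∈ V := fun n hn x =>
    ⟨α n x, by
      have h := hmul 0 n z0 hn (by rwa [zero_add])
      rw [zero_add] at h
      exact LinearMap.congr_fun h x⟩
  have hid : ∀ v : V, α 0 v = v := by
    rintro ⟨_, x, rfl⟩
    have h := hmul 0 0 z0 z0 (by rwa [zero_add])
    rw [zero_add] at h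
    exact LinearMap.congr_fun h x
  let R : ∀ n : ℤ, |n| ≤ N → V →ₗ[ℂ] V := fun n hn => (α n).restrict fun x _ => hV n hn x
  have hR : ∀ n hn (v : V), (R n hn v : W) = α n v := fun _ _ _ => rfl
  have hR0 : R 0 z0 = 1 := LinearMap.ext fun v => Subtype.ext (hid v)
  have hRm : ∀ n m hn hm k hk, n + m = k → R n hn * R m hm = R k hk := by
    rintro n m hn hm k hk rfl
    exact LinearMap.ext fun v => Subtype.ext (LinearMap.congr_fun (hmul n m hn hm hk) v)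
  have hRt : ∀ n hn, LinearMap.trace ℂ V (R n hn) = LinearMap.trace ℂ W (α n) := fun n hn =>
    LinearMap.trace_restrict_eq_of_forall_mem V (α n) (hV n hn)
  have hpow : ∀ (e : ℤ) (he : |e| ≤ N), |e| = 1 → ∀ (n : ℕ) (k : ℤ) (hk : |k| ≤ N),
      k = n * e → R e he ^ n = R k hk := by
    intro e he h1 n
    induction n with
    | zero =>
      intro k hk h
      obtain rfl : k = 0 := by simpa using h
      rw [pow_zero, hR0]
    | succ n ih =>
      intro k hk h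
      have h2 : |(n : ℤ) * e| ≤ N := by
        rw [h, abs_mul, h1, mul_one] at hk
        rw [abs_mul, h1, mul_one, abs_of_nonneg (by positivity)]
        rw [abs_of_nonneg (by positivity)] at hk
        push_cast at hk
        omega
      rw [pow_succ, ih _ h2 rfl]
      exact hRm _ _ h2 he k hk (by rw [h]; push_cast; ring)
  refine ⟨V, R 1 z1, R (-1) z2, ?_, ?_, fun v => ⟨hid v, rfl⟩, hV, ?_, fun n hn => ⟨?_, ?_⟩⟩
  · rw [hRm _ _ z1 z2 0 z0 (by ring), hR0]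
  · rw [hRm _ _ z2 z1 0 z0 (by ring), hR0]
  · rw [← hRt 0 z0, hR0, LinearMap.trace_one]
  · have h : |(n : ℤ)| ≤ N := by
      rw [abs_of_nonneg (by positivity)]
      exact_mod_cast hn
    rw [hpow 1 z1 abs_one n n h (by ring), hRt _ h]
  · have h : |(-n : ℤ)| ≤ N := by
      rw [abs_neg, abs_of_nonneg (by positivity)]
      exact_mod_cast hn
    rw [hpow (-1) z2 (by rw [abs_neg, abs_one]) n (-n) h (by ring), hRt _ h]

theorem trace_line (f : W →ₗ[ℂ] W) {u : W} (hu : u ≠ 0) (hf : ∀ x, ∃ c : ℂ, f x = c • u)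
    (h : f u = u) : LinearMap.trace ℂ W f = 1 := by
  have h1 : ∀ x, f x ∈ Submodule.span ℂ {u} := fun x => by
    obtain ⟨c, hc⟩ := hf x
    exact Submodule.mem_span_singleton.2 ⟨c, hc.symm⟩
  have h2 : (f.restrict fun x _ => h1 x : Submodule.span ℂ {u} →ₗ[ℂ] Submodule.span ℂ {u}) = 1 := by
    refine LinearMap.ext fun v => Subtype.ext ?_
    obtain ⟨c, hc⟩ := Submodule.mem_span_singleton.1 v.2
    change f v = v
    rw [← hc, map_smul, h]
  rw [← LinearMap.trace_restrict_eq_of_forall_mem _ f h1, h2, LinearMap.trace_one,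
    finrank_span_singleton hu, Nat.cast_one]

end TAlg3Aux

open TAlg3Aux in
/-- Use `exists_homology` with `J = {n : ℤ // |n| ≤ N}`; `a n a m = a (n + m)`. Degree zero: `a n`
is the rank one map `cl z ↦ aug z • cl v` of trace one. Degree three: the space is zero. Degree two:
`a 0` is idempotent and `a 1`, `a (-1)` are inverse to each other on its range; an eigenvector
`cl z` of `a 1` in the range, with eigenvalue `l ≠ 0`, has `Tm (φ 0 z) - l • φ 0 z` a boundary, so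
`φ 0 z` bounds; hence `a 0 = 0` and `a n = a 0 a n = 0`. Degree one: on `V = range (a 0)` the maps
`A = a 1`, `B = a (-1)` have `A ^ n = a n`, `B ^ n = a (-n)`, the trace of `a n` is its trace on `V`,
equal to one for `1 ≤ |n| < N`, and `finrank V = trace (a 0) = 1 + j`. `eig_one` against `h1`. -/
theorem alg_false {M : Type} [AddCommGroup M] [Module ℂ M] (C : ℕ → Submodule ℂ M)
    (hfin : ∀ k, FiniteDimensional ℂ (C k)) (bd Tm : M →ₗ[ℂ] M) (aug : M →ₗ[ℂ] ℂ)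
    (φ : ℤ → M →ₗ[ℂ] M) (N ρ j : ℕ) (hN : 3 ≤ N) (hρ : ρ + 2 ≤ 2 * N) (hj : j ≤ ρ)
    (hC4 : C 4 = ⊥) (hbd : ∀ k, ∀ z ∈ C (k + 1), bd z ∈ C k) (hbd0 : ∀ z ∈ C 0, bd z = 0)
    (hdd : ∀ k, ∀ z ∈ C k, bd (bd z) = 0)
    (hφ : ∀ n : ℤ, |n| ≤ N → ∀ k, ∀ z ∈ C k, φ n z ∈ C k ∧ bd (φ n z) = φ n (bd z))
    (hmul : ∀ n m : ℤ, |n| ≤ N → |m| ≤ N → |n + m| ≤ N → ∀ k, ∀ z ∈ C k, bd z = 0 →
      ∃ w ∈ C (k + 1), bd w = φ n (φ m z) - φ (n + m) z)
    (htr : ∀ n : ℤ, n ≠ 0 → |n| < N →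
      ∑ k ∈ Finset.range 4, (-1 : ℂ) ^ k * trOn (C k) (φ n) = 0)
    (htr0 : ∑ k ∈ Finset.range 4, (-1 : ℂ) ^ k * trOn (C k) (φ 0) = -(j : ℂ))
    (haug : ∀ w ∈ C 1, aug (bd w) = 0)
    (h0 : ∃ v ∈ C 0, aug v = 1 ∧ ∀ n : ℤ, |n| ≤ N → ∀ z ∈ C 0,
      ∃ w ∈ C 1, bd w = φ n z - aug z • v)
    (h3 : ∀ z ∈ C 3, bd z = 0 → z = 0)
    (hT : ∀ k, ∀ z ∈ C k, bd z = 0 → ∃ w ∈ C (k + 1), bd w = Tm (φ 0 z) - φ 1 z)
    (h2 : ∀ l : ℂ, l ≠ 0 → ∀ z ∈ C 2, (∃ w ∈ C 3, bd w = Tm z - l • z) → ∃ w ∈ C 3, bd w = z)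
    (h1 : ∀ z ∈ C 1, (∃ w ∈ C 2, bd w = Tm z - z) → ∃ w ∈ C 2, bd w = z) : False := by
  classical
  obtain ⟨d, cl, a, hs, hz, ha, ht⟩ := exists_homology C hfin bd hC4 hbd hbd0 hdd
    (J := {n : ℤ // |n| ≤ N}) (fun n => φ n.1) fun n => hφ n.1 n.2
  let α : ∀ k, ℤ → (Fin (d k) → ℂ) →ₗ[ℂ] (Fin (d k) → ℂ) := fun k n =>
    if h : |n| ≤ N then a ⟨n, h⟩ k else 0
  have hα : ∀ k (n : ℤ) (h : |n| ≤ N), α k n = a ⟨n, h⟩ k := fun k n h => dif_pos h
  have hN' : (3 : ℤ) ≤ N := by exact_mod_cast hN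
  have z0 : |(0 : ℤ)| ≤ N := by rw [abs_zero]; omega
  have z1 : |(1 : ℤ)| ≤ N := by rw [abs_one]; omega
  have hcl : ∀ k n, |n| ≤ (N : ℤ) → ∀ z ∈ C k, bd z = 0 → α k n (cl k z) = cl k (φ n z) :=
    fun k n h z hzC hz0 => by rw [hα k n h]; exact ha ⟨n, h⟩ k z hzC hz0
  have hcyc : ∀ k n, |n| ≤ (N : ℤ) → ∀ z ∈ C k, bd z = 0 → φ n z ∈ C k ∧ bd (φ n z) = 0 :=
    fun k n h z hzC hz0 => ⟨(hφ n h k z hzC).1, by rw [(hφ n h k z hzC).2, hz0, map_zero]⟩
  have hm : ∀ k (n m : ℤ), |n| ≤ N → |m| ≤ N → |n + m| ≤ N → α k n * α k m = α k (n + m) := by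
    intro k n m hn hm hnm
    refine LinearMap.ext fun v => ?_
    obtain ⟨z, hzC, hz0, rfl⟩ := hs k v
    obtain ⟨p1, p2⟩ := hcyc k m hm z hzC hz0
    obtain ⟨q1, q2⟩ := hcyc k n hn _ p1 p2
    obtain ⟨r1, r2⟩ := hcyc k _ hnm z hzC hz0
    rw [Module.End.mul_apply, hcl k m hm z hzC hz0, hcl k n hn _ p1 p2, hcl k _ hnm z hzC hz0,
      ← sub_eq_zero, ← map_sub]
    exact (hz k _ (sub_mem q1 r1) (by rw [map_sub, q2, r2, sub_zero])).2
      (hmul n m hn hm hnm k z hzC hz0)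
  have key : ∀ k (l : ℂ) (v : Fin (d k) → ℂ), α k 0 v = v → α k 1 v = l • v →
      (∀ z ∈ C k, (∃ w ∈ C (k + 1), bd w = Tm z - l • z) → ∃ w ∈ C (k + 1), bd w = z) → v = 0 := by
    intro k l v e0 e1 hk
    obtain ⟨z, hzC, hz0, rfl⟩ := hs k v
    obtain ⟨p1, p2⟩ := hcyc k 0 z0 z hzC hz0
    obtain ⟨q1, q2⟩ := hcyc k 1 z1 z hzC hz0
    rw [hcl k 0 z0 z hzC hz0] at e0
    rw [hcl k 1 z1 z hzC hz0] at e1
    obtain ⟨w, hw, hw'⟩ := hT k z hzC hz0
    obtain ⟨w', hv, hv'⟩ := (hz k (φ 1 z - l • φ 0 z) (sub_mem q1 (Submodule.smul_mem _ _ p1))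
      (by rw [map_sub, map_smul, q2, p2, smul_zero, sub_zero])).1
      (by rw [map_sub, map_smul, e0, e1, sub_self])
    rw [← e0]
    exact (hz k _ p1 p2).2 (hk _ p1 ⟨w + w', add_mem hw hv, by rw [map_add, hw', hv']; abel⟩)
  have t0 : ∀ n : ℤ, |n| ≤ N → LinearMap.trace ℂ _ (α 0 n) = 1 := by
    intro n hn
    obtain ⟨v, hvC, hv1, hv⟩ := h0
    have e : ∀ z ∈ C 0, α 0 n (cl 0 z) = aug z • cl 0 v := fun z hzC => by
      have q := sub_mem (hφ n hn 0 z hzC).1 (Submodule.smul_mem _ (aug z) hvC)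
      rw [hcl 0 n hn z hzC (hbd0 z hzC), ← sub_eq_zero, ← map_smul, ← map_sub]
      exact (hz 0 _ q (hbd0 _ q)).2 (hv n hn z hzC)
    refine trace_line _ (u := cl 0 v) (fun h => ?_) (fun x => ?_) (by rw [e v hvC, hv1, one_smul])
    · obtain ⟨w, hw, hw'⟩ := (hz 0 v hvC (hbd0 v hvC)).1 h
      have := haug w hw
      rw [hw', hv1] at this
      exact one_ne_zero this
    · obtain ⟨z, hzC, -, rfl⟩ := hs 0 x
      exact ⟨_, e z hzC⟩
  have t3 : ∀ n : ℤ, LinearMap.trace ℂ _ (α 3 n) = 0 := by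
    intro n
    have : α 3 n = 0 := LinearMap.ext fun v => by
      obtain ⟨z, hzC, hz0, rfl⟩ := hs 3 v
      rw [h3 z hzC hz0, map_zero, map_zero, map_zero]
    rw [this, map_zero]
  have t2 : ∀ n : ℤ, |n| ≤ N → LinearMap.trace ℂ _ (α 2 n) = 0 := by
    intro n hn
    obtain ⟨V, A, B, -, hBA, hv, hV, -⟩ := exists_restrict (α 2) N (by omega) (hm 2)
    have hsub : Subsingleton V := by
      by_contra hnt
      have : Nontrivial V := not_subsingleton_iff_nontrivial.1 hnt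
      obtain ⟨l, hl⟩ := Module.End.exists_eigenvalue A
      obtain ⟨v, hv'⟩ := hl.exists_hasEigenvector
      have e : A v = l • v := hv'.apply_eq_smul
      have hl0 : l ≠ 0 := by
        rintro rfl
        have h := LinearMap.congr_fun hBA v
        rw [Module.End.mul_apply, e, zero_smul, map_zero] at h
        exact hv'.2 h.symm
      exact hv'.2 (Subtype.ext (key 2 l v (hv v).1 (by rw [(hv v).2, e]; rfl) (h2 l hl0)))
    have : α 2 n = 0 := LinearMap.ext fun x =>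
      congrArg Subtype.val (Subsingleton.elim (⟨_, hV n hn x⟩ : V) 0)
    rw [this, map_zero]
  have t1 : ∀ n : ℤ, |n| ≤ N → LinearMap.trace ℂ _ (α 1 n) =
      1 - ∑ k ∈ Finset.range 4, (-1 : ℂ) ^ k * trOn (C k) (φ n) := by
    intro n hn
    have h := ht ⟨n, hn⟩
    simp only [← hα _ n hn] at h
    rw [h]
    simp only [Finset.sum_range_succ, Finset.sum_range_zero, t0 n hn, t2 n hn, t3 n]
    ring
  obtain ⟨V, A, B, hAB, -, hv, -, hd, hp⟩ := exists_restrict (α 1) N (by omega) (hm 1)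
  have hd' : Module.finrank ℂ V = 1 + j := by
    rw [t1 0 z0, htr0, sub_neg_eq_add] at hd
    exact_mod_cast hd
  obtain ⟨v, hv0, e⟩ := eig_one A B hAB N hN (by omega)
    (fun n g1 g2 => by
      have h : |(n : ℤ)| < N := by
        rw [abs_of_nonneg (by positivity)]
        exact_mod_cast g2
      rw [(hp n g2.le).1, t1 n h.le, htr n (by omega) h, sub_zero])
    (fun n g1 g2 => by
      have h : |(-n : ℤ)| < N := by
        rw [abs_neg, abs_of_nonneg (by positivity)]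
        exact_mod_cast g2
      rw [(hp n g2.le).2, t1 _ h.le, htr _ (by omega) h, sub_zero])
  refine hv0 (Subtype.ext (key 1 1 v (hv v).1 (by rw [(hv v).2, e, one_smul]) fun z hzC h => ?_))
  rw [one_smul] at h
  exact h1 z hzC h

end Pool.Agent.Lib.MP_399f8e_an.Lk
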