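import Pool.Agent.Lib.MP_399f8e_an.Lk.TConn1

open Set Filter Topology Metric

noncomputable section

namespace Pool.Agent.Lib.MP_399f8e_an.Lk

variable {X : Type} [MetricSpace X] [CompactSpace X] {ψ : ℝ → X → X} {Ψ : Ci × (ℝ × ℝ) → X}
  {θ : X → Ci} {Δ : X → ℝ → ℝ} {g : ℝ → X → X} {N ρ : ℕ}
  {R : X → X} {tm : X × ℝ → ℝ} {a e₁ B₀ : ℝ}
  {ι : P3 → X}

namespace TConnAux

omit [MetricSpace X] [CompactSpace X] in
theorem tube_mono {r r' : ℝ} (h : r ≤ r') : tube Ψ r ⊆ tube Ψ r' :=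
  image_mono (prod_mono subset_rfl (closedBall_subset_closedBall h))

theorem loc (h : TopData ψ Ψ θ Δ g N ρ) (hι : IsOpenEmbedding ι)
    (hr : range ι = {Ψ (0, 0)}ᶜ) {a : ℝ} (ha0 : 0 ≤ a) (ha : a ≤ 2) {u : X × ℝ → Bool}
    (hu : ContinuousOn u {y : X × ℝ | y.1 ∉ tube Ψ a ∧ (y.2 : Ci) = θ y.1}) {x : X}
    (hx : x ∉ tube Ψ a) : ∀ᶠ x' in 𝓝 x, ∀ b : ℝ, (b : Ci) = θ x →
      u (x', b + lf (θ x' - θ x)) = u (x, b) := by
  have o1 : IsOpen (tube Ψ a)ᶜ := (h.tube_cpt (by linarith)).isClosed.isOpen_compl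
  have c1 : ∀ z, z ∉ tube Ψ a → ContinuousAt θ z := fun z hz =>
    (h.θc.mono (compl_subset_compl.2 (tube_mono ha0))).continuousAt (o1.mem_nhds hz)
  obtain ⟨p, rfl⟩ : x ∈ range ι := by
    rw [hr]
    rintro rfl
    exact hx ⟨(0, 0), ⟨trivial, mem_closedBall_self ha0⟩, rfl⟩
  have n1 : ∀ᶠ z in 𝓝 (ι p), z ∉ tube Ψ a ∧ ‖θ z - θ (ι p)‖ < 1 / 2 :=
    Eventually.and (o1.mem_nhds hx) (((c1 _ hx).sub continuousAt_const).norm.eventually
      (gt_mem_nhds (by simp)))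
  obtain ⟨ε, e0, e1⟩ := Metric.eventually_nhds_iff_ball.1 (hι.continuous.continuousAt.eventually n1)
  have e2 : ∀ z ∈ ι '' ball p ε, z ∉ tube Ψ a ∧ ‖θ z - θ (ι p)‖ < 1 / 2 := by
    rintro _ ⟨q, hq, rfl⟩
    exact e1 q hq
  have e3 : IsPreconnected (ι '' ball p ε) :=
    (convex_ball p ε).isPreconnected.image _ hι.continuous.continuousOn
  filter_upwards [hι.isOpenMap.image_mem_nhds (ball_mem_nhds p e0)] with z hz b hb
  have c2 : ContinuousOn (fun w => ((w, b + lf (θ w - θ (ι p))) : X × ℝ)) (ι '' ball p ε) :=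
    fun w hw => (continuousAt_id.prodMk (continuousAt_const.add
      (ContinuousAt.comp (f := fun w => θ w - θ (ι p)) (continuousAt_lf (e2 w hw).2)
        ((c1 w (e2 w hw).1).sub continuousAt_const)))).continuousWithinAt
  have := e3.constant (hu.comp c2 fun w hw => ⟨(e2 w hw).1, by
    simp only [AddCircle.coe_add, lf_coe, hb, add_sub_cancel]⟩) hz
    (mem_image_of_mem ι (mem_ball_self e0))
  simpa [lf_zero] using this

end TConnAux

open TConnAux

/-- Let `u` be a continuous two-valued function on the cover. Each point `x` of the open set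
(tube Ψ a)ᶜ` has a preconnected neighbourhood (image of a ball under `ι`) on which `θ - θ x` has norm
less than `1/2`; over it the cover is the union of the sheets `x' ↦ (x', b + lf (θ x' - θ x))`, on each
of which `u` is constant. So the set of the `x` with a lift of value `v` is relatively clopen in the
preconnected base, and is empty or contains `γ 0`. The whole fibre over `γ 0` lies on the connected
curve (γ t, F t)`. -/
theorem TopData.conn_cover [ConnectedSpace X] (h : TopData ψ Ψ θ Δ g N ρ) (hι : IsOpenEmbedding ι)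
    (hr : range ι = {Ψ (0, 0)}ᶜ) {a : ℝ} (ha0 : 0 ≤ a) (ha : a ≤ 2) :
    IsPreconnected {y : X × ℝ | y.1 ∉ tube Ψ a ∧ (y.2 : Ci) = θ y.1} := by
  refine isPreconnected_of_forall_constant fun u hu => ?_
  obtain ⟨γ, F, g1, g2, g3⟩ := h.mer
  have g4 : ∀ t, γ t ∉ tube Ψ a := fun t ht => (g3 t).1 (tube_mono ha ht)
  have key : ∀ y : X × ℝ, y.1 ∉ tube Ψ a → (y.2 : Ci) = θ y.1 → u y = u (γ 0, F 0) := by
    intro y y1 y2
    obtain ⟨b, b1, b2⟩ := (h.conn_base ha0 (by linarith)).induction₂'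
      (fun x x' => ∀ b : ℝ, (b : Ci) = θ x → ∃ b' : ℝ, (b' : Ci) = θ x' ∧ u (x, b) = u (x', b'))
      (fun x hx => ((loc h hι hr ha0 ha hu hx).mono fun x' hx' =>
        ⟨fun b hb => ⟨_, by simp only [AddCircle.coe_add, lf_coe, hb, add_sub_cancel],
          (hx' b hb).symm⟩, fun b hb => by
          have e : ((b - lf (θ x' - θ x) : ℝ) : Ci) = θ x := by
            simp only [AddCircle.coe_sub, lf_coe, hb, sub_sub_cancel]
          exact ⟨_, e, by rw [← hx' _ e, sub_add_cancel]⟩⟩).filter_mono nhdsWithin_le_nhds)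
      (fun x x' x'' _ _ _ h1 h2 b hb => by
        obtain ⟨b', c1, c2⟩ := h1 b hb
        obtain ⟨b'', c3, c4⟩ := h2 b' c1
        exact ⟨b'', c3, c2.trans c4⟩) y1 (g4 0) y.2 y2
    obtain ⟨n, hn⟩ := (AddCircle.coe_eq_zero_iff (p := (1 : ℝ)) (x := b - F 0)).1
      (by rw [AddCircle.coe_sub, b1, (g3 0).2.1, sub_self])
    have p1 : Function.Periodic γ 1 := fun t => (g3 t).2.2.1
    have p2 : Function.Periodic (fun t => F t - t) 1 := fun t => by
      simp only [(g3 t).2.2.2]; ring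
    have p3 : γ n = γ 0 := by simpa using p1.int_mul_eq n
    have p4 : F n = b := by
      have := p2.int_mul_eq n
      simp only [mul_one, sub_zero, zsmul_eq_mul] at this hn
      linarith
    have := isPreconnected_univ.constant (hu.comp (g1.prodMk g2).continuousOn
      fun t _ => ⟨g4 t, (g3 t).2.1⟩) (mem_univ (n : ℝ)) (mem_univ 0)
    simp only [Function.comp, p3, p4] at this
    exact b2.trans this
  exact fun y hy y' hy' => (key y hy.1 hy.2).trans (key y' hy'.1 hy'.2).symm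

/-- The page is the image of the cover over (tube Ψ a)ᶜ` under `FF 0 0`. -/
theorem Setup.page_conn [ConnectedSpace X] (h : Setup ψ Ψ θ Δ g N ρ R tm a e₁ B₀)
    (hι : IsOpenEmbedding ι) (hr : range ι = {Ψ (0, 0)}ᶜ) :
    IsPreconnected (page Ψ θ Δ) ∧ (page Ψ θ Δ).Nonempty := by
  have a0 : 0 ≤ a := by linarith [h.a1]
  have e0 : (0 : ℝ) ∈ Icc 0 e₁ := ⟨le_rfl, h.e0.le⟩
  have s1 : ∀ x, x ∉ tube Ψ a → x ∉ otube Ψ a := fun x hx hx' => hx (otube_sub_tube le_rfl hx')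
  have e : page Ψ θ Δ =
      FF ψ θ Δ g R tm 0 0 '' {y : X × ℝ | y.1 ∉ tube Ψ a ∧ (y.2 : Ci) = θ y.1} := by
    refine Subset.antisymm (fun y hy => ⟨y, ⟨fun k => hy.1 (tube_sub_otube h.a2 k), hy.2.1⟩,
      h.FF_id hy⟩) ?_
    rintro _ ⟨y, hy, rfl⟩
    exact h.FF_page 0 e0 (s1 _ hy.1) hy.2
  obtain ⟨γ, F, -, -, g3⟩ := h.mer
  rw [e]
  exact ⟨(h.toTopData.conn_cover hι hr a0 h.a2.le).image _ ((h.FF_cont 0).comp
    (continuous_const.prodMk continuous_id).continuousOn fun y hy => ⟨e0, s1 _ hy.1, trivial⟩),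
    ⟨_, (γ 0, F 0), ⟨fun k => (g3 0).1 (tube_mono h.a2.le k), (g3 0).2.1⟩, rfl⟩⟩

end Pool.Agent.Lib.MP_399f8e_an.Lk
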