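import Pool.Agent.Lib.MP_399f8e_an.Lk.TCube1

open Set Filter Topology Metric

noncomputable section

namespace Pool.Agent.Lib.MP_399f8e_an.Lk

namespace TCube2Aux

theorem map_mem {S : Set Cell} {p : Submodule ℂ (Ch Cell)} (φ : Ch Cell →ₗ[ℂ] Ch Cell)
    (h : ∀ Q ∈ S, φ (sg Q) ∈ p) {z : Ch Cell} (hz : z ∈ Finsupp.supported ℂ ℂ S) : φ z ∈ p := by
  rw [Finsupp.supported_eq_span_single] at hz
  refine (Submodule.span_le (p := p.comap φ)).2 ?_ hz
  rintro _ ⟨Q, hQ, rfl⟩
  exact h Q hQ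

theorem sg_mem {S : Set Cell} {Q : Cell} (h : Q ∈ S) : sg Q ∈ Finsupp.supported ℂ ℂ S :=
  Finsupp.single_mem_supported ℂ 1 h

theorem sgn_sq (I : Finset (Fin 3)) (i : Fin 3) : sgn I i * sgn I i = 1 := by
  rw [sgn, ← mul_pow]
  simp

theorem sgn_int : ∀ (I : Finset (Fin 3)) (i j : Fin 3), i ∉ I → j ∈ I →
    (-1 : ℤ) ^ ((insert i I).filter fun a => a < i).card *
        (-1) ^ ((insert i I).filter fun a => a < j).card +
      (-1) ^ (I.filter fun a => a < j).card *
        (-1) ^ ((insert i (I.erase j)).filter fun a => a < i).card = 0 := by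
  decide

theorem sgn_anti {I : Finset (Fin 3)} {i j : Fin 3} (hi : i ∉ I) (hj : j ∈ I) :
    sgn (insert i I) i * sgn (insert i I) j + sgn I j * sgn (insert i (I.erase j)) i = 0 := by
  unfold sgn
  exact_mod_cast sgn_int I i j hi hj

theorem ee_self (i : Fin 3) : ee i i = 1 := by simp [ee]

theorem ee_ne {i j : Fin 3} (h : j ≠ i) : ee i j = 0 := by simp [ee, h]

/-- the prisms under the cells of the face `x i = h` -/
def Hm (i : Fin 3) (h : ℤ) : Ch Cell →ₗ[ℂ] Ch Cell :=
  Finsupp.linearCombination ℂ fun Q : Cell =>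
    if i ∉ Q.2 ∧ Q.1 i = h then sgn (insert i Q.2) i • sg (Q.1 - ee i, insert i Q.2) else 0

variable {i : Fin 3} {h : ℤ} {n : Z3} {I : Finset (Fin 3)}

theorem Hm_pos (hi : i ∉ I) (hn : n i = h) :
    Hm i h (sg (n, I)) = sgn (insert i I) i • sg (n - ee i, insert i I) := by
  simp [Hm, hi, hn]

theorem Hm_mem (hi : i ∈ I) : Hm i h (sg (n, I)) = 0 := by
  simp [Hm, hi]

theorem Hm_ne (hn : n i ≠ h) : Hm i h (sg (n, I)) = 0 := by
  simp [Hm, hn]

theorem top (hi : i ∉ I) (hn : n i = h) :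
    bd0 (Hm i h (sg (n, I))) + Hm i h (bd0 (sg (n, I))) = sg (n, I) - sg (n - ee i, I) := by
  rw [Hm_pos hi hn, map_smul, bd0_sg, bd0_sg, map_sum]
  dsimp only
  rw [Finset.sum_insert hi, smul_add, smul_smul, sgn_sq, one_smul, Finset.erase_insert hi,
    sub_add_cancel, add_assoc, Finset.smul_sum, ← Finset.sum_add_distrib, add_eq_left]
  refine Finset.sum_eq_zero fun j hj => ?_
  have hij : i ≠ j := fun e => hi (e ▸ hj)
  have h1 : i ∉ I.erase j := fun e => hi (Finset.mem_of_mem_erase e)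
  rw [map_smul, map_sub, Hm_pos h1 hn, Hm_pos h1 (by rw [Pi.add_apply, ee_ne hij, add_zero, hn]),
    Finset.erase_insert_of_ne hij, ← smul_sub, smul_smul, smul_smul, sub_add_eq_add_sub,
    ← add_smul, sgn_anti hi hj, zero_smul]

theorem vert (hi : i ∈ I) (hn : n i + 1 = h) :
    bd0 (Hm i h (sg (n, I))) + Hm i h (bd0 (sg (n, I))) = sg (n, I) := by
  rw [Hm_mem hi, map_zero, zero_add, bd0_sg, map_sum]
  dsimp only
  rw [Finset.sum_eq_single_of_mem i hi]
  · rw [map_smul, map_sub, Hm_ne (n := n) (by omega),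
      Hm_pos (Finset.notMem_erase i I) (by rw [Pi.add_apply, ee_self, hn]),
      Finset.insert_erase hi, add_sub_cancel_right, sub_zero, smul_smul, sgn_sq, one_smul]
  · intro j _ hji
    have h1 : i ∈ I.erase j := Finset.mem_erase.2 ⟨hji.symm, hi⟩
    rw [map_smul, map_sub, Hm_mem h1, Hm_mem h1, sub_zero, smul_zero]

theorem low (hn : n i + (if i ∈ I then 1 else 0) < h) :
    bd0 (Hm i h (sg (n, I))) + Hm i h (bd0 (sg (n, I))) = 0 := by
  have h0 : n i ≠ h := by split_ifs at hn <;> omega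
  rw [Hm_ne h0, map_zero, zero_add, bd0_sg, map_sum]
  refine Finset.sum_eq_zero fun j hj => ?_
  have h1 : (n + ee j) i ≠ h := by
    rw [Pi.add_apply]
    by_cases e : i = j
    · subst e
      rw [if_pos hj] at hn
      rw [ee_self]
      omega
    · rwa [ee_ne e, add_zero]
  rw [map_smul, map_sub, Hm_ne h0, Hm_ne h1, sub_zero, smul_zero]

variable {lo hi : Z3} {k : ℕ}

theorem inBox_update {Q : Cell} (hQ : InBox lo hi Q)
    (h1 : Q.1 i + (if i ∈ Q.2 then 1 else 0) < hi i) :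
    InBox lo (Function.update hi i (hi i - 1)) Q := fun j => by
  refine ⟨(hQ j).1, ?_⟩
  by_cases e : j = i
  · subst e
    rw [Function.update_self]
    omega
  · rw [Function.update_of_ne e]
    exact (hQ j).2

theorem inBox_of_update {Q : Cell} (hQ : InBox lo (Function.update hi i (hi i - 1)) Q) :
    InBox lo hi Q := fun j => by
  refine ⟨(hQ j).1, (hQ j).2.trans ?_⟩
  by_cases e : j = i
  · subst e
    rw [Function.update_self]
    omega
  · rw [Function.update_of_ne e]

theorem prism (hlt : lo i < hi i) (hQ : InBox lo hi (n, I)) (hI : i ∉ I) (hn : n i = hi i) :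
    InBox lo hi (n - ee i, insert i I) ∧ InBox lo hi (n - ee i, I) := by
  constructor <;> intro j <;> have h1 := hQ j <;> dsimp only at h1 ⊢ <;> by_cases e : j = i
  · subst e
    rw [Pi.sub_apply, ee_self, if_pos (Finset.mem_insert_self _ _)]
    omega
  · simpa [ee_ne e, e] using h1
  · subst e
    rw [Pi.sub_apply, ee_self, if_neg hI]
    omega
  · simpa [ee_ne e] using h1

theorem Hm_box (hlt : lo i < hi i) {z : Ch Cell}
    (hz : z ∈ Finsupp.supported ℂ ℂ {Q : Cell | InBox lo hi Q ∧ Q.2.card = k}) :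
    Hm i (hi i) z ∈ Finsupp.supported ℂ ℂ {Q : Cell | InBox lo hi Q ∧ Q.2.card = k + 1} := by
  refine map_mem _ ?_ hz
  rintro ⟨n, I⟩ ⟨hQ, hk⟩
  by_cases hI : i ∈ I
  · rw [Hm_mem hI]
    exact zero_mem _
  by_cases hn : n i = hi i
  · rw [Hm_pos hI hn]
    refine Submodule.smul_mem _ _ (sg_mem ⟨(prism hlt hQ hI hn).1, ?_⟩)
    rw [← hk]
    exact Finset.card_insert_of_notMem hI
  · rw [Hm_ne hn]
    exact zero_mem _

theorem Pm_box (hlt : lo i < hi i) {z : Ch Cell}
    (hz : z ∈ Finsupp.supported ℂ ℂ {Q : Cell | InBox lo hi Q ∧ Q.2.card = k}) :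
    z - (bd0 (Hm i (hi i) z) + Hm i (hi i) (bd0 z)) ∈ Finsupp.supported ℂ ℂ
      {Q : Cell | InBox lo (Function.update hi i (hi i - 1)) Q ∧ Q.2.card = k} := by
  refine map_mem (LinearMap.id - (bd0 ∘ₗ Hm i (hi i) + Hm i (hi i) ∘ₗ bd0)) ?_ hz
  rintro ⟨n, I⟩ ⟨hQ, hk⟩
  change sg (n, I) - (bd0 (Hm i (hi i) (sg (n, I))) + Hm i (hi i) (bd0 (sg (n, I)))) ∈ _
  by_cases h1 : n i + (if i ∈ I then 1 else 0) < hi i
  · rw [low h1, sub_zero]
    exact sg_mem ⟨inBox_update hQ h1, hk⟩
  have h2 : n i + (if i ∈ I then 1 else 0) ≤ hi i := (hQ i).2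
  by_cases hI : i ∈ I
  · rw [if_pos hI] at h1 h2
    rw [vert hI (by omega), sub_self]
    exact zero_mem _
  · rw [if_neg hI] at h1 h2
    have hn : n i = hi i := by omega
    rw [top hI hn, sub_sub_cancel]
    refine sg_mem ⟨inBox_update (prism hlt hQ hI hn).2 ?_, hk⟩
    dsimp only
    rw [Pi.sub_apply, ee_self, if_neg hI]
    omega

theorem point (hle : ∀ i, hi i ≤ lo i) {z : Ch Cell}
    (hz : z ∈ Finsupp.supported ℂ ℂ {Q : Cell | InBox lo hi Q ∧ Q.2.card = k})
    (ha : aug0 z = 0) : z = 0 := by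
  have h1 : z.support ⊆ {(lo, ∅)} := by
    rintro ⟨n, I⟩ hQ
    have h2 := (hz hQ).1
    have h3 : ∀ j, n j = lo j ∧ j ∉ I := fun j => by
      have h4 := h2 j
      have h5 := hle j
      dsimp only at h4
      split_ifs at h4 with e
      · omega
      · exact ⟨by omega, e⟩
    rw [Finset.mem_singleton, Prod.mk.injEq]
    exact ⟨funext fun j => (h3 j).1, Finset.eq_empty_of_forall_notMem fun j => (h3 j).2⟩
  obtain ⟨c, rfl⟩ := Finsupp.support_subset_singleton'.1 h1
  have : c = 0 := by simpa [aug0] using ha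
  rw [this, Finsupp.single_zero]

theorem fill (lo : Z3) (k N : ℕ) : ∀ hi : Z3, ∑ i, (hi i - lo i).toNat ≤ N → ∀ z : Ch Cell,
    z ∈ Finsupp.supported ℂ ℂ {Q : Cell | InBox lo hi Q ∧ Q.2.card = k} → bd0 z = 0 →
    aug0 z = 0 →
    ∃ w ∈ Finsupp.supported ℂ ℂ {Q : Cell | InBox lo hi Q ∧ Q.2.card = k + 1}, bd0 w = z := by
  induction N with
  | zero =>
    intro hi hN z hz _ ha
    have h1 := Finset.sum_eq_zero_iff.1 (Nat.le_zero.1 hN)
    refine ⟨0, zero_mem _, ?_⟩
    rw [point (fun i => by have := h1 i (Finset.mem_univ i); omega) hz ha, map_zero]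
  | succ N ih =>
    intro hi hN z hz h0 ha
    by_cases hle : ∀ i, hi i ≤ lo i
    · exact ⟨0, zero_mem _, by rw [point hle hz ha, map_zero]⟩
    obtain ⟨i, hlt⟩ := not_forall.1 hle
    rw [not_le] at hlt
    have h1 := Pm_box hlt hz
    rw [h0, map_zero, add_zero] at h1
    have h2 : ∑ j, (Function.update hi i (hi i - 1) j - lo j).toNat <
        ∑ j, (hi j - lo j).toNat := by
      refine Finset.sum_lt_sum (fun j _ => ?_) ⟨i, Finset.mem_univ i, ?_⟩
      · by_cases e : j = i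
        · subst e
          rw [Function.update_self]
          omega
        · rw [Function.update_of_ne e]
      · rw [Function.update_self]
        omega
    obtain ⟨w, hw, e⟩ := ih _ (by omega) _ h1 (by rw [map_sub, h0, bd0_bd0, sub_zero])
      (by rw [map_sub, ha, aug0_bd0, sub_zero])
    refine ⟨w + Hm i (hi i) z, add_mem ?_ (Hm_box hlt hz), by rw [map_add, e, sub_add_cancel]⟩
    refine Finsupp.supported_mono (fun Q hQ => ?_) hw
    exact ⟨inBox_of_update hQ.1, hQ.2⟩

end TCube2Aux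

/-- Collapse the box one layer at a time (induction on the sum of the `hi i - lo i`). If
`lo i < hi i`, put `j = hi i - 1`, let `Pm (n, I)` be `0` if `i ∈ I` and `n i = j`, the cell
(update n i j, I)` if `i ∉ I` and `n i = j + 1`, and (n, I)` otherwise; let `Hm (n, I)` be
`sgn (insert i I) i • sg (update n i j, insert i I)` if `i ∉ I` and `n i = j + 1`, and `0` otherwise.
On cells of the box `bd0 Hm + Hm bd0 = id - Pm`; `Pm` keeps the degree and the augmentation and lands
in the smaller box. So `z = Pm z + bd0 (Hm z)` and `Pm z` is a cycle of the smaller box. If the box is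
a point then `z` is a multiple of the vertex. An empty box (`hi i < lo i`) has no cell. -/
theorem box_fill (lo hi : Z3) (k : ℕ) (z : Ch Cell)
    (hz : z ∈ Finsupp.supported ℂ ℂ {Q : Cell | InBox lo hi Q ∧ Q.2.card = k})
    (h0 : bd0 z = 0) (ha : aug0 z = 0) :
    ∃ w ∈ Finsupp.supported ℂ ℂ {Q : Cell | InBox lo hi Q ∧ Q.2.card = k + 1}, bd0 w = z :=
  TCube2Aux.fill lo k _ hi le_rfl z hz h0 ha

end Pool.Agent.Lib.MP_399f8e_an.Lk
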