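import Pool.Agent.Lib.MP_399f8e_an.Lk.TCxOk
import Pool.Agent.Lib.MP_399f8e_an.Lk.TCube2

open Set Filter Topology Metric

noncomputable section

namespace Pool.Agent.Lib.MP_399f8e_an.Lk

variable {X : Type} [MetricSpace X] {ι : P3 → X} {θ : X → Ci} {θ₀ : X → ℝ} {M M' : Set X} {B : ℝ}

namespace TCx2Aux

theorem eq_on {β N : Type} [AddCommGroup N] [Module ℂ N] {S : Set β} {f g : Ch β →ₗ[ℂ] N}
    (h : ∀ b ∈ S, f (sg b) = g (sg b)) {z : Ch β} (hz : z ∈ Finsupp.supported ℂ ℂ S) :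
    f z = g z := by
  rw [Finsupp.supported_eq_span_single] at hz
  refine LinearMap.eqOn_span' ?_ hz
  rintro _ ⟨b, hb, rfl⟩
  exact h b hb

theorem mem_of {β N : Type} [AddCommGroup N] [Module ℂ N] {S : Set β} {f : Ch β →ₗ[ℂ] N}
    {p : Submodule ℂ N} (h : ∀ b ∈ S, f (sg b) ∈ p) {z : Ch β}
    (hz : z ∈ Finsupp.supported ℂ ℂ S) : f z ∈ p := by
  rw [Finsupp.supported_eq_span_single] at hz
  have : Submodule.span ℂ ((fun i => Finsupp.single i (1 : ℂ)) '' S) ≤ p.comap f := by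
    rw [Submodule.span_le]
    rintro _ ⟨b, hb, rfl⟩
    exact h b hb
  exact this hz

theorem sg_mem {β : Type} {S : Set β} {b : β} (hb : b ∈ S) :
    sg b ∈ Finsupp.supported ℂ ℂ S :=
  Finsupp.single_mem_supported ℂ 1 hb

theorem inv_unif (h : CxData ι θ θ₀ M M' B) {η : ℝ} (hη : 0 < η) :
    ∃ δ : ℝ, 0 < δ ∧ ∀ u v : P3, ι u ∈ M → ι v ∈ M → dist (ι u) (ι v) < δ → dist u v < η := by
  have hK := h.cpt
  have hc : Continuous ι := h.emb.continuous
  have hS : IsCompact (((ι ⁻¹' M) ×ˢ (ι ⁻¹' M)) ∩ {p : P3 × P3 | η ≤ dist p.1 p.2}) :=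
    (hK.prod hK).inter_right (isClosed_le continuous_const (continuous_fst.dist continuous_snd))
  have hf : Continuous fun p : P3 × P3 => dist (ι p.1) (ι p.2) :=
    (hc.comp continuous_fst).dist (hc.comp continuous_snd)
  obtain ⟨δ, hδ, hd⟩ := hS.exists_forall_le' (a := (0 : ℝ)) hf.continuousOn (by
    rintro ⟨u, v⟩ ⟨-, huv⟩
    refine dist_pos.2 fun e => ?_
    have e' : u = v := h.emb.injective e
    have : η ≤ dist u v := huv
    rw [e', dist_self] at this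
    exact absurd hη (not_lt.2 this))
  refine ⟨δ, hδ, fun u v hu hv huv => ?_⟩
  by_contra hn
  exact absurd (hd (u, v) ⟨⟨hu, hv⟩, not_lt.1 hn⟩) (not_le.2 huv)

theorem round_of {t : ℝ} {k : ℤ} (h : |t - k| < 1 / 2) : round t = k := by
  rw [abs_lt] at h
  rw [_root_.round_eq, Int.floor_eq_iff]
  constructor <;> linarith [h.1, h.2]

theorem box_near {u x : P3} {d c : ℝ} (hc : 0 < c) (hcd : c ≤ d / 8)
    (hx : ∀ i, ((⌊(u i - d / 4) / c⌋ : ℤ) : ℝ) ≤ x i ∧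
      x i ≤ ((⌈(u i + d / 4) / c⌉ + 1 : ℤ) : ℝ)) : dist (c • x) u ≤ d := by
  have hd : 0 ≤ d := by linarith
  rw [dist_pi_le_iff hd]
  intro i
  obtain ⟨h1, h2⟩ := hx i
  have h3 := Int.sub_one_lt_floor ((u i - d / 4) / c)
  have h4 := Int.ceil_lt_add_one ((u i + d / 4) / c)
  push_cast at h2
  have h5 : (u i - d / 4) / c ≤ x i + 1 := by linarith
  have h6 : x i - 2 ≤ (u i + d / 4) / c := by linarith
  rw [div_le_iff₀ hc] at h5
  rw [le_div_iff₀ hc] at h6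
  rw [Pi.smul_apply, smul_eq_mul, Real.dist_eq, abs_le]
  constructor <;> nlinarith

theorem in_box {u : P3} {d c : ℝ} (hc : 0 < c) {Q : Cell} (hQ : dist (lat c Q.1) u ≤ d / 4) :
    InBox (fun i => ⌊(u i - d / 4) / c⌋) (fun i => ⌈(u i + d / 4) / c⌉ + 1) Q := by
  intro i
  have h1 := (dist_le_pi_dist (lat c Q.1) u i).trans hQ
  rw [Real.dist_eq, abs_le] at h1
  have e : lat c Q.1 i = c * Q.1 i := rfl
  rw [e] at h1
  constructor
  · have : (u i - d / 4) / c ≤ (Q.1 i : ℝ) := by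
      rw [div_le_iff₀ hc]
      linarith [h1.1]
    have h2 := (Int.floor_le ((u i - d / 4) / c)).trans this
    exact_mod_cast h2
  · have : (Q.1 i : ℝ) ≤ (u i + d / 4) / c := by
      rw [le_div_iff₀ hc]
      linarith [h1.2]
    have h2 := this.trans (Int.le_ceil ((u i + d / 4) / c))
    have h3 : Q.1 i ≤ ⌈(u i + d / 4) / c⌉ := by exact_mod_cast h2
    show Q.1 i + (if i ∈ Q.2 then 1 else 0) ≤ ⌈(u i + d / 4) / c⌉ + 1
    split_ifs <;> omega

theorem body_box {lo hi : Z3} {Q : Cell} (hQ : InBox lo hi Q) {x : P3} (hx : x ∈ body Q) (i : Fin 3) :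
    (lo i : ℝ) ≤ x i ∧ x i ≤ (hi i : ℝ) := by
  obtain ⟨h1, h2⟩ := hQ i
  obtain ⟨h3, h4⟩ := hx i
  constructor
  · have : (lo i : ℝ) ≤ Q.1 i := by exact_mod_cast h1
    exact this.trans h3
  · refine h4.trans ?_
    split_ifs at h2 ⊢ with hi'
    · exact_mod_cast h2
    · exact_mod_cast h2

end TCx2Aux

open TCx2Aux

/-- Let `y = (ι u, a)`. Take `δ₁` from `unif` for `min ε (1/8)` and below the margin, and `δ < 1/4`
such that points of `M` within `δ` have preimages within `δ₁ / 4` (uniform continuity of the inverse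
of `ι` on `M`); `c ≤ δ₁ / 8`. With `g n = round (a - θ₀ (ι (lat c n)))` every cell near `y` is
(Q, g Q.1)`, so `z = liftG g z₀` with `z₀ = pl 1 z` carried by the box
`lo i = floor ((u i - δ₁ / 4) / c)`, `hi i = ceil ((u i + δ₁ / 4) / c) + 1`. All cubes of the box lie
within `δ₁` of `u` after scaling, so their lifts are cells of `N` within `ε` of `y` and `liftG_bd`
holds for them (`cob`). `bd0 z₀ = 0` by `pl_one_bd`; `box_fill`; lift the filling. -/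
theorem CxData.fill (h : CxData ι θ θ₀ M M' B) {ε : ℝ} (hε : 0 < ε) :
    ∃ δ : ℝ, 0 < δ ∧ ∀ᶠ c in 𝓝[>] (0 : ℝ), (cx ι θ₀ M B c).Fill (ovr θ M' (B - 2)) δ ε := by
  have hω : (0 : ℝ) < min ε (1 / 8) := lt_min hε (by norm_num)
  obtain ⟨δ₀, hδ₀, hun⟩ := h.unif hω
  obtain ⟨μ, hμ, hmar⟩ := h.margin
  obtain ⟨d, hd, hd0, hdμ⟩ : ∃ d : ℝ, 0 < d ∧ d ≤ δ₀ ∧ d ≤ μ :=
    ⟨min δ₀ μ, lt_min hδ₀ hμ, min_le_left _ _, min_le_right _ _⟩
  obtain ⟨δ₂, hδ₂, hinv⟩ := inv_unif h (η := d / 4) (by linarith)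
  obtain ⟨δ, hδ, hδ1, hδ2⟩ : ∃ δ : ℝ, 0 < δ ∧ δ < δ₂ ∧ δ < 1 / 2 :=
    ⟨min (δ₂ / 2) (1 / 4), lt_min (by linarith) (by norm_num),
      (min_le_left _ _).trans_lt (by linarith), (min_le_right _ _).trans_lt (by norm_num)⟩
  refine ⟨δ, hδ, ?_⟩
  have hd8 : (0 : ℝ) < d / 8 := by linarith
  filter_upwards [Ioo_mem_nhdsGT hd8] with c hc
  rintro ⟨y, a⟩ ⟨hyM', hya, haB⟩ k z hz hbd haug
  have hyM : y ∈ M := interior_subset (h.int hyM')
  obtain ⟨u, rfl⟩ := h.rng hyM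
  simp only at hyM' hya haB
  set g : Z3 → ℤ := fun n => round (a - θ₀ (ι (lat c n))) with hg
  set lo : Z3 := fun i => ⌊(u i - d / 4) / c⌋ with hlo
  set hi : Z3 := fun i => ⌈(u i + d / 4) / c⌉ + 1 with hhi
  -- points of the box
  have hpt : ∀ x : P3, (∀ i, (lo i : ℝ) ≤ x i ∧ x i ≤ (hi i : ℝ)) →
      ι (c • x) ∈ M ∧ dist (ι (c • x)) (ι u) ≤ min ε (1 / 8) ∧
        ‖θ (ι (c • x)) - (a : Ci)‖ ≤ min ε (1 / 8) := by
    intro x hx
    have h1 : dist (c • x) u ≤ d := box_near hc.1 hc.2.le hx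
    have h2 : ι (c • x) ∈ M := hmar u _ hyM' (h1.trans hdμ)
    have h3 := hun _ _ h2 hyM (h1.trans hd0)
    rw [hya]
    exact ⟨h2, h3.1, h3.2⟩
  have hcorner : ∀ Q : Cell, InBox lo hi Q →
      dist (ι (lat c Q.1)) (ι u) ≤ min ε (1 / 8) ∧
        ‖θ (ι (lat c Q.1)) - (a : Ci)‖ ≤ min ε (1 / 8) := by
    intro Q hQ
    rw [lat_eq]
    exact (hpt _ (body_box hQ (corner_mem Q))).2
  -- cells near y
  have hnear : ∀ b ∈ (cx ι θ₀ M B c).near (ι u, a) δ, InBox lo hi b.1 ∧ g b.1.1 = b.2 := by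
    rintro b ⟨hbN, hb⟩
    have hb' : dist (ι (lat c b.1.1), θ₀ (ι (lat c b.1.1)) + b.2) (ι u, a) ≤ δ := hb
    rw [Prod.dist_eq, max_le_iff] at hb'
    have hM : ι (lat c b.1.1) ∈ M := by
      rw [lat_eq]
      exact hbN.1 _ (corner_mem b.1)
    refine ⟨in_box hc.1 (hinv _ _ hM hyM (hb'.1.trans_lt hδ1)).le, round_of ?_⟩
    have h2 := hb'.2.trans_lt hδ2
    rw [Real.dist_eq, abs_sub_comm] at h2
    rwa [sub_sub]
  have hz0 : pl 1 z ∈ Finsupp.supported ℂ ℂ {Q : Cell | InBox lo hi Q ∧ Q.2.card = k} := by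
    refine mem_of (fun b hb => ?_) hz
    rw [pl_sg, one_zpow, one_smul]
    exact sg_mem ⟨(hnear b hb.1).1, hb.2⟩
  have hzl : liftG g (pl 1 z) = z := by
    refine eq_on (f := liftG g ∘ₗ pl 1) (g := LinearMap.id) (fun b hb => ?_) hz
    rw [LinearMap.comp_apply, pl_sg, one_zpow, one_smul, liftG_sg, (hnear b hb.1).2]
    rfl
  have hbd0 : bd0 (pl 1 z) = 0 := by
    have e : bdT (fun n i => round (θ₀ (ι (lat c n)) - θ₀ (ι (lat c (n + ee i))))) z = 0 := hbd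
    rw [← pl_one_bd, e, map_zero]
  have haug0 : aug0 (pl 1 z) = 0 := by
    rw [← haug]
    refine eq_on (f := aug0 ∘ₗ pl 1) (g := (cx ι θ₀ M B c).aug) (fun b _ => ?_) hz
    rw [LinearMap.comp_apply, pl_sg, one_zpow, one_smul]
    simp only [aug0, Cx.aug, Finsupp.linearCombination_single, one_smul]
    rfl
  obtain ⟨w, hw, hwz⟩ := box_fill lo hi k _ hz0 hbd0 haug0
  refine ⟨liftG g w, mem_of (fun Q hQ => ?_) hw, ?_⟩
  · rw [liftG_sg]
    obtain ⟨h1, h2⟩ := hcorner Q hQ.1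
    have h3 := h.sheet ((min_le_right _ _).trans_lt (by norm_num)) h2
    refine sg_mem ⟨⟨⟨fun x hx => (hpt x (body_box hQ.1 hx)).1, ?_⟩, ?_⟩, hQ.2⟩
    · have h4 : (Q.2.card : ℝ) ≤ 3 := by
        have := Finset.card_le_univ Q.2
        rw [Fintype.card_fin] at this
        exact_mod_cast this
      have h5 := h3.trans (min_le_right _ _)
      show |θ₀ (ι (lat c Q.1)) + (round (a - θ₀ (ι (lat c Q.1))) : ℤ)| ≤ B - (Q.2.card : ℝ) / 2
      rw [abs_le] at h5 haB ⊢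
      constructor <;> linarith [h5.1, h5.2, haB.1, haB.2]
    · show dist (ι (lat c Q.1), θ₀ (ι (lat c Q.1)) + (round (a - θ₀ (ι (lat c Q.1))) : ℤ))
        (ι u, a) ≤ ε
      rw [Prod.dist_eq, max_le_iff]
      refine ⟨h1.trans (min_le_left _ _), ?_⟩
      rw [Real.dist_eq]
      exact h3.trans (min_le_left _ _)
  · rw [← hzl, ← hwz]
    refine eq_on (f := (cx ι θ₀ M B c).bd ∘ₗ liftG g) (g := liftG g ∘ₗ bd0) (fun Q hQ => ?_) hw
    rw [LinearMap.comp_apply, LinearMap.comp_apply]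
    refine liftG_bd (sh := fun n i => round (θ₀ (ι (lat c n)) - θ₀ (ι (lat c (n + ee i)))))
      fun i hi' => ?_
    have h1 := (hcorner Q hQ.1).2.trans (min_le_right _ _)
    have h2 : ‖θ (ι (lat c (Q.1 + ee i))) - (a : Ci)‖ ≤ 1 / 8 := by
      rw [lat_eq]
      exact (hpt _ (body_box hQ.1 ((body_face hi').1
        (corner_mem (Q.1 + ee i, Q.2.erase i))))).2.2.trans (min_le_right _ _)
    exact h.cob h1 h2

theorem CxData.fam (h : CxData ι θ θ₀ M M' B) :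
    Fam (cx ι θ₀ M B) (ovr θ M B) (ovr θ M' (B - 2)) where
  cpt := h.ovr_cpt
  sub := fun _ hy => ⟨interior_subset (h.int hy.1), hy.2.1, hy.2.2.trans (by linarith)⟩
  ok := fun _ hω => h.ok hω
  posK := Eventually.of_forall h.posK
  vert := fun _ hε => h.vert hε
  fill := fun _ hε => h.fill hε

end Pool.Agent.Lib.MP_399f8e_an.Lk
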