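import Pool.Agent.Lib.MP_399f8e_an.Lk.TCube3

open Set Filter Topology Metric

noncomputable section

namespace Pool.Agent.Lib.MP_399f8e_an.Lk

variable {sh : Z3 → Fin 3 → ℤ}

namespace TCube4Aux

theorem erase_inj {i j : Fin 3}
    (h : (Finset.univ : Finset (Fin 3)).erase j = Finset.univ.erase i) : j = i := by
  by_contra hne
  have h1 : j ∈ (Finset.univ : Finset (Fin 3)).erase i :=
    Finset.mem_erase.2 ⟨hne, Finset.mem_univ _⟩
  rw [← h] at h1
  exact (Finset.notMem_erase j _) h1

theorem bd0_cube (m n : Z3) (i : Fin 3) :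
    bd0 (sg (m, Finset.univ)) (n + ee i, Finset.univ.erase i) =
      sgn Finset.univ i * ((sg (m, Finset.univ) : Ch Cell) (n, Finset.univ) -
        (sg (m, Finset.univ) : Ch Cell) (n + ee i, Finset.univ)) := by
  classical
  unfold bd0
  rw [Finsupp.linearCombination_single, one_smul, Finsupp.finsetSum_apply]
  rw [Finset.sum_eq_single i]
  · simp only [Finsupp.smul_apply, Finsupp.sub_apply, smul_eq_mul, Finsupp.single_apply,
      Prod.mk.injEq, and_true, add_left_inj]
  · intro j _ hj
    have hne : (Finset.univ : Finset (Fin 3)).erase j ≠ Finset.univ.erase i :=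
      fun h => hj (erase_inj h)
    simp only [Finsupp.smul_apply, Finsupp.sub_apply, smul_eq_mul, Finsupp.single_apply,
      Prod.mk.injEq, hne, and_false, if_false, sub_zero, mul_zero]
  · intro hi
    exact absurd (Finset.mem_univ i) hi

theorem eq_univ {Q : Cell} (h : Q.2.card = 3) : Q = (Q.1, Finset.univ) := by
  refine Prod.ext rfl ?_
  exact Finset.eq_univ_of_card _ (by simpa using h)

theorem apply_eq_sum (u : Ch Cell) (R : Cell) :
    u R = ∑ Q ∈ u.support, u Q * (sg Q : Ch Cell) R := by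
  classical
  conv_lhs => rw [← Finsupp.sum_single u]
  rw [Finsupp.sum, Finsupp.finsetSum_apply]
  refine Finset.sum_congr rfl fun Q _ => ?_
  by_cases hQ : Q = R
  · subst hQ
    simp
  · simp [hQ]

theorem bd0_eq_sum (u : Ch Cell) (R : Cell) :
    bd0 u R = ∑ Q ∈ u.support, u Q * bd0 (sg Q) R := by
  classical
  conv_lhs => rw [← Finsupp.sum_single u]
  rw [Finsupp.sum, map_sum, Finsupp.finsetSum_apply]
  refine Finset.sum_congr rfl fun Q _ => ?_
  have : (Finsupp.single Q (u Q) : Ch Cell) = u Q • sg Q := by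
    rw [Finsupp.smul_single, smul_eq_mul, mul_one]
  rw [this, map_smul, Finsupp.smul_apply, smul_eq_mul]

theorem bd0_coef {u : Ch Cell} (hu : ∀ Q ∈ u.support, Q.2.card = 3) (n : Z3) (i : Fin 3) :
    bd0 u (n + ee i, Finset.univ.erase i) =
      sgn Finset.univ i * (u (n, Finset.univ) - u (n + ee i, Finset.univ)) := by
  rw [bd0_eq_sum, apply_eq_sum u (n, Finset.univ), apply_eq_sum u (n + ee i, Finset.univ),
    ← Finset.sum_sub_distrib, Finset.mul_sum]
  refine Finset.sum_congr rfl fun Q hQ => ?_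
  have e := bd0_cube Q.1 n i
  rw [← eq_univ (hu Q hQ)] at e
  rw [e]
  ring

theorem mem_cube {x : P3} {n : Z3} :
    x ∈ body (n, Finset.univ) ↔ ∀ i, (n i : ℝ) ≤ x i ∧ x i ≤ n i + 1 := by
  simp [body]

theorem step {u : Ch Cell} (hu : ∀ Q ∈ u.support, Q.2.card = 3) {U : Set P3}
    (h : ∀ Q ∈ (bd0 u).support, Disjoint (body Q) U) {x : P3} (hx : x ∈ U) {n : Z3} {i : Fin 3}
    (hn : x ∈ body (n, Finset.univ)) (hm : x ∈ body (n + ee i, Finset.univ)) :
    u (n, Finset.univ) = u (n + ee i, Finset.univ) := by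
  have hxb : x ∈ body (n + ee i, Finset.univ.erase i) := by
    rw [mem_cube] at hn hm
    intro j
    refine ⟨(hm j).1, ?_⟩
    by_cases hj : j = i
    · subst hj
      have h1 := (hn j).2
      simp [ee]
      exact h1
    · have h1 := (hm j).2
      have h2 : j ∈ (Finset.univ : Finset (Fin 3)).erase i :=
        Finset.mem_erase.2 ⟨hj, Finset.mem_univ _⟩
      simpa [h2] using h1
  have h0 : bd0 u (n + ee i, Finset.univ.erase i) = 0 := by
    by_contra hne
    exact Set.disjoint_left.1 (h _ (Finsupp.mem_support_iff.2 hne)) hxb hx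
  rw [bd0_coef hu] at h0
  have hs : sgn Finset.univ i ≠ 0 := pow_ne_zero _ (by norm_num)
  exact sub_eq_zero.1 ((mul_eq_zero.1 h0).resolve_left hs)

theorem one {u : Ch Cell} (hu : ∀ Q ∈ u.support, Q.2.card = 3) {U : Set P3}
    (h : ∀ Q ∈ (bd0 u).support, Disjoint (body Q) U) {x : P3} (hx : x ∈ U) {n m : Z3} (i : Fin 3)
    (hn : x ∈ body (n, Finset.univ)) (hm : x ∈ body (m, Finset.univ))
    (he : ∀ j, j ≠ i → n j = m j) : u (n, Finset.univ) = u (m, Finset.univ) := by
  have h1 := mem_cube.1 hn i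
  have h2 := mem_cube.1 hm i
  have h3 : n i ≤ m i + 1 := by
    have : (n i : ℝ) ≤ m i + 1 := h1.1.trans h2.2
    exact_mod_cast this
  have h4 : m i ≤ n i + 1 := by
    have : (m i : ℝ) ≤ n i + 1 := h2.1.trans h1.2
    exact_mod_cast this
  rcases lt_trichotomy (n i) (m i) with hl | hl | hl
  · have e : m = n + ee i := by
      funext j
      by_cases hj : j = i
      · subst hj
        simp only [ee, Pi.add_apply, Pi.single_eq_same]
        omega
      · simp [ee, hj, he j hj]
    subst e
    exact step hu h hx hn hm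
  · have e : n = m := by
      funext j
      by_cases hj : j = i
      · subst hj
        exact hl
      · exact he j hj
    rw [e]
  · have e : n = m + ee i := by
      funext j
      by_cases hj : j = i
      · subst hj
        simp only [ee, Pi.add_apply, Pi.single_eq_same]
        omega
      · simp [ee, hj, he j hj]
    subst e
    exact (step hu h hx hm hn).symm

theorem same {u : Ch Cell} (hu : ∀ Q ∈ u.support, Q.2.card = 3) {U : Set P3}
    (h : ∀ Q ∈ (bd0 u).support, Disjoint (body Q) U) {x : P3} (hx : x ∈ U) {n m : Z3}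
    (hn : x ∈ body (n, Finset.univ)) (hm : x ∈ body (m, Finset.univ)) :
    u (n, Finset.univ) = u (m, Finset.univ) := by
  have hn' := mem_cube.1 hn
  have hm' := mem_cube.1 hm
  have ha : x ∈ body (![m 0, n 1, n 2], Finset.univ) := by
    rw [mem_cube]
    intro j
    fin_cases j
    · exact hm' 0
    · exact hn' 1
    · exact hn' 2
  have hb : x ∈ body (![m 0, m 1, n 2], Finset.univ) := by
    rw [mem_cube]
    intro j
    fin_cases j
    · exact hm' 0
    · exact hm' 1
    · exact hn' 2
  have e1 : u (n, Finset.univ) = u (![m 0, n 1, n 2], Finset.univ) := by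
    refine one hu h hx 0 hn ha fun j hj => ?_
    fin_cases j
    · exact absurd rfl hj
    · rfl
    · rfl
  have e2 : u (![m 0, n 1, n 2], Finset.univ) = u (![m 0, m 1, n 2], Finset.univ) := by
    refine one hu h hx 1 ha hb fun j hj => ?_
    fin_cases j
    · rfl
    · exact absurd rfl hj
    · rfl
  have e3 : u (![m 0, m 1, n 2], Finset.univ) = u (m, Finset.univ) := by
    refine one hu h hx 2 hb hm fun j hj => ?_
    fin_cases j
    · rfl
    · rfl
    · exact absurd rfl hj
  rw [e1, e2, e3]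

/-- the corner of a cube containing `x` -/
def fl (x : P3) : Z3 := fun i => ⌊x i⌋

theorem mem_fl (x : P3) : x ∈ body (fl x, Finset.univ) :=
  mem_cube.2 fun _ => ⟨Int.floor_le _, (Int.lt_floor_add_one _).le⟩

theorem near (x : P3) : ∀ᶠ y in 𝓝 x, x ∈ body (fl y, Finset.univ) := by
  simp only [mem_cube]
  refine eventually_all.2 fun i => ?_
  have hc : ContinuousAt (fun y : P3 => y i) x := (continuous_apply i).continuousAt
  have h1 : ∀ᶠ y in 𝓝 x, y i < (⌊x i⌋ : ℝ) + 1 :=
    hc.eventually (eventually_lt_nhds (Int.lt_floor_add_one (x i)))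
  have h2 : ∀ᶠ y in 𝓝 x, (⌈x i⌉ : ℝ) - 1 < y i :=
    hc.eventually (eventually_gt_nhds (by linarith [Int.ceil_lt_add_one (x i)]))
  filter_upwards [h1, h2] with y a b
  constructor
  · have : ⌊y i⌋ ≤ ⌊x i⌋ := Int.floor_le_iff.2 a
    have h3 : ((fl y i : ℤ) : ℝ) ≤ ⌊x i⌋ := by exact_mod_cast this
    exact h3.trans (Int.floor_le _)
  · have : ⌈x i⌉ - 1 ≤ ⌊y i⌋ := Int.le_floor.2 (by push_cast; exact b.le)
    have h3 : ((⌈x i⌉ : ℤ) : ℝ) - 1 ≤ ((fl y i : ℤ) : ℝ) := by exact_mod_cast this
    linarith [Int.le_ceil (x i)]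

theorem bdd (Q : Cell) : Bornology.IsBounded (body Q) := by
  refine (isBounded_Icc (fun i => (Q.1 i : ℝ)) fun i => (Q.1 i : ℝ) + 1).subset fun x hx => ?_
  refine ⟨fun i => (hx i).1, fun i => (hx i).2.trans ?_⟩
  split_ifs <;> simp

end TCube4Aux

/-- The coefficient of `bd0 u` at the square (n + ee i, univ.erase i) is, up to sign,
`u (n, univ) - u (n + ee i, univ)`. For `x ∈ U` all cubes containing `x` have the same coefficient
(change the three coordinates of the corner one at a time; the common square contains `x`), so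
`x ↦ u (floor x, univ)` is locally constant on `U` (a cube containing a point close enough to `x`
contains `x`), hence constant, and zero far away. -/
theorem winding {u : Ch Cell} (hu : ∀ Q ∈ u.support, Q.2.card = 3) {U : Set P3} (ho : IsOpen U)
    (hc : IsPreconnected U) (hb : ¬ Bornology.IsBounded U)
    (h : ∀ Q ∈ (bd0 u).support, Disjoint (body Q) U) : ∀ Q ∈ u.support, Disjoint (body Q) U := by
  intro Q hQ
  refine Set.disjoint_left.2 fun x hxQ hx => ?_
  have hB : Bornology.IsBounded (⋃ Q ∈ u.support, body Q) :=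
    (Bornology.isBounded_biUnion_finset _).2 fun Q _ => TCube4Aux.bdd Q
  obtain ⟨y, hy, hy'⟩ : ∃ y ∈ U, y ∉ ⋃ Q ∈ u.support, body Q := by
    by_contra hcon
    exact hb (hB.subset fun y hy => by_contra fun hy' => hcon ⟨y, hy, hy'⟩)
  have hy0 : u (TCube4Aux.fl y, Finset.univ) = 0 := by
    by_contra hne
    exact hy' (mem_biUnion (Finsupp.mem_support_iff.2 hne) (TCube4Aux.mem_fl y))
  have hxy : u (TCube4Aux.fl x, Finset.univ) = u (TCube4Aux.fl y, Finset.univ) := by
    refine hc.induction₂
      (fun a b => u (TCube4Aux.fl a, Finset.univ) = u (TCube4Aux.fl b, Finset.univ))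
      (fun a ha => ?_) (fun _ _ _ _ _ _ h1 h2 => h1.trans h2) (fun _ _ _ _ h1 => h1.symm) hx hy
    filter_upwards [mem_nhdsWithin_of_mem_nhds (TCube4Aux.near a)] with b hb'
    exact TCube4Aux.same hu h ha (TCube4Aux.mem_fl a) hb'
  have hQ' := TCube4Aux.eq_univ (hu Q hQ)
  have hxQ' : x ∈ body (Q.1, Finset.univ) := hQ' ▸ hxQ
  have h1 : u (Q.1, Finset.univ) = u (TCube4Aux.fl x, Finset.univ) :=
    TCube4Aux.same hu h hx hxQ' (TCube4Aux.mem_fl x)
  rw [← hQ', hxy, hy0] at h1
  exact Finsupp.mem_support_iff.1 hQ h1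

end Pool.Agent.Lib.MP_399f8e_an.Lk
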