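import Pool.Agent.Lib.MP_399f8e_an.Lk.TDefs

open Set Filter Topology Metric

noncomputable section

namespace Pool.Agent.Lib.MP_399f8e_an.Lk

variable {β Y : Type} [MetricSpace Y] {X : Cx β Y} {A A' : Set β} {f f' : Y → Y}
  {r r' s ω ω₀ : ℝ} {φ φ' D : Ch β →ₗ[ℂ] Ch β} {k : ℕ} {O : Set Y}

namespace TMachAux

omit [MetricSpace Y] in
theorem map_mem {M : Type} [AddCommGroup M] [Module ℂ M] (L : Ch β →ₗ[ℂ] M) (S : Submodule ℂ M)
    {z : Ch β} (hz : z ∈ X.ch A k) (h : ∀ b ∈ A, X.dim b = k → L (sg b) ∈ S) : L z ∈ S := by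
  rw [Cx.ch, Finsupp.supported_eq_span_single] at hz
  refine (Submodule.span_le (p := S.comap L)).2 ?_ hz
  rintro _ ⟨b, hb, rfl⟩
  exact h b hb.1 hb.2

omit [MetricSpace Y] in
theorem map_eq {M : Type} [AddCommGroup M] [Module ℂ M] (L L' : Ch β →ₗ[ℂ] M)
    {z : Ch β} (hz : z ∈ X.ch A k) (h : ∀ b ∈ A, X.dim b = k → L (sg b) = L' (sg b)) :
    L z = L' z :=
  map_mem LinearMap.id (LinearMap.eqLocus L L') hz h

omit [MetricSpace Y] in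
theorem mem_ch {z : Ch β} : z ∈ X.ch A k ↔ ∀ b ∈ z.support, b ∈ A ∧ X.dim b = k :=
  Finsupp.mem_supported ℂ z

end TMachAux

open TMachAux

theorem Cx.ch_mono (h : A ⊆ A') (k : ℕ) : X.ch A k ≤ X.ch A' k :=
  Finsupp.supported_mono fun _ hb => ⟨h hb.1, hb.2⟩

theorem Cx.Ok.sub_N (h : X.Ok ω₀) : X.Sub X.N :=
  ⟨Subset.rfl, fun b hb b' hb' => (h.face b hb b' hb').1⟩

/-- A face has dimension one less and is placed within `ω₀`. -/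
theorem Cx.Ok.sub_thick (h : X.Ok ω₀) (hA : X.Sub A) (O : Set Y) :
    X.Sub {b | b ∈ A ∧ ∃ y ∈ O, dist (X.pos b) y ≤ (3 - (X.dim b : ℝ)) * ω₀} := by
  refine ⟨fun b hb => hA.sub hb.1, ?_⟩
  rintro b ⟨hb, y, hy, hd⟩ b' hb'
  obtain ⟨-, h1, h2⟩ := h.face b (hA.sub hb) b' hb'
  refine ⟨hA.face b hb b' hb', y, hy, ?_⟩
  have h3 : (X.dim b : ℝ) = X.dim b' + 1 := by exact_mod_cast h1.symm
  have h4 := dist_triangle (X.pos b') (X.pos b) y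
  rw [h3] at hd
  linarith

/-- Span induction (`Finsupp.supported_eq_span_single`) here and below. -/
theorem Cx.Ok.bd_ch (h : X.Ok ω₀) (hA : X.Sub A) {z : Ch β} (hz : z ∈ X.ch A (k + 1)) :
    X.bd z ∈ X.ch A k := by
  refine map_mem X.bd _ hz fun b hb hk => mem_ch.2 fun b' hb' => ⟨hA.face b hb b' hb', ?_⟩
  have := (h.face b (hA.sub hb) b' hb').2.1
  omega

theorem Cx.Ok.bd_zero (h : X.Ok ω₀) {z : Ch β} (hz : z ∈ X.ch X.N 0) : X.bd z = 0 := by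
  refine map_eq X.bd 0 hz fun b hb hk => ?_
  rw [LinearMap.zero_apply, ← Finsupp.support_eq_empty, Finset.eq_empty_iff_forall_notMem]
  intro b' hb'
  have := (h.face b hb b' hb').2.1
  omega

theorem Cx.Ok.bd_bd (h : X.Ok ω₀) {z : Ch β} (hz : z ∈ X.ch X.N k) :
    X.bd (X.bd z) = 0 ∧ X.aug (X.bd z) = 0 :=
  ⟨map_eq (X.bd ∘ₗ X.bd) 0 hz fun b hb _ => h.dd b hb,
    map_eq (X.aug ∘ₗ X.bd) 0 hz fun b hb _ => h.aug_bd b hb⟩

theorem Cx.Ok.ch_four (h : X.Ok ω₀) : X.ch X.N 4 = ⊥ := by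
  refine eq_bot_iff.2 fun z hz => map_mem LinearMap.id ⊥ hz fun b _ hk => ?_
  have := h.dim_le b
  omega

theorem Cx.Ok.finiteDimensional (h : X.Ok ω₀) (k : ℕ) : FiniteDimensional ℂ (X.ch X.N k) := by
  rw [Cx.ch, Finsupp.supported_eq_span_single]
  exact FiniteDimensional.span_of_finite ℂ ((h.fin.subset fun _ hb => hb.1).image _)

theorem Cx.aug_sg_of_dim {b : β} (hb : X.dim b = 0) : X.aug (sg b) = 1 := by
  simp [Cx.aug, hb]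

theorem Cx.aug_of_pos {z : Ch β} (hz : z ∈ X.ch A (k + 1)) : X.aug z = 0 :=
  map_eq X.aug 0 hz fun b _ hk => by simp [Cx.aug, hk]

theorem Cx.Ctrl.mono (h : X.Ctrl A f r φ) (hA : A' ⊆ A)
    (hf : ∀ b ∈ A', dist (f (X.pos b)) (f' (X.pos b)) + r ≤ r') : X.Ctrl A' f' r' φ := by
  refine ⟨fun b hb => Cx.ch_mono ?_ _ (h.mem b (hA hb)),
    fun b hb => h.comm b (hA hb), fun b hb => h.aug b (hA hb)⟩
  intro b' hb'
  refine ⟨hb'.1, ?_⟩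
  have h1 := dist_triangle (X.pos b') (f (X.pos b)) (f' (X.pos b))
  have h2 := hb'.2
  have h3 := hf b hb
  linarith

theorem Cx.Ctrl.map_ch (h : X.Ctrl A f r φ) {z : Ch β} (hz : z ∈ X.ch A k) :
    φ z ∈ X.ch X.N k ∧ X.bd (φ z) = φ (X.bd z) ∧ X.aug (φ z) = X.aug z :=
  ⟨map_mem φ _ hz fun b hb hk => hk ▸ Cx.ch_mono (fun _ hb' => hb'.1) _ (h.mem b hb),
    map_eq (X.bd ∘ₗ φ) (φ ∘ₗ X.bd) hz fun b hb _ => h.comm b hb,
    map_eq (X.aug ∘ₗ φ) X.aug hz fun b hb _ => h.aug b hb⟩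

theorem Cx.Hty.hom (h : X.Hty A f s D φ φ') : X.Hom A φ φ' := by
  intro k z hz h0
  refine ⟨D z, map_mem D _ hz fun b hb hk =>
    hk ▸ Cx.ch_mono (fun _ hb' => hb'.1) _ (h.mem b hb), ?_⟩
  have h1 : X.bd (D z) + D (X.bd z) = φ z - φ' z :=
    map_eq (X.bd ∘ₗ D + D ∘ₗ X.bd) (φ - φ') hz fun b hb _ => h.eq b hb
  rwa [h0, map_zero, add_zero] at h1

theorem Cx.Hom.trans {φ'' : Ch β →ₗ[ℂ] Ch β} (h : X.Hom A φ φ') (h' : X.Hom A φ' φ'') :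
    X.Hom A φ φ'' := by
  intro k z hz h0
  obtain ⟨w, hw, e⟩ := h k z hz h0
  obtain ⟨w', hw', e'⟩ := h' k z hz h0
  exact ⟨w + w', add_mem hw hw', by rw [map_add, e, e', sub_add_sub_cancel]⟩

theorem Cx.Ctrl.comp (h : X.Ctrl A f r φ) (h' : X.Ctrl X.N f' r' φ')
    (hs : ∀ b ∈ A, ∀ b' ∈ X.N, dist (X.pos b') (f (X.pos b)) ≤ r →
      dist (f' (X.pos b')) (f' (f (X.pos b))) ≤ s) :
    X.Ctrl A (fun y => f' (f y)) (r' + s) (φ' ∘ₗ φ) := by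
  have hN : ∀ b ∈ A, φ (sg b) ∈ X.ch X.N (X.dim b) := fun b hb =>
    Cx.ch_mono (fun _ hb' => hb'.1) _ (h.mem b hb)
  refine ⟨fun b hb => map_mem φ' _ (h.mem b hb) fun b' hb' hk => ?_, fun b hb => ?_,
    fun b hb => ?_⟩
  · rw [← hk]
    refine Cx.ch_mono ?_ _ (h'.mem b' hb'.1)
    intro c hc
    refine ⟨hc.1, ?_⟩
    have h1 := dist_triangle (X.pos c) (f' (X.pos b')) (f' (f (X.pos b)))
    have h2 := hc.2
    have h3 := hs b hb b' hb'.1 hb'.2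
    linarith
  · rw [LinearMap.comp_apply, LinearMap.comp_apply, (h'.map_ch (hN b hb)).2.1, h.comm b hb]
  · rw [LinearMap.comp_apply, (h'.map_ch (hN b hb)).2.2, h.aug b hb]

end Pool.Agent.Lib.MP_399f8e_an.Lk
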