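import Pool.Agent.Lib.MP_399f8e_an.Lk.TCx1
import Pool.Agent.Lib.MP_399f8e_an.Lk.TCube2
import Pool.Agent.Lib.MP_399f8e_an.Lk.TCube4
import Pool.Agent.Lib.MP_399f8e_an.Lk.TMach

open Set Filter Topology Metric

noncomputable section

namespace Pool.Agent.Lib.MP_399f8e_an.Lk

variable {X : Type} [MetricSpace X] {ι : P3 → X} {θ : X → Ci} {θ₀ : X → ℝ} {M M' : Set X}
  {B c ω : ℝ}

namespace TCx3Aux

/-- a linear map sending the cells of `S` into `p` sends chains carried by `S` into `p` -/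
theorem map_mem {β N : Type} [AddCommGroup N] [Module ℂ N] {S : Set β} (L : Ch β →ₗ[ℂ] N)
    (p : Submodule ℂ N) (h : ∀ b ∈ S, L (sg b) ∈ p) {z : Ch β}
    (hz : z ∈ Finsupp.supported ℂ ℂ S) : L z ∈ p := by
  rw [Finsupp.supported_eq_span_single] at hz
  have : Submodule.span ℂ ((fun i => Finsupp.single i (1 : ℂ)) '' S) ≤ p.comap L := by
    rw [Submodule.span_le]
    rintro _ ⟨b, hb, rfl⟩
    exact h b hb
  exact this hz

theorem sg_mem {β : Type} {S : Set β} {b : β} (hb : b ∈ S) : sg b ∈ Finsupp.supported ℂ ℂ S :=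
  Finsupp.single_mem_supported ℂ 1 hb

theorem pl_mem (l : ℂ) {S : Set (Cell × ℤ)} {T : Set Cell} (h : ∀ b ∈ S, b.1 ∈ T)
    {w : Ch (Cell × ℤ)} (hw : w ∈ Finsupp.supported ℂ ℂ S) :
    pl l w ∈ Finsupp.supported ℂ ℂ T := by
  refine map_mem (pl l) _ (fun b hb => ?_) hw
  rw [pl_sg]
  exact Submodule.smul_mem _ _ (sg_mem (h b hb))

theorem card_le (I : Finset (Fin 3)) : (I.card : ℝ) ≤ 3 := by
  have := Finset.card_le_univ I
  simp only [Fintype.card_fin] at this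
  exact_mod_cast this

theorem aug0_two {p : Ch Cell} (hp : ∀ Q ∈ p.support, Q.2.card = 2) : aug0 p = 0 := by
  have h1 : p ∈ Finsupp.supported ℂ ℂ {Q : Cell | Q.2.card = 2} := by
    rw [Finsupp.mem_supported]
    intro Q hQ
    exact hp Q hQ
  have := map_mem aug0 ⊥ (fun Q hQ => ?_) h1
  · simpa using this
  · have hQ' : Q.2.card = 2 := hQ
    have hne : ¬ Q.2.card = 0 := by omega
    simp only [aug0, sg, Finsupp.linearCombination_single, hne, if_false, smul_zero,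
      Submodule.zero_mem]

theorem exists_box (s : Finset Cell) : ∃ lo hi : Z3, ∀ Q ∈ s, InBox lo hi Q := by
  classical
  induction s using Finset.induction_on with
  | empty => exact ⟨0, 0, by simp⟩
  | insert Q s _ ih =>
    obtain ⟨lo, hi, h⟩ := ih
    refine ⟨fun i => min (lo i) (Q.1 i), fun i => max (hi i) (Q.1 i + 1), ?_⟩
    intro Q' hQ' i
    rcases Finset.mem_insert.1 hQ' with rfl | hQ'
    · refine ⟨min_le_right _ _, le_trans ?_ (le_max_right _ _)⟩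
      split_ifs <;> omega
    · exact ⟨le_trans (min_le_left _ _) (h Q' hQ' i).1,
        le_trans (h Q' hQ' i).2 (le_max_left _ _)⟩

omit [MetricSpace X] in
theorem cx_bd : (cx ι θ₀ M B c).bd =
    bdT fun n i => round (θ₀ (ι (lat c n)) - θ₀ (ι (lat c (n + ee i)))) := by
  simp only [cx]

omit [MetricSpace X] in
theorem aug_deck (w : Ch (Cell × ℤ)) :
    (cx ι θ₀ M B c).aug (deck w) = (cx ι θ₀ M B c).aug w := by
  have : (cx ι θ₀ M B c).aug ∘ₗ deck = (cx ι θ₀ M B c).aug := by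
    apply Finsupp.lhom_ext'
    intro b
    apply LinearMap.ext_ring
    change (cx ι θ₀ M B c).aug (deck (sg b)) = (cx ι θ₀ M B c).aug (sg b)
    rw [deck_sg]
    simp only [Cx.aug, sg, Finsupp.linearCombination_single, one_smul]
    rfl
  exact LinearMap.congr_fun this w

theorem cancel {sh : Z3 → Fin 3 → ℤ} {l : ℂ} {z w' : Ch (Cell × ℤ)}
    (h : bdT sh (deck w' - l • w') = deck z - l • z) : bdT sh w' = z := by
  rw [map_sub, map_smul, deck_bd] at h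
  have h2 : deck (z - bdT sh w') - l • (z - bdT sh w') = 0 := by
    rw [map_sub, smul_sub]
    have e : deck z - deck (bdT sh w') - (l • z - l • bdT sh w') =
        (deck z - l • z) - (deck (bdT sh w') - l • bdT sh w') := by abel
    rw [e, h, sub_self]
  exact (sub_eq_zero.1 (deck_inj h2)).symm

end TCx3Aux

open TCx3Aux

/-- The sheets between `0` and `k` are in use (`θ₀ ∈ [0, 1)`, `3 ≤ B`). -/
theorem CxData.convex (h : CxData ι θ θ₀ M M' B) (d : ℕ) :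
    ∀ Q k, (Q, k) ∈ {b | b ∈ (cx ι θ₀ M B c).N ∧ (cx ι θ₀ M B c).dim b = d} →
      ∀ j ∈ uIcc (0 : ℤ) k, (Q, j) ∈ {b | b ∈ (cx ι θ₀ M B c).N ∧ (cx ι θ₀ M B c).dim b = d} := by
  rintro Q k ⟨⟨h1, h2⟩, h3⟩ j hj
  refine ⟨⟨h1, ?_⟩, h3⟩
  change |θ₀ (ι (lat c Q.1)) + (k : ℝ)| ≤ B - (Q.2.card : ℝ) / 2 at h2
  change |θ₀ (ι (lat c Q.1)) + (j : ℝ)| ≤ B - (Q.2.card : ℝ) / 2
  have h4 := h.rep0 (ι (lat c Q.1))
  have h5 := h.big
  have h6 := card_le Q.2
  rw [abs_le] at h2 ⊢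
  rcases Set.mem_uIcc.1 hj with ⟨ha, hb⟩ | ⟨ha, hb⟩
  · have ha' : (0 : ℝ) ≤ j := by exact_mod_cast ha
    have hb' : (j : ℝ) ≤ k := by exact_mod_cast hb
    constructor <;> linarith [h4.1, h4.2, h2.1, h2.2]
  · have ha' : (k : ℝ) ≤ j := by exact_mod_cast ha
    have hb' : (j : ℝ) ≤ 0 := by exact_mod_cast hb
    constructor <;> linarith [h4.1, h4.2, h2.1, h2.2]

theorem cx_h3 : ∀ z ∈ (cx ι θ₀ M B c).ch (cx ι θ₀ M B c).N 3, (cx ι θ₀ M B c).bd z = 0 → z = 0 := by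
  intro z hz h0
  rw [cx_bd] at h0
  refine top_inj (fun b hb => ?_) h0
  exact ((Finsupp.mem_supported ℂ z).1 hz hb).2

/-- `pl l` kills `bd w`; `divide` gives `w = liftG 0 u + (deck - l) w'` with `u = pl l w`, so `top_pl`
gives `u = 0`, and `deck_inj` applies to `z - bd w'`. -/
theorem CxData.h2 (h : CxData ι θ θ₀ M M' B) : ∀ l : ℂ, l ≠ 0 →
    ∀ z ∈ (cx ι θ₀ M B c).ch (cx ι θ₀ M B c).N 2,
      (∃ w ∈ (cx ι θ₀ M B c).ch (cx ι θ₀ M B c).N 3, (cx ι θ₀ M B c).bd w = deck z - l • z) →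
        ∃ w ∈ (cx ι θ₀ M B c).ch (cx ι θ₀ M B c).N 3, (cx ι θ₀ M B c).bd w = z := by
  rintro l hl z - ⟨w, hw, hbd⟩
  obtain ⟨w', hw', he⟩ := divide hl (h.convex (c := c) 3) hw
  refine ⟨w', hw', ?_⟩
  rw [cx_bd] at hbd ⊢
  generalize (fun (n : Z3) (i : Fin 3) =>
    round (θ₀ (ι (lat c n)) - θ₀ (ι (lat c (n + ee i))))) = sh at hbd ⊢
  have hu : pl l w ∈ Finsupp.supported ℂ ℂ {Q : Cell | Q.2.card = 3} :=
    pl_mem l (fun b hb => hb.2) hw
  have h1 : pl l (bdT sh w) = 0 := by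
    rw [hbd, map_sub, map_smul, pl_deck hl, sub_self]
  have h2 : pl l (bdT sh (deck w' - l • w')) = 0 := by
    rw [map_sub, map_smul, deck_bd, map_sub, map_smul, pl_deck hl, sub_self]
  have h3 : pl l (bdT sh (liftG 0 (pl l w))) = 0 := by
    rw [← he, map_sub, map_sub, h1, zero_sub, neg_eq_zero] at h2
    exact h2
  have h4 : pl l w = 0 :=
    top_pl hl (fun Q hQ => (Finsupp.mem_supported ℂ _).1 hu hQ) h3
  rw [h4, map_zero, sub_zero] at he
  apply cancel (l := l)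
  rw [← he, hbd]

/-- `pl 1 w` is a two-cycle of the lattice; fill it by `u` in a large box. By `winding` for
`U = {x | ι (c • x) ∉ M}` (open, preconnected, unbounded) the cubes of `u` lie in `M`, so
`u' = liftG 0 u` is a chain of `N`; `pl 1 (w - bd u') = 0`, `divide`, `bd bd u' = 0`, `deck_inj`. -/
theorem CxData.h1 (h : CxData ι θ θ₀ M M' B) (hc : 0 < c) (hok : (cx ι θ₀ M B c).Ok ω)
    (hU : IsPreconnected (ι ⁻¹' Mᶜ)) :
    ∀ z ∈ (cx ι θ₀ M B c).ch (cx ι θ₀ M B c).N 1,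
      (∃ w ∈ (cx ι θ₀ M B c).ch (cx ι θ₀ M B c).N 2, (cx ι θ₀ M B c).bd w = deck z - z) →
        ∃ w ∈ (cx ι θ₀ M B c).ch (cx ι θ₀ M B c).N 2, (cx ι θ₀ M B c).bd w = z := by
  rintro z - ⟨w, hw, hbd⟩
  obtain ⟨sh, hbdT⟩ : ∃ sh : Z3 → Fin 3 → ℤ, (cx ι θ₀ M B c).bd = bdT sh := ⟨_, cx_bd⟩
  have hp : pl 1 w ∈ Finsupp.supported ℂ ℂ
      {Q : Cell | (∀ x ∈ body Q, ι (c • x) ∈ M) ∧ Q.2.card = 2} :=
    pl_mem 1 (fun b hb => And.intro hb.1.1 hb.2) hw
  have hp' := (Finsupp.mem_supported ℂ _).1 hp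
  have hp0 : bd0 (pl 1 w) = 0 := by
    rw [← pl_one_bd (sh := sh), ← hbdT, hbd, map_sub, pl_deck one_ne_zero, one_smul, sub_self]
  obtain ⟨lo, hi, hbox⟩ := exists_box (pl 1 w).support
  have hpb : pl 1 w ∈ Finsupp.supported ℂ ℂ {Q : Cell | InBox lo hi Q ∧ Q.2.card = 2} := by
    rw [Finsupp.mem_supported]
    intro Q hQ
    exact ⟨hbox Q hQ, (hp' hQ).2⟩
  obtain ⟨u, hu, hbu⟩ := box_fill lo hi 2 (pl 1 w) hpb hp0
    (aug0_two fun Q hQ => (hp' hQ).2)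
  have hu' := (Finsupp.mem_supported ℂ _).1 hu
  -- the outside region
  set U : Set P3 := (fun x : P3 => c • x) ⁻¹' (ι ⁻¹' Mᶜ) with hUdef
  have hsm : Continuous fun x : P3 => c • x := continuous_const_smul c
  have hUo : IsOpen U :=
    (h.cM.isClosed.isOpen_compl.preimage h.emb.continuous).preimage hsm
  have hUe : U = (fun x : P3 => c⁻¹ • x) '' (ι ⁻¹' Mᶜ) := by
    ext x
    constructor
    · intro hx
      exact ⟨c • x, hx, by simp [smul_smul, inv_mul_cancel₀ hc.ne']⟩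
    · rintro ⟨y, hy, rfl⟩
      change ι (c • c⁻¹ • y) ∈ Mᶜ
      rw [smul_smul, mul_inv_cancel₀ hc.ne', one_smul]
      exact hy
  have hUc : IsPreconnected U := by
    rw [hUe]
    exact hU.image _ (continuous_const_smul c⁻¹).continuousOn
  have hUb : ¬ Bornology.IsBounded U := by
    intro hb
    have h1 : Bornology.IsBounded ((fun x : P3 => c⁻¹ • x) '' (ι ⁻¹' M)) :=
      (h.cpt.image (continuous_const_smul c⁻¹)).isBounded
    have h2 : Bornology.IsBounded (univ : Set P3) := by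
      refine (hb.union h1).subset fun x _ => ?_
      by_cases hx : ι (c • x) ∈ M
      · exact Or.inr ⟨c • x, hx, by simp [smul_smul, inv_mul_cancel₀ hc.ne']⟩
      · exact Or.inl hx
    exact NormedSpace.unbounded_univ ℝ P3 h2
  have hwind := winding (u := u) (fun Q hQ => (hu' hQ).2) hUo hUc hUb (by
    rw [hbu]
    intro Q hQ
    rw [Set.disjoint_left]
    intro x hx hxU
    exact hxU ((hp' hQ).1 x hx))
  have hu3 : liftG 0 u ∈ (cx ι θ₀ M B c).ch (cx ι θ₀ M B c).N 3 := by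
    refine map_mem (S := (u.support : Set Cell)) (liftG 0) _ (fun Q hQ => ?_)
      ((Finsupp.mem_supported ℂ _).2 subset_rfl)
    rw [liftG_sg]
    refine sg_mem ⟨⟨fun x hx => ?_, ?_⟩, (hu' hQ).2⟩
    · by_contra hxM
      exact Set.disjoint_left.1 (hwind Q hQ) hx hxM
    · change |θ₀ (ι (lat c Q.1)) + (((0 : Z3 → ℤ) Q.1 : ℤ) : ℝ)| ≤ B - (Q.2.card : ℝ) / 2
      have h4 := h.rep0 (ι (lat c Q.1))
      have h5 := h.big
      have h6 := card_le Q.2
      simp only [Pi.zero_apply, Int.cast_zero, add_zero]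
      rw [abs_le]
      constructor <;> linarith [h4.1, h4.2]
  have hb2 : (cx ι θ₀ M B c).bd (liftG 0 u) ∈ (cx ι θ₀ M B c).ch (cx ι θ₀ M B c).N 2 :=
    hok.bd_ch hok.sub_N hu3
  have hbb : (cx ι θ₀ M B c).bd ((cx ι θ₀ M B c).bd (liftG 0 u)) = 0 := (hok.bd_bd hu3).1
  obtain ⟨w', hw', he⟩ := divide (l := 1) one_ne_zero (h.convex (c := c) 2)
    (Submodule.sub_mem _ hw hb2)
  refine ⟨w', hw', ?_⟩
  have h0 : pl 1 (w - (cx ι θ₀ M B c).bd (liftG 0 u)) = 0 := by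
    rw [map_sub, hbdT, pl_one_bd, pl_liftG_zero, hbu, sub_self]
  rw [h0, map_zero, sub_zero] at he
  rw [hbdT]
  apply cancel (l := 1)
  rw [← he, ← hbdT, map_sub, hbb, sub_zero, hbd, one_smul]

/-- Moving one sheet up is an isometry, commutes with the boundary and keeps the augmentation. -/
theorem cx_deck {A : Set (Cell × ℤ)} {f : X × ℝ → X × ℝ} {r : ℝ}
    {φ : Ch (Cell × ℤ) →ₗ[ℂ] Ch (Cell × ℤ)} (hφ : (cx ι θ₀ M B c).Ctrl A f r φ)
    (hb : ∀ b ∈ A, |(f ((cx ι θ₀ M B c).pos b)).2| + r ≤ B - 3) :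
    (cx ι θ₀ M B c).Ctrl A (fun y => up 1 (f y)) r (deck ∘ₗ φ) := by
  refine ⟨fun b hbA => ?_, fun b hbA => ?_, fun b hbA => ?_⟩
  · refine map_mem deck _ (fun b' hb' => ?_) (hφ.mem b hbA)
    rw [deck_sg]
    obtain ⟨⟨⟨h1, _⟩, h3⟩, h4⟩ := hb'
    have h5 := hb b hbA
    set y := f ((cx ι θ₀ M B c).pos b) with hy
    change dist (ι (lat c b'.1.1), θ₀ (ι (lat c b'.1.1)) + (b'.2 : ℝ)) y ≤ r at h3
    rw [Prod.dist_eq, max_le_iff] at h3
    obtain ⟨h6, h7⟩ := h3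
    rw [Real.dist_eq] at h7
    refine sg_mem ⟨⟨⟨h1, ?_⟩, ?_⟩, h4⟩
    · change |θ₀ (ι (lat c b'.1.1)) + ((b'.2 + 1 : ℤ) : ℝ)| ≤ B - (b'.1.2.card : ℝ) / 2
      have h8 := card_le b'.1.2
      have h9 := le_abs_self y.2
      have h10 := neg_abs_le y.2
      push_cast
      rw [abs_le] at h7 ⊢
      simp only at h7
      constructor <;> linarith [h7.1, h7.2]
    · change dist (ι (lat c b'.1.1), θ₀ (ι (lat c b'.1.1)) + ((b'.2 + 1 : ℤ) : ℝ))
        (y.1, y.2 + ((1 : ℤ) : ℝ)) ≤ r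
      rw [Prod.dist_eq, max_le_iff]
      refine ⟨h6, ?_⟩
      rw [Real.dist_eq]
      simp only at h7 ⊢
      push_cast
      convert h7 using 2
      ring
  · rw [LinearMap.comp_apply, LinearMap.comp_apply, ← hφ.comm b hbA, cx_bd, deck_bd]
  · rw [LinearMap.comp_apply, aug_deck, hφ.aug b hbA]

end Pool.Agent.Lib.MP_399f8e_an.Lk
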