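import Pool.Agent.Lib.MP_399f8e_an.Lk.TMapR

open Set Filter Topology Metric

noncomputable section

namespace Pool.Agent.Lib.MP_399f8e_an.Lk

variable {X : Type} [MetricSpace X] [CompactSpace X] {ψ : ℝ → X → X} {Ψ : Ci × (ℝ × ℝ) → X}
  {θ : X → Ci} {Δ : X → ℝ → ℝ} {g : ℝ → X → X} {N ρ : ℕ}

namespace TMap2Aux

theorem not_core {a : ℝ} (ha0 : 0 < a) {x : X} (hx : x ∈ (otube Ψ a)ᶜ) : x ∉ tube Ψ 0 :=
  fun h => hx (tube_sub_otube ha0 h)

theorem slice (h : TopData ψ Ψ θ Δ g N ρ) {x : X} (hx : x ∉ tube Ψ 0) : Continuous (Δ x) := by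
  rw [← continuousOn_univ]
  exact h.Δc.comp (f := fun t : ℝ => (x, t)) (by fun_prop) (fun t _ => ⟨hx, trivial⟩)

theorem at_time (h : TopData ψ Ψ θ Δ g N ρ) (t : ℝ) :
    ContinuousOn (fun x => Δ x t) (tube Ψ 0)ᶜ :=
  h.Δc.comp (f := fun x : X => (x, t)) (by fun_prop) (fun _ hx => ⟨hx, trivial⟩)

theorem int_cont (h : TopData ψ Ψ θ Δ g N ρ) :
    ContinuousOn (fun x => ∫ s in (0 : ℝ)..1, Δ x s) (tube Ψ 0)ᶜ := by
  rw [continuousOn_iff_continuous_restrict]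
  refine intervalIntegral.continuous_parametric_intervalIntegral_of_continuous'
    (f := fun (x : ((tube Ψ 0)ᶜ : Set X)) (s : ℝ) => Δ x s) ?_ 0 1
  rw [← continuousOn_univ]
  exact h.Δc.comp (f := fun p : ((tube Ψ 0)ᶜ : Set X) × ℝ => ((p.1 : X), p.2)) (by fun_prop)
    (fun p _ => ⟨p.1.2, trivial⟩)

theorem lev_eq (h : TopData ψ Ψ θ Δ g N ρ) {y : X × ℝ} (hy : y.1 ∉ tube Ψ 0) (t : ℝ) :
    lev Δ (lfl ψ Δ t y) =
      y.2 + ((∫ s in (0 : ℝ)..(t + 1), Δ y.1 s) - ∫ s in (0 : ℝ)..t, Δ y.1 s) := by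
  have hc := slice h hy
  have h1 : ∀ s, Δ (ψ t y.1) s = Δ y.1 (t + s) - Δ y.1 t := by
    intro s
    rw [h.Δadd y.1 hy t s]; ring
  have h2 : IntervalIntegrable (fun s => Δ y.1 (t + s)) MeasureTheory.volume 0 1 :=
    (hc.comp (by fun_prop)).intervalIntegrable _ _
  rw [intervalIntegral.integral_interval_sub_left (hc.intervalIntegrable _ _)
    (hc.intervalIntegrable _ _)]
  simp only [lev, lfl, h1]
  rw [intervalIntegral.integral_sub h2 (by simp), intervalIntegral.integral_comp_add_left]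
  simp only [intervalIntegral.integral_const, sub_zero, one_smul, add_zero]
  ring

theorem lev_deriv (h : TopData ψ Ψ θ Δ g N ρ) {y : X × ℝ} (hy : y.1 ∉ tube Ψ 0) (t : ℝ) :
    HasDerivAt (fun t => lev Δ (lfl ψ Δ t y)) (Δ (ψ t y.1) 1) t := by
  have hc := slice h hy
  have h1 := (hc.integral_hasStrictDerivAt 0 (t + 1)).hasDerivAt.comp_add_const t 1
  have h2 := (hc.integral_hasStrictDerivAt 0 t).hasDerivAt
  have h3 := (h1.sub h2).const_add y.2
  rw [h.Δadd y.1 hy t 1, add_sub_cancel_left] at h3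
  simp only [lev_eq h hy]
  exact h3

end TMap2Aux

open TMap2Aux

/-- `lev (lfl t y) = y.2 + ∫ s in t..t+1, Δ y.1 s` by `Δadd`; its derivative in `t` is
`Δ x (t + 1) - Δ x t = Δ (ψ t x) 1 ≥ m > 0` on the compact invariant set (otube Ψ a)ᶜ`. So it is a
strictly increasing surjection; the zero `tm y` is continuous because `lev (lfl t y)` is jointly
continuous and changes sign at `tm y ± ε`. -/
theorem TopData.exists_tm (h : TopData ψ Ψ θ Δ g N ρ) {a : ℝ} (ha0 : 0 < a) (ha : a ≤ 4) :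
    ∃ tm, IsTm ψ Δ (otube Ψ a)ᶜ tm := by
  have hM : IsCompact (otube Ψ a)ᶜ := (h.otube_open ha).isClosed_compl.isCompact
  have hsub : (otube Ψ a)ᶜ ⊆ (tube Ψ 0)ᶜ := fun x hx => not_core ha0 hx
  have hinv : ∀ t, ∀ x ∈ (otube Ψ a)ᶜ, ψ t x ∈ (otube Ψ a)ᶜ :=
    fun t x hx h' => hx ((h.inv_otube ha t x).1 h')
  obtain ⟨m, hm0, hm⟩ := hM.exists_forall_le' ((at_time h 1).mono hsub)
    (fun x hx => h.pos x (hsub hx))
  have hgrow : ∀ y : X × ℝ, y.1 ∈ (otube Ψ a)ᶜ → ∀ s t, s ≤ t →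
      m * (t - s) ≤ lev Δ (lfl ψ Δ t y) - lev Δ (lfl ψ Δ s y) := by
    intro y hy s t hst
    refine mul_sub_le_image_sub_of_le_deriv (f := fun t => lev Δ (lfl ψ Δ t y))
      (fun t => (lev_deriv h (hsub hy) t).differentiableAt) (fun t => ?_) hst
    rw [(lev_deriv h (hsub hy) t).deriv]
    exact hm _ (hinv t _ hy)
  have hmono : ∀ y : X × ℝ, y.1 ∈ (otube Ψ a)ᶜ → StrictMono fun t => lev Δ (lfl ψ Δ t y) := by
    intro y hy s t hst
    have h1 := hgrow y hy s t hst.le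
    have h2 := mul_pos hm0 (sub_pos.2 hst)
    simp only
    linarith
  have hex : ∀ y : X × ℝ, ∃ t, y.1 ∈ (otube Ψ a)ᶜ → lev Δ (lfl ψ Δ t y) = 0 := by
    intro y
    by_cases hy : y.1 ∈ (otube Ψ a)ᶜ
    · set T := |lev Δ (lfl ψ Δ 0 y)| / m with hT
      have hT0 : 0 ≤ T := by positivity
      have hmT : m * T = |lev Δ (lfl ψ Δ 0 y)| := by rw [hT]; field_simp
      have h1 := hgrow y hy 0 T hT0
      have h2 := hgrow y hy (-T) 0 (by linarith)
      have h3 := le_abs_self (lev Δ (lfl ψ Δ 0 y))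
      have h4 := neg_abs_le (lev Δ (lfl ψ Δ 0 y))
      have hc : Continuous fun t => lev Δ (lfl ψ Δ t y) :=
        continuous_iff_continuousAt.2 (fun t => (lev_deriv h (hsub hy) t).continuousAt)
      obtain ⟨t, -, ht⟩ := intermediate_value_Icc (show -T ≤ T by linarith) hc.continuousOn
        (show (0 : ℝ) ∈ Icc (lev Δ (lfl ψ Δ (-T) y)) (lev Δ (lfl ψ Δ T y)) from
          ⟨by nlinarith, by nlinarith⟩)
      exact ⟨t, fun _ => ht⟩
    · exact ⟨0, fun h' => absurd h' hy⟩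
  choose tm htm using hex
  have hlev : ContinuousOn (lev Δ) ((otube Ψ a)ᶜ ×ˢ univ) :=
    continuousOn_snd.add ((int_cont h).comp continuousOn_fst (fun y hy => hsub hy.1))
  have hlfl : ∀ t, ContinuousOn (fun y : X × ℝ => lev Δ (lfl ψ Δ t y)) ((otube Ψ a)ᶜ ×ˢ univ) := by
    intro t
    refine hlev.comp (f := lfl ψ Δ t) ?_ (fun y hy => ⟨hinv t _ hy.1, trivial⟩)
    refine ContinuousOn.prodMk ?_ (continuousOn_snd.add
      ((at_time h t).comp continuousOn_fst (fun y hy => hsub hy.1)))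
    exact (h.cont.comp (f := fun y : X × ℝ => (t, y.1)) (by fun_prop)).continuousOn
  refine ⟨tm, fun y hy => ?_, fun y hy => htm y hy, fun y hy t ht => ?_, hmono, hlev⟩
  · have h1 : Tendsto (fun y' : X × ℝ => |lev Δ (lfl ψ Δ (tm y) y')| / m)
        (𝓝[(otube Ψ a)ᶜ ×ˢ univ] y) (𝓝 0) := by
      have h2 := ((hlfl (tm y) y hy).tendsto.abs).div_const m
      simpa only [htm y hy.1, abs_zero, zero_div] using h2
    rw [ContinuousWithinAt, tendsto_iff_dist_tendsto_zero]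
    refine squeeze_zero' (Eventually.of_forall fun _ => dist_nonneg) ?_ h1
    filter_upwards [self_mem_nhdsWithin] with y' hy'
    rw [le_div_iff₀ hm0, Real.dist_eq]
    have h0 := htm y' hy'.1
    rcases le_total (tm y) (tm y') with h3 | h3
    · have h4 := hgrow y' hy'.1 _ _ h3
      have h5 := neg_abs_le (lev Δ (lfl ψ Δ (tm y) y'))
      rw [abs_of_nonneg (sub_nonneg.2 h3)]
      linarith
    · have h4 := hgrow y' hy'.1 _ _ h3
      have h5 := le_abs_self (lev Δ (lfl ψ Δ (tm y) y'))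
      rw [abs_of_nonpos (sub_nonpos.2 h3)]
      linarith
  · exact (hmono y hy).injective (ht.trans (htm y hy).symm)

theorem TopData.exists_setup (h : TopData ψ Ψ θ Δ g N ρ) :
    ∃ R tm a e₁ B₀, Setup ψ Ψ θ Δ g N ρ R tm a e₁ B₀ := by
  obtain ⟨R, hR⟩ := h.exists_R
  obtain ⟨a, e₁, ha1, ha2, he0, he1, hs⟩ := h.exists_small hR
  obtain ⟨tm, htm⟩ := h.exists_tm (a := a) (by linarith) (by linarith)
  have hM : IsCompact (otube Ψ a)ᶜ := (h.otube_open (by linarith)).isClosed_compl.isCompact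
  obtain ⟨B, hB⟩ := hM.exists_bound_of_continuousOn
    ((int_cont h).mono (fun x hx => not_core (by linarith) hx))
  exact ⟨R, tm, a, e₁, B, h, ha1, ha2, he0, he1, hR, htm, hs, fun x hx => hB x hx⟩

end Pool.Agent.Lib.MP_399f8e_an.Lk
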