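import Pool.Agent.Lib.MP_399f8e_an.Lk.TMap3

open Set Filter Topology Metric

noncomputable section

namespace Pool.Agent.Lib.MP_399f8e_an.Lk

variable {X : Type} [MetricSpace X] [CompactSpace X] {ψ : ℝ → X → X} {Ψ : Ci × (ℝ × ℝ) → X}
  {θ : X → Ci} {Δ : X → ℝ → ℝ} {g : ℝ → X → X} {N ρ : ℕ}
  {R : X → X} {tm : X × ℝ → ℝ} {a e₁ B₀ : ℝ}

/-- `rad w' = w' - (e, 0)` with `w' = w + (e, 0)`, `‖w‖ ≥ 2`: the factor is not one, so
(max 1 (2 / ‖w'‖) - 1) • w' = (-e, 0)`, `w'` is on the negative first axis and `‖w‖ = 2`. -/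
theorem rad_fix {w : ℝ × ℝ} {e : ℝ} (he : 0 < e) (he' : e ≤ 1 / 2) (hw : 2 ≤ ‖w‖)
    (h : rad (w + (e, 0)) = w) : w = (-2, 0) := by
  obtain ⟨u, v⟩ := w
  simp only [rad, Prod.mk_add_mk, add_zero, Prod.smul_mk, smul_eq_mul, Prod.mk.injEq] at h
  obtain ⟨h1, h2⟩ := h
  rcases le_or_gt (2 / ‖(u + e, v)‖) 1 with k | k
  · rw [max_eq_left k] at h1
    linarith
  rw [max_eq_right k.le] at h1 h2
  have hv : v = 0 := by
    have : (2 / ‖(u + e, v)‖ - 1) * v = 0 := by linarith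
    exact (mul_eq_zero.1 this).resolve_left (by linarith)
  subst hv
  have hu : u + e < 0 := by
    by_contra hn
    nlinarith [mul_nonneg (sub_pos.2 k).le (not_lt.1 hn)]
  have e1 : ‖(u + e, (0 : ℝ))‖ = -(u + e) := by
    rw [Prod.norm_mk, norm_zero, max_eq_left (norm_nonneg _), Real.norm_eq_abs, abs_of_neg hu]
  rw [e1, div_neg, neg_mul, div_mul_cancel₀ _ hu.ne] at h1
  rw [← h1]

namespace TPush1Aux

theorem norm_rad {w : ℝ × ℝ} (hw : ‖w‖ < 4) : ‖rad w‖ < 4 := by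
  rw [rad, norm_smul, Real.norm_of_nonneg (zero_le_one.trans (le_max_left _ _)),
    max_mul_of_nonneg _ _ (norm_nonneg _), one_mul]
  refine max_lt hw ?_
  rcases eq_or_ne ‖w‖ 0 with k | k
  · rw [k]
    norm_num
  · rw [div_mul_cancel₀ _ k]
    norm_num

theorem n2 : ‖((-2 : ℝ), (0 : ℝ))‖ = 2 := by simp [Prod.norm_mk]

theorem coe_int (j : ℤ) : (((j : ℝ)) : Ci) = 0 :=
  (AddCircle.coe_eq_zero_iff _).2 ⟨j, by simp⟩

theorem off0 {x : X} {r : ℝ} (hr : 0 < r) (hx : x ∉ otube Ψ r) : x ∉ tube Ψ 0 :=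
  fun k => hx (tube_sub_otube hr k)

theorem orbit (h : Setup ψ Ψ θ Δ g N ρ R tm a e₁ B₀) :
    ∃ F : Finset (X × ℝ), F.card ≤ ρ ∧
      ∀ y, y ∈ F ↔ y ∈ page Ψ θ Δ ∧ ∃ s, y.1 = Ψ (s, (-2, 0)) := by
  classical
  have T := h.toTopData
  have n4 : ‖((-2 : ℝ), (0 : ℝ))‖ < 4 := by
    rw [n2]
    norm_num
  obtain ⟨x₀, hx⟩ : ∃ x₀, x₀ = Ψ (0, (-2, 0)) := ⟨_, rfl⟩
  have o2 : x₀ ∉ otube Ψ 2 := by
    rw [hx, T.mem_otube (by norm_num) n4, n2]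
    exact lt_irrefl _
  have oa : x₀ ∉ otube Ψ a := fun k => o2 (otube_mono h.a2.le k)
  have o0 : x₀ ∉ tube Ψ 0 := off0 two_pos o2
  have fl : ∀ t : ℝ, ψ t x₀ = Ψ ((t : Ci), (-2, 0)) := fun t => by
    rw [hx, T.par _ _ _ n4, zero_add]
  have per : ∀ j : ℤ, ψ j x₀ = x₀ := fun j => by rw [fl, coe_int, hx]
  obtain ⟨q, hq⟩ : ∃ q : ℤ, (q : ℝ) = Δ x₀ 1 := by
    have k := T.Δθ x₀ o0 1
    have k1 := per 1
    rw [Int.cast_one] at k1
    rw [k1] at k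
    obtain ⟨n, hn⟩ := (AddCircle.coe_eq_zero_iff _).1 (left_eq_add.1 k)
    exact ⟨n, by simpa using hn⟩
  have q0 : 0 < q := by
    have := T.pos x₀ o0
    rw [← hq] at this
    exact_mod_cast this
  have qρ : q ≤ ρ := by
    have := T.lon
    rw [← hx, ← hq] at this
    exact_mod_cast this
  have st : ∀ j : ℤ, Δ x₀ (j + 1) = Δ x₀ j + q := fun j => by rw [T.Δadd x₀ o0, per, hq]
  have dj : ∀ j : ℤ, Δ x₀ j = j * q := fun j => by
    induction j using Int.induction_on with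
    | zero => simpa using T.Δ_zero o0
    | succ n ih =>
      have := st n
      push_cast at *
      linarith
    | pred n ih =>
      have := st (-n - 1)
      push_cast at *
      rw [sub_add_cancel] at this
      linarith
  obtain ⟨a₀, ha⟩ : ∃ a₀ : ℝ, (a₀ : Ci) = θ x₀ := ⟨_, lf_coe _⟩
  refine ⟨(Finset.range q.toNat).image fun k : ℕ => lfl ψ Δ (tm (x₀, a₀ + k)) (x₀, a₀ + k),
    Finset.card_image_le.trans (by rw [Finset.card_range]; omega), fun y => ⟨fun hy => ?_, ?_⟩⟩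
  · obtain ⟨k, -, rfl⟩ := Finset.mem_image.1 hy
    refine ⟨⟨fun k => o2 ((T.inv_otube (by norm_num) _ _).1 k), ?_, h.isTm.lev0 _ oa⟩, _, fl _⟩
    have := coe_int k
    rw [Int.cast_natCast] at this
    simp only [lfl, AddCircle.coe_add, T.Δθ x₀ o0, ha, this, add_zero]
  · rintro ⟨⟨-, y2, y3⟩, s, hs⟩
    obtain ⟨t, rfl⟩ : ∃ t : ℝ, (t : Ci) = s := ⟨_, lf_coe s⟩
    rw [← fl] at hs
    obtain ⟨k, hk⟩ : ∃ k : ℤ, (k : ℝ) = y.2 - Δ x₀ t - a₀ := by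
      obtain ⟨n, hn⟩ := (AddCircle.coe_eq_zero_iff (1 : ℝ) (x := y.2 - Δ x₀ t - a₀)).1 (by
        rw [AddCircle.coe_sub, AddCircle.coe_sub, y2, hs, T.Δθ x₀ o0, ha]
        abel)
      exact ⟨n, by simpa using hn⟩
    have r0 := Int.emod_nonneg k q0.ne'
    have r1 := Int.emod_lt_of_pos k q0
    have r2 : (((k % q).toNat : ℕ) : ℝ) + (k / q : ℤ) * q = k := by
      have := Int.emod_add_mul_ediv k q
      have k2 : (((k % q).toNat : ℕ) : ℤ) + k / q * q = k := by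
        rw [Int.toNat_of_nonneg r0]
        linarith
      exact_mod_cast k2
    have e : lfl ψ Δ ((k / q : ℤ) + t) (x₀, a₀ + (k % q).toNat) = y := by
      rw [← h.lfl_add o0]
      refine Prod.ext ?_ ?_
      · simp only [lfl, per, hs]
      · simp only [lfl, per, dj]
        linarith
    refine Finset.mem_image.2 ⟨(k % q).toNat, Finset.mem_range.2 (by omega), ?_⟩
    rw [← h.isTm.uniq (x₀, a₀ + (k % q).toNat) oa _ (e ▸ y3), e]

theorem time_cont (h : Setup ψ Ψ θ Δ g N ρ R tm a e₁ B₀) :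
    ContinuousOn (fun p : ℝ × (X × ℝ) => tm (up 0 (nl θ (fun x => R (g p.1 x)) p.2)))
      (Icc 0 e₁ ×ˢ ((otube Ψ a)ᶜ ×ˢ univ)) := by
  have a0 : 0 < a := one_pos.trans h.a1
  have c0 : Continuous fun p : ℝ × (X × ℝ) => g p.1 p.2.1 :=
    h.gc.comp (continuous_fst.prodMk continuous_snd.fst)
  have c1 : ContinuousOn (fun p : ℝ × (X × ℝ) => R (g p.1 p.2.1))
      (Icc 0 e₁ ×ˢ ((otube Ψ a)ᶜ ×ˢ univ)) :=
    h.isR.cont.comp c0.continuousOn fun p hp => (h.small _ hp.2.1 _ hp.1).1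
  have m1 : ∀ p ∈ (Icc 0 e₁ ×ˢ ((otube Ψ a)ᶜ ×ˢ univ) : Set (ℝ × (X × ℝ))),
      R (g p.1 p.2.1) ∉ otube Ψ 2 := fun p hp => h.isR.img _ (h.small _ hp.2.1 _ hp.1).1
  have c2 : ContinuousOn (fun p : ℝ × (X × ℝ) => θ (R (g p.1 p.2.1)) - θ p.2.1)
      (Icc 0 e₁ ×ˢ ((otube Ψ a)ᶜ ×ˢ univ)) :=
    (h.θc.comp c1 fun p hp => off0 two_pos (m1 p hp)).sub
      (h.θc.comp continuous_snd.fst.continuousOn fun p hp => off0 a0 hp.2.1)
  have c3 : ContinuousOn (fun p : ℝ × (X × ℝ) => lf (θ (R (g p.1 p.2.1)) - θ p.2.1))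
      (Icc 0 e₁ ×ˢ ((otube Ψ a)ᶜ ×ˢ univ)) := fun p hp =>
    ContinuousAt.comp_continuousWithinAt (g := lf)
      (continuousAt_lf ((h.small _ hp.2.1 _ hp.1).2.trans (by norm_num))) (c2 p hp)
  exact h.isTm.cont.comp (c1.prodMk ((continuous_snd.snd.continuousOn.add c3).add
    continuousOn_const)) fun p hp => ⟨fun k => m1 p hp (otube_mono h.a2.le k), trivial⟩

theorem time_small (h : Setup ψ Ψ θ Δ g N ρ R tm a e₁ B₀) {δ : ℝ} (hδ : 0 < δ) :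
    ∀ᶠ e in 𝓝 (0 : ℝ), e ∈ Icc 0 e₁ → ∀ y ∈ page Ψ θ Δ,
      |tm (up 0 (nl θ (fun x => R (g e x)) y))| < δ := by
  have T := h.toTopData
  have c2 : IsClosed (otube Ψ 2)ᶜ := (T.otube_open (by norm_num)).isClosed_compl
  have sub : ((otube Ψ 2)ᶜ ×ˢ Icc (-B₀) B₀ : Set (X × ℝ)) ⊆ (otube Ψ a)ᶜ ×ˢ univ :=
    fun y hy => ⟨fun k => hy.1 (otube_mono h.a2.le k), trivial⟩
  have hK : IsCompact (((otube Ψ 2)ᶜ ×ˢ Icc (-B₀) B₀ : Set (X × ℝ)) ∩ lev Δ ⁻¹' {0}) :=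
    (c2.isCompact.prod isCompact_Icc).of_isClosed_subset
      ((h.isTm.levc.mono sub).preimage_isClosed_of_isClosed (c2.prod isClosed_Icc)
        isClosed_singleton) inter_subset_left
  have := hK.eventually_forall_of_forall_eventually (x₀ := (0 : ℝ))
    (P := fun e y => (e, y) ∈ Icc 0 e₁ ×ˢ ((otube Ψ a)ᶜ ×ˢ univ) →
      |tm (up 0 (nl θ (fun x => R (g e x)) y))| < δ) fun y hy => by
      have k := time_cont h (0, y) ⟨⟨le_rfl, h.e0.le⟩, sub hy.1⟩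
      have z : tm (up 0 (nl θ (fun x => R (g 0 x)) y)) = 0 := by
        rw [h.nl_id hy.1.1]
        have u0 : up 0 y = y := by simp [up]
        rw [u0]
        refine (h.isTm.uniq y (sub hy.1).1 0 ?_).symm
        have : lfl ψ Δ 0 y = y := by simp [lfl, T.zero, T.Δ_zero (off0 two_pos hy.1.1)]
        rw [this]
        exact hy.2
      refine eventually_nhdsWithin_iff.1 (k.abs.eventually (gt_mem_nhds ?_))
      simpa only [z, abs_zero] using hδ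
  filter_upwards [this] with e he h1 y hy
  have k := h.page_sub hy
  have k1 : y ∈ ((otube Ψ 2)ᶜ ×ˢ Icc (-B₀) B₀ : Set (X × ℝ)) := ⟨k.1, abs_le.1 k.2.2⟩
  exact he y ⟨k1, hy.2.2⟩ ⟨h1, sub k1⟩

theorem push_out (T : TopData ψ Ψ θ Δ g N ρ) :
    ∀ᶠ e in 𝓝 (0 : ℝ), ∀ x ∈ (otube Ψ 3)ᶜ, g e x ∉ tube Ψ 2 :=
  (T.otube_open (by norm_num)).isClosed_compl.isCompact.eventually_forall_of_forall_eventually
    fun x hx => T.gc.continuousAt.eventually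
      ((T.tube_cpt (by norm_num)).isClosed.isOpen_compl.mem_nhds (by
        simp only [T.g0]
        exact fun k => hx (tube_sub_otube (by norm_num) k)))

end TPush1Aux

open TPush1Aux

/-- Put `x₀ = Ψ (0, (-2, 0))`, `a₀` a lift of `θ x₀`, `q = Δ x₀ 1`, a positive integer at most `ρ`,
and `F` the set of the points `lfl (tm y) y`, `y = (x₀, a₀ + k)`, `0 ≤ k < q`. Every point of the page
over the orbit of `x₀` is in `F`: it is `lfl t (x₀, a₀ + k)` for some `t` and some integer `k`, and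
`lfl 1 (x₀, b) = (x₀, b + q)`. Choice of `e`: `tm (up 0 (nl (R ∘ g e) y))` is continuous in (e, y)` on
`Icc 0 e₁ ×ˢ page` (the page is compact) and zero for `e = 0`, so at most `min t₀ (1/2)` in absolute
value for small `e`; also `g e` maps (otube Ψ 3)ᶜ` into (tube Ψ 2)ᶜ`. A fixed point `y` is on the page
and `ψ t (R (g e x)) = x`. Outside `otube Ψ 3` this contradicts `gfree`; inside, `x = Ψ (s, w)` with
`2 ≤ ‖w‖ < 3` and `rad (w + (e, 0)) = w`. -/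
theorem Setup.push_fix (h : Setup ψ Ψ θ Δ g N ρ R tm a e₁ B₀) :
    ∃ e ∈ Ioc 0 e₁, ∃ F : Finset (X × ℝ), F.card ≤ ρ ∧
      (∀ y : X × ℝ, y.1 ∉ otube Ψ a → (y.2 : Ci) = θ y.1 → FF ψ θ Δ g R tm 0 e y = y → y ∈ F) ∧
      ∀ y ∈ F, y ∈ page Ψ θ Δ ∧ ∃ s, y.1 = Ψ (s, (-2, 0)) := by
  have T := h.toTopData
  obtain ⟨F, hF, mF⟩ := orbit h
  obtain ⟨e₀, t₀, e0, t0, free⟩ := T.gfree
  obtain ⟨e, ⟨h1, h2⟩, h3⟩ := (((time_small h t0).and (push_out T)).filter_mono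
    (nhdsWithin_le_nhds (s := Ioi 0))).and (Ioc_mem_nhdsGT (lt_min h.e0 e0)) |>.exists
  have he : e ∈ Icc 0 e₁ := ⟨h3.1.le, h3.2.trans (min_le_left _ _)⟩
  refine ⟨e, ⟨h3.1, he.2⟩, F, hF, fun y y1 y2 hy => ?_, fun y hy => (mF y).1 hy⟩
  have hp : y ∈ page Ψ θ Δ := hy ▸ h.FF_page 0 he y1 y2
  have ht := h1 he y hp
  have e1 := congrArg Prod.fst hy
  change ψ (tm (up 0 (nl θ (fun x => R (g e x)) y))) (R (g e y.1)) = y.1 at e1
  generalize tm (up 0 (nl θ (fun x => R (g e x)) y)) = t at ht e1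
  refine (mF y).2 ⟨hp, ?_⟩
  by_cases h4 : y.1 ∈ otube Ψ 3
  · obtain ⟨⟨s, w⟩, ⟨-, hw⟩, hx⟩ := h4
    have w3 : ‖w‖ < 3 := mem_ball_zero_iff.1 hw
    have w2 : 2 ≤ ‖w‖ := not_lt.1 fun k =>
      hp.1 (hx ▸ (T.mem_otube (by norm_num) (by linarith)).2 k)
    have e2 : e ≤ 1 / 2 := he.2.trans h.e1
    have ne : ‖((e, 0) : ℝ × ℝ)‖ = e := by simp [Prod.norm_mk, abs_of_pos h3.1, h3.1.le]
    have w4 : ‖w + (e, 0)‖ < 4 := by linarith [norm_add_le w (e, 0)]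
    have w0 : w + (e, 0) ≠ 0 := fun k => by
      rw [eq_neg_of_add_eq_zero_left k, norm_neg, ne] at w2
      linarith
    rw [← hx, T.gpar s w e w3.le ⟨he.1, e2⟩, h.isR.inn _ _ w0 w4, T.par _ _ _ (norm_rad w4)] at e1
    have := T.Ψinj ⟨trivial, mem_ball_zero_iff.2 (norm_rad w4)⟩
      ⟨trivial, mem_ball_zero_iff.2 (show ‖w‖ < 4 by linarith)⟩ e1
    exact ⟨s, by rw [← hx, rad_fix h3.1 e2 w2 (congrArg Prod.snd this)]⟩
  · rw [h.isR.out _ fun k => h2 _ h4 (otube_sub_tube le_rfl k)] at e1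
    refine absurd ?_ (free e ⟨h3.1, h3.2.trans (min_le_right _ _)⟩ (-t)
      (by rw [abs_neg]; exact ht.le) y.1)
    conv_rhs => rw [← e1, ← T.add, neg_add_cancel, T.zero]

end Pool.Agent.Lib.MP_399f8e_an.Lk
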