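import Pool.Agent.Lib.MP_399f8e_an.Lk.TMap3

open Set Filter Topology Metric

noncomputable section

namespace Pool.Agent.Lib.MP_399f8e_an.Lk

variable {X : Type} [MetricSpace X] [CompactSpace X] {ψ : ℝ → X → X} {Ψ : Ci × (ℝ × ℝ) → X}
  {θ : X → Ci} {Δ : X → ℝ → ℝ} {g : ℝ → X → X} {N ρ : ℕ}
  {R : X → X} {tm : X × ℝ → ℝ} {a e₁ B₀ : ℝ}

namespace TPush2Aux

/-- the transversal through `y` -/
def sig (Ψ : Ci × (ℝ × ℝ) → X) (θ : X → Ci) (y : X × ℝ) (s : Ci) (w : ℝ × ℝ) : X × ℝ :=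
  (Ψ (s, w), y.2 + lf (θ (Ψ (s, w)) - θ y.1))

/-- affine coordinates -/
def aff (k₁ : ℝ) (u : P3) : ℝ × ℝ := (-2 - k₁ * u 0, k₁ * u 1)

theorem abs_le_of_mem {u : P3} {r : ℝ} (hu : u ∈ closedBall (0 : P3) r) (i : Fin 3) :
    |u i| ≤ r := by
  have h1 : ‖u‖ ≤ r := by simpa using hu
  exact (norm_le_pi_norm u i).trans h1

theorem norm_bounds {w : ℝ × ℝ} {d : ℝ} (hw : w ∈ closedBall ((-2, 0) : ℝ × ℝ) d) :
    2 - d ≤ ‖w‖ ∧ ‖w‖ ≤ 2 + d := by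
  have h0 : ‖((-2, 0) : ℝ × ℝ)‖ = 2 := by simp [Prod.norm_def]
  have h1 : ‖w - (-2, 0)‖ ≤ d := by rwa [mem_closedBall, dist_eq_norm] at hw
  have h2 := abs_norm_sub_norm_le w ((-2, 0) : ℝ × ℝ)
  rw [h0, abs_le] at h2
  constructor <;> linarith [h2.1, h2.2]

theorem mem_ball2 {p q d : ℝ} (hp : |p| ≤ d) (hq : |q| ≤ d) :
    ((-2 - p, q) : ℝ × ℝ) ∈ closedBall ((-2, 0) : ℝ × ℝ) d := by
  rw [mem_closedBall, Prod.dist_eq, max_le_iff, Real.dist_eq, Real.dist_eq]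
  constructor
  · have : -2 - p - -2 = -p := by ring
    simpa [this] using hp
  · simpa using hq

theorem aff_mem {k₁ d r : ℝ} (hk : 0 < k₁) (hd : k₁ * r ≤ d) {u : P3} (h0 : |u 0| ≤ r)
    (h1 : |u 1| ≤ r) : aff k₁ u ∈ closedBall ((-2, 0) : ℝ × ℝ) d := by
  refine mem_ball2 ?_ ?_
  · rw [abs_mul, abs_of_pos hk]; exact (mul_le_mul_of_nonneg_left h0 hk.le).trans hd
  · rw [abs_mul, abs_of_pos hk]; exact (mul_le_mul_of_nonneg_left h1 hk.le).trans hd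

theorem aff_cont (k₁ : ℝ) : Continuous (aff k₁) := by
  unfold aff; fun_prop

theorem rad_eq {p q : ℝ} (hp1 : 1 ≤ p) (hp2 : p < 2) (hq : |q| ≤ 1) :
    rad (-p, q) = (-2, 2 / p * q) := by
  have hp0 : 0 < p := by linarith
  have hn : ‖((-p, q) : ℝ × ℝ)‖ = p := by
    rw [Prod.norm_def, Real.norm_eq_abs, Real.norm_eq_abs, abs_neg, abs_of_pos hp0]
    exact max_eq_left (hq.trans hp1)
  have h1 : 1 ≤ 2 / p := by rw [le_div_iff₀ hp0]; linarith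
  unfold rad
  rw [hn, max_eq_right h1]
  ext
  · simp only [Prod.smul_fst, smul_eq_mul]; field_simp
  · simp

theorem nhds_img {k₁ k₂ : ℝ} (h₁ : k₁ ≠ 0) (h₂ : k₂ ≠ 0) (s : Ci) (u : P3) {W : Set P3}
    (hW : W ∈ 𝓝 u) :
    (fun v : P3 => ((s + ((k₂ * v 2 : ℝ) : Ci), aff k₁ v) : Ci × (ℝ × ℝ))) '' W ∈
      𝓝 ((s + ((k₂ * u 2 : ℝ) : Ci), aff k₁ u) : Ci × (ℝ × ℝ)) := by
  let A : P3 → ℝ × (ℝ × ℝ) := fun v => (k₂ * v 2, aff k₁ v)
  let A' : ℝ × (ℝ × ℝ) → P3 := fun q => ![(-2 - q.2.1) / k₁, q.2.2 / k₁, q.1 / k₂]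
  have hc : Continuous A' := by
    refine continuous_pi fun i => ?_
    fin_cases i <;> simp [A'] <;> fun_prop
  have hl : A' (A u) = u := by
    funext i
    fin_cases i <;> simp [A, A', aff] <;> field_simp
  have hr : ∀ q, A (A' q) = q := by
    intro q
    ext <;> simp [A, A', aff] <;> field_simp <;> ring
  have h1 : A '' W ∈ 𝓝 (A u) := by
    have : A' ⁻¹' W ∈ 𝓝 (A u) := hc.continuousAt.preimage_mem_nhds (by rwa [hl])
    exact mem_of_superset this fun q hq => ⟨A' q, hq, hr q⟩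
  have ho : IsOpenMap (Prod.map (fun z : ℝ => s + (z : Ci)) (id : ℝ × ℝ → ℝ × ℝ)) :=
    IsOpenMap.prodMap ((isOpenMap_add_left s).comp QuotientAddGroup.isOpenMap_coe) IsOpenMap.id
  have h2 := ho.image_mem_nhds h1
  rw [image_image] at h2
  exact h2

end TPush2Aux

open TPush2Aux

/-- Let `E₀ (z, w) = (Ψ (s + z, w), y.2 + lf (θ (Ψ (s + z, w)) - θ y.1))` for real `z` and `w` near
(0, (-2, 0))`; `ec u = E₀ (κ₂ u 2, (-2 - κ₁ u 0, κ₁ u 1))`, `lam u = 2 / (2 + κ₁ u 0 - e)`,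
`h u = u 2 + tm (ec ![0, lam u * u 1, u 2]) / κ₂`. Choose `κ₂` small, then `κ₁` much smaller
(`5 κ₁ < e`, `5 κ₁ < (2 - a) / 2`). Points of the cover over the same point whose levels differ by less
than one are equal (`eq_of_coe_eq`); this gives `nl (R ∘ g e) (ec u) = ec ![0, lam u * u 1, u 2]` and
`lfl t (E₀ (z, w)) = E₀ (z + t, w)` for `|z|, |z + t| ≤ 5 κ₂`. As `lev (E₀ (κ₂, w)) > 0 >
lev (E₀ (-κ₂, w))` for `w = (-2, 0)` (`mono`) and so for `w` near it, the zero of the level on the line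
through `E₀ (z, w)` is `E₀ (z', w)` with `|z'| < κ₂`. `opn`: the image of a neighbourhood of `u` in `X`
is a neighbourhood `V` of (ec u).1` (`Ψopn`), and a point of the cover over `V` with level close to
that of `ec u` is in the image of `ec`. -/
theorem Setup.push_chart (h : Setup ψ Ψ θ Δ g N ρ R tm a e₁ B₀) {B : ℝ} (hB : B₀ + 3 ≤ B) {e : ℝ}
    (he : e ∈ Ioc 0 e₁) {y : X × ℝ} (hy : y ∈ page Ψ θ Δ) {s : Ci} (hs : y.1 = Ψ (s, (-2, 0)))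
    {U : Set (X × ℝ)} (hU : U ∈ 𝓝 y) :
    ∃ (ec : P3 → X × ℝ) (lam hh : P3 → ℝ),
      Chart (ovr θ (otube Ψ a)ᶜ B) (ovr θ (otube Ψ ((a + 2) / 2))ᶜ (B - 2)) ec ∧ ec 0 = y ∧
      ec '' ball 0 1 ⊆ U ∧ ContinuousOn lam (closedBall 0 2) ∧ ContinuousOn hh (closedBall 0 2) ∧
      (∀ u ∈ closedBall (0 : P3) 2, 1 < lam u ∧ lam u ≤ 2) ∧
      (∀ u ∈ closedBall (0 : P3) 2, |hh u| ≤ 1) ∧
      (∀ u ∈ closedBall (0 : P3) 2, u 0 = 0 → u 1 = 0 → hh u = 0) ∧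
      ∀ u ∈ closedBall (0 : P3) 2,
        FF ψ θ Δ g R tm 0 e (ec u) = ec ![0, lam u * u 1, hh u] := by
  have hT := h.toTopData
  have ha1 := h.a1
  have ha2 := h.a2
  have he2 : e ≤ 1 / 2 := he.2.trans h.e1
  have hyB : |y.2| ≤ B₀ := (h.page_sub hy).2.2
  have hw0 : ‖((-2, 0) : ℝ × ℝ)‖ = 2 := by simp [Prod.norm_def]
  have hnt : ∀ (s' : Ci) (w : ℝ × ℝ), 0 < ‖w‖ → ‖w‖ < 4 → Ψ (s', w) ∉ tube Ψ 0 := by
    intro s' w h1 h2 h3
    have := (hT.mem_tube (by norm_num) h2).1 h3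
    linarith
  have hΨ : ∀ w : ℝ × ℝ, ‖w‖ < 4 → ContinuousAt (fun w : ℝ × ℝ => Ψ (s, w)) w := by
    intro w hw
    have h1 : ContinuousAt Ψ (s, w) :=
      hT.Ψc.continuousAt ((isOpen_univ.prod isOpen_ball).mem_nhds ⟨mem_univ _, by simpa using hw⟩)
    exact h1.comp_of_eq (by fun_prop) rfl
  have hop : IsOpen (tube Ψ 0)ᶜ := (hT.tube_cpt (by norm_num)).isClosed.isOpen_compl
  have hθ : ∀ w : ℝ × ℝ, 0 < ‖w‖ → ‖w‖ < 4 →
      ContinuousAt (fun w : ℝ × ℝ => θ (Ψ (s, w)) - θ y.1) w := by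
    intro w h1 h2
    have h3 : ContinuousAt θ (Ψ (s, w)) := hT.θc.continuousAt (hop.mem_nhds (hnt s w h1 h2))
    exact (h3.comp_of_eq (hΨ w h2) rfl).sub continuousAt_const
  have hσ : ∀ w : ℝ × ℝ, 0 < ‖w‖ → ‖w‖ < 4 → ‖θ (Ψ (s, w)) - θ y.1‖ < 1 / 2 →
      ContinuousAt (sig Ψ θ y s) w := by
    intro w h1 h2 h3
    exact (hΨ w h2).prodMk
      (continuousAt_const.add ((continuousAt_lf h3).comp_of_eq (hθ w h1 h2) rfl))
  have hσ0 : sig Ψ θ y s (-2, 0) = y := by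
    unfold sig
    rw [← hs, sub_self, lf_zero, add_zero]
  have hl0 : ∀ p : X × ℝ, p.1 ∉ tube Ψ 0 → lfl ψ Δ 0 p = p := by
    intro p hp
    unfold lfl
    rw [hT.zero, hT.Δ_zero hp, add_zero]
  have hy0 : y.1 ∉ tube Ψ 0 := by
    rw [hs]; exact hnt s _ (by rw [hw0]; norm_num) (by rw [hw0]; norm_num)
  set E : ℝ × (ℝ × ℝ) → X × ℝ := fun q => lfl ψ Δ q.1 (sig Ψ θ y s q.2) with hE
  have hEc : ∀ q : ℝ × (ℝ × ℝ), 0 < ‖q.2‖ → ‖q.2‖ < 4 → ‖θ (Ψ (s, q.2)) - θ y.1‖ < 1 / 2 →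
      ContinuousAt E q := by
    intro q h1 h2 h3
    have h4 : ContinuousAt (fun p : ℝ × (X × ℝ) => lfl ψ Δ p.1 p.2) (q.1, sig Ψ θ y s q.2) :=
      h.lfl_cont.continuousAt ((isOpen_univ.prod (hop.prod isOpen_univ)).mem_nhds
        ⟨mem_univ _, hnt s _ h1 h2, mem_univ _⟩)
    have h5 : ContinuousAt (fun q : ℝ × (ℝ × ℝ) => (q.1, sig Ψ θ y s q.2)) q :=
      continuousAt_fst.prodMk ((hσ q.2 h1 h2 h3).comp_of_eq continuousAt_snd rfl)
    exact h4.comp_of_eq h5 rfl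
  have hE0 : E (0, (-2, 0)) = y := by
    simp only [hE]
    rw [hσ0, hl0 y hy0]
  have hE1 : ∀ q : ℝ × (ℝ × ℝ), ‖q.2‖ < 4 → (E q).1 = Ψ (s + (q.1 : Ci), q.2) :=
    fun q hq => hT.par s q.2 q.1 hq
  have hE2 : ∀ q : ℝ × (ℝ × ℝ), 0 < ‖q.2‖ → ‖q.2‖ < 4 → ((E q).2 : Ci) = θ (E q).1 := by
    intro q h1 h2
    have h3 := hT.Δθ _ (hnt s q.2 h1 h2) q.1
    change (((y.2 + lf (θ (Ψ (s, q.2)) - θ y.1)) + Δ (Ψ (s, q.2)) q.1 : ℝ) : Ci) =
      θ (ψ q.1 (Ψ (s, q.2)))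
    rw [h3, AddCircle.coe_add, AddCircle.coe_add, lf_coe, hy.2.1]
    abel
  have hz : ‖θ (Ψ (s, ((-2, 0) : ℝ × ℝ))) - θ y.1‖ < 1 / 2 := by
    rw [← hs, sub_self, norm_zero]; norm_num
  have hc0 : ContinuousAt E (0, (-2, 0)) :=
    hEc _ (by simp only [hw0]; norm_num) (by simp only [hw0]; norm_num) hz
  -- first radius
  have ev : ∀ᶠ q in 𝓝 ((0, (-2, 0)) : ℝ × (ℝ × ℝ)),
      E q ∈ U ∧ |(E q).2 - y.2| < 1 / 4 ∧ ‖θ (Ψ (s, q.2)) - θ y.1‖ < 1 / 2 := by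
    refine Eventually.and (hc0.preimage_mem_nhds (by rwa [hE0])) (Eventually.and ?_ ?_)
    · have h1 : ContinuousAt (fun q => |(E q).2 - y.2|) (0, (-2, 0)) :=
        (hc0.snd.sub continuousAt_const).abs
      exact h1.eventually_lt continuousAt_const (by rw [hE0]; norm_num)
    · have h1 : ContinuousAt (fun q : ℝ × (ℝ × ℝ) => ‖θ (Ψ (s, q.2)) - θ y.1‖) (0, (-2, 0)) :=
        ((hθ (-2, 0) (by rw [hw0]; norm_num) (by rw [hw0]; norm_num)).comp_of_eq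
          continuousAt_snd rfl).norm
      exact h1.eventually_lt continuousAt_const hz
  obtain ⟨d₀, hd₀, hev⟩ := Metric.nhds_basis_closedBall.eventually_iff.1 ev
  obtain ⟨d, hd, hd1, hd2⟩ : ∃ d : ℝ, 0 < d ∧ d ≤ d₀ ∧ d ≤ (2 - a) / 2 :=
    ⟨min d₀ ((2 - a) / 2), lt_min hd₀ (by linarith), min_le_left _ _, min_le_right _ _⟩
  have hgood : ∀ (z : ℝ) (w : ℝ × ℝ), |z| ≤ d → w ∈ closedBall ((-2, 0) : ℝ × ℝ) d →
      E (z, w) ∈ U ∧ |(E (z, w)).2 - y.2| < 1 / 4 ∧ ‖θ (Ψ (s, w)) - θ y.1‖ < 1 / 2 := by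
    intro z w h1 h2
    refine hev (x := (z, w)) ?_
    rw [mem_closedBall, Prod.dist_eq, max_le_iff]
    exact ⟨by simpa [Real.dist_eq] using h1.trans hd1, (mem_closedBall.1 h2).trans hd1⟩
  have hnb : ∀ w ∈ closedBall ((-2, 0) : ℝ × ℝ) d,
      0 < ‖w‖ ∧ ‖w‖ < 4 ∧ ‖w‖ ≤ 3 ∧ (a + 2) / 2 ≤ ‖w‖ := by
    intro w hw
    obtain ⟨h1, h2⟩ := norm_bounds hw
    refine ⟨by linarith, by linarith, by linarith, by linarith⟩
  have hno : ∀ (s' : Ci), ∀ w ∈ closedBall ((-2, 0) : ℝ × ℝ) d, ∀ r, r ≤ (a + 2) / 2 →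
      Ψ (s', w) ∉ otube Ψ r := by
    intro s' w hw r hr h3
    obtain ⟨-, h2, -, h4⟩ := hnb w hw
    have := (hT.mem_otube (by linarith) h2).1 h3
    linarith
  have haa : a ≤ (a + 2) / 2 := by linarith
  have hσc : ContinuousOn (fun w => tm (sig Ψ θ y s w)) (closedBall ((-2, 0) : ℝ × ℝ) d) := by
    refine h.isTm.cont.comp (fun w hw => ?_) fun w hw => ⟨hno s w hw a haa, mem_univ _⟩
    exact (hσ w (hnb w hw).1 (hnb w hw).2.1
      (hgood 0 w (by simpa using hd.le) hw).2.2).continuousWithinAt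
  have htm0 : tm (sig Ψ θ y s (-2, 0)) = 0 := by
    rw [hσ0]
    refine (h.isTm.uniq y ?_ 0 (by rw [hl0 y hy0]; exact hy.2.2)).symm
    exact fun h1 => hy.1 (otube_mono ha2.le h1)
  obtain ⟨k₂, hk₂, hk₂d, hk₂1⟩ : ∃ k : ℝ, 0 < k ∧ k * 5 ≤ d ∧ k * 10 < 1 :=
    ⟨d / 10, by linarith, by linarith, by linarith⟩
  -- second radius
  have ev2 : ∀ᶠ w in 𝓝 ((-2, 0) : ℝ × ℝ), |tm (sig Ψ θ y s w)| < k₂ := by
    have h1 : ContinuousAt (fun w => |tm (sig Ψ θ y s w)|) ((-2, 0) : ℝ × ℝ) :=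
      (hσc.continuousAt (closedBall_mem_nhds _ hd)).abs
    exact h1.eventually_lt continuousAt_const (by rw [htm0]; simpa using hk₂)
  obtain ⟨d₂, hd₂, hev2⟩ := Metric.nhds_basis_closedBall.eventually_iff.1 ev2
  obtain ⟨k₁, hk₁, hk₁d, hk₁2, hk₁e⟩ : ∃ k : ℝ, 0 < k ∧ k * 5 ≤ d ∧ k * 5 ≤ d₂ ∧ k * 5 ≤ e := by
    refine ⟨min d (min d₂ e) / 5, div_pos (lt_min hd (lt_min hd₂ he.1)) (by norm_num), ?_, ?_, ?_⟩
    · linarith [min_le_left d (min d₂ e)]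
    · linarith [min_le_right d (min d₂ e), min_le_left d₂ e]
    · linarith [min_le_right d (min d₂ e), min_le_right d₂ e]
  have hw5 : ∀ u ∈ closedBall (0 : P3) 5, aff k₁ u ∈ closedBall ((-2, 0) : ℝ × ℝ) d :=
    fun u hu => aff_mem hk₁ hk₁d (abs_le_of_mem hu 0) (abs_le_of_mem hu 1)
  have hz5 : ∀ u ∈ closedBall (0 : P3) 5, |k₂ * u 2| ≤ k₂ * 5 := by
    intro u hu
    rw [abs_mul, abs_of_pos hk₂]
    exact mul_le_mul_of_nonneg_left (abs_le_of_mem hu 2) hk₂.le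
  have hden : ∀ u ∈ closedBall (0 : P3) 2, 1 ≤ 2 + k₁ * u 0 - e ∧ 2 + k₁ * u 0 - e < 2 := by
    intro u hu
    have h1 := abs_le.1 (abs_le_of_mem hu 0)
    constructor <;> nlinarith [h1.1, h1.2]
  have hlam : ∀ u ∈ closedBall (0 : P3) 2,
      1 < 2 / (2 + k₁ * u 0 - e) ∧ 2 / (2 + k₁ * u 0 - e) ≤ 2 := by
    intro u hu
    obtain ⟨h1, h2⟩ := hden u hu
    have h0 : 0 < 2 + k₁ * u 0 - e := by linarith
    exact ⟨by rw [lt_div_iff₀ h0]; linarith, by rw [div_le_iff₀ h0]; linarith⟩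
  have hw' : ∀ u ∈ closedBall (0 : P3) 2, ∀ d' : ℝ, k₁ * 5 ≤ d' →
      ((-2, k₁ * (2 / (2 + k₁ * u 0 - e) * u 1)) : ℝ × ℝ) ∈ closedBall ((-2, 0) : ℝ × ℝ) d' := by
    intro u hu d' hd'
    obtain ⟨h1, h2⟩ := hlam u hu
    have h3 := abs_le_of_mem hu 1
    have h4 : |k₁ * (2 / (2 + k₁ * u 0 - e) * u 1)| ≤ d' := by
      rw [abs_mul, abs_mul, abs_of_pos hk₁, abs_of_pos (lt_trans one_pos h1)]
      have h5 : 2 / (2 + k₁ * u 0 - e) * |u 1| ≤ 2 * 2 :=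
        mul_le_mul h2 h3 (abs_nonneg _) (by norm_num)
      nlinarith
    have h6 := mem_ball2 (p := 0) (by rw [abs_zero]; linarith) h4
    rwa [sub_zero] at h6
  have hlc : ContinuousOn (fun u : P3 => 2 / (2 + k₁ * u 0 - e)) (closedBall 0 2) :=
    continuousOn_const.div (by fun_prop) fun u hu => by linarith [(hden u hu).1]
  refine ⟨fun u => E (k₂ * u 2, aff k₁ u), fun u => 2 / (2 + k₁ * u 0 - e),
    fun u => tm (sig Ψ θ y s (-2, k₁ * (2 / (2 + k₁ * u 0 - e) * u 1))) / k₂,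
    ⟨?_, ?_, ?_, ?_⟩, ?_, ?_, hlc, ?_, hlam, ?_, ?_, ?_⟩
  · intro u hu
    have h1 := hEc (k₂ * u 2, aff k₁ u) (hnb _ (hw5 u hu)).1 (hnb _ (hw5 u hu)).2.1
      (hgood _ _ ((hz5 u hu).trans hk₂d) (hw5 u hu)).2.2
    have h2 : Continuous fun u : P3 => (k₂ * u 2, aff k₁ u) :=
      (by fun_prop : Continuous fun u : P3 => k₂ * u 2).prodMk (aff_cont k₁)
    exact (h1.comp_of_eq h2.continuousAt rfl).continuousWithinAt
  · intro u hu v hv huv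
    have h1 : (E (k₂ * u 2, aff k₁ u)).1 = (E (k₂ * v 2, aff k₁ v)).1 := congrArg Prod.fst huv
    rw [hE1 _ (hnb _ (hw5 u hu)).2.1, hE1 _ (hnb _ (hw5 v hv)).2.1] at h1
    have h2 := hT.Ψinj ⟨mem_univ _, by simpa using (hnb _ (hw5 u hu)).2.1⟩
      ⟨mem_univ _, by simpa using (hnb _ (hw5 v hv)).2.1⟩ h1
    have h3 : ((k₂ * u 2 : ℝ) : Ci) = ((k₂ * v 2 : ℝ) : Ci) :=
      add_left_cancel (congrArg Prod.fst h2)
    have h4 : k₂ * u 2 = k₂ * v 2 := by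
      refine eq_of_coe_eq h3 ?_
      have h5 := abs_le.1 (hz5 u hu)
      have h6 := abs_le.1 (hz5 v hv)
      rw [abs_lt]
      constructor <;> linarith [h5.1, h5.2, h6.1, h6.2]
    have h5 : aff k₁ u = aff k₁ v := congrArg Prod.snd h2
    have h6 : k₁ * u 0 = k₁ * v 0 := by
      have := congrArg Prod.fst h5
      simp only [aff] at this
      linarith
    have h7 : k₁ * u 1 = k₁ * v 1 := congrArg Prod.snd h5
    funext i
    fin_cases i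
    · exact mul_left_cancel₀ hk₁.ne' h6
    · exact mul_left_cancel₀ hk₁.ne' h7
    · exact mul_left_cancel₀ hk₂.ne' h4
  · intro u hu
    refine ⟨?_, hE2 _ (hnb _ (hw5 u hu)).1 (hnb _ (hw5 u hu)).2.1, ?_⟩
    · rw [hE1 _ (hnb _ (hw5 u hu)).2.1]
      exact hno _ _ (hw5 u hu) _ le_rfl
    · have h1 := abs_lt.1 (hgood _ _ ((hz5 u hu).trans hk₂d) (hw5 u hu)).2.1
      have h2 := abs_le.1 hyB
      rw [abs_le]
      constructor <;> linarith [h1.1, h1.2, h2.1, h2.2]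
  · intro u hu W hW
    have hu' : u ∈ closedBall (0 : P3) 5 := ball_subset_closedBall hu
    have hW' : W ∩ closedBall 0 5 ∈ 𝓝 u :=
      inter_mem hW (mem_of_superset (isOpen_ball.mem_nhds hu) ball_subset_closedBall)
    have h1 := nhds_img hk₁.ne' hk₂.ne' s u hW'
    have h2 := hT.Ψopn (s + ((k₂ * u 2 : ℝ) : Ci), aff k₁ u)
      ⟨mem_univ _, by simpa using (hnb _ (hw5 u hu')).2.1⟩ (image_mem_map h1)
    rw [← hE1 (k₂ * u 2, aff k₁ u) (hnb _ (hw5 u hu')).2.1] at h2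
    have h3 : ∀ᶠ p : X × ℝ in 𝓝 (E (k₂ * u 2, aff k₁ u)), |p.2 - y.2| < 1 / 4 := by
      have h4 : Continuous fun p : X × ℝ => |p.2 - y.2| := by fun_prop
      exact h4.continuousAt.eventually_lt continuousAt_const
        (hgood _ _ ((hz5 u hu').trans hk₂d) (hw5 u hu')).2.1
    have h4 := inter_mem (continuous_fst.continuousAt.preimage_mem_nhds h2) h3
    filter_upwards [mem_nhdsWithin_of_mem_nhds h4, self_mem_nhdsWithin] with p hp hpK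
    obtain ⟨⟨_, ⟨v, ⟨hv1, hv2⟩, rfl⟩, hpv⟩, hp2⟩ := hp
    refine ⟨v, hv1, ?_⟩
    have h5 : (E (k₂ * v 2, aff k₁ v)).1 = p.1 := by
      rw [hE1 _ (hnb _ (hw5 v hv2)).2.1]; exact hpv
    refine Prod.ext h5 (eq_of_coe_eq ?_ ?_)
    · rw [hE2 _ (hnb _ (hw5 v hv2)).1 (hnb _ (hw5 v hv2)).2.1, h5, hpK.2.1]
    · have h6 := abs_lt.1 (hgood _ _ ((hz5 v hv2).trans hk₂d) (hw5 v hv2)).2.1
      have h7 := abs_lt.1 (show |p.2 - y.2| < 1 / 4 from hp2)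
      rw [abs_lt]
      constructor <;> linarith [h6.1, h6.2, h7.1, h7.2]
  · have : ((k₂ * (0 : P3) 2, aff k₁ 0) : ℝ × (ℝ × ℝ)) = (0, (-2, 0)) := by simp [aff]
    simp only [this, hE0]
  · rintro _ ⟨u, hu, rfl⟩
    have hu' : u ∈ closedBall (0 : P3) 5 :=
      closedBall_subset_closedBall (by norm_num) (ball_subset_closedBall hu)
    exact (hgood _ _ ((hz5 u hu').trans hk₂d) (hw5 u hu')).1
  · refine ContinuousOn.div_const (hσc.comp ?_ fun u hu => hw' u hu d hk₁d) _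
    exact continuousOn_const.prodMk (continuousOn_const.mul (hlc.mul (by fun_prop)))
  · intro u hu
    have h1 := hev2 (hw' u hu d₂ hk₁2)
    rw [abs_div, abs_of_pos hk₂, div_le_one hk₂]
    exact h1.le
  · intro u _ _ h1
    simp only [h1, mul_zero, htm0, zero_div]
  · intro u hu
    have hu' : u ∈ closedBall (0 : P3) 5 := closedBall_subset_closedBall (by norm_num) hu
    set w' : ℝ × ℝ := (-2, k₁ * (2 / (2 + k₁ * u 0 - e) * u 1)) with hw'd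
    have hw'm : w' ∈ closedBall ((-2, 0) : ℝ × ℝ) d := hw' u hu d hk₁d
    have hb := hnb _ (hw5 u hu')
    have hb' := hnb _ hw'm
    obtain ⟨hd1', hd2'⟩ := hden u hu
    have hq1 : |k₁ * u 1| ≤ 1 := by
      rw [abs_mul, abs_of_pos hk₁]
      nlinarith [abs_le_of_mem hu 1, abs_nonneg (u 1)]
    have hsum : aff k₁ u + (e, 0) = (-(2 + k₁ * u 0 - e), k₁ * u 1) := by
      ext
      · simp only [aff, Prod.fst_add]; ring
      · simp [aff]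
    have hnn : ‖((-(2 + k₁ * u 0 - e), k₁ * u 1) : ℝ × ℝ)‖ < 4 := by
      rw [Prod.norm_def, max_lt_iff, Real.norm_eq_abs, Real.norm_eq_abs, abs_neg,
        abs_of_pos (by linarith)]
      constructor <;> linarith
    have hne : ((-(2 + k₁ * u 0 - e), k₁ * u 1) : ℝ × ℝ) ≠ 0 := by
      intro h0
      have := congrArg Prod.fst h0
      simp only [Prod.fst_zero] at this
      linarith
    have hR : R (g e (E (k₂ * u 2, aff k₁ u)).1) = (E (k₂ * u 2, w')).1 := by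
      rw [hE1 _ hb.2.1, hE1 _ hb'.2.1, hT.gpar _ _ e hb.2.2.1 ⟨he.1.le, he2⟩, hsum,
        h.isR.inn _ _ hne hnn, rad_eq hd1' hd2' hq1]
      congr 2
      simp only [hw'd]
      congr 1
      ring
    have hxa : (E (k₂ * u 2, aff k₁ u)).1 ∉ otube Ψ a := by
      rw [hE1 _ hb.2.1]
      exact hno _ _ (hw5 u hu') _ haa
    have hnl : up 0 (nl θ (fun x => R (g e x)) (E (k₂ * u 2, aff k₁ u))) = E (k₂ * u 2, w') := by
      refine Prod.ext hR (eq_of_coe_eq ?_ ?_)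
      · change ((((E (k₂ * u 2, aff k₁ u)).2 + lf (θ (R (g e (E (k₂ * u 2, aff k₁ u)).1)) -
          θ (E (k₂ * u 2, aff k₁ u)).1)) + ((0 : ℤ) : ℝ) : ℝ) : Ci) = _
        rw [Int.cast_zero, add_zero, AddCircle.coe_add, lf_coe, hE2 _ hb.1 hb.2.1,
          hE2 _ hb'.1 hb'.2.1, hR]
        abel
      · change |(((E (k₂ * u 2, aff k₁ u)).2 + lf (θ (R (g e (E (k₂ * u 2, aff k₁ u)).1)) -
          θ (E (k₂ * u 2, aff k₁ u)).1)) + ((0 : ℤ) : ℝ)) - _| < 1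
        have h1 := (h.small _ hxa e ⟨he.1.le, he.2⟩).2
        rw [← abs_lf] at h1
        have h2 := abs_lt.1 h1
        have h3 := abs_lt.1 (hgood _ _ ((hz5 u hu').trans hk₂d) (hw5 u hu')).2.1
        have h4 := abs_lt.1 (hgood _ _ ((hz5 u hu').trans hk₂d) hw'm).2.1
        rw [Int.cast_zero, add_zero, abs_lt]
        constructor <;> linarith [h2.1, h2.2, h3.1, h3.2, h4.1, h4.2]
    have hs0 : (sig Ψ θ y s w').1 ∉ tube Ψ 0 := hnt s w' hb'.1 hb'.2.1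
    have htm : tm (sig Ψ θ y s w') - k₂ * u 2 = tm (E (k₂ * u 2, w')) := by
      refine h.isTm.uniq _ ?_ _ ?_
      · rw [hE1 _ hb'.2.1]
        exact hno _ _ hw'm _ haa
      · simp only [hE]
        rw [h.lfl_add hs0, add_sub_cancel]
        exact h.isTm.lev0 _ (hno s w' hw'm a haa)
    unfold FF
    rw [hnl, ← htm]
    simp only [hE]
    rw [h.lfl_add hs0, add_sub_cancel]
    have h1 : k₂ * (tm (sig Ψ θ y s w') / k₂) = tm (sig Ψ θ y s w') := by field_simp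
    have h2 : aff k₁ ![0, 2 / (2 + k₁ * u 0 - e) * u 1, tm (sig Ψ θ y s w') / k₂] = w' := by
      simp [aff, hw'd]
    rw [h2]
    congr 1
    exact h1.symm

end Pool.Agent.Lib.MP_399f8e_an.Lk
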