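import Pool.Agent.Lib.MP_399f8e_an.Lk.TSad
import Pool.Agent.Lib.MP_399f8e_an.Lk.TAlg3
import Pool.Agent.Lib.MP_399f8e_an.Lk.TCx2
import Pool.Agent.Lib.MP_399f8e_an.Lk.TCx3
import Pool.Agent.Lib.MP_399f8e_an.Lk.TMap2
import Pool.Agent.Lib.MP_399f8e_an.Lk.TConn
import Pool.Agent.Lib.MP_399f8e_an.Lk.TPush1
import Pool.Agent.Lib.MP_399f8e_an.Lk.TPush2

open Set Filter Topology Metric

noncomputable section

namespace Pool.Agent.Lib.MP_399f8e_an.Lk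

variable {X : Type} [MetricSpace X] [CompactSpace X] {ψ : ℝ → X → X} {Ψ : Ci × (ℝ × ℝ) → X}
  {θ : X → Ci} {Δ : X → ℝ → ℝ} {g : ℝ → X → X} {N ρ : ℕ}
  {ι : P3 → X}

namespace TMainAux

variable {R : X → X} {tm : X × ℝ → ℝ} {a e₁ B₀ : ℝ}

/-- the representative of the angle in the unit interval -/
def th0 (θ : X → Ci) (x : X) : ℝ := (AddCircle.equivIco (1 : ℝ) 0 (θ x) : ℝ)

theorem cxData (S : Setup ψ Ψ θ Δ g N ρ R tm a e₁ B₀) (hι : IsOpenEmbedding ι)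
    (hr : range ι = {Ψ (0, 0)}ᶜ) :
    CxData ι θ (th0 θ) (otube Ψ a)ᶜ (otube Ψ ((a + 2) / 2))ᶜ (|B₀| + 5) := by
  have h := S.toTopData
  have ha1 := S.a1
  have ha2 := S.a2
  refine ⟨hι, (h.otube_open (by linarith)).isClosed_compl.isCompact,
    (h.otube_open (by linarith)).isClosed_compl.isCompact, ?_, ?_, ?_, ?_, ?_, ?_⟩
  · intro x hx
    rw [hr]
    intro hx0
    apply hx
    rw [mem_singleton_iff.1 hx0]
    exact ⟨(0, 0), ⟨mem_univ _, mem_ball_self (by linarith)⟩, rfl⟩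
  · have ho : IsOpen (tube Ψ a)ᶜ := (h.tube_cpt (by linarith)).isClosed.isOpen_compl
    have h1 : (tube Ψ a)ᶜ ⊆ (otube Ψ a)ᶜ := compl_subset_compl.2 (otube_sub_tube le_rfl)
    have h2 : (otube Ψ ((a + 2) / 2))ᶜ ⊆ (tube Ψ a)ᶜ :=
      compl_subset_compl.2 (tube_sub_otube (by linarith))
    exact h2.trans (interior_maximal h1 ho)
  · exact h.θc.mono (compl_subset_compl.2 (tube_sub_otube (by linarith)))
  · intro x
    exact (AddCircle.equivIco (1 : ℝ) 0).symm_apply_apply (θ x)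
  · intro x
    have := (AddCircle.equivIco (1 : ℝ) 0 (θ x)).2
    simpa [th0] using this
  · have := abs_nonneg B₀
    linarith

omit [CompactSpace X] in
theorem ovr_sub (S : Setup ψ Ψ θ Δ g N ρ R tm a e₁ B₀) {b : ℝ} (hb : b ≤ B₀ + 1) :
    ovr θ (otube Ψ 2)ᶜ b ⊆ ovr θ (otube Ψ ((a + 2) / 2))ᶜ (|B₀| + 5 - 2) := by
  have ha2 := S.a2
  rintro y ⟨h1, h2, h3⟩
  refine ⟨fun hy => h1 ?_, h2, ?_⟩
  · obtain ⟨q, hq, hq'⟩ := hy
    exact ⟨q, ⟨hq.1, ball_subset_ball (by linarith) hq.2⟩, hq'⟩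
  · have := le_abs_self B₀
    linarith

theorem page_G (S : Setup ψ Ψ θ Δ g N ρ R tm a e₁ B₀) :
    page Ψ θ Δ ⊆ ovr θ (otube Ψ ((a + 2) / 2))ᶜ (|B₀| + 5 - 2) :=
  S.page_sub.trans (ovr_sub S (by linarith))

theorem FF_cont1 (S : Setup ψ Ψ θ Δ g N ρ R tm a e₁ B₀) (n : ℤ) {e : ℝ} (he : e ∈ Icc 0 e₁)
    (B : ℝ) : ContinuousOn (FF ψ θ Δ g R tm n e) (ovr θ (otube Ψ a)ᶜ B) := by
  have h1 : ContinuousOn (fun y : X × ℝ => ((e, y) : ℝ × (X × ℝ))) (ovr θ (otube Ψ a)ᶜ B) :=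
    (continuous_const.prodMk continuous_id).continuousOn
  exact (S.FF_cont n).comp h1 fun y hy => ⟨he, hy.1, mem_univ _⟩

theorem FF_pg (S : Setup ψ Ψ θ Δ g N ρ R tm a e₁ B₀) (n : ℤ) {e : ℝ} (he : e ∈ Icc 0 e₁)
    {B : ℝ} {y : X × ℝ} (hy : y ∈ ovr θ (otube Ψ a)ᶜ B) :
    FF ψ θ Δ g R tm n e y ∈ page Ψ θ Δ :=
  S.FF_page n he hy.1 hy.2.1

variable {β : Type} {C : ℝ → Cx β (X × ℝ)}

theorem path_const (S : Setup ψ Ψ θ Δ g N ρ R tm a e₁ B₀)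
    (hX : Fam C (ovr θ (otube Ψ a)ᶜ (|B₀| + 5)) (ovr θ (otube Ψ ((a + 2) / 2))ᶜ (|B₀| + 5 - 2)))
    (n : ℤ) :
    Path (ovr θ (otube Ψ a)ᶜ (|B₀| + 5)) (ovr θ (otube Ψ ((a + 2) / 2))ᶜ (|B₀| + 5 - 2))
      (ovr θ (otube Ψ a)ᶜ (|B₀| + 5)) fun _ => FF ψ θ Δ g R tm n 0 := by
  have h0 : (0 : ℝ) ∈ Icc 0 e₁ := ⟨le_rfl, S.e0.le⟩
  refine ⟨hX.cpt, Subset.rfl, ?_, fun _ _ y hy => page_G S (FF_pg S n h0 hy)⟩
  exact (FF_cont1 S n h0 _).comp continuousOn_snd fun p hp => hp.2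

theorem ind_ne (S : Setup ψ Ψ θ Δ g N ρ R tm a e₁ B₀)
    (hX : Fam C (ovr θ (otube Ψ a)ᶜ (|B₀| + 5)) (ovr θ (otube Ψ ((a + 2) / 2))ᶜ (|B₀| + 5 - 2)))
    {n : ℤ} (hn : n ≠ 0) (hnN : |n| < N) : Ind C univ (FF ψ θ Δ g R tm n 0) 0 :=
  Ind.nofix hX hX.cpt inter_subset_left (FF_cont1 S n ⟨le_rfl, S.e0.le⟩ _)
    fun _ hy => S.FF_nofix hn hnN hy.1 hy.2.1

theorem ind_zero (S : Setup ψ Ψ θ Δ g N ρ R tm a e₁ B₀)
    (hX : Fam C (ovr θ (otube Ψ a)ᶜ (|B₀| + 5)) (ovr θ (otube Ψ ((a + 2) / 2))ᶜ (|B₀| + 5 - 2))) :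
    ∃ j : ℕ, j ≤ ρ ∧ Ind C univ (FF ψ θ Δ g R tm 0 0) (-(j : ℂ)) := by
  obtain ⟨e, he, F, hF, hfix, hFp⟩ := S.push_fix
  have he' : e ∈ Icc 0 e₁ := ⟨he.1.le, he.2⟩
  have h1 : Ind C univ (FF ψ θ Δ g R tm 0 e) (F.card * (-1)) := by
    refine Ind.sum hX (FF_cont1 S 0 he' _) F (fun y hy => hfix y hy.1 hy.2.1) ?_
    intro y hy U hU
    obtain ⟨hp, s, hs⟩ := hFp y hy
    have hB : B₀ + 3 ≤ |B₀| + 5 := by
      have := le_abs_self B₀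
      linarith
    obtain ⟨ec, lam, hh, hch, h0, hsub, hl, hhc, hl1, hh1, hh0, hf⟩ :=
      S.push_chart hB he hp hs hU
    refine ⟨ec '' ball 0 1, hsub, ?_, hch.saddle hX hl hhc hl1 hh1 hh0 hf⟩
    have := hch.opn 0 (mem_ball_self (by norm_num)) (ball 0 1) (ball_mem_nhds _ one_pos)
    rwa [h0] at this
  have hmem : ∀ t ∈ Icc (0 : ℝ) 1, (1 - t) * e ∈ Icc 0 e₁ := by
    intro t ht
    have h1 := ht.1
    have h2 := ht.2
    have h3 := he.1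
    have h4 := he.2
    constructor
    · exact mul_nonneg (by linarith) h3.le
    · nlinarith [mul_nonneg h1 h3.le]
  have hP : Path (ovr θ (otube Ψ a)ᶜ (|B₀| + 5)) (ovr θ (otube Ψ ((a + 2) / 2))ᶜ (|B₀| + 5 - 2))
      (ovr θ (otube Ψ a)ᶜ (|B₀| + 5)) fun t => FF ψ θ Δ g R tm 0 ((1 - t) * e) := by
    refine ⟨hX.cpt, Subset.rfl, ?_, fun t ht y hy => page_G S (FF_pg S 0 (hmem t ht) hy)⟩
    have hc : Continuous fun p : ℝ × (X × ℝ) => (((1 - p.1) * e, p.2) : ℝ × (X × ℝ)) := by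
      fun_prop
    exact (S.FF_cont 0).comp hc.continuousOn fun p hp => ⟨hmem p.1 hp.1, hp.2.1, mem_univ _⟩
  refine ⟨F.card, hF, ?_⟩
  have h2 : Ind C univ (FF ψ θ Δ g R tm 0 0) (F.card * (-1)) := by
    refine Ind.homotopy hX hP ⟨1, one_pos, fun y hy _ _ _ _ => hy⟩ ?_ ?_ ?_ h1
    · intro t _ y _ hy
      simp at hy
    · intro y _
      simp
    · intro y _
      simp
  simpa using h2

end TMainAux

open TMainAux in
/-- Take `exists_setup`, `B = |B₀| + 5`, `θ₀ x = AddCircle.equivIco 1 0 (θ x)`, `M = (otube Ψ a)ᶜ`,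
`M' = (otube Ψ ((a + 2) / 2))ᶜ` (inside the open set (tube Ψ a)ᶜ ⊆ M`), so `CxData` and `CxData.fam`
hold; `f n = FF n 0` maps `Ka = ovr θ M B` continuously to the page, which lies in `G`. Indices on
`univ`: zero for `0 < |n| < N` (`Ind.nofix`, `FF_nofix`); for `FF 0 e` it is `- card F` (`push_fix`,
`push_chart`, `Chart.saddle`, `Ind.sum`; `ec '' ball 0 1` is a neighbourhood in `Ka` by `Chart.opn`),
hence for `f 0` (`Ind.homotopy` with `H t = FF 0 ((1 - t) e)`, `K' = Ka`, `O = univ`). Collect with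
`Ev.and`, `Ev.all` over `|n|, |m| ≤ N`: `ev_mul`, `ev_h0`, `ev_hom` for `FF_path`, `ev_exists`
(through `Ev.of_lt` with `r₀ = 1`), `ok 1`, `posK`, `0 < c`; `Ev.exists`; choose `φ n`; `alg_false` with
`C k = ch N k`, `Tm = deck`, using `ltr_univ`, `cx_deck`, `cx_h3`, `h2`, `h1` (`conn_tube`). -/
theorem TopData.false [ConnectedSpace X] (h : TopData ψ Ψ θ Δ g N ρ) (hι : IsOpenEmbedding ι)
    (hr : range ι = {Ψ (0, 0)}ᶜ) : False := by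
  obtain ⟨R, tm, a, e₁, B₀, S⟩ := h.exists_setup
  have hD := cxData S hι hr
  have hX := hD.fam
  have ha1 := S.a1
  have ha2 := S.a2
  have he0 : (0 : ℝ) ∈ Icc 0 e₁ := ⟨le_rfl, S.e0.le⟩
  obtain ⟨j, hj, hI0⟩ := ind_zero S hX
  obtain ⟨hpc, hpn⟩ := S.page_conn hι hr
  obtain ⟨H, hHc, hH⟩ := S.FF_path
  set Ka := ovr θ (otube Ψ a)ᶜ (|B₀| + 5) with hKa
  set G := ovr θ (otube Ψ ((a + 2) / 2))ᶜ (|B₀| + 5 - 2) with hG
  set C := cx ι (th0 θ) (otube Ψ a)ᶜ (|B₀| + 5) with hC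
  set f : ℤ → X × ℝ → X × ℝ := fun n => FF ψ θ Δ g R tm n 0 with hf
  have hfp : ∀ n, ∀ y ∈ Ka, f n y ∈ page Ψ θ Δ := fun n y hy => FF_pg S n he0 hy
  have hfG : ∀ n, MapsTo (f n) Ka G := fun n y hy => page_G S (hfp n y hy)
  have hfc : ∀ n, ContinuousOn (f n) Ka := fun n => FF_cont1 S n he0 _
  have hfin : {n : ℤ | |n| ≤ N}.Finite :=
    (Set.finite_Icc (-(N : ℤ)) N).subset fun n hn => abs_le.1 hn
  have hPH : Path Ka G Ka H := by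
    refine ⟨hX.cpt, Subset.rfl, hHc.mono fun p hp => ⟨hp.1, hp.2.1, mem_univ _⟩, ?_⟩
    intro t ht y hy
    exact ovr_sub S le_rfl ((hH y hy.1 hy.2.1).2.2 t ht)
  have E1 : Ev fun r c => ∀ n ∈ {n : ℤ | |n| ≤ N}, ∀ m ∈ {n : ℤ | |n| ≤ N},
      ∀ φ φ' φ'' : Ch (Cell × ℤ) →ₗ[ℂ] Ch (Cell × ℤ), (C c).Ctrl (C c).N (f m) r φ →
        (C c).Ctrl (C c).N (f n) r φ' → (C c).Ctrl (C c).N (f (n + m)) r φ'' →
          (C c).Hom (C c).N (φ' ∘ₗ φ) φ'' :=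
    Ev.all hfin fun n _ => Ev.all hfin fun m _ =>
      hX.ev_mul (hfG m) (hfc n) (hfc (n + m)) (hfG (n + m)) fun y hy => S.FF_mul n m hy.1 hy.2.1
  have E2 := hX.ev_h0 (page_G S) hpc hpn
  have E3 := hX.ev_hom hPH
  have E4 : Ev fun r c => ∀ n ∈ {n : ℤ | |n| ≤ N}, r < 1 ∧ ∀ A : Set (Cell × ℤ), (C c).Sub A →
      (∀ b ∈ A, (C c).pos b ∈ Ka) → ∃ φ, (C c).Ctrl A (f n) r φ := by
    refine Ev.all hfin fun n _ => Ev.of_lt one_pos fun r hr0 hr1 => ?_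
    filter_upwards [hX.ev_exists (path_const S hX n) hr0] with c hc
    exact ⟨hr1, hc 0 ⟨le_rfl, zero_le_one⟩⟩
  have E5 : Ev fun _ c => (C c).Ok 1 ∧ 0 < c :=
    Ev.of_right ((hX.ok 1 one_pos).and self_mem_nhdsWithin)
  have E6 : Ev fun r c => ∀ n ∈ {n : ℤ | |n| ≤ N}, n ≠ 0 → |n| < N →
      ∀ (A : Set (Cell × ℤ)) (φ : Ch (Cell × ℤ) →ₗ[ℂ] Ch (Cell × ℤ)), (C c).Sub A →
        (∀ b ∈ (C c).N, (C c).pos b ∈ univ → b ∈ A) → (C c).Ctrl A (f n) r φ →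
          (C c).ltr univ φ = 0 := by
    refine Ev.all hfin fun n _ => ?_
    by_cases hn : n ≠ 0 ∧ |n| < N
    · exact Ev.mono (ind_ne S hX hn.1 hn.2) fun r c hrc _ _ => hrc
    · exact Ev.mono E5 fun r c _ h1 h2 => absurd ⟨h1, h2⟩ hn
  obtain ⟨r, c, ⟨⟨⟨⟨⟨e1, e2⟩, e3⟩, e4⟩, hok, hc⟩, e6⟩, e0⟩ :=
    ((((((E1.and E2).and E3).and E4).and E5).and E6).and hI0).exists
  have hpos : ∀ b ∈ (C c).N, (C c).pos b ∈ Ka := hD.posK c
  have hsub := hok.sub_N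
  have hN := h.hN
  have hN0 : |(0 : ℤ)| ≤ N := by simp
  have hN1 : |(1 : ℤ)| ≤ N := by
    rw [abs_one]
    exact_mod_cast (by omega : 1 ≤ N)
  have hr1 : r < 1 := (e4 0 hN0).1
  have hex : ∀ n : ℤ, ∃ φ : Ch (Cell × ℤ) →ₗ[ℂ] Ch (Cell × ℤ),
      |n| ≤ N → (C c).Ctrl (C c).N (f n) r φ := by
    intro n
    by_cases hn : |n| ≤ N
    · obtain ⟨φ, hφ⟩ := (e4 n hn).2 _ hsub hpos
      exact ⟨φ, fun _ => hφ⟩
    · exact ⟨0, fun h' => absurd h' hn⟩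
  choose φ hφ using hex
  have hall : ∀ b ∈ (C c).N, (C c).pos b ∈ (univ : Set (X × ℝ)) → b ∈ (C c).N := fun b hb _ => hb
  refine alg_false (fun k => (C c).ch (C c).N k) hok.finiteDimensional (C c).bd deck (C c).aug φ
    N ρ j h.hN h.hρ hj hok.ch_four (fun k z hz => hok.bd_ch hsub hz) (fun z hz => hok.bd_zero hz)
    (fun k z hz => (hok.bd_bd hz).1)
    (fun n hn k z hz => ⟨((hφ n hn).map_ch hz).1, ((hφ n hn).map_ch hz).2.1⟩) ?_ ?_ ?_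
    (fun w hw => (hok.bd_bd hw).2) ?_ cx_h3 ?_ hD.h2 ?_
  · intro n m hn hm hnm k z hz hb
    exact e1 n hn m hm _ _ _ (hφ m hm) (hφ n hn) (hφ _ hnm) k z hz hb
  · intro n hn hnN
    rw [(hφ n hnN.le).ltr_univ hok]
    exact e6 n hnN.le hn hnN _ _ hsub hall (hφ n hnN.le)
  · rw [(hφ 0 hN0).ltr_univ hok]
    exact e0 _ _ hsub hall (hφ 0 hN0)
  · obtain ⟨v, hv, hv0, hv1⟩ := e2
    refine ⟨sg v, Finsupp.single_mem_supported ℂ 1 ⟨hv, hv0⟩, Cx.aug_sg_of_dim hv0, ?_⟩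
    intro n hn z hz
    exact hv1 (f n) (φ n) (fun b hb => hfp n _ (hpos b hb)) (hφ n hn) z hz
  · have c0 : (C c).Ctrl (C c).N (fun y => up 1 (f 0 y)) r (deck ∘ₗ φ 0) := by
      refine cx_deck (hφ 0 hN0) fun b hb => ?_
      have h1 := (S.page_sub (hfp 0 _ (hpos b hb))).2.2
      have h2 := le_abs_self B₀
      linarith
    have c0' : (C c).Ctrl (C c).N (H 0) r (deck ∘ₗ φ 0) := by
      refine c0.mono Subset.rfl fun b hb => ?_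
      rw [(hH _ (hpos b hb).1 (hpos b hb).2.1).1, dist_self, zero_add]
    have c1' : (C c).Ctrl (C c).N (H 1) r (φ 1) := by
      refine (hφ 1 hN1).mono Subset.rfl fun b hb => ?_
      rw [(hH _ (hpos b hb).1 (hpos b hb).2.1).2.1, dist_self, zero_add]
    intro k z hz hb
    exact e3 _ _ _ hsub hpos c0' c1' k z hz hb
  · refine hD.h1 hc hok ?_
    rw [compl_compl]
    exact h.conn_tube hι hr (by linarith) (by linarith)

end Pool.Agent.Lib.MP_399f8e_an.Lk
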