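import Pool.Agent.Lib.MP_399f8e_an.Lk.ATop1
import Pool.Agent.Lib.MP_399f8e_an.Lk.AMono2
import Pool.Agent.Lib.MP_399f8e_an.Lk.AEst
import Pool.Agent.Lib.MP_399f8e_an.Lk.TMain

open Set Filter Topology Metric MeasureTheory
open scoped RealInnerProductSpace

noncomputable section

namespace Pool.Agent.Lib.MP_399f8e_an.Lk

open Rg

variable {W : S → E} {ψ g : ℝ → S → S} {K : ℝ → S} {K' : ℝ → E} {Z₁ Z₂ : E → E} {Ψ : T3 → S}
  {D : T3 → T3 →L[ℝ] E} {β : E → E →L[ℝ] ℝ} {L₁ T r₀ C₀ δ σ a b Cp : ℝ}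

namespace ATop2Aux

theorem LP_map {Z G : Type} [TopologicalSpace Z] [AddCommGroup G] {β : E → E →L[ℝ] ℝ} (χ : ℝ →+ G)
    {j : Z → S} {F : Z → ℝ} {z : Z} (h : LP β (AddMonoidHom.id ℝ) j F z) :
    LP β χ j (fun y => χ (F y)) z := by
  intro ρ f hf
  obtain ⟨c, hc⟩ := h ρ f hf
  refine ⟨χ c, hc.mono fun y hy => ?_⟩
  rw [← hy, map_sub]
  rfl

theorem cont_pol : Continuous pol := by
  unfold pol
  fun_prop

theorem pol_pi (t r : ℝ) : pol (t, (Real.pi, r)) = (t, (-r, 0)) := by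
  simp [pol]

theorem pol_ne {z : T3} (hz : 0 < z.2.2) : (pol z).2 ≠ 0 := by
  intro h
  have := (norm_pol z).2
  rw [h, norm_zero, abs_of_pos hz] at this
  linarith

theorem pol_lt {z : T3} {R : ℝ} (hz : 0 < z.2.2) (hR : z.2.2 < R) : ‖(pol z).2‖ < R := by
  have := (norm_pol z).1
  rw [abs_of_pos hz] at this
  linarith

theorem der_mer (ϱ α : ℝ) : HasDerivAt (fun α : ℝ => pol (0, (α, ϱ)))
    ((0 : ℝ), (-(ϱ * Real.sin α), ϱ * Real.cos α)) α := by
  unfold pol
  refine (hasDerivAt_const α (0 : ℝ)).prodMk (HasDerivAt.prodMk ?_ ?_)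
  · have := (Real.hasDerivAt_cos α).const_mul ϱ
    rw [mul_neg] at this
    exact this
  · exact (Real.hasDerivAt_sin α).const_mul ϱ

theorem cont_D (hT : PreTube K K' Z₁ Z₂ Ψ D T r₀ C₀) : ContinuousOn D {q : T3 | ‖q.2‖ < r₀} := by
  have hC : 0 ≤ C₀ := le_trans zero_le_one hT.C_one
  have : LipschitzOnWith ⟨C₀, hC⟩ D {q : T3 | ‖q.2‖ < r₀} := by
    refine LipschitzOnWith.of_dist_le_mul fun q hq q' hq' => ?_
    rw [dist_eq_norm, dist_eq_norm]
    exact hT.lipD q q' hq hq'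
  exact this.continuousOn

theorem cont_orb1 (hW : LF W ψ L₁) (x : S) : Continuous fun t => ψ t x :=
  hW.cont.comp (continuous_id.prodMk continuous_const)

theorem cont_int (hβ : Form K K' T β) (hW : LF W ψ L₁) (hK : ∀ t, K t = ψ t (K 0)) {x : S}
    (hx : x ∉ range K) : Continuous fun t => β (ψ t x) (W (ψ t x)) := by
  have h := hβ.cont_orb hW hK
  exact h.comp_continuous (f := fun t : ℝ => (x, t)) (continuous_const.prodMk continuous_id)
    fun t => ⟨hx, mem_univ _⟩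

theorem orbit {G : Type} [AddCommGroup G] {χ : ℝ →+ G} {θ : S → G} (hβ : Form K K' T β)
    (hW : LF W ψ L₁) (hK : ∀ t, K t = ψ t (K 0)) (hθ : ∀ x, x ∉ range K → LP β χ id θ x) {x : S}
    (hx : x ∉ range K) (t : ℝ) :
    θ (ψ t x) - θ x = χ (∫ s in (0 : ℝ)..t, β (ψ s x) (W (ψ s x))) := by
  have h := LP.curve (β := β) (χ := χ) (j := fun t => ψ t x) (v := fun t => W (ψ t x))
    (F := fun t => θ (ψ t x)) (hW.der x) (cont_int hβ hW hK hx)
    (fun t => hβ.prim _ (hW.notMem hK hx t))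
    (fun t => LP.comp (j := id) (F := θ) (i := fun t => ψ t x) (hθ _ (hW.notMem hK hx t))
      (cont_orb1 hW x).continuousAt) 0 t
  simpa only [hW.zero] using h

theorem Dl_add (hβ : Form K K' T β) (hW : LF W ψ L₁) (hK : ∀ t, K t = ψ t (K 0)) {x : S}
    (hx : x ∉ range K) (s t : ℝ) :
    Dl β W ψ σ x (s + t) = Dl β W ψ σ x s + Dl β W ψ σ (ψ s x) t := by
  have hc := cont_int hβ hW hK hx
  have h1 := intervalIntegral.integral_add_adjacent_intervals (μ := volume)
    (hc.intervalIntegrable 0 s) (hc.intervalIntegrable s (s + t))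
  have h2 := intervalIntegral.integral_comp_add_right (a := 0) (b := t)
    (fun u => β (ψ u x) (W (ψ u x))) s
  unfold Dl
  rw [← h1, mul_add]
  congr 2
  rw [zero_add, add_comm t s] at h2
  rw [← h2]
  simp only [hW.add]

theorem Dl_cont (hβ : Form K K' T β) (hW : LF W ψ L₁) (hK : ∀ t, K t = ψ t (K 0)) :
    ContinuousOn (fun z : S × ℝ => Dl β W ψ σ z.1 z.2) ((range K)ᶜ ×ˢ univ) := by
  have h := hβ.cont_orb hW hK
  have h1 : Continuous (Function.uncurry fun (x : ((range K)ᶜ : Set S)) (s : ℝ) =>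
      β (ψ s x) (W (ψ s x))) :=
    h.comp_continuous (f := fun z : ((range K)ᶜ : Set S) × ℝ => ((z.1 : S), z.2))
      ((continuous_subtype_val.comp continuous_fst).prodMk continuous_snd)
      fun z => ⟨z.1.2, mem_univ _⟩
  have h2 := intervalIntegral.continuous_parametric_primitive_of_continuous (μ := volume)
    (a₀ := 0) h1
  rw [continuousOn_iff_continuous_domRestrict]
  have h3 : Continuous fun z : (((range K)ᶜ ×ˢ univ : Set (S × ℝ))) =>
      ((⟨z.1.1, z.2.1⟩ : ((range K)ᶜ : Set S)), z.1.2) :=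
    ((continuous_fst.comp continuous_subtype_val).subtype_mk _).prodMk
      (continuous_snd.comp continuous_subtype_val)
  exact continuous_const.mul (h2.comp h3)

end ATop2Aux

/-- The curve `t ↦ Ψ (s + t, w)` is an integral curve (`LF.uniq_all`). -/
theorem PreTube.flow (hT : PreTube K K' Z₁ Z₂ Ψ D T r₀ C₀) (hW : LF W ψ L₁) (hδ : 4 * δ < r₀)
    (par : ∀ q : T3, ‖q.2‖ ≤ 4 * δ → W (Ψ q) = D q (1, 0)) (s t : ℝ) {w : ℝ × ℝ}
    (hw : ‖w‖ ≤ 4 * δ) : ψ t (Ψ (s, w)) = Ψ (s + t, w) := by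
  have hk : ∀ u : ℝ, HasDerivAt (fun u : ℝ => (Ψ (u, w) : E)) (W (Ψ (u, w))) u := by
    intro u
    rw [par (u, w) hw]
    exact (hT.fd (u, w) (lt_of_le_of_lt hw hδ)).comp_hasDerivAt u
      ((hasDerivAt_id u).prodMk (hasDerivAt_const u w))
  exact (hW.uniq_all (k := fun u => Ψ (u, w)) hk s t).symm

/-- Take `F, p, q` from `exists_polar`. `LP.curve` along `t ↦ (t, π, 2 δ)` gives
`σ q = Dl x₁ T > 0`, `x₁ = Ψ (0, (-2 δ, 0))`, and along `α ↦ (0, α, 7 δ / 2)` gives `p = merI`.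
`exists_theta` with `χ` the quotient map to `AddCircle p` gives `q ∈ p ℤ`, so `p ≠ 0`. With
`χ x = ((σ x / |p| : ℝ) : Ci)` it gives `θ`. `TopData` for `ψ' t = ψ (T t)`, `Ψ'` from `rescale`,
`Δ x t = Dl x (T t) / |p|`, `g' e = g (δ e)`, `N = ⌈a / |p|⌉₊`, `ρ = ⌈b / |p|⌉₊`; `Δθ` is `LP.curve`
along the orbit; the meridian is `γ t = Ψ (pol (0, ± 2 π t, 7 δ / 2))` with the sign of `σ p`, and its
lift is `σ F / |p|` plus a constant (`LP.diff` or `LP.curve`; `norm_pol` shows that it is outside the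
tube of radius two). `TopData.false`. -/
theorem raw_false (hW : LF W ψ L₁) (hT : PreTube K K' Z₁ Z₂ Ψ D T r₀ C₀) (hδ0 : 0 < δ)
    (hδ : 4 * δ < r₀) (ht : Thin K Ψ T (4 * δ))
    (par : ∀ q : T3, ‖q.2‖ ≤ 4 * δ → W (Ψ q) = D q (1, 0)) (hβ : Form K K' T β)
    (hg : Push ψ g Ψ δ) (hσ : |σ| = 1) (pos : ∀ x, x ∉ range K → 0 < Dl β W ψ σ x T)
    (per : ∀ x, x ∉ range K → ∀ t, 0 < t → ψ t x = x → a ≤ Dl β W ψ σ x t)
    (lon : Dl β W ψ σ (Ψ (0, (-2 * δ, 0))) T ≤ b) (mer : |merI β Ψ D (7 * δ / 2)| ≤ Cp)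
    (hb : 0 ≤ b) (h1 : 3 * Cp ≤ a) (h2 : 3 * Cp ≤ 2 * a - b) : False := by
  have hT0 : 0 < T := ht.T_pos
  have fl : ∀ (s t : ℝ) {w : ℝ × ℝ}, ‖w‖ ≤ 4 * δ → ψ t (Ψ (s, w)) = Ψ (s + t, w) :=
    fun s t _ hw => hT.flow hW hδ par s t hw
  have hK : ∀ t, K t = ψ t (K 0) := by
    intro t
    rw [← ht.core 0, fl 0 t (by rw [norm_zero]; positivity), zero_add, ht.core]
  obtain ⟨F, p, q, hF⟩ := ht.exists_polar hβ
  have hoff : ∀ z : T3, 0 < z.2.2 → z.2.2 < 4 * δ → Ψ (pol z) ∉ range K :=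
    fun z h0 hR => ht.notMem (ATop2Aux.pol_lt h0 hR) (ATop2Aux.pol_ne h0)
  -- the longitude
  have hn1 : ‖((-2 * δ, 0) : ℝ × ℝ)‖ ≤ 4 * δ := by
    rw [Prod.norm_def, norm_zero, Real.norm_eq_abs]
    exact max_le (by rw [abs_le]; constructor <;> linarith) (by positivity)
  have e1 : ∀ t : ℝ, Ψ (pol (t, (Real.pi, 2 * δ))) = ψ t (Ψ (0, (-2 * δ, 0))) := by
    intro t
    rw [fl 0 t hn1, zero_add, ATop2Aux.pol_pi, neg_mul]
  have hx₁ : Ψ (0, (-2 * δ, 0)) ∉ range K := by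
    have := hoff (0, (Real.pi, 2 * δ)) (by positivity) (by show 2 * δ < 4 * δ; linarith)
    rwa [e1, hW.zero] at this
  have hq : q = ∫ s in (0 : ℝ)..T, β (ψ s (Ψ (0, (-2 * δ, 0)))) (W (ψ s (Ψ (0, (-2 * δ, 0))))) := by
    have h := LP.curve (β := β) (χ := AddMonoidHom.id ℝ) (j := fun t => ψ t (Ψ (0, (-2 * δ, 0))))
      (v := fun t => W (ψ t (Ψ (0, (-2 * δ, 0))))) (F := fun t => F (t, (Real.pi, 2 * δ)))
      (hW.der _) (ATop2Aux.cont_int hβ hW hK hx₁) (fun t => hβ.prim _ (hW.notMem hK hx₁ t))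
      (fun t => by
        have h3 := LP.comp (i := fun t : ℝ => ((t, (Real.pi, 2 * δ)) : T3)) (z := t)
          (hF (t, (Real.pi, 2 * δ)) (by positivity) (by show 2 * δ < 4 * δ; linarith)).1
          (by fun_prop)
        simpa only [e1] using h3) 0 T
    have h4 := (hF (0, (Real.pi, 2 * δ)) (by positivity) (by show 2 * δ < 4 * δ; linarith)).2.1
    simp only [zero_add] at h4
    simp only [AddMonoidHom.id_apply] at h
    rw [← h, h4]
    ring
  have hq0 : q ≠ 0 := by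
    intro h0
    have := pos _ hx₁
    unfold Dl at this
    rw [← hq, h0, mul_zero] at this
    exact lt_irrefl _ this
  have hp0 : p ≠ 0 := fun h0 =>
    hq0 (ht.exists_theta hβ hF (AddMonoidHom.id ℝ) h0).1
  have hpp : 0 < |p| := abs_pos.2 hp0
  -- the meridian
  obtain ⟨ϱ, hϱ⟩ : ∃ ϱ : ℝ, ϱ = 7 * δ / 2 := ⟨_, rfl⟩
  rw [← hϱ] at mer
  have r0 : 0 < ϱ := by linarith
  have r4 : ϱ < 4 * δ := by linarith
  have hm : ∀ α : ℝ, ‖(pol (0, (α, ϱ))).2‖ < 4 * δ :=
    fun α => ATop2Aux.pol_lt (z := (0, (α, ϱ))) r0 r4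
  have hci : Continuous fun α : ℝ => pol (0, (α, ϱ)) :=
    ATop2Aux.cont_pol.comp (f := fun α : ℝ => (((0 : ℝ), (α, ϱ)) : T3)) (by fun_prop)
  have hcj : Continuous fun α : ℝ => Ψ (pol (0, (α, ϱ))) :=
    ht.cont.comp_continuous hci hm
  have hLm : ∀ α : ℝ, LP β (AddMonoidHom.id ℝ) (fun α : ℝ => Ψ (pol (0, (α, ϱ))))
      (fun α : ℝ => F (0, (α, ϱ))) α := fun α =>
    LP.comp (j := fun z : T3 => Ψ (pol z)) (F := F)
      (i := fun α : ℝ => (((0 : ℝ), (α, ϱ)) : T3)) (z := α)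
      (hF (0, (α, ϱ)) r0 r4).1 (by fun_prop)
  have hPm : ∀ α : ℝ, ∃ ρ f, IsPrim β (Ψ (pol (0, (α, ϱ)))) ρ f :=
    fun α => hβ.prim _ (hoff (0, (α, ϱ)) r0 r4)
  have hp : p = merI β Ψ D (ϱ) := by
    have h := LP.curve (β := β) (χ := AddMonoidHom.id ℝ)
      (j := fun α : ℝ => Ψ (pol (0, (α, ϱ))))
      (v := fun α : ℝ => D (pol (0, (α, ϱ)))
        (0, (-(ϱ * Real.sin α), ϱ * Real.cos α)))
      (F := fun α : ℝ => F (0, (α, ϱ)))
      (fun α => by
        have h3 := HasFDerivAt.comp_hasDerivAt (f := fun α : ℝ => pol (0, (α, ϱ))) α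
          (hT.fd (pol (0, (α, ϱ))) (lt_trans (hm α) hδ)) (ATop2Aux.der_mer ϱ α)
        exact h3)
      ((hβ.cont.comp_continuous hcj fun α => hoff (0, (α, ϱ)) r0 r4).clm_apply
        (((ATop2Aux.cont_D hT).comp_continuous hci fun α => lt_trans (hm α) hδ).clm_apply
          (by fun_prop))) hPm hLm 0 (2 * Real.pi)
    have h4 := (hF (0, (0, ϱ)) r0 r4).2.2
    simp only [zero_add] at h4
    simp only [AddMonoidHom.id_apply] at h
    unfold merI
    rw [← h, h4]
    ring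
  have hpC : |p| ≤ Cp := hp ▸ mer
  -- the sign
  obtain ⟨ε, hε, hεp⟩ : ∃ ε : ℝ, (ε = 1 ∨ ε = -1) ∧ σ / |p| * p = ε := by
    refine ⟨_, ?_, rfl⟩
    apply eq_or_eq_neg_of_abs_eq
    rw [abs_mul, abs_div, abs_abs, hσ]
    field_simp
  have hε2 : ε * ε = 1 := by rcases hε with h | h <;> rw [h] <;> norm_num
  -- the circle valued function
  let χ : ℝ →+ Ci := (QuotientAddGroup.mk' _).comp (AddMonoidHom.mulLeft (σ / |p|))
  have hχ : ∀ x : ℝ, χ x = ((σ / |p| * x : ℝ) : Ci) := fun _ => rfl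
  have hχc : Continuous χ := by
    show Continuous fun x : ℝ => ((σ / |p| * x : ℝ) : Ci)
    exact (AddCircle.continuous_mk' 1).comp (continuous_const.mul continuous_id)
  have hχp : χ p = 0 := by
    rw [hχ, hεp]
    rcases hε with h | h
    · rw [h]; exact AddCircle.coe_period 1
    · rw [h, AddCircle.coe_neg, AddCircle.coe_period, neg_zero]
  obtain ⟨-, θ, hθ⟩ := ht.exists_theta hβ hF χ hχp
  obtain ⟨Ψ', hΨ, hΨc, hΨi, hΨo, hΨ0⟩ := ht.rescale
  have hDl : ∀ x t, Dl β W ψ σ x t / |p| =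
      σ / |p| * ∫ s in (0 : ℝ)..t, β (ψ s x) (W (ψ s x)) := by
    intro x t
    unfold Dl
    ring
  have hsm : ∀ (w : ℝ × ℝ) (r : ℝ), ‖w‖ ≤ r → ‖δ • w‖ ≤ r * δ := by
    intro w r hw
    rw [norm_smul, Real.norm_eq_abs, abs_of_pos hδ0, mul_comm]
    exact mul_le_mul_of_nonneg_right hw hδ0.le
  have ha : 3 ≤ a / |p| := by
    rw [le_div_iff₀ hpp]
    linarith
  have key : TopData (fun t x => ψ (T * t) x) Ψ' θ (fun x t => Dl β W ψ σ x (T * t) / |p|)
      (fun e x => g (δ * e) x) ⌈a / |p|⌉₊ ⌈b / |p|⌉₊ := by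
    refine
      { cont := hW.cont.comp ((continuous_const.mul continuous_fst).prodMk continuous_snd)
        zero := fun x => by simp only [mul_zero, hW.zero]
        add := fun s t x => by simp only [mul_add, hW.add]
        Ψc := hΨc
        Ψinj := hΨi
        Ψopn := hΨo
        par := ?_
        θc := ?_
        Δc := ?_
        Δθ := ?_
        Δadd := ?_
        pos := ?_
        per := ?_
        lon := ?_
        mer := ?_
        gc := hg.cont.comp ((continuous_const.mul continuous_fst).prodMk continuous_snd)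
        g0 := fun x => by simp only [mul_zero, hg.zero]
        gpar := ?_
        gfree := ?_
        hN := ?_
        hρ := ?_ }
    · intro s w t hw
      obtain ⟨s₀, rfl⟩ := QuotientAddGroup.mk_surjective s
      rw [← AddCircle.coe_add, hΨ, hΨ, fl _ _ (hsm w 4 hw.le), mul_add]
    · rw [hΨ0]
      intro x hx
      exact (LP.continuousAt hχc continuousAt_id (hβ.prim x hx) (hθ x hx)).continuousWithinAt
    · rw [hΨ0]
      refine ContinuousOn.div_const ?_ _
      exact (ATop2Aux.Dl_cont (σ := σ) hβ hW hK).comp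
        (f := fun z : S × ℝ => (z.1, T * z.2))
        (continuous_fst.prodMk (continuous_const.mul continuous_snd)).continuousOn
        fun z hz => ⟨hz.1, mem_univ _⟩
    · rw [hΨ0]
      intro x hx t
      have h := ATop2Aux.orbit hβ hW hK hθ hx (T * t)
      rw [hχ, ← hDl] at h
      rw [← h]
      abel
    · rw [hΨ0]
      intro x hx s t
      simp only [mul_add, ATop2Aux.Dl_add hβ hW hK hx, add_div]
    · rw [hΨ0]
      intro x hx
      simp only [mul_one]
      exact div_pos (pos x hx) hpp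
    · rw [hΨ0]
      intro x hx t h0 hfix
      have h3 := per x hx (T * t) (mul_pos hT0 h0) hfix
      have h4 : (⌈a / |p|⌉₊ : ℝ) < a / |p| + 1 := Nat.ceil_lt_add_one (by linarith)
      have h5 : a / |p| ≤ Dl β W ψ σ x (T * t) / |p| := div_le_div_of_nonneg_right h3 hpp.le
      linarith
    · have h3 : Ψ' (0, (-2, 0)) = Ψ (0, (-2 * δ, 0)) := by
        have := hΨ 0 (-2, 0)
        rw [AddCircle.coe_zero] at this
        rw [this]
        congr 1
        simp [mul_comm]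
      simp only [h3, mul_one]
      exact le_trans (div_le_div_of_nonneg_right lon hpp.le) (Nat.le_ceil _)
    · have hd := fun α : ℝ => LP.diff (β := β) (χ := χ) (A := univ) isPreconnected_univ
        (j := fun α : ℝ => Ψ (pol (0, (α, ϱ))))
        (F := fun α : ℝ => θ (Ψ (pol (0, (α, ϱ)))))
        (F' := fun α : ℝ => χ (F (0, (α, ϱ)))) (fun α _ => hPm α)
        (fun α _ => LP.comp (j := id) (F := θ) (i := fun α : ℝ => Ψ (pol (0, (α, ϱ))))
          (hθ _ (hoff (0, (α, ϱ)) r0 r4)) hcj.continuousAt)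
        (fun α _ => ATop2Aux.LP_map χ (hLm α)) (mem_univ α) (mem_univ 0)
      obtain ⟨c, hc⟩ := QuotientAddGroup.mk_surjective
        (θ (Ψ (pol (0, (0, ϱ)))) - χ (F (0, (0, ϱ))))
      have hFc : Continuous fun α : ℝ => F (0, (α, ϱ)) :=
        continuous_iff_continuousAt.2 fun α =>
          LP.continuousAt (χ := AddMonoidHom.id ℝ) continuous_id hcj.continuousAt (hPm α) (hLm α)
      have hFp : ∀ α : ℝ, F (0, (α + 2 * Real.pi, ϱ)) = F (0, (α, ϱ)) + p :=
        fun α => (hF (0, (α, ϱ)) r0 r4).2.2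
      have hFε : ∀ α : ℝ,
          F (0, (α + ε * (2 * Real.pi), ϱ)) = F (0, (α, ϱ)) + ε * p := by
        intro α
        rcases hε with h | h
        · rw [h, one_mul, one_mul, hFp]
        · have := hFp (α + ε * (2 * Real.pi))
          rw [h] at this ⊢
          rw [show α + -1 * (2 * Real.pi) + 2 * Real.pi = α by ring] at this
          linarith
      have hpε : ∀ α : ℝ,
          pol (0, (α + ε * (2 * Real.pi), ϱ)) = pol (0, (α, ϱ)) := by
        intro α
        rcases hε with h | h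
        · simp only [h, one_mul, pol, Real.cos_add_two_pi, Real.sin_add_two_pi]
        · simp only [h, neg_mul, one_mul, pol, ← sub_eq_add_neg, Real.cos_sub_two_pi,
            Real.sin_sub_two_pi]
      refine ⟨fun t => Ψ (pol (0, (ε * (2 * Real.pi) * t, ϱ))),
        fun t => σ / |p| * F (0, (ε * (2 * Real.pi) * t, ϱ)) + c,
        hcj.comp (continuous_const.mul continuous_id),
        (continuous_const.mul (hFc.comp (continuous_const.mul continuous_id))).add
          continuous_const, fun t => ⟨?_, ?_, ?_, ?_⟩⟩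
      · rintro ⟨⟨s, w⟩, ⟨-, hw⟩, hsw⟩
        obtain ⟨s₀, rfl⟩ := QuotientAddGroup.mk_surjective s
        rw [hΨ] at hsw
        have hw2 := hsm w 2 (mem_closedBall_zero_iff.1 hw)
        have h3 := (ht.inj (T * s₀, δ • w) (by show ‖δ • w‖ < 4 * δ; linarith) _ (hm _) hsw).1
        have h4 := (norm_pol (0, (ε * (2 * Real.pi) * t, ϱ))).2
        rw [h3, abs_of_pos r0] at h4
        have h5 : ‖((T * s₀, δ • w) : T3).2‖ = ‖δ • w‖ := rfl
        linarith
      · have h3 := hd (ε * (2 * Real.pi) * t)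
        rw [← hc] at h3
        rw [AddCircle.coe_add, ← hχ]
        rw [sub_eq_iff_eq_add] at h3
        rw [h3]
        exact add_comm _ _
      · simp only [mul_add, mul_one, hpε]
      · simp only [mul_add, mul_one, hFε]
        have : σ / |p| * (ε * p) = 1 := by
          rw [mul_left_comm, hεp, hε2]
        rw [this]
        ring
    · intro s w e hw he
      obtain ⟨s₀, rfl⟩ := QuotientAddGroup.mk_surjective s
      have he' : δ * e ∈ Icc 0 (δ / 2) :=
        ⟨mul_nonneg hδ0.le he.1, by nlinarith [he.2]⟩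
      rw [hΨ, hΨ, hg.par _ _ _ (hsm w 3 hw) he']
      congr 2
      simp
    · obtain ⟨e₀, t₀, he₀, ht₀, hfree⟩ := hg.free
      refine ⟨e₀ / δ, t₀ / T, by positivity, by positivity, fun e he t htt x => ?_⟩
      refine hfree (δ * e) ⟨mul_pos hδ0 he.1, ?_⟩ (T * t) ?_ x
      · have := he.2
        rwa [le_div_iff₀ hδ0, mul_comm] at this
      · rw [le_div_iff₀ hT0, mul_comm] at htt
        rwa [abs_mul, abs_of_pos hT0]
    · have : ((3 : ℕ) : ℝ) ≤ (⌈a / |p|⌉₊ : ℝ) := le_trans (by exact_mod_cast ha) (Nat.le_ceil _)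
      exact_mod_cast this
    · have h3 : (⌈b / |p|⌉₊ : ℝ) < b / |p| + 1 := Nat.ceil_lt_add_one (div_nonneg hb hpp.le)
      have h4 : a / |p| ≤ (⌈a / |p|⌉₊ : ℝ) := Nat.le_ceil _
      have h5 : 3 ≤ (2 * a - b) / |p| := by
        rw [le_div_iff₀ hpp]
        linarith
      have h6 : (2 * a - b) / |p| = 2 * (a / |p|) - b / |p| := by ring
      have : ((⌈b / |p|⌉₊ + 2 : ℕ) : ℝ) ≤ ((2 * ⌈a / |p|⌉₊ : ℕ) : ℝ) := by
        push_cast
        linarith
      exact_mod_cast this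
  obtain ⟨ι, hι, hr⟩ := exists_iota (Ψ' (0, 0))
  have := connected_S
  exact key.false hι hr

end Pool.Agent.Lib.MP_399f8e_an.Lk
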