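import Pool.Agent.Lib.MP_399f8e_an.Lk.AKer
import Pool.Agent.Lib.MP_399f8e_an.Lk.AFlow1
import Pool.Agent.Lib.MP_399f8e_an.Lk.AFrame0

open Set Filter Topology Metric MeasureTheory
open scoped RealInnerProductSpace

noncomputable section

namespace Pool.Agent.Lib.MP_399f8e_an.Lk

open Rg

variable {X : S → E} {φ : ℝ → S → S} {m M L m₀ : ℝ} {Z₁ Z₂ : E → E}

namespace ATube1Aux

/-- the point before normalisation -/
def pre (Z₁ Z₂ : E → E) (p : E × (ℝ × ℝ)) : E := p.1 + p.2.1 • Z₁ p.1 + p.2.2 • Z₂ p.1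

/-- the normalised point -/
def nor (Z₁ Z₂ : E → E) (p : E × (ℝ × ℝ)) : E := ‖pre Z₁ Z₂ p‖⁻¹ • pre Z₁ Z₂ p

/-- the derivative of the parametrisation -/
def jac (v : E) : T3 →L[ℝ] E × (ℝ × ℝ) :=
  ((ContinuousLinearMap.fst ℝ ℝ (ℝ × ℝ)).smulRight v).prod (ContinuousLinearMap.snd ℝ ℝ (ℝ × ℝ))

theorem jac_apply (v : E) (q : T3) : jac v q = (q.1 • v, q.2) := rfl

theorem jac_le {v : E} {B : ℝ} (hv : ‖v‖ ≤ B) (hB : 1 ≤ B) : ‖jac v‖ ≤ B := by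
  refine ContinuousLinearMap.opNorm_le_bound _ (by linarith) fun q => ?_
  rw [jac_apply]
  have h1 := norm_fst_le q
  have h2 := norm_snd_le q
  have h3 := norm_nonneg q
  refine norm_prod_le_iff.2 ⟨?_, by nlinarith⟩
  rw [norm_smul, mul_comm]
  exact mul_le_mul hv h1 (norm_nonneg _) (by linarith)

theorem jac_sub (v v' : E) : ‖jac v - jac v'‖ ≤ ‖v - v'‖ := by
  refine ContinuousLinearMap.opNorm_le_bound _ (norm_nonneg _) fun q => ?_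
  rw [sub_apply, jac_apply, jac_apply, Prod.mk_sub_mk, sub_self, ← smul_sub]
  refine norm_prod_le_iff.2 ⟨?_, by rw [norm_zero]; positivity⟩
  rw [norm_smul, mul_comm]
  exact mul_le_mul_of_nonneg_left (norm_fst_le q) (norm_nonneg _)

theorem pre_ne (hZ : Frame2 X Z₁ Z₂ m₀) {p : E × (ℝ × ℝ)} (hp : p.1 ≠ 0) : pre Z₁ Z₂ p ≠ 0 := by
  intro h
  have : ⟪p.1, pre Z₁ Z₂ p⟫ = ⟪p.1, p.1⟫ := by
    simp only [pre, inner_add_right, inner_smul_right, hZ.p1, hZ.p2]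
    ring
  rw [h, inner_zero_right] at this
  exact hp (inner_self_eq_zero.1 this.symm)

theorem pre_c2 (hZ : Frame2 X Z₁ Z₂ m₀) : ContDiff ℝ 2 (pre Z₁ Z₂) :=
  (contDiff_fst.add (contDiff_snd.fst.smul (hZ.c1.comp contDiff_fst))).add
    (contDiff_snd.snd.smul (hZ.c2.comp contDiff_fst))

theorem nor_c2 (hZ : Frame2 X Z₁ Z₂ m₀) {p : E × (ℝ × ℝ)} (hp : p.1 ≠ 0) :
    ContDiffAt ℝ 2 (nor Z₁ Z₂) p :=
  (((pre_c2 hZ).contDiffAt.norm ℝ (pre_ne hZ hp)).inv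
    (norm_ne_zero_iff.2 (pre_ne hZ hp))).smul (pre_c2 hZ).contDiffAt

theorem nor_core (hZ : Frame2 X Z₁ Z₂ m₀) (x : S) {u : E} (hu : ⟪(x : E), u⟫ = 0) (w : ℝ × ℝ) :
    fderiv ℝ (nor Z₁ Z₂) (x, 0) (u, w) = u + w.1 • Z₁ x + w.2 • Z₂ x := by
  have hx : ‖(x : E)‖ = 1 := norm_coe x
  have e0 : pre Z₁ Z₂ (x, 0) = x := by simp [pre]
  have f1 : HasFDerivAt (fun p : E × (ℝ × ℝ) => p.1) _ ((x : E), 0) :=
    hasFDerivAt_fst (𝕜 := ℝ)
  have f2 : HasFDerivAt (fun p : E × (ℝ × ℝ) => p.2) _ ((x : E), 0) :=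
    hasFDerivAt_snd (𝕜 := ℝ)
  have z1 := ((hZ.c1.differentiable (by simp) x).hasFDerivAt).comp ((x : E), (0 : ℝ × ℝ)) f1
  have z2 := ((hZ.c2.differentiable (by simp) x).hasFDerivAt).comp ((x : E), (0 : ℝ × ℝ)) f1
  have h1 : HasFDerivAt (pre Z₁ Z₂) _ ((x : E), 0) :=
    (f1.add (f2.fst.smul z1)).add (f2.snd.smul z2)
  have h2 := h1.norm_sq.sqrt (by rw [e0, hx]; norm_num)
  simp only [Real.sqrt_sq (norm_nonneg _)] at h2
  have h3 := (hasDerivAt_inv (x := ‖pre Z₁ Z₂ (x, 0)‖) (by rw [e0, hx]; norm_num)).comp_hasFDerivAt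
    ((x : E), (0 : ℝ × ℝ)) h2
  have h4 : HasFDerivAt (nor Z₁ Z₂) _ ((x : E), 0) := h3.smul h1
  rw [h4.fderiv]
  simp [e0, hZ.p1, hZ.p2, hu]

theorem loop_perp {K : ℝ → S} {K' : ℝ → E} {T Λ : ℝ} (h : Loop K K' T Λ) (s : ℝ) :
    ⟪(K s : E), K' s⟫ = 0 := by
  have h1 := (h.der s).norm_sq
  simp only [norm_coe] at h1
  have h2 := h1.unique (hasDerivAt_const s _)
  linarith

end ATube1Aux

open ATube1Aux

/-- `Fr.frame`. -/
theorem Base.exists_frame2 (hB : Base X φ m M L) : ∃ Z₁ Z₂ m₀, Frame2 X Z₁ Z₂ m₀ := by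
  obtain ⟨Z₁, Z₂, h1, h2, h3, h4, m₀, h5, h6⟩ := Fr.frame X hB.toLF.contW hB.perp fun x hx => by
    have := hB.low x
    rw [hx, norm_zero] at this
    exact absurd hB.m_pos (not_lt.2 this)
  exact ⟨Z₁, Z₂, m₀, contDiff_infty.1 h1 2, contDiff_infty.1 h2 2,
    h3, h4, h5, h6⟩

/-- `Γ (x, w) = ‖a‖⁻¹ • a`, `a = x + w.1 • Z₁ x + w.2 • Z₂ x`, is twice continuously differentiable
near the compact set `sphere ×ˢ closedBall 0 r₀` when `r₀ (‖Z₁‖ + ‖Z₂‖) ≤ 1 / 2`; so its derivative is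
bounded and Lipschitz there (`LocallyLipschitzOn.exists_lipschitzOnWith_of_compact`).
`Ψ q = N (a (K q.1, q.2))`, `D q = fderiv Γ (K q.1, q.2) ∘ ((s, w) ↦ (s • K' q.1, w))`. At `w = 0` the
derivative of the normalisation is the projection `v ↦ v - ⟪x, v⟫ • x`, the identity on tangent vectors
(`⟪K s, K' s⟫ = 0`). `lip` by the mean value inequality on the convex strip. -/
theorem Frame2.exists_preTube (hZ : Frame2 X Z₁ Z₂ m₀) (Λ M' : ℝ) :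
    ∃ r₀ C₀ : ℝ, ∀ (K : ℝ → S) (K' : ℝ → E) (T : ℝ), Loop K K' T Λ → (∀ t, ‖K' t‖ ≤ M') →
      ∃ Ψ D, PreTube K K' Z₁ Z₂ Ψ D T r₀ C₀ := by
  have hK : IsCompact (sphere (0 : E) 1 ×ˢ closedBall (0 : ℝ × ℝ) 1) :=
    (isCompact_sphere _ _).prod (isCompact_closedBall _ _)
  have hG : ∀ p ∈ sphere (0 : E) 1 ×ˢ closedBall (0 : ℝ × ℝ) 1,
      ContDiffAt ℝ 1 (fderiv ℝ (nor Z₁ Z₂)) p := fun p hp =>
    (nor_c2 hZ (ne_zero_of_mem_unit_sphere ⟨p.1, hp.1⟩)).fderiv_right (by norm_num)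
  obtain ⟨B, hB⟩ := hK.exists_bound_of_continuousOn
    fun p hp => (hG p hp).continuousAt.continuousWithinAt
  obtain ⟨Lp, hLp⟩ := LocallyLipschitzOn.exists_lipschitzOnWith_of_compact hK
    (f := fderiv ℝ (nor Z₁ Z₂)) fun p hp => by
      obtain ⟨k, t, ht, hk⟩ := (hG p hp).exists_lipschitzOnWith
      exact ⟨k, t, mem_nhdsWithin_of_mem_nhds ht, hk⟩
  set M₁ : ℝ := max M' 1 with hM₁
  have hM₁1 : 1 ≤ M₁ := le_max_right _ _
  have hLp0 : (0 : ℝ) ≤ Lp := Lp.2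
  have a1 : 0 ≤ |B| * M₁ := by positivity
  have a2 : 0 ≤ Lp * M₁ * M₁ := by positivity
  have a3 : 0 ≤ |B| * |Λ| := by positivity
  refine ⟨1, 1 + |B| * M₁ + Lp * M₁ * M₁ + |B| * |Λ|, fun K K' T hL hM => ?_⟩
  have hM' : ∀ t, ‖K' t‖ ≤ M₁ := fun t => (hM t).trans (le_max_left _ _)
  have hmem : ∀ q : T3, ‖q.2‖ < 1 →
      ((K q.1 : E), q.2) ∈ sphere (0 : E) 1 ×ˢ closedBall (0 : ℝ × ℝ) 1 := fun q hq =>
    ⟨(K q.1).2, mem_closedBall_zero_iff.2 hq.le⟩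
  have hco : ∀ q : T3, (N (pre Z₁ Z₂ (K q.1, q.2)) : E) = nor Z₁ Z₂ (K q.1, q.2) := fun q =>
    coe_N (pre_ne hZ (ne_zero_of_mem_unit_sphere (K q.1)))
  have hfd : ∀ q : T3, HasFDerivAt (fun q : T3 => (N (pre Z₁ Z₂ (K q.1, q.2)) : E))
      ((fderiv ℝ (nor Z₁ Z₂) (K q.1, q.2)).comp (jac (K' q.1))) q := fun q => by
    simp only [hco]
    have h1 : HasFDerivAt (fun q : T3 => ((K q.1 : E), q.2)) (jac (K' q.1)) q := by
      have h2 := (hL.der q.1).hasFDerivAt.comp q (hasFDerivAt_fst (𝕜 := ℝ) (p := q))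
      refine (h2.prodMk hasFDerivAt_snd).congr_fderiv ?_
      ext <;> simp [jac]
    exact ((nor_c2 hZ (p := (K q.1, q.2)) (ne_zero_of_mem_unit_sphere (K q.1))).differentiableAt
      (by simp)).hasFDerivAt.comp q h1
  have hbd : ∀ q : T3, ‖q.2‖ < 1 →
      ‖(fderiv ℝ (nor Z₁ Z₂) (K q.1, q.2)).comp (jac (K' q.1))‖
        ≤ 1 + |B| * M₁ + Lp * M₁ * M₁ + |B| * |Λ| := fun q hq => by
    have h1 := mul_le_mul ((hB _ (hmem q hq)).trans (le_abs_self _)) (jac_le (hM' q.1) hM₁1)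
      (norm_nonneg _) (abs_nonneg _)
    have h2 := (fderiv ℝ (nor Z₁ Z₂) (K q.1, q.2)).opNorm_comp_le (jac (K' q.1))
    linarith
  refine ⟨fun q => N (pre Z₁ Z₂ (K q.1, q.2)),
    fun q => (fderiv ℝ (nor Z₁ Z₂) (K q.1, q.2)).comp (jac (K' q.1)),
    one_pos, by linarith, fun s => ?_, fun s v => ?_, fun s w => ?_, fun s w => ?_,
    fun q _ => hfd q, hbd, fun q q' hq hq' => ?_, fun q q' hq hq' => ?_⟩
  · simp [pre, N_coe]
  · rw [ContinuousLinearMap.comp_apply, jac_apply]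
    exact nor_core hZ (K s) (by rw [inner_smul_right, loop_perp hL, mul_zero]) v.2
  · simp only [hL.per]
  · simp only [hL.per, hL.per']
  · have b1 : |q.1 - q'.1| ≤ ‖q - q'‖ := norm_fst_le (q - q')
    have b2 : ‖q.2 - q'.2‖ ≤ ‖q - q'‖ := norm_snd_le (q - q')
    have b0 := norm_nonneg (q - q')
    have b3 : ‖(K q.1 : E) - K q'.1‖ ≤ M₁ * ‖q.1 - q'.1‖ :=
      convex_univ.norm_image_sub_le_of_norm_hasDerivWithin_le (f := fun t => (K t : E)) (f' := K')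
        (fun t _ => (hL.der t).hasDerivWithinAt) (fun t _ => hM' t) trivial trivial
    have b4 : ‖((K q.1 : E), q.2) - ((K q'.1 : E), q'.2)‖ ≤ M₁ * ‖q - q'‖ :=
      norm_prod_le_iff.2 ⟨b3.trans (mul_le_mul_of_nonneg_left b1 (by linarith)),
        b2.trans (by nlinarith)⟩
    have b5 := (hLp.norm_sub_le (hmem q hq) (hmem q' hq')).trans
      (mul_le_mul_of_nonneg_left b4 hLp0)
    have b6 : ‖jac (K' q.1) - jac (K' q'.1)‖ ≤ |Λ| * ‖q - q'‖ :=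
      (jac_sub _ _).trans ((hL.lip _ _).trans
        (mul_le_mul (le_abs_self _) b1 (abs_nonneg _) (abs_nonneg _)))
    have e : (fderiv ℝ (nor Z₁ Z₂) (K q.1, q.2)).comp (jac (K' q.1))
        - (fderiv ℝ (nor Z₁ Z₂) (K q'.1, q'.2)).comp (jac (K' q'.1))
        = (fderiv ℝ (nor Z₁ Z₂) (K q.1, q.2) - fderiv ℝ (nor Z₁ Z₂) (K q'.1, q'.2)).comp
          (jac (K' q.1)) + (fderiv ℝ (nor Z₁ Z₂) (K q'.1, q'.2)).comp
            (jac (K' q.1) - jac (K' q'.1)) := by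
      rw [ContinuousLinearMap.sub_comp, ContinuousLinearMap.comp_sub]; abel
    have c1 := (ContinuousLinearMap.opNorm_comp_le _ _).trans
      (mul_le_mul b5 (jac_le (hM' q.1) hM₁1) (norm_nonneg _) (by positivity))
    have c2 := (ContinuousLinearMap.opNorm_comp_le _ _).trans
      (mul_le_mul ((hB _ (hmem q' hq')).trans (le_abs_self _)) b6 (norm_nonneg _) (abs_nonneg _))
    simp only []
    rw [e]
    refine (norm_add_le _ _).trans ?_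
    nlinarith [mul_nonneg a1 b0]
  · have hc : Convex ℝ {q : T3 | ‖q.2‖ < 1} := by
      have := (convex_ball (0 : ℝ × ℝ) 1).linear_preimage (LinearMap.snd ℝ ℝ (ℝ × ℝ))
      simpa [preimage] using this
    exact hc.norm_image_sub_le_of_norm_hasFDerivWithin_le
      (fun q _ => (hfd q).hasFDerivWithinAt) hbd hq' hq

end Pool.Agent.Lib.MP_399f8e_an.Lk
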