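import Pool.Agent.Lib.MP_399f8e_an.Lk.TDefs

open Set Filter Topology Metric

noncomputable section

namespace Pool.Agent.Lib.MP_399f8e_an.Lk

namespace TAlg1Aux

open Polynomial

/-- The polynomial `∏ (1 - l t)`. -/
def E (s : Multiset ℂ) : ℂ[X] := (s.map fun l => (1 - C l * X : ℂ[X])).prod

theorem E_cons (a : ℂ) (s : Multiset ℂ) : E (a ::ₘ s) = (1 - C a * X) * E s := by
  simp [E]

theorem natDegree_lin (a : ℂ) : (1 - C a * X : ℂ[X]).natDegree ≤ 1 := by
  refine (natDegree_sub_le _ _).trans (max_le (by simp) ?_)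
  exact (natDegree_C_mul_le _ _).trans natDegree_X_le

theorem natDegree_E (s : Multiset ℂ) : (E s).natDegree ≤ Multiset.card s := by
  induction s using Multiset.induction_on with
  | empty => simp [E]
  | cons a s ih =>
    rw [E_cons, Multiset.card_cons]
    refine natDegree_mul_le.trans ?_
    have := natDegree_lin a
    omega

theorem coeff_zero_E (s : Multiset ℂ) : (E s).coeff 0 = 1 := by
  induction s using Multiset.induction_on with
  | empty => simp [E]
  | cons a s ih => rw [E_cons, mul_coeff_zero, ih]; simp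

theorem reflect_E (s : Multiset ℂ) (hs : ∀ l ∈ s, l ≠ 0) :
    reflect (Multiset.card s) (E s) = C (s.map fun l => -l).prod * E (s.map fun l => l⁻¹) := by
  induction s using Multiset.induction_on with
  | empty => simp [E]
  | cons a s ih =>
    have ha : a ≠ 0 := hs a (Multiset.mem_cons_self a s)
    have h1 : reflect 1 (1 - C a * X : ℂ[X]) = C (-a) * (1 - C a⁻¹ * X) := by
      have e1 : (1 - C a * X : ℂ[X]) = C 1 * X ^ 0 + C (-a) * X ^ 1 := by simp [sub_eq_add_neg]
      rw [e1, reflect_add, reflect_C_mul_X_pow, reflect_C_mul_X_pow, revAt_le (by norm_num),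
        revAt_le (by norm_num), mul_sub, ← mul_assoc, ← C_mul, neg_mul, mul_inv_cancel₀ ha]
      simp [add_comm]
    rw [E_cons, Multiset.card_cons, add_comm (Multiset.card s) 1,
      reflect_mul _ _ (natDegree_lin a) (natDegree_E s),
      ih fun l hl => hs l (Multiset.mem_cons_of_mem hl), h1, Multiset.map_cons, Multiset.map_cons,
      Multiset.prod_cons, E_cons, C_mul]
    ring

/-- The series of power sums. -/
def P (s : Multiset ℂ) : PowerSeries ℂ := PowerSeries.mk fun n => (s.map fun l => l ^ (n + 1)).sum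

theorem geom (a : ℂ) : ((1 - C a * X : ℂ[X]) : PowerSeries ℂ) *
    (PowerSeries.mk fun n => a ^ (n + 1)) = PowerSeries.C a := by
  have e : ((1 - C a * X : ℂ[X]) : PowerSeries ℂ) = 1 - PowerSeries.C a * PowerSeries.X := by
    simp
  rw [e, sub_mul, one_mul, mul_assoc]
  ext n
  rcases n with _ | n
  · simp
  · simp [PowerSeries.coeff_succ_X_mul, pow_succ, mul_comm]

theorem deriv_E (s : Multiset ℂ) :
    ((derivative (E s) : ℂ[X]) : PowerSeries ℂ) = -((E s : ℂ[X]) : PowerSeries ℂ) * P s := by
  induction s using Multiset.induction_on with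
  | empty =>
    have : P 0 = 0 := by ext n; simp [P]
    simp [E, this]
  | cons a s ih =>
    have hP : P (a ::ₘ s) = (PowerSeries.mk fun n => a ^ (n + 1)) + P s := by
      ext n; simp [P]
    have hd : derivative (1 - C a * X : ℂ[X]) = -C a := by simp
    rw [E_cons, derivative_mul, hd, hP, Polynomial.coe_add, Polynomial.coe_mul, Polynomial.coe_mul,
      Polynomial.coe_mul, ih, Polynomial.coe_neg, Polynomial.coe_C, ← geom a]
    ring

theorem rec_E (s : Multiset ℂ) (N : ℕ)
    (h : ∀ n, 1 ≤ n → n < N → (s.map fun l => l ^ n).sum = 1) (k : ℕ) (hk : k + 1 < N) :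
    ((k : ℂ) + 1) * (E s).coeff (k + 1) = ((k : ℂ) - 1) * (E s).coeff k := by
  have h1 : PowerSeries.X ^ (k + 1) ∣ (1 - PowerSeries.X) * P s - 1 := by
    rw [PowerSeries.X_pow_dvd_iff]
    intro m hm
    rcases m with _ | m
    · have := h 1 le_rfl (by omega)
      simp only [pow_one, Multiset.map_id'] at this
      simp [P, sub_mul, this]
    · have a1 := h (m + 1 + 1) (by omega) (by omega)
      have a2 := h (m + 1) (by omega) (by omega)
      simp [P, sub_mul, PowerSeries.coeff_succ_X_mul, PowerSeries.coeff_one, a1, a2]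
  have h2 : PowerSeries.X ^ (k + 1) ∣
      (1 - PowerSeries.X) * ((derivative (E s) : ℂ[X]) : PowerSeries ℂ) +
        ((E s : ℂ[X]) : PowerSeries ℂ) := by
    have : (1 - PowerSeries.X) * ((derivative (E s) : ℂ[X]) : PowerSeries ℂ) +
        ((E s : ℂ[X]) : PowerSeries ℂ) =
        -((E s : ℂ[X]) : PowerSeries ℂ) * ((1 - PowerSeries.X) * P s - 1) := by
      rw [deriv_E]; ring
    rw [this]
    exact Dvd.dvd.mul_left h1 _
  have h3 := PowerSeries.X_pow_dvd_iff.1 h2 k (by omega)
  rw [sub_mul, one_mul, map_add, map_sub] at h3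
  rcases k with _ | k
  · simp only [Polynomial.coeff_coe, coeff_derivative, PowerSeries.coeff_zero_X_mul] at h3
    push_cast at h3 ⊢
    linear_combination h3
  · simp only [Polynomial.coeff_coe, coeff_derivative, PowerSeries.coeff_succ_X_mul] at h3
    push_cast at h3 ⊢
    linear_combination h3

theorem coeff_one_E (s : Multiset ℂ) (N : ℕ) (hN : 3 ≤ N)
    (h : ∀ n, 1 ≤ n → n < N → (s.map fun l => l ^ n).sum = 1) : (E s).coeff 1 = -1 := by
  have := rec_E s N h 0 (by omega)
  rw [coeff_zero_E] at this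
  simpa using this

theorem coeff_E (s : Multiset ℂ) (N : ℕ)
    (h : ∀ n, 1 ≤ n → n < N → (s.map fun l => l ^ n).sum = 1) (k : ℕ) (hk : k + 2 < N) :
    (E s).coeff (k + 2) = 0 := by
  induction k with
  | zero =>
    have := rec_E s N h 1 (by omega)
    norm_num at this
    exact this
  | succ k ih =>
    have h1 := rec_E s N h (k + 2) (by omega)
    rw [ih (by omega), mul_zero] at h1
    refine (mul_eq_zero.1 h1).resolve_left ?_
    exact_mod_cast Nat.succ_ne_zero (k + 2)

theorem one_mem (s : Multiset ℂ) (hs : ∀ l ∈ s, l ≠ 0) (N : ℕ) (hN : 3 ≤ N)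
    (hd : Multiset.card s + 1 ≤ 2 * N)
    (hA : ∀ n, 1 ≤ n → n < N → (s.map fun l => l ^ n).sum = 1)
    (hB : ∀ n, 1 ≤ n → n < N → (s.map fun l => l⁻¹ ^ n).sum = 1) : (1 : ℂ) ∈ s := by
  set d := Multiset.card s with hdd
  set c := (s.map fun l => -l).prod with hc
  have hc0 : c ≠ 0 := by
    refine Multiset.prod_ne_zero fun h0 => ?_
    obtain ⟨l, hl, h1⟩ := Multiset.mem_map.1 h0
    exact hs l hl (neg_eq_zero.1 h1)
  have hB' : ∀ n, 1 ≤ n → n < N → ((s.map fun l => l⁻¹).map fun l => l ^ n).sum = 1 := by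
    intro n h1 h2
    rw [Multiset.map_map]
    exact hB n h1 h2
  have hrev : ∀ k, k ≤ d → (E s).coeff (d - k) = c * (E (s.map fun l => l⁻¹)).coeff k := by
    intro k hk
    have := congrArg (fun p => Polynomial.coeff p k) (reflect_E s hs)
    simp only [coeff_reflect, coeff_C_mul] at this
    rwa [revAt_le hk] at this
  have c0 := coeff_zero_E s
  have c1 := coeff_one_E s N hN hA
  have cd : (E s).coeff d = c := by
    have := hrev 0 (Nat.zero_le _)
    rwa [coeff_zero_E, mul_one, Nat.sub_zero] at this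
  have chi : ∀ k, d < k → (E s).coeff k = 0 := fun k hk =>
    coeff_eq_zero_of_natDegree_lt ((natDegree_E s).trans_lt hk)
  have hev : (E s).eval 1 = 0 := by
    rcases lt_or_ge d 3 with h3 | h3
    · have hd1 : d = 1 := by
        by_contra hne
        rcases (by omega : d = 0 ∨ d = 2) with h0 | h2
        · rw [chi 1 (by omega)] at c1
          norm_num at c1
        · have := coeff_E s N hA 0 (by omega)
          rw [h2] at cd
          exact hc0 (cd.symm.trans this)
      rw [eval_eq_sum_range' (n := 2) (by have := natDegree_E s; omega)]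
      simp [Finset.sum_range_succ, c0, c1]
    · have cd1 : (E s).coeff (d - 1) = -c := by
        rw [hrev 1 (by omega), coeff_one_E _ N hN hB']; ring
      have hE : E s = C 1 * X ^ 0 + C (-1) * X ^ 1 + C (-c) * X ^ (d - 1) + C c * X ^ d := by
        ext k
        simp only [coeff_add, coeff_C_mul, coeff_X_pow]
        by_cases k0 : k = 0
        · subst k0
          rw [c0, if_pos rfl, if_neg (by omega), if_neg (by omega), if_neg (by omega)]; ring
        by_cases k1 : k = 1
        · subst k1
          rw [c1, if_neg (by omega), if_pos rfl, if_neg (by omega), if_neg (by omega)]; ring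
        by_cases k2 : k = d - 1
        · rw [if_neg k0, if_neg k1, if_pos k2, if_neg (by omega), k2, cd1]; ring
        by_cases k3 : k = d
        · rw [if_neg k0, if_neg k1, if_neg k2, if_pos k3, k3, cd]; ring
        rw [if_neg k0, if_neg k1, if_neg k2, if_neg k3]
        simp only [mul_zero, add_zero]
        rcases lt_or_ge d k with h4 | h4
        · exact chi k h4
        rcases lt_or_ge k N with h5 | h5
        · obtain ⟨j, rfl⟩ : ∃ j, k = j + 2 := ⟨k - 2, by omega⟩
          exact coeff_E s N hA j h5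
        · obtain ⟨j, hj⟩ : ∃ j, k = d - (j + 2) ∧ j + 2 ≤ d := ⟨d - k - 2, by omega, by omega⟩
          rw [hj.1, hrev (j + 2) hj.2, coeff_E _ N hB' j (by omega), mul_zero]
      rw [hE]
      simp
  rw [E, eval_multiset_prod, Multiset.prod_eq_zero_iff, Multiset.map_map] at hev
  obtain ⟨l, hl, h1⟩ := Multiset.mem_map.1 hev
  have : l = 1 := by
    simp only [Function.comp, eval_sub, eval_one, eval_mul, eval_C, eval_X, mul_one] at h1
    linear_combination -h1
  exact this ▸ hl

theorem trace_local {W : Type} [AddCommGroup W] [Module ℂ W] [FiniteDimensional ℂ W]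
    (f g : Module.End ℂ W) (hgf : g * f = 1) (hc : Commute g f) (μ : ℂ)
    (hn : IsNilpotent (f - algebraMap ℂ _ μ)) :
    (Module.finrank ℂ W ≠ 0 → μ ≠ 0) ∧
      ∀ n, LinearMap.trace ℂ W (f ^ n) = Module.finrank ℂ W * μ ^ n ∧
        LinearMap.trace ℂ W (g ^ n) = Module.finrank ℂ W * μ⁻¹ ^ n := by
  have h0 : Module.finrank ℂ W ≠ 0 → μ ≠ 0 := by
    intro hW hμ
    have := LinearMap.trace_comp_eq_mul_of_commute_of_isNilpotent μ hc hn
    rw [← Module.End.mul_eq_comp, hgf, LinearMap.trace_one, hμ, zero_mul] at this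
    exact hW (by exact_mod_cast this)
  refine ⟨h0, fun n => ?_⟩
  induction n with
  | zero => simp
  | succ n ih =>
    constructor
    · have := LinearMap.trace_comp_eq_mul_of_commute_of_isNilpotent μ
        ((Commute.refl f).pow_left n) hn
      rw [← Module.End.mul_eq_comp, ← pow_succ, ih.1] at this
      rw [this]; ring
    · by_cases hW : Module.finrank ℂ W = 0
      · have : Subsingleton W := Module.finrank_zero_iff.1 hW
        rw [Subsingleton.elim (g ^ (n + 1)) 0, hW]; simp
      · have hμ := h0 hW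
        have := LinearMap.trace_comp_eq_mul_of_commute_of_isNilpotent μ (hc.pow_left (n + 1)) hn
        rw [← Module.End.mul_eq_comp, pow_succ, mul_assoc, hgf, mul_one, ← pow_succ, ih.2] at this
        rw [pow_succ μ⁻¹ n, ← mul_assoc, this]
        field_simp

theorem sum_map_sum (t : Finset ℂ) (m : ℂ → Multiset ℂ) (f : ℂ → ℂ) :
    ((∑ μ ∈ t, m μ).map f).sum = ∑ μ ∈ t, ((m μ).map f).sum := by
  classical
  induction t using Finset.induction_on with
  | empty => simp
  | insert a t ha ih => rw [Finset.sum_insert ha, Finset.sum_insert ha, Multiset.map_add,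
      Multiset.sum_add, ih]

theorem exists_family {V : Type} [AddCommGroup V] [Module ℂ V] [FiniteDimensional ℂ V]
    (A B : Module.End ℂ V) (hAB : A * B = 1) :
    ∃ s : Multiset ℂ, (∀ l ∈ s, l ≠ 0 ∧ A.HasEigenvalue l) ∧
      ∀ n, LinearMap.trace ℂ V (A ^ n) = (s.map fun l => l ^ n).sum ∧
        LinearMap.trace ℂ V (B ^ n) = (s.map fun l => l⁻¹ ^ n).sum := by
  classical
  have hBA : B * A = 1 := mul_eq_one_comm.1 hAB
  have hc : Commute A B := by rw [Commute, SemiconjBy, hAB, hBA]
  have hds := DirectSum.isInternal_submodule_of_iSupIndep_of_iSup_eq_top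
    A.independent_maxGenEigenspace A.iSup_maxGenEigenspace_eq_top
  have hfin : {μ | A.maxGenEigenspace μ ≠ ⊥}.Finite :=
    WellFoundedGT.finite_ne_bot_of_iSupIndep A.independent_maxGenEigenspace
  have mA := fun μ => A.mapsTo_maxGenEigenspace_of_comm (Commute.refl A) μ
  have mB := fun μ => A.mapsTo_maxGenEigenspace_of_comm hc μ
  have loc := fun μ => trace_local (A.restrict (mA μ)) (B.restrict (mB μ))
    (by ext x; exact LinearMap.congr_fun hBA x)
    (LinearMap.restrict_commute hc.symm _ _) μ
    (A.isNilpotent_restrict_maxGenEigenspace_sub_algebraMap μ)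
  refine ⟨∑ μ ∈ hfin.toFinset, Multiset.replicate (Module.finrank ℂ (A.maxGenEigenspace μ)) μ,
    fun l hl => ?_, fun n => ?_⟩
  · obtain ⟨μ, -, hμ⟩ := Multiset.mem_sum.1 hl
    obtain ⟨h1, rfl⟩ := Multiset.mem_replicate.1 hμ
    refine ⟨(loc l).1 h1, ?_⟩
    have hne : A.maxGenEigenspace l ≠ ⊥ := fun h => h1 (by rw [h]; simp)
    rw [Module.End.maxGenEigenspace_eq] at hne
    exact Module.End.hasEigenvalue_of_hasGenEigenvalue hne
  · have mA' := fun μ => A.mapsTo_maxGenEigenspace_of_comm ((Commute.refl A).pow_right n) μ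
    have mB' := fun μ => A.mapsTo_maxGenEigenspace_of_comm (hc.pow_right n) μ
    rw [LinearMap.trace_eq_sum_trace_restrict' hds hfin mA',
      LinearMap.trace_eq_sum_trace_restrict' hds hfin mB', sum_map_sum, sum_map_sum]
    constructor
    · refine Finset.sum_congr rfl fun μ _ => ?_
      rw [Multiset.map_replicate, Multiset.sum_replicate, nsmul_eq_mul, ← ((loc μ).2 n).1]
      exact congrArg _ (Module.End.pow_restrict n (mA μ)).symm
    · refine Finset.sum_congr rfl fun μ _ => ?_
      rw [Multiset.map_replicate, Multiset.sum_replicate, nsmul_eq_mul, ← ((loc μ).2 n).2]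
      exact congrArg _ (Module.End.pow_restrict n (mB μ)).symm

end TAlg1Aux

/-- There is a family `l : Fin d → ℂ` (`d` the dimension) of eigenvalues of `A` with
`trace (A ^ n) = ∑ l i ^ n`, `trace (B ^ n) = ∑ (l i)⁻¹ ^ n` (generalised eigenspaces:
`Module.End.iSup_maxGenEigenspace_eq_top`, `LinearMap.trace_eq_sum_trace_restrict`,
`LinearMap.trace_comp_eq_mul_of_commute_of_isNilpotent`; or an induction on the dimension). Let
`E = ∏ (1 - l i t) = ∑ c k t ^ k`. Newton's identities (or `E' = - E ∑ p (n+1) t ^ n` in power series)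
give `c 0 = 1`, `c 1 = -1`, `c k = 0` for `2 ≤ k < N`; for the inverses `c (d - 1) = - c d`,
`c (d - k) = 0` for `2 ≤ k < N`, `k ≤ d`, and `c d ≠ 0`. `d = 0` contradicts the trace, `d = 2`
contradicts `c 2 = 0`, `d = 1` gives `l 0 = 1`, and for `d ≥ 3` one gets
`E 1 = 1 - 1 - c d + c d = 0`. So some `l i` is one. -/
theorem eig_one {V : Type} [AddCommGroup V] [Module ℂ V] [FiniteDimensional ℂ V]
    (A B : V →ₗ[ℂ] V) (hAB : A * B = 1) (N : ℕ) (hN : 3 ≤ N)
    (hd : Module.finrank ℂ V + 1 ≤ 2 * N)
    (hA : ∀ n, 1 ≤ n → n < N → LinearMap.trace ℂ V (A ^ n) = 1)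
    (hB : ∀ n, 1 ≤ n → n < N → LinearMap.trace ℂ V (B ^ n) = 1) :
    ∃ v : V, v ≠ 0 ∧ A v = v := by
  obtain ⟨s, hs, ht⟩ := TAlg1Aux.exists_family A B hAB
  have hcard : Multiset.card s = Module.finrank ℂ V := by
    have := (ht 0).1
    simp only [pow_zero, LinearMap.trace_one, Multiset.map_const', Multiset.sum_replicate,
      nsmul_eq_mul, mul_one] at this
    exact_mod_cast this.symm
  have h1 := TAlg1Aux.one_mem s (fun l hl => (hs l hl).1) N hN (by omega)
    (fun n h1 h2 => (ht n).1 ▸ hA n h1 h2) (fun n h1 h2 => (ht n).2 ▸ hB n h1 h2)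
  obtain ⟨v, hv⟩ := (hs 1 h1).2.exists_hasEigenvector
  exact ⟨v, hv.2, by simpa using hv.apply_eq_smul⟩

end Pool.Agent.Lib.MP_399f8e_an.Lk
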