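import Pool.Agent.Lib.MP_399f8e_an.Lk.TAlg1

open Set Filter Topology Metric

noncomputable section

namespace Pool.Agent.Lib.MP_399f8e_an.Lk

/-- Choose `s` with `p s = 1` and `r` with `r i = 1`, `i r + s p = 1`; cyclicity of the trace. -/
theorem trace_ses {U V W : Type} [AddCommGroup U] [Module ℂ U] [AddCommGroup V] [Module ℂ V]
    [AddCommGroup W] [Module ℂ W] [FiniteDimensional ℂ V] (i : U →ₗ[ℂ] V) (p : V →ₗ[ℂ] W)
    (hi : Function.Injective i) (hp : Function.Surjective p)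
    (hip : LinearMap.range i = LinearMap.ker p) (a : U →ₗ[ℂ] U) (b : V →ₗ[ℂ] V) (c : W →ₗ[ℂ] W)
    (hab : b ∘ₗ i = i ∘ₗ a) (hbc : p ∘ₗ b = c ∘ₗ p) :
    LinearMap.trace ℂ V b = LinearMap.trace ℂ U a + LinearMap.trace ℂ W c := by
  have : FiniteDimensional ℂ U := FiniteDimensional.of_injective i hi
  have : FiniteDimensional ℂ W := Module.Finite.of_surjective p hp
  obtain ⟨s, hs⟩ := LinearMap.exists_rightInverse_of_surjective p (LinearMap.range_eq_top.2 hp)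
  obtain ⟨r₀, hr₀⟩ := LinearMap.exists_leftInverse_of_injective i (LinearMap.ker_eq_bot.2 hi)
  have hs' : ∀ w, p (s w) = w := fun w => LinearMap.congr_fun hs w
  have hr' : ∀ u, r₀ (i u) = u := fun u => LinearMap.congr_fun hr₀ u
  have hpi : ∀ u, p (i u) = 0 := fun u => by
    have : i u ∈ LinearMap.ker p := hip ▸ LinearMap.mem_range_self i u
    exact this
  obtain ⟨r, hr⟩ : ∃ r : V →ₗ[ℂ] U, r = r₀ ∘ₗ (LinearMap.id - s ∘ₗ p) := ⟨_, rfl⟩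
  have hri : ∀ u, r (i u) = u := fun u => by
    simp [hr, hpi, hr']
  have hir : ∀ v, i (r v) = v - s (p v) := fun v => by
    have h1 : v - s (p v) ∈ LinearMap.range i := by
      rw [hip, LinearMap.mem_ker, map_sub, hs', sub_self]
    obtain ⟨u, hu⟩ := h1
    have h2 : r v = u := by
      rw [hr]
      change r₀ (v - s (p v)) = u
      rw [← hu, hr']
    rw [h2, hu]
  have hb : b = (i ∘ₗ a) ∘ₗ r + (b ∘ₗ s) ∘ₗ p := by
    ext v
    have h1 : i (a (r v)) = b (i (r v)) := (LinearMap.congr_fun hab (r v)).symm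
    change b v = i (a (r v)) + b (s (p v))
    rw [h1, hir, map_sub, sub_add_cancel]
  have h1 : r ∘ₗ (i ∘ₗ a) = a := by
    ext u
    exact hri (a u)
  have h2 : p ∘ₗ (b ∘ₗ s) = c := by
    ext w
    have h3 : p (b (s w)) = c (p (s w)) := LinearMap.congr_fun hbc (s w)
    change p (b (s w)) = c w
    rw [h3, hs']
  calc LinearMap.trace ℂ V b
      = LinearMap.trace ℂ V ((i ∘ₗ a) ∘ₗ r) + LinearMap.trace ℂ V ((b ∘ₗ s) ∘ₗ p) := by
        rw [← map_add, ← hb]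
    _ = LinearMap.trace ℂ U a + LinearMap.trace ℂ W c := by
        rw [LinearMap.trace_comp_comm' r (i ∘ₗ a), LinearMap.trace_comp_comm' p (b ∘ₗ s), h1, h2]

namespace TAlg2Aux

variable {M : Type} [AddCommGroup M] [Module ℂ M]

theorem trOn_eq {p : Submodule ℂ M} {φ : M →ₗ[ℂ] M} (h : ∀ x ∈ p, φ x ∈ p) :
    trOn p φ = LinearMap.trace ℂ p (φ.restrict h) := by
  unfold trOn
  rw [dif_pos h]

theorem trOn_bot (φ : M →ₗ[ℂ] M) : trOn (⊥ : Submodule ℂ M) φ = 0 := by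
  have h : ∀ x ∈ (⊥ : Submodule ℂ M), φ x ∈ (⊥ : Submodule ℂ M) := fun x hx => by
    rw [Submodule.mem_bot] at hx ⊢
    rw [hx, map_zero]
  rw [trOn_eq h, Subsingleton.elim (φ.restrict h) 0, map_zero]

/-- coordinates on a subquotient -/
theorem exists_cl (Z B : Submodule ℂ M) [FiniteDimensional ℂ Z] :
    ∃ (d : ℕ) (cl : M →ₗ[ℂ] (Fin d → ℂ)), (∀ v, ∃ z ∈ Z, cl z = v) ∧
      ∀ z ∈ Z, (cl z = 0 ↔ z ∈ B) := by
  obtain ⟨B', hB'⟩ : ∃ B' : Submodule ℂ Z, B' = B.comap Z.subtype := ⟨_, rfl⟩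
  let e := (Module.finBasis ℂ (Z ⧸ B')).equivFun
  obtain ⟨cl, hcl⟩ := LinearMap.exists_extend (e.toLinearMap ∘ₗ B'.mkQ)
  have h : ∀ z : Z, cl z = e (B'.mkQ z) := fun z => LinearMap.congr_fun hcl z
  refine ⟨_, cl, fun v => ?_, fun z hz => ?_⟩
  · obtain ⟨z, hz⟩ := B'.mkQ_surjective (e.symm v)
    exact ⟨z, z.2, by rw [h, hz, LinearEquiv.apply_symm_apply]⟩
  · have h1 := h ⟨z, hz⟩
    change cl z = _ at h1
    rw [h1, LinearEquiv.map_eq_zero_iff, Submodule.mkQ_apply, Submodule.Quotient.mk_eq_zero, hB']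
    rfl

/-- the induced map on a subquotient and its trace -/
theorem exists_ind {Z B : Submodule ℂ M} [FiniteDimensional ℂ Z] (hBZ : B ≤ Z) {W : Type}
    [AddCommGroup W] [Module ℂ W] (cl : M →ₗ[ℂ] W) (h1 : ∀ v, ∃ z ∈ Z, cl z = v)
    (h2 : ∀ z ∈ Z, (cl z = 0 ↔ z ∈ B)) (φ : M →ₗ[ℂ] M) (hZ : ∀ z ∈ Z, φ z ∈ Z)
    (hB : ∀ z ∈ B, φ z ∈ B) :
    ∃ a : W →ₗ[ℂ] W, (∀ z ∈ Z, a (cl z) = cl (φ z)) ∧
      trOn Z φ = trOn B φ + LinearMap.trace ℂ W a := by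
  obtain ⟨p, hp⟩ : ∃ p : Z →ₗ[ℂ] W, p = cl ∘ₗ Z.subtype := ⟨_, rfl⟩
  have hp' : ∀ z : Z, p z = cl z := fun z => by rw [hp]; rfl
  have hsurj : Function.Surjective p := fun v => by
    obtain ⟨z, hz, hv⟩ := h1 v
    exact ⟨⟨z, hz⟩, by rw [hp', hv]⟩
  obtain ⟨s, hs⟩ := LinearMap.exists_rightInverse_of_surjective p (LinearMap.range_eq_top.2 hsurj)
  have hs' : ∀ w, cl (s w : M) = w := fun w => by
    rw [← hp']
    exact LinearMap.congr_fun hs w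
  obtain ⟨a, ha⟩ : ∃ a : W →ₗ[ℂ] W, a = cl ∘ₗ φ ∘ₗ Z.subtype ∘ₗ s := ⟨_, rfl⟩
  have key : ∀ z ∈ Z, a (cl z) = cl (φ z) := fun z hz => by
    have m1 : (s (cl z) : M) - z ∈ Z := Z.sub_mem (s (cl z)).2 hz
    have m2 : (s (cl z) : M) - z ∈ B := (h2 _ m1).1 (by rw [map_sub, hs', sub_self])
    have m3 := (h2 _ (hZ _ m1)).2 (hB _ m2)
    rw [map_sub, map_sub, sub_eq_zero] at m3
    rw [ha]
    exact m3
  refine ⟨a, key, ?_⟩
  rw [trOn_eq hZ, trOn_eq hB]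
  refine trace_ses (Submodule.inclusion hBZ) p (Submodule.inclusion_injective hBZ) hsurj ?_ _ _ a
    ?_ ?_
  · ext z
    rw [LinearMap.mem_ker, hp', h2 _ z.2, LinearMap.mem_range]
    constructor
    · rintro ⟨y, rfl⟩
      exact y.2
    · intro hz
      exact ⟨⟨z, hz⟩, rfl⟩
  · ext z
    rfl
  · ext z
    change p (φ.restrict hZ z) = a (p z)
    rw [hp', hp', key _ z.2]
    rfl

/-- cycles, chains, boundaries -/
theorem trOn_bd {C : Submodule ℂ M} [FiniteDimensional ℂ C] (bd φ : M →ₗ[ℂ] M)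
    (hC : ∀ z ∈ C, φ z ∈ C) (hc : ∀ z ∈ C, bd (φ z) = φ (bd z))
    (hZ : ∀ z ∈ C ⊓ LinearMap.ker bd, φ z ∈ C ⊓ LinearMap.ker bd)
    (hB : ∀ z ∈ C.map bd, φ z ∈ C.map bd) :
    trOn C φ = trOn (C ⊓ LinearMap.ker bd) φ + trOn (C.map bd) φ := by
  rw [trOn_eq hC, trOn_eq hZ, trOn_eq hB]
  have hm : ∀ z ∈ C, bd z ∈ C.map bd := fun z hz => Submodule.mem_map_of_mem hz
  refine trace_ses (Submodule.inclusion inf_le_left) (bd.restrict hm)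
    (Submodule.inclusion_injective _) ?_ ?_ _ _ _ ?_ ?_
  · rintro ⟨y, z, hz, rfl⟩
    exact ⟨⟨z, hz⟩, rfl⟩
  · ext z
    rw [LinearMap.mem_ker, LinearMap.mem_range]
    constructor
    · rintro ⟨y, rfl⟩
      exact Subtype.ext y.2.2
    · intro hz
      exact ⟨⟨z, z.2, congrArg Subtype.val hz⟩, rfl⟩
  · ext z
    rfl
  · ext z
    exact hc z z.2

end TAlg2Aux

/-- Homology in degree `k` with the action of a family of chain maps, and the Hopf trace formula.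
Take `Z k = C k ⊓ ker bd`, `B k = (C (k + 1)).map bd`, `Hk k = Z k ⧸ B k`; `trace_ses` for
`Z (k+1) → C (k+1) → B k` and `B k → Z k → Hk k`; `Z 0 = C 0`, `B 3 = 0`. -/
theorem exists_homology {M : Type} [AddCommGroup M] [Module ℂ M] (C : ℕ → Submodule ℂ M)
    (hfin : ∀ k, FiniteDimensional ℂ (C k)) (bd : M →ₗ[ℂ] M) (hC4 : C 4 = ⊥)
    (hbd : ∀ k, ∀ z ∈ C (k + 1), bd z ∈ C k) (hbd0 : ∀ z ∈ C 0, bd z = 0)
    (hdd : ∀ k, ∀ z ∈ C k, bd (bd z) = 0) {J : Type} (φ : J → M →ₗ[ℂ] M)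
    (hφ : ∀ n k, ∀ z ∈ C k, φ n z ∈ C k ∧ bd (φ n z) = φ n (bd z)) :
    ∃ (d : ℕ → ℕ) (cl : ∀ k, M →ₗ[ℂ] (Fin (d k) → ℂ))
      (a : J → ∀ k, (Fin (d k) → ℂ) →ₗ[ℂ] (Fin (d k) → ℂ)),
      (∀ k v, ∃ z ∈ C k, bd z = 0 ∧ cl k z = v) ∧
      (∀ k, ∀ z ∈ C k, bd z = 0 → (cl k z = 0 ↔ ∃ w ∈ C (k + 1), bd w = z)) ∧
      (∀ n k, ∀ z ∈ C k, bd z = 0 → a n k (cl k z) = cl k (φ n z)) ∧
      ∀ n, ∑ k ∈ Finset.range 4, (-1 : ℂ) ^ k * trOn (C k) (φ n) =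
        ∑ k ∈ Finset.range 4, (-1 : ℂ) ^ k * LinearMap.trace ℂ _ (a n k) := by
  obtain ⟨Z, hZ⟩ : ∃ Z : ℕ → Submodule ℂ M, ∀ k, Z k = C k ⊓ LinearMap.ker bd :=
    ⟨_, fun _ => rfl⟩
  obtain ⟨B, hB⟩ : ∃ B : ℕ → Submodule ℂ M, ∀ k, B k = (C (k + 1)).map bd := ⟨_, fun _ => rfl⟩
  have mZ : ∀ k z, z ∈ Z k ↔ z ∈ C k ∧ bd z = 0 := fun k z => by rw [hZ]; rfl
  have mB : ∀ k z, z ∈ B k ↔ ∃ w ∈ C (k + 1), bd w = z := fun k z => by
    rw [hB]; exact Submodule.mem_map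
  have fZ : ∀ k, FiniteDimensional ℂ (Z k) := fun k => by
    have := hfin k
    exact Submodule.finiteDimensional_of_le (S₂ := C k) fun z hz => ((mZ k z).1 hz).1
  have hBZ : ∀ k, B k ≤ Z k := fun k z hz => by
    obtain ⟨w, hw, rfl⟩ := (mB k z).1 hz
    exact (mZ k _).2 ⟨hbd k w hw, hdd _ w hw⟩
  have φZ : ∀ n k, ∀ z ∈ Z k, φ n z ∈ Z k := fun n k z hz => by
    obtain ⟨h1, h2⟩ := (mZ k z).1 hz
    obtain ⟨h3, h4⟩ := hφ n k z h1
    exact (mZ k _).2 ⟨h3, by rw [h4, h2, map_zero]⟩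
  have φB : ∀ n k, ∀ z ∈ B k, φ n z ∈ B k := fun n k z hz => by
    obtain ⟨w, hw, rfl⟩ := (mB k z).1 hz
    obtain ⟨h3, h4⟩ := hφ n _ w hw
    exact (mB k _).2 ⟨_, h3, h4⟩
  choose d cl h1 h2 using fun k => @TAlg2Aux.exists_cl M _ _ (Z k) (B k) (fZ k)
  choose a h3 h4 using fun n k => @TAlg2Aux.exists_ind M _ _ (Z k) (B k) (fZ k) (hBZ k) _ _ _
    (cl k) (h1 k) (h2 k) (φ n) (φZ n k) (φB n k)
  refine ⟨d, cl, a, fun k v => ?_, fun k z hz hz0 => ?_, fun n k z hz hz0 => ?_, fun n => ?_⟩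
  · obtain ⟨z, hz, hv⟩ := h1 k v
    exact ⟨z, ((mZ k z).1 hz).1, ((mZ k z).1 hz).2, hv⟩
  · rw [h2 k z ((mZ k z).2 ⟨hz, hz0⟩), mB]
  · exact h3 n k z ((mZ k z).2 ⟨hz, hz0⟩)
  · have e1 : ∀ k, trOn (C (k + 1)) (φ n) = trOn (Z (k + 1)) (φ n) + trOn (B k) (φ n) := fun k => by
      have := hfin (k + 1)
      have a1 := φZ n (k + 1)
      have a2 := φB n k
      rw [hZ] at a1 ⊢
      rw [hB] at a2 ⊢
      exact TAlg2Aux.trOn_bd bd (φ n) (fun z hz => (hφ n _ z hz).1) (fun z hz => (hφ n _ z hz).2)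
        a1 a2
    have e0 : C 0 = Z 0 := by
      ext z
      rw [mZ]
      exact ⟨fun hz => ⟨hz, hbd0 z hz⟩, fun hz => hz.1⟩
    have e3 : trOn (B 3) (φ n) = 0 := by
      rw [hB, show C (3 + 1) = ⊥ from hC4, Submodule.map_bot, TAlg2Aux.trOn_bot]
    have c1 := e1 0
    have c2 := e1 1
    have c3 := e1 2
    have z0 := h4 n 0
    have z1 := h4 n 1
    have z2 := h4 n 2
    have z3 := h4 n 3
    rw [← e0] at z0
    simp only [Finset.sum_range_succ, Finset.sum_range_zero, zero_add, Nat.reduceAdd] at c1 c2 c3 ⊢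
    linear_combination z0 - c1 + c2 - c3 - z1 + z2 - z3 - e3

end Pool.Agent.Lib.MP_399f8e_an.Lk
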