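import Pool.Agent.Lib.MP_399f8e_an.Lk.TMap3

open Set Filter Topology Metric

noncomputable section

namespace Pool.Agent.Lib.MP_399f8e_an.Lk

variable {X : Type} [MetricSpace X] [CompactSpace X] {ψ : ℝ → X → X} {Ψ : Ci × (ℝ × ℝ) → X}
  {θ : X → Ci} {Δ : X → ℝ → ℝ} {g : ℝ → X → X} {N ρ : ℕ}
  {R : X → X} {tm : X × ℝ → ℝ} {a e₁ B₀ : ℝ}
  {ι : P3 → X}

/-- An annulus of the plane with the sup norm is the image of `sphere 0 1 ×ˢ Ioo r r'`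
(`isConnected_sphere`). -/
theorem annulus_conn {r r' : ℝ} (hr : 0 ≤ r) :
    IsPreconnected {w : ℝ × ℝ | r < ‖w‖ ∧ ‖w‖ < r'} := by
  have hrk : 1 < Module.rank ℝ (ℝ × ℝ) := by
    rw [rank_prod', Module.rank_self]
    norm_num
  have h1 : IsPreconnected (sphere (0 : ℝ × ℝ) 1 ×ˢ Ioo r r') :=
    (isPreconnected_sphere hrk 0 1).prod isPreconnected_Ioo
  have h2 := h1.image (fun p : (ℝ × ℝ) × ℝ => p.2 • p.1) (by fun_prop)
  convert h2 using 1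
  ext w
  constructor
  · rintro ⟨h3, h4⟩
    have h5 : ‖w‖ ≠ 0 := (hr.trans_lt h3).ne'
    refine ⟨(‖w‖⁻¹ • w, ‖w‖), ⟨?_, h3, h4⟩, ?_⟩
    · rw [mem_sphere_zero_iff_norm, norm_smul, norm_inv, norm_norm, inv_mul_cancel₀ h5]
    · exact smul_inv_smul₀ h5 w
  · rintro ⟨⟨u, t⟩, ⟨h3, h4, h5⟩, rfl⟩
    have h6 : ‖t • u‖ = t := by
      rw [norm_smul, mem_sphere_zero_iff_norm.1 h3, mul_one, Real.norm_of_nonneg (hr.trans h4.le)]
    exact ⟨h6.symm ▸ h4, h6.symm ▸ h5⟩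

/-- `univ ×ˢ ball 0 a` minus the point (0, 0)` lies between `univ ×ˢ` the punctured ball and its
closure; its image is `otube Ψ a` minus `Ψ (0, 0)`, and `ι` is an embedding onto the complement of
that point. -/
theorem TopData.conn_tube (h : TopData ψ Ψ θ Δ g N ρ) (hι : IsOpenEmbedding ι)
    (hr : range ι = {Ψ (0, 0)}ᶜ) {a : ℝ} (ha0 : 0 < a) (ha : a ≤ 4) :
    IsPreconnected (ι ⁻¹' otube Ψ a) := by
  have hT : IsPreconnected ((univ : Set Ci) ×ˢ {w : ℝ × ℝ | 0 < ‖w‖ ∧ ‖w‖ < a}) :=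
    isPreconnected_univ.prod (annulus_conn le_rfl)
  have hsub : ((univ : Set Ci) ×ˢ ball (0 : ℝ × ℝ) a) ⊆ univ ×ˢ ball 0 4 :=
    prod_mono_right (ball_subset_ball ha)
  have hS : IsPreconnected (((univ : Set Ci) ×ˢ ball (0 : ℝ × ℝ) a) \ {(0, 0)}) := by
    refine hT.subset_closure ?_ ?_
    · rintro ⟨s, w⟩ ⟨-, h1, h2⟩
      refine ⟨⟨trivial, mem_ball_zero_iff.2 h2⟩, fun h3 => ?_⟩
      have h4 : w = 0 := congrArg Prod.snd h3
      rw [h4, norm_zero] at h1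
      exact lt_irrefl _ h1
    · rintro ⟨s, w⟩ ⟨⟨-, h1⟩, -⟩
      rw [closure_prod_eq]
      refine ⟨subset_closure trivial, ?_⟩
      rcases eq_or_ne w 0 with rfl | hw
      · rw [mem_closure_iff_frequently]
        refine Frequently.filter_mono (f := 𝓝[≠] (0 : ℝ × ℝ)) (Eventually.frequently ?_)
          nhdsWithin_le_nhds
        filter_upwards [self_mem_nhdsWithin, nhdsWithin_le_nhds (ball_mem_nhds 0 ha0)] with x h2 h3
        exact ⟨norm_pos_iff.2 h2, mem_ball_zero_iff.1 h3⟩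
      · exact subset_closure ⟨norm_pos_iff.2 hw, mem_ball_zero_iff.1 h1⟩
  have h1 := hS.image Ψ (h.Ψc.mono (sdiff_subset.trans hsub))
  rw [← hι.isInducing.isPreconnected_image, image_preimage_eq_inter_range, hr]
  convert h1 using 1
  ext x
  constructor
  · rintro ⟨⟨q, hq, rfl⟩, h2⟩
    exact ⟨q, ⟨hq, fun h3 => h2 (congrArg Ψ h3)⟩, rfl⟩
  · rintro ⟨q, ⟨hq, h2⟩, rfl⟩
    exact ⟨⟨q, hq, rfl⟩, fun h3 => h2 (h.Ψinj (hsub hq) ⟨trivial, mem_ball_self four_pos⟩ h3)⟩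

/-- If two disjoint open sets cover the complement of `tube Ψ a`, the shell `a < ‖w‖ < 4` lies in one
of them, `A`; then `A ∪ otube Ψ 4` and the other set separate `X`. -/
theorem TopData.conn_base [ConnectedSpace X] (h : TopData ψ Ψ θ Δ g N ρ) {a : ℝ} (ha0 : 0 ≤ a)
    (ha : a < 4) : IsPreconnected (tube Ψ a)ᶜ := by
  have hs : IsOpen (tube Ψ a)ᶜ := (h.tube_cpt ha).isClosed.isOpen_compl
  have hSh : IsPreconnected (Ψ '' ((univ : Set Ci) ×ˢ {w : ℝ × ℝ | a < ‖w‖ ∧ ‖w‖ < 4})) :=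
    (isPreconnected_univ.prod (annulus_conn ha0)).image Ψ
      (h.Ψc.mono (prod_mono_right fun w hw => mem_ball_zero_iff.2 hw.2))
  have hin : Ψ '' ((univ : Set Ci) ×ˢ {w : ℝ × ℝ | a < ‖w‖ ∧ ‖w‖ < 4}) ⊆ (tube Ψ a)ᶜ := by
    rintro _ ⟨⟨s, w⟩, ⟨-, h1, h2⟩, rfl⟩ h3
    exact not_le.2 h1 ((h.mem_tube ha h2).1 h3)
  have hout : ∀ x ∈ (tube Ψ a)ᶜ, x ∈ otube Ψ 4 →
      x ∈ Ψ '' ((univ : Set Ci) ×ˢ {w : ℝ × ℝ | a < ‖w‖ ∧ ‖w‖ < 4}) := by
    rintro _ h1 ⟨⟨s, w⟩, ⟨-, h2⟩, rfl⟩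
    have h3 : ‖w‖ < 4 := mem_ball_zero_iff.1 h2
    exact ⟨(s, w), ⟨trivial, not_le.1 fun h4 => h1 ((h.mem_tube ha h3).2 h4), h3⟩, rfl⟩
  have key : ∀ u v : Set X, IsOpen u → IsOpen v → (tube Ψ a)ᶜ ⊆ u ∪ v →
      (tube Ψ a)ᶜ ∩ (u ∩ v) = ∅ →
      Ψ '' ((univ : Set Ci) ×ˢ {w : ℝ × ℝ | a < ‖w‖ ∧ ‖w‖ < 4}) ⊆ u → (tube Ψ a)ᶜ ⊆ u := by
    intro u v hu hv hc hd hU
    have h1 := isPreconnected_iff_subset_of_disjoint.1 (isPreconnected_univ (α := X))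
      (u ∪ otube Ψ 4) ((tube Ψ a)ᶜ ∩ v) (hu.union (h.otube_open le_rfl)) (hs.inter hv) ?_ ?_
    · rcases h1 with h1 | h1
      · intro x hx
        exact (h1 trivial).elim id fun h2 => hU (hout x hx h2)
      · exact absurd ⟨(0, 0), ⟨trivial, mem_closedBall_self ha0⟩, rfl⟩
          (h1 (mem_univ (Ψ (0, 0)))).1
    · intro x _
      by_cases hx : x ∈ tube Ψ a
      · exact Or.inl (Or.inr (tube_sub_otube ha hx))
      · exact (hc hx).elim (fun h2 => Or.inl (Or.inl h2)) fun h2 => Or.inr ⟨hx, h2⟩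
    · refine eq_empty_of_forall_notMem ?_
      rintro x ⟨-, h2, h3, h4⟩
      have h5 : x ∈ u := h2.elim id fun h2 => hU (hout x h3 h2)
      exact (hd.subset ⟨h3, h5, h4⟩ : x ∈ (∅ : Set X))
  refine isPreconnected_iff_subset_of_disjoint.2 fun u v hu hv hc hd => ?_
  refine (isPreconnected_iff_subset_of_disjoint.1 hSh u v hu hv (hin.trans hc) ?_).imp
    (key u v hu hv hc hd) (key v u hv hu (union_comm u v ▸ hc) (inter_comm u v ▸ hd))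
  exact subset_eq_empty (inter_subset_inter_left _ hin) hd

end Pool.Agent.Lib.MP_399f8e_an.Lk
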