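import Pool.Agent.Lib.MP_399f8e_an.Lk.TDefs

open Set Filter Topology Metric

noncomputable section

namespace Pool.Agent.Lib.MP_399f8e_an.Lk

variable {sh : Z3 → Fin 3 → ℤ}

namespace TCube1Aux

theorem ext_sg {β M : Type} [AddCommGroup M] [Module ℂ M] {f g : Ch β →ₗ[ℂ] M}
    (h : ∀ b, f (sg b) = g (sg b)) (z : Ch β) : f z = g z := by
  have : f = g := Finsupp.lhom_ext' fun b => LinearMap.ext_ring (h b)
  rw [this]

theorem sgn_swap {I : Finset (Fin 3)} {i j : Fin 3} (hi : i ∈ I) (hj : j ∈ I) (h : i ≠ j) :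
    sgn I i * sgn (I.erase i) j = -(sgn I j * sgn (I.erase j) i) := by
  have key : ∀ (I : Finset (Fin 3)) (i j : Fin 3), i ∈ I → j ∈ I → i ≠ j →
      (-1 : ℤ) ^ (I.filter fun k => k < i).card * (-1) ^ ((I.erase i).filter fun k => k < j).card =
        -((-1) ^ (I.filter fun k => k < j).card *
          (-1) ^ ((I.erase j).filter fun k => k < i).card) := by decide
  have := congrArg (Int.cast : ℤ → ℂ) (key I i j hi hj h)
  push_cast at this
  exact this

theorem sum_anti {M : Type} [AddCommGroup M] [Module ℂ M] (I : Finset (Fin 3))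
    (f : Fin 3 → Fin 3 → M) (h : ∀ i ∈ I, ∀ j ∈ I, i ≠ j → f i j = -f j i) :
    ∑ i ∈ I, ∑ j ∈ I.erase i, f i j = 0 := by
  have h1 : ∑ i ∈ I, ∑ j ∈ I.erase i, f i j = ∑ j ∈ I, ∑ i ∈ I.erase j, f i j :=
    Finset.sum_comm' fun i j => by
      simp only [Finset.mem_erase]
      exact ⟨fun h => ⟨⟨h.2.1.symm, h.1⟩, h.2.2⟩, fun h => ⟨h.1.2, h.1.1.symm, h.2⟩⟩
  have h2 : ∑ j ∈ I, ∑ i ∈ I.erase j, f i j = -∑ j ∈ I, ∑ i ∈ I.erase j, f j i := by
    rw [← Finset.sum_neg_distrib]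
    refine Finset.sum_congr rfl fun j hj => ?_
    rw [← Finset.sum_neg_distrib]
    exact Finset.sum_congr rfl fun i hi =>
      h i (Finset.mem_of_mem_erase hi) j hj (Finset.ne_of_mem_erase hi)
  have h3 : (2 : ℂ) • ∑ i ∈ I, ∑ j ∈ I.erase i, f i j = 0 := by
    rw [two_smul]
    exact add_eq_zero_iff_eq_neg.2 (h1.trans h2)
  exact (smul_eq_zero.1 h3).resolve_left two_ne_zero

theorem mem_faces {β : Type} {I : Finset (Fin 3)} {c : Fin 3 → ℂ} {u v : Fin 3 → β} {b : β}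
    (h : b ∈ (∑ i ∈ I, c i • (sg (u i) - sg (v i))).support) : ∃ i ∈ I, b = u i ∨ b = v i := by
  by_contra hc
  push Not at hc
  refine Finsupp.mem_support_iff.1 h ?_
  rw [Finsupp.finsetSum_apply]
  refine Finset.sum_eq_zero fun i hi => ?_
  rw [Finsupp.smul_apply, Finsupp.sub_apply, Finsupp.single_eq_of_ne (hc i hi).1,
    Finsupp.single_eq_of_ne (hc i hi).2, sub_zero, smul_zero]

end TCube1Aux

open TCube1Aux

theorem bd0_sg (Q : Cell) : bd0 (sg Q) =
    ∑ i ∈ Q.2, sgn Q.2 i • (sg (Q.1 + ee i, Q.2.erase i) - sg (Q.1, Q.2.erase i)) := by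
  rw [bd0, Finsupp.linearCombination_single, one_smul]

theorem bdT_sg (b : Cell × ℤ) : bdT sh (sg b) = ∑ i ∈ b.1.2, sgn b.1.2 i •
    (sg ((b.1.1 + ee i, b.1.2.erase i), b.2 + sh b.1.1 i) - sg ((b.1.1, b.1.2.erase i), b.2)) := by
  rw [bdT, Finsupp.linearCombination_single, one_smul]

/-- The eight sets of directions one by one (or the involution exchanging the two erased
directions, which reverses the sign). -/
theorem bd0_bd0 (z : Ch Cell) : bd0 (bd0 z) = 0 := by
  refine ext_sg (f := bd0 ∘ₗ bd0) (g := 0) (fun Q => ?_) z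
  obtain ⟨n, I⟩ := Q
  rw [LinearMap.comp_apply, LinearMap.zero_apply, bd0_sg, map_sum]
  simp only [map_smul, map_sub, bd0_sg, ← Finset.sum_sub_distrib, ← smul_sub, Finset.smul_sum,
    smul_smul]
  refine sum_anti I _ fun i hi j hj hij => ?_
  rw [sgn_swap hi hj hij, neg_smul, Finset.erase_right_comm, add_right_comm n (ee i) (ee j)]
  congr 2
  abel

theorem aug0_bd0 (z : Ch Cell) : aug0 (bd0 z) = 0 := by
  refine ext_sg (f := aug0 ∘ₗ bd0) (g := 0) (fun Q => ?_) z
  rw [LinearMap.comp_apply, LinearMap.zero_apply, bd0_sg, map_sum]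
  refine Finset.sum_eq_zero fun i _ => ?_
  rw [map_smul, map_sub, aug0, Finsupp.linearCombination_single, Finsupp.linearCombination_single,
    sub_self, smul_zero]

theorem face0 {Q Q' : Cell} (h : Q' ∈ (bd0 (sg Q)).support) :
    ∃ i ∈ Q.2, Q' = (Q.1 + ee i, Q.2.erase i) ∨ Q' = (Q.1, Q.2.erase i) := by
  rw [bd0_sg] at h
  exact mem_faces h

theorem faceT {b b' : Cell × ℤ} (h : b' ∈ (bdT sh (sg b)).support) :
    ∃ i ∈ b.1.2, b' = ((b.1.1 + ee i, b.1.2.erase i), b.2 + sh b.1.1 i) ∨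
      b' = ((b.1.1, b.1.2.erase i), b.2) := by
  rw [bdT_sg] at h
  exact mem_faces h

theorem body_face {n : Z3} {I : Finset (Fin 3)} {i : Fin 3} (hi : i ∈ I) :
    body (n + ee i, I.erase i) ⊆ body (n, I) ∧ body (n, I.erase i) ⊆ body (n, I) := by
  constructor <;> intro x hx j <;> have h := hx j <;> by_cases e : j = i
  · subst e
    simp only [ee, Pi.add_apply, Pi.single_eq_same, Finset.notMem_erase, if_false, hi,
      if_true] at h ⊢
    push_cast at h
    constructor <;> linarith [h.1, h.2]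
  · simpa [ee, e] using h
  · subst e
    simp only [Finset.notMem_erase, if_false, hi, if_true] at h ⊢
    constructor <;> linarith [h.1, h.2]
  · simpa [e] using h

theorem corner_mem (Q : Cell) : (fun i => (Q.1 i : ℝ)) ∈ body Q := by
  intro i
  refine ⟨le_rfl, ?_⟩
  split_ifs <;> simp

theorem lat_eq (c : ℝ) (n : Z3) : lat c n = c • fun i => (n i : ℝ) := by
  rfl

theorem liftG_sg (g : Z3 → ℤ) (Q : Cell) : liftG g (sg Q) = sg (Q, g Q.1) := by
  rw [liftG, Finsupp.lmapDomain_apply, Finsupp.mapDomain_single]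

theorem deck_sg (b : Cell × ℤ) : deck (sg b) = sg (b.1, b.2 + 1) := by
  rw [deck, Finsupp.lmapDomain_apply, Finsupp.mapDomain_single]

theorem pl_sg (l : ℂ) (b : Cell × ℤ) : pl l (sg b) = l ^ b.2 • sg b.1 := by
  rw [pl, Finsupp.linearCombination_single, one_smul]

theorem liftG_bd {g : Z3 → ℤ} {Q : Cell} (h : ∀ i ∈ Q.2, sh Q.1 i = g (Q.1 + ee i) - g Q.1) :
    bdT sh (liftG g (sg Q)) = liftG g (bd0 (sg Q)) := by
  rw [liftG_sg, bdT_sg, bd0_sg, map_sum]
  refine Finset.sum_congr rfl fun i hi => ?_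
  rw [map_smul, map_sub, liftG_sg, liftG_sg, h i hi, add_sub_cancel]

theorem pl_one_bd (w : Ch (Cell × ℤ)) : pl 1 (bdT sh w) = bd0 (pl 1 w) := by
  refine ext_sg (f := pl 1 ∘ₗ bdT sh) (g := bd0 ∘ₗ pl 1) (fun b => ?_) w
  simp only [LinearMap.comp_apply, bdT_sg, map_sum, map_smul, map_sub, pl_sg, one_zpow, one_smul,
    bd0_sg]

theorem pl_liftG_zero (l : ℂ) (u : Ch Cell) : pl l (liftG 0 u) = u := by
  refine ext_sg (f := pl l ∘ₗ liftG 0) (g := LinearMap.id) (fun b => ?_) u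
  simp only [LinearMap.comp_apply, liftG_sg, pl_sg, Pi.zero_apply, zpow_zero, one_smul,
    LinearMap.id_apply]

theorem deck_bd (w : Ch (Cell × ℤ)) : bdT sh (deck w) = deck (bdT sh w) := by
  refine ext_sg (f := bdT sh ∘ₗ deck) (g := deck ∘ₗ bdT sh) (fun b => ?_) w
  simp only [LinearMap.comp_apply, deck_sg, bdT_sg, map_sum, map_smul, map_sub]
  refine Finset.sum_congr rfl fun i _ => ?_
  rw [add_right_comm b.2 1]

theorem pl_deck {l : ℂ} (hl : l ≠ 0) (w : Ch (Cell × ℤ)) : pl l (deck w) = l • pl l w := by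
  refine ext_sg (f := pl l ∘ₗ deck) (g := l • pl l) (fun b => ?_) w
  simp only [LinearMap.comp_apply, deck_sg, pl_sg, LinearMap.smul_apply, smul_smul]
  rw [zpow_add_one₀ hl, mul_comm]

/-- Look at a cell of the support with the largest sheet number. -/
theorem deck_inj {l : ℂ} {w : Ch (Cell × ℤ)} (h : deck w - l • w = 0) : w = 0 := by
  by_contra hw
  obtain ⟨b, hb, hm⟩ := w.support.exists_max_image Prod.snd (Finsupp.support_nonempty_iff.2 hw)
  have hi : Function.Injective fun b : Cell × ℤ => (b.1, b.2 + 1) := fun b b' e =>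
    Prod.ext (Prod.ext_iff.1 e).1 (add_right_cancel (Prod.ext_iff.1 e).2)
  have h1 : deck w (b.1, b.2 + 1) = w b := Finsupp.mapDomain_apply hi w b
  have h2 : w (b.1, b.2 + 1) = 0 := by
    by_contra h2
    have := hm _ (Finsupp.mem_support_iff.2 h2)
    simp only at this
    omega
  have h3 := DFunLike.congr_fun h (b.1, b.2 + 1)
  rw [Finsupp.sub_apply, Finsupp.smul_apply, h1, h2, smul_zero, sub_zero] at h3
  exact Finsupp.mem_support_iff.1 hb h3

/-- For one cell on sheet `k > 0`: `sg (Q, k) - l ^ k • sg (Q, 0)` is the sum over `0 ≤ j < k` of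
`l ^ (k - 1 - j) • (deck - l) (sg (Q, j))` (induction on `k`, both directions). Then span induction. -/
theorem divide {l : ℂ} (hl : l ≠ 0) {B : Set (Cell × ℤ)}
    (hB : ∀ Q k, (Q, k) ∈ B → ∀ j ∈ uIcc (0 : ℤ) k, (Q, j) ∈ B) {w : Ch (Cell × ℤ)}
    (hw : w ∈ Finsupp.supported ℂ ℂ B) :
    ∃ w' ∈ Finsupp.supported ℂ ℂ B, w - liftG 0 (pl l w) = deck w' - l • w' := by
  have one : ∀ (Q : Cell) (k : ℤ), (∀ j ∈ uIcc (0 : ℤ) k, (Q, j) ∈ B) →
      ∃ w' ∈ Finsupp.supported ℂ ℂ B, sg (Q, k) - l ^ k • sg (Q, 0) = deck w' - l • w' := by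
    intro Q k
    induction k using Int.induction_on with
    | zero => exact fun _ => ⟨0, Submodule.zero_mem _, by simp⟩
    | succ k ih =>
      intro h
      have hs : uIcc (0 : ℤ) k ⊆ uIcc (0 : ℤ) (k + 1) :=
        uIcc_subset_uIcc left_mem_uIcc (mem_uIcc.2 (Or.inl ⟨by omega, by omega⟩))
      obtain ⟨w', h1, h2⟩ := ih fun j hj => h j (hs hj)
      refine ⟨sg (Q, (k : ℤ)) + l • w', Submodule.add_mem _
        (Finsupp.single_mem_supported ℂ 1 (h _ (hs right_mem_uIcc))) (Submodule.smul_mem _ _ h1), ?_⟩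
      rw [map_add, map_smul, deck_sg, eq_add_of_sub_eq h2.symm, zpow_add_one₀ hl]
      module
    | pred k ih =>
      intro h
      have hs : uIcc (0 : ℤ) (-k) ⊆ uIcc (0 : ℤ) (-k - 1) :=
        uIcc_subset_uIcc left_mem_uIcc (mem_uIcc.2 (Or.inr ⟨by omega, by omega⟩))
      obtain ⟨w', h1, h2⟩ := ih fun j hj => h j (hs hj)
      refine ⟨l⁻¹ • (w' - sg (Q, -(k : ℤ) - 1)), Submodule.smul_mem _ _ (Submodule.sub_mem _ h1
        (Finsupp.single_mem_supported ℂ 1 (h _ right_mem_uIcc))), ?_⟩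
      rw [map_smul, map_sub, deck_sg, eq_add_of_sub_eq h2.symm, zpow_sub_one₀ hl, smul_smul,
        mul_inv_cancel₀ hl, sub_add_cancel]
      simp only [smul_sub, smul_add, smul_smul, inv_mul_cancel₀ hl, one_smul]
      module
  rw [Finsupp.supported_eq_span_single] at hw
  induction hw using Submodule.span_induction with
  | mem x hx =>
    obtain ⟨⟨Q, k⟩, hb, rfl⟩ := hx
    obtain ⟨w', h1, h2⟩ := one Q k (hB Q k hb)
    refine ⟨w', h1, ?_⟩
    rw [← h2]
    change sg (Q, k) - liftG 0 (pl l (sg (Q, k))) = _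
    rw [pl_sg, map_smul, liftG_sg]
    rfl
  | zero => exact ⟨0, Submodule.zero_mem _, by simp⟩
  | add x y _ _ hx hy =>
    obtain ⟨x', h1, h2⟩ := hx
    obtain ⟨y', h3, h4⟩ := hy
    refine ⟨x' + y', Submodule.add_mem _ h1 h3, ?_⟩
    rw [map_add, map_add, map_add, add_sub_add_comm, h2, h4, smul_add, add_sub_add_comm]
  | smul a x _ hx =>
    obtain ⟨x', h1, h2⟩ := hx
    refine ⟨a • x', Submodule.smul_mem _ _ h1, ?_⟩
    rw [map_smul, map_smul, map_smul, ← smul_sub, h2, smul_sub, smul_comm]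

end Pool.Agent.Lib.MP_399f8e_an.Lk
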