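import Pool.Agent.Lib.MP_399f8e_an.Lk.TCube1

open Set Filter Topology Metric

noncomputable section

namespace Pool.Agent.Lib.MP_399f8e_an.Lk

variable {sh : Z3 → Fin 3 → ℤ}

namespace TCube3Aux

theorem univ_of_card {I : Finset (Fin 3)} (h : I.card = 3) : I = Finset.univ :=
  Finset.eq_univ_of_card I (by simpa using h)

theorem erase_ne {i : Fin 3} (hi : i ≠ 0) :
    (Finset.univ.erase i : Finset (Fin 3)) ≠ Finset.univ.erase 0 := by
  intro h
  have h1 : i ∈ (Finset.univ.erase 0 : Finset (Fin 3)) := by simp [hi]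
  rw [← h] at h1
  simp at h1

theorem sgn_zero : sgn Finset.univ 0 = 1 := by
  simp [sgn]

theorem ne_up {m n : Z3} (h : m 0 ≤ n 0) : m ≠ n + ee 0 := by
  intro e
  have := congrFun e 0
  simp [ee] at this
  omega

theorem apply_sum {β γ : Type} (F : Ch β →ₗ[ℂ] Ch γ) (w : Ch β) (t : γ) :
    F w t = ∑ b ∈ w.support, w b * F (sg b) t := by
  conv_lhs => rw [← Finsupp.sum_single w]
  rw [Finsupp.sum, map_sum, Finsupp.finsetSum_apply]
  refine Finset.sum_congr rfl fun b _ => ?_
  have : Finsupp.single b (w b) = w b • sg b := by simp [sg]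
  rw [this, map_smul, Finsupp.smul_apply, smul_eq_mul]

theorem cellT {m n : Z3} (h : m 0 ≤ n 0) (j k : ℤ) :
    bdT sh (sg ((m, Finset.univ), j)) ((n + ee 0, Finset.univ.erase 0), k + sh n 0) =
      if ((m, Finset.univ), j) = (((n, Finset.univ), k) : Cell × ℤ) then 1 else 0 := by
  classical
  rw [bdT_sg, Finsupp.finsetSum_apply, Finset.sum_eq_single (0 : Fin 3)]
  · have h2 : (sg ((m, Finset.univ.erase 0), j) : Ch (Cell × ℤ))
        ((n + ee 0, Finset.univ.erase 0), k + sh n 0) = 0 := by
      apply Finsupp.single_eq_of_ne'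
      intro e
      exact ne_up h (congrArg (fun b : Cell × ℤ => b.1.1) e)
    simp only [Finsupp.smul_apply, Finsupp.sub_apply, sgn_zero, h2, smul_eq_mul, one_mul, sub_zero]
    rw [Finsupp.single_apply]
    congr 1
    apply propext
    constructor
    · intro e
      have e1 : m + ee 0 = n + ee 0 := congrArg (fun b : Cell × ℤ => b.1.1) e
      have e2 : j + sh m 0 = k + sh n 0 := congrArg (fun b : Cell × ℤ => b.2) e
      have e3 : m = n := add_right_cancel e1
      subst e3
      have e4 : j = k := add_right_cancel e2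
      rw [e4]
    · intro e
      have e1 : m = n := congrArg (fun b : Cell × ℤ => b.1.1) e
      have e2 : j = k := congrArg (fun b : Cell × ℤ => b.2) e
      rw [e1, e2]
  · intro i _ hi
    have h1 : (sg ((m + ee i, Finset.univ.erase i), j + sh m i) : Ch (Cell × ℤ))
        ((n + ee 0, Finset.univ.erase 0), k + sh n 0) = 0 := by
      apply Finsupp.single_eq_of_ne'
      intro e
      exact erase_ne hi (congrArg (fun b : Cell × ℤ => b.1.2) e)
    have h2 : (sg ((m, Finset.univ.erase i), j) : Ch (Cell × ℤ))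
        ((n + ee 0, Finset.univ.erase 0), k + sh n 0) = 0 := by
      apply Finsupp.single_eq_of_ne'
      intro e
      exact erase_ne hi (congrArg (fun b : Cell × ℤ => b.1.2) e)
    simp only [Finsupp.smul_apply, Finsupp.sub_apply, h1, h2, sub_zero, smul_zero]
  · intro h0
    exact absurd (Finset.mem_univ _) h0

theorem cellP (l : ℂ) {m n : Z3} (h : m 0 ≤ n 0) :
    pl l (bdT sh (liftG 0 (sg (m, Finset.univ)))) (n + ee 0, Finset.univ.erase 0) =
      if ((m, Finset.univ) : Cell) = (n, Finset.univ) then l ^ sh n 0 else 0 := by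
  classical
  rw [liftG_sg, bdT_sg, map_sum, Finsupp.finsetSum_apply, Finset.sum_eq_single (0 : Fin 3)]
  · have h2 : (sg (m, Finset.univ.erase 0) : Ch Cell) (n + ee 0, Finset.univ.erase 0) = 0 := by
      apply Finsupp.single_eq_of_ne'
      intro e
      exact ne_up h (congrArg (fun b : Cell => b.1) e)
    simp only [map_smul, map_sub, pl_sg, Finsupp.smul_apply, Finsupp.sub_apply, sgn_zero, h2,
      smul_eq_mul, one_mul, mul_zero, sub_zero, Pi.zero_apply, zero_add]
    rw [Finsupp.single_apply]
    by_cases e : m = n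
    · subst e
      simp
    · have e1 : ¬ ((m + ee 0, Finset.univ.erase 0) : Cell) = (n + ee 0, Finset.univ.erase 0) :=
        fun e' => e (add_right_cancel (congrArg (fun b : Cell => b.1) e'))
      have e2 : ¬ ((m, Finset.univ) : Cell) = (n, Finset.univ) :=
        fun e' => e (congrArg (fun b : Cell => b.1) e')
      rw [if_neg e1, if_neg e2, mul_zero]
  · intro i _ hi
    have h1 : (sg (m + ee i, Finset.univ.erase i) : Ch Cell)
        (n + ee 0, Finset.univ.erase 0) = 0 := by
      apply Finsupp.single_eq_of_ne'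
      intro e
      exact erase_ne hi (congrArg (fun b : Cell => b.2) e)
    have h2 : (sg (m, Finset.univ.erase i) : Ch Cell) (n + ee 0, Finset.univ.erase 0) = 0 := by
      apply Finsupp.single_eq_of_ne'
      intro e
      exact erase_ne hi (congrArg (fun b : Cell => b.2) e)
    simp only [map_smul, map_sub, pl_sg, Finsupp.smul_apply, Finsupp.sub_apply, h1, h2, smul_zero,
      sub_zero]
  · intro h0
    exact absurd (Finset.mem_univ _) h0

end TCube3Aux

open TCube3Aux in
/-- Only the cell itself and the cell above it have this face. -/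
theorem top_face {w : Ch (Cell × ℤ)} (hw : ∀ b ∈ w.support, b.1.2.card = 3) {n : Z3}
    (hn : ∀ b ∈ w.support, b.1.1 0 ≤ n 0) (k : ℤ) :
    bdT sh w ((n + ee 0, Finset.univ.erase 0), k + sh n 0) = w ((n, Finset.univ), k) := by
  classical
  rw [apply_sum]
  have key : ∀ b ∈ w.support,
      w b * bdT sh (sg b) ((n + ee 0, Finset.univ.erase 0), k + sh n 0) =
        if b = ((n, Finset.univ), k) then w b else 0 := by
    rintro ⟨⟨m, I⟩, j⟩ hb
    have hI : I = Finset.univ := univ_of_card (hw _ hb)
    subst hI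
    rw [cellT (hn _ hb)]
    split_ifs <;> simp
  rw [Finset.sum_congr rfl key, Finset.sum_ite_eq']
  split_ifs with h
  · rfl
  · exact (Finsupp.notMem_support_iff.1 h).symm

open TCube3Aux in
theorem top_inj {w : Ch (Cell × ℤ)} (hw : ∀ b ∈ w.support, b.1.2.card = 3) (h : bdT sh w = 0) :
    w = 0 := by
  by_contra hne
  obtain ⟨⟨⟨n, I⟩, k⟩, hb, hmax⟩ := w.support.exists_max_image (fun b : Cell × ℤ => b.1.1 0)
    (Finsupp.support_nonempty_iff.2 hne)
  have hI : I = Finset.univ := univ_of_card (hw _ hb)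
  subst hI
  have h1 := top_face (sh := sh) hw (n := n) hmax k
  rw [h] at h1
  exact Finsupp.mem_support_iff.1 hb h1.symm

open TCube3Aux in
/-- At the upper face of a cube (n, univ) of the support with `n 0` largest, the coefficient is
`l ^ sh n 0 * u (n, univ)`. -/
theorem top_pl {l : ℂ} (hl : l ≠ 0) {u : Ch Cell} (hu : ∀ Q ∈ u.support, Q.2.card = 3)
    (h : pl l (bdT sh (liftG 0 u)) = 0) : u = 0 := by
  classical
  by_contra hne
  obtain ⟨⟨n, I⟩, hb, hmax⟩ := u.support.exists_max_image (fun Q : Cell => Q.1 0)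
    (Finsupp.support_nonempty_iff.2 hne)
  have hI : I = Finset.univ := univ_of_card (hu _ hb)
  subst hI
  have h1 := apply_sum ((pl l).comp ((bdT sh).comp (liftG 0))) u (n + ee 0, Finset.univ.erase 0)
  simp only [LinearMap.comp_apply] at h1
  have key : ∀ Q ∈ u.support,
      u Q * pl l (bdT sh (liftG 0 (sg Q))) (n + ee 0, Finset.univ.erase 0) =
        if Q = (n, Finset.univ) then u Q * l ^ sh n 0 else 0 := by
    rintro ⟨m, I⟩ hQ
    have hI : I = Finset.univ := univ_of_card (hu _ hQ)
    subst hI
    rw [cellP l (hmax _ hQ)]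
    split_ifs <;> simp
  rw [h, Finset.sum_congr rfl key, Finset.sum_ite_eq', if_pos hb] at h1
  have h2 : u (n, Finset.univ) * l ^ sh n 0 = 0 := h1.symm
  rcases mul_eq_zero.1 h2 with h3 | h3
  · exact Finsupp.mem_support_iff.1 hb h3
  · exact zpow_ne_zero _ hl h3

end Pool.Agent.Lib.MP_399f8e_an.Lk
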