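import Pool.Agent.Lib.MP_399f8e_an.Lk.TCube1

open Set Filter Topology Metric

noncomputable section

namespace Pool.Agent.Lib.MP_399f8e_an.Lk

variable {X : Type} [MetricSpace X] {ι : P3 → X} {θ : X → Ci} {θ₀ : X → ℝ} {M M' : Set X} {B : ℝ}

/-- `ι ⁻¹' M` is compact (`ι` is an embedding whose range contains `M`). -/
theorem CxData.cpt (h : CxData ι θ θ₀ M M' B) : IsCompact (ι ⁻¹' M) := by
  exact h.emb.isInducing.isCompact_preimage' h.cM h.rng

/-- Uniform continuity of `ι` and of `θ ∘ ι` on `ι ⁻¹' M`. -/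
theorem CxData.unif (h : CxData ι θ θ₀ M M' B) {ω : ℝ} (hω : 0 < ω) :
    ∃ δ : ℝ, 0 < δ ∧ ∀ u v : P3, ι u ∈ M → ι v ∈ M → dist u v ≤ δ →
      dist (ι u) (ι v) ≤ ω ∧ ‖θ (ι u) - θ (ι v)‖ ≤ ω := by
  have h1 : UniformContinuousOn ι (ι ⁻¹' M) :=
    h.cpt.uniformContinuousOn_of_continuous h.emb.continuous.continuousOn
  have h2 : UniformContinuousOn (fun u => θ (ι u)) (ι ⁻¹' M) :=
    h.cpt.uniformContinuousOn_of_continuous
      (h.cont.comp h.emb.continuous.continuousOn fun _ hu => hu)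
  obtain ⟨δ₁, p1, q1⟩ := Metric.uniformContinuousOn_iff_le.1 h1 ω hω
  obtain ⟨δ₂, p2, q2⟩ := Metric.uniformContinuousOn_iff_le.1 h2 ω hω
  refine ⟨min δ₁ δ₂, lt_min p1 p2, fun u v hu hv hd =>
    ⟨q1 u hu v hv (hd.trans (min_le_left _ _)), ?_⟩⟩
  rw [← dist_eq_norm]
  exact q2 u hu v hv (hd.trans (min_le_right _ _))

/-- `‖θ x - a‖ = |θ₀ x - a - round (θ₀ x - a)|` (`AddCircle.norm_eq`, `round` of the opposite away
from the half integers). -/
theorem CxData.sheet (h : CxData ι θ θ₀ M M' B) {x : X} {a ω : ℝ} (hω : ω < 1 / 2)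
    (ha : ‖θ x - (a : Ci)‖ ≤ ω) : |θ₀ x + round (a - θ₀ x) - a| ≤ ω := by
  rw [norm_sub_rev, ← h.rep x, ← AddCircle.coe_sub, AddCircle.norm_eq] at ha
  simp only [inv_one, one_mul, mul_one] at ha
  rw [← abs_neg]
  convert ha using 2
  ring

/-- Both sides are integers within less than one of each other. -/
theorem CxData.cob (h : CxData ι θ θ₀ M M' B) {x x' : X} {a : ℝ}
    (hx : ‖θ x - (a : Ci)‖ ≤ 1 / 8) (hx' : ‖θ x' - (a : Ci)‖ ≤ 1 / 8) :
    round (θ₀ x - θ₀ x') = round (a - θ₀ x') - round (a - θ₀ x) := by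
  have h1 := abs_le.1 (h.sheet (by norm_num) hx)
  have h2 := abs_le.1 (h.sheet (by norm_num) hx')
  rw [round_eq (θ₀ x - θ₀ x'), Int.floor_eq_iff]
  push_cast
  constructor <;> linarith [h1.1, h1.2, h2.1, h2.2]

theorem CxData.ovr_cpt (h : CxData ι θ θ₀ M M' B) : IsCompact (ovr θ M B) := by
  have hK : IsCompact (M ×ˢ Icc (-B) B) := h.cM.prod isCompact_Icc
  have hc : ContinuousOn (fun y : X × ℝ => ((y.2 : ℝ) : Ci) - θ y.1) (M ×ˢ Icc (-B) B) :=
    ((AddCircle.continuous_mk' (1 : ℝ)).comp continuous_snd).continuousOn.sub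
      (h.cont.comp continuous_fst.continuousOn fun _ hy => hy.1)
  have hcl := hc.preimage_isClosed_of_isClosed hK.isClosed (isClosed_singleton (x := 0))
  have e : ovr θ M B =
      M ×ˢ Icc (-B) B ∩ (fun y : X × ℝ => ((y.2 : ℝ) : Ci) - θ y.1) ⁻¹' {0} := by
    ext y
    simp only [ovr, mem_ofPred_eq, mem_inter_iff, mem_prod, mem_Icc, mem_preimage,
      mem_singleton_iff, sub_eq_zero, abs_le]
    tauto
  rw [e]
  exact hK.of_isClosed_subset hcl inter_subset_left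

theorem CxData.posK (h : CxData ι θ θ₀ M M' B) (c : ℝ) :
    ∀ b ∈ (cx ι θ₀ M B c).N, (cx ι θ₀ M B c).pos b ∈ ovr θ M B := by
  rintro b ⟨h1, h2⟩
  refine ⟨?_, ?_, h2.trans (sub_le_self _ (by positivity))⟩
  · have := h1 _ (corner_mem b.1)
    rwa [← lat_eq] at this
  · change ((θ₀ (ι (lat c b.1.1)) + (b.2 : ℝ) : ℝ) : Ci) = θ (ι (lat c b.1.1))
    have e : (((b.2 : ℤ) : ℝ) : Ci) = 0 := (AddCircle.coe_eq_zero_iff (1 : ℝ)).2 ⟨b.2, by simp⟩
    rw [AddCircle.coe_add, h.rep, e, add_zero]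

/-- There is `μ > 0` such that `ι u ∈ M'` and `dist v u ≤ μ` give `ι v ∈ M`. -/
theorem CxData.margin (h : CxData ι θ θ₀ M M' B) :
    ∃ μ : ℝ, 0 < μ ∧ ∀ u v : P3, ι u ∈ M' → dist v u ≤ μ → ι v ∈ M := by
  have hK : IsCompact (ι ⁻¹' M') := h.emb.isInducing.isCompact_preimage' h.cM'
    ((h.int.trans interior_subset).trans h.rng)
  obtain ⟨μ, hμ, hs⟩ := hK.exists_cthickening_subset_open
    (isOpen_interior.preimage h.emb.continuous) (preimage_mono h.int)
  exact ⟨μ, hμ, fun u v hu hd =>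
    interior_subset (hs (mem_cthickening_of_dist_le v u μ _ hu hd))⟩

/-- The lattice point `floor (u / c)` on the sheet `round (a - θ₀ _)`. -/
theorem CxData.vert (h : CxData ι θ θ₀ M M' B) {ε : ℝ} (hε : 0 < ε) :
    ∀ᶠ c in 𝓝[>] (0 : ℝ), (cx ι θ₀ M B c).Vert (ovr θ M' (B - 2)) ε := by
  obtain ⟨μ, hμ, hm⟩ := h.margin
  obtain ⟨δ, hδ, hd⟩ := h.unif (ω := min ε (1 / 4)) (lt_min hε (by norm_num))
  filter_upwards [Ioo_mem_nhdsGT (lt_min hμ hδ)] with c hc
  rintro ⟨x, a⟩ ⟨hx, ha, hB⟩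
  have hxM : x ∈ M := interior_subset (h.int hx)
  obtain ⟨u, rfl⟩ := h.rng hxM
  have hc0 : 0 < c := hc.1
  set n : Z3 := fun i => ⌊u i / c⌋ with hn
  have hdist : dist (lat c n) u ≤ c := by
    refine (dist_pi_le_iff hc0.le).2 fun i => ?_
    have h1 := Int.floor_le (u i / c)
    have h2 := Int.lt_floor_add_one (u i / c)
    rw [le_div_iff₀ hc0] at h1
    rw [div_lt_iff₀ hc0] at h2
    rw [Real.dist_eq, abs_le]
    simp only [lat, hn]
    constructor <;> nlinarith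
  have hlM : ι (lat c n) ∈ M := hm u _ hx (hdist.trans (hc.2.le.trans (min_le_left _ _)))
  obtain ⟨k1, k2⟩ := hd _ u hlM hxM (hdist.trans (hc.2.le.trans (min_le_right _ _)))
  simp only at ha hB
  rw [← ha] at k2
  have k3 := h.sheet ((min_le_right _ _).trans_lt (by norm_num)) k2
  refine ⟨((n, ∅), round (a - θ₀ (ι (lat c n)))), ⟨⟨fun x hx' => ?_, ?_⟩, ?_⟩, rfl⟩
  · have e : x = fun i => (n i : ℝ) := funext fun i => by
      have := hx' i
      simp only [Finset.notMem_empty, if_false, add_zero] at this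
      exact le_antisymm this.2 this.1
    rw [e, ← lat_eq]
    exact hlM
  · have k4 := abs_le.1 (k3.trans (min_le_right _ _))
    have k5 := abs_le.1 hB
    simp only [Finset.card_empty, Nat.cast_zero, zero_div, sub_zero]
    rw [abs_le]
    constructor <;> linarith [k4.1, k4.2, k5.1, k5.2]
  · change dist (ι (lat c n), θ₀ (ι (lat c n)) + (round (a - θ₀ (ι (lat c n))) : ℝ)) (ι u, a) ≤ ε
    rw [Prod.dist_eq, Real.dist_eq]
    exact max_le (k1.trans (min_le_left _ _)) (k3.trans (min_le_left _ _))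

end Pool.Agent.Lib.MP_399f8e_an.Lk
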