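import Pool.Agent.Lib.MP_399f8e_an.Lk.TCx1

open Set Filter Topology Metric

noncomputable section

namespace Pool.Agent.Lib.MP_399f8e_an.Lk

variable {X : Type} [MetricSpace X] {ι : P3 → X} {θ : X → Ci} {θ₀ : X → ℝ} {M M' : Set X} {B : ℝ}

namespace TCxOkAux

theorem dist_body {Q : Cell} {x y : P3} (hx : x ∈ body Q) (hy : y ∈ body Q) : dist x y ≤ 1 := by
  refine (dist_pi_le_iff zero_le_one).2 fun i => ?_
  have h1 := hx i
  have h2 := hy i
  rw [Real.dist_eq, abs_le]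
  split_ifs at h1 h2 <;> constructor <;> linarith [h1.1, h1.2, h2.1, h2.2]

theorem fin (h : CxData ι θ θ₀ M M' B) {c : ℝ} (hc : 0 < c) : (cx ι θ₀ M B c).N.Finite := by
  obtain ⟨R, hR⟩ := h.cpt.isBounded.exists_norm_le
  refine (((finite_Icc (fun _ => -⌈R / c⌉ : Z3) fun _ => ⌈R / c⌉).prod
    (finite_univ (α := Finset (Fin 3)))).prod (finite_Icc (-⌈B + 1⌉) ⌈B + 1⌉)).subset ?_
  rintro ⟨⟨n, I⟩, k⟩ ⟨h1, h2⟩
  have h3 : ∀ i, |(n i : ℝ)| ≤ ⌈R / c⌉ := fun i => by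
    have h4 := (norm_le_pi_norm _ i).trans (hR _ (h1 _ (corner_mem (n, I))))
    rw [Pi.smul_apply, smul_eq_mul, Real.norm_eq_abs, abs_mul, abs_of_pos hc] at h4
    exact ((le_div_iff₀' hc).2 h4).trans (Int.le_ceil _)
  have h5 : |(k : ℝ)| ≤ ⌈B + 1⌉ := by
    have h6 := h.rep0 (ι (lat c n))
    have h7 : (0 : ℝ) ≤ (I.card : ℝ) / 2 := by positivity
    have h8 := abs_le.1 h2
    refine le_trans (abs_le.2 ⟨?_, ?_⟩) (Int.le_ceil _) <;> linarith [h6.1, h6.2, h8.1, h8.2]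
  refine ⟨⟨⟨fun i => ?_, fun i => ?_⟩, mem_univ _⟩, ?_, ?_⟩
  · exact_mod_cast (abs_le.1 (h3 i)).1
  · exact_mod_cast (abs_le.1 (h3 i)).2
  · exact_mod_cast (abs_le.1 h5).1
  · exact_mod_cast (abs_le.1 h5).2

omit [MetricSpace X] in
theorem aug_sg (c : ℝ) (b : Cell × ℤ) :
    (cx ι θ₀ M B c).aug (sg b) = if b.1.2.card = 0 then 1 else 0 := by
  simp only [Cx.aug, sg, Finsupp.linearCombination_single, one_smul]
  rfl

end TCxOkAux

/-- Finite: corners lie in a bounded set, sheets are bounded. Faces: `faceT`, `body_face`, `unif`,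
`sheet` with `a` the level of the cell. `dd`, `aug_bd`: with `g n = round (a - θ₀ (ι (lat c n)))` one
has `sg b = liftG g (sg b.1)`, and `liftG_bd` applies to the cell and to its faces by `cob`. -/
theorem CxData.ok (h : CxData ι θ θ₀ M M' B) {ω : ℝ} (hω : 0 < ω) :
    ∀ᶠ c in 𝓝[>] (0 : ℝ), (cx ι θ₀ M B c).Ok ω := by
  obtain ⟨δ, hδ, hu⟩ := h.unif (lt_min hω (by norm_num : (0 : ℝ) < 1 / 8))
  filter_upwards [Ioo_mem_nhdsGT hδ] with c hc
  set sh : Z3 → Fin 3 → ℤ := fun n i => round (θ₀ (ι (lat c n)) - θ₀ (ι (lat c (n + ee i))))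
    with hsh
  have near : ∀ b ∈ (cx ι θ₀ M B c).N, ∀ Q : Cell, body Q ⊆ body b.1 →
      dist (ι (lat c Q.1)) (ι (lat c b.1.1)) ≤ min ω (1 / 8) ∧
      ‖θ (ι (lat c Q.1)) - ((θ₀ (ι (lat c b.1.1)) + b.2 : ℝ) : Ci)‖ ≤ min ω (1 / 8) := by
    intro b hb Q hQ
    have h1 := hQ (corner_mem Q)
    have h2 := corner_mem b.1
    have h3 : ((b.2 : ℝ) : Ci) = 0 := (AddCircle.coe_eq_zero_iff (1 : ℝ)).2 ⟨b.2, by simp⟩
    rw [AddCircle.coe_add, h.rep, h3, add_zero, lat_eq, lat_eq]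
    refine hu _ _ (hb.1 _ h1) (hb.1 _ h2) ?_
    rw [dist_smul₀, Real.norm_eq_abs, abs_of_pos hc.1]
    exact (mul_le_of_le_one_right hc.1.le (TCxOkAux.dist_body h1 h2)).trans hc.2.le
  have cob : ∀ b ∈ (cx ι θ₀ M B c).N, ∀ Q : Cell, body Q ⊆ body b.1 → ∀ i ∈ Q.2,
      sh Q.1 i = round (θ₀ (ι (lat c b.1.1)) + b.2 - θ₀ (ι (lat c (Q.1 + ee i)))) -
        round (θ₀ (ι (lat c b.1.1)) + b.2 - θ₀ (ι (lat c Q.1))) := fun b hb Q hQ i hi =>
    h.cob ((near b hb Q hQ).2.trans (min_le_right _ _))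
      ((near b hb (Q.1 + ee i, Q.2.erase i) ((body_face hi).1.trans hQ)).2.trans (min_le_right _ _))
  have own : ∀ b : Cell × ℤ, round (θ₀ (ι (lat c b.1.1)) + b.2 - θ₀ (ι (lat c b.1.1))) = b.2 :=
    fun b => by rw [add_sub_cancel_left, round_intCast]
  refine ⟨TCxOkAux.fin h hc.1, fun b => by simpa [cx] using Finset.card_le_univ b.1.2,
    fun b hb b' hb' => ?_, fun b hb => ?_, fun b hb => ?_⟩
  · obtain ⟨i, hi, hb'⟩ := faceT (sh := sh) hb'
    have hcard := Finset.card_erase_add_one hi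
    have hcard' : ((b.1.2.erase i).card : ℝ) + 1 = b.1.2.card := by exact_mod_cast hcard
    have h2 := hb.2
    rcases hb' with rfl | rfl
    · have h3 := near b hb (b.1.1 + ee i, b.1.2.erase i) (body_face hi).1
      have h4 := h.sheet ((min_le_right _ _).trans_lt (by norm_num)) h3.2
      have h5 : b.2 + sh b.1.1 i =
          round (θ₀ (ι (lat c b.1.1)) + b.2 - θ₀ (ι (lat c (b.1.1 + ee i)))) := by
        rw [cob b hb b.1 Subset.rfl i hi, own]; ring
      rw [← h5] at h4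
      refine ⟨⟨fun x hx => hb.1 x ((body_face hi).1 hx), ?_⟩, hcard, ?_⟩
      · have h6 := abs_le.1 (h4.trans (min_le_right _ _))
        have h7 := abs_le.1 h2
        exact abs_le.2 ⟨by linarith [h6.1, h7.1], by linarith [h6.2, h7.2]⟩
      · exact max_le (h3.1.trans (min_le_left _ _)) (h4.trans (min_le_left _ _))
    · refine ⟨⟨fun x hx => hb.1 x ((body_face hi).2 hx), h2.trans ?_⟩, hcard, ?_⟩
      · linarith
      · exact (dist_self _).le.trans hω.le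
  · set g : Z3 → ℤ := fun m => round (θ₀ (ι (lat c b.1.1)) + b.2 - θ₀ (ι (lat c m))) with hg
    have lift : ∀ Q : Cell, body Q ⊆ body b.1 →
        bdT sh (liftG g (sg Q)) = liftG g (bd0 (sg Q)) := fun Q hQ => liftG_bd (cob b hb Q hQ)
    have e : sg b = liftG g (sg b.1) := by rw [liftG_sg, hg]; simp only [own]
    have e2 : bdT sh (liftG g (bd0 (sg b.1))) = liftG g (bd0 (bd0 (sg b.1))) := by
      rw [bd0_sg]
      simp only [map_sum, map_smul, map_sub]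
      refine Finset.sum_congr rfl fun i hi => ?_
      rw [lift _ (body_face hi).1, lift _ (body_face hi).2]
    change bdT sh (bdT sh (sg b)) = 0
    rw [e, lift _ Subset.rfl, e2, bd0_bd0, map_zero]
  · change (cx ι θ₀ M B c).aug (bdT sh (sg b)) = 0
    rw [bdT_sg]
    simp only [map_sum, map_smul, map_sub, TCxOkAux.aug_sg, sub_self, smul_zero,
      Finset.sum_const_zero]

end Pool.Agent.Lib.MP_399f8e_an.Lk
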