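import Pool.Agent.Lib.MP_399f8e_an.Lk.TEv1

open Set Filter Topology Metric

noncomputable section

namespace Pool.Agent.Lib.MP_399f8e_an.Lk

variable {β Y : Type} [MetricSpace Y] {X : ℝ → Cx β Y} {Ka G K' : Set Y} {H : ℝ → Y → Y}

namespace TEvAux

theorem gap (hH : Path Ka G K' H) {O : Set Y} (hcol : Col K' O H) :
    ∃ μ : ℝ, 0 < μ ∧ ∀ t ∈ Icc (0 : ℝ) 1, ∀ y ∈ K' ∩ O, ∀ y' ∈ K' \ O,
      4 * μ ≤ dist y y' + dist (H t y) y ∧ 4 * μ ≤ dist y y' + dist (H t y') y' := by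
  have hcl : IsClosed K' := hH.cpt.isClosed
  have s1 : closure (K' ∩ O) ⊆ K' := closure_minimal inter_subset_left hcl
  have s2 : closure (K' \ O) ⊆ K' := closure_minimal sdiff_subset hcl
  have c1 : IsCompact (closure (K' ∩ O)) := hH.cpt.of_isClosed_subset isClosed_closure s1
  have c2 : IsCompact (closure (K' \ O)) := hH.cpt.of_isClosed_subset isClosed_closure s2
  have cT : IsCompact (Icc (0 : ℝ) 1 ×ˢ (closure (K' ∩ O) ×ˢ closure (K' \ O))) :=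
    isCompact_Icc.prod (c1.prod c2)
  have k1 : ContinuousOn (fun p : ℝ × (Y × Y) => H p.1 p.2.1)
      (Icc (0 : ℝ) 1 ×ˢ (closure (K' ∩ O) ×ˢ closure (K' \ O))) :=
    hH.cont.comp (f := fun p : ℝ × (Y × Y) => (p.1, p.2.1)) (by fun_prop)
      fun p hp => ⟨hp.1, s1 hp.2.1⟩
  have k2 : ContinuousOn (fun p : ℝ × (Y × Y) => H p.1 p.2.2)
      (Icc (0 : ℝ) 1 ×ˢ (closure (K' ∩ O) ×ˢ closure (K' \ O))) :=
    hH.cont.comp (f := fun p : ℝ × (Y × Y) => (p.1, p.2.2)) (by fun_prop)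
      fun p hp => ⟨hp.1, s2 hp.2.2⟩
  have kc : ContinuousOn (fun p : ℝ × (Y × Y) => dist p.2.1 p.2.2 +
      min (dist (H p.1 p.2.1) p.2.1) (dist (H p.1 p.2.2) p.2.2))
      (Icc (0 : ℝ) 1 ×ˢ (closure (K' ∩ O) ×ˢ closure (K' \ O))) := by
    refine ContinuousOn.add (by fun_prop) ?_
    refine continuous_min.comp_continuousOn (f := fun p : ℝ × (Y × Y) =>
      (dist (H p.1 p.2.1) p.2.1, dist (H p.1 p.2.2) p.2.2)) (ContinuousOn.prodMk ?_ ?_)
    · exact continuous_dist.comp_continuousOn (k1.prodMk (by fun_prop))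
    · exact continuous_dist.comp_continuousOn (k2.prodMk (by fun_prop))
  obtain ⟨m, hm, hle⟩ := cT.exists_forall_le' (a := 0) kc (by
    rintro ⟨t, y, y'⟩ ⟨ht, hy, hy'⟩
    by_cases hyy : y = y'
    · subst hyy
      have : 0 < dist (H t y) y := dist_pos.2 (hcol t ht y hy hy')
      simpa using this
    · have h1 : 0 < dist y y' := dist_pos.2 hyy
      have h2 : 0 ≤ min (dist (H t y) y) (dist (H t y') y') := le_min dist_nonneg dist_nonneg
      exact add_pos_of_pos_of_nonneg h1 h2)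
  refine ⟨m / 4, by positivity, fun t ht y hy y' hy' => ?_⟩
  have h := hle (t, y, y') ⟨ht, subset_closure hy, subset_closure hy'⟩
  have h1 := min_le_left (dist (H t y) y) (dist (H t y') y')
  have h2 := min_le_right (dist (H t y) y) (dist (H t y') y')
  simp only at h
  constructor <;> linarith

theorem sg_mem {Z : Cx β Y} {A : Set β} {b : β} {k : ℕ} (hb : b ∈ A) (hk : Z.dim b = k) :
    sg b ∈ Z.ch A k :=
  Finsupp.single_mem_supported ℂ (1 : ℂ) (show b ∈ {b | b ∈ A ∧ Z.dim b = k} from ⟨hb, hk⟩)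

theorem near_mono {Z : Cx β Y} {y : Y} {r r' : ℝ} (h : r ≤ r') : Z.near y r ⊆ Z.near y r' :=
  fun _ hb => ⟨hb.1, hb.2.trans h⟩

theorem fill0 {Z : Cx β Y} {ω δ ε : ℝ} (hok : Z.Ok ω) (hf : Z.Fill G δ ε) {y : Y} (hy : y ∈ G)
    {z : Ch β} (hz : z ∈ Z.ch (Z.near y δ) 0) (ha : Z.aug z = 1) {u : β} (hu : u ∈ Z.near y δ)
    (hu0 : Z.dim u = 0) : ∃ w ∈ Z.ch Z.N 1, Z.bd w = z - sg u := by
  have hm : z - sg u ∈ Z.ch (Z.near y δ) 0 := sub_mem hz (sg_mem hu hu0)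
  have hN : ∀ e : ℝ, Z.near y e ⊆ Z.N := fun _ _ hb => hb.1
  obtain ⟨w, hw, hbw⟩ := hf y hy 0 _ hm (hok.bd_zero (Cx.ch_mono (hN δ) 0 hm))
    (by rw [map_sub, ha, Cx.aug_sg_of_dim hu0, sub_self])
  exact ⟨w, Cx.ch_mono (hN ε) 1 hw, hbw⟩

end TEvAux

open TEvAux

/-- On the compact set of the (t, y, y')` with `t ∈ Icc 0 1` and `y ∈ closure (K' ∩ O)`,
`y' ∈ closure (K' \ O)` or the other way round, `dist y y' + dist (H t y) y` is continuous and
positive, so at least `4 μ > 0`. Take `s = μ`, `ω₀ = min μ δ` (`δ` from `Nb`) in `Cx.Hty.ltr_eq`;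
`Rl c A φ φ'` is: if `A` contains the cells placed in `O` then the local traces agree. -/
theorem Fam.ev_ltr (hX : Fam X Ka G) (hH : Path Ka G K' H) {O : Set Y} (hnb : Nb Ka K' O)
    (hcol : Col K' O H) :
    Ev fun r c => ∀ (A : Set β) (φ φ' : Ch β →ₗ[ℂ] Ch β), (X c).Sub A →
      (∀ b ∈ A, (X c).pos b ∈ K') → (∀ b ∈ (X c).N, (X c).pos b ∈ O → b ∈ A) →
        (X c).Ctrl A (H 0) r φ → (X c).Ctrl A (H 1) r φ' → (X c).ltr O φ = (X c).ltr O φ' := by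
  obtain ⟨μ, hμ, hgap⟩ := gap hH hcol
  obtain ⟨δ, hδ, hnb⟩ := hnb
  obtain ⟨r₀, hr₀, hh⟩ := hX.ev_hty hH hμ
  have key := hX.ev_chain hH (fun c A φ φ' => (∀ b ∈ (X c).N, (X c).pos b ∈ O → b ∈ A) →
      (X c).ltr O φ = (X c).ltr O φ') (fun c A φ₁ φ₂ φ₃ h1 h2 hO => (h1 hO).trans (h2 hO)) hr₀ (by
    filter_upwards [hh, hX.ok (min μ δ) (lt_min hμ hδ), hX.posK] with c hc hok hpos
    intro t ht A hA hAK φ φ' h1 h2 hO
    obtain ⟨D, hD⟩ := hc t ht A hA hAK φ φ' h1 h2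
    refine hD.ltr_eq hok hA hO fun b hb b' hb' hd hiff => ?_
    have d1 : dist ((X c).pos b') ((X c).pos b) ≤ μ := hd.trans (min_le_left _ _)
    have d2 : dist ((X c).pos b') ((X c).pos b) ≤ δ := hd.trans (min_le_right _ _)
    have tri := dist_triangle (H t ((X c).pos b)) ((X c).pos b') ((X c).pos b)
    rw [dist_comm (H t ((X c).pos b)) ((X c).pos b')] at tri
    by_cases hbO : (X c).pos b ∈ O
    · have hb'K : (X c).pos b' ∈ K' := hnb _ (hpos b' hb') _ (hpos b (hA.sub hb)) hbO d2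
      have := (hgap t ht _ ⟨hAK b hb, hbO⟩ _ ⟨hb'K, hiff.1 hbO⟩).1
      rw [dist_comm ((X c).pos b) ((X c).pos b')] at this
      linarith
    · have hb'O : (X c).pos b' ∈ O := by
        by_contra hn
        exact hbO (hiff.2 hn)
      have := (hgap t ht _ ⟨hAK b' (hO b' hb' hb'O), hb'O⟩ _ ⟨hAK b hb, hbO⟩).2
      linarith)
  refine Ev.of_lt (half_pos hr₀) fun r _ hr => ?_
  filter_upwards [key] with c hc
  intro A φ φ' hA hAK hO h1 h2
  exact hc A hA hAK φ φ' (h1.mono Subset.rfl fun b _ => by rw [dist_self]; linarith)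
    (h2.mono Subset.rfl fun b _ => by rw [dist_self]; linarith) hO

/-- `Cx.Ctrl.comp`, uniform continuity of `f'` on `Ka`, and `ev_hty` for the constant family `f''`
with `K' = Ka`. -/
theorem Fam.ev_mul (hX : Fam X Ka G) {f f' f'' : Y → Y} (hf : MapsTo f Ka G)
    (hf' : ContinuousOn f' Ka) (hc : ContinuousOn f'' Ka) (hm : MapsTo f'' Ka G)
    (h : ∀ y ∈ Ka, f' (f y) = f'' y) :
    Ev fun r c => ∀ φ φ' φ'' : Ch β →ₗ[ℂ] Ch β, (X c).Ctrl (X c).N f r φ →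
      (X c).Ctrl (X c).N f' r φ' → (X c).Ctrl (X c).N f'' r φ'' →
        (X c).Hom (X c).N (φ' ∘ₗ φ) φ'' := by
  have hH : Path Ka G Ka fun _ => f'' :=
    ⟨hX.cpt, Subset.rfl, hc.comp continuous_snd.continuousOn fun p hp => hp.2,
      fun _ _ y hy => hm hy⟩
  obtain ⟨r₀, hr₀, hh⟩ := hX.ev_hty hH one_pos
  obtain ⟨δ, hδ, huc⟩ := Metric.uniformContinuousOn_iff.1
    (hX.cpt.uniformContinuousOn_of_continuous hf') (r₀ / 2) (half_pos hr₀)
  refine Ev.of_lt (lt_min hδ (half_pos hr₀)) fun r _ hr => ?_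
  have hr1 : r < δ := hr.trans_le (min_le_left _ _)
  have hr2 : r < r₀ / 2 := hr.trans_le (min_le_right _ _)
  filter_upwards [hh, hX.ok 1 one_pos, hX.posK] with c hcc hok hpos
  intro φ φ' φ'' h1 h2 h3
  have h4 := h1.comp h2 (s := r₀ / 2) fun b hb b' hb' hd =>
    (huc _ (hpos b' hb') _ (hX.sub (hf (hpos b hb))) (hd.trans_lt hr1)).le
  have h5 : (X c).Ctrl (X c).N f'' r₀ (φ' ∘ₗ φ) := h4.mono Subset.rfl fun b hb => by
    rw [h _ (hpos b hb), dist_self]; linarith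
  have h6 : (X c).Ctrl (X c).N f'' r₀ φ'' := h3.mono Subset.rfl fun b _ => by
    rw [dist_self]; linarith
  obtain ⟨D, hD⟩ := hcc 0 ⟨le_rfl, zero_le_one⟩ (X c).N hok.sub_N hpos _ _ h5 h6
  exact hD.hom

/-- Take `δ` from `hX.fill 1` and `r < δ / 2`. Choose a vertex `v y` within `r` of each `y ∈ Sg`;
`sg (v y) - sg (v y')` bounds when `dist y y' ≤ r`, hence for all `y, y'` in `Sg`
(`IsPreconnected.induction₂`). For a vertex `b` the chain `φ (sg b) - sg (v (f (pos b)))` is a cycle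
of augmentation zero near `f (pos b)`. Then span induction. -/
theorem Fam.ev_h0 (hX : Fam X Ka G) {Sg : Set Y} (hS : Sg ⊆ G) (hc : IsPreconnected Sg)
    (hn : Sg.Nonempty) :
    Ev fun r c => ∃ v ∈ (X c).N, (X c).dim v = 0 ∧ ∀ (f : Y → Y) (φ : Ch β →ₗ[ℂ] Ch β),
      (∀ b ∈ (X c).N, f ((X c).pos b) ∈ Sg) → (X c).Ctrl (X c).N f r φ →
        ∀ z ∈ (X c).ch (X c).N 0, ∃ w ∈ (X c).ch (X c).N 1,
          (X c).bd w = φ z - (X c).aug z • sg v := by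
  obtain ⟨δ, hδ, hfill⟩ := hX.fill 1 one_pos
  obtain ⟨y₀, hy₀⟩ := hn
  refine Ev.of_lt (half_pos hδ) fun r hr0 hr => ?_
  filter_upwards [hfill, hX.ok 1 one_pos, hX.vert r hr0] with c hf hok hv
  have hrδ : r ≤ δ := by linarith
  have loc : ∀ y ∈ Sg, ∀ u u', u ∈ (X c).near y δ → (X c).dim u = 0 → u' ∈ (X c).near y δ →
      (X c).dim u' = 0 → ∃ w ∈ (X c).ch (X c).N 1, (X c).bd w = sg u - sg u' :=
    fun y hy u u' hu hu0 hu' hu0' =>
      fill0 hok hf (hS hy) (sg_mem hu hu0) (Cx.aug_sg_of_dim hu0) hu' hu0'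
  have all : ∀ y ∈ Sg, ∀ y' ∈ Sg, ∀ u u', u ∈ (X c).near y r → (X c).dim u = 0 →
      u' ∈ (X c).near y' r → (X c).dim u' = 0 →
        ∃ w ∈ (X c).ch (X c).N 1, (X c).bd w = sg u - sg u' := by
    intro y hy y' hy'
    refine hc.induction₂' (fun y y' => ∀ u u', u ∈ (X c).near y r → (X c).dim u = 0 →
      u' ∈ (X c).near y' r → (X c).dim u' = 0 →
        ∃ w ∈ (X c).ch (X c).N 1, (X c).bd w = sg u - sg u') (fun x hx => ?_) ?_ hy hy'
    · filter_upwards [mem_nhdsWithin_of_mem_nhds (ball_mem_nhds x hr0)] with x' hx'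
      have far : (X c).near x' r ⊆ (X c).near x δ := fun u hu => ⟨hu.1, by
        have h1 := dist_triangle ((X c).pos u) x' x
        have h2 : dist x' x < r := hx'
        have h3 := hu.2
        linarith⟩
      exact ⟨fun u u' hu hu0 hu' hu0' => loc x hx u u' (near_mono hrδ hu) hu0 (far hu') hu0',
        fun u u' hu hu0 hu' hu0' => loc x hx u u' (far hu) hu0 (near_mono hrδ hu') hu0'⟩
    · intro x x' x'' _ hx' _ h1 h2 u u'' hu hu0 hu'' hu0''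
      obtain ⟨u', hu', hu0'⟩ := hv x' (hS hx')
      obtain ⟨w₁, hw₁, e₁⟩ := h1 u u' hu hu0 hu' hu0'
      obtain ⟨w₂, hw₂, e₂⟩ := h2 u' u'' hu' hu0' hu'' hu0''
      exact ⟨w₁ + w₂, add_mem hw₁ hw₂, by rw [map_add, e₁, e₂, sub_add_sub_cancel]⟩
  obtain ⟨v, hvn, hv0⟩ := hv y₀ (hS hy₀)
  refine ⟨v, hvn.1, hv0, fun f φ hfS hφ z hz => ?_⟩
  have hle : (X c).ch (X c).N 0 ≤ (((X c).ch (X c).N 1).map (X c).bd).comap
      (φ - (X c).aug.smulRight (sg v)) := by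
    unfold Cx.ch
    rw [Finsupp.supported_eq_span_single, Submodule.span_le]
    rintro _ ⟨b, ⟨hb, hb0⟩, rfl⟩
    obtain ⟨u, hu, hu0⟩ := hv _ (hS (hfS b hb))
    have hm := hφ.mem b hb
    rw [hb0] at hm
    have ha : (X c).aug (sg b) = 1 := Cx.aug_sg_of_dim hb0
    obtain ⟨w₁, hw₁, e₁⟩ := fill0 hok hf (hS (hfS b hb)) (Cx.ch_mono (near_mono hrδ) 0 hm)
      ((hφ.aug b hb).trans ha) (near_mono hrδ hu) hu0
    obtain ⟨w₂, hw₂, e₂⟩ := all _ (hfS b hb) _ hy₀ u v hu hu0 hvn hv0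
    refine ⟨w₁ + w₂, add_mem hw₁ hw₂, ?_⟩
    change (X c).bd (w₁ + w₂) = φ (sg b) - (X c).aug (sg b) • sg v
    rw [map_add, e₁, e₂, sub_add_sub_cancel, ha, one_smul]
  obtain ⟨w, hw, e⟩ := hle hz
  exact ⟨w, hw, e⟩

end Pool.Agent.Lib.MP_399f8e_an.Lk
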