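import Pool.Agent.Lib.MP_399f8e_an.Lk.TMach

open Set Filter Topology Metric

noncomputable section

namespace Pool.Agent.Lib.MP_399f8e_an.Lk

variable {β Y : Type} [MetricSpace Y] {X : Cx β Y} {A A' : Set β} {f f' : Y → Y}
  {r r' s ω ω₀ : ℝ} {φ φ' D : Ch β →ₗ[ℂ] Ch β} {k : ℕ} {O : Set Y}

namespace TMach2Aux

theorem map_mem {M : Type} [AddCommGroup M] [Module ℂ M] (L : Ch β →ₗ[ℂ] M) (P : Submodule ℂ M)
    (z : Ch β) (h : ∀ b ∈ z.support, L (sg b) ∈ P) : L z ∈ P := by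
  have hz : z = ∑ b ∈ z.support, z b • sg b := by
    conv_lhs => rw [← Finsupp.sum_single z]
    unfold Finsupp.sum
    refine Finset.sum_congr rfl fun b _ => ?_
    simp [sg]
  rw [hz, map_sum]
  refine P.sum_mem fun b hb => ?_
  rw [map_smul]
  exact P.smul_mem _ (h b hb)

theorem map_eq {M : Type} [AddCommGroup M] [Module ℂ M] (L L' : Ch β →ₗ[ℂ] M)
    (z : Ch β) (h : ∀ b ∈ z.support, L (sg b) = L' (sg b)) : L z = L' z := by
  have := map_mem (L - L') ⊥ z fun b hb => by simp [h b hb]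
  simpa [sub_eq_zero] using this

omit [MetricSpace Y] in
theorem sg_mem {b : β} (hb : b ∈ A) : sg b ∈ X.ch A (X.dim b) :=
  Finsupp.single_mem_supported ℂ _ ⟨hb, rfl⟩

theorem near_mono {y y' : Y} (h : dist y y' + r ≤ r') : X.near y r ⊆ X.near y' r' := by
  rintro b ⟨hb, hd⟩
  refine ⟨hb, ?_⟩
  have := dist_triangle (X.pos b) y y'
  linarith

theorem near_mono' {y : Y} (h : r ≤ r') : X.near y r ⊆ X.near y r' :=
  near_mono (by simpa using h)

/-- change a linear map on a set of cells -/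
theorem exists_update (φ : Ch β →ₗ[ℂ] Ch β) (p : β → Prop) (q : β → Ch β → Prop)
    (h : ∀ b, p b → ∃ w, q b w) :
    ∃ φ' : Ch β →ₗ[ℂ] Ch β, (∀ b, p b → q b (φ' (sg b))) ∧ ∀ b, ¬ p b → φ' (sg b) = φ (sg b) := by
  classical
  choose w hw using h
  refine ⟨Finsupp.linearCombination ℂ fun b => if hb : p b then w b hb else φ (sg b), ?_, ?_⟩
  · intro b hb
    simpa [sg, hb] using hw b hb
  · intro b hb
    simp [sg, hb]

theorem ctrl_step (h : X.Ok ω₀) (hA : X.Sub A) {G : Set Y} (ρ : ℕ → ℝ) (hρ : Monotone ρ)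
    (hG : ∀ b ∈ A, f (X.pos b) ∈ G)
    (hω : ∀ b ∈ A, ∀ b' ∈ (X.bd (sg b)).support, dist (f (X.pos b')) (f (X.pos b)) ≤ ω)
    (hv : X.Vert G (ρ 0)) (hf : ∀ k, k < 3 → X.Fill G (ρ k + ω) (ρ (k + 1))) (k : ℕ)
    (hk : k ≤ 3) :
    ∃ φ : Ch β →ₗ[ℂ] Ch β, ∀ b ∈ A, X.dim b ≤ k →
      φ (sg b) ∈ X.ch (X.near (f (X.pos b)) (ρ k)) (X.dim b) ∧
        X.bd (φ (sg b)) = φ (X.bd (sg b)) ∧ X.aug (φ (sg b)) = X.aug (sg b) := by
  induction k with
  | zero =>
    obtain ⟨φ, h1, -⟩ := exists_update (0 : Ch β →ₗ[ℂ] Ch β) (fun b => b ∈ A)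
      (fun b w => ∃ v ∈ X.near (f (X.pos b)) (ρ 0), X.dim v = 0 ∧ w = sg v)
      (fun b hb => by
        obtain ⟨v, hv1, hv2⟩ := hv _ (hG b hb)
        exact ⟨sg v, v, hv1, hv2, rfl⟩)
    refine ⟨φ, fun b hb hd => ?_⟩
    have hd0 : X.dim b = 0 := Nat.le_zero.1 hd
    obtain ⟨v, hv1, hv2, hv3⟩ := h1 b hb
    have e1 : X.bd (sg b) = 0 := h.bd_zero (hd0 ▸ sg_mem (hA.sub hb))
    have e2 : X.bd (sg v) = 0 := h.bd_zero (hv2 ▸ sg_mem hv1.1)
    refine ⟨?_, ?_, ?_⟩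
    · have := sg_mem (X := X) hv1
      rw [hv2] at this
      rw [hv3, hd0]
      exact this
    · rw [hv3, e1, e2, map_zero]
    · rw [hv3, Cx.aug_sg_of_dim hv2, Cx.aug_sg_of_dim hd0]
  | succ k ih =>
    obtain ⟨φ, hφ⟩ := ih (by omega)
    obtain ⟨φ', h1, h2⟩ := exists_update φ (fun b => b ∈ A ∧ X.dim b = k + 1)
      (fun b w => w ∈ X.ch (X.near (f (X.pos b)) (ρ (k + 1))) (k + 1) ∧
        X.bd w = φ (X.bd (sg b)))
      (fun b hb => by
        obtain ⟨hb, hd⟩ := hb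
        have hface : ∀ b' ∈ (X.bd (sg b)).support, b' ∈ A ∧ X.dim b' = k := fun b' hb' =>
          ⟨hA.face b hb b' hb', by have := (h.face b (hA.sub hb) b' hb').2.1; omega⟩
        refine hf k (by omega) _ (hG b hb) k _ ?_ ?_ ?_
        · refine map_mem φ _ _ fun b' hb' => ?_
          obtain ⟨m1, m2⟩ := hface b' hb'
          have m3 := (hφ b' m1 m2.le).1
          rw [m2] at m3
          refine Cx.ch_mono (near_mono ?_) k m3
          have := hω b hb b' hb'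
          linarith
        · have := map_eq (X.bd ∘ₗ φ) (φ ∘ₗ X.bd) (X.bd (sg b)) fun b' hb' =>
            (hφ b' (hface b' hb').1 (hface b' hb').2.le).2.1
          simp only [LinearMap.comp_apply] at this
          rw [this, h.dd b (hA.sub hb), map_zero]
        · have := map_eq (X.aug ∘ₗ φ) X.aug (X.bd (sg b)) fun b' hb' =>
            (hφ b' (hface b' hb').1 (hface b' hb').2.le).2.2
          simp only [LinearMap.comp_apply] at this
          rw [this, h.aug_bd b (hA.sub hb)])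
    refine ⟨φ', fun b hb hd => ?_⟩
    have hbd : φ' (X.bd (sg b)) = φ (X.bd (sg b)) := by
      refine map_eq _ _ _ fun b' hb' => h2 b' fun hc => ?_
      have := (h.face b (hA.sub hb) b' hb').2.1
      omega
    by_cases hd' : X.dim b = k + 1
    · obtain ⟨m1, m2⟩ := h1 b ⟨hb, hd'⟩
      refine ⟨hd' ▸ m1, by rw [m2, hbd], ?_⟩
      rw [Cx.aug_of_pos m1, Cx.aug_of_pos (A := A) (k := k) (hd' ▸ sg_mem hb)]
    · obtain ⟨m1, m2, m3⟩ := hφ b hb (by omega)
      rw [h2 b fun hc => hd' hc.2, hbd]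
      exact ⟨Cx.ch_mono (near_mono' (hρ (Nat.le_succ k))) _ m1, m2, m3⟩

theorem hty_step (h : X.Ok ω₀) (hA : X.Sub A) {G : Set Y} (ρ : ℕ → ℝ) (hρ : Monotone ρ)
    (hω0 : 0 ≤ ω) (hG : ∀ b ∈ A, f (X.pos b) ∈ G)
    (hω : ∀ b ∈ A, ∀ b' ∈ (X.bd (sg b)).support, dist (f (X.pos b')) (f (X.pos b)) ≤ ω)
    (hf : ∀ k, k < 4 → X.Fill G (ρ k + ω) (ρ (k + 1)))
    (c1 : X.Ctrl A f (ρ 0) φ) (c2 : X.Ctrl A f (ρ 0) φ') (k : ℕ) (hk : k ≤ 4) :
    ∃ D : Ch β →ₗ[ℂ] Ch β, ∀ b ∈ A, X.dim b < k →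
      D (sg b) ∈ X.ch (X.near (f (X.pos b)) (ρ k)) (X.dim b + 1) ∧
        X.bd (D (sg b)) + D (X.bd (sg b)) = φ (sg b) - φ' (sg b) := by
  induction k with
  | zero => exact ⟨0, fun b _ hd => absurd hd (Nat.not_lt_zero _)⟩
  | succ k ih =>
    obtain ⟨D, hD⟩ := ih (by omega)
    obtain ⟨D', h1, h2⟩ := exists_update D (fun b => b ∈ A ∧ X.dim b = k)
      (fun b w => w ∈ X.ch (X.near (f (X.pos b)) (ρ (k + 1))) (k + 1) ∧
        X.bd w = φ (sg b) - φ' (sg b) - D (X.bd (sg b)))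
      (fun b hb => by
        obtain ⟨hb, hd⟩ := hb
        have hface : ∀ b' ∈ (X.bd (sg b)).support, b' ∈ A ∧ X.dim b' + 1 = k := fun b' hb' =>
          ⟨hA.face b hb b' hb', by have := (h.face b (hA.sub hb) b' hb').2.1; omega⟩
        have hr : ρ 0 ≤ ρ k + ω := by
          have := hρ (Nat.zero_le k)
          linarith
        refine hf k (by omega) _ (hG b hb) k _ ?_ ?_ ?_
        · refine Submodule.sub_mem _ (Submodule.sub_mem _ ?_ ?_) ?_
          · exact Cx.ch_mono (near_mono' hr) k (hd ▸ c1.mem b hb)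
          · exact Cx.ch_mono (near_mono' hr) k (hd ▸ c2.mem b hb)
          · refine map_mem D _ _ fun b' hb' => ?_
            obtain ⟨m1, m2⟩ := hface b' hb'
            have m3 := (hD b' m1 (by omega)).1
            rw [m2] at m3
            refine Cx.ch_mono (near_mono ?_) k m3
            have := hω b hb b' hb'
            linarith
        · have := map_eq (X.bd ∘ₗ D + D ∘ₗ X.bd) (φ - φ') (X.bd (sg b)) fun b' hb' =>
            (hD b' (hface b' hb').1 (by have := (hface b' hb').2; omega)).2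
          simp only [LinearMap.comp_apply, LinearMap.add_apply, LinearMap.sub_apply] at this
          rw [h.dd b (hA.sub hb), map_zero, add_zero] at this
          rw [map_sub, map_sub, c1.comm b hb, c2.comm b hb, this, sub_self]
        · have := map_eq (X.aug ∘ₗ D) 0 (X.bd (sg b)) fun b' hb' =>
            Cx.aug_of_pos (hD b' (hface b' hb').1 (by have := (hface b' hb').2; omega)).1
          simp only [LinearMap.comp_apply, LinearMap.zero_apply] at this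
          rw [map_sub, map_sub, c1.aug b hb, c2.aug b hb, this, sub_self, sub_self])
    refine ⟨D', fun b hb hd => ?_⟩
    have hbd : D' (X.bd (sg b)) = D (X.bd (sg b)) := by
      refine map_eq _ _ _ fun b' hb' => h2 b' fun hc => ?_
      have := (h.face b (hA.sub hb) b' hb').2.1
      omega
    by_cases hd' : X.dim b = k
    · obtain ⟨m1, m2⟩ := h1 b ⟨hb, hd'⟩
      refine ⟨hd' ▸ m1, ?_⟩
      rw [m2, hbd, sub_add_cancel]
    · obtain ⟨m1, m2⟩ := hD b hb (by omega)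
      rw [h2 b fun hc => hd' hc.2, hbd]
      exact ⟨Cx.ch_mono (near_mono' (hρ (Nat.le_succ k))) _ m1, m2⟩

end TMach2Aux

/-- Induction on `k ≤ 3`: there is `g : β → Ch β` which is right on the cells of `A` of dimension
at most `k` (with radius `ρ k`), `φ = Finsupp.linearCombination ℂ g`. A vertex goes to a vertex given
by `Vert`. For a cell `b` of dimension `k + 1` the chain `φ (bd b)` is a cycle of degree `k` within
`ρ k + ω` of `f (pos b)` with augmentation zero; fill it, and change `g` only in dimension `k + 1`. -/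
theorem Cx.Ok.exists_ctrl (h : X.Ok ω₀) (hA : X.Sub A) {G : Set Y} (ρ : ℕ → ℝ) (hρ : Monotone ρ)
    (hG : ∀ b ∈ A, f (X.pos b) ∈ G)
    (hω : ∀ b ∈ A, ∀ b' ∈ (X.bd (sg b)).support, dist (f (X.pos b')) (f (X.pos b)) ≤ ω)
    (hv : X.Vert G (ρ 0)) (hf : ∀ k, k < 3 → X.Fill G (ρ k + ω) (ρ (k + 1))) :
    ∃ φ, X.Ctrl A f (ρ 3) φ := by
  obtain ⟨φ, hφ⟩ := TMach2Aux.ctrl_step h hA ρ hρ hG hω hv hf 3 le_rfl
  exact ⟨φ, fun b hb => (hφ b hb (h.dim_le b)).1, fun b hb => (hφ b hb (h.dim_le b)).2.1,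
    fun b hb => (hφ b hb (h.dim_le b)).2.2⟩

/-- Same induction: for `b` of dimension `k` the chain `φ b - φ' b - D (bd b)` is a cycle of degree
`k` within `ρ k + ω` of `f (pos b)` with augmentation zero; `D b` fills it within `ρ (k + 1)`. -/
theorem Cx.Ok.exists_hty (h : X.Ok ω₀) (hA : X.Sub A) {G : Set Y} (ρ : ℕ → ℝ) (hρ : Monotone ρ)
    (hω0 : 0 ≤ ω) (hG : ∀ b ∈ A, f (X.pos b) ∈ G)
    (hω : ∀ b ∈ A, ∀ b' ∈ (X.bd (sg b)).support, dist (f (X.pos b')) (f (X.pos b)) ≤ ω)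
    (hf : ∀ k, k < 4 → X.Fill G (ρ k + ω) (ρ (k + 1)))
    (h1 : X.Ctrl A f (ρ 0) φ) (h2 : X.Ctrl A f (ρ 0) φ') : ∃ D, X.Hty A f (ρ 4) D φ φ' := by
  obtain ⟨D, hD⟩ := TMach2Aux.hty_step h hA ρ hρ hω0 hG hω hf h1 h2 4 le_rfl
  have hd : ∀ b, X.dim b < 4 := fun b => Nat.lt_succ_of_le (h.dim_le b)
  exact ⟨D, fun b hb => (hD b hb (hd b)).1, fun b hb => (hD b hb (hd b)).2⟩

end Pool.Agent.Lib.MP_399f8e_an.Lk
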