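import Pool.Agent.Lib.MP_399f8e_an.Lk.TLtr
import Pool.Agent.Lib.MP_399f8e_an.Lk.TMach2

open Set Filter Topology Metric

noncomputable section

namespace Pool.Agent.Lib.MP_399f8e_an.Lk

variable {β Y : Type} [MetricSpace Y] {X : ℝ → Cx β Y} {Ka G K' : Set Y} {H : ℝ → Y → Y}

namespace TEv1Aux

theorem fill_mono {Z : Cx β Y} {δ δ' ε : ℝ} (h : Z.Fill G δ ε) (hδ : δ' ≤ δ) : Z.Fill G δ' ε :=
  fun y hy k z hz => h y hy k z
    (Cx.ch_mono (A := Z.near y δ') (A' := Z.near y δ) (fun _ hb => ⟨hb.1, hb.2.trans hδ⟩) k hz)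

theorem radii (hX : Fam X Ka G) (n : ℕ) : ∀ r : ℝ, 0 < r → ∃ (ρ : ℕ → ℝ) (ω : ℝ), 0 < ω ∧
    Monotone ρ ∧ ρ n = r ∧ 0 < ρ 0 ∧
      ∀ᶠ c in 𝓝[>] (0 : ℝ), ∀ k, k < n → (X c).Fill G (ρ k + ω) (ρ (k + 1)) := by
  induction n with
  | zero =>
    exact fun r hr => ⟨fun _ => r, 1, one_pos, monotone_const, rfl, hr,
      Eventually.of_forall fun _ _ hk => absurd hk (Nat.not_lt_zero _)⟩
  | succ n ih =>
    intro r hr
    obtain ⟨δ, hδ, h1⟩ := hX.fill r hr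
    obtain ⟨ρ, ω, a1, a2, a3, a4, a5⟩ := ih (min (δ / 2) r) (lt_min (half_pos hδ) hr)
    refine ⟨fun k => if k ≤ n then ρ k else r, min ω (δ / 2), lt_min a1 (half_pos hδ),
      fun i j hij => ?_, if_neg (by omega), by simpa using a4, ?_⟩
    · dsimp only
      split_ifs with hi hj hj
      · exact a2 hij
      · exact (a2 hi).trans (a3.le.trans (min_le_right _ _))
      · omega
      · exact le_rfl
    · filter_upwards [h1, a5] with c b1 b2 k hk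
      rw [if_pos (show k ≤ n by omega)]
      split_ifs with h
      · exact fill_mono (b2 k h) (by linarith [min_le_left ω (δ / 2)])
      · obtain rfl : k = n := by omega
        exact fill_mono b1 (by linarith [min_le_right ω (δ / 2), min_le_left (δ / 2) r])

theorem unif (hH : Path Ka G K' H) {ω : ℝ} (hω : 0 < ω) : ∃ η : ℝ, 0 < η ∧
    ∀ t ∈ Icc (0 : ℝ) 1, ∀ t' ∈ Icc (0 : ℝ) 1, ∀ y ∈ K', ∀ y' ∈ K', dist t t' ≤ η →
      dist y y' ≤ η → dist (H t y) (H t' y') ≤ ω := by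
  obtain ⟨η, h0, h1⟩ := Metric.uniformContinuousOn_iff_le.1
    ((isCompact_Icc.prod hH.cpt).uniformContinuousOn_of_continuous hH.cont) ω hω
  exact ⟨η, h0, fun t ht t' ht' y hy y' hy' a b =>
    h1 (t, y) ⟨ht, hy⟩ (t', y') ⟨ht', hy'⟩ (by rw [Prod.dist_eq]; exact max_le a b)⟩

theorem faces (hX : Fam X Ka G) (hH : Path Ka G K' H) {ω : ℝ} (hω : 0 < ω) :
    ∀ᶠ c in 𝓝[>] (0 : ℝ), ∃ ω₀, (X c).Ok ω₀ ∧ ∀ t ∈ Icc (0 : ℝ) 1, ∀ A : Set β, (X c).Sub A →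
      (∀ b ∈ A, (X c).pos b ∈ K') → ∀ b ∈ A, ∀ b' ∈ ((X c).bd (sg b)).support,
        dist (H t ((X c).pos b')) (H t ((X c).pos b)) ≤ ω := by
  obtain ⟨η, h0, h1⟩ := unif hH hω
  filter_upwards [hX.ok η h0] with c hc
  exact ⟨η, hc, fun t ht A hA hK b hb b' hb' => h1 t ht t ht _ (hK _ (hA.face b hb b' hb')) _
    (hK b hb) (by simpa using h0.le) (hc.face b (hA.sub hb) b' hb').2.2⟩

end TEv1Aux

open TEv1Aux

/-- Choose radii backwards with `hX.fill`: `ρ 3 = r`, `δ` for `ρ (k+1)`, `ρ k ≤ min (δ/2) (ρ (k+1))`,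
then `ω` at most half of each `δ` (`Fill` is monotone in its first radius); uniform continuity of `H`
on the compact set `Icc 0 1 ×ˢ K'` gives `ω₀`, and `hX.ok ω₀`; `Cx.Ok.exists_ctrl`. -/
theorem Fam.ev_exists (hX : Fam X Ka G) (hH : Path Ka G K' H) {r : ℝ} (hr : 0 < r) :
    ∀ᶠ c in 𝓝[>] (0 : ℝ), ∀ t ∈ Icc (0 : ℝ) 1, ∀ A : Set β, (X c).Sub A →
      (∀ b ∈ A, (X c).pos b ∈ K') → ∃ φ, (X c).Ctrl A (H t) r φ := by
  obtain ⟨ρ, ω, a1, a2, a3, a4, a5⟩ := radii hX 3 r hr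
  filter_upwards [a5, faces hX hH a1, hX.vert _ a4] with c b1 ⟨ω₀, b2, b3⟩ b4 t ht A hA hK
  exact a3 ▸ b2.exists_ctrl hA ρ a2 (fun b hb => hH.maps t ht _ (hK b hb)) (b3 t ht A hA hK) b4 b1

/-- Same with `Cx.Ok.exists_hty`. -/
theorem Fam.ev_hty (hX : Fam X Ka G) (hH : Path Ka G K' H) {s : ℝ} (hs : 0 < s) :
    ∃ r : ℝ, 0 < r ∧ ∀ᶠ c in 𝓝[>] (0 : ℝ), ∀ t ∈ Icc (0 : ℝ) 1, ∀ A : Set β, (X c).Sub A →
      (∀ b ∈ A, (X c).pos b ∈ K') → ∀ φ φ', (X c).Ctrl A (H t) r φ → (X c).Ctrl A (H t) r φ' →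
        ∃ D, (X c).Hty A (H t) s D φ φ' := by
  obtain ⟨ρ, ω, a1, a2, a3, a4, a5⟩ := radii hX 4 s hs
  refine ⟨ρ 0, a4, ?_⟩
  filter_upwards [a5, faces hX hH a1] with c b1 ⟨ω₀, b2, b3⟩ t ht A hA hK φ φ' h1 h2
  exact a3 ▸ b2.exists_hty hA ρ a2 a1.le (fun b hb => hH.maps t ht _ (hK b hb))
    (b3 t ht A hA hK) b1 h1 h2

/-- Take `n` with `dist (H t y) (H t' y) ≤ r / 2` for `|t - t'| ≤ 1 / n`, and by `ev_exists` maps
`φ i` following `H (i / n)` up to `r / 2`; `φ i` follows `H ((i + 1) / n)` up to `r`. Induction on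
`i`: `Rl φ ψ` for every `ψ` following `H (i / n)` up to `r / 2`. -/
theorem Fam.ev_chain (hX : Fam X Ka G) (hH : Path Ka G K' H)
    (Rl : ℝ → Set β → (Ch β →ₗ[ℂ] Ch β) → (Ch β →ₗ[ℂ] Ch β) → Prop)
    (htr : ∀ c A φ₁ φ₂ φ₃, Rl c A φ₁ φ₂ → Rl c A φ₂ φ₃ → Rl c A φ₁ φ₃) {r : ℝ} (hr : 0 < r)
    (h : ∀ᶠ c in 𝓝[>] (0 : ℝ), ∀ t ∈ Icc (0 : ℝ) 1, ∀ A : Set β, (X c).Sub A →
      (∀ b ∈ A, (X c).pos b ∈ K') → ∀ φ φ', (X c).Ctrl A (H t) r φ → (X c).Ctrl A (H t) r φ' →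
        Rl c A φ φ') :
    ∀ᶠ c in 𝓝[>] (0 : ℝ), ∀ A : Set β, (X c).Sub A → (∀ b ∈ A, (X c).pos b ∈ K') →
      ∀ φ φ', (X c).Ctrl A (H 0) (r / 2) φ → (X c).Ctrl A (H 1) (r / 2) φ' → Rl c A φ φ' := by
  obtain ⟨η, h0, h1⟩ := unif hH (half_pos hr)
  obtain ⟨n, hn⟩ := exists_nat_one_div_lt h0
  have n0 : (0 : ℝ) < (n : ℝ) + 1 := Nat.cast_add_one_pos n
  have mem : ∀ i : ℕ, i ≤ n + 1 → (i : ℝ) / ((n : ℝ) + 1) ∈ Icc (0 : ℝ) 1 := fun i hi =>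
    ⟨by positivity, (div_le_one n0).2 (by exact_mod_cast hi)⟩
  filter_upwards [h, hX.ev_exists hH (half_pos hr)] with c b1 b2 A hA hK φ φ' c1 c2
  have up : ∀ t ψ, (X c).Ctrl A (H t) (r / 2) ψ → (X c).Ctrl A (H t) r ψ := fun t ψ hψ =>
    hψ.mono subset_rfl fun b _ => by rw [dist_self]; linarith
  have key : ∀ i : ℕ, i ≤ n + 1 → ∀ ψ, (X c).Ctrl A (H ((i : ℝ) / ((n : ℝ) + 1))) (r / 2) ψ →
      Rl c A φ ψ := by
    intro i
    induction i with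
    | zero =>
      intro _ ψ hψ
      rw [Nat.cast_zero, zero_div] at hψ
      exact b1 0 ⟨le_rfl, zero_le_one⟩ A hA hK φ ψ (up _ _ c1) (up _ _ hψ)
    | succ i ih =>
      intro hi ψ hψ
      obtain ⟨χ, hχ⟩ := b2 _ (mem i (by omega)) A hA hK
      refine htr c A φ χ ψ (ih (by omega) χ hχ) (b1 _ (mem _ hi) A hA hK χ ψ
        (hχ.mono subset_rfl fun b hb => ?_) (up _ _ hψ))
      have := h1 _ (mem i (by omega)) _ (mem _ hi) _ (hK b hb) _ (hK b hb) (by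
        rw [Real.dist_eq, ← sub_div, abs_div, abs_of_pos n0]
        simpa using hn.le) (by simpa using h0.le)
      linarith
  refine key (n + 1) le_rfl φ' ?_
  rwa [Nat.cast_add_one, div_self n0.ne']

/-- `ev_hty` with `s = 1`, `ev_chain`, `Ev.of_lt`, `Cx.Ctrl.mono`. -/
theorem Fam.ev_hom (hX : Fam X Ka G) (hH : Path Ka G K' H) :
    Ev fun r c => ∀ (A : Set β) (φ φ' : Ch β →ₗ[ℂ] Ch β), (X c).Sub A →
      (∀ b ∈ A, (X c).pos b ∈ K') → (X c).Ctrl A (H 0) r φ → (X c).Ctrl A (H 1) r φ' →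
        (X c).Hom A φ φ' := by
  obtain ⟨r, hr, h⟩ := hX.ev_hty hH one_pos
  have h1 := hX.ev_chain hH (fun c A φ φ' => (X c).Hom A φ φ') (fun _ _ _ _ _ a b => a.trans b) hr
    (h.mono fun c hc t ht A hA hK φ φ' a b => by
      obtain ⟨D, hD⟩ := hc t ht A hA hK φ φ' a b
      exact hD.hom)
  refine Ev.of_lt (half_pos hr) fun r' _ h2 => h1.mono fun c hc A φ φ' hA hK a b => ?_
  exact hc A hA hK φ φ' (a.mono subset_rfl fun _ _ => by rw [dist_self]; linarith)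
    (b.mono subset_rfl fun _ _ => by rw [dist_self]; linarith)

end Pool.Agent.Lib.MP_399f8e_an.Lk
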