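import Pool.Agent.Lib.MP_399f8e_an.Lk.TEv

open Set Filter Topology Metric

noncomputable section

namespace Pool.Agent.Lib.MP_399f8e_an.Lk

variable {β Y : Type} [MetricSpace Y] {X : ℝ → Cx β Y} {Ka G K' O O₁ O₂ : Set Y}
  {H : ℝ → Y → Y} {f f' : Y → Y} {m m₁ m₂ : ℂ}

namespace TIndAux

theorem thick (hX : Fam X Ka G) (hnb : Nb Ka K' O) :
    ∀ᶠ c in 𝓝[>] (0 : ℝ), ∀ A : Set β, (X c).Sub A → ∃ A' : Set β, A' ⊆ A ∧ (X c).Sub A' ∧
      (∀ b ∈ A', (X c).pos b ∈ K') ∧ ∀ b ∈ A, (X c).pos b ∈ O → b ∈ A' := by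
  obtain ⟨δ, hδ, h⟩ := hnb
  filter_upwards [hX.ok (δ / 3) (by positivity), hX.posK] with c hc hK A hA
  refine ⟨_, fun b hb => hb.1, hc.sub_thick hA (O ∩ Ka), ?_, fun b hb hO => ⟨hb, (X c).pos b,
    ⟨hO, hK b (hA.sub hb)⟩, ?_⟩⟩
  · rintro b ⟨hb, y, hy, hd⟩
    refine h _ (hK b (hA.sub hb)) y hy.2 hy.1 (hd.trans ?_)
    have : (0 : ℝ) ≤ (X c).dim b := Nat.cast_nonneg _
    nlinarith
  · have : ((X c).dim b : ℝ) ≤ 3 := by exact_mod_cast hc.dim_le b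
    rw [dist_self]
    exact mul_nonneg (by linarith) (by positivity)

theorem ctrl_eq {Z : Cx β Y} {A A' : Set β} {r : ℝ} {φ : Ch β →ₗ[ℂ] Ch β} (h : Z.Ctrl A f r φ)
    (hA : A' ⊆ A) (he : ∀ b ∈ A', f (Z.pos b) = f' (Z.pos b)) : Z.Ctrl A' f' r φ :=
  h.mono hA fun b hb => by rw [he b hb, dist_self, zero_add]

theorem ev_ex (hX : Fam X Ka G) (hH : Path Ka G K' H) :
    Ev fun r c => ∀ A : Set β, (X c).Sub A → (∀ b ∈ A, (X c).pos b ∈ K') →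
      ∃ φ, (X c).Ctrl A (H 0) r φ :=
  Ev.of_lt one_pos fun _ hr _ => (hX.ev_exists hH hr).mono fun _ hc =>
    hc 0 ⟨le_rfl, zero_le_one⟩

end TIndAux

open TIndAux

/-- Restrict to the subcomplex of `Cx.Ok.sub_thick` for the set `O ∩ Ka` with `3 ω₀ ≤ δ`: it contains
the cells placed in `O`, and its cells are placed in `K'`. -/
theorem Ind.congr (hX : Fam X Ka G) (hnb : Nb Ka K' O) (he : EqOn f f' K') (h : Ind X O f m) :
    Ind X O f' m := by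
  refine (Ev.and h (Ev.of_right (thick hX hnb))).mono ?_
  rintro r c ⟨h1, h2⟩ A φ hA hO hφ
  obtain ⟨A', hs, hA', hK, hO'⟩ := h2 A hA
  exact h1 A' φ hA' (fun b hb hb' => hO' b (hO b hb hb') hb')
    (ctrl_eq hφ hs fun b hb => (he (hK b hb)).symm)

/-- Restrict as above, take a map following `H 0` from `ev_exists`, and use `ev_ltr`. -/
theorem Ind.homotopy (hX : Fam X Ka G) (hH : Path Ka G K' H) (hnb : Nb Ka K' O)
    (hcol : Col K' O H) (h0 : EqOn f (H 0) K') (h1 : EqOn f' (H 1) K') (h : Ind X O f m) :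
    Ind X O f' m := by
  refine (((Ev.and h (Ev.of_right (thick hX hnb))).and (ev_ex hX hH)).and
    (hX.ev_ltr hH hnb hcol)).mono ?_
  rintro r c ⟨⟨⟨h2, h3⟩, h4⟩, h5⟩ A φ hA hO hφ
  obtain ⟨A', hs, hA', hK, hO'⟩ := h3 A hA
  obtain ⟨φ₀, hφ₀⟩ := h4 A' hA' hK
  have hc : ∀ b ∈ (X c).N, (X c).pos b ∈ O → b ∈ A' := fun b hb hb' => hO' b (hO b hb hb') hb'
  rw [← h5 A' φ₀ φ hA' hK hc hφ₀ (ctrl_eq hφ hs fun b hb => h1 (hK b hb))]
  exact h2 A' φ₀ hA' hc (ctrl_eq hφ₀ Subset.rfl fun b hb => (h0 (hK b hb)).symm)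

theorem Ind.add (hX : Fam X Ka G) (hd : Disjoint O₁ O₂) (h₁ : Ind X O₁ f m₁) (h₂ : Ind X O₂ f m₂) :
    Ind X (O₁ ∪ O₂) f (m₁ + m₂) := by
  refine ((Ev.and h₁ h₂).and (Ev.of_right (hX.ok 1 one_pos))).mono ?_
  rintro r c ⟨⟨h1, h2⟩, h3⟩ A φ hA hO hφ
  rw [h3.ltr_union hd, h1 A φ hA (fun b hb hb' => hO b hb (Or.inl hb')) hφ,
    h2 A φ hA (fun b hb hb' => hO b hb (Or.inr hb')) hφ]

/-- Given `φ` on `A`, take `φ'` on the thickening of (O₁ ∪ O₂) ∩ Ka` in `N` from `ev_exists`; both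
follow `f` on the thickening of `O₁ ∩ Ka` in `A`, so `ev_ltr` applies. -/
theorem Ind.sub (hX : Fam X Ka G) (hH : Path Ka G K' fun _ => f) (hnb : Nb Ka K' (O₁ ∪ O₂))
    (hcol : Col K' O₁ fun _ => f) (hd : Disjoint O₁ O₂) (h : Ind X (O₁ ∪ O₂) f m)
    (h₂ : Ind X O₂ f m₂) : Ind X O₁ f (m - m₂) := by
  have hnb₁ : Nb Ka K' O₁ := by
    obtain ⟨δ, hδ, h'⟩ := hnb
    exact ⟨δ, hδ, fun y hy y' hy' hO => h' y hy y' hy' (Or.inl hO)⟩
  refine (((((Ev.and h h₂).and (Ev.of_right (hX.ok 1 one_pos))).and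
    (Ev.of_right (thick hX hnb))).and (ev_ex hX hH)).and (hX.ev_ltr hH hnb₁ hcol)).mono ?_
  rintro r c ⟨⟨⟨⟨⟨h1, h2⟩, h3⟩, h4⟩, h5⟩, h6⟩ A φ hA hO hφ
  obtain ⟨A', -, hA', hK, hO'⟩ := h4 _ h3.sub_N
  obtain ⟨φ', hφ'⟩ := h5 A' hA' hK
  have e1 := h1 A' φ' hA' hO' hφ'
  have e2 := h2 A' φ' hA' (fun b hb hb' => hO' b hb (Or.inr hb')) hφ'
  have hI : (X c).Sub (A ∩ A') :=
    ⟨fun b hb => hA.sub hb.1, fun b hb b' hb' => ⟨hA.face b hb.1 b' hb', hA'.face b hb.2 b' hb'⟩⟩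
  rw [h6 (A ∩ A') φ φ' hI (fun b hb => hK b hb.2)
    (fun b hb hb' => ⟨hO b hb hb', hO' b hb (Or.inl hb')⟩)
    (ctrl_eq hφ inter_subset_left fun _ _ => rfl) (ctrl_eq hφ' inter_subset_right fun _ _ => rfl),
    ← e1, ← e2, h3.ltr_union hd, add_sub_cancel_right]

/-- The displacement has a positive minimum on `K'`. -/
theorem Ind.nofix (hX : Fam X Ka G) (hK : IsCompact K') (hO : Ka ∩ O ⊆ K')
    (hf : ContinuousOn f K') (hfree : ∀ y ∈ K', f y ≠ y) : Ind X O f 0 := by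
  obtain ⟨a, ha, h⟩ := hK.exists_forall_le' (f := fun y => dist y (f y)) (a := 0)
    (continuous_dist.comp_continuousOn (continuousOn_id.prodMk hf))
    fun y hy => dist_pos.2 (hfree y hy).symm
  refine Ev.of_lt ha fun r _ hr => ?_
  filter_upwards [hX.posK] with c hc A φ _ hA hφ
  exact hφ.ltr_eq_zero hA fun b hb hb' => hr.trans_le (h _ (hO ⟨hc b hb, hb'⟩))

/-- `Cx.Ok.ctrl_const` and `ev_ltr` with `K' = Ka`. -/
theorem Ind.const (hX : Fam X Ka G) {y₀ : Y} (hy : y₀ ∈ G) (hO : O ∈ 𝓝[Ka] y₀) :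
    Ind X O (fun _ => y₀) 1 := by
  obtain ⟨ε, hε, hb⟩ := Metric.mem_nhdsWithin_iff.1 hO
  have hH : Path Ka G Ka fun _ _ => y₀ :=
    ⟨hX.cpt, Subset.rfl, continuousOn_const, fun _ _ _ _ => hy⟩
  have hnb : Nb Ka Ka O := ⟨1, one_pos, fun y hy _ _ _ _ => hy⟩
  have hcol : Col Ka O fun _ _ => y₀ := by
    intro t _ y _ h2 e
    have e' : y₀ = y := e
    subst e'
    obtain ⟨z, hz, hd⟩ := Metric.mem_closure_iff.1 h2 ε hε
    exact hz.2 (hb ⟨mem_ball'.2 hd, hz.1⟩)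
  have hv : Ev fun r c => ∃ v ∈ (X c).near y₀ r, (X c).dim v = 0 ∧ (X c).pos v ∈ O := by
    refine Ev.of_lt hε fun r hr hr' => ?_
    filter_upwards [hX.posK, hX.vert r hr] with c h1 h2
    obtain ⟨v, hv, h0⟩ := h2 y₀ hy
    exact ⟨v, hv, h0, hb ⟨mem_ball.2 (hv.2.trans_lt hr'), h1 v hv.1⟩⟩
  refine ((hv.and (Ev.of_right ((hX.ok 1 one_pos).and hX.posK))).and
    (hX.ev_ltr hH hnb hcol)).mono ?_
  rintro r c ⟨⟨⟨v, h1, h2, h3⟩, h4, h5⟩, h6⟩ A φ hA hc hφ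
  obtain ⟨h7, h8⟩ := h4.ctrl_const hA h1 h2 h3
  rw [h6 A φ _ hA (fun b hb => h5 b (hA.sub hb)) hc hφ h7, h8]

/-- Separate the points of `F` by disjoint neighbourhoods, take the sets `O y` inside them and open
sets `V y ∋ y` with `V y ∩ Ka ⊆ O y`. On the complement of the union of the `O y` use `nofix` with
`K' = Ka` minus the union of the `V y`. Induction on finite unions with `Ind.add`. -/
theorem Ind.sum (hX : Fam X Ka G) (hf : ContinuousOn f Ka) (F : Finset Y)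
    (hF : ∀ y ∈ Ka, f y = y → y ∈ F)
    (h : ∀ y ∈ F, ∀ U ∈ 𝓝 y, ∃ O, O ⊆ U ∧ O ∈ 𝓝[Ka] y ∧ Ind X O f m) :
    Ind X univ f (F.card * m) := by
  classical
  obtain ⟨U, hU, hd⟩ := F.finite_toSet.t2_separation
  choose! O hOU hOn hOi using fun y hy => h y hy (U y) ((hU y).2.mem_nhds (hU y).1)
  choose! V hVo hVy hVO using fun y hy => mem_nhdsWithin.1 (hOn y hy)
  have key : ∀ S : Finset Y, S ⊆ F → Ind X (⋃ y ∈ S, O y) f (S.card * m) := by
    intro S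
    induction S using Finset.induction_on with
    | empty =>
      intro _
      simpa using Ind.nofix (O := ∅) (K' := ∅) (f := f) hX isCompact_empty (by simp)
        (continuousOn_empty _) (by simp)
    | insert a S ha ih =>
      intro hS
      have haF : a ∈ F := hS (Finset.mem_insert_self a S)
      have hSF : S ⊆ F := (Finset.subset_insert a S).trans hS
      have hdis : Disjoint (O a) (⋃ y ∈ S, O y) := by
        refine disjoint_iUnion₂_right.2 fun y hy => ?_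
        exact (hd haF (hSF hy) fun e => ha (e ▸ hy)).mono (hOU a haF) (hOU y (hSF hy))
      have := Ind.add hX hdis (hOi a haF) (ih hSF)
      rw [Finset.set_biUnion_insert, Finset.card_insert_of_notMem ha]
      convert this using 1
      push_cast
      ring
  have hrest : Ind X (⋃ y ∈ F, O y)ᶜ f 0 := by
    refine Ind.nofix (K' := Ka \ ⋃ y ∈ F, V y) hX
      (hX.cpt.diff (isOpen_biUnion fun y hy => hVo y hy)) ?_ (hf.mono sdiff_subset) ?_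
    · rintro y ⟨hy, hy'⟩
      refine ⟨hy, fun hV => hy' ?_⟩
      obtain ⟨z, hz, hzy⟩ := mem_iUnion₂.1 hV
      exact mem_iUnion₂.2 ⟨z, hz, hVO z hz ⟨hzy, hy⟩⟩
    · intro y hy e
      exact hy.2 (mem_iUnion₂.2 ⟨y, hF y hy.1 e, hVy y (hF y hy.1 e)⟩)
  have := Ind.add hX disjoint_compl_right (key F Finset.Subset.rfl) hrest
  rwa [union_compl_self, add_zero] at this

end Pool.Agent.Lib.MP_399f8e_an.Lk
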