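import Pool.Agent.Lib.MP_399f8e_an.Lk.TMach

open Set Filter Topology Metric

noncomputable section

namespace Pool.Agent.Lib.MP_399f8e_an.Lk

variable {β Y : Type} [MetricSpace Y] {X : Cx β Y} {A : Set β} {f : Y → Y}
  {r s ω₀ : ℝ} {φ φ' D : Ch β →ₗ[ℂ] Ch β} {O : Set Y}

namespace TLtrAux

open Classical in
theorem ltr_eq_sum (h : X.Ok ω₀) (O : Set Y) (φ : Ch β →ₗ[ℂ] Ch β) :
    X.ltr O φ = ∑ b ∈ h.fin.toFinset,
      if X.pos b ∈ O then (-1 : ℂ) ^ X.dim b * φ (sg b) b else 0 := by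
  have e : {b | b ∈ X.N ∧ X.pos b ∈ O} =
      ((h.fin.toFinset.filter fun b => X.pos b ∈ O : Finset β) : Set β) := by
    ext b
    simp
  unfold Cx.ltr
  rw [e, finsum_mem_coe_finset, Finset.sum_filter]

theorem apply_eq_sum (ψ : Ch β →ₗ[ℂ] Ch β) (F : Finset β) (z : Ch β) (hz : z.support ⊆ F)
    (b : β) : ψ z b = ∑ t ∈ F, z t * ψ (sg t) b := by
  have e : z = ∑ t ∈ F, z t • sg t := by
    conv_lhs => rw [← Finsupp.sum_single z]
    rw [Finsupp.sum_of_support_subset _ hz _ (fun _ _ => Finsupp.single_zero _)]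
    refine Finset.sum_congr rfl fun t _ => ?_
    rw [Finsupp.smul_single, smul_eq_mul, mul_one]
  conv_lhs => rw [e]
  rw [map_sum, Finsupp.finsetSum_apply]
  refine Finset.sum_congr rfl fun t _ => ?_
  rw [map_smul, Finsupp.smul_apply, smul_eq_mul]

end TLtrAux

/-- Write `F` for the finite set of cells of `N`, `a σ τ = D (sg σ) τ * bd (sg τ) σ`. Then
`ltr φ - ltr φ' = ∑ σ in O, ∑ τ in F, (-1)^dim σ a σ τ + ∑ τ in O, ∑ σ in F, (-1)^dim τ a σ τ`
(expand `bd (D σ)` over the support of `D σ`, `D (bd τ)` over the faces of `τ`, which lie in `A`).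
If `a σ τ ≠ 0` then `dim τ = dim σ + 1`, `σ` is a face of `τ`, and by `hcol` both or none of the two
cells are placed in `O`; so the two sums cancel. -/
theorem Cx.Hty.ltr_eq (h : X.Ok ω₀) (hA : X.Sub A) (hO : ∀ b ∈ X.N, X.pos b ∈ O → b ∈ A)
    (hD : X.Hty A f s D φ φ')
    (hcol : ∀ b ∈ A, ∀ b' ∈ X.N, dist (X.pos b') (X.pos b) ≤ ω₀ →
      (X.pos b ∈ O ↔ X.pos b' ∉ O) → s < dist (X.pos b') (f (X.pos b))) :
    X.ltr O φ = X.ltr O φ' := by
  classical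
  set F := h.fin.toFinset with hF
  have hmF : ∀ b, b ∈ F ↔ b ∈ X.N := fun b => by simp [hF]
  have key : ∀ σ ∈ F, X.pos σ ∈ O → φ (sg σ) σ - φ' (sg σ) σ =
      ∑ τ ∈ F, D (sg σ) τ * X.bd (sg τ) σ + ∑ τ ∈ F, D (sg τ) σ * X.bd (sg σ) τ := by
    intro σ hσ hσO
    have hσN := (hmF σ).1 hσ
    have hσA := hO σ hσN hσO
    have e := congrArg (fun z : Ch β => z σ) (hD.eq σ hσA)
    simp only [Finsupp.add_apply, Finsupp.sub_apply] at e
    rw [← e, TLtrAux.apply_eq_sum X.bd F (D (sg σ)), TLtrAux.apply_eq_sum D F (X.bd (sg σ))]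
    · congr 1
      exact Finset.sum_congr rfl fun _ _ => mul_comm _ _
    · intro τ hτ
      exact (hmF τ).2 (h.face σ hσN τ hτ).1
    · intro τ hτ
      exact (hmF τ).2 ((Finsupp.mem_supported ℂ _).1 (hD.mem σ hσA) hτ).1.1
  rw [← sub_eq_zero, TLtrAux.ltr_eq_sum h, TLtrAux.ltr_eq_sum h, ← Finset.sum_sub_distrib]
  have e1 : ∀ σ ∈ F, ((if X.pos σ ∈ O then (-1 : ℂ) ^ X.dim σ * φ (sg σ) σ else 0) -
      if X.pos σ ∈ O then (-1 : ℂ) ^ X.dim σ * φ' (sg σ) σ else 0) =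
      ∑ τ ∈ F, (if X.pos σ ∈ O then (-1 : ℂ) ^ X.dim σ else 0) * (D (sg σ) τ * X.bd (sg τ) σ) +
      ∑ τ ∈ F, (if X.pos σ ∈ O then (-1 : ℂ) ^ X.dim σ else 0) *
        (D (sg τ) σ * X.bd (sg σ) τ) := by
    intro σ hσ
    by_cases hσO : X.pos σ ∈ O
    · simp only [hσO, if_true]
      rw [← mul_sub, key σ hσ hσO, mul_add, Finset.mul_sum, Finset.mul_sum]
    · simp [hσO]
  rw [Finset.sum_congr rfl e1, Finset.sum_add_distrib,
    Finset.sum_comm (f := fun σ τ => (if X.pos σ ∈ O then (-1 : ℂ) ^ X.dim σ else 0) *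
        (D (sg τ) σ * X.bd (sg σ) τ)), ← Finset.sum_add_distrib]
  refine Finset.sum_eq_zero fun σ hσ => ?_
  rw [← Finset.sum_add_distrib]
  refine Finset.sum_eq_zero fun τ hτ => ?_
  rw [← add_mul]
  by_cases ha : D (sg σ) τ * X.bd (sg τ) σ = 0
  · rw [ha, mul_zero]
  have h1 : D (sg σ) τ ≠ 0 := left_ne_zero_of_mul ha
  have h2 : X.bd (sg τ) σ ≠ 0 := right_ne_zero_of_mul ha
  have hτN := (hmF τ).1 hτ
  have hσN := (hmF σ).1 hσ
  have h2' : σ ∈ (X.bd (sg τ)).support := Finsupp.mem_support_iff.2 h2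
  obtain ⟨-, hdim, hdist⟩ := h.face τ hτN σ h2'
  have hno : σ ∈ A → ¬ (X.pos σ ∈ O ↔ X.pos τ ∉ O) := by
    intro hσA hiff
    have h3 := hcol σ hσA τ hτN (by rwa [dist_comm]) hiff
    have h4 := ((Finsupp.mem_supported ℂ _).1 (hD.mem σ hσA) (Finsupp.mem_support_iff.2 h1)).1.2
    exact absurd h4 (not_le.2 h3)
  by_cases hσO : X.pos σ ∈ O <;> by_cases hτO : X.pos τ ∈ O
  · simp only [hσO, hτO, if_true]
    rw [← hdim, pow_succ]
    ring
  · exact absurd (iff_of_true hσO hτO) (hno (hO σ hσN hσO))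
  · exact absurd (iff_of_false hσO (not_not.2 hτO)) (hno (hA.face τ (hO τ hτN hτO) σ h2'))
  · simp [hσO, hτO]

theorem Cx.Ctrl.ltr_eq_zero (h : X.Ctrl A f r φ) (hO : ∀ b ∈ X.N, X.pos b ∈ O → b ∈ A)
    (hfree : ∀ b ∈ X.N, X.pos b ∈ O → r < dist (X.pos b) (f (X.pos b))) : X.ltr O φ = 0 := by
  unfold Cx.ltr
  refine finsum_mem_of_eqOn_zero fun b hb => ?_
  have h0 : φ (sg b) b = 0 := by
    by_contra hne
    have h1 := ((Finsupp.mem_supported ℂ _).1 (h.mem b (hO b hb.1 hb.2))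
      (Finsupp.mem_support_iff.2 hne)).1.2
    exact absurd h1 (not_le.2 (hfree b hb.1 hb.2))
  simp [h0]

theorem Cx.Ok.ltr_union (h : X.Ok ω₀) {O₁ O₂ : Set Y} (hd : Disjoint O₁ O₂)
    (φ : Ch β →ₗ[ℂ] Ch β) : X.ltr (O₁ ∪ O₂) φ = X.ltr O₁ φ + X.ltr O₂ φ := by
  unfold Cx.ltr
  have e : {b | b ∈ X.N ∧ X.pos b ∈ O₁ ∪ O₂} =
      {b | b ∈ X.N ∧ X.pos b ∈ O₁} ∪ {b | b ∈ X.N ∧ X.pos b ∈ O₂} := by
    ext b
    simp only [mem_ofPred_eq, mem_union]
    tauto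
  rw [e]
  exact finsum_mem_union
    (Set.disjoint_left.2 fun b hb hb' => Set.disjoint_left.1 hd hb.2 hb'.2)
    (h.fin.subset fun _ hb => hb.1) (h.fin.subset fun _ hb => hb.1)

/-- The chain map `z ↦ aug z • v`. -/
theorem Cx.Ok.ctrl_const (h : X.Ok ω₀) (hA : X.Sub A) {y : Y} {v : β} (hv : v ∈ X.near y r)
    (hv0 : X.dim v = 0) (hvO : X.pos v ∈ O) :
    X.Ctrl A (fun _ => y) r (X.aug.smulRight (sg v)) ∧ X.ltr O (X.aug.smulRight (sg v)) = 1 := by
  classical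
  have hvch : ∀ B : Set β, v ∈ B → sg v ∈ X.ch B 0 := fun B hB =>
    Finsupp.single_mem_supported ℂ _ (show v ∈ {b | b ∈ B ∧ X.dim b = 0} from ⟨hB, hv0⟩)
  have haug : ∀ b, X.aug (sg b) = if X.dim b = 0 then 1 else 0 := fun b => by
    simp [Cx.aug]
  refine ⟨⟨fun b _ => ?_, fun b hb => ?_, fun b _ => ?_⟩, ?_⟩
  · rw [LinearMap.smulRight_apply, haug]
    by_cases hb0 : X.dim b = 0
    · rw [hb0]
      exact Submodule.smul_mem _ _ (hvch _ hv)
    · rw [if_neg hb0, zero_smul]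
      exact Submodule.zero_mem _
  · rw [LinearMap.smulRight_apply, LinearMap.smulRight_apply, map_smul,
      h.bd_zero (hvch _ hv.1), h.aug_bd b (hA.sub hb), smul_zero, zero_smul]
  · rw [LinearMap.smulRight_apply, map_smul, haug v, if_pos hv0, smul_eq_mul, mul_one]
  · rw [TLtrAux.ltr_eq_sum h, Finset.sum_eq_single v]
    · rw [if_pos hvO, LinearMap.smulRight_apply, haug v, if_pos hv0, hv0]
      simp
    · intro b _ hbv
      rw [LinearMap.smulRight_apply, Finsupp.smul_apply, Finsupp.single_eq_of_ne hbv]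
      simp
    · intro hv'
      exact absurd (h.fin.mem_toFinset.2 hv.1) hv'

/-- Trace in the basis of cells (`Finsupp.supportedEquivFinsupp`, `LinearMap.trace_eq_matrix_trace`,
or an induction free argument: `φ` restricted is the sum over `b` of the rank one maps
`z ↦ z b • φ (sg b)`). -/
theorem trOn_supported {B : Set β} (hB : B.Finite) (φ : Ch β →ₗ[ℂ] Ch β)
    (hφ : ∀ z ∈ Finsupp.supported ℂ ℂ B, φ z ∈ Finsupp.supported ℂ ℂ B) :
    trOn (Finsupp.supported ℂ ℂ B) φ = ∑ᶠ b ∈ B, φ (sg b) b := by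
  classical
  have := hB.fintype
  unfold trOn
  rw [dif_pos hφ]
  let e : Module.Basis B ℂ (Finsupp.supported ℂ ℂ B) :=
    Module.Basis.ofRepr (Finsupp.supportedEquivFinsupp B)
  rw [LinearMap.trace_eq_matrix_trace ℂ e, ← finsum_set_coe_eq_finsum_mem,
    finsum_eq_sum_of_fintype, Matrix.trace]
  refine Finset.sum_congr rfl fun i _ => ?_
  rw [Matrix.diag_apply, LinearMap.toMatrix_apply]
  have h1 : ((e i : Finsupp.supported ℂ ℂ B) : Ch β) = sg (i : β) :=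
    Finsupp.supportedEquivFinsupp_symm_single (R := ℂ) B i 1
  show ((φ.restrict hφ (e i) : Finsupp.supported ℂ ℂ B) : Ch β) i = _
  rw [LinearMap.coe_restrict_apply, h1]

/-- Sort the cells by dimension. -/
theorem Cx.Ctrl.ltr_univ (h : X.Ok ω₀) (hφ : X.Ctrl X.N f r φ) :
    ∑ k ∈ Finset.range 4, (-1 : ℂ) ^ k * trOn (X.ch X.N k) φ = X.ltr univ φ := by
  classical
  have e1 : ∀ k, (-1 : ℂ) ^ k * trOn (X.ch X.N k) φ =
      ∑ b ∈ h.fin.toFinset with X.dim b = k, (-1 : ℂ) ^ X.dim b * φ (sg b) b := by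
    intro k
    have e : {b | b ∈ X.N ∧ X.dim b = k} =
        ((h.fin.toFinset.filter fun b => X.dim b = k : Finset β) : Set β) := by
      ext b
      simp
    have h1 := trOn_supported (B := {b | b ∈ X.N ∧ X.dim b = k}) (h.fin.subset fun _ hb => hb.1) φ
      (fun z hz => (hφ.map_ch (k := k) hz).1)
    unfold Cx.ch
    rw [h1, e, finsum_mem_coe_finset, Finset.mul_sum]
    refine Finset.sum_congr rfl fun b hb => ?_
    rw [(Finset.mem_filter.1 hb).2]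
  rw [Finset.sum_congr rfl fun k _ => e1 k, Finset.sum_fiberwise_of_maps_to,
    TLtrAux.ltr_eq_sum h]
  · simp
  · intro b _
    exact Finset.mem_range.2 (Nat.lt_succ_of_le (h.dim_le b))

end Pool.Agent.Lib.MP_399f8e_an.Lk
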