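import Pool.Agent.Lib.MP_399f8e_an.Lk.TDefs

open Set Filter Topology Metric

noncomputable section

namespace Pool.Agent.Lib.MP_399f8e_an.Lk

variable {X : Type} [MetricSpace X] [CompactSpace X] {ψ : ℝ → X → X} {Ψ : Ci × (ℝ × ℝ) → X}
  {θ : X → Ci} {Δ : X → ℝ → ℝ} {g : ℝ → X → X} {N ρ : ℕ}

theorem lf_coe (a : Ci) : ((lf a : ℝ) : Ci) = a := by
  exact AddCircle.coe_equivIoc

theorem lf_zero : lf 0 = 0 := by
  have h : ((0 : ℝ) : Ci) = 0 := rfl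
  unfold lf
  rw [← h]
  exact AddCircle.equivIoc_coe_of_mem (by constructor <;> norm_num)

theorem abs_lf (a : Ci) : |lf a| = ‖a‖ := by
  have h1 : lf a ∈ Ioc (-1 / 2 : ℝ) (-1 / 2 + 1) := (AddCircle.equivIoc (1 : ℝ) (-1 / 2) a).2
  have h2 : ‖((lf a : ℝ) : Ci)‖ = |lf a| := by
    rw [AddCircle.norm_coe_eq_abs_iff (1 : ℝ) one_ne_zero, abs_one, abs_le]
    constructor <;> linarith [h1.1, h1.2]
  rw [← h2, lf_coe]

theorem continuousAt_lf {a : Ci} (h : ‖a‖ < 1 / 2) : ContinuousAt lf a := by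
  have hne : a ≠ ((-1 / 2 : ℝ) : Ci) := by
    rintro rfl
    have h2 : ‖((-1 / 2 : ℝ) : Ci)‖ = |(-1 / 2 : ℝ)| := by
      rw [AddCircle.norm_coe_eq_abs_iff (1 : ℝ) one_ne_zero, abs_one, abs_le]
      constructor <;> norm_num
    rw [h2, abs_of_neg (by norm_num)] at h
    linarith
  exact continuous_subtype_val.continuousAt.comp (AddCircle.continuousAt_equivIoc (1 : ℝ) _ hne)

/-- Two reals with the same class and at distance less than one are equal. -/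
theorem eq_of_coe_eq {a b : ℝ} (h : (a : Ci) = (b : Ci)) (hab : |a - b| < 1) : a = b := by
  have h0 : ((a - b : ℝ) : Ci) = 0 := by rw [AddCircle.coe_sub, h, sub_self]
  obtain ⟨n, hn⟩ := (AddCircle.coe_eq_zero_iff (1 : ℝ)).1 h0
  rw [zsmul_eq_mul, mul_one] at hn
  rw [← hn] at hab
  have h1 : |n| < 1 := by exact_mod_cast hab
  have h2 : n = 0 := by
    rw [abs_lt] at h1
    omega
  rw [h2] at hn
  have : a - b = 0 := by rw [← hn]; simp
  linarith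

theorem TopData.tube_cpt (h : TopData ψ Ψ θ Δ g N ρ) {r : ℝ} (hr : r < 4) :
    IsCompact (tube Ψ r) := by
  refine (isCompact_univ.prod (isCompact_closedBall (0 : ℝ × ℝ) r)).image_of_continuousOn
    (h.Ψc.mono ?_)
  exact prod_mono subset_rfl (closedBall_subset_ball hr)

theorem TopData.otube_open (h : TopData ψ Ψ θ Δ g N ρ) {r : ℝ} (hr : r ≤ 4) :
    IsOpen (otube Ψ r) := by
  rw [isOpen_iff_mem_nhds]
  rintro _ ⟨q, hq, rfl⟩
  have hq4 : q ∈ (univ ×ˢ ball 0 4 : Set (Ci × (ℝ × ℝ))) :=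
    prod_mono subset_rfl (ball_subset_ball hr) hq
  refine h.Ψopn q hq4 (image_mem_map ?_)
  exact (isOpen_univ.prod isOpen_ball).mem_nhds hq

theorem TopData.mem_tube (h : TopData ψ Ψ θ Δ g N ρ) {r : ℝ} (hr : r < 4) {s : Ci} {w : ℝ × ℝ}
    (hw : ‖w‖ < 4) : Ψ (s, w) ∈ tube Ψ r ↔ ‖w‖ ≤ r := by
  constructor
  · rintro ⟨q, hq, hqe⟩
    have hq4 : q ∈ (univ ×ˢ ball 0 4 : Set (Ci × (ℝ × ℝ))) :=
      prod_mono subset_rfl (closedBall_subset_ball hr) hq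
    have := h.Ψinj hq4 (show (s, w) ∈ (univ ×ˢ ball 0 4 : Set (Ci × (ℝ × ℝ))) from
      ⟨mem_univ _, mem_ball_zero_iff.2 hw⟩) hqe
    subst this
    exact mem_closedBall_zero_iff.1 hq.2
  · intro hwr
    exact ⟨(s, w), ⟨mem_univ _, mem_closedBall_zero_iff.2 hwr⟩, rfl⟩

theorem TopData.mem_otube (h : TopData ψ Ψ θ Δ g N ρ) {r : ℝ} (hr : r ≤ 4) {s : Ci} {w : ℝ × ℝ}
    (hw : ‖w‖ < 4) : Ψ (s, w) ∈ otube Ψ r ↔ ‖w‖ < r := by
  constructor
  · rintro ⟨q, hq, hqe⟩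
    have hq4 : q ∈ (univ ×ˢ ball 0 4 : Set (Ci × (ℝ × ℝ))) :=
      prod_mono subset_rfl (ball_subset_ball hr) hq
    have := h.Ψinj hq4 (show (s, w) ∈ (univ ×ˢ ball 0 4 : Set (Ci × (ℝ × ℝ))) from
      ⟨mem_univ _, mem_ball_zero_iff.2 hw⟩) hqe
    subst this
    exact mem_ball_zero_iff.1 hq.2
  · intro hwr
    exact ⟨(s, w), ⟨mem_univ _, mem_ball_zero_iff.2 hwr⟩, rfl⟩

theorem otube_sub_tube {r r' : ℝ} (h : r ≤ r') : otube Ψ r ⊆ tube Ψ r' := by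
  exact image_mono (prod_mono subset_rfl (ball_subset_closedBall.trans (closedBall_subset_closedBall h)))

theorem tube_sub_otube {r r' : ℝ} (h : r < r') : tube Ψ r ⊆ otube Ψ r' := by
  exact image_mono (prod_mono subset_rfl (closedBall_subset_ball h))

theorem otube_mono {r r' : ℝ} (h : r ≤ r') : otube Ψ r ⊆ otube Ψ r' := by
  exact image_mono (prod_mono subset_rfl (ball_subset_ball h))

theorem TopData.inv_otube (h : TopData ψ Ψ θ Δ g N ρ) {r : ℝ} (hr : r ≤ 4) (t : ℝ) (x : X) :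
    ψ t x ∈ otube Ψ r ↔ x ∈ otube Ψ r := by
  have key : ∀ (t : ℝ) (x : X), x ∈ otube Ψ r → ψ t x ∈ otube Ψ r := by
    rintro t _ ⟨⟨s, w⟩, hq, rfl⟩
    have hw : ‖w‖ < r := mem_ball_zero_iff.1 hq.2
    rw [h.par s w t (hw.trans_le hr)]
    exact ⟨(s + (t : Ci), w), ⟨mem_univ _, hq.2⟩, rfl⟩
  refine ⟨fun hx => ?_, key t x⟩
  have := key (-t) _ hx
  rwa [← h.add, neg_add_cancel, h.zero] at this

theorem TopData.inv_tube (h : TopData ψ Ψ θ Δ g N ρ) {r : ℝ} (hr : r < 4) (t : ℝ) (x : X) :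
    ψ t x ∈ tube Ψ r ↔ x ∈ tube Ψ r := by
  have key : ∀ (t : ℝ) (x : X), x ∈ tube Ψ r → ψ t x ∈ tube Ψ r := by
    rintro t _ ⟨⟨s, w⟩, hq, rfl⟩
    have hw : ‖w‖ ≤ r := mem_closedBall_zero_iff.1 hq.2
    rw [h.par s w t (hw.trans_lt hr)]
    exact ⟨(s + (t : Ci), w), ⟨mem_univ _, hq.2⟩, rfl⟩
  refine ⟨fun hx => ?_, key t x⟩
  have := key (-t) _ hx
  rwa [← h.add, neg_add_cancel, h.zero] at this

theorem TopData.Δ_zero (h : TopData ψ Ψ θ Δ g N ρ) {x : X} (hx : x ∉ tube Ψ 0) : Δ x 0 = 0 := by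
  have := h.Δadd x hx 0 0
  rw [add_zero, h.zero] at this
  linarith

end Pool.Agent.Lib.MP_399f8e_an.Lk
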