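import Pool.Agent.Lib.MP_399f8e_an.Lk.TMap1

open Set Filter Topology Metric

noncomputable section

namespace Pool.Agent.Lib.MP_399f8e_an.Lk

variable {X : Type} [MetricSpace X] [CompactSpace X] {ψ : ℝ → X → X} {Ψ : Ci × (ℝ × ℝ) → X}
  {θ : X → Ci} {Δ : X → ℝ → ℝ} {g : ℝ → X → X} {N ρ : ℕ}
  {R : X → X} {tm : X × ℝ → ℝ} {a e₁ B₀ : ℝ}

namespace TMap3Aux

theorem n2a (h : Setup ψ Ψ θ Δ g N ρ R tm a e₁ B₀) {x : X} (hx : x ∉ otube Ψ 2) :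
    x ∉ otube Ψ a := fun hx' => hx (otube_mono h.a2.le hx')

theorem na0 (h : Setup ψ Ψ θ Δ g N ρ R tm a e₁ B₀) {x : X} (hx : x ∉ otube Ψ a) :
    x ∉ tube Ψ 0 := fun hx' => hx (tube_sub_otube (zero_lt_one.trans h.a1) hx')

theorem n20 (h : Setup ψ Ψ θ Δ g N ρ R tm a e₁ B₀) {x : X} (hx : x ∉ otube Ψ 2) :
    x ∉ tube Ψ 0 := na0 h (n2a h hx)

theorem img (h : Setup ψ Ψ θ Δ g N ρ R tm a e₁ B₀) {e : ℝ} (he : e ∈ Icc 0 e₁) {x : X}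
    (hx : x ∉ otube Ψ a) : R (g e x) ∉ otube Ψ 2 := h.isR.img _ (h.small x hx e he).1

theorem lfl_zero (h : Setup ψ Ψ θ Δ g N ρ R tm a e₁ B₀) {y : X × ℝ} (hy : y.1 ∉ tube Ψ 0) :
    lfl ψ Δ 0 y = y := by
  simp only [lfl, h.zero, h.toTopData.Δ_zero hy, add_zero]

theorem lfl_out (h : Setup ψ Ψ θ Δ g N ρ R tm a e₁ B₀) {y : X × ℝ} (hy : y.1 ∉ otube Ψ 2)
    (t : ℝ) : (lfl ψ Δ t y).1 ∉ otube Ψ 2 := fun hx =>
  hy ((h.toTopData.inv_otube (by norm_num) t y.1).1 hx)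

theorem lfl_cls (h : Setup ψ Ψ θ Δ g N ρ R tm a e₁ B₀) {y : X × ℝ} (hy : y.1 ∉ tube Ψ 0)
    (hθ : (y.2 : Ci) = θ y.1) (t : ℝ) : ((lfl ψ Δ t y).2 : Ci) = θ (lfl ψ Δ t y).1 := by
  simp only [lfl, h.Δθ _ hy, AddCircle.coe_add, hθ]

theorem coe_int (n : ℤ) : ((n : ℝ) : Ci) = 0 :=
  (AddCircle.coe_eq_zero_iff (1 : ℝ)).2 ⟨n, by simp⟩

omit [MetricSpace X] [CompactSpace X] in
theorem up_cls (n : ℤ) {y : X × ℝ} (hθ : (y.2 : Ci) = θ y.1) :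
    ((up n y).2 : Ci) = θ (up n y).1 := by
  simp only [up, AddCircle.coe_add, coe_int, add_zero, hθ]

omit [MetricSpace X] [CompactSpace X] in
theorem nl_cls (b : X → X) {y : X × ℝ} (hθ : (y.2 : Ci) = θ y.1) :
    ((nl θ b y).2 : Ci) = θ (nl θ b y).1 := by
  simp only [nl, AddCircle.coe_add, lf_coe, hθ, add_sub_cancel]

omit [MetricSpace X] [CompactSpace X] in
theorem up_lfl (n : ℤ) (t : ℝ) (y : X × ℝ) : up n (lfl ψ Δ t y) = lfl ψ Δ t (up n y) := by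
  simp only [up, lfl, add_right_comm]

omit [MetricSpace X] [CompactSpace X] in
theorem up_up (n m : ℤ) (y : X × ℝ) : up n (up m y) = up (n + m) y := by
  simp only [up, Int.cast_add, add_assoc, add_comm (m : ℝ)]

omit [MetricSpace X] [CompactSpace X] in
theorem up_zero (y : X × ℝ) : up 0 y = y := by
  simp only [up, Int.cast_zero, add_zero]

omit [CompactSpace X] in
theorem up_cont (n : ℤ) : Continuous (up n : X × ℝ → X × ℝ) :=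
  continuous_fst.prodMk (continuous_snd.add continuous_const)

theorem nl_cont (h : Setup ψ Ψ θ Δ g N ρ R tm a e₁ B₀) :
    ContinuousOn (fun p : ℝ × (X × ℝ) => nl θ (fun x => R (g p.1 x)) p.2)
      (Icc 0 e₁ ×ˢ ((otube Ψ a)ᶜ ×ˢ univ)) := by
  have h1 : Continuous fun p : ℝ × (X × ℝ) => g p.1 p.2.1 :=
    h.gc.comp (continuous_fst.prodMk continuous_snd.fst)
  have h2 : ContinuousOn (fun p : ℝ × (X × ℝ) => R (g p.1 p.2.1))
      (Icc 0 e₁ ×ˢ ((otube Ψ a)ᶜ ×ˢ univ)) :=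
    h.isR.cont.comp h1.continuousOn fun p hp => (h.small _ hp.2.1 _ hp.1).1
  have h3 : ContinuousOn (fun p : ℝ × (X × ℝ) => θ (R (g p.1 p.2.1)) - θ p.2.1)
      (Icc 0 e₁ ×ˢ ((otube Ψ a)ᶜ ×ˢ univ)) :=
    (h.θc.comp h2 fun p hp => n20 h (img h hp.1 hp.2.1)).sub
      (h.θc.comp continuous_snd.fst.continuousOn fun p hp => na0 h hp.2.1)
  refine h2.prodMk (continuous_snd.snd.continuousOn.add fun p hp => ?_)
  exact ContinuousAt.comp_continuousWithinAt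
    (f := fun p : ℝ × (X × ℝ) => θ (R (g p.1 p.2.1)) - θ p.2.1)
    (continuousAt_lf ((h.small _ hp.2.1 _ hp.1).2.trans (by norm_num))) (h3 p hp)

end TMap3Aux

open TMap3Aux

theorem Setup.lfl_add (h : Setup ψ Ψ θ Δ g N ρ R tm a e₁ B₀) {y : X × ℝ} (hy : y.1 ∉ tube Ψ 0)
    (s t : ℝ) : lfl ψ Δ s (lfl ψ Δ t y) = lfl ψ Δ (t + s) y := by
  simp only [lfl, h.Δadd _ hy t s, add_assoc, ← h.add, add_comm s t]

theorem Setup.lfl_cont (h : Setup ψ Ψ θ Δ g N ρ R tm a e₁ B₀) :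
    ContinuousOn (fun p : ℝ × (X × ℝ) => lfl ψ Δ p.1 p.2) (univ ×ˢ ((tube Ψ 0)ᶜ ×ˢ univ)) := by
  refine (h.cont.comp (continuous_fst.prodMk continuous_snd.fst)).continuousOn.prodMk
    (continuous_snd.snd.continuousOn.add ?_)
  exact h.Δc.comp (continuous_snd.fst.prodMk continuous_fst).continuousOn
    fun p hp => ⟨hp.2.1, trivial⟩

theorem Setup.FF_cont (h : Setup ψ Ψ θ Δ g N ρ R tm a e₁ B₀) (n : ℤ) :
    ContinuousOn (fun p : ℝ × (X × ℝ) => FF ψ θ Δ g R tm n p.1 p.2)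
      (Icc 0 e₁ ×ˢ ((otube Ψ a)ᶜ ×ˢ univ)) := by
  have h1 := (up_cont n).comp_continuousOn (nl_cont h)
  have h2 := h.isTm.cont.comp h1 fun p hp => ⟨n2a h (img h hp.1 hp.2.1), trivial⟩
  exact h.lfl_cont.comp (h2.prodMk h1) fun p hp => ⟨trivial, n20 h (img h hp.1 hp.2.1), trivial⟩

theorem Setup.FF_page (h : Setup ψ Ψ θ Δ g N ρ R tm a e₁ B₀) (n : ℤ) {e : ℝ} (he : e ∈ Icc 0 e₁)
    {y : X × ℝ} (hy : y.1 ∉ otube Ψ a) (hθ : (y.2 : Ci) = θ y.1) :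
    FF ψ θ Δ g R tm n e y ∈ page Ψ θ Δ := by
  have h1 : (up n (nl θ (fun x => R (g e x)) y)).1 ∉ otube Ψ 2 := img h he hy
  exact ⟨lfl_out h h1 _, lfl_cls h (n20 h h1) (up_cls n (nl_cls _ hθ)) _, h.isTm.lev0 _ (n2a h h1)⟩

theorem Setup.page_sub (h : Setup ψ Ψ θ Δ g N ρ R tm a e₁ B₀) :
    page Ψ θ Δ ⊆ ovr θ (otube Ψ 2)ᶜ B₀ := by
  rintro y ⟨h1, h2, h3⟩
  refine ⟨h1, h2, ?_⟩
  have h4 := h.B0 _ (n2a h h1)
  rw [eq_neg_of_add_eq_zero_left h3, abs_neg]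
  exact h4

theorem Setup.nl_id (h : Setup ψ Ψ θ Δ g N ρ R tm a e₁ B₀) {y : X × ℝ} (hy : y.1 ∉ otube Ψ 2) :
    nl θ (fun x => R (g 0 x)) y = y := by
  simp only [nl, h.g0, h.isR.out _ hy, sub_self, lf_zero, add_zero]

theorem Setup.FF_id (h : Setup ψ Ψ θ Δ g N ρ R tm a e₁ B₀) {y : X × ℝ} (hy : y ∈ page Ψ θ Δ) :
    FF ψ θ Δ g R tm 0 0 y = y := by
  have h0 := lfl_zero h (n20 h hy.1)
  have h1 := h.isTm.uniq y (n2a h hy.1) 0 (by rw [h0]; exact hy.2.2)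
  rw [FF, h.nl_id hy.1, up_zero, ← h1, h0]

/-- `up` commutes with `lfl`; two points of level zero on one line of `lfl` are equal (`uniq`). -/
theorem Setup.FF_mul (h : Setup ψ Ψ θ Δ g N ρ R tm a e₁ B₀) (n m : ℤ) {y : X × ℝ}
    (hy : y.1 ∉ otube Ψ a) (hθ : (y.2 : Ci) = θ y.1) :
    FF ψ θ Δ g R tm n 0 (FF ψ θ Δ g R tm m 0 y) = FF ψ θ Δ g R tm (n + m) 0 y := by
  have he : (0 : ℝ) ∈ Icc 0 e₁ := ⟨le_rfl, h.e0.le⟩
  have hw := h.FF_page m he hy hθ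
  have h1 : (up (n + m) (nl θ (fun x => R (g 0 x)) y)).1 ∉ otube Ψ 2 := img h he hy
  have h2 : up n (FF ψ θ Δ g R tm m 0 y) = lfl ψ Δ (tm (up m (nl θ (fun x => R (g 0 x)) y)))
      (up (n + m) (nl θ (fun x => R (g 0 x)) y)) := by
    rw [FF, up_lfl, up_up]
  have h3 := h.isTm.lev0 (up n (FF ψ θ Δ g R tm m 0 y)) (n2a h hw.1)
  rw [FF, h.nl_id hw.1]
  generalize tm (up n (FF ψ θ Δ g R tm m 0 y)) = t at h3 ⊢
  rw [h2, h.lfl_add (n20 h h1)] at h3 ⊢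
  rw [h.isTm.uniq _ (n2a h h1) _ h3, FF]

/-- A fixed point is on the page, so `ψ t x = x` and `Δ x t = -n`; `t ≠ 0`; for `t < 0` use
`Δ x (-t) = n`. -/
theorem Setup.FF_nofix (h : Setup ψ Ψ θ Δ g N ρ R tm a e₁ B₀) {n : ℤ} (hn : n ≠ 0) (hnN : |n| < N)
    {y : X × ℝ} (hy : y.1 ∉ otube Ψ a) (hθ : (y.2 : Ci) = θ y.1) :
    FF ψ θ Δ g R tm n 0 y ≠ y := by
  intro hf
  have hp : y ∈ page Ψ θ Δ := hf ▸ h.FF_page n ⟨le_rfl, h.e0.le⟩ hy hθ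
  rw [FF, h.nl_id hp.1] at hf
  generalize tm (up n y) = t at hf
  have h0 := na0 h hy
  have h1 : ψ t y.1 = y.1 := congrArg Prod.fst hf
  have h2 : y.2 + n + Δ y.1 t = y.2 := congrArg Prod.snd hf
  have h3 : ((|n| : ℤ) : ℝ) ≤ (N : ℝ) - 1 := by
    have : |n| ≤ (N : ℤ) - 1 := by omega
    exact_mod_cast this
  rw [Int.cast_abs, abs_le] at h3
  rcases lt_trichotomy t 0 with ht | rfl | ht
  · have h4 : ψ (-t) y.1 = y.1 := by
      conv_lhs => rw [← h1, ← h.add, neg_add_cancel, h.zero]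
    have h5 := h.Δadd _ h0 t (-t)
    rw [add_neg_cancel, h.toTopData.Δ_zero h0, h1] at h5
    have h6 := h.per _ h0 (-t) (neg_pos.2 ht) h4
    linarith [h3.2]
  · rw [h.toTopData.Δ_zero h0] at h2
    have : (n : ℝ) = 0 := by linarith
    exact hn (by exact_mod_cast this)
  · have h6 := h.per _ h0 t ht h1
    linarith [h3.1]

/-- `H t y = lfl (t * tm y') y'` with `y' = up 1 (FF 0 0 y)`; the level goes down from one to zero
(`mono`). -/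
theorem Setup.FF_path (h : Setup ψ Ψ θ Δ g N ρ R tm a e₁ B₀) :
    ∃ H : ℝ → X × ℝ → X × ℝ,
      ContinuousOn (fun p : ℝ × (X × ℝ) => H p.1 p.2) (Icc 0 1 ×ˢ ((otube Ψ a)ᶜ ×ˢ univ)) ∧
      ∀ y : X × ℝ, y.1 ∉ otube Ψ a → (y.2 : Ci) = θ y.1 →
        H 0 y = up 1 (FF ψ θ Δ g R tm 0 0 y) ∧ H 1 y = FF ψ θ Δ g R tm 1 0 y ∧
        ∀ t ∈ Icc (0 : ℝ) 1, H t y ∈ ovr θ (otube Ψ 2)ᶜ (B₀ + 1) := by
  have he : (0 : ℝ) ∈ Icc 0 e₁ := ⟨le_rfl, h.e0.le⟩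
  have hout : ∀ y : X × ℝ, y.1 ∉ otube Ψ a → (up 1 (FF ψ θ Δ g R tm 0 0 y)).1 ∉ otube Ψ 2 :=
    fun y hy => lfl_out h (y := up 0 (nl θ (fun x => R (g 0 x)) y)) (img h he hy) _
  refine ⟨fun t y => lfl ψ Δ (t * tm (up 1 (FF ψ θ Δ g R tm 0 0 y)))
    (up 1 (FF ψ θ Δ g R tm 0 0 y)), ?_, fun y hy hθ => ⟨?_, ?_, fun t ht => ?_⟩⟩
  · have h1 : ContinuousOn (fun p : ℝ × (X × ℝ) => up 1 (FF ψ θ Δ g R tm 0 0 p.2))
        (Icc 0 1 ×ˢ ((otube Ψ a)ᶜ ×ˢ univ)) :=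
      (up_cont 1).comp_continuousOn ((h.FF_cont 0).comp
        (f := fun p : ℝ × (X × ℝ) => ((0 : ℝ), p.2))
        (continuous_const.prodMk continuous_snd).continuousOn fun p hp => ⟨he, hp.2⟩)
    have h2 := h.isTm.cont.comp h1 fun p hp => ⟨n2a h (hout _ hp.2.1), trivial⟩
    exact h.lfl_cont.comp ((continuous_fst.continuousOn.mul h2).prodMk h1)
      fun p hp => ⟨trivial, n20 h (hout _ hp.2.1), trivial⟩
  · simp only [zero_mul]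
    exact lfl_zero h (n20 h (hout y hy))
  · have h1 := h.FF_mul 1 0 hy hθ
    rw [FF, h.nl_id (h.FF_page 0 he hy hθ).1, add_zero] at h1
    simp only [one_mul]
    exact h1
  · have hw := h.FF_page 0 he hy hθ
    have ho := hout y hy
    have hc := up_cls 1 hw.2.1
    have hl : lev Δ (up 1 (FF ψ θ Δ g R tm 0 0 y)) = 1 := by
      have := hw.2.2
      simp only [lev, up, Int.cast_one] at this ⊢
      linarith
    beta_reduce
    generalize up 1 (FF ψ θ Δ g R tm 0 0 y) = z at ho hc hl ⊢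
    have hm := h.isTm.mono z (n2a h ho)
    have h0 : lev Δ (lfl ψ Δ 0 z) = 1 := by rw [lfl_zero h (n20 h ho), hl]
    have h1 := h.isTm.lev0 z (n2a h ho)
    have h2 : tm z < 0 := hm.lt_iff_lt.1 (by simp only [h0, h1, zero_lt_one])
    have h3 := hm.monotone (show t * tm z ≤ 0 by nlinarith [ht.1])
    have h4 := hm.monotone (show tm z ≤ t * tm z by nlinarith [ht.2])
    simp only [h0, h1] at h3 h4
    have h5 := abs_le.1 (h.B0 _ (n2a h (lfl_out h ho (t * tm z))))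
    refine ⟨lfl_out h ho _, lfl_cls h (n20 h ho) hc _, abs_le.2 ?_⟩
    rw [lev] at h3 h4
    constructor <;> linarith [h5.1, h5.2]

end Pool.Agent.Lib.MP_399f8e_an.Lk
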