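import Pool.Agent.Lib.MP_399f8e_an.Lk.TMap1

open Set Filter Topology Metric

noncomputable section

namespace Pool.Agent.Lib.MP_399f8e_an.Lk

variable {X : Type} [MetricSpace X] [CompactSpace X] {ψ : ℝ → X → X} {Ψ : Ci × (ℝ × ℝ) → X}
  {θ : X → Ci} {Δ : X → ℝ → ℝ} {g : ℝ → X → X} {N ρ : ℕ}

namespace TMapRAux

theorem rad_of_le {w : ℝ × ℝ} (hw : 2 ≤ ‖w‖) : rad w = w := by
  have : 2 / ‖w‖ ≤ 1 := (div_le_one (by linarith)).2 hw
  rw [rad, max_eq_left this, one_smul]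

theorem norm_rad {w : ℝ × ℝ} (hw : w ≠ 0) : ‖rad w‖ = max ‖w‖ 2 := by
  have h0 : 0 < ‖w‖ := norm_pos_iff.2 hw
  rw [rad, norm_smul, Real.norm_of_nonneg (zero_le_one.trans (le_max_left _ _)),
    max_mul_of_nonneg _ _ h0.le, one_mul, div_mul_cancel₀ _ h0.ne']

theorem continuousAt_rad {w : ℝ × ℝ} (hw : w ≠ 0) : ContinuousAt rad w :=
  (continuousAt_const.max (continuousAt_const.div continuous_norm.continuousAt
    (norm_pos_iff.2 hw).ne')).smul continuousAt_id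

theorem mem_S {s : Ci} {w : ℝ × ℝ} {r : ℝ} :
    (s, w) ∈ (univ ×ˢ ball 0 r : Set (Ci × (ℝ × ℝ))) ↔ ‖w‖ < r := by
  simp

theorem isOpen_S : IsOpen (univ ×ˢ ball 0 4 : Set (Ci × (ℝ × ℝ))) :=
  isOpen_univ.prod isOpen_ball

end TMapRAux

open TMapRAux

/-- With `j = Function.invFunOn Ψ (univ ×ˢ ball 0 4)`, continuous on `otube Ψ 4` because `Ψ` is open,
`R x = Ψ ((j x).1, rad (j x).2)` on `otube Ψ 4` and `R x = x` elsewhere; off `tube Ψ 2` this is the
identity. -/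
theorem TopData.exists_R (h : TopData ψ Ψ θ Δ g N ρ) : ∃ R, IsR Ψ R := by
  classical
  set j := Function.invFunOn Ψ (univ ×ˢ ball 0 4 : Set (Ci × (ℝ × ℝ))) with hj
  have hl : ∀ q ∈ (univ ×ˢ ball 0 4 : Set (Ci × (ℝ × ℝ))), j (Ψ q) = q :=
    fun q hq => h.Ψinj.leftInvOn_invFunOn hq
  have hjc : ∀ q ∈ (univ ×ˢ ball 0 4 : Set (Ci × (ℝ × ℝ))), ContinuousAt j (Ψ q) := by
    intro q hq
    rw [ContinuousAt, hl q hq]
    refine Tendsto.mono_left ?_ (h.Ψopn q hq)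
    rw [tendsto_map'_iff]
    refine tendsto_id.congr' ?_
    filter_upwards [isOpen_S.mem_nhds hq] with q' hq' using (hl q' hq').symm
  set R : X → X := fun x => if x ∈ otube Ψ 4 then Ψ ((j x).1, rad (j x).2) else x with hR
  have hin : ∀ (s : Ci) (w : ℝ × ℝ), ‖w‖ < 4 → R (Ψ (s, w)) = Ψ (s, rad w) := by
    intro s w hw
    have : Ψ (s, w) ∈ otube Ψ 4 := ⟨_, mem_S.2 hw, rfl⟩
    simp only [hR, if_pos this, hl _ (mem_S.2 hw)]
  have hout : ∀ x, x ∉ otube Ψ 2 → R x = x := by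
    intro x hx
    by_cases h4 : x ∈ otube Ψ 4
    · obtain ⟨⟨s, w⟩, hq, rfl⟩ := h4
      have hw := mem_S.1 hq
      rw [h.mem_otube (by norm_num) hw, not_lt] at hx
      rw [hin s w hw, rad_of_le hx]
    · simp only [hR, if_neg h4]
  have hne : ∀ (s : Ci) (w : ℝ × ℝ), ‖w‖ < 4 → Ψ (s, w) ∉ tube Ψ 0 → w ≠ 0 := by
    rintro s w hw hx rfl
    exact hx ((h.mem_tube (by norm_num) hw).2 (by simp))
  have hlt : ∀ w : ℝ × ℝ, w ≠ 0 → ‖w‖ < 4 → ‖rad w‖ < 4 := fun w h0 hw => by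
    rw [norm_rad h0]
    exact max_lt hw (by norm_num)
  refine ⟨R, fun x hx => ContinuousAt.continuousWithinAt ?_, hout, fun s w _ hw => hin s w hw,
    fun x hx => ?_⟩
  · by_cases h4 : x ∈ otube Ψ 4
    · have hn := (h.otube_open le_rfl).mem_nhds h4
      obtain ⟨⟨s, w⟩, hq, rfl⟩ := h4
      have hw := mem_S.1 hq
      have h0 := hne s w hw hx
      have c1 := hjc _ hq
      have c2 : ContinuousAt (fun y => rad (j y).2) (Ψ (s, w)) :=
        ContinuousAt.comp_of_eq (continuousAt_rad h0) c1.snd (by rw [hl _ hq])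
      have c3 : ContinuousAt Ψ (s, rad w) :=
        h.Ψc.continuousAt (isOpen_S.mem_nhds (mem_S.2 (hlt w h0 hw)))
      have c4 : ContinuousAt (fun y => Ψ ((j y).1, rad (j y).2)) (Ψ (s, w)) :=
        ContinuousAt.comp_of_eq c3 (c1.fst.prodMk c2) (by rw [hl _ hq])
      refine c4.congr ?_
      filter_upwards [hn] with y hy
      simp only [hR, if_pos hy]
    · have h2 : x ∈ (tube Ψ 2)ᶜ := fun a => h4 (tube_sub_otube (by norm_num) a)
      have hn := (h.tube_cpt (r := 2) (by norm_num)).isClosed.isOpen_compl.mem_nhds h2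
      refine continuousAt_id.congr ?_
      filter_upwards [hn] with y hy using (hout y fun a => hy (otube_sub_tube le_rfl a)).symm
  · by_cases h4 : x ∈ otube Ψ 4
    · obtain ⟨⟨s, w⟩, hq, rfl⟩ := h4
      have hw := mem_S.1 hq
      have h0 := hne s w hw hx
      rw [hin s w hw, h.mem_otube (by norm_num) (hlt w h0 hw), norm_rad h0, not_lt]
      exact le_max_right _ _
    · have h2 : x ∉ otube Ψ 2 := fun a => h4 (otube_mono (by norm_num) a)
      rwa [hout x h2]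

/-- For small `e` the push keeps the complement of `otube Ψ 1` off the core (tube lemma). The function
`‖θ (R (g e x)) - θ x‖` is continuous there and vanishes for `e = 0`, `x ∉ otube Ψ 2`; use uniform
continuity, or a tube lemma and the fact that the compact sets (otube Ψ a)ᶜ` decrease to
(otube Ψ 2)ᶜ` as `a` increases to two. -/
theorem TopData.exists_small (h : TopData ψ Ψ θ Δ g N ρ) {R : X → X} (hR : IsR Ψ R) :
    ∃ a e₁ : ℝ, 1 < a ∧ a < 2 ∧ 0 < e₁ ∧ e₁ ≤ 1 / 2 ∧ ∀ x, x ∉ otube Ψ a → ∀ e ∈ Icc 0 e₁,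
      g e x ∉ tube Ψ 0 ∧ ‖θ (R (g e x)) - θ x‖ < 1 / 4 := by
  have hO : IsOpen (tube Ψ 0)ᶜ := (h.tube_cpt (r := 0) (by norm_num)).isClosed.isOpen_compl
  have hK : IsCompact (otube Ψ 2)ᶜ := (h.otube_open (by norm_num)).isClosed_compl.isCompact
  have key : {p : ℝ × X | g p.1 p.2 ∉ tube Ψ 0 ∧ ‖θ (R (g p.1 p.2)) - θ p.2‖ < 1 / 4} ∈
      𝓝ˢ (({0} : Set ℝ) ×ˢ (otube Ψ 2)ᶜ) := by
    rw [mem_nhdsSet_iff_forall]
    rintro ⟨e, x⟩ ⟨he, hx⟩
    obtain rfl : e = 0 := he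
    have hx : x ∉ otube Ψ 2 := hx
    have hx0 : x ∈ (tube Ψ 0)ᶜ := fun a => hx (tube_sub_otube (by norm_num) a)
    have n0 := hO.mem_nhds hx0
    have c1 : ContinuousAt (fun p : ℝ × X => g p.1 p.2) (0, x) := h.gc.continuousAt
    have c2 : ContinuousAt (fun p : ℝ × X => R (g p.1 p.2)) (0, x) :=
      ContinuousAt.comp_of_eq (hR.cont.continuousAt n0) c1 (h.g0 x)
    have c3 : ContinuousAt (fun p : ℝ × X => θ (R (g p.1 p.2))) (0, x) :=
      ContinuousAt.comp_of_eq (h.θc.continuousAt n0) c2 (by simp only [h.g0, hR.out x hx])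
    have c4 : ContinuousAt (fun p : ℝ × X => θ p.2) (0, x) :=
      ContinuousAt.comp_of_eq (h.θc.continuousAt n0) continuousAt_snd rfl
    have e1 : ∀ᶠ p : ℝ × X in 𝓝 (0, x), g p.1 p.2 ∈ (tube Ψ 0)ᶜ :=
      c1.eventually_mem (by rwa [h.g0])
    have e2 : ∀ᶠ p : ℝ × X in 𝓝 (0, x), ‖θ (R (g p.1 p.2)) - θ p.2‖ < 1 / 4 :=
      (c3.sub c4).norm.eventually_lt continuousAt_const
        (by
          show ‖θ (R (g 0 x)) - θ x‖ < 1 / 4
          rw [h.g0, hR.out x hx, sub_self, norm_zero]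
          norm_num)
    exact e1.and e2
  rw [isCompact_singleton.nhdsSet_prod_eq hK, mem_prod_iff] at key
  obtain ⟨u, hu, v, hv, huv⟩ := key
  rw [nhdsSet_singleton, Metric.mem_nhds_iff] at hu
  obtain ⟨ε, hε, hu⟩ := hu
  obtain ⟨v', o, h1, h2⟩ := mem_nhdsSet_iff_exists.1 hv
  have : Nonempty (Ioo (1 : ℝ) 2) := ⟨⟨3 / 2, by norm_num, by norm_num⟩⟩
  obtain ⟨a, ha⟩ := o.isClosed_compl.isCompact.elim_directed_cover
    (fun a : Ioo (1 : ℝ) 2 => otube Ψ a) (fun a => h.otube_open (by linarith [a.2.2]))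
    (fun x hx => by
      have hx2 : x ∈ otube Ψ 2 := by_contra fun a => hx (h1 a)
      obtain ⟨⟨s, w⟩, hq, rfl⟩ := hx2
      have hw := mem_S.1 hq
      obtain ⟨a, a1, a2⟩ := exists_between (max_lt hw (by norm_num : (1 : ℝ) < 2))
      exact mem_iUnion.2 ⟨⟨a, (le_max_right _ _).trans_lt a1, a2⟩, _,
        mem_S.2 ((le_max_left _ _).trans_lt a1), rfl⟩)
    (Monotone.directed_le fun a b hab => otube_mono hab)
  refine ⟨a, min (ε / 2) (1 / 2), a.2.1, a.2.2, lt_min (by linarith) (by norm_num),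
    min_le_right _ _, fun x hx e he => huv (a := (e, x)) ⟨hu ?_, h2 (by_contra fun b => hx (ha b))⟩⟩
  rw [mem_ball_zero_iff, Real.norm_of_nonneg he.1]
  linarith [he.2.trans (min_le_left _ _)]

end Pool.Agent.Lib.MP_399f8e_an.Lk
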