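import Pool.Agent.Lib.MP_399f8e_an.Lk.TSad1

open Set Filter Topology Metric

noncomputable section

namespace Pool.Agent.Lib.MP_399f8e_an.Lk

variable {β Y : Type} [MetricSpace Y] {X : ℝ → Cx β Y} {Ka G : Set Y} {e : P3 → Y}

namespace TSadAux

theorem nle {u : P3} {r : ℝ} (hr : 0 ≤ r) :
    u ∈ closedBall (0 : P3) r ↔ |u 0| ≤ r ∧ |u 1| ≤ r ∧ |u 2| ≤ r := by
  rw [mem_closedBall_zero_iff, pi_norm_le_iff_of_nonneg hr, Fin.forall_fin_succ,
    Fin.forall_fin_two]
  rfl

theorem nlt {u : P3} {r : ℝ} (hr : 0 < r) :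
    u ∈ ball (0 : P3) r ↔ |u 0| < r ∧ |u 1| < r ∧ |u 2| < r := by
  rw [mem_ball_zero_iff, pi_norm_lt_iff hr, Fin.forall_fin_succ, Fin.forall_fin_two]
  rfl

/-- the boxes -/
def box (S : Set ℝ) : Set P3 := {u | |u 0| < 1 ∧ |u 2| < 1 ∧ u 1 ∈ S}

theorem box_open {S : Set ℝ} (hS : IsOpen S) : IsOpen (box S) := by
  have h0 : IsOpen {u : P3 | |u 0| < 1} := isOpen_lt (by fun_prop) continuous_const
  have h2 : IsOpen {u : P3 | |u 2| < 1} := isOpen_lt (by fun_prop) continuous_const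
  have h1 : IsOpen {u : P3 | u 1 ∈ S} := hS.preimage (continuous_apply 1)
  exact h0.inter (h2.inter h1)

theorem box_sub {S : Set ℝ} (hS : S ⊆ Icc (-1) (7 / 2)) :
    box S ⊆ closedBall (0 : P3) (7 / 2) := by
  rintro u ⟨h0, h2, h1⟩
  obtain ⟨a, b⟩ := hS h1
  refine (nle (by norm_num)).2 ⟨by linarith, abs_le.2 ⟨by linarith, b⟩, by linarith⟩

theorem c74 : closedBall (0 : P3) (7 / 2) ⊆ ball (0 : P3) 4 :=
  closedBall_subset_ball (by norm_num)

theorem box_cl {S : Set ℝ} (hS : S ⊆ Icc (-1) (7 / 2)) :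
    closure (box S) ⊆ closedBall (0 : P3) (7 / 2) :=
  closure_minimal (box_sub hS) isClosed_closedBall

theorem box_int {S : Set ℝ} (hS : S ⊆ Icc (-1) (7 / 2)) :
    closure (box S) ⊆ interior (closedBall (0 : P3) 4) :=
  (box_cl hS).trans (c74.trans (interior_maximal ball_subset_closedBall isOpen_ball))

theorem box_C {S : Set ℝ} (hS : S ⊆ Icc (-1) (7 / 2)) : box S ⊆ closedBall (0 : P3) 4 :=
  (box_sub hS).trans (c74.trans ball_subset_closedBall)

/-- the model family -/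
def md (t : ℝ) (u : P3) : P3 := ![0, max (-5) (min (2 * u 1) 3 - 2 * (1 - t)), 0]

theorem md_cont : Continuous fun p : ℝ × P3 => md p.1 p.2 := by
  unfold md
  refine continuous_pi fun i => ?_
  fin_cases i
  · exact continuous_const
  · show Continuous fun p : ℝ × P3 => max (-5) (min (2 * p.2 1) 3 - 2 * (1 - p.1))
    fun_prop
  · exact continuous_const

theorem md_mem {t : ℝ} (ht : t ∈ Icc (0 : ℝ) 1) (u : P3) : md t u ∈ closedBall (0 : P3) 5 := by
  refine (nle (by norm_num)).2 ⟨?_, ?_, ?_⟩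
  · show |(0 : ℝ)| ≤ 5
    norm_num
  · show |max (-5) (min (2 * u 1) 3 - 2 * (1 - t))| ≤ 5
    have := min_le_right (2 * u 1) 3
    exact abs_le.2 ⟨le_max_left _ _, max_le (by norm_num) (by linarith [ht.2])⟩
  · show |(0 : ℝ)| ≤ 5
    norm_num

theorem md_fix {t : ℝ} {u : P3} (hu : -5 < u 1) (h : md t u = u) :
    u 0 = 0 ∧ u 2 = 0 ∧ min (2 * u 1) 3 - 2 * (1 - t) = u 1 := by
  have h0 : (0 : ℝ) = u 0 := congrFun h 0
  have h2 : (0 : ℝ) = u 2 := congrFun h 2
  have h1 : max (-5) (min (2 * u 1) 3 - 2 * (1 - t)) = u 1 := congrFun h 1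
  refine ⟨h0.symm, h2.symm, ?_⟩
  rcases max_cases (-5) (min (2 * u 1) 3 - 2 * (1 - t)) with h3 | h3
  · linarith [h3.1]
  · linarith [h3.1]

theorem vec_ext {u v : P3} (h0 : u 0 = v 0) (h1 : u 1 = v 1) (h2 : u 2 = v 2) : u = v := by
  funext i
  fin_cases i
  · exact h0
  · exact h1
  · exact h2

theorem low {u : P3} (hu : u ∈ closedBall (0 : P3) 4) : -5 < u 1 := by
  have := (abs_le.1 ((nle (by norm_num)).1 hu).2.1).1
  linarith

theorem c45 : closedBall (0 : P3) 4 ⊆ ball (0 : P3) 5 := closedBall_subset_ball (by norm_num)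

theorem slice {K' : Set Y} {H : ℝ → Y → Y} (hH : Path Ka G K' H) {t : ℝ}
    (ht : t ∈ Icc (0 : ℝ) 1) : ContinuousOn (H t) K' := by
  have h1 : ContinuousOn (fun y : Y => ((t, y) : ℝ × Y)) K' := by fun_prop
  exact hH.cont.comp h1 fun y hy => ⟨ht, hy⟩

theorem path_const {K' : Set Y} {H : ℝ → Y → Y} (hH : Path Ka G K' H) {t : ℝ}
    (ht : t ∈ Icc (0 : ℝ) 1) : Path Ka G K' fun _ => H t :=
  ⟨hH.cpt, hH.sub, (slice hH ht).comp continuousOn_snd fun _ hp => hp.2,
    fun _ _ y hy => hH.maps t ht y hy⟩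

theorem img_disj (he : Chart Ka G e) {A B : Set P3} (hA : A ⊆ closedBall 0 4)
    (hB : B ⊆ closedBall 0 4) (h : Disjoint A B) : Disjoint (e '' A) (e '' B) := by
  have h5 : closedBall (0 : P3) 4 ⊆ closedBall 0 5 := closedBall_subset_closedBall (by norm_num)
  rw [Set.disjoint_left]
  rintro _ ⟨a, ha, rfl⟩ ⟨b, hb, hab⟩
  have := he.inj (h5 (hB hb)) (h5 (hA ha)) hab
  exact Set.disjoint_left.1 h ha (this ▸ hb)

/-- the index of the model -/
theorem model (hX : Fam X Ka G) (he : Chart Ka G e) :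
    ∃ f₀ : Y → Y, (∀ u ∈ closedBall (0 : P3) 4, f₀ (e u) = e (md 1 u)) ∧
      Ind X (e '' ball 0 1) f₀ (-1) := by
  have h5 : closedBall (0 : P3) 4 ⊆ closedBall 0 5 := closedBall_subset_closedBall (by norm_num)
  have m0 : (0 : ℝ) ∈ Icc (0 : ℝ) 1 := ⟨le_rfl, zero_le_one⟩
  have m1 : (1 : ℝ) ∈ Icc (0 : ℝ) 1 := ⟨zero_le_one, le_rfl⟩
  have sU : Ioo (-1 : ℝ) (7 / 2) ⊆ Icc (-1) (7 / 2) := Ioo_subset_Icc_self
  have s2 : Icc (1 : ℝ) 2 ⊆ Icc (-1) (7 / 2) := Icc_subset_Icc (by norm_num) (by norm_num)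
  have s3 : Ioo (2 : ℝ) (7 / 2) ⊆ Icc (-1) (7 / 2) := fun y hy =>
    ⟨by linarith [hy.1], hy.2.le⟩
  have cC : IsCompact (closedBall (0 : P3) 4) := isCompact_closedBall _ _
  obtain ⟨H, hH, hnb, hHe, hcol⟩ := Chart.path hX he cC c45 (box_int sU) (Hm := md)
    md_cont.continuousOn (fun t ht u _ => md_mem ht u)
  have nofix : ∀ t ∈ Icc (0 : ℝ) 1, ∀ u ∈ closedBall (0 : P3) 4, H t (e u) = e u → md t u = u :=
    fun t ht u hu h => he.inj (md_mem ht u) (h5 hu) ((hHe t u hu).symm.trans h)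
  have i0 : Ind X (e '' box (Ioo (-1) (7 / 2))) (H 0) 0 := by
    refine Ind.nofix hX hH.cpt (fun y hy => image_mono (box_C sU) hy.2) (slice hH m0) ?_
    rintro _ ⟨u, hu, rfl⟩ h
    obtain ⟨-, -, h1⟩ := md_fix (low hu) (nofix 0 m0 u hu h)
    rcases min_cases (2 * u 1) 3 with h3 | h3 <;> linarith [h3.1, h3.2]
  have iU : Ind X (e '' box (Ioo (-1) (7 / 2))) (H 1) 0 := by
    refine Ind.homotopy hX hH hnb (hcol _ (box_C sU) ?_) (fun _ _ => rfl) (fun _ _ => rfl) i0
    intro t ht u hu h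
    have hu1 : u ∈ closedBall (0 : P3) 4 :=
      ball_subset_closedBall (c74 (box_cl sU (frontier_subset_closure hu)))
    obtain ⟨a0, a2, h1⟩ := md_fix (low hu1) h
    rw [(box_open isOpen_Ioo).frontier_eq] at hu
    refine hu.2 ⟨by rw [a0]; norm_num, by rw [a2]; norm_num, ?_, ?_⟩
    · rcases min_cases (2 * u 1) 3 with h3 | h3 <;> linarith [h3.1, h3.2, ht.1, ht.2]
    · linarith [min_le_right (2 * u 1) 3, ht.2]
  have i2 : Ind X (e '' box (Icc 1 2)) (H 1) 0 := by
    have cl : IsClosed {u : P3 | u 1 ∈ Icc (1 : ℝ) 2} := isClosed_Icc.preimage (continuous_apply 1)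
    have c2 : IsCompact (e '' (closedBall (0 : P3) 4 ∩ {u : P3 | u 1 ∈ Icc (1 : ℝ) 2})) :=
      (cC.inter_right cl).image_of_continuousOn (he.cont.mono (inter_subset_left.trans h5))
    have sb : box (Icc 1 2) ⊆ closedBall (0 : P3) 4 ∩ {u : P3 | u 1 ∈ Icc (1 : ℝ) 2} :=
      fun u hu => ⟨box_C s2 hu, hu.2.2⟩
    refine Ind.nofix hX c2 (fun y hy => image_mono sb hy.2)
      ((slice hH m1).mono (image_mono inter_subset_left)) ?_
    rintro _ ⟨u, ⟨hu, hu1, hu2⟩, rfl⟩ h
    obtain ⟨-, -, h1⟩ := md_fix (low hu) (nofix 1 m1 u hu h)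
    rcases min_cases (2 * u 1) 3 with h3 | h3 <;> linarith [h3.1, h3.2]
  have i3 : Ind X (e '' box (Ioo 2 (7 / 2))) (H 1) 1 := by
    have cl : IsClosed {u : P3 | (3 / 2 : ℝ) ≤ u 1} :=
      isClosed_le continuous_const (continuous_apply 1)
    have cl2 : IsClosed {u : P3 | (2 : ℝ) ≤ u 1} :=
      isClosed_le continuous_const (continuous_apply 1)
    have op : IsOpen {u : P3 | (3 / 2 : ℝ) < u 1} :=
      isOpen_lt continuous_const (continuous_apply 1)
    have hint : closure (box (Ioo 2 (7 / 2))) ⊆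
        interior (closedBall (0 : P3) 4 ∩ {u : P3 | (3 / 2 : ℝ) ≤ u 1}) := by
      rw [interior_inter]
      refine subset_inter (box_int s3) ?_
      refine (closure_minimal (fun u hu => hu.2.2.1.le) cl2).trans ?_
      have sb : {u : P3 | (3 / 2 : ℝ) < u 1} ⊆ {u : P3 | (3 / 2 : ℝ) ≤ u 1} :=
        fun u hu => le_of_lt (show (3 / 2 : ℝ) < u 1 from hu)
      refine Subset.trans (fun u hu => ?_) (interior_maximal sb op)
      have : (2 : ℝ) ≤ u 1 := hu
      show (3 / 2 : ℝ) < u 1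
      linarith
    obtain ⟨-, -, hnb3, -, -⟩ := Chart.path hX he (cC.inter_right cl)
      (inter_subset_left.trans c45) hint (Hm := md) md_cont.continuousOn
      (fun t ht u _ => md_mem ht u)
    have y3 : (![0, 3, 0] : P3) ∈ box (Ioo 2 (7 / 2)) := by
      refine ⟨?_, ?_, ?_, ?_⟩
      · show |(0 : ℝ)| < 1
        norm_num
      · show |(0 : ℝ)| < 1
        norm_num
      · show (2 : ℝ) < 3
        norm_num
      · show (3 : ℝ) < 7 / 2
        norm_num
    have y4 := box_C s3 y3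
    refine Ind.congr hX hnb3 ?_ (Ind.const hX (he.maps (h5 y4))
      (he.opn _ (c45 y4) _ ((box_open isOpen_Ioo).mem_nhds y3)))
    rintro _ ⟨u, ⟨hu, hu1⟩, rfl⟩
    have hu2 : (3 / 2 : ℝ) ≤ u 1 := hu1
    rw [hHe 1 u hu]
    refine congrArg e (vec_ext rfl ?_ rfl)
    show (3 : ℝ) = max (-5) (min (2 * u 1) 3 - 2 * (1 - 1))
    rw [min_eq_right (by linarith), max_eq_right (by norm_num)]
    norm_num
  have b4 : ball (0 : P3) 1 ⊆ closedBall 0 4 :=
    ball_subset_closedBall.trans (closedBall_subset_closedBall (by norm_num))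
  have d23 : Disjoint (e '' box (Icc 1 2)) (e '' box (Ioo 2 (7 / 2))) :=
    img_disj he (box_C s2) (box_C s3) (Set.disjoint_left.2 fun u h2 h3 => by
      linarith [h2.2.2.2, h3.2.2.1])
  have d1 : Disjoint (e '' ball 0 1) (e '' box (Icc 1 2) ∪ e '' box (Ioo 2 (7 / 2))) := by
    rw [← image_union]
    refine img_disj he b4 (union_subset (box_C s2) (box_C s3)) (Set.disjoint_left.2 ?_)
    intro u h1 h2
    have := (abs_lt.1 ((nlt one_pos).1 h1).2.1).2
    rcases h2 with h2 | h2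
    · linarith [h2.2.2.1]
    · linarith [h2.2.2.1]
  have un : e '' ball 0 1 ∪ (e '' box (Icc 1 2) ∪ e '' box (Ioo 2 (7 / 2))) =
      e '' box (Ioo (-1) (7 / 2)) := by
    rw [← image_union, ← image_union]
    congr 1
    ext u
    constructor
    · rintro (h | h | h)
      · obtain ⟨a, b, c⟩ := (nlt one_pos).1 h
        exact ⟨a, c, (abs_lt.1 b).1, by linarith [(abs_lt.1 b).2]⟩
      · exact ⟨h.1, h.2.1, by linarith [h.2.2.1], by linarith [h.2.2.2]⟩
      · exact ⟨h.1, h.2.1, by linarith [h.2.2.1], h.2.2.2⟩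
    · rintro ⟨a, c, b1, b2⟩
      rcases lt_or_ge (u 1) 1 with h | h
      · exact Or.inl ((nlt one_pos).2 ⟨a, abs_lt.2 ⟨b1, h⟩, c⟩)
      · rcases le_or_gt (u 1) 2 with h' | h'
        · exact Or.inr (Or.inl ⟨a, c, h, h'⟩)
        · exact Or.inr (Or.inr ⟨a, c, h', b2⟩)
  obtain ⟨H', -, -, hHe', hcol'⟩ := Chart.path hX he cC c45 (box_int sU)
    (Hm := fun _ => md 1)
    (md_cont.comp (continuous_const.prodMk continuous_snd)).continuousOn
    (fun _ _ u _ => md_mem m1 u)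
  have col1 : Col (e '' closedBall 0 4) (e '' ball 0 1) fun _ => H 1 := by
    have c := hcol' (ball 0 1) b4 (fun t _ u hu h => by
      rw [isOpen_ball.frontier_eq] at hu
      have hu1 : u ∈ closedBall (0 : P3) 1 := closure_ball_subset_closedBall hu.1
      have hu2 := abs_le.1 ((nle zero_le_one).1 hu1).2.1
      obtain ⟨a0, a2, h1⟩ := md_fix (by linarith [hu2.1]) h
      rw [min_eq_left (by linarith [hu2.2])] at h1
      have a1 : u 1 = 0 := by linarith
      exact hu.2 ((nlt one_pos).2 ⟨by rw [a0]; norm_num, by rw [a1]; norm_num,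
        by rw [a2]; norm_num⟩))
    intro t ht y hy1 hy2
    obtain ⟨u, hu, rfl⟩ := closure_minimal inter_subset_left hH.cpt.isClosed hy1
    have := c t ht _ hy1 hy2
    rw [hHe' t u hu] at this
    show H 1 (e u) ≠ e u
    rw [hHe 1 u hu]
    exact this
  have i1 := Ind.sub hX (path_const hH m1) (un ▸ hnb) col1 d1 (un ▸ iU) (Ind.add hX d23 i2 i3)
  refine ⟨H 1, hHe 1, ?_⟩
  simpa using i1

end TSadAux

/-- The model `f₀ (e u) = e ![0, q (u 1), 0]`, `q y = max (-5) (min (2 y) 3)`, on `C = closedBall 0 4`.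
Boxes `|u 0| < 1`, `|u 2| < 1` and `u 1` in (-1, 1)` (this is `ball 0 1`), `[1, 2]`, (2, 7/2)`,
with union (-1, 7/2)`. On the union the index is zero: the family `max (-5) (min (2 y) 3 - 2 t)` has
no fixed point on the frontier and none at all for `t = 1` (run it backwards in `Ind.homotopy`, start
from `Ind.nofix`). On the middle box `nofix` (closed box); on the last box `f₀` is the constant
`e ![0, 3, 0]` on a neighbourhood (`Ind.const`, `Ind.congr`). `Ind.add`, `Ind.sub` give `-1` on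
`ball 0 1`. Finally the family `![0, ((1 - t) 2 + t lam u) (u 1), t h u]` on `closedBall 0 (3/2)` has
the origin as only fixed point. -/
theorem Chart.saddle (hX : Fam X Ka G) (he : Chart Ka G e) {f : Y → Y} {lam h : P3 → ℝ}
    (hl : ContinuousOn lam (closedBall 0 2)) (hh : ContinuousOn h (closedBall 0 2))
    (hl1 : ∀ u ∈ closedBall (0 : P3) 2, 1 < lam u ∧ lam u ≤ 2)
    (hh1 : ∀ u ∈ closedBall (0 : P3) 2, |h u| ≤ 1)
    (hh0 : ∀ u ∈ closedBall (0 : P3) 2, u 0 = 0 → u 1 = 0 → h u = 0)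
    (hf : ∀ u ∈ closedBall (0 : P3) 2, f (e u) = e ![0, lam u * u 1, h u]) :
    Ind X (e '' ball 0 1) f (-1) := by
  obtain ⟨f₀, hf₀, i₀⟩ := TSadAux.model hX he
  have s2 : closedBall (0 : P3) (3 / 2) ⊆ closedBall 0 2 :=
    closedBall_subset_closedBall (by norm_num)
  have s4 : closedBall (0 : P3) (3 / 2) ⊆ closedBall 0 4 :=
    closedBall_subset_closedBall (by norm_num)
  have hint : closure (ball (0 : P3) 1) ⊆ interior (closedBall (0 : P3) (3 / 2)) :=
    closure_ball_subset_closedBall.trans ((closedBall_subset_ball (by norm_num)).trans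
      (interior_maximal ball_subset_closedBall isOpen_ball))
  have co : ∀ t ∈ Icc (0 : ℝ) 1, ∀ u ∈ closedBall (0 : P3) 2,
      1 < (1 - t) * 2 + t * lam u ∧ (1 - t) * 2 + t * lam u ≤ 2 := fun t ht u hu => by
    obtain ⟨a, b⟩ := hl1 u hu
    constructor
    · rcases ht.1.eq_or_lt with h0 | h0
      · rw [← h0]; norm_num
      · nlinarith [mul_pos h0 (sub_pos.2 a), ht.2]
    · nlinarith [mul_nonneg ht.1 (sub_nonneg.2 b)]
  obtain ⟨K, hK, hnb, hKe, hcol⟩ := Chart.path hX he (isCompact_closedBall (0 : P3) (3 / 2))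
    (s4.trans TSadAux.c45) hint
    (Hm := fun t u => ![0, ((1 - t) * 2 + t * lam u) * u 1, t * h u])
    (by
      have cl : ContinuousOn (fun p : ℝ × P3 => lam p.2)
          (Icc 0 1 ×ˢ closedBall (0 : P3) (3 / 2)) :=
        hl.comp continuousOn_snd fun _ hp => s2 hp.2
      have ch : ContinuousOn (fun p : ℝ × P3 => h p.2)
          (Icc 0 1 ×ˢ closedBall (0 : P3) (3 / 2)) :=
        hh.comp continuousOn_snd fun _ hp => s2 hp.2
      refine continuousOn_pi.2 fun i => ?_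
      fin_cases i
      · exact continuousOn_const
      · show ContinuousOn (fun p : ℝ × P3 => ((1 - p.1) * 2 + p.1 * lam p.2) * p.2 1) _
        have c1 : Continuous fun p : ℝ × P3 => (1 - p.1) * 2 := by fun_prop
        have c2 : Continuous fun p : ℝ × P3 => p.2 1 := by fun_prop
        exact (c1.continuousOn.add (continuousOn_fst.mul cl)).mul c2.continuousOn
      · exact continuousOn_fst.mul ch)
    (by
      intro t ht u hu
      obtain ⟨a, b⟩ := co t ht u (s2 hu)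
      have c := ((TSadAux.nle (by norm_num)).1 hu).2.1
      have d := hh1 u (s2 hu)
      refine (TSadAux.nle (by norm_num)).2 ⟨?_, ?_, ?_⟩
      · show |(0 : ℝ)| ≤ 5
        norm_num
      · show |((1 - t) * 2 + t * lam u) * u 1| ≤ 5
        rw [abs_mul, abs_of_pos (by linarith)]
        nlinarith [abs_nonneg (u 1)]
      · show |t * h u| ≤ 5
        rw [abs_mul, abs_of_nonneg ht.1]
        nlinarith [abs_nonneg (h u), ht.1, ht.2])
  have b2 : ball (0 : P3) 1 ⊆ closedBall 0 (3 / 2) :=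
    ball_subset_closedBall.trans (closedBall_subset_closedBall (by norm_num))
  refine Ind.homotopy hX hK hnb (hcol _ b2 ?_) ?_ ?_ i₀
  · intro t ht u hu hfix
    rw [isOpen_ball.frontier_eq] at hu
    have hu2 : u ∈ closedBall (0 : P3) 2 :=
      closedBall_subset_closedBall (by norm_num) (closure_ball_subset_closedBall hu.1)
    have a0 : (0 : ℝ) = u 0 := congrFun hfix 0
    have a1 : ((1 - t) * 2 + t * lam u) * u 1 = u 1 := congrFun hfix 1
    have a2 : t * h u = u 2 := congrFun hfix 2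
    have b1 : u 1 = 0 := by
      have : ((1 - t) * 2 + t * lam u - 1) * u 1 = 0 := by linarith
      rcases mul_eq_zero.1 this with h3 | h3
      · linarith [(co t ht u hu2).1]
      · exact h3
    rw [hh0 u hu2 a0.symm b1, mul_zero] at a2
    exact hu.2 ((TSadAux.nlt one_pos).2 ⟨by rw [← a0]; norm_num, by rw [b1]; norm_num,
      by rw [← a2]; norm_num⟩)
  · rintro _ ⟨u, hu, rfl⟩
    have c := abs_le.1 ((TSadAux.nle (by norm_num)).1 hu).2.1
    rw [hf₀ u (s4 hu), hKe 0 u hu]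
    refine congrArg e (TSadAux.vec_ext rfl ?_ ?_)
    · show max (-5) (min (2 * u 1) 3 - 2 * (1 - 1)) = ((1 - 0) * 2 + 0 * lam u) * u 1
      rw [min_eq_left (by linarith [c.2]), max_eq_right (by linarith [c.1])]
      ring
    · show (0 : ℝ) = 0 * h u
      ring
  · rintro _ ⟨u, hu, rfl⟩
    rw [hf u (s2 hu), hKe 1 u hu]
    refine congrArg e (TSadAux.vec_ext rfl ?_ ?_)
    · show lam u * u 1 = ((1 - 1) * 2 + 1 * lam u) * u 1
      ring
    · show h u = 1 * h u
      ring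

end Pool.Agent.Lib.MP_399f8e_an.Lk
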