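import Pool.Agent.Lib.MP_399f8e_an.Lk.TInd

open Set Filter Topology Metric

noncomputable section

namespace Pool.Agent.Lib.MP_399f8e_an.Lk

variable {β Y : Type} [MetricSpace Y] {X : ℝ → Cx β Y} {Ka G : Set Y} {e : P3 → Y}

/-- Homotopies in a chart. `j = Function.invFunOn e (closedBall 0 5)` is continuous on `e '' C`
(compact to Hausdorff), `K' = e '' C`, `H t y = e (Hm t (j y))`. `Nb`: the compact set
`e '' closure U` lies in `e '' interior C`, which is a neighbourhood in `Ka` of each of its points.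
`Col`: `e` is a homeomorphism from `C` to `K'`, so the closures are images of closures. -/
theorem Chart.path (hX : Fam X Ka G) (he : Chart Ka G e) {C U : Set P3} (hC : IsCompact C)
    (hC5 : C ⊆ ball 0 5) (hU : closure U ⊆ interior C) {Hm : ℝ → P3 → P3}
    (hc : ContinuousOn (fun p : ℝ × P3 => Hm p.1 p.2) (Icc 0 1 ×ˢ C))
    (hm : ∀ t ∈ Icc (0 : ℝ) 1, ∀ u ∈ C, Hm t u ∈ closedBall (0 : P3) 5) :
    ∃ H : ℝ → Y → Y, Path Ka G (e '' C) H ∧ Nb Ka (e '' C) (e '' U) ∧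
      (∀ t, ∀ u ∈ C, H t (e u) = e (Hm t u)) ∧
      ∀ V, V ⊆ C → (∀ t ∈ Icc (0 : ℝ) 1, ∀ u ∈ frontier V, Hm t u ≠ u) →
        Col (e '' C) (e '' V) H := by
  classical
  have hCB : C ⊆ closedBall (0 : P3) 5 := hC5.trans ball_subset_closedBall
  have heC : ContinuousOn e C := he.cont.mono hCB
  set j : Y → P3 := Function.invFunOn e (closedBall (0 : P3) 5) with hj
  have hje : ∀ u ∈ C, j (e u) = u := fun u hu => he.inj.leftInvOn_invFunOn (hCB hu)
  have hcl : ∀ T : Set P3, IsClosed T → IsClosed (e '' (T ∩ C)) := fun T hT =>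
    ((hC.inter_left hT).image_of_continuousOn (heC.mono inter_subset_right)).isClosed
  have hjc : ContinuousOn j (e '' C) := by
    rw [continuousOn_iff_isClosed]
    intro T hT
    refine ⟨e '' (T ∩ C), hcl T hT, ?_⟩
    ext y
    constructor
    · rintro ⟨hy, u, hu, rfl⟩
      refine ⟨⟨u, ⟨?_, hu⟩, rfl⟩, u, hu, rfl⟩
      rwa [mem_preimage, hje u hu] at hy
    · rintro ⟨⟨u, ⟨huT, hu⟩, rfl⟩, hy⟩
      refine ⟨?_, hy⟩
      rwa [mem_preimage, hje u hu]
  have hjm : ∀ y ∈ e '' C, j y ∈ C := by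
    rintro _ ⟨u, hu, rfl⟩
    rwa [hje u hu]
  have hH : ∀ t, ∀ u ∈ C, e (Hm t (j (e u))) = e (Hm t u) := fun t u hu => by rw [hje u hu]
  refine ⟨fun t y => e (Hm t (j y)), ⟨hC.image_of_continuousOn heC, ?_, ?_, ?_⟩, ?_, hH, ?_⟩
  · rintro _ ⟨u, hu, rfl⟩
    exact hX.sub (he.maps (hCB hu))
  · have h1 : ContinuousOn (fun p : ℝ × Y => ((p.1, j p.2) : ℝ × P3)) (Icc 0 1 ×ˢ (e '' C)) :=
      continuousOn_fst.prodMk (hjc.comp continuousOn_snd fun p hp => hp.2)
    have h2 : ContinuousOn (fun p : ℝ × Y => Hm p.1 (j p.2)) (Icc 0 1 ×ˢ (e '' C)) :=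
      hc.comp h1 fun p hp => ⟨hp.1, hjm _ hp.2⟩
    exact he.cont.comp h2 fun p hp => hm _ hp.1 _ (hjm _ hp.2)
  · intro t ht y hy
    exact he.maps (hm t ht _ (hjm y hy))
  · have hUC : closure U ⊆ C := hU.trans interior_subset
    have hK : IsCompact (e '' closure U) :=
      (hC.of_isClosed_subset isClosed_closure hUC).image_of_continuousOn (heC.mono hUC)
    have hW : e '' closure U ⊆ interior {y | y ∈ Ka → y ∈ e '' C} := by
      rintro _ ⟨u, hu, rfl⟩
      rw [mem_interior_iff_mem_nhds]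
      have h1 := he.opn u (hC5 (hUC hu)) C (mem_interior_iff_mem_nhds.1 (hU hu))
      exact mem_inf_principal.1 h1
    obtain ⟨δ, hδ, hsub⟩ := hK.exists_cthickening_subset_open isOpen_interior hW
    refine ⟨δ, hδ, fun y hy y' _ hy' hd => ?_⟩
    have h2 : y ∈ cthickening δ (e '' closure U) :=
      mem_cthickening_of_dist_le y y' δ _ (image_mono subset_closure hy') hd
    exact interior_subset (hsub h2) hy
  · intro V _ hV t ht y h1 h2 hfix
    have s1 : e '' C ∩ e '' V ⊆ e '' (closure V ∩ C) := by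
      rintro _ ⟨_, v, hv, rfl⟩
      exact ⟨v, ⟨subset_closure hv, ‹V ⊆ C› hv⟩, rfl⟩
    have s2 : e '' C \ e '' V ⊆ e '' (closure Vᶜ ∩ C) := by
      rintro _ ⟨⟨v, hv, rfl⟩, hn⟩
      exact ⟨v, ⟨subset_closure fun h => hn ⟨v, h, rfl⟩, hv⟩, rfl⟩
    obtain ⟨u, hu, rfl⟩ := closure_minimal s1 (hcl _ isClosed_closure) h1
    obtain ⟨u', hu', hee⟩ := closure_minimal s2 (hcl _ isClosed_closure) h2
    have huu : u' = u := he.inj (hCB hu'.2) (hCB hu.2) hee
    subst huu
    have hf : u' ∈ frontier V := by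
      rw [frontier_eq_closure_inter_closure]
      exact ⟨hu.1, hu'.1⟩
    have h3 : e (Hm t u') = e u' := (hH t u' hu.2).symm.trans hfix
    exact hV t ht u' hf (he.inj (hm t ht u' hu.2) (hCB hu.2) h3)

end Pool.Agent.Lib.MP_399f8e_an.Lk
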